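import Mathlib

/-!
States on positively ordered commutative monoids with an order unit.
-/

namespace Pool.Agent.Lib.MP_f90f6c_an.H50

set_option linter.unusedSectionVars false

variable {M : Type*} [AddCommMonoid M] [PartialOrder M] [IsOrderedAddMonoid M]

/-- a state normalized at `u` -/
structure IsState (u : M) (s : M →+ ℝ) : Prop where
  mono : Monotone s
  unit : s u = 1

/-- the class of functionals used for the sandwich argument -/
structure Sub (u b : M) (t : ℝ) (p : M → ℝ) : Prop where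
  nonneg : ∀ x, 0 ≤ p x
  mono : Monotone p
  add : ∀ x y, p (x + y) ≤ p x + p y
  shift : ∀ x, p x + 1 ≤ p (x + u)
  unit : p u ≤ 1
  le : p b ≤ t

lemma Sub.nsmul_le {u b : M} {t : ℝ} {p : M → ℝ} (hp : Sub u b t p) (x : M) (k : ℕ) :
    p ((k + 1) • x) ≤ (k + 1) * p x := by
  induction k with
  | zero => simp
  | succ k ih =>
    rw [succ_nsmul]
    have := hp.add ((k + 1) • x) x
    push_cast
    linarith

lemma Sub.shift_nsmul {u b : M} {t : ℝ} {p : M → ℝ} (hp : Sub u b t p) (x : M) (k : ℕ) :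
    p x + k ≤ p (x + k • u) := by
  induction k with
  | zero => simp
  | succ k ih =>
    rw [succ_nsmul, ← add_assoc]
    have := hp.shift (x + k • u)
    push_cast
    linarith

lemma sub_iInf {u b : M} {t : ℝ} {ι : Type*} [Nonempty ι] (q : ι → M → ℝ) (h0 : ∀ i x, 0 ≤ q i x)
    (hm : ∀ i, Monotone (q i)) (ha : ∀ i j x y, ∃ k, q k (x + y) ≤ q i x + q j y)
    (hs : ∀ i x, q i x + 1 ≤ q i (x + u)) (hu : ∃ i, q i u ≤ 1) (hb : ∃ i, q i b ≤ t) :
    Sub u b t fun x => ⨅ i, q i x := by
  have hbd : ∀ x, BddBelow (Set.range fun i => q i x) := fun x => ⟨0, by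
    rintro _ ⟨i, rfl⟩
    exact h0 i x⟩
  refine ⟨fun x => le_ciInf fun i => h0 i x, fun x y h => le_ciInf fun i =>
    (ciInf_le (hbd x) i).trans (hm i h), fun x y => ?_, fun x => le_ciInf fun i =>
      (add_le_add (ciInf_le (hbd x) i) le_rfl).trans (hs i x), ?_, ?_⟩
  · rw [← sub_le_iff_le_add]
    refine le_ciInf fun i => ?_
    rw [sub_le_comm]
    refine le_ciInf fun j => ?_
    obtain ⟨k, hk⟩ := ha i j x y
    have := ciInf_le (hbd (x + y)) k
    linarith
  · obtain ⟨i, hi⟩ := hu
    exact (ciInf_le (hbd u) i).trans hi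
  · obtain ⟨i, hi⟩ := hb
    exact (ciInf_le (hbd b) i).trans hi

lemma exists_minimal_sub {u b : M} {t : ℝ} {p : M → ℝ} (hp : Sub u b t p) :
    ∃ q, Sub u b t q ∧ ∀ r, Sub u b t r → r ≤ q → q ≤ r := by
  obtain ⟨q, -, hq⟩ := zorn_le_nonempty₀ (α := (M → ℝ)ᵒᵈ) {q | Sub u b t q} (fun c hc hch y hy => by
    have : Nonempty c := ⟨⟨y, hy⟩⟩
    have hbd : ∀ x, BddBelow (Set.range fun i : c => (OrderDual.ofDual i.1) x) := fun x => ⟨0, by
      rintro _ ⟨i, rfl⟩
      exact (hc i.2).nonneg x⟩
    refine ⟨OrderDual.toDual fun x => ⨅ i : c, (OrderDual.ofDual i.1) x, ?_, fun z hz x =>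
      ciInf_le (hbd x) ⟨z, hz⟩⟩
    refine sub_iInf (fun i : c => OrderDual.ofDual i.1) (fun i => (hc i.2).nonneg)
      (fun i => (hc i.2).mono) (fun i j x y => ?_) (fun i => (hc i.2).shift)
      ⟨⟨y, hy⟩, (hc hy).unit⟩ ⟨⟨y, hy⟩, (hc hy).le⟩
    rcases hch.total i.2 j.2 with h | h
    · exact ⟨j, ((hc j.2).add x y).trans (add_le_add (h x) le_rfl)⟩
    · exact ⟨i, ((hc i.2).add x y).trans (add_le_add le_rfl (h y))⟩) (OrderDual.toDual p) hp
  exact ⟨OrderDual.ofDual q, hq.1, fun r hr hle => hq.2 (y := OrderDual.toDual r) hr hle⟩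

lemma exists_state_of_sub (h0 : ∀ x : M, 0 ≤ x) {u b : M} {t : ℝ} {p : M → ℝ}
    (hp : Sub u b t p) : ∃ s : M →+ ℝ, IsState u s ∧ s b ≤ t := by
  obtain ⟨q, hq, hmin⟩ := exists_minimal_sub hp
  have hom : ∀ x (k : ℕ), (k + 1) * q x ≤ q ((k + 1) • x) := by
    have h1 : Sub u b t fun x => ⨅ k : ℕ, q ((k + 1) • x) / (k + 1) := by
      refine sub_iInf (fun (k : ℕ) x => q ((k + 1) • x) / (k + 1))
        (fun k x => div_nonneg (hq.nonneg _) (by positivity))
        (fun k x y h => div_le_div_of_nonneg_right (hq.mono (nsmul_le_nsmul_right h _))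
          (by positivity)) (fun i j x y => ⟨(i + 1) * (j + 1) - 1, ?_⟩) (fun k x => ?_)
        ⟨0, by simpa using hq.unit⟩ ⟨0, by simpa using hq.le⟩
      · have e1 : (i + 1) * (j + 1) - 1 + 1 = (i + 1) * (j + 1) :=
          Nat.sub_add_cancel (Nat.succ_le_of_lt (by positivity))
        have e2 : (((i + 1) * (j + 1) - 1 : ℕ) : ℝ) + 1 = (i + 1) * (j + 1) := by
          exact_mod_cast e1
        have h2 := hq.add ((j + 1) • (i + 1) • x) ((i + 1) • (j + 1) • y)
        have h3 := hq.nsmul_le ((i + 1) • x) j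
        have h4 := hq.nsmul_le ((j + 1) • y) i
        have e3 : ((i + 1) * (j + 1)) • (x + y) = (j + 1) • (i + 1) • x + (i + 1) • (j + 1) • y := by
          rw [nsmul_add, ← mul_nsmul, ← mul_nsmul, mul_comm (j + 1)]
        simp only [e1, e2, e3]
        rw [div_add_div _ _ (by positivity) (by positivity)]
        refine div_le_div_of_nonneg_right ?_ (by positivity)
        linarith
      · have := hq.shift_nsmul ((k + 1) • x) (k + 1)
        simp only [nsmul_add]
        rw [div_add_one (by positivity)]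
        refine div_le_div_of_nonneg_right ?_ (by positivity)
        exact_mod_cast this
    have hbd : ∀ x, BddBelow (Set.range fun k : ℕ => q ((k + 1) • x) / (k + 1)) := fun x => ⟨0, by
      rintro _ ⟨k, rfl⟩
      exact div_nonneg (hq.nonneg _) (by positivity)⟩
    have h2 := hmin _ h1 fun x => (ciInf_le (hbd x) 0).trans (by simp)
    intro x k
    have h3 := (h2 x).trans (ciInf_le (hbd x) k)
    rwa [le_div_iff₀ (by positivity), mul_comm] at h3
  have hz : q 0 = 0 := by
    have := hom 0 1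
    have h1 := hq.nonneg 0
    simp only [nsmul_zero] at this
    push_cast at this
    linarith
  have hom' : ∀ x (k : ℕ), k * q x ≤ q (k • x) := fun x k => by
    cases k with
    | zero => simp [hz]
    | succ k => exact_mod_cast hom x k
  have hadd : ∀ x y, q x + q y ≤ q (x + y) := fun x y => by
    have hn : ∀ (k : ℕ) x, 0 ≤ q (x + k • y) - k * q y := fun k x => by
      have := hq.mono (le_add_of_nonneg_left (h0 x) : k • y ≤ x + k • y)
      have := hom' y k
      linarith
    have h1 : Sub u b t fun x => ⨅ k : ℕ, q (x + k • y) - k * q y := by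
      refine sub_iInf (fun (k : ℕ) x => q (x + k • y) - k * q y) hn
        (fun k x z h => sub_le_sub_right (hq.mono (add_le_add h le_rfl)) _)
        (fun i j x z => ⟨i + j, ?_⟩) (fun k x => ?_)
        ⟨0, by simpa using hq.unit⟩ ⟨0, by simpa using hq.le⟩
      · have := hq.add (x + i • y) (z + j • y)
        rw [add_add_add_comm, ← add_nsmul] at this
        push_cast
        linarith
      · have := hq.shift (x + k • y)
        rw [add_right_comm] at this
        linarith
    have hbd : ∀ x, BddBelow (Set.range fun k : ℕ => q (x + k • y) - k * q y) := fun x => ⟨0, by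
      rintro _ ⟨k, rfl⟩
      exact hn k x⟩
    have h2 := hmin _ h1 fun x => (ciInf_le (hbd x) 0).trans (by simp)
    have h3 := (h2 x).trans (ciInf_le (hbd x) 1)
    simp only [one_smul, Nat.cast_one, one_mul] at h3
    linarith
  refine ⟨⟨⟨q, hz⟩, fun x y => le_antisymm (hq.add x y) (hadd x y)⟩, ⟨hq.mono, ?_⟩, hq.le⟩
  have := hq.shift 0
  rw [hz, zero_add, zero_add] at this
  exact le_antisymm hq.unit this

/-- `x` is algebraically larger than `t` times the unit -/
def Big (u : M) (t : ℝ) (x : M) : Prop :=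
  ∃ k l m : ℕ, l • u ≤ m • u + (k + 1) • x ∧ (k + 1) * t + m < l

theorem big_of_states (h0 : ∀ x : M, 0 ≤ x) {u : M} (hu : ∀ x : M, ∃ k : ℕ, x ≤ k • u) {b : M}
    {t : ℝ} (h : ∀ s : M →+ ℝ, IsState u s → t < s b) : Big u t b := by
  by_contra hb
  have hb' : ∀ k l m : ℕ, l • u ≤ m • u + k • b → (l : ℝ) ≤ k * t + m := by
    intro k l m hle
    by_contra hlt
    push Not at hlt
    cases k with
    | succ k => exact hb ⟨k, l, m, hle, by exact_mod_cast hlt⟩
    | zero =>
      simp only [zero_nsmul, add_zero, Nat.cast_zero, zero_mul, zero_add, Nat.cast_lt] at hle hlt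
      have h1 : ∀ j : ℕ, (m + j) • u ≤ m • u := fun j => by
        induction j with
        | zero => simp
        | succ j ih =>
          calc (m + (j + 1)) • u = (m + j) • u + u := by rw [← add_assoc, succ_nsmul]
            _ ≤ m • u + u := add_le_add ih le_rfl
            _ = (m + 1) • u := (succ_nsmul _ _).symm
            _ ≤ l • u := nsmul_le_nsmul_left (h0 u) hlt
            _ ≤ m • u := hle
      obtain ⟨j, hj⟩ := exists_nat_gt t
      refine hb ⟨0, m + j, m, (h1 j).trans (le_add_of_nonneg_right (h0 _)), ?_⟩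
      push_cast
      linarith
  let S : M → Set ℝ := fun x => {v | ∃ N k l m : ℕ, (N + 1) • x + l • u ≤ m • u + k • b ∧
    v = (k * t + m - l) / (N + 1)}
  have hne : ∀ x, (S x).Nonempty := fun x => by
    obtain ⟨k, hk⟩ := hu x
    exact ⟨_, 0, 0, 0, k, by simpa using hk, rfl⟩
  have hS0 : ∀ x, ∀ v ∈ S x, 0 ≤ v := by
    rintro x _ ⟨N, k, l, m, hle, rfl⟩
    have := hb' k l m ((le_add_of_nonneg_left (h0 _)).trans hle)
    exact div_nonneg (by linarith) (by positivity)
  have hbd : ∀ x, BddBelow (S x) := fun x => ⟨0, hS0 x⟩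
  have hp : Sub u b t fun x => sInf (S x) := by
    refine ⟨fun x => le_csInf (hne x) (hS0 x), fun x y hxy => csInf_le_csInf (hbd x) (hne y) ?_,
      fun x y => ?_, fun x => le_csInf (hne _) ?_, csInf_le (hbd u) ⟨0, 0, 0, 1, by simp, by simp⟩,
      csInf_le (hbd b) ⟨0, 1, 0, 0, by simp, by simp⟩⟩
    · rintro _ ⟨N, k, l, m, hle, rfl⟩
      exact ⟨N, k, l, m, (add_le_add (nsmul_le_nsmul_right hxy _) le_rfl).trans hle, rfl⟩
    · rw [← sub_le_iff_le_add]
      refine le_csInf (hne x) ?_
      rintro _ ⟨N, k, l, m, hle, rfl⟩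
      rw [sub_le_comm]
      refine le_csInf (hne y) ?_
      rintro _ ⟨N', k', l', m', hle', rfl⟩
      rw [sub_le_iff_le_add']
      have e1 : (N + 1) * (N' + 1) - 1 + 1 = (N + 1) * (N' + 1) :=
        Nat.sub_add_cancel (Nat.succ_le_of_lt (by positivity))
      have e2 : (((N + 1) * (N' + 1) - 1 : ℕ) : ℝ) + 1 = (N + 1) * (N' + 1) := by
        exact_mod_cast e1
      refine csInf_le (hbd _) ⟨(N + 1) * (N' + 1) - 1, k * (N' + 1) + k' * (N + 1),
        l * (N' + 1) + l' * (N + 1), m * (N' + 1) + m' * (N + 1), ?_, ?_⟩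
      · have h1 := add_le_add (nsmul_le_nsmul_right hle (N' + 1))
          (nsmul_le_nsmul_right hle' (N + 1))
        simp only [nsmul_add, ← mul_nsmul] at h1
        rw [e1, nsmul_add, add_nsmul, add_nsmul, add_nsmul]
        rw [mul_comm (N' + 1) (N + 1)] at h1
        convert h1 using 1 <;> abel
      · rw [e2]
        push_cast
        field_simp
        ring
    · rintro _ ⟨N, k, l, m, hle, rfl⟩
      rw [← le_sub_iff_add_le]
      refine csInf_le (hbd x) ⟨N, k, l + (N + 1), m, ?_, ?_⟩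
      · rw [nsmul_add] at hle
        rwa [add_nsmul u l, add_comm (l • u), ← add_assoc]
      · push_cast
        field_simp
        ring
  obtain ⟨s, hs, hsb⟩ := exists_state_of_sub h0 hp
  exact absurd (h s hs) (not_lt.2 hsb)

lemma IsState.nonneg (h0 : ∀ x : M, 0 ≤ x) {u : M} {s : M →+ ℝ} (hs : IsState u s) (x : M) :
    0 ≤ s x := by simpa using hs.mono (h0 x)

lemma IsState.nsmul_unit {u : M} {s : M →+ ℝ} (hs : IsState u s) (k : ℕ) : s (k • u) = k := by
  rw [map_nsmul, hs.unit]
  simp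

end Pool.Agent.Lib.MP_f90f6c_an.H50
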