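import Pool.Agent.Lib.MP_f90f6c_an.H50Map
import Pool.Agent.Lib.MP_f90f6c_an.H50State

/-!
The compact containment relation on `W(A)`, almost algebraic order and weak Riesz decomposition.
-/

namespace Pool.Agent.Lib.MP_f90f6c_an.H50

open Filter Topology Matrix

set_option linter.unusedSectionVars false

section Alg

variable {E : Type*} [CStarAlgebra E] [PartialOrder E] [StarOrderedRing E]

lemma cut_cut {ε η : ℝ} (hε : 0 ≤ ε) {a : E} (ha : IsSelfAdjoint a) :
    cut ε (cut η a) = cut (ε + η) a := by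
  rw [cut, cut, cut, ← cfc_comp' _ _ a]
  refine cfc_congr fun t _ => ?_
  rcases le_total t η with h | h
  · rw [max_eq_right (sub_nonpos.2 h), max_eq_right (by linarith), max_eq_right (by linarith)]
  · rw [max_eq_left (sub_nonneg.2 h)]
    congr 1
    ring

lemma le_smul_of_fix {h X : E} (hh : star h = h) (hX : 0 ≤ X) (e : h * X = X) :
    X ≤ ‖X‖ • (h * h) := by
  have h1 := star_left_conjugate_le_conjugate (IsSelfAdjoint.of_nonneg hX).le_algebraMap_norm_self h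
  have e' : X * h = X := by
    simpa [hh, (IsSelfAdjoint.of_nonneg hX).star_eq] using congrArg star e
  rwa [hh, e, e', Algebra.algebraMap_eq_smul_one, mul_smul_comm, mul_one, smul_mul_assoc] at h1

lemma exists_compl {b c : E} (hb : 0 ≤ b) (hc : 0 ≤ c) {δ η : ℝ} (hδ : 0 < δ) (hη : 0 < η)
    (h : cfc (fun t => min (max t 0 / δ) 1) b * c = c) :
    ∃ κ y : E, 0 ≤ κ ∧ 0 ≤ y ∧ cut η c * κ = 0 ∧ CSub (cut η c + κ) b ∧ CSub y c ∧
      CSub b (y + κ) := by
  set H := cfc (fun t => min (max t 0 / δ) 1) b with hH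
  have hcs : IsSelfAdjoint c := .of_nonneg hc
  have hbs : star b = b := (IsSelfAdjoint.of_nonneg hb).star_eq
  have hpos : ∀ t : ℝ, max t η ≠ 0 := fun t => (lt_max_of_lt_right hη).ne'
  have q1 : Continuous fun t : ℝ => (max t η)⁻¹ := Continuous.inv₀ (by fun_prop) hpos
  have q2 : Continuous fun t : ℝ => max (t - η) 0 * (max t η)⁻¹ := Continuous.mul (by fun_prop) q1
  have q3 : Continuous fun t : ℝ => t * (max t η)⁻¹ := continuous_id'.mul q1
  set G := cfc (fun t => t * (max t η)⁻¹) c with hG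
  have hGs : star G = G := star_cfc _ _
  have e1 : H * G = G := by rw [hG, ← id_mul_cfc q1 hcs, ← mul_assoc, h]
  have e2 : H * cut η c = cut η c := by
    have : cut η c = c * cfc (fun t => max (t - η) 0 * (max t η)⁻¹) c := by
      rw [id_mul_cfc q2 hcs, cut]
      refine cfc_congr fun t _ => ?_
      rcases le_total t η with h | h
      · simp [max_eq_right (sub_nonpos.2 h)]
      · have := hpos t
        rw [max_eq_left h] at this ⊢
        field_simp
    rw [this, ← mul_assoc, h]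
  have e3 : cut η c * G = cut η c := by
    rw [cut, hG, cfc_mul_cfc (by fun_prop) q3]
    refine cfc_congr fun t _ => ?_
    rcases le_total t η with h | h
    · simp [max_eq_right (sub_nonpos.2 h)]
    · have := hpos t
      rw [max_eq_left h] at this ⊢
      field_simp
  have e4 : H * H ≤ δ⁻¹ • b := by
    rw [hH, cfc_mul_cfc (by fun_prop) (by fun_prop)]
    conv_rhs => rw [← cfc_id' ℝ b, ← cfc_smul δ⁻¹ _ b]
    refine cfc_mono (fun t ht => ?_) (by fun_prop) (by fun_prop)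
    have h0 := spectrum_nonneg_of_nonneg hb ht
    have h1 : 0 ≤ t / δ := by positivity
    simp only [max_eq_left h0, smul_eq_mul]
    rw [← div_eq_inv_mul]
    have h2 := min_le_left (t / δ) 1
    have h3 := min_le_right (t / δ) 1
    have h4 : 0 ≤ min (t / δ) 1 := le_min h1 zero_le_one
    nlinarith
  have hGb : 0 ≤ G * b * G := by simpa [hGs] using star_left_conjugate_nonneg hb G
  have hκ : 0 ≤ (1 - G) * b * (1 - G) := by
    simpa [hGs] using star_left_conjugate_nonneg hb (1 - G)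
  have l1 := le_smul_of_fix (star_cfc _ _) (cut_nonneg η c) e2
  have l2 := le_smul_of_fix (star_cfc _ _) hGb (by rw [← mul_assoc, ← mul_assoc, e1])
  refine ⟨(1 - G) * b * (1 - G), G * b * G, hκ, hGb, ?_, ?_, ?_, ?_⟩
  · rw [← mul_assoc, ← mul_assoc, mul_sub (cut η c), mul_one, e3, sub_self, zero_mul, zero_mul]
  · have h1 : (1 - G) * b * (1 - G) ≤ (2 : ℝ) • b + (2 : ℝ) • (G * b * G) := by
      have h2 : 0 ≤ (1 + G) * b * (1 + G) := by
        simpa [hGs] using star_left_conjugate_nonneg hb (1 + G)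
      refine (le_add_of_nonneg_right h2).trans (le_of_eq ?_)
      simp only [two_smul]
      noncomm_ring
    have h2 : cut η c + (1 - G) * b * (1 - G) ≤
        (‖cut η c‖ * δ⁻¹ + (2 + 2 * (‖G * b * G‖ * δ⁻¹))) • b := by
      rw [add_smul, add_smul, mul_smul, mul_smul, mul_smul]
      exact add_le_add (l1.trans (smul_le_smul_of_nonneg_left e4 (norm_nonneg _)))
        (h1.trans (add_le_add le_rfl (smul_le_smul_of_nonneg_left
          (l2.trans (smul_le_smul_of_nonneg_left e4 (norm_nonneg _))) zero_le_two)))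
    exact (CSub.of_le (add_nonneg (cut_nonneg _ _) hκ) h2).trans (CSub.smul (by positivity) _)
  · have h1 := star_left_conjugate_le_conjugate
      (IsSelfAdjoint.of_nonneg hb).le_algebraMap_norm_self G
    rw [hGs, Algebra.algebraMap_eq_smul_one, mul_smul_comm, mul_one, smul_mul_assoc] at h1
    refine ((CSub.of_le hGb h1).trans (CSub.smul (norm_nonneg _) _)).trans ?_
    rw [hG, cfc_mul_cfc q3 q3]
    exact CSub.cfc_self hc (q3.mul q3) (fun t _ => mul_self_nonneg _) (by simp)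
  · have h2 : 0 ≤ (G - (1 - G)) * b * (G - (1 - G)) := by
      simpa [hGs] using star_left_conjugate_nonneg hb (G - (1 - G))
    have h1 : b ≤ (2 : ℝ) • (G * b * G + (1 - G) * b * (1 - G)) := by
      refine (le_add_of_nonneg_right h2).trans (le_of_eq ?_)
      simp only [two_smul]
      noncomm_ring
    exact (CSub.of_le hb h1).trans (CSub.smul zero_le_two _)

end Alg

variable {A : Type*} [CStarAlgebra A] [PartialOrder A] [StarOrderedRing A]
variable {m n p : Type*} [Fintype m] [DecidableEq m] [Fintype n] [DecidableEq n]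
  [Fintype p] [DecidableEq p]

lemma cut_fromBlocks (ε : ℝ) {a : Matrix m m A} {b : Matrix n n A} (ha : 0 ≤ a) (hb : 0 ≤ b) :
    cut ε (fromBlocks a 0 0 b) = fromBlocks (cut ε a) 0 0 (cut ε b) :=
  cfc_fromBlocks _ (by fun_prop) (.of_nonneg ha) (.of_nonneg hb)

lemma cls_cut_fromBlocks (ε : ℝ) {a : Matrix m m A} {b : Matrix n n A} (ha : 0 ≤ a) (hb : 0 ≤ b) :
    cls (cut ε (fromBlocks a 0 0 b)) = cls (cut ε a) + cls (cut ε b) := by
  rw [cut_fromBlocks ε ha hb, cls_fromBlocks (cut_nonneg _ _) (cut_nonneg _ _)]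

lemma exists_cut_le_cut {a : Matrix m m A} {b : Matrix n n A} (ha : 0 ≤ a) (hb : 0 ≤ b)
    (h : cls a ≤ cls b) {ε : ℝ} (hε : 0 < ε) : ∃ δ > 0, cls (cut ε a) ≤ cls (cut δ b) := by
  obtain ⟨v, hv⟩ := ((cls_le_cls ha hb).1 h).exists_near hε
  have hc : Continuous fun x : Matrix n n A => ‖a - v * x * vᴴ‖ :=
    Continuous.norm (f := fun x : Matrix n n A => a - v * x * vᴴ) (by fun_prop)
  obtain ⟨δ, hδ, hδ0⟩ := ((((hc.tendsto b).comp (tendsto_cut hb)).eventually
    (gt_mem_nhds hv)).and self_mem_nhdsWithin).exists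
  exact ⟨δ, hδ0, (cls_cut_le_of_near (.of_nonneg ha) (conj_nonneg v (cut_nonneg δ b)) hδ).trans
    (cls_conj_le v (cut_nonneg δ b))⟩

/-- compact containment -/
def LL (x y : W A) : Prop :=
  ∃ (k : ℕ) (a : Matrix (Fin k) (Fin k) A) (ε : ℝ), 0 ≤ a ∧ 0 < ε ∧ x ≤ cls (cut ε a) ∧ cls a ≤ y

lemma LL.le {x y : W A} (h : LL x y) : x ≤ y := by
  obtain ⟨k, a, ε, ha, hε, h1, h2⟩ := h
  exact h1.trans ((cls_cut_le hε.le ha).trans h2)

lemma LL.mono {x x' y y' : W A} (h : LL x y) (h1 : x' ≤ x) (h2 : y ≤ y') : LL x' y' := by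
  obtain ⟨k, a, ε, ha, hε, h3, h4⟩ := h
  exact ⟨k, a, ε, ha, hε, h1.trans h3, h4.trans h2⟩

lemma LL.exists_cut {x : W A} {b : Matrix n n A} (hb : 0 ≤ b) (h : LL x (cls b)) :
    ∃ δ > 0, x ≤ cls (cut δ b) := by
  obtain ⟨k, a, ε, ha, hε, h1, h2⟩ := h
  obtain ⟨δ, hδ, h3⟩ := exists_cut_le_cut ha hb h2 hε
  exact ⟨δ, hδ, h1.trans h3⟩

lemma LL.cut {a : Matrix n n A} (ha : 0 ≤ a) {ε : ℝ} (hε : 0 < ε) : LL (cls (cut ε a)) (cls a) := by
  obtain ⟨k, b, hb, h⟩ := cls_surj (cls a)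
  obtain ⟨δ, hδ, h1⟩ := exists_cut_le_cut ha hb h.ge hε
  exact ⟨k, b, δ, hb, hδ, h1, h.le⟩

lemma LL.cut_cut {a : Matrix n n A} (ha : 0 ≤ a) {ε η : ℝ} (h : ε < η) :
    LL (cls (H50.cut η a)) (cls (H50.cut ε a)) := by
  have := LL.cut (cut_nonneg ε a) (sub_pos.2 h)
  rwa [H50.cut_cut (sub_pos.2 h).le (.of_nonneg ha), sub_add_cancel] at this

lemma LL.interp {x y : W A} (h : LL x y) : ∃ z, LL x z ∧ LL z y := by
  obtain ⟨k, a, ε, ha, hε, h1, h2⟩ := h
  exact ⟨_, (LL.cut_cut ha (half_lt_self hε)).mono h1 le_rfl,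
    (LL.cut ha (half_pos hε)).mono le_rfl h2⟩

lemma LL.zero (x : W A) : LL 0 x := by
  obtain ⟨k, a, ha, rfl⟩ := cls_surj x
  exact (LL.cut ha one_pos).mono (W.zero_le _) le_rfl

lemma LL.add {x y x' y' : W A} (h : LL x y) (h' : LL x' y') : LL (x + x') (y + y') := by
  obtain ⟨k, a, ε, ha, hε, h1, h2⟩ := h
  obtain ⟨l, b, η, hb, hη, h3, h4⟩ := h'
  have := LL.cut (fromBlocks_nonneg ha hb) (lt_min hε hη)
  rw [cls_cut_fromBlocks _ ha hb, cls_fromBlocks ha hb] at this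
  exact this.mono (add_le_add (h1.trans (cls_cut_mono (min_le_left _ _) a))
    (h3.trans (cls_cut_mono (min_le_right _ _) b))) (add_le_add h2 h4)

lemma LL.split {x y₁ y₂ : W A} (h : LL x (y₁ + y₂)) :
    ∃ z₁ z₂, LL z₁ y₁ ∧ LL z₂ y₂ ∧ x ≤ z₁ + z₂ := by
  obtain ⟨k, a, ha, rfl⟩ := cls_surj y₁
  obtain ⟨l, b, hb, rfl⟩ := cls_surj y₂
  rw [← cls_fromBlocks ha hb] at h
  obtain ⟨δ, hδ, h1⟩ := h.exists_cut (fromBlocks_nonneg ha hb)
  exact ⟨_, _, LL.cut ha hδ, LL.cut hb hδ, by rwa [cls_cut_fromBlocks _ ha hb] at h1⟩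

lemma le_of_forall_LL {x y : W A} (h : ∀ x', LL x' x → x' ≤ y) : x ≤ y := by
  obtain ⟨k, a, ha, rfl⟩ := cls_surj x
  obtain ⟨l, b, hb, rfl⟩ := cls_surj y
  rw [cls_le_cls ha hb]
  exact MSub.of_cut ha fun ε hε => (cls_le_cls (cut_nonneg _ _) hb).1 (h _ (LL.cut ha hε))

lemma LL.unit (k : ℕ) : LL (k • W.u A) (k • W.u A) := by
  have h := eventually_le_cut_add (K := k) (z := 0) (mone_nonneg (A := A) (m := Fin k))
    (by simp [cls_one])
  obtain ⟨ε, h1, hε⟩ := (h.and self_mem_nhdsWithin).exists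
  exact (LL.cut mone_nonneg hε).mono (by simpa using h1) (by simp [cls_one])

/-- almost algebraic order -/
theorem LL.compl {x x' y : W A} (h : LL x' x) (hxy : x ≤ y) : ∃ c, x' + c ≤ y ∧ y ≤ x + c := by
  obtain ⟨k, a, ε, ha, hε, h1, h2⟩ := h
  obtain ⟨l, b, hb, rfl⟩ := cls_surj y
  have h3 : 0 < ε / 2 := half_pos hε
  obtain ⟨δ, hδ, v, hv, hg⟩ := ((cls_le_cls ha hb).1 (h2.trans hxy)).exists_factor (.of_nonneg ha) hb
    h3 (f := fun t => max (t - ε / 2) 0) (by fun_prop) (fun _ => le_max_right _ _)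
    fun t _ ht => max_eq_right (by linarith)
  have h4 := hg (fun t => min (max t 0 / δ) 1) (by fun_prop) fun t ht =>
    min_eq_right (by rw [le_div_iff₀ hδ, one_mul]; exact le_max_of_le_left ht)
  obtain ⟨κ, y, hκ, hy, e1, e2, e3, e4⟩ := exists_compl hb (mul_conjT_self_nonneg v) hδ h3
    (by rw [← Matrix.mul_assoc, h4])
  refine ⟨cls κ, ?_, ?_⟩
  · refine le_trans (add_le_add (h1.trans ?_) le_rfl) ((cls_add_of_orth (cut_nonneg _ _) hκ e1).trans
      ((cls_le_cls (add_nonneg (cut_nonneg _ _) hκ) hb).2 e2.msub))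
    have h5 := MSub.cfc_conjT_mul v (f := fun t => max (t - ε / 2) 0) (by fun_prop)
      (fun _ => le_max_right _ _) (max_eq_right (by linarith))
    rw [hv] at h5
    change MSub (H50.cut (ε / 2) (H50.cut (ε / 2) a)) _ at h5
    rw [H50.cut_cut h3.le (.of_nonneg ha), add_halves] at h5
    exact (cls_le_cls (cut_nonneg _ _) (cut_nonneg _ _)).2 h5
  · refine ((cls_le_cls hb (add_nonneg hy hκ)).2 e4.msub).trans ((cls_add_le hy hκ).trans
      (add_le_add (le_trans ?_ h2) le_rfl))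
    refine ((cls_le_cls hy (mul_conjT_self_nonneg v)).2 e3.msub).trans ?_
    rw [← cls_conjT_mul, hv]
    exact cls_cut_le h3.le ha

/-- weak Riesz decomposition -/
theorem LL.riesz {x x' y₁ y₂ : W A} (h : LL x' x) (hxy : x ≤ y₁ + y₂) :
    ∃ e₁ e₂, e₁ ≤ x ∧ e₁ ≤ y₁ ∧ e₂ ≤ x ∧ e₂ ≤ y₂ ∧ x' ≤ e₁ + e₂ := by
  obtain ⟨k, a, ε, ha, hε, h1, h2⟩ := h
  obtain ⟨l, b, hb, rfl⟩ := cls_surj y₁
  obtain ⟨l', c, hc, rfl⟩ := cls_surj y₂
  have h3 := h2.trans hxy
  rw [← cls_fromBlocks hb hc, cls_le_cls ha (fromBlocks_nonneg hb hc)] at h3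
  obtain ⟨V, hV⟩ := h3.exists_conj (.of_nonneg ha) (fromBlocks_nonneg hb hc) hε
  rw [← fromCols_toCols V, fromCols_mul_fromBlocks,
    conjTranspose_fromCols_eq_fromRows_conjTranspose, fromCols_mul_fromRows] at hV
  simp only [Matrix.mul_zero, add_zero, zero_add] at hV
  have p1 := conj_nonneg V.toCols₁ hb
  have p2 := conj_nonneg V.toCols₂ hc
  have h4 := (cls_cut_le hε.le ha).trans h2
  rw [← hV] at h1 h4
  exact ⟨_, _, (cls_mono p1 (le_add_of_nonneg_right p2)).trans h4, cls_conj_le _ hb,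
    (cls_mono p2 (le_add_of_nonneg_left p1)).trans h4, cls_conj_le _ hc,
    h1.trans (cls_add_le p1 p2)⟩

lemma LL.map {B : Type*} [CStarAlgebra B] [PartialOrder B] [StarOrderedRing B] (φ : A →⋆ₐ[ℂ] B)
    {x y : W A} (h : LL x y) :
    LL (Wmap1 φ.toNonUnitalStarAlgHom x) (Wmap1 φ.toNonUnitalStarAlgHom y) := by
  obtain ⟨k, a, ε, ha, hε, h1, h2⟩ := h
  have h3 := Wmap1_mono φ.toNonUnitalStarAlgHom h1
  have h4 := Wmap1_mono φ.toNonUnitalStarAlgHom h2
  rw [Wmap1_cls _ (cut_nonneg _ _)] at h3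
  rw [Wmap1_cls _ ha] at h4
  refine ⟨k, _, ε, map_nonneg' _ ha, hε, h3.trans (le_of_eq ?_), h4⟩
  exact congrArg cls (map_cut φ ε (.of_nonneg ha))

/-- lower semicontinuity -/
def Lsc (s : W A →+ ℝ) : Prop := ∀ x t, t < s x → ∃ x', LL x' x ∧ t < s x'

theorem IsState.exists_lsc {s : W A →+ ℝ} (hs : IsState (W.u A) s) :
    ∃ s' : W A →+ ℝ, IsState (W.u A) s' ∧ Lsc s' ∧ (∀ x, s' x ≤ s x) ∧
      ∀ x' x, LL x' x → s x' ≤ s' x := by
  let S : W A → Set ℝ := fun x => {v | ∃ x', LL x' x ∧ v = s x'}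
  have hne : ∀ x, (S x).Nonempty := fun x => ⟨_, 0, LL.zero x, rfl⟩
  have hb : ∀ x, s x ∈ upperBounds (S x) := by
    rintro x _ ⟨x', h, rfl⟩
    exact hs.mono h.le
  have hle : ∀ x' x, LL x' x → s x' ≤ sSup (S x) := fun x' x h => le_csSup ⟨_, hb x⟩ ⟨x', h, rfl⟩
  have hadd : ∀ x y, sSup (S (x + y)) = sSup (S x) + sSup (S y) := fun x y => by
    refine le_antisymm (csSup_le (hne _) ?_) ?_
    · rintro _ ⟨z, h, rfl⟩
      obtain ⟨z₁, z₂, h1, h2, h3⟩ := h.split
      have := hs.mono h3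
      rw [map_add] at this
      exact this.trans (add_le_add (hle _ _ h1) (hle _ _ h2))
    · rw [← le_sub_iff_add_le]
      refine csSup_le (hne _) ?_
      rintro _ ⟨z₁, h1, rfl⟩
      rw [le_sub_comm]
      refine csSup_le (hne _) ?_
      rintro _ ⟨z₂, h2, rfl⟩
      have := hle _ _ (h1.add h2)
      rw [map_add] at this
      linarith
  have h0 : sSup (S 0) = 0 := by
    have := hadd 0 0
    rw [add_zero] at this
    linarith
  refine ⟨⟨⟨fun x => sSup (S x), h0⟩, hadd⟩, ⟨fun x y h => csSup_le (hne _) ?_, le_antisymm ?_ ?_⟩,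
    fun x t ht => ?_, fun x => csSup_le (hne x) (hb x), hle⟩
  · rintro _ ⟨z, h1, rfl⟩
    exact hle _ _ (h1.mono le_rfl h)
  · exact (csSup_le (hne _) (hb _)).trans hs.unit.le
  · simpa [hs.unit] using hle _ _ (LL.unit (A := A) 1)
  · obtain ⟨_, ⟨z, h1, rfl⟩, h2⟩ := exists_lt_of_lt_csSup (hne x) ht
    obtain ⟨w, h3, h4⟩ := h1.interp
    exact ⟨w, h4, h2.trans_le (hle _ _ h3)⟩

/-- a strict inequality on all states is witnessed algebraically -/
theorem rel_of_states {x' x b : W A} (h : LL x' x) {t : ℝ} (ht : 0 < t)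
    (hs : ∀ s, IsState (W.u A) s → s x < s b + t) :
    ∃ N M : ℕ, 0 < N ∧ N • x' ≤ N • b + M • W.u A ∧ (M : ℝ) < N * t := by
  obtain ⟨r, hr⟩ := x.exists_le_nsmul
  obtain ⟨c, h1, h2⟩ := h.compl hr
  obtain ⟨k, l, j, h3, h4⟩ : Big (W.u A) (r - t) (b + c) :=
    big_of_states W.zero_le W.exists_le_nsmul fun s hs' => by
      have h5 := hs'.mono h2
      rw [hs'.nsmul_unit, map_add] at h5
      rw [map_add]
      linarith [hs s hs']
  obtain ⟨M, hM, hM'⟩ : ∃ M : ℕ, j + (k + 1) * r ≤ M + l ∧ (M : ℝ) < (k + 1) * t := by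
    rcases le_total (j + (k + 1) * r) l with h | h
    · exact ⟨0, by simpa using h, by push_cast; positivity⟩
    · obtain ⟨M, hM⟩ := Nat.exists_eq_add_of_le' h
      refine ⟨M, hM.le, ?_⟩
      have : (j : ℝ) + (k + 1) * r = M + l := by exact_mod_cast hM
      linarith
  have h5 : (k + 1) • x' + l • W.u A ≤ (k + 1) • b + M • W.u A + l • W.u A :=
    calc (k + 1) • x' + l • W.u A ≤ (k + 1) • x' + (j • W.u A + (k + 1) • (b + c)) :=
          add_le_add le_rfl h3
      _ = (k + 1) • b + (j • W.u A + (k + 1) • (x' + c)) := by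
          simp only [nsmul_add]
          abel
      _ ≤ (k + 1) • b + (j • W.u A + (k + 1) • r • W.u A) :=
          add_le_add le_rfl (add_le_add le_rfl (nsmul_le_nsmul_right h1 _))
      _ ≤ _ := by
          rw [← mul_nsmul', ← add_nsmul, add_assoc, ← add_nsmul]
          exact add_le_add le_rfl (W.nsmul_le hM _)
  have h6 : ∀ q : ℕ, q • (k + 1) • x' + l • W.u A ≤
      q • ((k + 1) • b + M • W.u A) + l • W.u A := fun q => by
    induction q with
    | zero => simp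
    | succ q ih =>
      rw [succ_nsmul _ q, succ_nsmul _ q, add_assoc]
      refine (add_le_add le_rfl h5).trans ?_
      rw [add_left_comm, add_assoc (q • _), add_left_comm (q • _)]
      exact add_le_add le_rfl ih
  obtain ⟨q, hq⟩ := exists_nat_gt (l / ((k + 1) * t - M))
  rw [div_lt_iff₀ (sub_pos.2 hM')] at hq
  have hq0 : 0 < q := Nat.pos_of_ne_zero (by
    rintro rfl
    simp only [Nat.cast_zero, zero_mul] at hq
    linarith [Nat.cast_nonneg (α := ℝ) l])
  refine ⟨q * (k + 1), q * M + l, by positivity, ?_, by push_cast; linarith⟩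
  have h7 := (W.le_add_right _ _).trans (h6 q)
  rwa [nsmul_add, ← mul_nsmul', ← mul_nsmul', ← mul_nsmul', add_assoc, ← add_nsmul] at h7

end Pool.Agent.Lib.MP_f90f6c_an.H50
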