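import Pool.Agent.Lib.MP_f90f6c_an.H50W
import Pool.Agent.Lib.MP_f90f6c_an.H50State

/-!
The dimension function of a quasitrace is a state on the Cuntz semigroup.
-/

namespace Pool.Agent.Lib.MP_f90f6c_an.H50

open Filter Topology Matrix

set_option linter.unusedSectionVars false

section Gen

variable {E : Type*} [CStarAlgebra E] [PartialOrder E] [StarOrderedRing E] {τ : E → ℂ}

lemma elemental_comm (z : E) [IsStarNormal z] :
    ∀ x ∈ (StarAlgebra.elemental ℂ z).toNonUnitalStarSubalgebra,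
      ∀ y ∈ (StarAlgebra.elemental ℂ z).toNonUnitalStarSubalgebra, x * y = y * x :=
  fun x hx y hy => congrArg Subtype.val
    (mul_comm (⟨x, hx⟩ : StarAlgebra.elemental ℂ z) ⟨y, hy⟩)

lemma isStarNormal_add_I {a b : E} (ha : IsSelfAdjoint a) (hb : IsSelfAdjoint b)
    (hab : Commute a b) : IsStarNormal (a + Complex.I • b) := by
  refine ⟨?_⟩
  have : star (a + Complex.I • b) = a + (-Complex.I) • b := by
    simp [ha.star_eq, hb.star_eq]
  rw [this]
  exact ((Commute.refl a).add_right (hab.smul_right _)).add_left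
    ((hab.symm.smul_left _).add_right (((Commute.refl b).smul_left _).smul_right _))

lemma IsQuasitrace.add_comm (hτ : IsQuasitrace τ) {a b : E} (ha : IsSelfAdjoint a)
    (hb : IsSelfAdjoint b) (hab : Commute a b) : τ (a + b) = τ a + τ b := by
  have := isStarNormal_add_I ha hb hab
  set z := a + Complex.I • b with hz
  have h1 : z ∈ StarAlgebra.elemental ℂ z := StarAlgebra.elemental.self_mem ℂ z
  have h2 : star z ∈ StarAlgebra.elemental ℂ z := StarAlgebra.elemental.star_self_mem ℂ z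
  have hs : star z = a + (-Complex.I) • b := by simp [hz, ha.star_eq, hb.star_eq]
  have ea : a = (1 / 2 : ℂ) • (z + star z) := by
    rw [hs, hz]
    module
  have eb : b = (-Complex.I / 2 : ℂ) • (z - star z) := by
    rw [hs, hz]
    have : a + Complex.I • b - (a + -Complex.I • b) = (2 * Complex.I) • b := by module
    rw [this, smul_smul]
    have : -Complex.I / 2 * (2 * Complex.I) = 1 := by
      field_simp
      simp
    rw [this, one_smul]
  refine hτ.add_of_comm _ (StarAlgebra.elemental.isClosed ℂ z) (elemental_comm z) a ?_ b ?_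
  · rw [ea]
    exact SMulMemClass.smul_mem _ (add_mem h1 h2)
  · rw [eb]
    exact SMulMemClass.smul_mem _ (sub_mem h1 h2)

lemma IsQuasitrace.re_smul (hτ : IsQuasitrace τ) {a : E} (ha : IsSelfAdjoint a) (c : ℝ) :
    (τ (c • a)).re = c * (τ a).re := by
  have := ha.isStarNormal
  have h := hτ.smul_of_comm _ (StarAlgebra.elemental.isClosed ℂ a) (elemental_comm a) c a
    (StarAlgebra.elemental.self_mem ℂ a)
  rw [← Complex.coe_smul, h]
  simp

lemma IsQuasitrace.nonneg (hτ : IsQuasitrace τ) {a : E} (ha : 0 ≤ a) : 0 ≤ (τ a).re := by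
  obtain ⟨s, rfl⟩ := CStarAlgebra.nonneg_iff_eq_star_mul_self.1 ha
  exact hτ.re_nonneg s

lemma IsQuasitrace.mono (hτ : IsQuasitrace τ) {a b : E} (ha : IsSelfAdjoint a)
    (hb : IsSelfAdjoint b) (hab : Commute a b) (h : a ≤ b) : (τ a).re ≤ (τ b).re := by
  have h1 := hτ.add_comm ha (hb.sub ha) (hab.sub_right (Commute.refl a))
  rw [add_sub_cancel] at h1
  have h2 := hτ.nonneg (sub_nonneg.2 h)
  rw [h1, Complex.add_re]
  linarith

lemma IsQuasitrace.cfc_le (hτ : IsQuasitrace τ) {a : E} (ha : 0 ≤ a) {f g : ℝ → ℝ}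
    (hf : Continuous f) (hg : Continuous g) {c : ℝ} (h : ∀ t ∈ spectrum ℝ a, f t ≤ g t + c) :
    (τ (cfc f a)).re ≤ (τ (cfc g a)).re + c * (τ 1).re := by
  have hs : IsSelfAdjoint a := .of_nonneg ha
  have h1 : cfc f a ≤ cfc (fun t => g t + c) a := cfc_mono h (by fun_prop) (by fun_prop)
  have h2 := hτ.mono (cfc_sa _ _) (cfc_sa _ _) (cfc_commute_cfc _ _ _) h1
  have h3 : IsSelfAdjoint (c • (1 : E)) := (IsSelfAdjoint.all c).smul (.one E)
  rwa [cfc_add_const c g a, Algebra.algebraMap_eq_smul_one,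
    hτ.add_comm (cfc_sa _ _) h3 ((Commute.one_right _).smul_right c), Complex.add_re,
    hτ.re_smul (.one E)] at h2

/-- test functions -/
structure IsTest (f : ℝ → ℝ) : Prop where
  cont : Continuous f
  nonneg : ∀ t, 0 ≤ f t
  le_one : ∀ t, f t ≤ 1
  zero : f 0 = 0

/-- the dimension function as a supremum -/
noncomputable def dimS (τ : E → ℂ) (a : E) : ℝ :=
  sSup {v | ∃ f, IsTest f ∧ v = (τ (cfc f a)).re}

lemma isTest_zero : IsTest fun _ => 0 := ⟨continuous_const, fun _ => le_rfl, fun _ => zero_le_one, rfl⟩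

lemma IsQuasitrace.le_dimS (hτ : IsQuasitrace τ) {a : E} (ha : 0 ≤ a) {f : ℝ → ℝ}
    (hf : IsTest f) : (τ (cfc f a)).re ≤ dimS τ a := by
  refine le_csSup ⟨(τ (cfc (fun _ : ℝ => (0 : ℝ)) a)).re + 1 * (τ 1).re, ?_⟩ ⟨f, hf, rfl⟩
  rintro _ ⟨g, hg, rfl⟩
  exact hτ.cfc_le ha hg.cont continuous_const fun t _ => by simpa using hg.le_one t

lemma dimS_le {a : E} {c : ℝ} (h : ∀ f, IsTest f → (τ (cfc f a)).re ≤ c) : dimS τ a ≤ c := by
  refine csSup_le ⟨_, _, isTest_zero, rfl⟩ ?_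
  rintro _ ⟨g, hg, rfl⟩
  exact h g hg

lemma tendsto_rpow_inv {c : ℝ} (hc : 0 < c) :
    Tendsto (fun k : ℕ => c ^ ((k : ℝ) + 1)⁻¹) atTop (𝓝 1) := by
  have h1 : Tendsto (fun k : ℕ => ((k : ℝ) + 1)⁻¹) atTop (𝓝 0) := by
    simpa using tendsto_one_div_add_atTop_nhds_zero_nat (𝕜 := ℝ)
  simpa [Function.comp_def] using ((Real.continuousAt_const_rpow hc.ne' (b := 0)).tendsto).comp h1

lemma IsTest.exists_le {f : ℝ → ℝ} (hf : IsTest f) {η : ℝ} (hη : 0 < η) :
    ∃ δ > 0, ∀ t, 0 ≤ t → t ≤ δ → f t ≤ η := by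
  obtain ⟨δ, hδ, h⟩ := Metric.continuous_iff.1 hf.cont 0 η hη
  refine ⟨δ / 2, half_pos hδ, fun t h0 ht => ?_⟩
  have := h t (by rw [Real.dist_eq, sub_zero, abs_of_nonneg h0]; linarith)
  rw [hf.zero, Real.dist_eq, sub_zero] at this
  exact (le_abs_self _).trans this.le

theorem IsQuasitrace.tendsto_dimS (hτ : IsQuasitrace τ) {a : E} (ha : 0 ≤ a) :
    Tendsto (fun k : ℕ => (τ (cpow a ((k : ℝ) + 1)⁻¹)).re) atTop (𝓝 (dimS τ a)) := by
  have h1 : 0 ≤ (τ 1).re := hτ.nonneg zero_le_one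
  have hs : ∀ k : ℕ, 0 < ((k : ℝ) + 1)⁻¹ := fun k => by positivity
  have hc : ∀ k : ℕ, Continuous fun t : ℝ => t ^ ((k : ℝ) + 1)⁻¹ := fun k =>
    Real.continuous_rpow_const (hs k).le
  refine tendsto_order.2 ⟨fun c hc' => ?_, fun c hc' => ?_⟩
  · obtain ⟨_, ⟨f, hf, rfl⟩, hlt⟩ := exists_lt_of_lt_csSup
      (s := {v | ∃ f, IsTest f ∧ v = (τ (cfc f a)).re}) (by exact ⟨_, _, isTest_zero, rfl⟩) hc'
    obtain ⟨η, hη, hη'⟩ : ∃ η > 0, η * (τ 1).re < (τ (cfc f a)).re - c := by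
      refine ⟨((τ (cfc f a)).re - c) / ((τ 1).re + 1), div_pos (by linarith) (by linarith), ?_⟩
      rw [div_mul_eq_mul_div, div_lt_iff₀ (by linarith)]
      nlinarith
    obtain ⟨δ, hδ, hδ'⟩ := hf.exists_le hη
    filter_upwards [(tendsto_rpow_inv hδ).eventually (lt_mem_nhds (show 1 - η < 1 by linarith))]
      with k hk
    have := hτ.cfc_le ha hf.cont (hc k) (c := η) fun t ht => by
      have h0 := spectrum_nonneg_of_nonneg ha ht
      rcases le_total t δ with h | h
      · have := hδ' t h0 h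
        have := Real.rpow_nonneg h0 ((k : ℝ) + 1)⁻¹
        linarith
      · have := Real.rpow_le_rpow hδ.le h (hs k).le
        have := hf.le_one t
        linarith
    rw [cpow]
    linarith
  · have hR : 0 < ‖a‖ + 1 := by positivity
    have h2 : Tendsto (fun k : ℕ => dimS τ a + ((‖a‖ + 1) ^ ((k : ℝ) + 1)⁻¹ - 1) * (τ 1).re) atTop
        (𝓝 (dimS τ a + (1 - 1) * (τ 1).re)) :=
      (((tendsto_rpow_inv hR).sub_const 1).mul_const _).const_add _
    rw [sub_self, zero_mul, add_zero] at h2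
    filter_upwards [h2.eventually (gt_mem_nhds hc')] with k hk
    have hf : IsTest fun t => min 1 (|t| ^ ((k : ℝ) + 1)⁻¹) :=
      ⟨continuous_const.min ((hc k).comp continuous_abs),
        fun t => le_min zero_le_one (Real.rpow_nonneg (abs_nonneg t) _), fun t => min_le_left _ _,
        by simp [Real.zero_rpow (hs k).ne']⟩
    have := hτ.cfc_le ha (hc k) hf.cont (c := (‖a‖ + 1) ^ ((k : ℝ) + 1)⁻¹ - 1) fun t ht => by
      have h0 := spectrum_nonneg_of_nonneg ha ht
      have h3 : t ≤ ‖a‖ + 1 := by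
        have := spectrum.norm_le_norm_mul_of_mem ht
        have h4 : ‖(1 : E)‖ ≤ 1 := by
          nontriviality E
          simp
        rw [Real.norm_of_nonneg h0] at this
        nlinarith [norm_nonneg a]
      have h4 := Real.rpow_le_rpow h0 h3 (hs k).le
      have h5 : 1 ≤ (‖a‖ + 1) ^ ((k : ℝ) + 1)⁻¹ :=
        Real.one_le_rpow (by linarith [norm_nonneg a]) (hs k).le
      rw [abs_of_nonneg h0]
      rcases min_cases 1 (t ^ ((k : ℝ) + 1)⁻¹) with h | h <;> rw [h.1] <;> linarith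
    have h6 := hτ.le_dimS ha hf
    rw [cpow]
    linarith

end Gen

section Fam

variable {A : Type*} [CStarAlgebra A] [PartialOrder A] [StarOrderedRing A]

/-- the quasitrace on plain matrices -/
def QT.tm (t : QT A) (n : ℕ) (a : Matrix (Fin n) (Fin n) A) : ℂ := t.τ n (CStarMatrix.ofMatrix a)

lemma QT.isQ (t : QT A) (n : ℕ) : IsQuasitrace (t.tm n) := t.isQuasitrace n

/-- inclusion matrix -/
def incl (A : Type*) [CStarAlgebra A] {n N : ℕ} (h : n ≤ N) : Matrix (Fin N) (Fin n) A :=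
  (1 : Matrix (Fin N) (Fin N) A).submatrix id (Fin.castLE h)

lemma incl_conjT_mul {n N : ℕ} (h : n ≤ N) : (incl A h)ᴴ * incl A h = 1 := by
  ext i j
  simp [incl, Matrix.mul_apply, Matrix.one_apply, eq_comm]

lemma corner_eq {n N : ℕ} (h : n ≤ N) (a : Matrix (Fin n) (Fin n) A) :
    corner N (CStarMatrix.ofMatrix a) = CStarMatrix.ofMatrix (incl A h * a * (incl A h)ᴴ) := by
  unfold corner
  congr 1
  ext i j
  simp only [of_apply, incl, Matrix.mul_apply, submatrix_apply, id, conjTranspose_apply,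
    Matrix.one_apply, CStarMatrix.ofMatrix_apply]
  split_ifs with hij
  · rw [Finset.sum_eq_single ⟨j, hij.2⟩, Finset.sum_eq_single ⟨i, hij.1⟩]
    · simp
    · intro b _ hb
      rw [if_neg (fun h' => hb (by simp [h'])), zero_mul]
    · simp
    · intro b _ hb
      rw [if_neg (fun h' => hb (by simp [h'])), star_zero, mul_zero]
    · simp
  · symm
    refine Finset.sum_eq_zero fun l _ => ?_
    by_cases hj : j = Fin.castLE h l
    · rw [Finset.sum_eq_zero, zero_mul]
      intro k _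
      rw [if_neg, zero_mul]
      intro hi
      exact hij ⟨by simp [hi], by simp [hj]⟩
    · rw [if_neg hj, star_zero, mul_zero]

lemma QT.tm_incl (t : QT A) {n N : ℕ} (h : n ≤ N) (a : Matrix (Fin n) (Fin n) A) :
    t.tm N (incl A h * a * (incl A h)ᴴ) = t.tm n a := by
  rw [QT.tm, ← corner_eq, t.compat n N h, QT.tm]

lemma QT.tm_rect (t : QT A) {m n : ℕ} (x : Matrix (Fin n) (Fin m) A) :
    t.tm m (xᴴ * x) = t.tm n (x * xᴴ) := by
  have hm : m ≤ m + n := Nat.le_add_right _ _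
  have hn : n ≤ m + n := Nat.le_add_left _ _
  have h := (t.isQ (m + n)).star_mul_eq (incl A hn * x * (incl A hm)ᴴ)
  rw [← t.tm_incl hm, ← t.tm_incl hn]
  convert h using 2
  · simp only [star_eq_conjTranspose, conjTranspose_mul, conjTranspose_conjTranspose,
      Matrix.mul_assoc]
    rw [← Matrix.mul_assoc (incl A hn)ᴴ, incl_conjT_mul, Matrix.one_mul]
  · simp only [star_eq_conjTranspose, conjTranspose_mul, conjTranspose_conjTranspose,
      Matrix.mul_assoc]
    rw [← Matrix.mul_assoc (incl A hm)ᴴ, incl_conjT_mul, Matrix.one_mul]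

lemma QT.dimS_mono (t : QT A) {m n : ℕ} {a : Matrix (Fin m) (Fin m) A}
    {b : Matrix (Fin n) (Fin n) A} (ha : 0 ≤ a) (hb : 0 ≤ b) (h : MSub a b) :
    dimS (t.tm m) a ≤ dimS (t.tm n) b := by
  have h1 : 0 ≤ (t.tm m 1).re := (t.isQ m).nonneg zero_le_one
  refine dimS_le fun f hf => le_of_forall_pos_le_add fun η' hη' => ?_
  obtain ⟨η, hη, hη2⟩ : ∃ η > 0, η * (t.tm m 1).re ≤ η' := by
    refine ⟨η' / ((t.tm m 1).re + 1), div_pos hη' (by linarith), ?_⟩
    rw [div_mul_eq_mul_div, div_le_iff₀ (by linarith)]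
    nlinarith
  obtain ⟨ε, hε, hε'⟩ := hf.exists_le hη
  have hc : Continuous fun s => max (f s - η) 0 := (hf.cont.sub continuous_const).max
    continuous_const
  obtain ⟨δ, hδ, x, hx, hg⟩ := h.exists_factor (.of_nonneg ha) hb hε hc (fun _ => le_max_right _ _)
    fun s hs h2 => max_eq_right (sub_nonpos.2 (hε' s (spectrum_nonneg_of_nonneg ha hs) h2))
  have h2 := (t.isQ m).cfc_le ha hf.cont hc (c := η) fun s _ => by
    have := le_max_left (f s - η) 0
    linarith
  let g : ℝ → ℝ := fun s => min 1 (max (s / δ) 0)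
  have hgc : Continuous g := by fun_prop
  have hg0 : ∀ s, 0 ≤ g s := fun s => le_min zero_le_one (le_max_right _ _)
  have hg1 : ∀ s, g s ≤ 1 := fun s => min_le_left _ _
  have hgx := hg g hgc fun s hs => min_eq_left (le_max_of_le_left ((one_le_div hδ).2 hs))
  have hgg : IsTest fun s => g s * g s := ⟨hgc.mul hgc, fun s => mul_self_nonneg _,
    fun s => mul_le_one₀ (hg1 s) (hg0 s) (hg1 s), by simp [g]⟩
  have hc0 := mul_conjT_self_nonneg x
  have hle : xᴴ * x ≤ 1 := by
    rw [hx]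
    exact cfc_le_one _ _ fun s _ => max_le (by linarith [hf.le_one s]) zero_le_one
  have hc1 : x * xᴴ ≤ 1 := by
    refine le_one_of_mul_self_le hc0 ?_
    simpa [Matrix.mul_assoc] using conj_le_conj x hle
  have hs : (cfc g b)ᴴ = cfc g b := star_cfc _ _
  have e1 : cfc g b * (x * xᴴ) = x * xᴴ := by rw [← Matrix.mul_assoc, hgx]
  have e2 : x * xᴴ * cfc g b = x * xᴴ := by
    have := congrArg conjTranspose e1
    simpa [hs] using this
  have h3 : x * xᴴ ≤ cfc g b * cfc g b := by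
    have := conj_le_conj (cfc g b) hc1
    rwa [hs, e1, e2, Matrix.mul_one] at this
  have h4 : Commute (x * xᴴ) (cfc g b) := e2.trans e1.symm
  have h5 := (t.isQ n).mono (.of_nonneg hc0) (.of_nonneg (hc0.trans h3)) (h4.mul_right h4) h3
  rw [cfc_mul_cfc hgc hgc] at h5
  have h6 := (t.isQ n).le_dimS hb hgg
  rw [← hx, t.tm_rect] at h2
  linarith

variable {m n p : Type*} [Fintype m] [DecidableEq m] [Fintype n] [DecidableEq n]
  [Fintype p] [DecidableEq p]

lemma cfc_submatrix (f : ℝ → ℝ) (hf : Continuous f) {a : Matrix n n A} (ha : IsSelfAdjoint a)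
    (e : m ≃ n) : cfc f (a.submatrix e e) = (cfc f a).submatrix e e := by
  have hs : IsSelfAdjoint (a.submatrix e e) := by
    have : aᴴ = a := ha.star_eq
    simp [IsSelfAdjoint, star_eq_conjTranspose, this]
  have h := cfc_intertwine f hf ha hs ((1 : Matrix n n A).submatrix e id) (by
    ext i j
    obtain ⟨j, rfl⟩ := e.surjective j
    simp [Matrix.mul_apply, Matrix.one_apply])
  rw [submatrix_eq_conj (cfc f a), h, Matrix.mul_assoc]
  have : (1 : Matrix n n A).submatrix e id * ((1 : Matrix n n A).submatrix e id)ᴴ = 1 := by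
    ext i j
    simp [Matrix.mul_apply, Matrix.one_apply, eq_comm]
  rw [this, Matrix.mul_one]

lemma QT.tm_blocks (t : QT A) {k l N : ℕ} {a : Matrix (Fin k) (Fin k) A}
    {b : Matrix (Fin l) (Fin l) A} (ha : 0 ≤ a) (hb : 0 ≤ b) (e : Fin N ≃ Fin k ⊕ Fin l) :
    t.tm N ((fromBlocks a 0 0 b).submatrix e e) = t.tm k a + t.tm l b := by
  obtain ⟨x, rfl⟩ := exists_eq_conjT_mul ha
  obtain ⟨y, rfl⟩ := exists_eq_conjT_mul hb
  have h1 := t.tm_rect ((fromCols x (0 : Matrix (Fin k) (Fin l) A)).submatrix id e)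
  have h2 := t.tm_rect ((fromCols (0 : Matrix (Fin l) (Fin k) A) y).submatrix id e)
  simp only [conjTranspose_submatrix, submatrix_mul_equiv, ← submatrix_mul _ _ _ id _
    Function.bijective_id, conjTranspose_fromCols_eq_fromRows_conjTranspose, fromRows_mul_fromCols,
    fromCols_mul_fromRows, conjTranspose_zero, Matrix.mul_zero, Matrix.zero_mul, add_zero, zero_add,
    submatrix_id_id] at h1 h2
  rw [t.tm_rect x, t.tm_rect y, ← h1, ← h2, ← (t.isQ N).add_comm]
  · congr 1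
    ext i j
    simp only [submatrix_apply, Matrix.add_apply]
    rcases e i with i | i <;> rcases e j with j | j <;> simp
  · exact .of_nonneg (submatrix_nonneg (fromBlocks_nonneg ha le_rfl) _)
  · exact .of_nonneg (submatrix_nonneg (fromBlocks_nonneg le_rfl hb) _)
  · simp [Commute, SemiconjBy, fromBlocks_multiply]

lemma cpow_nonneg {E : Type*} [CStarAlgebra E] [PartialOrder E] [StarOrderedRing E] {a : E}
    (ha : 0 ≤ a) (s : ℝ) : 0 ≤ cpow a s :=
  cfc_nonneg fun _ ht => Real.rpow_nonneg (spectrum_nonneg_of_nonneg ha ht) _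

lemma QT.dimS_blocks (t : QT A) {k l N : ℕ} {a : Matrix (Fin k) (Fin k) A}
    {b : Matrix (Fin l) (Fin l) A} (ha : 0 ≤ a) (hb : 0 ≤ b) (e : Fin N ≃ Fin k ⊕ Fin l) :
    dimS (t.tm N) ((fromBlocks a 0 0 b).submatrix e e) = dimS (t.tm k) a + dimS (t.tm l) b := by
  refine tendsto_nhds_unique ((t.isQ N).tendsto_dimS (submatrix_nonneg (fromBlocks_nonneg ha hb) e))
    ((((t.isQ k).tendsto_dimS ha).add ((t.isQ l).tendsto_dimS hb)).congr fun j => ?_)
  have hc : Continuous fun t : ℝ => t ^ ((j : ℝ) + 1)⁻¹ :=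
    Real.continuous_rpow_const (by positivity)
  rw [← Complex.add_re, ← t.tm_blocks (cpow_nonneg ha _) (cpow_nonneg hb _) e, cpow, cpow, cpow,
    cfc_submatrix _ hc (.of_nonneg (fromBlocks_nonneg ha hb)),
    cfc_fromBlocks _ hc (.of_nonneg ha) (.of_nonneg hb)]

lemma QT.dimS_rep (t : QT A) (x : Pos A) : dimS (t.tm _) (W.mk x).rep.a = dimS (t.tm _) x.a :=
  le_antisymm (t.dimS_mono (W.rep _).h x.h (W.mk_le_mk.1 (W.mk_rep _).le))
    (t.dimS_mono x.h (W.rep _).h (W.mk_le_mk.1 (W.mk_rep _).ge))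

lemma QT.d_eq (t : QT A) {k : ℕ} {a : Matrix (Fin k) (Fin k) A} (ha : 0 ≤ a) :
    t.d (CStarMatrix.ofMatrix a) = dimS (t.tm k) a :=
  ((t.isQ k).tendsto_dimS ha).limUnder_eq

theorem QT.exists_state (t : QT A) : ∃ s : W A →+ ℝ, IsState (W.u A) s ∧
    ∀ (k : ℕ) (a : Matrix (Fin k) (Fin k) A), 0 ≤ a → s (cls a) = t.d (CStarMatrix.ofMatrix a) := by
  have hadd : ∀ x y : W A, dimS (t.tm _) (x + y).rep.a =
      dimS (t.tm _) x.rep.a + dimS (t.tm _) y.rep.a := fun x y => by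
    have : x + y = W.mk ⟨_, _, submatrix_nonneg (fromBlocks_nonneg x.rep.h y.rep.h)
        (Fintype.equivFin _).symm⟩ := dif_pos (fromBlocks_nonneg x.rep.h y.rep.h)
    rw [this, t.dimS_rep, t.dimS_blocks x.rep.h y.rep.h]
  have hcls : ∀ (k : ℕ) (a : Matrix (Fin k) (Fin k) A), 0 ≤ a →
      dimS (t.tm _) (cls a).rep.a = dimS (t.tm k) a := fun k a ha => by
    rw [cls_eq_mk ⟨k, a, ha⟩, t.dimS_rep]
  refine ⟨⟨⟨fun x => dimS (t.tm _) x.rep.a, ?_⟩, hadd⟩, ⟨fun x y h => ?_, ?_⟩, fun k a ha => ?_⟩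
  · have := hadd 0 0
    rw [add_zero] at this
    linarith
  · rw [← x.mk_rep, ← y.mk_rep, W.mk_le_mk] at h
    exact t.dimS_mono x.rep.h y.rep.h h
  · have h1 : W.u A = cls (1 : Matrix (Fin 1) (Fin 1) A) := by simp [cls_one]
    have h2 := (t.isQ 1).tendsto_dimS mone_nonneg
    have h3 : ∀ s : ℝ, cpow (1 : Matrix (Fin 1) (Fin 1) A) s = 1 := fun s => by
      simp [cpow, cfc_apply_one]
    have h4 : t.tm 1 1 = 1 := t.normalized
    simp only [h3, h4, Complex.one_re] at h2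
    change dimS (t.tm _) (W.u A).rep.a = 1
    rw [h1, hcls 1 1 mone_nonneg]
    exact tendsto_nhds_unique h2 tendsto_const_nhds
  · rw [t.d_eq ha]
    exact hcls k a ha

end Fam

end Pool.Agent.Lib.MP_f90f6c_an.H50
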