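import Pool.Agent.Lib.MP_f90f6c_an.H50Val
import Pool.Agent.Lib.MP_f90f6c_an.H50QS

/-!
Every state on the Cuntz semigroup dominates the dimension function of a quasitrace.
-/

namespace Pool.Agent.Lib.MP_f90f6c_an.H50

open Filter Topology Matrix
open scoped ComplexStarModule

set_option linter.unusedSectionVars false

variable {A : Type*} [CStarAlgebra A] [PartialOrder A] [StarOrderedRing A]
variable {m n p : Type*} [Fintype m] [DecidableEq m] [Fintype n] [DecidableEq n]
  [Fintype p] [DecidableEq p]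

lemma IsState.dimFn {s : W A →+ ℝ} (hs : IsState (W.u A) s) :
    DimFn fun a : Matrix n n A => s (cls a) := by
  refine ⟨fun a b ha hb h => hs.mono ((cls_le_cls ha hb).2 h), by rw [cls_zero, map_zero],
    fun a b ha hb hab => ?_, fun a b ha hb hab => ?_⟩
  · have h1 := add_nonneg ha hb
    have h2 : 0 ≤ a * b * (a + b) := (Commute.mul_left ((Commute.refl a).add_right hab)
      (hab.symm.add_right (Commute.refl b))).mul_nonneg (hab.mul_nonneg ha hb) h1
    rw [← map_add, ← map_add, ← cls_fromBlocks ha hb, ← cls_fromBlocks h1 h2]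
    refine hs.mono ((cls_le_cls (fromBlocks_nonneg h1 h2) (fromBlocks_nonneg ha hb)).2 ?_)
    have := MSub.conj (fromBlocks (1 : Matrix n n A) 1 (-b) a) (fromBlocks a 0 0 b)
    simp only [fromBlocks_conjTranspose, fromBlocks_multiply, conjTranspose_one, conjTranspose_neg,
      herm_of_nonneg ha, herm_of_nonneg hb, Matrix.mul_zero, add_zero, zero_add, Matrix.one_mul,
      Matrix.mul_one] at this
    convert this using 2
    · rw [mul_neg, hab.eq, neg_add_cancel]
    · rw [neg_mul, hab.eq, neg_add_cancel]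
    · rw [neg_mul, neg_mul_neg, mul_add, add_comm, ← hab.eq]
  · have h1 := add_nonneg ha hb
    have c1 : Commute a (a + b) := (Commute.refl a).add_right hab
    have c2 : Commute b (a + b) := hab.symm.add_right (Commute.refl b)
    have h2 : 0 ≤ a * b * (a + b) := (c1.mul_left c2).mul_nonneg (hab.mul_nonneg ha hb) h1
    have h3 : 0 ≤ (a + b) ^ 2 := by
      rw [sq]
      exact (Commute.refl _).mul_nonneg h1 h1
    have h4 : 0 ≤ a * (a + b) ^ 2 := (c1.pow_right 2).mul_nonneg ha h3
    have h5 : 0 ≤ b * (a + b) ^ 2 := (c2.pow_right 2).mul_nonneg hb h3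
    rw [← map_add, ← map_add, ← cls_fromBlocks h4 h5, ← cls_fromBlocks h1 h2]
    refine hs.mono ((cls_le_cls (fromBlocks_nonneg h4 h5) (fromBlocks_nonneg h1 h2)).2 ?_)
    have := MSub.conj (fromBlocks a (-1) b 1) (fromBlocks (a + b) 0 0 (a * b * (a + b)))
    simp only [fromBlocks_conjTranspose, fromBlocks_multiply, conjTranspose_one, conjTranspose_neg,
      herm_of_nonneg ha, herm_of_nonneg hb, Matrix.mul_zero, add_zero, zero_add, Matrix.one_mul,
      Matrix.mul_one] at this
    generalize hc : a + b = c at *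
    have e1 : c * a = a * c := c1.eq.symm
    have e2 : c * b = b * c := c2.eq.symm
    convert this using 2
    · rw [neg_mul, neg_mul_neg, one_mul, mul_one, mul_assoc, mul_assoc, e1, ← mul_add, ← add_mul, hc,
        sq]
    · rw [neg_mul, one_mul, mul_assoc, mul_assoc, e2, add_neg_cancel]
    · rw [mul_neg, mul_one, mul_assoc, e1, ← mul_assoc, hab.eq, add_neg_cancel]
    · rw [hab.eq, mul_assoc, mul_assoc, e2, ← mul_add, ← add_mul, add_comm b, hc, sq]

lemma choq_conjT_mul {s : W A →+ ℝ} (hs : IsState (W.u A) s) (x : Matrix n n A) :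
    choq (fun a : Matrix n n A => s (cls a)) (star x * x) =
      choq (fun a : Matrix n n A => s (cls a)) (x * star x) := by
  rw [hs.dimFn.choq_eq_of_nonneg (star_mul_self_nonneg x) (le_max_left _ ‖x * star x‖),
    hs.dimFn.choq_eq_of_nonneg (mul_star_self_nonneg x) (le_max_right ‖star x * x‖ _)]
  refine intervalIntegral.integral_congr_Ioo_of_le (le_max_of_le_left (norm_nonneg _))
    fun t ht => ?_
  have h0 : max ((0 : ℝ) - t) 0 = 0 := max_eq_right (by linarith [ht.1])
  have h1 := MSub.cfc_conjT_mul x (f := fun u => max (u - t) 0) (by fun_prop)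
    (fun _ => le_max_right _ _) h0
  have h2 := MSub.cfc_conjT_mul xᴴ (f := fun u => max (u - t) 0) (by fun_prop)
    (fun _ => le_max_right _ _) h0
  rw [conjTranspose_conjTranspose] at h2
  exact congrArg s (cls_eq_cls (cut_nonneg _ _) (cut_nonneg _ _) h1 h2)

lemma choq_blocks {s : W A →+ ℝ} (hs : IsState (W.u A) s) {a : Matrix m m A} {b : Matrix n n A}
    (ha : IsSelfAdjoint a) (hb : IsSelfAdjoint b) (e : p ≃ m ⊕ n) :
    choq (fun a : Matrix p p A => s (cls a)) ((fromBlocks a 0 0 b).submatrix e e) =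
      choq (fun a : Matrix m m A => s (cls a)) a + choq (fun a : Matrix n n A => s (cls a)) b := by
  have hab := isSelfAdjoint_fromBlocks ha hb
  have hc : IsSelfAdjoint ((fromBlocks a 0 0 b).submatrix e e) := by
    have : (fromBlocks a 0 0 b)ᴴ = fromBlocks a 0 0 b := hab.star_eq
    simp only [IsSelfAdjoint, star_eq_conjTranspose, conjTranspose_submatrix, this]
  set R := ‖a‖ + ‖b‖ + ‖(fromBlocks a 0 0 b).submatrix e e‖ with hR
  have n1 := norm_nonneg a
  have n2 := norm_nonneg b
  have n3 := norm_nonneg ((fromBlocks a 0 0 b).submatrix e e)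
  rw [hs.dimFn.choq_eq ha (R := R) (by linarith), hs.dimFn.choq_eq hb (R := R) (by linarith),
    hs.dimFn.choq_eq hc (R := R) (by linarith)]
  have h1 : ∀ t, s (cls (cut t ((fromBlocks a 0 0 b).submatrix e e))) =
      s (cls (cut t a)) + s (cls (cut t b)) := fun t => by
    rw [cut, cfc_submatrix _ (by fun_prop) hab, cfc_fromBlocks _ (by fun_prop) ha hb,
      ← cut, ← cut, cls_submatrix_equiv (fromBlocks_nonneg (cut_nonneg _ _) (cut_nonneg _ _)),
      cls_fromBlocks (cut_nonneg _ _) (cut_nonneg _ _), map_add]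
  simp only [h1]
  rw [intervalIntegral.integral_add (hs.dimFn.integrable a _ _) (hs.dimFn.integrable b _ _)]
  simp only [cls_one, hs.nsmul_unit, Fintype.card_congr e, Fintype.card_sum]
  push_cast
  ring

/-- corner embedding as a star linear map -/
noncomputable def cornerL (e : p ≃ m ⊕ n) : Matrix m m A →⋆ₙₐ[ℂ] Matrix p p A where
  toFun a := (fromBlocks a 0 0 0).submatrix e e
  map_smul' c a := by
    ext i j
    simp only [submatrix_apply, Matrix.smul_apply, MonoidHom.id_apply]
    rcases e i with i | i <;> rcases e j with j | j <;> simp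
  map_zero' := by simp
  map_add' a b := by
    ext i j
    simp only [submatrix_apply, Matrix.add_apply]
    rcases e i with i | i <;> rcases e j with j | j <;> simp
  map_mul' a b := by simp [fromBlocks_multiply]
  map_star' a := by simp [star_eq_conjTranspose, fromBlocks_conjTranspose]

lemma corner_eq_cornerL {k l : ℕ} (a : Matrix (Fin k) (Fin k) A) :
    corner (k + l) (CStarMatrix.ofMatrix a) =
      CStarMatrix.ofMatrix (cornerL (finSumFinEquiv (m := k) (n := l)).symm a) := by
  unfold corner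
  congr 1
  ext i j
  obtain ⟨i, rfl⟩ := finSumFinEquiv.surjective i
  obtain ⟨j, rfl⟩ := finSumFinEquiv.surjective j
  change _ = fromBlocks a 0 0 0 _ _
  simp only [Equiv.symm_apply_apply, of_apply]
  rcases i with i | i <;> rcases j with j | j <;> simp

theorem IsState.exists_qt' {s : W A →+ ℝ} (hs : IsState (W.u A) s) :
    ∃ t : QT A, ∀ (k : ℕ) (a : Matrix (Fin k) (Fin k) A), 0 ≤ a →
      t.d (CStarMatrix.ofMatrix a) ≤ s (cls a) ∧
        ∀ ε > 0, s (cls (cut ε a)) ≤ t.d (CStarMatrix.ofMatrix a) := by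
  let t : QT A :=
    { τ := fun k a => choqC (fun a : Matrix (Fin k) (Fin k) A => s (cls a))
        (CStarMatrix.ofMatrix.symm a)
      isQuasitrace := fun k => hs.dimFn.isQuasitrace (choq_conjT_mul hs)
      compat := fun k N h a => by
        obtain ⟨l, rfl⟩ := Nat.exists_eq_add_of_le h
        obtain ⟨a, rfl⟩ := CStarMatrix.ofMatrix.surjective a
        rw [corner_eq_cornerL, Equiv.symm_apply_apply, Equiv.symm_apply_apply, choqC, choqC,
          ← map_realPart, ← map_imaginaryPart]
        have h1 := choq_blocks hs (ℜ a).2 (.zero (Matrix (Fin l) (Fin l) A)) finSumFinEquiv.symm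
        have h2 := choq_blocks hs (ℑ a).2 (.zero (Matrix (Fin l) (Fin l) A)) finSumFinEquiv.symm
        rw [hs.dimFn.choq_zero, add_zero] at h1 h2
        rw [← h1, ← h2]
        rfl
      normalized := by
        change choqC (fun a : Matrix (Fin 1) (Fin 1) A => s (cls a)) 1 = 1
        rw [hs.dimFn.choqC_sa (.one _), hs.dimFn.choq_one, cls_one, hs.nsmul_unit]
        simp }
  refine ⟨t, fun k a ha => ?_⟩
  rw [t.d_eq ha]
  have hn : ∀ f, IsTest f → ‖cfc f a‖ ≤ 1 := fun f hf => norm_cfc_le' ha zero_le_one fun t _ => by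
    rw [abs_of_nonneg (hf.nonneg t)]
    exact hf.le_one t
  refine ⟨dimS_le fun f hf => ?_, fun ε hε => ?_⟩
  · change (choqC (fun a : Matrix (Fin k) (Fin k) A => s (cls a)) (cfc f a)).re ≤ _
    have h0 : 0 ≤ cfc f a := cfc_nonneg fun t _ => hf.nonneg t
    rw [hs.dimFn.choqC_sa (cfc_sa _ _), Complex.ofReal_re]
    exact (hs.dimFn.choq_le h0 (hn f hf)).trans
      (hs.dimFn.mono _ _ h0 ha (CSub.cfc_self ha hf.cont (fun t _ => hf.nonneg t) hf.zero))
  · have hf : IsTest fun t => min (max t 0 / ε) 1 :=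
      ⟨by fun_prop, fun t => le_min (by positivity) zero_le_one, fun t => min_le_right _ _, by simp⟩
    refine le_trans ?_ ((t.isQ k).le_dimS ha hf)
    change _ ≤ (choqC (fun a : Matrix (Fin k) (Fin k) A => s (cls a))
      (cfc (fun t : ℝ => min (max t 0 / ε) 1) a)).re
    rw [hs.dimFn.choqC_sa (cfc_sa _ _), Complex.ofReal_re,
      (hs.dimFn (n := Fin k)).choq_eq_of_nonneg (cfc_nonneg fun t _ => hf.nonneg t) (hn _ hf)]
    have := intervalIntegral.integral_mono_on_of_le_Ioo zero_le_one
      (intervalIntegrable_const (c := s (cls (cut ε a))))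
      ((hs.dimFn (n := Fin k)).integrable (cfc (fun t : ℝ => min (max t 0 / ε) 1) a) 0 1)
      fun r hr => by
        refine (hs.dimFn (n := Fin k)).mono _ _ (cut_nonneg _ _) (cut_nonneg _ _) ?_
        rw [cut, cut, ← cfc_comp' _ _ a]
        refine CSub.cfc_supp (.of_nonneg ha) (by fun_prop) (by fun_prop)
          (fun _ _ => le_max_right _ _) (fun _ _ => le_max_right _ _) fun x _ hx => ?_
        refine max_eq_right (sub_nonpos.2 (le_of_not_ge fun h => ?_))
        rw [min_eq_right (by rw [le_div_iff₀ hε, one_mul]; exact le_max_of_le_left h),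
          max_eq_right_iff] at hx
        linarith [hr.2]
    simpa using this

theorem IsState.exists_qt {s : W A →+ ℝ} (hs : IsState (W.u A) s) :
    ∃ t : QT A, ∀ (k : ℕ) (a : Matrix (Fin k) (Fin k) A), 0 ≤ a →
      t.d (CStarMatrix.ofMatrix a) ≤ s (cls a) :=
  hs.exists_qt'.imp fun _ ht k a ha => (ht k a ha).1

theorem RComparison.le_of_states {r : ℝ} (h : RComparison A r) {x y : W A}
    (hxy : ∀ s : W A →+ ℝ, IsState (W.u A) s → s x + r < s y) : x ≤ y := by
  obtain ⟨k, a, ha, rfl⟩ := cls_surj x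
  obtain ⟨l, b, hb, rfl⟩ := cls_surj y
  let e := (finSumFinEquiv (m := k) (n := l)).symm
  have ha' := fromBlocks_nonneg ha (le_refl (0 : Matrix (Fin l) (Fin l) A))
  have hb' := fromBlocks_nonneg (le_refl (0 : Matrix (Fin k) (Fin k) A)) hb
  have e1 : cls a = cls ((fromBlocks a 0 0 0).submatrix e e) := by
    rw [cls_submatrix_equiv ha', cls_fromBlocks ha le_rfl, cls_zero, add_zero]
  have e2 : cls b = cls ((fromBlocks 0 0 0 b).submatrix e e) := by
    rw [cls_submatrix_equiv hb', cls_fromBlocks le_rfl hb, cls_zero, zero_add]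
  rw [e1, e2] at hxy ⊢
  rw [cls_le_cls (submatrix_nonneg ha' e) (submatrix_nonneg hb' e)]
  refine cuntzSub_iff.1 (h (k + l) (CStarMatrix.ofMatrix ((fromBlocks a 0 0 0).submatrix e e))
    (CStarMatrix.ofMatrix ((fromBlocks 0 0 0 b).submatrix e e))
    (submatrix_nonneg ha' e) (submatrix_nonneg hb' e) fun t => ?_)
  obtain ⟨s, hs, hs'⟩ := t.exists_state
  rw [← hs' _ _ (submatrix_nonneg ha' e), ← hs' _ _ (submatrix_nonneg hb' e)]
  exact hxy s hs

end Pool.Agent.Lib.MP_f90f6c_an.H50
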