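import Pool.Agent.Lib.MP_f90f6c_an.H50W

/-!
Simple C⋆-algebras: fullness and small elements.
-/

namespace Pool.Agent.Lib.MP_f90f6c_an.H50

open Filter Topology Matrix
open scoped ComplexStarModule

set_option linter.unusedSectionVars false

variable {A : Type*} [CStarAlgebra A] [PartialOrder A] [StarOrderedRing A]

lemma IsSimple.one_mem (hA : IsSimple A) {S : Set A} (hc : IsClosed S) (h0 : (0 : A) ∈ S)
    (hadd : ∀ {x y}, x ∈ S → y ∈ S → x + y ∈ S) (hl : ∀ {x y}, y ∈ S → x * y ∈ S)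
    (hr : ∀ {x y}, x ∈ S → x * y ∈ S) {h : A} (hS : h ∈ S) (hne : h ≠ 0) : (1 : A) ∈ S := by
  let I := TwoSidedIdeal.mk' S h0 hadd (fun {x} hx => by simpa using hl (x := -1) hx) hl hr
  have hI : ∀ x, x ∈ I ↔ x ∈ S := fun x => TwoSidedIdeal.mem_mk' ..
  have hI' : (I : Set A) = S := Set.ext hI
  rcases hA.2 I (hI' ▸ hc) with h1 | h1
  · exact absurd (by simpa [h1] using (hI h).2 hS) hne
  · rw [← hI, h1]
    trivial

lemma IsSimple.exists_mul_ne (hA : IsSimple A) {x y : A} (hx : x ≠ 0) (hy : y ≠ 0) :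
    ∃ a, x * a * y ≠ 0 := by
  by_contra h
  push Not at h
  have := hA.one_mem (S := {z | ∀ a, x * a * z = 0}) (by
      simp only [Set.ofPred_forall]
      exact isClosed_iInter fun a => isClosed_eq (by fun_prop) continuous_const)
    (fun a => mul_zero _) (fun h1 h2 a => by rw [mul_add, h1 a, h2 a, add_zero])
    (fun {z w} h1 a => by rw [← h1 (a * z)]; simp only [mul_assoc])
    (fun h1 a => by rw [← mul_assoc, h1 a, zero_mul]) h hy
  exact hx (by simpa using this 1)

lemma IsSimple.exists_sum (hA : IsSimple A) {h : A} (hne : h ≠ 0) :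
    ∃ (ι : Type) (_ : Fintype ι) (x y : ι → A), ∑ i, x i * h * y i = 1 := by
  let S : Set A := {z | ∃ (ι : Type) (_ : Fintype ι) (x y : ι → A), ∑ i, x i * h * y i = z}
  have hadd : ∀ x ∈ S, ∀ y ∈ S, x + y ∈ S := by
    rintro _ ⟨ι, _, x, y, rfl⟩ _ ⟨κ, _, z, w, rfl⟩
    exact ⟨ι ⊕ κ, inferInstance, Sum.elim x z, Sum.elim y w, by simp⟩
  have hl : ∀ a, ∀ y ∈ S, a * y ∈ S := by
    rintro a _ ⟨ι, _, x, y, rfl⟩
    exact ⟨ι, inferInstance, fun i => a * x i, y, by simp [Finset.mul_sum, mul_assoc]⟩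
  have hr : ∀ a, ∀ y ∈ S, y * a ∈ S := by
    rintro a _ ⟨ι, _, x, y, rfl⟩
    exact ⟨ι, inferInstance, x, fun i => y i * a, by simp [Finset.sum_mul, mul_assoc]⟩
  have hh : h ∈ S := ⟨Unit, inferInstance, 1, 1, by simp⟩
  have h1 := hA.one_mem (S := closure S) isClosed_closure
    (subset_closure (by simpa using hl 0 h hh))
    (fun hx hy => map_mem_closure₂ continuous_add hx hy hadd)
    (fun {x y} hy => map_mem_closure (continuous_const_mul x) hy (hl x))
    (fun {x y} hx => map_mem_closure (f := fun z => z * y) (continuous_mul_const y) hx (hr y))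
    (subset_closure hh) hne
  obtain ⟨z, hz, hz'⟩ := Metric.mem_closure_iff.1 h1 1 one_pos
  rw [dist_eq_norm] at hz'
  obtain ⟨s, hs⟩ := (isUnit_of_norm_one_sub_lt hz').exists_left_inv
  exact hs ▸ hl s z hz

lemma IsSimple.exists_sum_star (hA : IsSimple A) {h : A} (h0 : 0 ≤ h) (hne : h ≠ 0) :
    ∃ (ι : Type) (_ : Fintype ι) (a : ι → A), ∑ i, a i * h * star (a i) = 1 := by
  obtain ⟨ι, _, x, y, hxy⟩ := hA.exists_sum hne
  have hs : star h = h := (IsSelfAdjoint.of_nonneg h0).star_eq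
  let a : ι ⊕ ι → A := Sum.elim x fun i => star (y i)
  have h1 : (1 : A) ≤ ∑ i, a i * h * star (a i) := by
    have h2 : ∑ i, star (y i) * h * star (x i) = 1 := by
      simpa [star_sum, hs, mul_assoc] using congrArg star hxy
    have h3 : 0 ≤ ∑ i, (x i - star (y i)) * h * star (x i - star (y i)) :=
      Finset.sum_nonneg fun i _ => star_right_conjugate_nonneg h0 _
    have h4 : ∑ i, (x i - star (y i)) * h * star (x i - star (y i)) =
        ∑ i, a i * h * star (a i) - 1 - 1 := by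
      conv_rhs =>
        enter [1, 2]
        rw [← hxy]
      conv_rhs =>
        enter [2]
        rw [← h2]
      simp only [a, Fintype.sum_sum_type, Sum.elim_inl, Sum.elim_inr, star_star, star_sub, sub_mul,
        mul_sub, Finset.sum_sub_distrib]
      abel
    rw [h4, sub_nonneg, le_sub_iff_add_le] at h3
    exact (le_add_of_nonneg_right zero_le_one).trans h3
  obtain ⟨s, hs, -, hs'⟩ := exists_inv_sqrt (zero_le_one.trans h1)
    (CStarAlgebra.isUnit_of_le _ h1 isStrictlyPositive_one)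
  refine ⟨ι ⊕ ι, inferInstance, fun i => s * a i, ?_⟩
  rw [← hs', Finset.mul_sum, Finset.sum_mul]
  simp only [star_mul, hs, mul_assoc]

lemma cls1_add_of_orth {a b : A} (ha : 0 ≤ a) (hb : 0 ≤ b) (hab : a * b = 0) :
    cls1 a + cls1 b ≤ cls1 (a + b) := by
  rw [cls1, cls1, cls1, map_add]
  exact cls_add_of_orth (oneBy_nonneg ha) (oneBy_nonneg hb) (by rw [← map_mul, hab, map_zero])

lemma cls1_add_le {a b : A} (ha : 0 ≤ a) (hb : 0 ≤ b) : cls1 (a + b) ≤ cls1 a + cls1 b := by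
  rw [cls1, cls1, cls1, map_add]
  exact cls_add_le (oneBy_nonneg ha) (oneBy_nonneg hb)

lemma cls1_star_mul (t : A) : cls1 (star t * t) = cls1 (t * star t) := by
  simp only [cls1, map_mul, map_star]
  exact cls_conjT_mul _

lemma exists_split_of_spectrum {y : A} (hy : 0 ≤ y) {s t : ℝ} (hs : s ∈ spectrum ℝ y)
    (ht : t ∈ spectrum ℝ y) (h0 : 0 < s) (hst : s < t) :
    ∃ a b : A, 0 ≤ a ∧ 0 ≤ b ∧ a ≠ 0 ∧ b ≠ 0 ∧ cls1 a + cls1 b ≤ cls1 y := by
  have hne : ∀ f : ℝ → ℝ, Continuous f → ∀ r ∈ spectrum ℝ y, f r ≠ 0 → cfc f y ≠ 0 :=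
    fun f hf r hr h1 h2 => by
      rw [← cfc_zero ℝ y] at h2
      exact h1 (eqOn_of_cfc_eq_cfc h2 hf.continuousOn continuousOn_const (.of_nonneg hy) hr)
  let m := (s + t) / 2
  let f' : ℝ → ℝ := fun r => max r 0 * max (m - r) 0
  let g' : ℝ → ℝ := fun r => max (r - m) 0
  have hf : Continuous f' := by fun_prop
  have hg : Continuous g' := by fun_prop
  have hf0 : ∀ r, 0 ≤ f' r := fun r => mul_nonneg (le_max_right _ _) (le_max_right _ _)
  have hg0 : ∀ r, 0 ≤ g' r := fun r => le_max_right _ _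
  have ha : 0 ≤ cfc f' y := cfc_nonneg fun r _ => hf0 r
  have hb : 0 ≤ cfc g' y := cfc_nonneg fun r _ => hg0 r
  refine ⟨_, _, ha, hb, hne _ hf s hs (mul_pos (lt_max_of_lt_left h0)
    (lt_max_of_lt_left (by simp only [m]; linarith))).ne',
    hne _ hg t ht (lt_max_of_lt_left (by simp only [m]; linarith)).ne',
    (cls1_add_of_orth ha hb ?_).trans (cls1_le (add_nonneg ha hb) hy ?_)⟩
  · rw [cfc_mul_cfc hf hg, ← cfc_zero ℝ y]
    refine cfc_congr fun r _ => ?_
    rcases le_total r m with h | h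
    · simp [g', max_eq_right (sub_nonpos.2 h)]
    · simp [f', max_eq_right (sub_nonpos.2 h)]
  · rw [← cfc_add y f' g']
    refine CSub.cfc_self hy (hf.add hg) (fun r _ => add_nonneg (hf0 r) (hg0 r)) ?_
    simp only [f', g', max_self, zero_mul, zero_add]
    exact max_eq_right (by simp only [m]; linarith)

lemma exists_sq_eq_smul {y : A} (hy : 0 ≤ y)
    (h : ∀ s ∈ spectrum ℝ y, ∀ t ∈ spectrum ℝ y, 0 < s → ¬s < t) : ∃ c : ℝ, y * y = c • y := by
  by_cases h1 : ∃ c ∈ spectrum ℝ y, 0 < c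
  · obtain ⟨c, hc, hc0⟩ := h1
    refine ⟨c, ?_⟩
    conv_lhs => rw [← cfc_id' ℝ y, cfc_mul_cfc continuous_id' continuous_id']
    rw [← cfc_smul_id (R := ℝ) c y]
    refine cfc_congr fun t ht => ?_
    rcases (spectrum_nonneg_of_nonneg hy ht).eq_or_lt with rfl | h2
    · simp
    · rw [le_antisymm (not_lt.1 (h c hc t ht hc0)) (not_lt.1 (h t ht c hc h2))]
      simp
  · push Not at h1
    have : y = 0 := CFC.eq_zero_of_spectrum_subset_zero (R := ℝ) y fun t ht =>
      le_antisymm (h1 t ht) (spectrum_nonneg_of_nonneg hy ht)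
    exact ⟨0, by simp [this]⟩

lemma IsSimple.exists_split (hA : IsSimple A) (hinf : ¬FiniteDimensional ℂ A) {y : A}
    (hy : 0 ≤ y) (hne : y ≠ 0) :
    ∃ a b : A, 0 ≤ a ∧ 0 ≤ b ∧ a ≠ 0 ∧ b ≠ 0 ∧ cls1 a + cls1 b ≤ cls1 y := by
  by_contra hcon
  have key : ∀ z : A, 0 ≤ z → CSub z y → ∃ c : ℝ, z * z = c • z := fun z hz hzy =>
    exists_sq_eq_smul hz fun s hs t ht h0 hst => by
      obtain ⟨a, b, ha, hb, ha', hb', h⟩ := exists_split_of_spectrum hz hs ht h0 hst
      exact hcon ⟨a, b, ha, hb, ha', hb', h.trans (cls1_le hz hy hzy)⟩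
  have hys : star y = y := (IsSelfAdjoint.of_nonneg hy).star_eq
  obtain ⟨c, hc⟩ := key y hy (CSub.refl y)
  have hsa : ∀ h : A, IsSelfAdjoint h → ∃ r : ℝ, y * h * y = r • (y * y) := fun h hh => by
    set k := h + (‖h‖ + 1) • (1 : A) with hk
    have hk1 : 1 ≤ k := by
      have := hh.neg_algebraMap_norm_le_self
      rw [Algebra.algebraMap_eq_smul_one, neg_le_iff_add_nonneg] at this
      rw [hk, add_smul, one_smul, ← add_assoc]
      exact le_add_of_nonneg_left this
    have hk0 : 0 ≤ k := zero_le_one.trans hk1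
    have hz0 : 0 ≤ y * k * y := by simpa [hys] using star_left_conjugate_nonneg hk0 y
    have hz1 : y * y ≤ y * k * y := by
      simpa [hys] using star_left_conjugate_le_conjugate hk1 y
    have hsub : CSub (y * k * y) y := by
      have h1 := (IsSelfAdjoint.of_nonneg hk0).le_algebraMap_norm_self
      have h2 := star_left_conjugate_le_conjugate h1 y
      rw [hys, Algebra.algebraMap_eq_smul_one, mul_smul_comm, smul_mul_assoc, mul_one] at h2
      exact (CSub.of_le hz0 h2).trans ((CSub.smul (norm_nonneg _) _).trans (CSub.sq_self hy))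
    obtain ⟨μ, hμ⟩ := key _ hz0 hsub
    have hc0 : c ≠ 0 := by
      rintro rfl
      exact hne (eq_zero_of_star_mul_self (by simpa [hys] using hc))
    set z := y * k * y with hz
    have hzs : star z = z := (IsSelfAdjoint.of_nonneg hz0).star_eq
    have hzy : z * y = c • z := by rw [hz, mul_assoc, hc, mul_smul_comm]
    have hyz : y * z = c • z := by
      rw [hz, ← mul_assoc, ← mul_assoc, hc, smul_mul_assoc, smul_mul_assoc]
    set d := z - (μ / c) • y with hd
    have hds : star d = d := by simp [hd, hzs, hys]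
    have hzd : z * d = 0 := by
      rw [hd, mul_sub, hμ, mul_smul_comm, hzy, smul_smul, div_mul_cancel₀ _ hc0, sub_self]
    have hyd : y * d = c • d := by
      rw [hd, mul_sub, hyz, mul_smul_comm, hc, smul_sub, smul_comm]
    have h3 := star_left_conjugate_le_conjugate hz1 d
    rw [mul_assoc _ z, hzd, mul_zero] at h3
    have h4 : star (y * d) * (y * d) = 0 := by
      refine le_antisymm ?_ (star_mul_self_nonneg _)
      simpa [hys, mul_assoc] using h3
    have h5 := eq_zero_of_star_mul_self h4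
    rw [hyd, smul_eq_zero, or_iff_right hc0, hd, sub_eq_zero, hz, hk] at h5
    refine ⟨μ / c / c - (‖h‖ + 1), ?_⟩
    rw [sub_smul, eq_sub_iff_add_eq]
    conv_rhs => rw [hc, smul_smul, div_mul_cancel₀ _ hc0, ← h5]
    simp [mul_add, add_mul]
  have hall : ∀ h : A, ∃ r : ℂ, y * h * y = r • (y * y) := fun h => by
    obtain ⟨r, hr⟩ := hsa _ (ℜ h).2
    obtain ⟨r', hr'⟩ := hsa _ (ℑ h).2
    refine ⟨r + Complex.I * r', ?_⟩
    rw [← realPart_add_I_smul_imaginaryPart h, mul_add, add_mul, hr, mul_smul_comm, smul_mul_assoc,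
      hr', add_smul, mul_smul, Complex.coe_smul, Complex.coe_smul]
  obtain ⟨ι, _, x, w, hxw⟩ := hA.exists_sum hne
  refine hinf (Module.Finite.of_surjective
    (Fintype.linearCombination ℂ fun p : ι × ι => x p.1 * (y * y) * w p.2) fun a => ?_)
  choose r hr using hall
  refine ⟨fun p => r (w p.1 * a * x p.2), ?_⟩
  rw [Fintype.linearCombination_apply, Fintype.sum_prod_type]
  conv_rhs => rw [← one_mul a, ← mul_one (1 * a), ← hxw, Finset.sum_mul, Finset.sum_mul]
  refine Finset.sum_congr rfl fun i _ => ?_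
  rw [Finset.mul_sum]
  refine Finset.sum_congr rfl fun j _ => ?_
  rw [← smul_mul_assoc, ← mul_smul_comm, ← hr]
  simp only [mul_assoc]

lemma IsSimple.exists_half (hA : IsSimple A) (hinf : ¬FiniteDimensional ℂ A) {y : A}
    (hy : 0 ≤ y) (hne : y ≠ 0) : ∃ x : A, 0 ≤ x ∧ x ≠ 0 ∧ 2 • cls1 x ≤ cls1 y := by
  obtain ⟨a, b, ha, hb, ha', hb', h⟩ := hA.exists_split hinf hy hne
  obtain ⟨c, hc⟩ := hA.exists_mul_ne ha' hb'
  have has : star a = a := (IsSelfAdjoint.of_nonneg ha).star_eq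
  have hbs : star b = b := (IsSelfAdjoint.of_nonneg hb).star_eq
  refine ⟨star (a * c * b) * (a * c * b), star_mul_self_nonneg _,
    fun h0 => hc (eq_zero_of_star_mul_self h0), le_trans ?_ h⟩
  rw [two_nsmul]
  refine add_le_add (cls1_le (star_mul_self_nonneg _) ha ?_) ?_
  · refine CSub.trans ?_ (CSub.sq_self ha)
    simpa [has, mul_assoc] using CSub.conj (star (c * b)) (a * a)
  · rw [cls1_star_mul]
    refine cls1_le (mul_star_self_nonneg _) hb (CSub.trans ?_ (CSub.sq_self hb))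
    simpa [hbs, mul_assoc] using CSub.conj (a * c) (b * b)

theorem IsSimple.exists_small (hA : IsSimple A) (hinf : ¬FiniteDimensional ℂ A) (M : ℕ) :
    ∃ x : A, 0 ≤ x ∧ ‖x‖ = 1 ∧ M • cls1 x ≤ W.u A := by
  have := hA.1
  have key : ∀ j : ℕ, ∃ x : A, 0 ≤ x ∧ x ≠ 0 ∧ 2 ^ j • cls1 x ≤ W.u A := fun j => by
    induction j with
    | zero => exact ⟨1, zero_le_one, one_ne_zero, by simp [W.u]⟩
    | succ j ih =>
      obtain ⟨y, hy, hy', h⟩ := ih
      obtain ⟨x, hx, hx', h'⟩ := hA.exists_half hinf hy hy'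
      refine ⟨x, hx, hx', le_trans ?_ h⟩
      rw [pow_succ', mul_nsmul]
      exact nsmul_le_nsmul_right h' _
  obtain ⟨x, hx, hx', h⟩ := key M
  have h0 : 0 ≤ ‖x‖⁻¹ := inv_nonneg.2 (norm_nonneg _)
  refine ⟨‖x‖⁻¹ • x, smul_nonneg h0 hx, norm_smul_inv_norm (𝕜 := ℝ) hx', le_trans ?_ h⟩
  exact (nsmul_le_nsmul_right (cls1_le (smul_nonneg h0 hx) hx (CSub.smul h0 x)) M).trans
    (W.nsmul_le Nat.lt_two_pow_self.le _)

end Pool.Agent.Lib.MP_f90f6c_an.H50
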