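import Pool.Agent.Lib.MP_f90f6c_an.H50Defs

/-!
The C⋆-algebra structure of `CStarMatrix n n A`, transported to `Matrix n n A` (scoped instances,
used only inside proofs).
-/

namespace Pool.Agent.Lib.MP_f90f6c_an.H50

open Filter Topology Matrix

set_option linter.unusedSectionVars false

section Inst

variable {A : Type*} [CStarAlgebra A] [PartialOrder A] [StarOrderedRing A]
variable {n : Type*} [Fintype n] [DecidableEq n]

/-- metric space structure -/
noncomputable abbrev matMetric : MetricSpace (Matrix n n A) :=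
  letI : UniformSpace (Matrix n n A) := Matrix.instUniformSpace n n A
  (inferInstanceAs (MetricSpace (CStarMatrix n n A)) : MetricSpace (Matrix n n A)).replaceUniformity
    rfl

noncomputable scoped instance matNormedRing : NormedRing (Matrix n n A) where
  toRing := Matrix.instRing
  toMetricSpace := matMetric
  norm M := ‖CStarMatrix.ofMatrix M‖
  dist_eq x y := NormedRing.dist_eq (CStarMatrix.ofMatrix x) (CStarMatrix.ofMatrix y)
  norm_mul_le x y := NormedRing.norm_mul_le (CStarMatrix.ofMatrix x) (CStarMatrix.ofMatrix y)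

noncomputable scoped instance matCStar : CStarAlgebra (Matrix n n A) where
  toNormedRing := matNormedRing
  toStarRing := inferInstance
  toCompleteSpace := inferInstanceAs (CompleteSpace (CStarMatrix n n A))
  norm_mul_self_le x := CStarRing.norm_mul_self_le (CStarMatrix.ofMatrix x)
  toAlgebra := Matrix.instAlgebra
  norm_smul_le r x := norm_smul_le r (CStarMatrix.ofMatrix x)
  star_smul := star_smul

noncomputable scoped instance matOrder : PartialOrder (Matrix n n A) :=
  CStarAlgebra.spectralOrder _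

scoped instance matStarOrdered : StarOrderedRing (Matrix n n A) :=
  CStarAlgebra.spectralOrderedRing _

lemma norm_entry_le (M : Matrix n n A) (i j : n) : ‖M i j‖ ≤ ‖M‖ :=
  CStarMatrix.norm_entry_le_norm (M := CStarMatrix.ofMatrix M)

lemma nonneg_iff_cstar (M : Matrix n n A) : 0 ≤ M ↔ 0 ≤ CStarMatrix.ofMatrix M := Iff.rfl

end Inst

section Rect

variable {A : Type*} [CStarAlgebra A] [PartialOrder A] [StarOrderedRing A]
variable {m n p : Type*} [Fintype m] [DecidableEq m] [Fintype n] [DecidableEq n]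
  [Fintype p] [DecidableEq p]

omit [DecidableEq n] in
lemma conjT_mul_self_nonneg (x : Matrix n m A) : 0 ≤ xᴴ * x := by
  rcases isEmpty_or_nonempty m with hm | ⟨⟨j0⟩⟩
  · exact le_of_eq (Subsingleton.elim _ _)
  have : xᴴ * x = ∑ i, star (Matrix.of fun j k => if j = j0 then x i k else 0 : Matrix m m A) *
      (Matrix.of fun j k => if j = j0 then x i k else 0) := by
    ext k l
    simp only [Matrix.mul_apply, Matrix.sum_apply, star_eq_conjTranspose, conjTranspose_apply,
      Matrix.of_apply]
    refine Finset.sum_congr rfl fun i _ => ?_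
    rw [Finset.sum_eq_single j0]
    · simp
    · intro b _ hb
      simp [hb]
    · simp
  rw [this]
  exact Finset.sum_nonneg fun i _ => star_mul_self_nonneg _

omit [DecidableEq n] in
lemma mul_conjT_self_nonneg (x : Matrix m n A) : 0 ≤ x * xᴴ := by
  simpa using conjT_mul_self_nonneg xᴴ

lemma exists_eq_conjT_mul {a : Matrix n n A} (ha : 0 ≤ a) : ∃ s : Matrix n n A, a = sᴴ * s :=
  CStarAlgebra.nonneg_iff_eq_star_mul_self.1 ha

lemma conj_nonneg (v : Matrix m n A) {a : Matrix n n A} (ha : 0 ≤ a) : 0 ≤ v * a * vᴴ := by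
  obtain ⟨s, rfl⟩ := exists_eq_conjT_mul ha
  have : v * (sᴴ * s) * vᴴ = (s * vᴴ)ᴴ * (s * vᴴ) := by
    simp [Matrix.mul_assoc]
  rw [this]
  exact conjT_mul_self_nonneg _

lemma conj_nonneg' (v : Matrix n m A) {a : Matrix n n A} (ha : 0 ≤ a) : 0 ≤ vᴴ * a * v := by
  simpa using conj_nonneg vᴴ ha

lemma conj_le_conj (v : Matrix m n A) {a b : Matrix n n A} (h : a ≤ b) :
    v * a * vᴴ ≤ v * b * vᴴ := by
  have := conj_nonneg v (sub_nonneg.2 h)
  rw [Matrix.mul_sub, Matrix.sub_mul] at this
  exact sub_nonneg.1 this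

lemma fromBlocks_nonneg {a : Matrix m m A} {b : Matrix n n A} (ha : 0 ≤ a) (hb : 0 ≤ b) :
    0 ≤ fromBlocks a 0 0 b := by
  obtain ⟨s, rfl⟩ := exists_eq_conjT_mul ha
  obtain ⟨t, rfl⟩ := exists_eq_conjT_mul hb
  have : fromBlocks (sᴴ * s) 0 0 (tᴴ * t) = (fromBlocks s 0 0 t)ᴴ * fromBlocks s 0 0 t := by
    simp [fromBlocks_conjTranspose, fromBlocks_multiply]
  rw [this]
  exact conjT_mul_self_nonneg _

lemma herm_of_nonneg {a : Matrix n n A} (ha : 0 ≤ a) : aᴴ = a :=
  (IsSelfAdjoint.of_nonneg ha).star_eq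

omit [PartialOrder A] [StarOrderedRing A] [Fintype m] [DecidableEq m] in
lemma submatrix_eq_conj (a : Matrix n n A) (e : m → n) :
    a.submatrix e e = (1 : Matrix n n A).submatrix e id * a *
      ((1 : Matrix n n A).submatrix e id)ᴴ := by
  ext i j
  simp [Matrix.mul_apply, Matrix.one_apply]

lemma submatrix_nonneg {a : Matrix n n A} (ha : 0 ≤ a) (e : m → n) : 0 ≤ a.submatrix e e := by
  rw [submatrix_eq_conj]
  exact conj_nonneg _ ha

/-- block diagonal embedding of a product of matrix algebras -/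
noncomputable def blockHom : (Matrix m m A × Matrix n n A) →⋆ₐ[ℂ] Matrix (m ⊕ n) (m ⊕ n) A where
  toFun x := fromBlocks x.1 0 0 x.2
  map_one' := by simp
  map_mul' x y := by simp [fromBlocks_multiply]
  map_zero' := by simp
  map_add' x y := by simp [fromBlocks_add]
  commutes' c := by
    simp only [Algebra.algebraMap_eq_smul_one, Prod.smul_fst, Prod.fst_one, Prod.smul_snd,
      Prod.snd_one]
    rw [← fromBlocks_one, fromBlocks_smul]
    simp
  map_star' x := by simp [star_eq_conjTranspose, fromBlocks_conjTranspose]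

lemma isSelfAdjoint_fromBlocks {a : Matrix m m A} {b : Matrix n n A} (ha : IsSelfAdjoint a)
    (hb : IsSelfAdjoint b) : IsSelfAdjoint (fromBlocks a 0 0 b) := by
  have ha' : aᴴ = a := ha.star_eq
  have hb' : bᴴ = b := hb.star_eq
  simp [IsSelfAdjoint, star_eq_conjTranspose, fromBlocks_conjTranspose, ha', hb']

set_option backward.isDefEq.respectTransparency false in
lemma cfc_fromBlocks (f : ℝ → ℝ) (hf : Continuous f) {a : Matrix m m A} {b : Matrix n n A}
    (ha : IsSelfAdjoint a) (hb : IsSelfAdjoint b) :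
    cfc f (fromBlocks a 0 0 b) = fromBlocks (cfc f a) 0 0 (cfc f b) := by
  have hab : IsSelfAdjoint (a, b) := Prod.ext ha.star_eq hb.star_eq
  have h1 := StarAlgHom.map_cfc (blockHom (A := A) (m := m) (n := n)) f (a, b) hf.continuousOn
    (map_continuous _) hab (isSelfAdjoint_fromBlocks ha hb)
  rw [cfc_map_prod (S := ℂ) f a b hf.continuousOn hab ha hb] at h1
  exact h1.symm

lemma cfc_intertwine (f : ℝ → ℝ) (hf : Continuous f) {a : Matrix m m A} {b : Matrix n n A}
    (ha : IsSelfAdjoint a) (hb : IsSelfAdjoint b) (x : Matrix n m A) (h : x * a = b * x) :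
    x * cfc f a = cfc f b * x := by
  have h1 : Commute (fromBlocks a 0 0 b) (fromBlocks 0 0 x 0) := by
    simp [Commute, SemiconjBy, fromBlocks_multiply, h]
  have h2 := h1.cfc_real f
  rw [cfc_fromBlocks f hf ha hb] at h2
  simp only [Commute, SemiconjBy, fromBlocks_multiply, fromBlocks_inj] at h2
  simpa using h2.2.2.1.symm

end Rect

end Pool.Agent.Lib.MP_f90f6c_an.H50
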