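import Pool.Agent.Lib.MP_f90f6c_an.H50Defs

/-!
The radius of comparison relative to the function `τ ↦ τ(x)` and relative to `τ ↦ d_τ(e)`.
-/

namespace Pool.Agent.Lib.MP_f90f6c_an.H50

open scoped ENNReal

variable {A : Type*} [CStarAlgebra A] [PartialOrder A] [StarOrderedRing A]

/-- Comparison with the gap function `τ ↦ r τ(x)`: for positive `a`, `b` in `M_∞(A)`,
`d_τ(a) + r τ(x) < d_τ(b)` for all `τ` in `QT(A)` implies that `a` is Cuntz subequivalent to `b`. -/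
def WComparison (x : A) (r : ℝ) : Prop :=
  ∀ (n : ℕ) (a b : Mn A n), 0 ≤ a → 0 ≤ b →
    (∀ t : QT A, t.d a + r * (t.tr x).re < t.d b) → CuntzSub a b

/-- The radius of comparison relative to `τ ↦ τ(x)`, in `[0, ∞]`; for `x = 1` it is `rc A`. -/
noncomputable def rcW (x : A) : ℝ≥0∞ :=
  ⨅ (r : ℝ) (_ : 0 ≤ r) (_ : WComparison x r), ENNReal.ofReal r

/-- Comparison relative to `e`: for positive `a`, `b` in `M_∞(A)`, `d_τ(a) + r d_τ(e) < d_τ(b)` for
all `τ` in `QT(A)` implies that `a` is Cuntz subequivalent to `b`. -/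
def RelComparison {k : ℕ} (e : Mn A k) (r : ℝ) : Prop :=
  ∀ (n : ℕ) (a b : Mn A n), 0 ≤ a → 0 ≤ b → (∀ t : QT A, t.d a + r * t.d e < t.d b) → CuntzSub a b

/-- The radius of comparison relative to `e`, in `[0, ∞]`; for `e = 1` in `M_1(A)` it is `rc A`. -/
noncomputable def rcRel {k : ℕ} (e : Mn A k) : ℝ≥0∞ :=
  ⨅ (r : ℝ) (_ : 0 ≤ r) (_ : RelComparison e r), ENNReal.ofReal r

variable {G : Type*} [Group G] [Fintype G] [DecidableEq G]

/-- The canonical image of `a` in the crossed product. -/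
def piC (α : G →* (A ≃⋆ₐ[ℂ] A)) (a : A) : crossed α :=
  ⟨regPi α a, StarSubalgebra.le_topologicalClosure _
    (StarAlgebra.subset_adjoin ℂ _ (Or.inl ⟨a, rfl⟩))⟩

end Pool.Agent.Lib.MP_f90f6c_an.H50
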