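import Pool.Agent.Lib.MP_f90f6c_an.H64Main

/-!
The inequalities `rc (C⋆(G, A, α)) ≤ rc A / card G` and `rc (A^α) ≤ rc A`
(Asadi-Vasfi, Golestani, Phillips), and the resulting equalities when quasitraces are traces.
-/

namespace Pool.Agent.Lib.MP_f90f6c_an.H50

open Filter Topology Matrix
open scoped ENNReal

set_option linter.unusedSectionVars false

lemma kap_mul_tsumM {A Q G m n p : Type*} [NormedRing A] [Ring Q] [Fintype G] [Fintype n]
    {κ : A →+* Q} {e : G → Q} (hc : ∀ g a, e g * κ a = κ a * e g) (j : ℕ) (b : Matrix m n A)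
    (a : G → Matrix n p A) : b.map κ * tsumM κ e j a = tsumM κ e j fun g => b * a g := by
  ext r s
  simp only [tsumM, tsum', Matrix.mul_apply, of_apply, map_apply, Finset.mul_sum, map_sum, map_mul]
  rw [Finset.sum_comm]
  refine Finset.sum_congr rfl fun g _ => Finset.sum_congr rfl fun k _ => ?_
  rw [← mul_assoc, ← mul_assoc, (Commute.pow_left (hc g (b r k)) (j + 1)).eq]

lemma IsSimple.exists_small_le {A : Type*} [CStarAlgebra A] [PartialOrder A] [StarOrderedRing A]
    (hA : IsSimple A) (hinf : ¬FiniteDimensional ℂ A) {y : A} (hy : 0 ≤ y) (hne : y ≠ 0) (M : ℕ) :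
    ∃ x : A, 0 ≤ x ∧ ‖x‖ = 1 ∧ M • cls1 x ≤ cls1 y := by
  have key : ∀ j : ℕ, ∃ x : A, 0 ≤ x ∧ x ≠ 0 ∧ 2 ^ j • cls1 x ≤ cls1 y := fun j => by
    induction j with
    | zero => exact ⟨y, hy, hne, by simp⟩
    | succ j ih =>
      obtain ⟨y, hy, hy', h⟩ := ih
      obtain ⟨x, hx, hx', h'⟩ := hA.exists_half hinf hy hy'
      refine ⟨x, hx, hx', le_trans ?_ h⟩
      rw [pow_succ', mul_nsmul]
      exact nsmul_le_nsmul_right h' _
  obtain ⟨x, hx, hx', h⟩ := key M
  have h0 : 0 ≤ ‖x‖⁻¹ := inv_nonneg.2 (norm_nonneg _)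
  refine ⟨‖x‖⁻¹ • x, smul_nonneg h0 hx, norm_smul_inv_norm (𝕜 := ℝ) hx', le_trans ?_ h⟩
  exact (nsmul_le_nsmul_right (cls1_le (smul_nonneg h0 hx) hx (CSub.smul h0 x)) M).trans
    (W.nsmul_le Nat.lt_two_pow_self.le _)

lemma cut_ne_zero {E : Type*} [CStarAlgebra E] [PartialOrder E] [StarOrderedRing E] {a : E}
    (ha : 0 ≤ a) {ε : ℝ} (hε : 0 ≤ ε) (h : ε < ‖a‖) : cut ε a ≠ 0 := fun h0 => by
  have := norm_sub_cut hε ha
  rw [h0, sub_zero] at this
  linarith

variable {G : Type*} [Group G] [Fintype G] [DecidableEq G] {A : Type*} [CStarAlgebra A]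
  [PartialOrder A] [StarOrderedRing A] {α : G →* (A ≃⋆ₐ[ℂ] A)}
variable {m n p : Type*} [Fintype m] [DecidableEq m] [Fintype n] [DecidableEq n]
  [Fintype p] [DecidableEq p]

variable (α) in
/-- the inclusion of the crossed product in `M_G(A)` -/
noncomputable def jC : crossed α →⋆ₙₐ[ℂ] Matrix G G A where
  toFun X := Matrix.of fun g h => ent α g h X
  map_smul' c X := by
    ext g h
    simp
  map_zero' := by
    ext g h
    simp
  map_add' X Y := by
    ext g h
    simp
  map_mul' X Y := by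
    ext g h
    simp [ent_mul, Matrix.mul_apply]
  map_star' X := by
    ext g h
    simp [ent_star]

lemma jC_one : jC α 1 = 1 := by
  ext g h
  exact (ent_one (α := α) g h).trans (Matrix.one_apply).symm

lemma mapM_jC (a : Matrix m n (crossed α)) (i : m × G) (j : n × G) :
    mapM (jC α) a i j = ent α i.2 j.2 (a i.1 j.1) := rfl

variable (α m) in
/-- the same for matrices -/
noncomputable def jM : Matrix m m (crossed α) →⋆ₐ[ℂ] Matrix (m × G) (m × G) A where
  toFun := mapM (jC α)
  map_one' := by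
    ext i j
    simp only [mapM_jC, Matrix.one_apply, Prod.ext_iff]
    by_cases h : i.1 = j.1 <;> simp [h, ent_one]
  map_mul' := mapM_mul _
  map_zero' := by
    ext i j
    simp [mapM_jC]
  map_add' a b := by
    ext i j
    simp [mapM_jC]
  commutes' c := by
    ext i j
    simp only [mapM_jC, Algebra.algebraMap_eq_smul_one, Matrix.smul_apply, map_smul,
      Matrix.one_apply, Prod.ext_iff]
    by_cases h : i.1 = j.1 <;> simp [h, ent_one]
  map_star' := mapM_conjT _

lemma jM_injective : Function.Injective (jM α m) := fun a b h =>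
  Matrix.ext fun i j => ent_ext (X := a i j) (Y := b i j) fun g k =>
    congrFun (congrFun h (i, g)) (j, k)

/-- the action on `M_(m × G, n × G)(A)` that fixes the matrices over the crossed product -/
def actB (α : G →* (A ≃⋆ₐ[ℂ] A)) (s : G) (v : Matrix (m × G) (n × G) A) :
    Matrix (m × G) (n × G) A :=
  Matrix.of fun i j => α s (v (i.1, i.2 * s) (j.1, j.2 * s))

lemma actB_mul (s : G) (v : Matrix (m × G) (n × G) A) (w : Matrix (n × G) (p × G) A) :
    actB α s (v * w) = actB α s v * actB α s w := by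
  ext i j
  simp only [actB, of_apply, Matrix.mul_apply, map_sum, map_mul]
  exact (Fintype.sum_equiv ((Equiv.refl n).prodCongr (Equiv.mulRight s)) _ _ fun _ => rfl).symm

lemma actB_conjT (s : G) (v : Matrix (m × G) (n × G) A) : actB α s vᴴ = (actB α s v)ᴴ := by
  ext i j
  simp [actB, map_star]

lemma actB_mapM (s : G) (a : Matrix m n (crossed α)) :
    actB α s (mapM (jC α) a) = mapM (jC α) a := by
  ext i j
  simp only [actB, of_apply, mapM_jC, ent_inv, act_act, mul_inv_cancel, act_one]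

variable (α) in
/-- the average of a matrix, as an element of the crossed product -/
noncomputable def avgC (v : G → G → A) : crossed α :=
  ∑ k, piD α (∑ s, α s (v s (k⁻¹ * s))) * ⟨regLambda A k, regLambda_mem k⟩

lemma ent_avgC (v : G → G → A) (g h : G) :
    ent α g h (avgC α v) = ∑ t, α t (v (g * t) (h * t)) := by
  have h1 : ∀ k r, ent α r h ⟨regLambda A k, regLambda_mem k⟩ = if r = k * h then 1 else 0 :=
    fun _ _ => rfl
  have h2 : ∀ k a, ent α g h (piD α a * ⟨regLambda A k, regLambda_mem k⟩) =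
      if g = k * h then α g⁻¹ a else 0 := fun k a => by
    simp only [ent_mul, ent_piD, ite_mul, zero_mul, Finset.sum_ite_eq, Finset.mem_univ, if_true]
    simp only [h1, mul_ite, mul_one, mul_zero]
  rw [avgC, map_sum]
  simp only [h2]
  rw [Finset.sum_eq_single (g * h⁻¹)]
  · simp only [inv_mul_cancel_right, if_true, map_sum, act_act]
    refine (Fintype.sum_equiv (Equiv.mulLeft g) _ _ fun t => ?_).symm
    simp [mul_assoc]
  · exact fun k _ hk => if_neg fun h' => hk (by simp [h'])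
  · simp

variable {x : A} {I : Type*} {l : Filter I} {f : I → G → A} {δ : I → ℝ}

/-- subequivalence in `M_G(A)` descends to the crossed product, up to a small error -/
theorem Towers.descend [l.NeBot] (T : Towers α x l f δ) (hx : 0 ≤ x)
    {a : Matrix m m (crossed α)} {b : Matrix n n (crossed α)} (ha : 0 ≤ a) (hb : 0 ≤ b)
    (v : Matrix (m × G) (n × G) A) (hv : v * mapM (jC α) b * vᴴ = mapM (jC α) a) {ε : ℝ}
    (hε : 0 < ε) : cls (cut ε a) ≤ cls b + Fintype.card m • cls1 (piD α x) := by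
  obtain ⟨e, he, he', hce, hoe⟩ := T.exists_rep
  have hfs : ∀ i g, star (f i g) = f i g := fun i g =>
    (IsSelfAdjoint.of_nonneg (T.nonneg i g)).star_eq
  have he1 : ∀ g, Rep l (fun i => α g (f i 1)) (e g) := fun g => by simpa using he' g 1
  let V : I → Matrix m n (crossed α) := fun i =>
    Matrix.of fun r s => avgC α fun g h => f i 1 * v (r, g) (s, h)
  have rV : RepM l (fun i => mapM (jC α) (V i)) (tsumM (kap A l) e 0 fun s => actB α s v) :=
    fun r s => by
      simpa [mapM_jC, V, ent_avgC, tsumM, tsum', actB] using Rep.sum Finset.univ fun g =>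
        (he1 g).mul (Rep.const (α g (v (r.1, r.2 * g) (s.1, s.2 * g))))
  have rV' : RepM l (fun i => mapM (jC α) (V i)ᴴ)
      (tsumM (kap A l) e 0 fun s => (actB α s v)ᴴ) := fun r s => by
    simpa [mapM_jC, V, ent_star, ent_avgC, tsumM, tsum', actB, star_sum, hce, ← map_star, hfs]
      using Rep.sum Finset.univ fun g =>
        (Rep.const (α g (star (v (s.1, s.2 * g) (r.1, r.2 * g))))).mul (he1 g)
  have r1 := (rV.mul (RepM.const (mapM (jC α) b))).mul rV'
  rw [tsumM_mul_kap, tsumM_mul hce hoe] at r1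
  have e1 : ∀ s, actB α s v * mapM (jC α) b * (actB α s v)ᴴ = mapM (jC α) a := fun s => by
    rw [← actB_mapM s b, ← actB_conjT, ← actB_mul, ← actB_mul, hv, actB_mapM]
  simp only [e1] at r1
  let F : I → fixedAlg α := fun i => avg α (f i 1 ^ 2)
  have hF : ∀ i, IsSelfAdjoint (F i : A) := fun i =>
    IsSelfAdjoint.map (show IsSelfAdjoint (F i) by simp [IsSelfAdjoint, F, ← avg_star, hfs])
      (fixedAlg α).subtype
  have rF : Rep l (fun i => (F i : A)) (tsum' (kap A l) e 1 fun _ => 1) := by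
    simpa [F, coe_avg, tsum'] using Rep.sum Finset.univ fun g => (he1 g).pow 2
  let D : I → Matrix m m (crossed α) := fun i => diagonal fun _ => piD α (F i)
  have rD : RepM l (fun i => mapM (jC α) (D i)) (tsumM (kap A l) e 1 fun _ => 1) := fun r s => by
    by_cases hrs : r = s
    · simpa [hrs, tsumM, mapM_jC, D, ent_piD, fix_inv] using rF
    · by_cases h1 : r.1 = s.1
      · have h2 : r.2 ≠ s.2 := fun h2 => hrs (Prod.ext h1 h2)
        simpa [hrs, tsumM, tsum', mapM_jC, D, h1, ent_piD, h2] using Rep.zero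
      · simpa [hrs, tsumM, tsum', mapM_jC, D, h1] using Rep.zero
  have r2 := ((RepM.const (mapM (jC α) (rt a))).mul rD).mul (RepM.const (mapM (jC α) (rt a)))
  rw [kap_mul_tsumM hce, tsumM_mul_kap] at r2
  simp only [Matrix.mul_one, ← mapM_mul, rt_mul_rt ha] at r1 r2
  have rf : Rep l (fun i => (∑ g, f i g) ^ 2) (tsum' (kap A l) e 1 fun _ => 1) := by
    have h1 : Rep l (fun i => ∑ g, f i g) (tsum' (kap A l) e 0 fun _ => 1) := by
      simpa [tsum'] using Rep.sum Finset.univ he
    have h2 := h1.mul h1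
    simp only [tsum'_mul hce hoe, mul_one] at h2
    simpa [pow_succ] using h2
  set θ := ε / (4 * (‖a‖ + 1)) with hθ
  have hθ0 : 0 < θ := by positivity
  have hθ1 : θ * ‖a‖ ≤ ε / 4 := by
    rw [hθ, div_mul_eq_mul_div, div_le_div_iff₀ (by positivity) (by positivity)]
    nlinarith [norm_nonneg a]
  have h3 := (tendsto_zero_iff_norm_tendsto_zero.1 (r2.tendsto r1)).eventually
    (gt_mem_nhds (show (0 : ℝ) < ε / 4 by positivity))
  have h4 := (tendsto_zero_iff_norm_tendsto_zero.1 (rF.tendsto rf)).eventually (gt_mem_nhds hθ0)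
  obtain ⟨i, h3, h4⟩ := (h3.and h4).exists
  have h5 := CSub.tail (Finset.sum_nonneg fun g _ => T.nonneg i g) hx (T.small i) (hF i) 2 h4
  change ‖jM α m _ - jM α m _‖ < _ at h3
  rw [← map_sub, NonUnitalStarAlgHom.norm_map (jM α m) jM_injective] at h3
  have hs : (rt a)ᴴ = rt a := herm_of_nonneg (rt_nonneg a)
  have hD : IsSelfAdjoint (D i) := ((hF i).map (piD α)).map (diagHom (m := m))
  have h6 : cut θ (1 - D i) = diagonal fun _ => piD α (cut θ (1 - F i)) := by
    rw [map_cut1 _ _ ((IsSelfAdjoint.one A).sub (hF i)), map_sub, map_one,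
      ← cut_diagonal _ ((IsSelfAdjoint.one _).sub ((hF i).map (piD α)))]
    congr 1
    rw [← diagonal_one, diagonal_sub]
  have h7 : 0 ≤ V i * b * (V i)ᴴ := conj_nonneg _ hb
  have h8 : 0 ≤ rt a * cut θ (1 - D i) * (rt a)ᴴ := conj_nonneg _ (cut_nonneg _ _)
  have h9 : a ≤ V i * b * (V i)ᴴ + rt a * cut θ (1 - D i) * (rt a)ᴴ +
      (ε / 4 + ε / 4) • (1 : Matrix m m (crossed α)) := by
    have p1 := conj_le_conj (rt a) (le_cut_add ((IsSelfAdjoint.one _).sub hD) θ)
    have p2 := (IsSelfAdjoint.of_nonneg ha).le_algebraMap_norm_self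
    have p3 : IsSelfAdjoint (rt a * D i * rt a - V i * b * (V i)ᴴ) :=
      (hD.conjugate_self (.of_nonneg (rt_nonneg a))).sub (.of_nonneg h7)
    have p4 := p3.le_algebraMap_norm_self
    rw [Algebra.algebraMap_eq_smul_one] at p2 p4
    have p5 : θ • a ≤ (ε / 4) • (1 : Matrix m m (crossed α)) :=
      (smul_le_smul_of_nonneg_left p2 hθ0.le).trans (by
        rw [smul_smul]
        exact smul_le_smul_of_nonneg_right hθ1 zero_le_one)
    have p6 := p4.trans (smul_le_smul_of_nonneg_right h3.le zero_le_one)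
    rw [hs, Matrix.mul_add, Matrix.add_mul, Matrix.mul_sub, Matrix.sub_mul, Matrix.mul_one,
      Matrix.mul_smul, Matrix.mul_one, Matrix.smul_mul, rt_mul_rt ha] at p1
    rw [hs, add_smul]
    calc a = (a - rt a * D i * rt a) + (rt a * D i * rt a - V i * b * (V i)ᴴ) +
          V i * b * (V i)ᴴ := by abel
      _ ≤ (rt a * cut θ (1 - D i) * rt a + (ε / 4) • 1) + (ε / 4) • 1 + V i * b * (V i)ᴴ :=
          add_le_add (add_le_add (p1.trans (add_le_add le_rfl p5)) p6) le_rfl
      _ = _ := by abel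
  refine (cls_cut_le_of_le (.of_nonneg ha) (add_nonneg h7 h8) h9 (by linarith)).trans
    ((cls_add_le h7 h8).trans (add_le_add (cls_conj_le _ hb)
      ((cls_conj_le _ (cut_nonneg _ _)).trans ?_)))
  rw [h6, cls_diagonal (map_nonneg _ (cut_nonneg _ _))]
  exact nsmul_le_nsmul_right
    (cls1_le (map_nonneg _ (cut_nonneg _ _)) (map_nonneg _ hx) (h5.map (piD α))) _

/-- every nonzero class over the crossed product dominates a nonzero positive element of `A` -/
theorem exists_piD_le (hα : WeakTracialRokhlin α) {y : W (crossed α)} (hy : y ≠ 0) :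
    ∃ z : A, 0 ≤ z ∧ z ≠ 0 ∧ cls1 (piD α z) ≤ y := by
  obtain ⟨k, c, hc, rfl⟩ := cls_surj y
  obtain ⟨r, hr⟩ : ∃ r, ent α 1 1 (c r r) ≠ 0 := by
    by_contra h
    push Not at h
    obtain ⟨s, hs⟩ := exists_eq_conjT_mul (mapM_nonneg (jC α) hc)
    have h1 : s = 0 := by
      ext i j
      have h2 := congrFun (congrFun hs j) j
      have h3 := ent_inv (c j.1 j.1) 1 1 j.2
      rw [h, map_zero, one_mul] at h3
      rw [mapM_jC, h3, Matrix.mul_apply] at h2
      exact eq_zero_of_star_mul_self ((Finset.sum_eq_zero_iff_of_nonneg fun t _ =>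
        star_mul_self_nonneg (s t j)).1 h2.symm i (Finset.mem_univ i))
    rw [h1, Matrix.mul_zero, ← map_zero (jM α (Fin k))] at hs
    exact hy (by rw [jM_injective hs, cls_zero])
  have h0 : 0 ≤ ent α 1 1 (c r r) := diag_nonneg (mapM_nonneg (jC α) hc) (r, 1)
  have hn0 : 0 ≤ ‖ent α 1 1 (c r r)‖⁻¹ := inv_nonneg.2 (norm_nonneg _)
  set c1 := ‖ent α 1 1 (c r r)‖⁻¹ • c r r with hc1
  have hc1' : 0 ≤ c1 := smul_nonneg hn0 (diag_nonneg hc r)
  have h1 : cls1 c1 ≤ cls c := (cls1_le hc1' (diag_nonneg hc r) (CSub.smul hn0 _)).trans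
    ((cls_le_cls (oneBy_nonneg (diag_nonneg hc r)) hc).2 (MSub.submatrix c fun _ : Unit => r))
  set x := ent α 1 1 c1 with hx
  have hx' : x = ‖ent α 1 1 (c r r)‖⁻¹ • ent α 1 1 (c r r) := rfl
  have hx0 : 0 ≤ x := smul_nonneg hn0 h0
  obtain ⟨l, _, f, δ, T⟩ := hα.exists_towers hx0 (hx' ▸ norm_smul_inv_norm (𝕜 := ℝ) hr)
  obtain ⟨e, he, he', hce, hoe⟩ := T.exists_rep
  have hfs : ∀ i g, star (f i g) = f i g := fun i g =>
    (IsSelfAdjoint.of_nonneg (T.nonneg i g)).star_eq
  have hn : (0 : ℝ) < Fintype.card G := Nat.cast_pos.2 Fintype.card_pos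
  set η : ℝ := 1 / (4 * Fintype.card G) with hη
  have hη0 : 0 < η := by positivity
  have h2 : ∀ g, Tendsto (fun i => ‖piD α (f i g * x * f i g) -
      piD α (f i g) * c1 * piD α (f i g)‖) l (𝓝 0) := fun g => tendsto_of_ent fun h k => by
    simp only [map_sub, ent_mul, ent_piD, ite_mul, zero_mul, Finset.sum_ite_eq, Finset.mem_univ,
      if_true, mul_ite, mul_zero, Finset.sum_ite_eq', map_mul]
    by_cases hk : h = k
    · have h3 := ent_inv c1 1 1 k
      rw [one_mul] at h3
      simp [hk, h3, ← hx]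
    · have h3 := ((he' h⁻¹ g).mul (Rep.const (ent α h k c1))).mul (he' k⁻¹ g)
      rw [hce, mul_assoc, hoe _ _ (by simpa using hk), mul_zero] at h3
      simpa [hk] using Rep.zero.tendsto h3
  have r1 : Rep l (fun i => ∑ g, f i g) (tsum' (kap A l) e 0 fun _ => 1) := by
    simpa [tsum'] using Rep.sum Finset.univ he
  have r2 := (r1.mul (Rep.const x)).mul r1
  simp only [tsum'_mul_kap, tsum'_mul hce hoe, mul_one, one_mul] at r2
  have r3 : Rep l (fun i => ∑ g, f i g * x * f i g) (tsum' (kap A l) e 1 fun _ => x) := by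
    have := Rep.sum Finset.univ fun g => ((he g).mul (Rep.const x)).mul (he g)
    simp only [mul_assoc, ← hce] at this
    simpa [tsum', mul_assoc, pow_succ] using this
  have h3 := (tendsto_zero_iff_norm_tendsto_zero.1 (r2.tendsto r3)).eventually
    (gt_mem_nhds (show (0 : ℝ) < 1 / 4 by norm_num))
  obtain ⟨i, h3, h4⟩ := (h3.and (eventually_all.2 fun g =>
    (h2 g).eventually (gt_mem_nhds hη0))).exists
  obtain ⟨g, hg⟩ : ∃ g, η < ‖f i g * x * f i g‖ := by
    by_contra h
    push Not at h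
    have h5 : ‖∑ g, f i g * x * f i g‖ ≤ ∑ _ : G, η := norm_sum_le_of_le _ fun g _ => h g
    rw [Finset.sum_const, Finset.card_univ, nsmul_eq_mul] at h5
    have h6 : Fintype.card G * η = 1 / 4 := by
      rw [hη]
      field_simp
    linarith [T.large i, norm_sub_norm_le ((∑ g, f i g) * x * ∑ g, f i g) (∑ g, f i g * x * f i g)]
  have h5 : 0 ≤ f i g * x * f i g := by
    simpa [hfs] using star_left_conjugate_nonneg hx0 (f i g)
  have h6 : 0 ≤ piD α (f i g) * c1 * piD α (f i g) := by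
    simpa [← map_star, hfs] using star_right_conjugate_nonneg hc1' (piD α (f i g))
  refine ⟨cut η (f i g * x * f i g), cut_nonneg _ _, cut_ne_zero h5 hη0.le hg, le_trans ?_ h1⟩
  rw [map_cut1 _ _ (.of_nonneg h5)]
  refine cls1_le (cut_nonneg _ _) hc1' ((CSub.cut_of_near (.of_nonneg (map_nonneg _ h5)) h6
    (h4 g)).trans ?_)
  simpa [← map_star, hfs] using CSub.conj (piD α (f i g)) c1

/-- comparison in `A` gives comparison in the crossed product -/
theorem RComparison.crossed (hA : IsSimple A) (hinf : ¬FiniteDimensional ℂ A)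
    (hα : WeakTracialRokhlin α) {r r' : ℝ} (h0 : 0 ≤ r) (hr : r < Fintype.card G * r')
    (h : RComparison A r) : RComparison (crossed α) r' :=
  rComparison_of_states fun x' x y hx hab => by
    have hn : (0 : ℝ) < Fintype.card G := Nat.cast_pos.2 Fintype.card_pos
    have hu : Wmap (jC α) (W.u _) = Fintype.card G • W.u A := by
      rw [W.u, Wmap_cls1 _ zero_le_one, jC_one, cls_one]
    have h1 : ∀ s, IsState (W.u A) s →
        s (Wmap (jC α) x) + Fintype.card G * r' < s (Wmap (jC α) y) := fun s hs => by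
      have h2 := hab ((AddMonoidHom.mulLeft (Fintype.card G : ℝ)⁻¹).comp (s.comp (Wmap (jC α))))
        ⟨fun x y hxy => mul_le_mul_of_nonneg_left (hs.mono (Wmap_mono _ hxy)) (inv_nonneg.2 hn.le),
          by
            change _ * s (Wmap (jC α) _) = 1
            rw [hu, hs.nsmul_unit, inv_mul_cancel₀ hn.ne']⟩
      change _ * s (Wmap (jC α) x) + _ < _ * s (Wmap (jC α) y) at h2
      rwa [lt_inv_mul_iff₀ hn, mul_add, ← mul_assoc, mul_inv_cancel₀ hn.ne', one_mul] at h2
    have hy : y ≠ 0 := by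
      rintro rfl
      have h2 := h.le_of_states (x := W.u A) (y := 0) fun s hs => by
        have := h1 s hs
        rw [map_zero, map_zero] at this
        linarith [hs.nonneg W.zero_le (Wmap (jC α) x)]
      rw [W.u, cls1, map_one, ← cls_zero (m := Unit), cls_le_cls mone_nonneg le_rfl] at h2
      obtain ⟨v, hv⟩ := h2.exists_conj_eq_one le_rfl
      have := hA.1
      simpa using congrFun (congrFun hv ()) ()
    obtain ⟨x₁, p1, p2, p3⟩ := exists_piD_le hα hy
    obtain ⟨M, hM⟩ := exists_nat_gt (Fintype.card G / (Fintype.card G * r' - r))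
    rw [div_lt_iff₀ (sub_pos.2 hr)] at hM
    obtain ⟨x₂, q1, q2, q3⟩ := hA.exists_small_le hinf p1 p2 (M + 1)
    have q4 := Wmap1_mono (piD α).toNonUnitalStarAlgHom q3
    rw [map_nsmul, Wmap1_cls1 _ q1, Wmap1_cls1 _ p1] at q4
    replace q4 : (M + 1) • cls1 (piD α x₂) ≤ cls1 (piD α x₁) := q4
    have q5 : cls1 (piD α x₂) ≤ y := le_trans (by
      rw [succ_nsmul]
      exact W.le_add_left _ _) (q4.trans p3)
    have q6 : (M + 1) • cls1 (piD α x₂) ≤ W.u _ :=
      q4.trans (by simpa [cls1] using cls_le_card (oneBy_nonneg (map_nonneg (piD α) p1)))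
    obtain ⟨w, r1, r2⟩ := (LL.cut (oneBy_nonneg (map_nonneg (piD α) q1)) one_half_pos).compl q5
    rw [← map_cut1 _ _ (.of_nonneg (map_nonneg (piD α) q1)), ← map_cut1 _ _ (.of_nonneg q1)] at r1
    have r3 : Wmap (jC α) x ≤ Wmap (jC α) w := h.le_of_states fun s hs => by
      have a1 := hs.mono (Wmap_mono (jC α) r2)
      have a2 := hs.mono (Wmap_mono (jC α) q6)
      rw [map_add, map_add] at a1
      rw [map_nsmul, map_nsmul, hu, hs.nsmul_unit, nsmul_eq_mul] at a2
      push_cast at a2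
      have a3 := hs.nonneg W.zero_le (Wmap (jC α) (cls1 (piD α x₂)))
      have a4 : s (Wmap (jC α) (cls1 (piD α x₂))) ≤ Fintype.card G * r' - r := by
        by_contra a5
        push Not at a5
        have a6 : (0 : ℝ) ≤ M := Nat.cast_nonneg _
        nlinarith
      change _ ≤ s (Wmap (jC α) (cls1 (piD α x₂))) + _ at a1
      linarith [h1 s hs]
    obtain ⟨k, a, ε, ha, hε, s1, s2⟩ := hx
    obtain ⟨k', b, hb, rfl⟩ := cls_surj w
    have s3 := (Wmap_mono (jC α) s2).trans r3
    rw [Wmap_cls _ ha, Wmap_cls _ hb, cls_le_cls (mapM_nonneg _ ha) (mapM_nonneg _ hb)] at s3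
    obtain ⟨v, hv⟩ := s3.exists_conj (.of_nonneg (mapM_nonneg _ ha)) (mapM_nonneg _ hb)
      (half_pos hε)
    have s4 := map_cut1 (jM α (Fin k)) (ε / 2) (.of_nonneg ha)
    obtain ⟨x₀, t1, t2, t3⟩ := hA.exists_small_le hinf (cut_nonneg (1 / 2) x₂)
      (cut_ne_zero q1 one_half_pos.le (by rw [q2]; norm_num)) (Fintype.card (Fin k))
    obtain ⟨l, _, f, δ, T⟩ := hα.exists_towers t1 t2
    have s5 := T.descend t1 (cut_nonneg (ε / 2) a) hb v (hv.trans s4.symm) (half_pos hε)
    rw [cut_cut (half_pos hε).le (.of_nonneg ha), add_halves] at s5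
    have t4 := Wmap1_mono (piD α).toNonUnitalStarAlgHom t3
    rw [map_nsmul, Wmap1_cls1 _ t1, Wmap1_cls1 _ (cut_nonneg _ _)] at t4
    refine s1.trans (s5.trans (le_trans ?_ r1))
    rw [add_comm]
    exact add_le_add t4 le_rfl

/-- the two inequalities of Asadi-Vasfi, Golestani and Phillips -/
theorem rc_known (hA : IsSimple A) (hinf : ¬FiniteDimensional ℂ A) (hα : WeakTracialRokhlin α) :
    rc (fixedAlg α) ≤ rc A ∧ rc (crossed α) ≤ (Fintype.card G : ℝ≥0∞)⁻¹ * rc A := by
  have hn : (0 : ℝ) < Fintype.card G := Nat.cast_pos.2 Fintype.card_pos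
  refine ⟨le_iInf fun r => le_iInf fun h0 => le_iInf fun h => rc_le_of_forall h0 fun r' hr => ?_,
    (ENNReal.mul_le_iff_le_inv (Nat.cast_ne_zero.2 Fintype.card_ne_zero)
      (ENNReal.natCast_ne_top _)).1 (le_iInf fun r => le_iInf fun h0 => le_iInf fun h => ?_)⟩
  · have e1 : Fintype.card G * (r' / Fintype.card G) = r' := mul_div_cancel₀ _ hn.ne'
    exact rComparison_of_states fun x' x y hx hab => hx.le.trans
      (crossed_le_of_states hA hinf hα (div_nonneg (h0.trans hr.le) hn.le)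
        (h.crossed hA hinf hα h0 (e1.symm ▸ hr)) x y fun s hs => e1.symm ▸ hab s hs)
  · have h1 := rc_le_of_forall (A := crossed α) (div_nonneg h0 hn.le) fun r' hr =>
      h.crossed hA hinf hα h0 (by rwa [div_lt_iff₀' hn] at hr)
    refine (mul_le_mul_right h1 _).trans (le_of_eq ?_)
    rw [← ENNReal.ofReal_natCast, ← ENNReal.ofReal_mul hn.le, mul_div_cancel₀ _ hn.ne']

theorem rc_eq_of_traces (hA : IsSimple A) (hinf : ¬FiniteDimensional ℂ A)
    (hα : WeakTracialRokhlin α) (h : QTAreTraces A) :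
    rc (fixedAlg α) = rc A ∧ rc (crossed α) = (Fintype.card G : ℝ≥0∞)⁻¹ * rc A :=
  ⟨le_antisymm (rc_known hA hinf hα).1 (rc_le_of_traces hA hinf hα h).1,
    le_antisymm (rc_known hA hinf hα).2 (rc_le_of_traces hA hinf hα h).2⟩

end Pool.Agent.Lib.MP_f90f6c_an.H50
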