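import Pool.Agent.Lib.MP_f90f6c_an.H64Fix
import Pool.Agent.Lib.MP_f90f6c_an.H81Known
import Pool.Agent.Lib.MP_f90f6c_an.H35Defs

/-!
The gap function `τ ↦ r τ(x)` in terms of states on the Cuntz semigroup.
-/

namespace Pool.Agent.Lib.MP_f90f6c_an.H50

open Filter Topology Matrix
open scoped ENNReal

set_option linter.unusedSectionVars false

variable {D : Type*} [CStarAlgebra D] [PartialOrder D] [StarOrderedRing D]
variable {E : Type*} [CStarAlgebra E] [PartialOrder E] [StarOrderedRing E]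

/-- the layers of `c • x` -/
noncomputable def lay (c ρ : ℝ) (J : ℕ) (x : D) : W D :=
  fix_lay ρ J (diagHom (m := Fin 1) (c • x))

lemma lay_nonneg {x : D} (hx : 0 ≤ x) {c : ℝ} (hc : 0 ≤ c) :
    0 ≤ diagHom (m := Fin 1) (c • x) := map_nonneg _ (smul_nonneg hc hx)

lemma lay_LL {x : D} (hx : 0 ≤ x) {c : ℝ} (hc : 0 ≤ c) {ρ ρ' : ℝ} (h : ρ < ρ') (J : ℕ) :
    LL (lay c ρ' J x) (lay c ρ J x) := fix_lay_LL (lay_nonneg hx hc) h J

lemma lay_map (φ : E →⋆ₐ[ℂ] D) {x : E} (hx : 0 ≤ x) {c : ℝ} (hc : 0 ≤ c) (ρ : ℝ) (J : ℕ) :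
    Wmap1 φ.toNonUnitalStarAlgHom (lay c ρ J x) = lay c ρ J (φ x) := by
  have e : (diagHom (m := Fin 1) (c • x)).map φ = diagHom (m := Fin 1) (c • φ x) := by
    ext i j
    rw [Subsingleton.elim j i]
    change φ (diagonal (fun _ => c • x) i i) = diagonal (fun _ => c • φ x) i i
    rw [diagonal_apply_eq, diagonal_apply_eq, ← Complex.coe_smul, map_smul, Complex.coe_smul]
  simp only [lay, fix_lay, map_sum]
  refine Finset.sum_congr rfl fun j _ => ?_
  rw [← e, ← map_cut _ _ (.of_nonneg (lay_nonneg hx hc))]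
  exact Wmap1_cls _ (cut_nonneg _ _)

lemma tm_lay (t : QT D) {x : D} (hx : 0 ≤ x) (c : ℝ) :
    (t.tm 1 (diagHom (m := Fin 1) (c • x))).re = c * (t.tr x).re := by
  have e : diagHom (m := Fin 1) (c • x) = c • diagHom (m := Fin 1) x := by
    rw [← Complex.coe_smul, map_smul, Complex.coe_smul]
  rw [e, (t.isQ 1).re_smul (.of_nonneg (map_nonneg _ hx))]
  rfl

lemma qt_state (t : QT D) : ∃ s : W D →+ ℝ, IsState (W.u D) s ∧
    (∀ (k : ℕ) (a : Matrix (Fin k) (Fin k) D), 0 ≤ a → s (cls a) = t.d (CStarMatrix.ofMatrix a)) ∧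
    ∀ (k : ℕ) (a : Matrix (Fin k) (Fin k) D), 0 ≤ a →
      dimS (t.tm k) a ≤ s (cls a) ∧ ∀ x, LL x (cls a) → s x ≤ dimS (t.tm k) a := by
  obtain ⟨σ, hσ, hσt⟩ := t.exists_state
  refine ⟨σ, hσ, hσt, fun k a ha => ?_⟩
  rw [← t.d_eq ha, ← hσt k a ha]
  exact ⟨le_rfl, fun x hx => hσ.mono hx.le⟩

theorem WComparison.le_of_states {x : D} (hx : 0 ≤ x) {r N c ρ : ℝ} (hr : 0 ≤ r) (hN : 0 < N)
    (hc : c = N * r) (hρ : ρ ≤ 1) {J : ℕ} (hJ : c * ‖x‖ ≤ J) (h : WComparison x r) {p q : W D}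
    (hxy : ∀ s, IsState (W.u D) s → s p + s (lay c ρ J x) / N + 2 / N < s q) : p ≤ q := by
  have hc0 : 0 ≤ c := hc ▸ mul_nonneg hN.le hr
  obtain ⟨k, a, ha, rfl⟩ := cls_surj p
  obtain ⟨l, b, hb, rfl⟩ := cls_surj q
  let e := (finSumFinEquiv (m := k) (n := l)).symm
  have ha' := fromBlocks_nonneg ha (le_refl (0 : Matrix (Fin l) (Fin l) D))
  have hb' := fromBlocks_nonneg (le_refl (0 : Matrix (Fin k) (Fin k) D)) hb
  have e1 : cls a = cls ((fromBlocks a 0 0 0).submatrix e e) := by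
    rw [cls_submatrix_equiv ha', cls_fromBlocks ha le_rfl, cls_zero, add_zero]
  have e2 : cls b = cls ((fromBlocks 0 0 0 b).submatrix e e) := by
    rw [cls_submatrix_equiv hb', cls_fromBlocks le_rfl hb, cls_zero, zero_add]
  rw [e1, e2] at hxy ⊢
  rw [cls_le_cls (submatrix_nonneg ha' e) (submatrix_nonneg hb' e)]
  refine cuntzSub_iff.1 (h (k + l) (CStarMatrix.ofMatrix ((fromBlocks a 0 0 0).submatrix e e))
    (CStarMatrix.ofMatrix ((fromBlocks 0 0 0 b).submatrix e e))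
    (submatrix_nonneg ha' e) (submatrix_nonneg hb' e) fun t => ?_)
  obtain ⟨s, hs, hs', H⟩ := qt_state t
  rw [← hs' _ _ (submatrix_nonneg ha' e), ← hs' _ _ (submatrix_nonneg hb' e)]
  have h1 : ‖diagHom (m := Fin 1) (c • x)‖ ≤ J :=
    (NonUnitalStarAlgHom.norm_apply_le (diagHom (A := D) (m := Fin 1)) _).trans (by
      rwa [norm_smul, Real.norm_of_nonneg hc0])
  have h2 := fix_low H hs (lay_nonneg hx hc0) hρ h1
  rw [tm_lay t hx] at h2
  have h3 : r * (t.tr x).re ≤ s (lay c ρ J x) / N + 2 / N := by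
    rw [← add_div, le_div_iff₀ hN]
    push_cast at h2
    rw [hc] at h2 ⊢
    change _ ≤ s (lay (N * r) ρ J x) + _ at h2
    linarith
  linarith [hxy s hs]

theorem wComparison_of_states {x : D} (hx : 0 ≤ x) {r r' N c ρ θ η : ℝ} (hr : 0 ≤ r) (hN : 0 < N)
    (hc : c = N * r) (hρ : 0 < ρ) {J : ℕ} (hη : ∀ t : QT D, η ≤ (t.tr x).re) (hrr : r ≤ r')
    (hθ : θ ≤ (r' - r) * η) (h : ∀ p' p q : W D, LL p' p →
      (∀ s, IsState (W.u D) s → s p + s (lay c ρ J x) / N + θ < s q) → p' ≤ q) :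
    WComparison x r' := by
  have hc0 : 0 ≤ c := hc ▸ mul_nonneg hN.le hr
  intro n a b ha hb hab
  obtain ⟨a, rfl⟩ := CStarMatrix.ofMatrix.surjective a
  obtain ⟨b, rfl⟩ := CStarMatrix.ofMatrix.surjective b
  replace ha : 0 ≤ a := ha
  replace hb : 0 ≤ b := hb
  have key : MSub a b := MSub.of_cut ha fun ε hε => (cls_le_cls (cut_nonneg _ _) hb).1 <|
    h _ _ _ (LL.cut_cut ha (half_lt_self hε)) fun s hs => by
      obtain ⟨t, ht⟩ := hs.exists_qt'
      have H : ∀ (k : ℕ) (a : Matrix (Fin k) (Fin k) D), 0 ≤ a →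
          dimS (t.tm k) a ≤ s (cls a) ∧ ∀ x, LL x (cls a) → s x ≤ dimS (t.tm k) a :=
        fun k a ha => by
          rw [← t.d_eq ha]
          refine ⟨(ht k a ha).1, fun x hx => ?_⟩
          obtain ⟨δ, hδ, h1⟩ := hx.exists_cut ha
          exact (hs.mono h1).trans ((ht k a ha).2 δ hδ)
      have h2 := fix_up H (lay_nonneg hx hc0) hρ J
      rw [tm_lay t hx] at h2
      have h3 : s (lay c ρ J x) / N ≤ r * (t.tr x).re := by
        rw [div_le_iff₀ hN]
        rw [hc] at h2 ⊢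
        change s (lay (N * r) ρ J x) ≤ _ at h2
        linarith
      have h4 := mul_le_mul_of_nonneg_left (hη t) (sub_nonneg.2 hrr)
      linarith [hab t, (ht n a ha).2 _ (half_pos hε), (ht n b hb).1]
  exact cuntzSub_iff.2 key

lemma tr_lower {x : D} (hx : 0 ≤ x) {c σ : ℝ} (hc : 0 < c)
    (h : ∀ s, IsState (W.u D) s → σ ≤ s (lay c 1 1 x)) (t : QT D) : σ / c ≤ (t.tr x).re := by
  obtain ⟨s, hs, -, H⟩ := qt_state t
  have h2 := fix_up H (lay_nonneg hx hc.le) one_pos 1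
  rw [tm_lay t hx] at h2
  rw [div_le_iff₀' hc]
  exact (h s hs).trans h2

lemma lay_ne_zero {x : D} (hx : 0 ≤ x) {c : ℝ} (hc : 0 ≤ c) (h : 3 < c * ‖x‖) :
    lay c 1 1 x ≠ 0 := fun h0 => by
  have ha := lay_nonneg hx hc
  rw [lay, fix_lay, Finset.sum_range_one, ← cls_zero (m := Unit)] at h0
  obtain ⟨w, hw⟩ := ((cls_le_cls (cut_nonneg _ _) le_rfl).1 h0.le).exists_conj
    (.of_nonneg (cut_nonneg _ _)) le_rfl one_pos
  rw [cut_cut zero_le_one (.of_nonneg ha), Matrix.mul_zero, Matrix.zero_mul] at hw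
  refine cut_ne_zero ha (by norm_num) ?_ hw.symm
  rw [NonUnitalStarAlgHom.norm_map (diagHom (A := D) (m := Fin 1)) (fun a b hab => by
    simpa [diagHom] using congrFun (congrFun hab 0) 0), norm_smul, Real.norm_of_nonneg hc]
  norm_num
  exact h

lemma rcW_le_of_forall {x : D} {r : ℝ} (h0 : 0 ≤ r) (h : ∀ r', r < r' → WComparison x r') :
    rcW x ≤ ENNReal.ofReal r := by
  refine ENNReal.le_of_forall_pos_le_add fun ε hε _ => ?_
  have hε' : (0 : ℝ) < ε := hε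
  rw [← ENNReal.ofReal_coe_nnreal, ← ENNReal.ofReal_add h0 hε'.le]
  exact iInf_le_of_le (r + ε) (iInf_le_of_le (add_nonneg h0 hε'.le)
    (iInf_le _ (h _ (lt_add_of_pos_right r hε'))))

/-- for `x = 1` the relative radius is the radius of comparison -/
theorem rcW_one : rcW (1 : D) = rc D := by
  have h : ∀ t : QT D, (t.tr 1).re = 1 := fun t => by
    have : t.tr 1 = t.τ 1 1 := by
      rw [QT.tr, diagonal_one]
      rfl
    rw [this, t.normalized, Complex.one_re]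
  simp only [rcW, rc, WComparison, RComparison, h, mul_one]

end Pool.Agent.Lib.MP_f90f6c_an.H50
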