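import Pool.Agent.Lib.MP_f90f6c_an.H64Emb

/-!
If one full element lies below every element of rank more than `t s`, comparison holds with the gap
function `t`.
-/

namespace Pool.Agent.Lib.MP_f90f6c_an.H50

open Filter Topology Matrix

set_option linter.unusedSectionVars false

variable {D : Type*} [CStarAlgebra D] [PartialOrder D] [StarOrderedRing D]
variable {m n : Type} [Fintype m] [DecidableEq m] [Fintype n] [DecidableEq n]

lemma seq_indF {t : (W D →+ ℝ) → ℝ} {w₀ : W D}
    (h : ∀ c : W D, (∀ s, IsState (W.u D) s → t s < s c) → w₀ ≤ c) {a : Matrix m m D}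
    {b : Matrix n n D} (ha : 0 ≤ a) (ha1 : a ≤ 1) (hb : 0 ≤ b)
    (hab : ∀ s, IsState (W.u D) s → s (cls a) + t s < s (cls b)) {ι : Type*}
    {P : ι → Matrix m m D} (hP : ∀ i, 0 ≤ P i) (hPa : ∀ i, P i ≤ a) (hPw : ∀ i, cls (P i) ≤ w₀)
    {ν : ℝ} (hν : 0 < ν) (F : Finset ι) : ∃ T : Matrix n m D, Dom (Tᴴ * T) a ∧ Dom (T * Tᴴ) b ∧
      ‖∑ i ∈ F, P i - Tᴴ * T‖ ≤ F.card * (3 * ν) := by
  classical
  induction F using Finset.induction_on with
  | empty => exact ⟨0, by simpa using Dom.zero a, by simpa using Dom.zero b, by simp⟩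
  | insert i F hi ih =>
    obtain ⟨T, d1, d2, d3⟩ := ih
    obtain ⟨c, hc, c1, c2, -, c3⟩ := exists_compl_dom hb (mul_conjT_self_nonneg T) d2
      (pow_pos hν 2)
    have h1 : cls (P i) ≤ 1 • cls c := by
      rw [one_nsmul]
      refine (hPw i).trans (h _ fun s hs => ?_)
      have p1 := hs.mono (c3.trans (add_le_add le_rfl ((cls_conjT_mul T).ge.trans
        (d1.cls_le (conjT_mul_self_nonneg T) ha))))
      rw [map_add] at p1
      linarith [hab s hs]
    obtain ⟨S, s1, s2⟩ := slot_factor (hP i) hc h1 hν (f := fun t => max (t - ν) 0) (by fun_prop)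
      (fun _ => le_max_right _ _) fun t ht => max_eq_right (by linarith)
    rw [Fin.sum_univ_one, ← cut] at s1
    have l1 : (S 0)ᴴ * S 0 ≤ a := s1 ▸ (cut_le_self hν.le (hP i)).trans (hPa i)
    have l2 : ‖Tᴴ * S 0‖ ≤ ν := core_cross (l1.trans ha1) hν.le ((s2 0).mul_eq_zero c2)
    refine ⟨T + S 0, d1.add_conjT_mul (.of_le l1), d2.add_mul_conjT ((s2 0).trans c1), ?_⟩
    have e1 : ∑ j ∈ insert i F, P j - (T + S 0)ᴴ * (T + S 0) =
        ∑ j ∈ F, P j - Tᴴ * T + (P i - cut ν (P i)) - Tᴴ * S 0 - star (Tᴴ * S 0) := by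
      simp only [Finset.sum_insert hi, star_eq_conjTranspose, conjTranspose_mul,
        conjTranspose_conjTranspose, conjTranspose_add, Matrix.add_mul, Matrix.mul_add, s1]
      abel
    rw [e1, Finset.card_insert_of_notMem hi]
    refine ((norm_sub_le _ _).trans (add_le_add ((norm_sub_le _ _).trans
      (add_le_add (norm_add_le _ _) le_rfl)) le_rfl)).trans ?_
    rw [norm_star]
    push_cast
    linarith [norm_sub_cut hν.le (hP i)]

/-- comparison from one full element below all large elements -/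
theorem seq_leF {t : (W D →+ ℝ) → ℝ} {w₀ : W D} (hw : ∃ N : ℕ, W.u D ≤ N • w₀)
    (h : ∀ c : W D, (∀ s, IsState (W.u D) s → t s < s c) → w₀ ≤ c) (x y : W D)
    (hxy : ∀ s, IsState (W.u D) s → s x + t s < s y) : x ≤ y := by
  obtain ⟨N, hN⟩ := hw
  refine le_of_forall_LL fun x' hx => ?_
  obtain ⟨k, a, β, ha, ha1, hβ, h1, h2⟩ := emb_contr hx
  obtain ⟨l, b, hb, rfl⟩ := cls_surj y
  obtain ⟨r, w, hw, rfl⟩ := cls_surj w₀
  obtain ⟨L, h3⟩ : ∃ L : ℕ, cls a ≤ L • cls w := ⟨Fintype.card (Fin k) * N, by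
    rw [mul_nsmul']
    exact (cls_le_card ha).trans (nsmul_le_nsmul_right hN _)⟩
  obtain ⟨z, z1, z2⟩ := slot_factor ha hw h3 hβ (f := fun t => max (t - β) 0) (by fun_prop)
    (fun _ => le_max_right _ _) fun t ht => max_eq_right (by linarith)
  rw [← cut] at z1
  have hν : 0 < β / (3 * (L + 1)) := by positivity
  obtain ⟨T, -, d2, d3⟩ := seq_indF h ha ha1 hb (fun s hs => by linarith [hs.mono h2, hxy s hs])
    (P := fun i => (z i)ᴴ * z i) (fun i => conjT_mul_self_nonneg _)
    (fun i => ((Finset.single_le_sum (f := fun i => (z i)ᴴ * z i)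
      (fun i _ => conjT_mul_self_nonneg _) (Finset.mem_univ i)).trans_eq z1).trans
        (cut_le_self hβ.le ha))
    (fun i => (cls_conjT_mul _).trans_le ((z2 i).cls_le (mul_conjT_self_nonneg _) hw)) hν
    Finset.univ
  rw [z1, Finset.card_univ, Fintype.card_fin] at d3
  have h4 : ‖cut β a - Tᴴ * T‖ < 2 * β := by
    refine d3.trans_lt ?_
    have e1 : (L : ℝ) * (3 * (β / (3 * (L + 1)))) = β * (L / (L + 1)) := by field_simp
    have e2 : (L : ℝ) / (L + 1) < 1 := by
      rw [div_lt_one (by positivity)]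
      exact lt_add_one _
    rw [e1]
    nlinarith
  have h5 := cls_cut_le_of_near (.of_nonneg (cut_nonneg β a)) (conjT_mul_self_nonneg T) h4
  rw [cut_cut (by positivity) (.of_nonneg ha), show 2 * β + β = 3 * β by ring] at h5
  exact h1.le.trans (h5.trans ((cls_conjT_mul T).trans_le
    (d2.cls_le (mul_conjT_self_nonneg T) hb)))

end Pool.Agent.Lib.MP_f90f6c_an.H50
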