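import Pool.Agent.Lib.MP_f90f6c_an.H50Rok

/-!
The transfer of an algebraic lower bound to the fixed point algebra, with an invariant summand.
-/

namespace Pool.Agent.Lib.MP_f90f6c_an.H50

open Filter Topology Matrix

set_option linter.unusedSectionVars false

variable {G : Type*} [Group G] [Fintype G] [DecidableEq G] {A : Type*} [CStarAlgebra A]
  [PartialOrder A] [StarOrderedRing A] {α : G →* (A ≃⋆ₐ[ℂ] A)}
variable {x : A} {I : Type*} {l : Filter I} {f : I → G → A} {δ : I → ℝ}
variable {m n p : Type*} [Fintype m] [DecidableEq m] [Fintype n] [DecidableEq n]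
  [Fintype p] [DecidableEq p]

theorem Towers.transferD [l.NeBot] (T : Towers α x l f δ) (hx : 0 ≤ x) {c : Matrix m m A}
    {b : Matrix n n A} (hc : 0 ≤ c) (hb : 0 ≤ b) (w : G → Matrix m n A)
    (hw : ∀ g, w g * b * (w g)ᴴ = c.map (α g)) {K L : ℕ}
    {d : Matrix p p (fixedAlg α)} (hd : 0 ≤ d)
    (h : K • W.u A ≤ L • cls c + cls (d.map (fixedAlg α).subtype)) :
    ∃ (y : Matrix m m (fixedAlg α)) (z : fixedAlg α), 0 ≤ y ∧ 0 ≤ z ∧
      cls (y.map (fixedAlg α).subtype) ≤ cls b ∧ CSub (z : A) x ∧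
      K • W.u (fixedAlg α) ≤ L • cls y + cls d + K • cls1 z := by
  obtain ⟨e, he, he', hce, hoe⟩ := T.exists_rep
  have hinj : Function.Injective (fixedAlg α).subtype := Subtype.val_injective
  have hfs : ∀ i g, star (f i g) = f i g := fun i g => (IsSelfAdjoint.of_nonneg (T.nonneg i g)).star_eq
  have he1 : ∀ g, Rep l (fun i => α g (f i 1)) (e g) := fun g => by simpa using he' g 1
  have rL : ∀ a, Rep l (fun i => (avg α (f i 1 * a) : A)) (tsum' (kap A l) e 0 fun g => α g a) :=
    fun a => by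
      simpa [coe_avg, tsum'] using Rep.sum Finset.univ fun g => (he1 g).mul (Rep.const (α g a))
  have rR : ∀ a, Rep l (fun i => (avg α (a * f i 1) : A)) (tsum' (kap A l) e 0 fun g => α g a) :=
    fun a => by
      simpa [coe_avg, tsum', hce] using
        Rep.sum Finset.univ fun g => (Rep.const (α g a)).mul (he1 g)
  have rB : ∀ a, Rep l (fun i => (avg α (f i 1 * a * f i 1) : A))
      (tsum' (kap A l) e 1 fun g => α g a) := fun a => by
    have := Rep.sum Finset.univ fun g => ((he1 g).mul (Rep.const (α g a))).mul (he1 g)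
    simp only [mul_assoc, ← hce] at this
    simpa [coe_avg, tsum', mul_assoc, pow_succ] using this
  obtain ⟨v₁, v₂, hv⟩ := exists_conj_add_eq_one (m := Fin K) (blk_nonneg L hc)
    (map_nonneg (mapHom (fixedAlg α).subtype) hd) (by
      rw [cls_blk L hc, Fintype.card_fin]
      exact h)
  let y : I → Matrix m m (fixedAlg α) := fun i => c.map fun a => avg α (f i 1 * a * f i 1)
  have hy0 : ∀ i, 0 ≤ y i := fun i => by
    refine nonneg_of_map_nonneg (mapHom (m := m) (fixedAlg α).subtype)
      (mapHom_injective _ hinj) ?_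
    have : mapHom (fixedAlg α).subtype (y i) = ∑ g, mapHom (α g).toStarAlgHom
        ((diagonal fun _ => f i 1) * c * (diagonal fun _ => f i 1)ᴴ) := by
      ext r s
      simp [mapHom, y, coe_avg, Matrix.sum_apply, diagonal_conjTranspose, hfs]
    rw [this]
    exact Finset.sum_nonneg fun g _ => map_nonneg _ (conj_nonneg _ hc)
  have ry : RepM l (fun i => (y i).map (fixedAlg α).subtype)
      (tsumM (kap A l) e 1 fun g => c.map (α g)) := fun r s => rB (c r s)
  let Wm : I → Matrix m n A := fun i => Matrix.of fun r s => ∑ g, f i g * w g r s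
  have rW : RepM l Wm (tsumM (kap A l) e 0 w) := fun r s => by
    simpa [Wm, tsumM, tsum'] using Rep.sum Finset.univ fun g => (he g).mul (Rep.const (w g r s))
  have rW' : RepM l (fun i => (Wm i)ᴴ) (tsumM (kap A l) e 0 fun g => (w g)ᴴ) := fun r s => by
    simpa [Wm, tsumM, tsum', hfs, hce, star_sum] using
      Rep.sum Finset.univ fun g => (Rep.const (star (w g s r))).mul (he g)
  have r1 := (rW.mul (RepM.const b)).mul rW'
  rw [tsumM_mul_kap, tsumM_mul hce hoe] at r1
  simp only [hw] at r1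
  let η : I → ℝ := fun i => ‖(y i).map (fixedAlg α).subtype - Wm i * b * (Wm i)ᴴ‖ + δ i
  have hη : Tendsto η l (𝓝 0) := by
    simpa only [add_zero] using (tendsto_zero_iff_norm_tendsto_zero.1 (ry.tendsto r1)).add T.zero
  have hη0 : ∀ i, 0 ≤ η i := fun i => add_nonneg (norm_nonneg _) (T.pos i).le
  let y' : I → Matrix m m (fixedAlg α) := fun i => cut (η i) (y i)
  have ry' : RepM l (fun i => (y' i).map (fixedAlg α).subtype)
      (tsumM (kap A l) e 1 fun g => c.map (α g)) := by
    refine ry.of_tendsto (squeeze_zero_norm (fun i => ?_) hη)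
    rw [← Matrix.map_sub _ (map_sub _), norm_map_matrix _ hinj, norm_sub_rev]
    exact norm_sub_cut (hη0 i) (hy0 i)
  have rblk : RepM l (fun i => (blk L (y' i)).map (fixedAlg α).subtype)
      (tsumM (kap A l) e 1 fun g => (blk L c).map (α g)) := fun r s => by
    by_cases hrs : r.1 = s.1
    · simpa [blk, hrs, tsumM] using ry' r.2 s.2
    · simpa [blk, hrs, tsumM, tsum'] using Rep.zero
  let V₁ : I → Matrix (Fin K) (Fin L × m) (fixedAlg α) :=
    fun i => v₁.map fun a => avg α (f i 1 * a)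
  let V₂ : I → Matrix (Fin K) p (fixedAlg α) :=
    fun i => v₂.map fun a => avg α (f i 1 * a * f i 1)
  have rV₁ : RepM l (fun i => (V₁ i).map (fixedAlg α).subtype)
      (tsumM (kap A l) e 0 fun g => v₁.map (α g)) := fun r s => rL (v₁ r s)
  have rV₁' : RepM l (fun i => (V₁ i)ᴴ.map (fixedAlg α).subtype)
      (tsumM (kap A l) e 0 fun g => v₁ᴴ.map (α g)) := fun r s => by
    simpa [V₁, ← avg_star, hfs, tsumM] using rR (star (v₁ s r))
  have rV₂ : RepM l (fun i => (V₂ i).map (fixedAlg α).subtype)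
      (tsumM (kap A l) e 1 fun g => v₂.map (α g)) := fun r s => rB (v₂ r s)
  have rV₂' : RepM l (fun i => (V₂ i)ᴴ.map (fixedAlg α).subtype)
      (tsumM (kap A l) e 1 fun g => v₂ᴴ.map (α g)) := fun r s => by
    simpa [V₂, ← avg_star, hfs, tsumM, mul_assoc] using rB (star (v₂ s r))
  have r2 := ((rV₁.mul rblk).mul rV₁').add
    ((rV₂.mul (RepM.const (d.map (fixedAlg α).subtype))).mul rV₂')
  rw [tsumM_mul hce hoe, tsumM_mul hce hoe, tsumM_mul_kap, tsumM_mul hce hoe, tsumM_add] at r2
  have ed : ∀ g, (d.map (fixedAlg α).subtype).map (α g) = d.map (fixedAlg α).subtype := fun g => by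
    ext r s
    exact (d r s).2 g
  have e1 : ∀ g, v₁.map (α g) * (blk L c).map (α g) * v₁ᴴ.map (α g) +
      v₂.map (α g) * d.map (fixedAlg α).subtype * v₂ᴴ.map (α g) = 1 := fun g => by
    change v₁ * blk L c * v₁ᴴ + v₂ * d.map (fixedAlg α).subtype * v₂ᴴ = 1 at hv
    rw [← ed g, ← Matrix.map_mul (f := α g), ← Matrix.map_mul (f := α g),
      ← Matrix.map_mul (f := α g), ← Matrix.map_mul (f := α g),
      ← Matrix.map_add _ (map_add _), hv, Matrix.map_one _ (map_zero _) (map_one _)]
  simp only [e1] at r2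
  let F : I → fixedAlg α := fun i => avg α (f i 1 ^ 4)
  have hF : ∀ i, IsSelfAdjoint (F i) := fun i => by
    simp [IsSelfAdjoint, F, ← avg_star, hfs]
  have rF : Rep l (fun i => (F i : A)) (tsum' (kap A l) e 3 fun _ => 1) := by
    simpa [F, coe_avg, tsum'] using Rep.sum Finset.univ fun g => (he1 g).pow 4
  have rD : RepM l (fun i => (diagonal fun _ : Fin K => F i).map (fixedAlg α).subtype)
      (tsumM (kap A l) e 3 fun _ => 1) := fun r s => by
    by_cases hrs : r = s
    · simpa [hrs, tsumM] using rF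
    · simpa [hrs, tsumM, tsum'] using Rep.zero
  have rf : Rep l (fun i => (∑ g, f i g) ^ 4) (tsum' (kap A l) e 3 fun _ => 1) := by
    have h1 : Rep l (fun i => ∑ g, f i g) (tsum' (kap A l) e 0 fun _ => 1) := by
      simpa [tsum'] using Rep.sum Finset.univ he
    have h2 := ((h1.mul h1).mul h1).mul h1
    simp only [tsum'_mul hce hoe, mul_one] at h2
    simpa [pow_succ] using h2
  have h3 := (tendsto_zero_iff_norm_tendsto_zero.1 (rD.tendsto r2)).eventually
    (gt_mem_nhds (show (0 : ℝ) < 1 / 4 by norm_num))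
  have h4 := (tendsto_zero_iff_norm_tendsto_zero.1 (rF.tendsto rf)).eventually
    (gt_mem_nhds (show (0 : ℝ) < 1 / 4 by norm_num))
  obtain ⟨i, h3, h4⟩ := (h3.and h4).exists
  refine ⟨y' i, cut (1 / 4) (1 - F i), cut_nonneg _ _, cut_nonneg _ _, ?_, ?_, ?_⟩
  · rw [map_cut _ _ (.of_nonneg (hy0 i))]
    refine (cls_cut_le_of_near (.of_nonneg (map_nonneg (mapHom (fixedAlg α).subtype) (hy0 i)))
      (conj_nonneg (Wm i) hb) (lt_add_of_pos_right _ (T.pos i))).trans (cls_conj_le _ hb)
  · have := map_cut1 (fixedAlg α).subtype (1 / 4) ((IsSelfAdjoint.one _).sub (hF i))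
    rw [map_sub, map_one] at this
    have h5 := CSub.tail (Finset.sum_nonneg fun g _ => T.nonneg i g) hx (T.small i)
      ((hF i).map (fixedAlg α).subtype) 4 h4
    rw [← this] at h5
    exact h5
  · rw [← map_val_mul, ← map_val_mul, ← map_val_mul, ← map_val_mul, ← Matrix.map_add _ (map_add _),
      ← Matrix.map_sub _ (map_sub _), norm_map_matrix _ hinj] at h3
    have h5 : 0 ≤ V₁ i * blk L (y' i) * (V₁ i)ᴴ := conj_nonneg _ (blk_nonneg L (cut_nonneg _ _))
    have h6 := cls_cut_le_of_near (show IsSelfAdjoint (diagonal fun _ : Fin K => F i) from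
      (hF i).map (diagHom (m := Fin K))) (add_nonneg h5 (conj_nonneg _ hd)) h3
    rw [cut_diagonal _ (hF i), cls_diagonal_fin (cut_nonneg _ _)] at h6
    have h7 := cls_conj_le (V₁ i) (blk_nonneg L (cut_nonneg (η i) (y i)))
    have h8 := cls_conj_le (V₂ i) hd
    rw [cls_blk L (cut_nonneg _ _)] at h7
    refine (nsmul_le_nsmul_right (u_le_cut_add_cut (hF i)) K).trans ?_
    rw [nsmul_add]
    exact add_le_add (h6.trans ((cls_add_le h5 (conj_nonneg _ hd)).trans
      (add_le_add h7 h8))) le_rfl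

end Pool.Agent.Lib.MP_f90f6c_an.H50
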