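import Pool.Agent.Lib.MP_f90f6c_an.H85Main
import Pool.Agent.Lib.MP_f90f6c_an.H35Lay
import Pool.Agent.Lib.MP_f90f6c_an.H35Seq
import Pool.Agent.Lib.MP_f90f6c_an.H35Tr

/-!
The radius of comparison relative to an invariant function `τ ↦ τ(x)`.
-/

namespace Pool.Agent.Lib.MP_f90f6c_an.H50

open Filter Topology Matrix
open scoped ENNReal

set_option linter.unusedSectionVars false

variable {G : Type*} [Group G] [Fintype G] [DecidableEq G] {A : Type*} [CStarAlgebra A]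
  [PartialOrder A] [StarOrderedRing A] {α : G →* (A ≃⋆ₐ[ℂ] A)}

/-- an invariant lower bound whose rank obeys the same affine bound -/
theorem le_of_bigD (hA : IsSimple A) (hinf : ¬FiniteDimensional ℂ A) (hF : FIN A)
    (hα : WeakTracialRokhlin α) {N : ℕ} (hN : 0 < N) {T T' : ℝ} (hT : T < T') {x : W A}
    {h : W (fixedAlg α)} (hx : ∀ s, IsState (W.u A) s → T' ≤ s x + s (inW α h) / N) :
    ∃ y : W (fixedAlg α), (∀ s, IsState (W.u _) s → T < s y + s h / N) ∧ inW α y ≤ x := by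
  have hN' : (0 : ℝ) < N := Nat.cast_pos.2 hN
  obtain ⟨η, hη, hη'⟩ : ∃ η : ℝ, 0 < η ∧ T = T' - 3 * η := ⟨(T' - T) / 3, by linarith, by ring⟩
  obtain ⟨e', c, a1, -, hc, a4⟩ := ai_inf_finset (hA.tiny hinf) hF Finset.univ (c₀ := x)
    (g := inW α h) (c := fun g => actW α g⁻¹ x) (b := (N : ℝ)⁻¹) (t := T') (inv_nonneg.2 hN'.le)
    (fun s hs => by simpa only [div_eq_inv_mul] using hx s hs)
    (fun g s hs => by
      have := hx _ (inv_state_act (α := α) hs g⁻¹)
      rwa [AddMonoidHom.comp_apply, AddMonoidHom.comp_apply, inv_actW_inW, div_eq_inv_mul] at this)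
    hη
  obtain ⟨k, l, m, h1, h2⟩ : Big (W.u A) (N * (T' - 2 * η)) (N • c + inW α h) :=
    big_of_states W.zero_le W.exists_le_nsmul fun s hs => by
      have b1 := mul_le_mul_of_nonneg_left (a4 s hs) hN'.le
      have b2 := mul_le_mul_of_nonneg_left (hs.mono a1.le) hN'.le
      rw [mul_add, ← mul_assoc, mul_inv_cancel₀ hN'.ne', one_mul] at b1
      rw [map_add, map_nsmul, nsmul_eq_mul]
      nlinarith [mul_pos hN' hη]
  obtain ⟨n, b, hb, rfl⟩ := cls_surj x
  obtain ⟨n', c, hc0, rfl⟩ := cls_surj c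
  obtain ⟨j, d, hd, hd'⟩ := cls_surj (m • W.u (fixedAlg α) + (k + 1) • h)
  have h0 : l • W.u A ≤ ((k + 1) * N) • cls c + cls (d.map (fixedAlg α).subtype) := by
    have e1 : cls (d.map (fixedAlg α).subtype) = m • W.u A + (k + 1) • inW α h := by
      rw [← inv_inW_u (α := α), ← map_nsmul, ← map_nsmul, ← map_add, ← hd']
      exact (Wmap1_cls (fixedAlg α).subtype.toNonUnitalStarAlgHom hd).symm
    rw [e1, mul_nsmul']
    refine h1.trans_eq ?_
    rw [nsmul_add]
    abel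
  obtain ⟨ε, h3, hε⟩ := ((eventually_le_nsmul_cut_add hc0 _ h0).and self_mem_nhdsWithin).exists
  have h4 : ∀ g, ∃ w : Matrix (Fin n') (Fin n) A, w * b * wᴴ = (cut ε c).map (α g) := fun g => by
    have h5 := Wmap1_mono (α g).toNonUnitalStarAlgHom (hc g (Finset.mem_univ g))
    change actW α g _ ≤ actW α g _ at h5
    rw [actW_actW_inv, actW_cls _ hc0, cls_le_cls (map_act_nonneg _ hc0) hb] at h5
    obtain ⟨w, hw⟩ := h5.exists_conj (.of_nonneg (map_act_nonneg _ hc0)) hb hε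
    exact ⟨w, hw.trans (map_cut (α g).toStarAlgHom ε (.of_nonneg hc0)).symm⟩
  choose w hw using h4
  obtain ⟨x, hx0, hx1, hxM⟩ := exists_small_fixed hA hinf hα l hη
  obtain ⟨F, _, f, δ, Tw⟩ := hα.exists_towers hx0 hx1
  obtain ⟨y, z, hy, hz, h5, h6, h7⟩ := Tw.transferD hx0 (cut_nonneg ε c) hb w hw hd h3
  refine ⟨cls y, fun s hs => ?_, (Wmap1_cls _ hy).trans_le h5⟩
  have h9 := hs.mono h7
  rw [hd', map_add, map_add, map_add, hs.nsmul_unit, hs.nsmul_unit, map_nsmul, map_nsmul, map_nsmul,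
    nsmul_eq_mul, nsmul_eq_mul, nsmul_eq_mul] at h9
  push_cast at h9
  have hk : (0 : ℝ) ≤ k := Nat.cast_nonneg _
  have h11 := hxM z hz h6 s hs
  have hN1 : (1 : ℝ) ≤ N := Nat.one_le_cast.2 hN
  obtain ⟨v, hv⟩ : ∃ v, s h = N * v := ⟨s h / N, by field_simp⟩
  rw [hv, mul_div_cancel_left₀ _ hN'.ne']
  rw [hv] at h9
  by_contra hcon
  push Not at hcon
  have hP : (1 : ℝ) ≤ (k + 1) * N := by nlinarith
  have b1 := mul_le_mul_of_nonneg_left hcon (zero_le_one.trans hP)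
  have b2 := mul_le_mul_of_nonneg_right hP hη.le
  rw [hη'] at b1
  nlinarith

/-- weighted comparison in the fixed point algebra gives weighted comparison in `A` -/
theorem cw_of_fixed (hA : IsSimple A) (hinf : ¬FiniteDimensional ℂ A)
    (hα : WeakTracialRokhlin α) {g' g : W (fixedAlg α)} (hg : LL g' g) {N : ℕ} (hN : 0 < N)
    {t t' : ℝ} (ht : t < t')
    (HB : ∀ x y : W (fixedAlg α), (∀ s, IsState (W.u _) s → s x + s g' / N + t < s y) → x ≤ y)
    (p q : W A) (hpq : ∀ s, IsState (W.u A) s → s p + s (inW α g) / N + t' < s q) : p ≤ q := by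
  have hN' : (0 : ℝ) < N := Nat.cast_pos.2 hN
  obtain ⟨K, hK⟩ := W.exists_le_nsmul g
  obtain ⟨h, h1, h2⟩ := hg.compl hK
  have HB' : ∀ x y : W (fixedAlg α), (∀ s, IsState (W.u _) s → s x + (K / N + t) < s y) → x ≤ y :=
    fun x y hxy => HB x y fun s hs => by
      have b1 := hs.mono (hg.le.trans hK)
      rw [hs.nsmul_unit] at b1
      linarith [hxy s hs, div_le_div_of_nonneg_right b1 hN'.le]
  have hFB : FIN (fixedAlg α) := fun ε hε => by
    obtain ⟨M, hM⟩ := exists_nat_gt ((1 + (K / N + t)) / ε)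
    rw [div_lt_iff₀ hε] at hM
    refine ⟨M, 1, one_pos, fun x c hx hc => HB' _ _ fun s hs => ?_⟩
    rw [map_nsmul, nsmul_eq_mul]
    have := mul_le_mul_of_nonneg_left (hc s hs).le (Nat.cast_nonneg (α := ℝ) M)
    linarith [hx s hs]
  have hTiB := tiny_fixed hA hinf hα
  have hFA := fin_of_fixed hA hinf hα (shrink_of_fin hTiB hFB (pos_fixed hA hinf hα)) HB'
  obtain ⟨w, ⟨M, hM⟩, hw⟩ := hTiB ((t' - t) / 2) (by linarith)
  refine seq_leF (t := fun s => s (inW α g) / N + t') (w₀ := inW α w) ⟨M, ?_⟩ (fun c hc => ?_) p q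
    fun s hs => by linarith [hpq s hs]
  · have := inv_inW_mono (α := α) hM
    rwa [map_nsmul, inv_inW_u] at this
  · obtain ⟨y, b1, b2⟩ := le_of_bigD hA hinf hFA hα hN (T := K / N + (t + t') / 2)
      (T' := K / N + t') (by linarith) (x := c) (h := h) fun s hs => by
        have b3 := hs.mono (inv_inW_mono (α := α) h2)
        rw [map_nsmul, inv_inW_u, hs.nsmul_unit, map_add, map_add] at b3
        have b4 := div_le_div_of_nonneg_right b3 hN'.le
        rw [add_div] at b4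
        linarith [hc s hs]
    refine (inv_inW_mono (HB w y fun s hs => ?_)).trans b2
    have b3 := hs.mono h1
    rw [hs.nsmul_unit, map_add] at b3
    have b4 := div_le_div_of_nonneg_right b3 hN'.le
    rw [add_div] at b4
    linarith [hw s hs, b1 s hs]

lemma jC_piD (g : W (fixedAlg α)) : Wmap (jC α) (Wmap1 (piD α).toNonUnitalStarAlgHom (inW α g)) =
    Fintype.card G • inW α g := by
  obtain ⟨k, c, hc, rfl⟩ := cls_surj g
  have h1 := map_nonneg' (fixedAlg α).subtype.toNonUnitalStarAlgHom hc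
  rw [Wmap1_cls _ hc, Wmap1_cls _ h1, Wmap_cls _ (map_nonneg' _ h1), ← Finset.card_univ,
    ← Finset.sum_const, ← cls_bd fun _ => h1]
  congr 1
  ext i j
  rw [mapM_jC, blockDiagonal_apply]
  change ent α i.2 j.2 (piD α (c i.1 j.1)) = _
  rw [ent_piD]
  split_ifs
  · exact (c i.1 j.1).2 _
  · rfl

lemma le_jC_psiD (g : W (fixedAlg α)) : inW α g ≤ Wmap (jC α) (Wmap1 (psiD α) g) := by
  obtain ⟨k, c, hc, rfl⟩ := cls_surj g
  have h1 := map_nonneg' (fixedAlg α).subtype.toNonUnitalStarAlgHom hc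
  have h2 := mapM_nonneg (jC α) (map_nonneg' (psiD α) hc)
  have hn : (0 : ℝ) < (Fintype.card G : ℝ)⁻¹ := inv_pos.2 (Nat.cast_pos.2 Fintype.card_pos)
  rw [Wmap1_cls _ hc, Wmap1_cls _ hc, Wmap_cls _ (map_nonneg' _ hc), ← cls_smul hn h1,
    cls_le_cls (smul_nonneg hn.le h1) h2]
  have e : (Fintype.card G : ℝ)⁻¹ • c.map (fixedAlg α).subtype.toNonUnitalStarAlgHom =
      (mapM (jC α) (c.map (psiD α))).submatrix (fun i => (i, 1)) fun i => (i, 1) := by
    ext i j
    rw [submatrix_apply, mapM_jC]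
    change _ = ent α 1 1 (piD α (c i j) * proj α)
    rw [ent_piD_mul_proj, Matrix.smul_apply, ← Complex.coe_smul]
    push_cast
    rfl
  rw [e]
  exact MSub.submatrix _ _

/-- comparison in `M_G(A)` descends to the states of the crossed product -/
lemma desc_state (hA : IsSimple A) (hinf : ¬FiniteDimensional ℂ A) (hα : WeakTracialRokhlin α)
    {x' x y : W (crossed α)} (hx : LL x' x) (h : Wmap (jC α) x ≤ Wmap (jC α) y)
    {s : W (crossed α) →+ ℝ} (hs : IsState (W.u _) s) : s x' ≤ s y := by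
  obtain ⟨k, a, ε, ha, hε, s1, s2⟩ := hx
  obtain ⟨k', b, hb, rfl⟩ := cls_surj y
  have s3 := (Wmap_mono (jC α) s2).trans h
  rw [Wmap_cls _ ha, Wmap_cls _ hb, cls_le_cls (mapM_nonneg _ ha) (mapM_nonneg _ hb)] at s3
  obtain ⟨v, hv⟩ := s3.exists_conj (.of_nonneg (mapM_nonneg _ ha)) (mapM_nonneg _ hb)
    (half_pos hε)
  have s4 := map_cut1 (jM α (Fin k)) (ε / 2) (.of_nonneg ha)
  refine le_of_forall_pos_le_add fun η hη => ?_
  obtain ⟨M, hM⟩ := exists_nat_gt (k / η)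
  rw [div_lt_iff₀ hη] at hM
  obtain ⟨x₀, t1, t2, t3⟩ := hA.exists_small hinf M
  obtain ⟨l, _, f, δ, T⟩ := hα.exists_towers t1 t2
  have s5 := T.descend t1 (cut_nonneg (ε / 2) a) hb v (hv.trans s4.symm) (half_pos hε)
  rw [cut_cut (half_pos hε).le (.of_nonneg ha), add_halves] at s5
  have t4 := Wmap1_mono (piD α).toNonUnitalStarAlgHom t3
  rw [map_nsmul, Wmap1_cls1 _ t1, Wmap1_u _ (map_one (piD α))] at t4
  have b1 := hs.mono t4
  have b2 := hs.mono (s1.trans s5)
  rw [map_nsmul, hs.unit, nsmul_eq_mul] at b1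
  rw [map_add, map_nsmul, nsmul_eq_mul, Fintype.card_fin] at b2
  change M * s (cls1 (piD α x₀)) ≤ 1 at b1
  have b3 := hs.nonneg W.zero_le (cls1 (piD α x₀))
  have b4 : k * s (cls1 (piD α x₀)) ≤ η := by nlinarith
  linarith

/-- comparison in `A` with a gap function gives comparison in the crossed product -/
theorem crossed_step (hA : IsSimple A) (hinf : ¬FiniteDimensional ℂ A)
    (hα : WeakTracialRokhlin α) {F : (W A →+ ℝ) → ℝ} (hF : ∀ s, IsState (W.u A) s → 0 ≤ F s)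
    (h : ∀ x y : W A, (∀ s, IsState (W.u A) s → s x + F s < s y) → x ≤ y) {θ : ℝ} (hθ : 0 < θ)
    {x' x y : W (crossed α)} (hx : LL x' x) (h1 : ∀ s, IsState (W.u A) s →
      s (Wmap (jC α) x) + F s + θ < s (Wmap (jC α) y)) : x' ≤ y := by
  have hn : (0 : ℝ) < Fintype.card G := Nat.cast_pos.2 Fintype.card_pos
  have hu : Wmap (jC α) (W.u _) = Fintype.card G • W.u A := by
    rw [W.u, Wmap_cls1 _ zero_le_one, jC_one, cls_one]
  have hy : y ≠ 0 := by
    rintro rfl
    have h2 := h (W.u A) 0 fun s hs => by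
      have := h1 s hs
      rw [map_zero, map_zero] at this
      linarith [hs.nonneg W.zero_le (Wmap (jC α) x), hF s hs]
    rw [W.u, cls1, map_one, ← cls_zero (m := Unit), cls_le_cls mone_nonneg le_rfl] at h2
    obtain ⟨v, hv⟩ := h2.exists_conj_eq_one le_rfl
    have := hA.1
    simpa using congrFun (congrFun hv ()) ()
  obtain ⟨x₁, p1, p2, p3⟩ := exists_piD_le hα hy
  obtain ⟨M, hM⟩ := exists_nat_gt (Fintype.card G / θ)
  rw [div_lt_iff₀ hθ] at hM
  obtain ⟨x₂, q1, q2, q3⟩ := hA.exists_small_le hinf p1 p2 (M + 1)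
  have q4 := Wmap1_mono (piD α).toNonUnitalStarAlgHom q3
  rw [map_nsmul, Wmap1_cls1 _ q1, Wmap1_cls1 _ p1] at q4
  replace q4 : (M + 1) • cls1 (piD α x₂) ≤ cls1 (piD α x₁) := q4
  have q5 : cls1 (piD α x₂) ≤ y := le_trans (by
    rw [succ_nsmul]
    exact W.le_add_left _ _) (q4.trans p3)
  have q6 : (M + 1) • cls1 (piD α x₂) ≤ W.u _ :=
    q4.trans (by simpa [cls1] using cls_le_card (oneBy_nonneg (map_nonneg (piD α) p1)))
  obtain ⟨w, r1, r2⟩ := (LL.cut (oneBy_nonneg (map_nonneg (piD α) q1)) one_half_pos).compl q5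
  rw [← map_cut1 _ _ (.of_nonneg (map_nonneg (piD α) q1)), ← map_cut1 _ _ (.of_nonneg q1)] at r1
  have r3 : Wmap (jC α) x ≤ Wmap (jC α) w := h _ _ fun s hs => by
    have a1 := hs.mono (Wmap_mono (jC α) r2)
    have a2 := hs.mono (Wmap_mono (jC α) q6)
    rw [map_add, map_add] at a1
    rw [map_nsmul, map_nsmul, hu, hs.nsmul_unit, nsmul_eq_mul] at a2
    push_cast at a2
    have a3 := hs.nonneg W.zero_le (Wmap (jC α) (cls1 (piD α x₂)))
    have a4 : s (Wmap (jC α) (cls1 (piD α x₂))) ≤ θ := by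
      by_contra a5
      push Not at a5
      have a6 : (0 : ℝ) ≤ M := Nat.cast_nonneg _
      nlinarith
    change _ ≤ s (Wmap (jC α) (cls1 (piD α x₂))) + _ at a1
    linarith [h1 s hs]
  obtain ⟨k, a, ε, ha, hε, s1, s2⟩ := hx
  obtain ⟨k', b, hb, rfl⟩ := cls_surj w
  have s3 := (Wmap_mono (jC α) s2).trans r3
  rw [Wmap_cls _ ha, Wmap_cls _ hb, cls_le_cls (mapM_nonneg _ ha) (mapM_nonneg _ hb)] at s3
  obtain ⟨v, hv⟩ := s3.exists_conj (.of_nonneg (mapM_nonneg _ ha)) (mapM_nonneg _ hb)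
    (half_pos hε)
  have s4 := map_cut1 (jM α (Fin k)) (ε / 2) (.of_nonneg ha)
  obtain ⟨x₀, t1, t2, t3⟩ := hA.exists_small_le hinf (cut_nonneg (1 / 2) x₂)
    (cut_ne_zero q1 one_half_pos.le (by rw [q2]; norm_num)) (Fintype.card (Fin k))
  obtain ⟨l, _, f, δ, T⟩ := hα.exists_towers t1 t2
  have s5 := T.descend t1 (cut_nonneg (ε / 2) a) hb v (hv.trans s4.symm) (half_pos hε)
  rw [cut_cut (half_pos hε).le (.of_nonneg ha), add_halves] at s5
  have t4 := Wmap1_mono (piD α).toNonUnitalStarAlgHom t3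
  rw [map_nsmul, Wmap1_cls1 _ t1, Wmap1_cls1 _ (cut_nonneg _ _)] at t4
  refine s1.trans (s5.trans (le_trans ?_ r1))
  rw [add_comm]
  exact add_le_add t4 le_rfl

variable (α) in
/-- the map from the fixed point algebra to the crossed product -/
noncomputable abbrev piW (g : W (fixedAlg α)) : W (crossed α) :=
  Wmap1 (piD α).toNonUnitalStarAlgHom (inW α g)

theorem cw_crossed (hA : IsSimple A) (hinf : ¬FiniteDimensional ℂ A) (hα : WeakTracialRokhlin α)
    {g : W (fixedAlg α)} {N t t' : ℝ} (hN : 0 < N) (h0 : 0 ≤ t) (ht : t < Fintype.card G * t')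
    (H : ∀ x y : W A, (∀ s, IsState (W.u A) s → s x + s (inW α g) / N + t < s y) → x ≤ y)
    {x' x y : W (crossed α)} (hx : LL x' x) (hab : ∀ s, IsState (W.u _) s →
      s x + s (piW α g) / (N * Fintype.card G) + t' < s y) : x' ≤ y := by
  have hn : (0 : ℝ) < Fintype.card G := Nat.cast_pos.2 Fintype.card_pos
  have hu : Wmap (jC α) (W.u _) = Fintype.card G • W.u A := by
    rw [W.u, Wmap_cls1 _ zero_le_one, jC_one, cls_one]
  refine crossed_step hA hinf hα (F := fun s => s (inW α g) / N + t)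
    (fun s hs => add_nonneg (div_nonneg (hs.nonneg W.zero_le _) hN.le) h0)
    (fun x y hxy => H x y fun s hs => by linarith [hxy s hs]) (sub_pos.2 ht) hx fun s hs => ?_
  have h2 := hab ((AddMonoidHom.mulLeft (Fintype.card G : ℝ)⁻¹).comp (s.comp (Wmap (jC α))))
    ⟨fun x y hxy => mul_le_mul_of_nonneg_left (hs.mono (Wmap_mono _ hxy)) (inv_nonneg.2 hn.le),
      by
        change _ * s (Wmap (jC α) _) = 1
        rw [hu, hs.nsmul_unit, inv_mul_cancel₀ hn.ne']⟩
  change _ * s (Wmap (jC α) x) + _ * s (Wmap (jC α) (piW α g)) / _ + _ <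
    _ * s (Wmap (jC α) y) at h2
  rw [jC_piD, map_nsmul, nsmul_eq_mul, inv_mul_cancel_left₀ hn.ne', lt_inv_mul_iff₀ hn, mul_add,
    mul_add, mul_inv_cancel_left₀ hn.ne'] at h2
  have e : Fintype.card G * (s (inW α g) / (N * Fintype.card G)) = s (inW α g) / N := by field_simp
  rw [e] at h2
  linarith

theorem cw_fixed (hA : IsSimple A) (hinf : ¬FiniteDimensional ℂ A) (hα : WeakTracialRokhlin α)
    {g' g : W (fixedAlg α)} (hg : LL g' g) {N t : ℝ} (hN : 0 < N) (h0 : 0 ≤ t)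
    (H : ∀ x y : W (crossed α), (∀ s, IsState (W.u _) s →
      s x + s (piW α g') / (N * Fintype.card G) + t < s y) → x ≤ y)
    (x y : W (fixedAlg α))
    (hy : ∀ s, IsState (W.u _) s → s x + s g / N + Fintype.card G * t < s y) : x ≤ y :=
  compress' <| H _ _ fun s hs => by
    have hn : (0 : ℝ) < Fintype.card G := Nat.cast_pos.2 Fintype.card_pos
    have h1 := one_le_card_mul_state hA hinf hα hs
    have h2 := hs.nonneg W.zero_le (cls1 (proj α))
    have h3 : 0 < s (cls1 (proj α)) := lt_of_le_of_ne h2 fun h => by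
      rw [← h, mul_zero] at h1
      linarith
    have h4 := hy ((AddMonoidHom.mulLeft (s (cls1 (proj α)))⁻¹).comp (s.comp (Wmap1 (psiD α))))
      ⟨fun x y hxy => mul_le_mul_of_nonneg_left (hs.mono (Wmap1_mono _ hxy)) (inv_nonneg.2 h2), by
        change _ * s (Wmap1 (psiD α) (cls1 1)) = 1
        rw [Wmap1_cls1 _ zero_le_one, psiD_one, inv_mul_cancel₀ h3.ne']⟩
    change _ * s (Wmap1 (psiD α) x) + _ * s (Wmap1 (psiD α) g) / N + _ <
      _ * s (Wmap1 (psiD α) y) at h4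
    rw [lt_inv_mul_iff₀ h3, mul_add, mul_add, mul_inv_cancel_left₀ h3.ne', ← mul_div_assoc,
      mul_inv_cancel_left₀ h3.ne'] at h4
    have h5 := desc_state hA hinf hα (y := Fintype.card G • Wmap1 (psiD α) g)
      ((inv_LL_in hg).map (piD α)) (by
        rw [jC_piD, map_nsmul]
        exact nsmul_le_nsmul_right (le_jC_psiD g) _) hs
    rw [map_nsmul, nsmul_eq_mul] at h5
    have h6 : s (piW α g') / (N * Fintype.card G) ≤ s (Wmap1 (psiD α) g) / N := by
      rw [mul_comm N, ← div_div]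
      exact div_le_div_of_nonneg_right ((div_le_iff₀' hn).2 h5) hN.le
    nlinarith [mul_le_mul_of_nonneg_right h1 h0]

lemma lay_in {x : fixedAlg α} (hx : 0 ≤ x) {c : ℝ} (hc : 0 ≤ c) (ρ : ℝ) (J : ℕ) :
    inW α (lay c ρ J x) = lay c ρ J (x : A) := lay_map (fixedAlg α).subtype hx hc ρ J

lemma lay_pi {x : fixedAlg α} (hx : 0 ≤ x) {c : ℝ} (hc : 0 ≤ c) (ρ : ℝ) (J : ℕ) :
    piW α (lay c ρ J x) = lay c ρ J (piD α x) := by
  rw [piW, lay_in hx hc]
  exact lay_map (piD α) hx hc ρ J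

lemma exists_tr_lower (hA : IsSimple A) (hinf : ¬FiniteDimensional ℂ A)
    (hα : WeakTracialRokhlin α) {x : fixedAlg α} (hx : 0 ≤ x) (hx0 : x ≠ 0) : ∃ η : ℝ, 0 < η ∧
      (∀ t : QT (fixedAlg α), η ≤ (t.tr x).re) ∧ (∀ t : QT A, η ≤ (t.tr x).re) ∧
      ∀ t : QT (crossed α), η ≤ (t.tr (piD α x)).re := by
  have h1 : 0 < ‖x‖ := norm_pos_iff.2 hx0
  have hc : 0 < 4 / ‖x‖ := by positivity
  obtain ⟨σ, hσ, h⟩ := pos_fixed hA hinf hα _ (lay_ne_zero hx hc.le (by
    rw [div_mul_cancel₀ _ h1.ne']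
    norm_num))
  have hx' : (0 : A) ≤ x := hx
  refine ⟨_, div_pos hσ hc, tr_lower hx hc h, tr_lower hx' hc fun s hs => ?_,
    tr_lower (map_nonneg _ hx') hc fun s hs => ?_⟩
  · rw [← lay_in hx hc.le]
    exact h _ (inv_state_in hs)
  · rw [← lay_pi hx hc.le]
    exact h _ (inv_state_in (s := s.comp (Wmap1 (piD α).toNonUnitalStarAlgHom))
      ⟨hs.mono.comp (Wmap1_mono _), by
        rw [AddMonoidHom.comp_apply, Wmap1_u _ (map_one (piD α)), hs.unit]⟩)

lemma exists_N {a b : ℝ} (hb : 0 < b) : ∃ N : ℕ, 0 < N ∧ a / N ≤ b := by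
  obtain ⟨N, hN⟩ := exists_nat_gt (max (a / b) 0)
  have h0 : (0 : ℝ) < N := (le_max_right _ _).trans_lt hN
  refine ⟨N, Nat.cast_pos.1 h0, ?_⟩
  rw [div_le_iff₀' h0, ← div_le_iff₀ hb]
  exact ((le_max_left _ _).trans_lt hN).le

section Three

variable (hA : IsSimple A) (hinf : ¬FiniteDimensional ℂ A) (hα : WeakTracialRokhlin α)
  {x : fixedAlg α} (hx : 0 ≤ x) (hx0 : x ≠ 0) {r r' : ℝ} (h0 : 0 ≤ r)
include hA hinf hα hx hx0 h0

theorem wc_of_fixed (hr : r < r') (h : WComparison x r) : WComparison (x : A) r' := by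
  obtain ⟨η, hη, -, h2, -⟩ := exists_tr_lower hA hinf hα hx hx0
  obtain ⟨N, hN, hN'⟩ := exists_N (a := 3) (mul_pos (sub_pos.2 hr) hη)
  have hN0 : (0 : ℝ) < N := Nat.cast_pos.2 hN
  have hc := mul_nonneg hN0.le h0
  obtain ⟨J, hJ⟩ := exists_nat_ge (N * r * ‖x‖)
  refine wComparison_of_states (x := (x : A)) hx h0 hN0 rfl one_half_pos (J := J) h2 hr.le hN'
    fun p' p q hp hpq => hp.le.trans ?_
  rw [← lay_in hx hc] at hpq
  exact cw_of_fixed hA hinf hα (lay_LL hx hc one_half_lt_one J) hN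
    (div_lt_div_of_pos_right (by norm_num) hN0)
    (fun a b hab => h.le_of_states hx h0 hN0 rfl le_rfl hJ hab) p q hpq

theorem wc_crossed (hr : r < Fintype.card G * r') (h : WComparison (x : A) r) :
    WComparison (piD α x) r' := by
  have hn : (0 : ℝ) < Fintype.card G := Nat.cast_pos.2 Fintype.card_pos
  have hr' : r / Fintype.card G < r' := (div_lt_iff₀' hn).2 hr
  obtain ⟨η, hη, -, -, h2⟩ := exists_tr_lower hA hinf hα hx hx0
  obtain ⟨N, hN, hN'⟩ := exists_N (a := 3) (mul_pos (sub_pos.2 hr') hη)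
  have hN0 : (0 : ℝ) < N := Nat.cast_pos.2 hN
  have hc := mul_nonneg hN0.le h0
  obtain ⟨J, hJ⟩ := exists_nat_ge (N * r * ‖(x : A)‖)
  have hx' : (0 : A) ≤ x := hx
  refine wComparison_of_states (map_nonneg _ hx') (div_nonneg h0 hn.le) (mul_pos hN0 hn)
    (c := N * r) (by field_simp) one_pos (J := J) h2 hr'.le hN' fun p' p q hp hpq => ?_
  rw [← lay_pi hx hc] at hpq
  refine cw_crossed hA hinf hα hN0 (t := 2 / N) (by positivity) ?_ (fun a b hab => ?_) hp hpq
  · have h1 : (1 : ℝ) ≤ Fintype.card G := Nat.one_le_cast.2 Fintype.card_pos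
    have h3 : (2 : ℝ) / N < 3 / N := div_lt_div_of_pos_right (by norm_num) hN0
    have h4 : (0 : ℝ) < 3 / N := by positivity
    nlinarith
  · rw [lay_in hx hc] at hab
    exact h.le_of_states hx' h0 hN0 rfl le_rfl hJ hab

theorem wc_fixed (hr : Fintype.card G * r < r') (h : WComparison (piD α x) r) :
    WComparison x r' := by
  have hn : (0 : ℝ) < Fintype.card G := Nat.cast_pos.2 Fintype.card_pos
  obtain ⟨η, hη, h2, -, -⟩ := exists_tr_lower hA hinf hα hx hx0
  obtain ⟨N, hN, hN'⟩ := exists_N (a := 2) (mul_pos (sub_pos.2 hr) hη)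
  have hN0 : (0 : ℝ) < N := Nat.cast_pos.2 hN
  have h1 := mul_nonneg hn.le h0
  have hc := mul_nonneg hN0.le h1
  obtain ⟨J, hJ⟩ := exists_nat_ge (N * (Fintype.card G * r) * ‖piD α x‖)
  have hx' : (0 : A) ≤ x := hx
  refine wComparison_of_states hx h1 hN0 rfl one_half_pos (J := J) h2 hr.le hN'
    fun p' p q hp hpq => hp.le.trans ?_
  refine cw_fixed hA hinf hα (lay_LL hx hc one_half_lt_one J) hN0
    (t := 2 / (N * Fintype.card G)) (by positivity) (fun a b hab => ?_) p q fun s hs => ?_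
  · rw [lay_pi hx hc] at hab
    exact h.le_of_states (map_nonneg _ hx') h0 (mul_pos hN0 hn) (by ring) le_rfl hJ hab
  · have e : Fintype.card G * (2 / (N * Fintype.card G : ℝ)) = 2 / N := by field_simp
    rw [e]
    exact hpq s hs

end Three

theorem rcW_eq (hA : IsSimple A) (hinf : ¬FiniteDimensional ℂ A) (hα : WeakTracialRokhlin α)
    {x : fixedAlg α} (hx : 0 ≤ x) (hx0 : x ≠ 0) :
    rcW x = rcW (x : A) ∧ rcW (piC α x) = (Fintype.card G : ℝ≥0∞)⁻¹ * rcW (x : A) := by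
  have hn : (0 : ℝ) < Fintype.card G := Nat.cast_pos.2 Fintype.card_pos
  have n0 : (Fintype.card G : ℝ≥0∞) ≠ 0 := Nat.cast_ne_zero.2 Fintype.card_ne_zero
  have nt : (Fintype.card G : ℝ≥0∞) ≠ ⊤ := ENNReal.natCast_ne_top _
  change rcW x = rcW (x : A) ∧ rcW (piD α x) = _
  have a1 : rcW (x : A) ≤ rcW x := le_iInf fun _ => le_iInf fun h0 => le_iInf fun h1 =>
    rcW_le_of_forall h0 fun _ hr => wc_of_fixed hA hinf hα hx hx0 h0 hr h1
  have a2 : Fintype.card G * rcW (piD α x) ≤ rcW (x : A) :=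
    le_iInf fun r => le_iInf fun h0 => le_iInf fun h => by
      have h1 := rcW_le_of_forall (x := piD α x) (div_nonneg h0 hn.le) fun r' hr =>
        wc_crossed hA hinf hα hx hx0 h0 (by rwa [div_lt_iff₀' hn] at hr) h
      refine (mul_le_mul_right h1 _).trans (le_of_eq ?_)
      rw [← ENNReal.ofReal_natCast, ← ENNReal.ofReal_mul hn.le, mul_div_cancel₀ _ hn.ne']
  have a3 : (Fintype.card G : ℝ≥0∞)⁻¹ * rcW x ≤ rcW (piD α x) :=
    le_iInf fun r => le_iInf fun h0 => le_iInf fun h => by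
      have h1 := rcW_le_of_forall (mul_nonneg hn.le h0) fun r' hr =>
        wc_fixed hA hinf hα hx hx0 h0 hr h
      rw [ENNReal.ofReal_mul hn.le, ENNReal.ofReal_natCast] at h1
      exact (ENNReal.inv_mul_le_iff n0 nt).2 h1
  exact ⟨le_antisymm (((ENNReal.inv_mul_le_iff n0 nt).1 a3).trans a2) a1,
    le_antisymm ((ENNReal.mul_le_iff_le_inv n0 nt).1 a2) ((mul_le_mul_right a1 _).trans a3)⟩

end Pool.Agent.Lib.MP_f90f6c_an.H50
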