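import Pool.Agent.Lib.MP_f90f6c_an.H35Ser

/-!
The radius of comparison relative to an invariant positive element.
-/

namespace Pool.Agent.Lib.MP_f90f6c_an.H50

open Filter Topology Matrix
open scoped ENNReal

set_option linter.unusedSectionVars false

section Gen

variable {D : Type*} [CStarAlgebra D] [PartialOrder D] [StarOrderedRing D]
variable {E : Type*} [CStarAlgebra E] [PartialOrder E] [StarOrderedRing E] {k : ℕ}

/-- the lower semicontinuous regularization of `s` at `g` -/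
noncomputable def reg (s : W D →+ ℝ) (g : W D) : ℝ := sSup {v | ∃ g', LL g' g ∧ v = s g'}

lemma le_reg {s : W D →+ ℝ} (hs : Monotone s) {g' g : W D} (h : LL g' g) : s g' ≤ reg s g :=
  le_csSup ⟨s g, by
    rintro _ ⟨x, hx, rfl⟩
    exact hs hx.le⟩ ⟨g', h, rfl⟩

lemma reg_le {s : W D →+ ℝ} {g : W D} {c : ℝ} (h : ∀ g', LL g' g → s g' ≤ c) : reg s g ≤ c :=
  csSup_le ⟨_, 0, LL.zero g, rfl⟩ (by
    rintro _ ⟨x, hx, rfl⟩
    exact h x hx)

lemma le_of_add_mul {a b T : ℝ} (hT : 0 ≤ T) (h : ∀ η > 0, a ≤ b + η * T) : a ≤ b :=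
  le_of_forall_pos_le_add fun ε hε => (h (ε / (T + 1)) (by positivity)).trans (by
    rw [div_mul_eq_mul_div, add_le_add_iff_left, div_le_iff₀ (by positivity)]
    nlinarith)

lemma dimS_le_of_cut {τ : E → ℂ} (hτ : IsQuasitrace τ) {a : E} (ha : 0 ≤ a) {c : ℝ}
    (h : ∀ δ > 0, dimS τ (cut δ a) ≤ c) : dimS τ a ≤ c :=
  dimS_le fun f hf => le_of_add_mul (hτ.nonneg zero_le_one) fun η hη => by
    obtain ⟨δ, hδ, h1⟩ := hf.exists_le hη
    have hc := hf.cont
    have hg : IsTest fun u => max (f (u + δ) - η) 0 :=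
      ⟨by fun_prop, fun _ => le_max_right _ _,
        fun u => max_le (by linarith [hf.le_one (u + δ)]) zero_le_one,
        max_eq_right (by rw [zero_add]; linarith [h1 δ hδ.le le_rfl])⟩
    have h2 := (hτ.le_dimS (cut_nonneg δ a) hg).trans (h δ hδ)
    rw [cut, ← cfc_comp' _ _ a hg.cont.continuousOn] at h2
    refine (hτ.cfc_le ha hc (g := fun t => max (f (max (t - δ) 0 + δ) - η) 0) (by fun_prop) (c := η)
      fun t ht => ?_).trans (add_le_add h2 le_rfl)
    rcases le_total t δ with h3 | h3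
    · linarith [h1 t (spectrum_nonneg_of_nonneg ha ht) h3,
        le_max_right (f (max (t - δ) 0 + δ) - η) 0]
    · rw [max_eq_left (sub_nonneg.2 h3), sub_add_cancel]
      linarith [le_max_left (f t - η) 0]

/-- an increasing sequence of test functions -/
noncomputable def fT (n : ℕ) (t : ℝ) : ℝ := min (n * max t 0) 1

lemma fT_test (n : ℕ) : IsTest (fT n) :=
  ⟨by unfold fT; fun_prop, fun t => le_min (by positivity) zero_le_one, fun _ => min_le_right _ _,
    by simp [fT]⟩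

lemma fT_mono (n : ℕ) (t : ℝ) : fT n t ≤ fT (n + 1) t :=
  min_le_min (mul_le_mul_of_nonneg_right (by push_cast; linarith) (le_max_right _ _)) le_rfl

lemma dimS_le_fT {τ : E → ℂ} (hτ : IsQuasitrace τ) {a : E} (ha : 0 ≤ a) {c : ℝ}
    (h : ∀ n, (τ (cfc (fT n) a)).re ≤ c) : dimS τ a ≤ c :=
  dimS_le fun f hf => le_of_add_mul (hτ.nonneg zero_le_one) fun η hη => by
    obtain ⟨δ, hδ, h1⟩ := hf.exists_le hη
    obtain ⟨n, hn⟩ := exists_nat_ge (1 / δ)
    rw [div_le_iff₀ hδ] at hn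
    refine (hτ.cfc_le ha hf.cont (fT_test n).cont (c := η) fun t ht => ?_).trans
      (add_le_add (h n) le_rfl)
    have h0 := spectrum_nonneg_of_nonneg ha ht
    rcases le_total t δ with h3 | h3
    · linarith [h1 t h0 h3, (fT_test n).nonneg t]
    · have h4 : fT n t = 1 := min_eq_right (by
        rw [max_eq_left h0]
        exact hn.trans (mul_le_mul_of_nonneg_left h3 (Nat.cast_nonneg n)))
      linarith [hf.le_one t]

lemma sum_fT {τ : E → ℂ} (hτ : IsQuasitrace τ) (a : E) (r : ℝ) (n : ℕ) :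
    ∑ i ∈ Finset.range n, (τ (cfc (fun t => r * (fT (i + 1) t - fT i t)) a)).re =
      r * (τ (cfc (fT n) a)).re := by
  have hc := fun n => (fT_test n).cont
  have key : ∀ n, r * (τ (cfc (fT n) a)).re = (τ (cfc (fun t => r * fT n t) a)).re := fun n => by
    rw [← hτ.re_smul (cfc_sa _ _), ← cfc_smul r _ a (hc n).continuousOn]
    rfl
  rw [key]
  induction n with
  | zero => simp [fT, fix_zero hτ a, -cfc_const_zero]
  | succ n ih =>
    have h1 := hc n
    have h2 := hc (n + 1)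
    rw [Finset.sum_range_succ, ih, ← Complex.add_re,
      ← hτ.add_comm (cfc_sa _ _) (cfc_sa _ _) (cfc_commute_cfc _ _ _),
      ← cfc_add a _ _ (by fun_prop) (by fun_prop)]
    congr 2
    exact cfc_congr fun t _ => by ring

lemma state_qt {s : W D →+ ℝ} (hs : IsState (W.u D) s) : ∃ t : QT D,
    ∀ (k : ℕ) (a : Matrix (Fin k) (Fin k) D), 0 ≤ a →
      dimS (t.tm k) a ≤ s (cls a) ∧ ∀ x, LL x (cls a) → s x ≤ dimS (t.tm k) a := by
  obtain ⟨t, ht⟩ := hs.exists_qt'
  refine ⟨t, fun k a ha => ?_⟩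
  rw [← t.d_eq ha]
  refine ⟨(ht k a ha).1, fun x hx => ?_⟩
  obtain ⟨δ, hδ, h1⟩ := hx.exists_cut ha
  exact (hs.mono h1).trans ((ht k a ha).2 δ hδ)

open Classical in
/-- the value on `x` of a quasitrace attached to the state `s` -/
noncomputable def trS (x : Matrix (Fin k) (Fin k) D) (s : W D →+ ℝ) : ℝ :=
  if hs : IsState (W.u D) s then ((state_qt hs).choose.tm k x).re else 0

lemma approx_trS {x : Matrix (Fin k) (Fin k) D} (hx : 0 ≤ x) : Approx (trS x) := fun η hη => by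
  obtain ⟨N, hN, hN'⟩ := exists_N (a := 2 * k) hη
  have hN0 : (0 : ℝ) < N := Nat.cast_pos.2 hN
  have h0 := smul_nonneg hN0.le hx
  obtain ⟨J, hJ⟩ := exists_nat_ge ‖(N : ℝ) • x‖
  refine ⟨N, _, _, hN, fix_lay_LL h0 one_half_lt_one J, fun s hs => ?_⟩
  have H := (state_qt hs).choose_spec
  have h1 := fix_up H h0 one_half_pos J
  have h2 := fix_low H hs h0 le_rfl hJ
  rw [((state_qt hs).choose.isQ k).re_smul (.of_nonneg hx)] at h1 h2
  rw [trS, dif_pos hs, div_le_iff₀' hN0, le_div_iff₀' hN0]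
  rw [div_le_iff₀' hN0] at hN'
  exact ⟨h1, by linarith⟩

section Rel

variable {e : Matrix (Fin k) (Fin k) E} {e' : Matrix (Fin k) (Fin k) D} (he : 0 ≤ e) (he' : 0 ≤ e')
  {Φ : W E →+ W D} (hΦ : Monotone Φ) (hc : ∀ δ, Φ (cls (cut δ e)) = cls (cut δ e'))
  {r : ℝ} (hr : 0 ≤ r)
include he he' hΦ hc

lemma dimS_eq_reg {s : W D →+ ℝ} (hs : Monotone s) {t : QT D}
    (H : ∀ (k : ℕ) (a : Matrix (Fin k) (Fin k) D), 0 ≤ a →
      dimS (t.tm k) a ≤ s (cls a) ∧ ∀ x, LL x (cls a) → s x ≤ dimS (t.tm k) a) :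
    dimS (t.tm k) e' = reg (s.comp Φ) (cls e) := by
  refine le_antisymm (dimS_le_of_cut (t.isQ k) he' fun δ hδ => (H k _ (cut_nonneg δ e')).1.trans ?_)
    (reg_le fun g' hg => ?_)
  · rw [← hc]
    exact le_reg (s := s.comp Φ) (hs.comp hΦ) (LL.cut he hδ)
  · obtain ⟨δ, hδ, h1⟩ := hg.exists_cut he
    refine (hs (hΦ h1)).trans ?_
    rw [hc]
    exact (H k _ he').2 _ (LL.cut he' hδ)

theorem RelComparison.le_of_states (h : RelComparison (CStarMatrix.ofMatrix e') r) {p q : W D}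
    (hxy : ∀ s, IsState (W.u D) s → s p + r * reg (s.comp Φ) (cls e) < s q) : p ≤ q := by
  obtain ⟨k, a, ha, rfl⟩ := cls_surj p
  obtain ⟨l, b, hb, rfl⟩ := cls_surj q
  let e := (finSumFinEquiv (m := k) (n := l)).symm
  have ha' := fromBlocks_nonneg ha (le_refl (0 : Matrix (Fin l) (Fin l) D))
  have hb' := fromBlocks_nonneg (le_refl (0 : Matrix (Fin k) (Fin k) D)) hb
  have e1 : cls a = cls ((fromBlocks a 0 0 0).submatrix e e) := by
    rw [cls_submatrix_equiv ha', cls_fromBlocks ha le_rfl, cls_zero, add_zero]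
  have e2 : cls b = cls ((fromBlocks 0 0 0 b).submatrix e e) := by
    rw [cls_submatrix_equiv hb', cls_fromBlocks le_rfl hb, cls_zero, zero_add]
  rw [e1, e2] at hxy ⊢
  rw [cls_le_cls (submatrix_nonneg ha' e) (submatrix_nonneg hb' e)]
  refine cuntzSub_iff.1 (h (k + l) (CStarMatrix.ofMatrix ((fromBlocks a 0 0 0).submatrix e e))
    (CStarMatrix.ofMatrix ((fromBlocks 0 0 0 b).submatrix e e))
    (submatrix_nonneg ha' e) (submatrix_nonneg hb' e) fun t => ?_)
  obtain ⟨s, hs, hs', H⟩ := qt_state t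
  rw [← hs' _ _ (submatrix_nonneg ha' e), ← hs' _ _ (submatrix_nonneg hb' e), t.d_eq he',
    dimS_eq_reg he he' hΦ hc hs.mono H]
  exact hxy s hs

theorem relComparison_of_states (h : ∀ p' p q : W D, LL p' p →
    (∀ s, IsState (W.u D) s → s p + r * reg (s.comp Φ) (cls e) < s q) → p' ≤ q) :
    RelComparison (CStarMatrix.ofMatrix e') r := by
  intro n a b ha hb hab
  obtain ⟨a, rfl⟩ := CStarMatrix.ofMatrix.surjective a
  obtain ⟨b, rfl⟩ := CStarMatrix.ofMatrix.surjective b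
  replace ha : 0 ≤ a := ha
  replace hb : 0 ≤ b := hb
  have key : MSub a b := MSub.of_cut ha fun ε hε => (cls_le_cls (cut_nonneg _ _) hb).1 <|
    h _ _ _ (LL.cut_cut ha (half_lt_self hε)) fun s hs => by
      obtain ⟨t, H⟩ := state_qt hs
      have h1 := hab t
      rw [t.d_eq ha, t.d_eq hb, t.d_eq he', dimS_eq_reg he he' hΦ hc hs.mono H] at h1
      linarith [(H n a ha).2 _ (LL.cut ha (half_pos hε)), (H n b hb).1]
  exact cuntzSub_iff.2 key

end Rel

lemma cls_cut_ne_zero {a : Matrix (Fin k) (Fin k) D} (ha : 0 ≤ a) (h : a ≠ 0) :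
    cls (cut (‖a‖ / 4) a) ≠ 0 := fun h0 => by
  have h1 : 0 < ‖a‖ := norm_pos_iff.2 h
  rw [← cls_zero (m := Unit)] at h0
  obtain ⟨w, hw⟩ := ((cls_le_cls (cut_nonneg _ _) le_rfl).1 h0.le).exists_conj
    (.of_nonneg (cut_nonneg _ _)) le_rfl (ε := ‖a‖ / 4) (by positivity)
  rw [cut_cut (by positivity) (.of_nonneg ha), Matrix.mul_zero, Matrix.zero_mul] at hw
  exact cut_ne_zero ha (by positivity) (by linarith) hw.symm

lemma rcRel_le_of_forall {e : Mn D k} {r : ℝ} (h0 : 0 ≤ r)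
    (h : ∀ r', r < r' → RelComparison e r') : rcRel e ≤ ENNReal.ofReal r := by
  refine ENNReal.le_of_forall_pos_le_add fun ε hε _ => ?_
  have hε' : (0 : ℝ) < ε := hε
  rw [← ENNReal.ofReal_coe_nnreal, ← ENNReal.ofReal_add h0 hε'.le]
  exact iInf_le_of_le (r + ε) (iInf_le_of_le (add_nonneg h0 hε'.le)
    (iInf_le _ (h _ (lt_add_of_pos_right r hε'))))

/-- for `e = 1` the relative radius is the radius of comparison -/
theorem rcRel_one : rcRel (1 : Mn D 1) = rc D := by
  have h : ∀ t : QT D, t.d (1 : Mn D 1) = 1 := fun t => by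
    obtain ⟨s, hs, hs'⟩ := t.exists_state
    have := hs' 1 1 mone_nonneg
    rw [cls_one, hs.nsmul_unit, Fintype.card_fin, Nat.cast_one] at this
    exact this.symm
  simp only [rcRel, rc, RelComparison, RComparison, h, mul_one]

end Gen

variable {G : Type*} [Group G] [Fintype G] [DecidableEq G] {A : Type*} [CStarAlgebra A]
  [PartialOrder A] [StarOrderedRing A] {α : G →* (A ≃⋆ₐ[ℂ] A)} {k : ℕ}

lemma exists_reg_lower (hA : IsSimple A) (hinf : ¬FiniteDimensional ℂ A)
    (hα : WeakTracialRokhlin α) {e : Matrix (Fin k) (Fin k) (fixedAlg α)} (he : 0 ≤ e)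
    (he0 : e ≠ 0) : ∃ σ : ℝ, 0 < σ ∧ ∀ s, IsState (W.u _) s → σ ≤ reg s (cls e) := by
  obtain ⟨σ, hσ, h⟩ := pos_fixed hA hinf hα _ (cls_cut_ne_zero he he0)
  have h1 : 0 < ‖e‖ := norm_pos_iff.2 he0
  exact ⟨σ, hσ, fun s hs => (h s hs).trans (le_reg hs.mono (LL.cut he (by positivity)))⟩

section Three

variable (hA : IsSimple A) (hinf : ¬FiniteDimensional ℂ A) (hα : WeakTracialRokhlin α)
  {e : Matrix (Fin k) (Fin k) (fixedAlg α)} (he : 0 ≤ e) (he0 : e ≠ 0) {r r' : ℝ} (h0 : 0 ≤ r)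
include hA hinf hα he he0 h0

theorem cr_of_fixed (hr : r < r')
    (HB : ∀ x y : W (fixedAlg α), (∀ s, IsState (W.u _) s → s x + r * reg s (cls e) < s y) → x ≤ y)
    (p q : W A) (hpq : ∀ s, IsState (W.u A) s →
      s p + r' * reg (s.comp (inW α)) (cls e) < s q) : p ≤ q := by
  obtain ⟨σ, hσ, hσ'⟩ := exists_reg_lower hA hinf hα he he0
  obtain ⟨ρ, hρ, hρ'⟩ : ∃ ρ : ℝ, 0 < ρ ∧ r' = r + 3 * ρ := ⟨(r' - r) / 3, by linarith, by ring⟩
  have hk : ∀ s, IsState (W.u (fixedAlg α)) s → reg s (cls e) ≤ k := fun s hs =>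
    reg_le fun g hg => by
      have := hs.mono (hg.le.trans (cls_le_card he))
      rwa [hs.nsmul_unit, Fintype.card_fin] at this
  have HB' : ∀ x y : W (fixedAlg α), (∀ s, IsState (W.u _) s → s x + r * k < s y) → x ≤ y :=
    fun x y hxy => HB x y fun s hs => by
      linarith [hxy s hs, mul_le_mul_of_nonneg_left (hk s hs) h0]
  have hFB : FIN (fixedAlg α) := fun ε hε => by
    obtain ⟨M, hM⟩ := exists_nat_gt ((1 + r * k) / ε)
    rw [div_lt_iff₀ hε] at hM
    refine ⟨M, 1, one_pos, fun x c hx hc => HB' _ _ fun s hs => ?_⟩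
    rw [map_nsmul, nsmul_eq_mul]
    have := mul_le_mul_of_nonneg_left (hc s hs).le (Nat.cast_nonneg (α := ℝ) M)
    linarith [hx s hs]
  have hTiB := tiny_fixed hA hinf hα
  have hFA := fin_of_fixed hA hinf hα (shrink_of_fin hTiB hFB (pos_fixed hA hinf hα)) HB'
  have hθ := mul_pos hρ hσ
  have h2 : 0 < r + 2 * ρ := by linarith
  obtain ⟨w, ⟨M, hM⟩, hw⟩ := hTiB _ hθ
  let h : ℕ → (W (fixedAlg α) →+ ℝ) → ℝ := fun i =>
    trS (cfc (fun t => (r + 2 * ρ) * (fT (i + 1) t - fT i t)) e)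
  have key : ∀ s, IsState (W.u (fixedAlg α)) s →
      (∀ n, ∑ i ∈ Finset.range n, h i s ≤ (r + 2 * ρ) * reg s (cls e)) ∧
      ∀ v, (∀ n, ∑ i ∈ Finset.range n, h i s ≤ v) → (r + 2 * ρ) * reg s (cls e) ≤ v :=
    fun s hs => by
      have H := (state_qt hs).choose_spec
      have hQ := (state_qt hs).choose.isQ k
      have e1 := dimS_eq_reg he he (Φ := AddMonoidHom.id _) monotone_id (fun _ => rfl) hs.mono H
      rw [AddMonoidHom.comp_id] at e1
      simp only [h, trS, dif_pos hs, sum_fT hQ, ← e1]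
      exact ⟨fun n => mul_le_mul_of_nonneg_left (hQ.le_dimS he (fT_test n)) h2.le,
        fun v hv => (le_div_iff₀' h2).1 (dimS_le_fT hQ he fun n => (le_div_iff₀' h2).2 (hv n))⟩
  refine seq_leF (t := fun s => r' * reg (s.comp (inW α)) (cls e)) (w₀ := inW α w) ⟨M, ?_⟩
    (fun c hc => ?_) p q hpq
  · have := inv_inW_mono (α := α) hM
    rwa [map_nsmul, inv_inW_u] at this
  · obtain ⟨Y, y1, y2⟩ := ser_main hA hinf hFA hFB hα HB' (h := h) (R := (r + 2 * ρ) * k)
      (fun i => approx_trS (cfc_nonneg fun t _ => mul_nonneg h2.le (sub_nonneg.2 (fT_mono i t))))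
      hθ (fun s hs n => ((key s hs).1 n).trans (mul_le_mul_of_nonneg_left (hk s hs) h2.le))
      (c := c) fun s hs n => by
        have b1 := (key _ (inv_state_in hs)).1 n
        have b2 := mul_le_mul_of_nonneg_left (hσ' _ (inv_state_in hs)) hρ.le
        have b3 := hc s hs
        rw [hρ'] at b3
        linarith
    refine (inv_inW_mono (HB w Y fun s hs => ?_)).trans y1
    have b1 := (key s hs).2 (s Y + ρ * σ) fun n => by linarith [y2 s hs n]
    have b2 := mul_le_mul_of_nonneg_left (hσ' s hs) hρ.le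
    linarith [hw s hs]

theorem cr_crossed (hr : r < Fintype.card G * r')
    (H : ∀ x y : W A, (∀ s, IsState (W.u A) s → s x + r * reg (s.comp (inW α)) (cls e) < s y) →
      x ≤ y) (x' x y : W (crossed α)) (hx : LL x' x) (hab : ∀ s, IsState (W.u _) s → s x + r' *
      reg (s.comp ((Wmap1 (piD α).toNonUnitalStarAlgHom).comp (inW α))) (cls e) < s y) :
    x' ≤ y := by
  have hn : (0 : ℝ) < Fintype.card G := Nat.cast_pos.2 Fintype.card_pos
  have hu : Wmap (jC α) (W.u _) = Fintype.card G • W.u A := by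
    rw [W.u, Wmap_cls1 _ zero_le_one, jC_one, cls_one]
  obtain ⟨σ, hσ, hσ'⟩ := exists_reg_lower hA hinf hα he he0
  refine crossed_step hA hinf hα (F := fun s => r * reg (s.comp (inW α)) (cls e))
    (fun s hs => mul_nonneg h0 (hσ.le.trans (hσ' _ (inv_state_in hs)))) H
    (mul_pos (sub_pos.2 hr) hσ) hx fun s hs => ?_
  have h2 := hab ((AddMonoidHom.mulLeft (Fintype.card G : ℝ)⁻¹).comp (s.comp (Wmap (jC α))))
    ⟨fun x y hxy => mul_le_mul_of_nonneg_left (hs.mono (Wmap_mono _ hxy)) (inv_nonneg.2 hn.le),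
      by
        change _ * s (Wmap (jC α) _) = 1
        rw [hu, hs.nsmul_unit, inv_mul_cancel₀ hn.ne']⟩
  have e1 : ((AddMonoidHom.mulLeft (Fintype.card G : ℝ)⁻¹).comp (s.comp (Wmap (jC α)))).comp
      ((Wmap1 (piD α).toNonUnitalStarAlgHom).comp (inW α)) = s.comp (inW α) := by
    ext g
    change _ * s (Wmap (jC α) (piW α g)) = s (inW α g)
    rw [jC_piD, map_nsmul, nsmul_eq_mul, inv_mul_cancel_left₀ hn.ne']
  rw [e1] at h2
  change _ * s (Wmap (jC α) x) + _ < _ * s (Wmap (jC α) y) at h2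
  rw [lt_inv_mul_iff₀ hn, mul_add, mul_inv_cancel_left₀ hn.ne'] at h2
  have h3 := mul_le_mul_of_nonneg_left (hσ' _ (inv_state_in hs)) (sub_pos.2 hr).le
  linarith

theorem cr_fixed (H : ∀ x y : W (crossed α), (∀ s, IsState (W.u _) s → s x + r *
      reg (s.comp ((Wmap1 (piD α).toNonUnitalStarAlgHom).comp (inW α))) (cls e) < s y) → x ≤ y)
    (x y : W (fixedAlg α))
    (hy : ∀ s, IsState (W.u _) s → s x + Fintype.card G * r * reg s (cls e) < s y) : x ≤ y :=
  compress' <| H _ _ fun s hs => by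
    have hn : (0 : ℝ) < Fintype.card G := Nat.cast_pos.2 Fintype.card_pos
    have h1 := one_le_card_mul_state hA hinf hα hs
    have h2 := hs.nonneg W.zero_le (cls1 (proj α))
    have h3 : 0 < s (cls1 (proj α)) := lt_of_le_of_ne h2 fun h => by
      rw [← h, mul_zero] at h1
      linarith
    have hσ : IsState (W.u (fixedAlg α))
        ((AddMonoidHom.mulLeft (s (cls1 (proj α)))⁻¹).comp (s.comp (Wmap1 (psiD α)))) :=
      ⟨fun x y hxy => mul_le_mul_of_nonneg_left (hs.mono (Wmap1_mono _ hxy)) (inv_nonneg.2 h2), by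
        change _ * s (Wmap1 (psiD α) (cls1 1)) = 1
        rw [Wmap1_cls1 _ zero_le_one, psiD_one, inv_mul_cancel₀ h3.ne']⟩
    have h4 := hy _ hσ
    change _ * s (Wmap1 (psiD α) x) + _ < _ * s (Wmap1 (psiD α) y) at h4
    rw [lt_inv_mul_iff₀ h3, mul_add, mul_inv_cancel_left₀ h3.ne'] at h4
    have h5 := reg_le (s := s.comp ((Wmap1 (piD α).toNonUnitalStarAlgHom).comp (inW α)))
      (g := cls e) (c := Fintype.card G * (s (cls1 (proj α)) * reg _ (cls e))) fun g' hg => by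
        obtain ⟨g, g1, g2⟩ := hg.interp
        have b1 := desc_state hA hinf hα (y := Fintype.card G • Wmap1 (psiD α) g)
          ((inv_LL_in g1).map (piD α)) (by
            rw [jC_piD, map_nsmul]
            exact nsmul_le_nsmul_right (le_jC_psiD g) _) hs
        rw [map_nsmul, nsmul_eq_mul] at b1
        exact b1.trans (mul_le_mul_of_nonneg_left
          ((inv_mul_le_iff₀ h3).1 (le_reg hσ.mono g2)) hn.le)
    linarith [mul_le_mul_of_nonneg_left h5 h0]

end Three

theorem rcRel_eq (hA : IsSimple A) (hinf : ¬FiniteDimensional ℂ A) (hα : WeakTracialRokhlin α)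
    {e : Mn (fixedAlg α) k} (he : 0 ≤ e) (he0 : e ≠ 0) :
    rcRel e = rcRel (e.map fun x => (x : A)) ∧ rcRel (e.map fun x => piC α x) =
      (Fintype.card G : ℝ≥0∞)⁻¹ * rcRel (e.map fun x => (x : A)) := by
  obtain ⟨e, rfl⟩ := CStarMatrix.ofMatrix.surjective e
  replace he : 0 ≤ e := he
  replace he0 : e ≠ 0 := he0
  have hn : (0 : ℝ) < Fintype.card G := Nat.cast_pos.2 Fintype.card_pos
  have n0 : (Fintype.card G : ℝ≥0∞) ≠ 0 := Nat.cast_ne_zero.2 Fintype.card_ne_zero
  have nt : (Fintype.card G : ℝ≥0∞) ≠ ⊤ := ENNReal.natCast_ne_top _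
  change rcRel (CStarMatrix.ofMatrix e) =
      rcRel (CStarMatrix.ofMatrix (e.map (fixedAlg α).subtype)) ∧
    rcRel (CStarMatrix.ofMatrix ((e.map (fixedAlg α).subtype).map (piD α))) =
      _ * rcRel (CStarMatrix.ofMatrix (e.map (fixedAlg α).subtype))
  have e1 : 0 ≤ e.map (fixedAlg α).subtype := map_nonneg (mapHom (fixedAlg α).subtype) he
  have e2 : 0 ≤ (e.map (fixedAlg α).subtype).map (piD α) := map_nonneg (mapHom (piD α)) e1
  have c1 : ∀ δ, inW α (cls (cut δ e)) = cls (cut δ (e.map (fixedAlg α).subtype)) := fun δ => by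
    rw [← map_cut _ _ (.of_nonneg he)]
    exact Wmap1_cls _ (cut_nonneg _ _)
  have c2 : ∀ δ, ((Wmap1 (piD α).toNonUnitalStarAlgHom).comp (inW α)) (cls (cut δ e)) =
      cls (cut δ ((e.map (fixedAlg α).subtype).map (piD α))) := fun δ => by
    rw [AddMonoidHom.comp_apply, c1, ← map_cut _ _ (.of_nonneg e1)]
    exact Wmap1_cls _ (cut_nonneg _ _)
  have m2 : Monotone ((Wmap1 (piD α).toNonUnitalStarAlgHom).comp (inW α)) :=
    (Wmap1_mono _).comp inv_inW_mono
  have a1 : rcRel (CStarMatrix.ofMatrix (e.map (fixedAlg α).subtype)) ≤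
      rcRel (CStarMatrix.ofMatrix e) := le_iInf fun _ => le_iInf fun h0 => le_iInf fun h1 =>
    rcRel_le_of_forall h0 fun _ hr => relComparison_of_states he e1 inv_inW_mono c1
      fun p' p q hp hpq => hp.le.trans (cr_of_fixed hA hinf hα he he0 h0 hr (fun x y hxy =>
        h1.le_of_states he he (Φ := AddMonoidHom.id _) monotone_id (fun _ => rfl) hxy) p q hpq)
  have a2 : Fintype.card G * rcRel (CStarMatrix.ofMatrix ((e.map (fixedAlg α).subtype).map
      (piD α))) ≤ rcRel (CStarMatrix.ofMatrix (e.map (fixedAlg α).subtype)) :=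
    le_iInf fun r => le_iInf fun h0 => le_iInf fun h => by
      have h1 := rcRel_le_of_forall (div_nonneg h0 hn.le) fun r' hr =>
        relComparison_of_states he e2 m2 c2 (cr_crossed hA hinf hα he he0 h0
          (by rwa [div_lt_iff₀' hn] at hr) fun x y hxy => h.le_of_states he e1 inv_inW_mono c1 hxy)
      refine (mul_le_mul_right h1 _).trans (le_of_eq ?_)
      rw [← ENNReal.ofReal_natCast, ← ENNReal.ofReal_mul hn.le, mul_div_cancel₀ _ hn.ne']
  have a3 : (Fintype.card G : ℝ≥0∞)⁻¹ * rcRel (CStarMatrix.ofMatrix e) ≤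
      rcRel (CStarMatrix.ofMatrix ((e.map (fixedAlg α).subtype).map (piD α))) :=
    le_iInf fun r => le_iInf fun h0 => le_iInf fun h => by
      have h1 : rcRel (CStarMatrix.ofMatrix e) ≤ ENNReal.ofReal (Fintype.card G * r) :=
        iInf_le_of_le _ (iInf_le_of_le (mul_nonneg hn.le h0) (iInf_le _
          (relComparison_of_states he he (Φ := AddMonoidHom.id _) monotone_id (fun _ => rfl)
            fun p' p q hp hpq => hp.le.trans (cr_fixed hA hinf hα he he0 h0
              (fun x y hxy => h.le_of_states he e2 m2 c2 hxy) p q hpq))))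
      rw [ENNReal.ofReal_mul hn.le, ENNReal.ofReal_natCast] at h1
      exact (ENNReal.inv_mul_le_iff n0 nt).2 h1
  exact ⟨le_antisymm (((ENNReal.inv_mul_le_iff n0 nt).1 a3).trans a2) a1,
    le_antisymm ((ENNReal.mul_le_iff_le_inv n0 nt).1 a2) ((mul_le_mul_right a1 _).trans a3)⟩

end Pool.Agent.Lib.MP_f90f6c_an.H50
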