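import Pool.Agent.Lib.MP_f90f6c_an.H35Main

/-!
An invariant lower bound whose rank dominates a series of continuous affine functions.
-/

namespace Pool.Agent.Lib.MP_f90f6c_an.H50

open Filter Topology Matrix

set_option linter.unusedSectionVars false

section Gen

variable {D : Type*} [CStarAlgebra D] [PartialOrder D] [StarOrderedRing D]
variable {m : Type} [Fintype m] [DecidableEq m]

/-- `h` is a uniform limit of rational multiples of ranks -/
def Approx (h : (W D →+ ℝ) → ℝ) : Prop := ∀ η : ℝ, 0 < η → ∃ (N : ℕ) (L' L : W D), 0 < N ∧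
  LL L' L ∧ ∀ s, IsState (W.u D) s → s L / N ≤ h s ∧ h s - η ≤ s L' / N

/-- a class below `κ` is placed inside `κ`, with an orthogonal complement -/
lemma ser_place {κ : Matrix m m D} (hκ : 0 ≤ κ) {z' z : W D} (h : LL z' z) (hz : z ≤ cls κ) :
    ∃ a κ' : Matrix m m D, 0 ≤ a ∧ 0 ≤ κ' ∧ Dom a κ ∧ Dom κ' κ ∧ a * κ' = 0 ∧ z' ≤ cls a ∧
      LL (cls a) z ∧ cls κ ≤ cls κ' + z := by
  obtain ⟨k, b, ε, hb, hε, h1, h2⟩ := h
  obtain ⟨x, hx, hd⟩ := slot_factor hb hκ (N := 1) (by simpa using h2.trans hz) (half_pos hε)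
    (f := fun t => max (t - ε / 2) 0) (by fun_prop) (fun _ => le_max_right _ _)
    fun t ht => max_eq_right (by linarith)
  rw [Fin.sum_univ_one, ← cut] at hx
  have h0 := mul_conjT_self_nonneg (x 0)
  have e : cls (x 0 * (x 0)ᴴ) = cls (cut (ε / 2) b) := by rw [← cls_conjT_mul, hx]
  have h3 : cls (x 0 * (x 0)ᴴ) ≤ z := e.trans_le ((LL.cut hb (half_pos hε)).le.trans h2)
  obtain ⟨δ, hδ, h4⟩ := ((LL.cut_cut hb (half_lt_self hε)).mono h1 e.ge).exists_cut h0
  obtain ⟨κ', k1, k2, k3, -, k4⟩ := exists_compl_dom hκ h0 (hd 0) hδ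
  exact ⟨_, κ', cut_nonneg _ _, k1, (Dom.of_le (cut_le_self hδ.le h0)).trans (hd 0), k2, k3, h4,
    (LL.cut h0 hδ).mono le_rfl h3, k4.trans (add_le_add le_rfl h3)⟩

end Gen

variable {G : Type*} [Group G] [Fintype G] [DecidableEq G] {A : Type*} [CStarAlgebra A]
  [PartialOrder A] [StarOrderedRing A] {α : G →* (A ≃⋆ₐ[ℂ] A)}

lemma le_of_bigG (hA : IsSimple A) (hinf : ¬FiniteDimensional ℂ A) (hF : FIN A)
    (hα : WeakTracialRokhlin α) {N : ℕ} (hN : 0 < N) {g' g : W (fixedAlg α)} (hg : LL g' g)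
    {c : W A} (hc : ∀ s, IsState (W.u A) s → s (inW α g) / N ≤ s c) {η : ℝ} (hη : 0 < η) :
    ∃ y : W (fixedAlg α), inW α y ≤ c ∧ ∀ s, IsState (W.u _) s → s g' / N - η ≤ s y := by
  have hN' : (0 : ℝ) < N := Nat.cast_pos.2 hN
  obtain ⟨K, hK⟩ := W.exists_le_nsmul g
  obtain ⟨h, h1, h2⟩ := hg.compl hK
  obtain ⟨y, b1, b2⟩ := le_of_bigD hA hinf hF hα hN (T := K / N - η) (T' := K / N) (by linarith)
    (x := c) (h := h) fun s hs => by
      have b3 := hs.mono (inv_inW_mono (α := α) h2)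
      rw [map_nsmul, inv_inW_u, hs.nsmul_unit, map_add, map_add] at b3
      have b4 := div_le_div_of_nonneg_right b3 hN'.le
      rw [add_div] at b4
      linarith [hc s hs]
  refine ⟨y, b2, fun s hs => ?_⟩
  have b3 := hs.mono h1
  rw [hs.nsmul_unit, map_add] at b3
  have b4 := div_le_div_of_nonneg_right b3 hN'.le
  rw [add_div] at b4
  linarith [b1 s hs]

/-- an invariant piece with rank close to a given function -/
lemma ser_piece (hA : IsSimple A) (hinf : ¬FiniteDimensional ℂ A) (hF : FIN A)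
    (hFB : FIN (fixedAlg α)) (hα : WeakTracialRokhlin α) {h : (W (fixedAlg α) →+ ℝ) → ℝ}
    (hh : Approx h) {c : W A} (hc : ∀ s, IsState (W.u A) s → h (s.comp (inW α)) ≤ s c) {η : ℝ}
    (hη : 0 < η) : ∃ z' z : W (fixedAlg α), LL z' z ∧ inW α z ≤ c ∧
      ∀ s, IsState (W.u _) s → h s - η ≤ s z' ∧ s z ≤ h s + η := by
  have h4 : 0 < η / 4 := by positivity
  obtain ⟨N, L', L, hN, hL, H⟩ := hh _ h4
  have hN' : (0 : ℝ) < N := Nat.cast_pos.2 hN
  obtain ⟨L₁, l1, l2⟩ := hL.interp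
  obtain ⟨L₂, l3, l4⟩ := l2.interp
  obtain ⟨y, y1, y2⟩ := le_of_bigG hA hinf hF hα hN l4
    (fun s hs => (H _ (inv_state_in hs)).1.trans (hc s hs)) h4
  obtain ⟨v', v, v1, -, v2⟩ := shrink_weak (tiny_fixed hA hinf hα) hFB l3 (inv_nonneg.2 hN'.le)
    (inv_le_one_of_one_le₀ (Nat.one_le_cast.2 hN)) h4
  obtain ⟨e', e, a1, a2, a3, a4⟩ := ai_two (tiny_fixed hA hinf hα) hFB (c₁ := y) (c₂ := v) (g := 0)
    (t := η / 4) l1 (inv_nonneg.2 hN'.le) le_rfl h4
    (fun s hs => by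
      have := div_le_div_of_nonneg_right (hs.mono l3.le) hN'.le
      rw [inv_mul_eq_div]
      linarith [y2 s hs])
    fun s hs => by linarith [(v2 s hs).1, hs.mono v1.le]
  refine ⟨e', e, a1, (inv_inW_mono a2).trans y1, fun s hs => ⟨?_, ?_⟩⟩
  · have := a4 s hs
    rw [inv_mul_eq_div] at this
    linarith [(H s hs).2]
  · have b1 := (v2 s hs).2
    have b2 := div_le_div_of_nonneg_right (hs.mono l4.le) hN'.le
    rw [inv_mul_eq_div] at b1
    linarith [(H s hs).1, hs.mono a3]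

/-- the state of the construction after `n` steps -/
structure SerInv (h : ℕ → (W (fixedAlg α) →+ ℝ) → ℝ) (η : ℕ → ℝ) (c : W A) (K n : ℕ)
    (p : W A × Matrix (Fin K) (Fin K) (fixedAlg α) × Matrix (Fin K) (Fin K) (fixedAlg α)) :
    Prop where
  k0 : 0 ≤ p.2.1
  s0 : 0 ≤ p.2.2
  orth : p.2.2 * p.2.1 = 0
  le : inW α (cls p.2.2) + p.1 ≤ c
  rc : ∀ s, IsState (W.u A) s →
    s c - ∑ i ∈ Finset.range n, (h i (s.comp (inW α)) + η i) ≤ s p.1
  rk : ∀ s, IsState (W.u _) s → K - ∑ i ∈ Finset.range n, (h i s + η i) ≤ s (cls p.2.1)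
  rs : ∀ s, IsState (W.u _) s → ∑ i ∈ Finset.range n, (h i s - η i) ≤ s (cls p.2.2)

theorem ser_main (hA : IsSimple A) (hinf : ¬FiniteDimensional ℂ A) (hF : FIN A)
    (hFB : FIN (fixedAlg α)) (hα : WeakTracialRokhlin α) {r₀ : ℝ}
    (HB : ∀ x y : W (fixedAlg α), (∀ s, IsState (W.u _) s → s x + r₀ < s y) → x ≤ y)
    {h : ℕ → (W (fixedAlg α) →+ ℝ) → ℝ} (hh : ∀ i, Approx (h i)) {R θ : ℝ} (hθ : 0 < θ)
    (hR : ∀ s, IsState (W.u _) s → ∀ n, ∑ i ∈ Finset.range n, h i s ≤ R) {c : W A}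
    (hc : ∀ s, IsState (W.u A) s → ∀ n, ∑ i ∈ Finset.range n, h i (s.comp (inW α)) + θ ≤ s c) :
    ∃ Y : W (fixedAlg α), inW α Y ≤ c ∧
      ∀ s, IsState (W.u _) s → ∀ n, ∑ i ∈ Finset.range n, h i s - θ ≤ s Y := by
  obtain ⟨K, hK⟩ := exists_nat_gt (R + θ + r₀)
  let η : ℕ → ℝ := fun i => θ / 2 / 2 ^ i
  have hη : ∀ i, 0 < η i := fun i => by positivity
  have hη' : ∀ n, ∑ i ∈ Finset.range n, η i ≤ θ := fun n =>
    (hasSum_geometric_two' θ).summable.sum_le_tsum _ (fun i _ => (hη i).le) |>.trans_eq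
      (hasSum_geometric_two' θ).tsum_eq
  have step : ∀ n (p : {p // SerInv h η c K n p}), ∃ q : {q // SerInv h η c K (n + 1) q},
      p.1.2.2 ≤ q.1.2.2 ∧ dist p.1.2.2 q.1.2.2 ≤ 2 / 2 / 2 ^ n := by
    rintro n ⟨⟨c', κ, S⟩, I⟩
    obtain ⟨z', z, z1, z2, z3⟩ := ser_piece hA hinf hF hFB hα (hh n) (c := c') (fun s hs => by
      have b1 := I.rc s hs
      have b2 := hc s hs (n + 1)
      rw [Finset.sum_add_distrib] at b1
      rw [Finset.sum_range_succ] at b2
      linarith [hη' n]) (hη n)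
    have z4 : z ≤ cls κ := HB _ _ fun s hs => by
      have b1 := I.rk s hs
      have b2 := hR s hs (n + 1)
      have b3 := hη' (n + 1)
      rw [Finset.sum_add_distrib] at b1
      rw [Finset.sum_range_succ] at b2 b3
      linarith [(z3 s hs).2]
    obtain ⟨a, κ', a0, k0, d1, d2, o1, a1, a2, k1⟩ := ser_place I.k0 z1 z4
    obtain ⟨c'', c1, c2⟩ := (inv_LL_in a2).compl z2
    have hl : (0 : ℝ) < 1 / 2 ^ n / (‖a‖ + 1) := by positivity
    have hla := smul_nonneg hl.le a0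
    have o2 : S * a = 0 := d1.mul_eq_zero' a0 I.orth
    refine ⟨⟨⟨c'', κ', S + (1 / 2 ^ n / (‖a‖ + 1) : ℝ) • a⟩, k0, add_nonneg I.s0 hla, ?_, ?_,
      fun s hs => ?_, fun s hs => ?_, fun s hs => ?_⟩, le_add_of_nonneg_right hla, ?_⟩
    · change (S + _) * κ' = 0
      rw [add_mul, smul_mul_assoc, o1, smul_zero, add_zero]
      exact d2.mul_eq_zero' k0 I.orth
    · have b1 := inv_inW_mono (α := α) (cls_add_le I.s0 hla)
      rw [cls_smul hl a0, map_add] at b1
      refine (add_le_add b1 le_rfl).trans (le_trans ?_ I.le)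
      rw [add_assoc]
      exact add_le_add le_rfl c1
    · have b1 := hs.mono c2
      rw [map_add] at b1
      rw [Finset.sum_range_succ]
      have b2 := (z3 _ (inv_state_in hs)).2
      rw [AddMonoidHom.comp_apply] at b2
      linarith [I.rc s hs]
    · have b1 := hs.mono k1
      rw [map_add] at b1
      rw [Finset.sum_range_succ]
      linarith [I.rk s hs, (z3 s hs).2]
    · have b1 := hs.mono (cls_add_of_orth I.s0 hla (by rw [mul_smul_comm, o2, smul_zero]))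
      rw [cls_smul hl a0, map_add] at b1
      rw [Finset.sum_range_succ]
      linarith [I.rs s hs, (z3 s hs).1, hs.mono a1]
    · change dist S (S + _) ≤ _
      rw [dist_eq_norm, sub_add_cancel_left, norm_neg, norm_smul, Real.norm_of_nonneg hl.le,
        div_self two_ne_zero, div_mul_eq_mul_div, div_le_iff₀ (by positivity)]
      exact mul_le_mul_of_nonneg_left (le_add_of_nonneg_right zero_le_one) (by positivity)
  choose F hF1 hF2 using step
  have I0 : SerInv h η c K 0 (c, 1, 0) :=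
    ⟨mone_nonneg, le_rfl, zero_mul _, by simp [cls_zero], fun s hs => by simp,
      fun s hs => by simp [cls_one, hs.nsmul_unit], fun s hs => by simp [cls_zero]⟩
  let P : ∀ n, {p // SerInv h η c K n p} := fun n => Nat.rec ⟨_, I0⟩ (fun n p => F n p) n
  let S : ℕ → Matrix (Fin K) (Fin K) (fixedAlg α) := fun n => (P n).1.2.2
  have hmono : Monotone S := monotone_nat_of_le_succ fun n => hF1 n (P n)
  obtain ⟨Y, hY⟩ := cauchySeq_tendsto_of_complete
    (cauchySeq_of_le_geometric_two (f := S) fun n => hF2 n (P n))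
  have hle : ∀ n, S n ≤ Y := fun n =>
    ge_of_tendsto hY (eventually_atTop.2 ⟨n, fun _ hn => hmono hn⟩)
  have hY0 : 0 ≤ Y := (P 0).2.s0.trans (hle 0)
  refine ⟨cls Y, le_of_forall_LL fun x' hx => ?_, fun s hs n => ?_⟩
  · obtain ⟨y', y1, y2⟩ := inv_LL_lift hx
    obtain ⟨δ, hδ, y3⟩ := y1.exists_cut hY0
    obtain ⟨n, hn⟩ := ((tendsto_iff_norm_sub_tendsto_zero.1 hY).eventually (gt_mem_nhds hδ)).exists
    rw [norm_sub_rev] at hn
    refine y2.trans ((inv_inW_mono (y3.trans (cls_cut_le_of_near (.of_nonneg hY0) (P n).2.s0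
      hn))).trans (le_trans ?_ (P n).2.le))
    exact le_add_of_nonneg_right (W.zero_le _)
  · have b1 := (P n).2.rs s hs
    rw [Finset.sum_sub_distrib] at b1
    linarith [hη' n, hs.mono (cls_mono (P n).2.s0 (hle n))]

end Pool.Agent.Lib.MP_f90f6c_an.H50
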