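import Pool.Agent.Lib.MP_f90f6c_an.H35Main

/-!
Q1 for every invariant gap function. For an action of a finite group with the weak tracial Rokhlin
property on an infinite-dimensional simple unital C⋆-algebra `A` and a nonzero positive `x` in
`A^α`, the radius of comparison relative to `τ ↦ τ(x)` is the same in `A^α` and in `A`, and is
divided by `card G` in `C⋆(G, A, α)`. The case `x = 1` is Q1 (theorem `q1` below).
-/

namespace Pool.Agent.Lib.MP_f90f6c_an.H35Weighted

open Pool.Agent.Lib.MP_f90f6c_an.H50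
open scoped ENNReal

theorem result {G : Type*} [Group G] [Fintype G] [DecidableEq G]
    {A : Type*} [CStarAlgebra A] [PartialOrder A] [StarOrderedRing A]
    (α : G →* (A ≃⋆ₐ[ℂ] A)) (hsimple : IsSimple A) (hinf : ¬FiniteDimensional ℂ A)
    (hα : WeakTracialRokhlin α) (x : fixedAlg α) (hx : 0 ≤ x) (hx0 : x ≠ 0) :
    rcW x = rcW (x : A) ∧ rcW (piC α x) = (Fintype.card G : ℝ≥0∞)⁻¹ * rcW (x : A) :=
  rcW_eq hsimple hinf hα hx hx0

/-- The case `x = 1`: the two equalities of Q1. -/
theorem q1 {G : Type*} [Group G] [Fintype G] [DecidableEq G]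
    {A : Type*} [CStarAlgebra A] [PartialOrder A] [StarOrderedRing A]
    (α : G →* (A ≃⋆ₐ[ℂ] A)) (hsimple : IsSimple A) (hinf : ¬FiniteDimensional ℂ A)
    (hα : WeakTracialRokhlin α) :
    rc (fixedAlg α) = rc A ∧ rc (crossed α) = (Fintype.card G : ℝ≥0∞)⁻¹ * rc A := by
  have := hsimple.1
  have h := result α hsimple hinf hα 1 zero_le_one one_ne_zero
  have e : piC α ((1 : fixedAlg α) : A) = 1 := map_one (piD α)
  rwa [e, OneMemClass.coe_one, rcW_one, rcW_one, rcW_one] at h

end Pool.Agent.Lib.MP_f90f6c_an.H35Weighted
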