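import Mathlib

/-!
Bounded families modulo null families along a filter.
-/

namespace Pool.Agent.Lib.MP_f90f6c_an.H50

open Filter Topology Asymptotics Matrix

variable {A : Type*} [NormedRing A] {I : Type*} (l : Filter I)

variable (A) in
/-- eventually bounded families -/
def Bd : Subring (I → A) where
  carrier := {u | u =O[l] fun _ => (1 : ℝ)}
  mul_mem' := fun {u v} hu hv => by simpa using IsBigO.mul hu hv
  one_mem' := isBigO_const_const _ one_ne_zero _
  add_mem' := fun hu hv => IsBigO.add hu hv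
  zero_mem' := isBigO_const_const _ one_ne_zero _
  neg_mem' := fun hu => IsBigO.neg_left hu

variable (A) in
/-- asymptotic equality -/
def nullCon : RingCon (Bd A l) where
  r u v := (fun i => u.1 i - v.1 i) =o[l] fun _ => (1 : ℝ)
  iseqv := ⟨fun u => by simpa only [sub_self] using isLittleO_zero _ _, fun h => h.symm, fun h1 h2 => h1.triangle h2⟩
  mul' := fun {u u' v v'} h1 h2 => by
    have h3 := (h1.mul_isBigO v.2).add (IsBigO.mul_isLittleO u'.2 h2)
    simp only [mul_one] at h3
    refine h3.congr_left fun i => ?_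
    simp [sub_mul, mul_sub]
  add' := fun {u u' v v'} h1 h2 => (h1.add h2).congr_left fun i => by
    simp only [Subring.coe_add, Pi.add_apply]
    abel

variable (A) in
/-- the quotient ring -/
abbrev Quo := (nullCon A l).Quotient

/-- `u` represents `q` -/
def Rep (u : I → A) (q : Quo A l) : Prop := ∃ h : u ∈ Bd A l, (nullCon A l).mk' ⟨u, h⟩ = q

variable (A) in
/-- constant families -/
def kap : A →+* Quo A l :=
  (nullCon A l).mk'.comp ((Pi.constRingHom I A).codRestrict (Bd A l) fun _ =>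
    isBigO_const_const _ one_ne_zero _)

variable {l}

lemma Rep.const (a : A) : Rep l (fun _ => a) (kap A l a) :=
  ⟨isBigO_const_const _ one_ne_zero _, rfl⟩

lemma exists_rep_of_bound {u : I → A} {C : ℝ} (h : ∀ i, ‖u i‖ ≤ C) : ∃ q, Rep l u q :=
  ⟨_, IsBigO.of_bound C (Eventually.of_forall fun i => by simpa using h i), rfl⟩

lemma Rep.add {u v : I → A} {p q : Quo A l} (hu : Rep l u p) (hv : Rep l v q) :
    Rep l (fun i => u i + v i) (p + q) := by
  obtain ⟨hu, rfl⟩ := hu
  obtain ⟨hv, rfl⟩ := hv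
  exact ⟨add_mem hu hv, by rw [← map_add]; rfl⟩

lemma Rep.mul {u v : I → A} {p q : Quo A l} (hu : Rep l u p) (hv : Rep l v q) :
    Rep l (fun i => u i * v i) (p * q) := by
  obtain ⟨hu, rfl⟩ := hu
  obtain ⟨hv, rfl⟩ := hv
  exact ⟨mul_mem hu hv, by rw [← map_mul]; rfl⟩

lemma Rep.zero : Rep l (fun _ => (0 : A)) 0 := by simpa using Rep.const (l := l) (0 : A)

lemma Rep.one : Rep l (fun _ => (1 : A)) 1 := by simpa using Rep.const (l := l) (1 : A)

lemma Rep.pow {u : I → A} {p : Quo A l} (hu : Rep l u p) (k : ℕ) :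
    Rep l (fun i => u i ^ k) (p ^ k) := by
  induction k with
  | zero => simpa using Rep.one
  | succ k ih => simpa [pow_succ] using ih.mul hu

lemma Rep.sum {ι : Type*} (s : Finset ι) {u : ι → I → A} {p : ι → Quo A l}
    (h : ∀ j, Rep l (u j) (p j)) : Rep l (fun i => ∑ j ∈ s, u j i) (∑ j ∈ s, p j) := by
  classical
  induction s using Finset.induction_on with
  | empty => simpa using Rep.zero
  | insert j s hj ih => simpa [Finset.sum_insert hj] using (h j).add ih

lemma Rep.tendsto {u v : I → A} {p : Quo A l} (hu : Rep l u p) (hv : Rep l v p) :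
    Tendsto (fun i => u i - v i) l (𝓝 0) := by
  obtain ⟨hu, rfl⟩ := hu
  obtain ⟨hv, h⟩ := hv
  exact (isLittleO_one_iff ℝ).1 ((nullCon A l).eq.1 h.symm)

lemma Rep.of_tendsto {u v : I → A} {p : Quo A l} (hu : Rep l u p)
    (h : Tendsto (fun i => v i - u i) l (𝓝 0)) : Rep l v p := by
  obtain ⟨hu, rfl⟩ := hu
  have h1 := (isLittleO_one_iff ℝ).2 h
  exact ⟨(h1.isBigO.add hu).congr_left fun i => sub_add_cancel _ _, (nullCon A l).eq.2 h1⟩

lemma Rep.unique {u v : I → A} {p q : Quo A l} (hu : Rep l u p) (hv : Rep l v q)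
    (h : Tendsto (fun i => v i - u i) l (𝓝 0)) : p = q := by
  obtain ⟨_, h1⟩ := hu.of_tendsto h
  obtain ⟨_, h2⟩ := hv
  exact h1.symm.trans h2

variable {m n p : Type*}

variable (l) in
/-- entrywise representation -/
def RepM (U : I → Matrix m n A) (M : Matrix m n (Quo A l)) : Prop :=
  ∀ j k, Rep l (fun i => U i j k) (M j k)

lemma RepM.const (a : Matrix m n A) : RepM l (fun _ => a) (a.map (kap A l)) :=
  fun j k => Rep.const (a j k)

lemma RepM.add {U V : I → Matrix m n A} {M N : Matrix m n (Quo A l)} (hU : RepM l U M)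
    (hV : RepM l V N) : RepM l (fun i => U i + V i) (M + N) :=
  fun j k => (hU j k).add (hV j k)

lemma RepM.mul [Fintype n] {U : I → Matrix m n A} {V : I → Matrix n p A}
    {M : Matrix m n (Quo A l)} {N : Matrix n p (Quo A l)} (hU : RepM l U M) (hV : RepM l V N) :
    RepM l (fun i => U i * V i) (M * N) :=
  fun j k => Rep.sum Finset.univ fun r => (hU j r).mul (hV r k)

lemma RepM.tendsto {U V : I → Matrix m n A} {M : Matrix m n (Quo A l)} (hU : RepM l U M)
    (hV : RepM l V M) : Tendsto (fun i => U i - V i) l (𝓝 0) :=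
  tendsto_pi_nhds.2 fun j => tendsto_pi_nhds.2 fun k => (hU j k).tendsto (hV j k)

lemma RepM.of_tendsto {U V : I → Matrix m n A} {M : Matrix m n (Quo A l)} (hU : RepM l U M)
    (h : Tendsto (fun i => V i - U i) l (𝓝 0)) : RepM l V M :=
  fun j k => (hU j k).of_tendsto (tendsto_pi_nhds.1 (tendsto_pi_nhds.1 h j) k)

section Sums

variable {Q G : Type*} [Ring Q] [Fintype G] (κ : A →+* Q) (e : G → Q)

/-- weighted sums over a tower -/
def tsum' (j : ℕ) (a : G → A) : Q := ∑ g, e g ^ (j + 1) * κ (a g)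

variable {κ e}

lemma tsum'_mul (hc : ∀ g a, e g * κ a = κ a * e g) (ho : ∀ g h, g ≠ h → e g * e h = 0)
    (j k : ℕ) (a b : G → A) :
    tsum' κ e j a * tsum' κ e k b = tsum' κ e (j + k + 1) fun g => a g * b g := by
  classical
  simp only [tsum', Finset.sum_mul_sum]
  refine Finset.sum_congr rfl fun g _ => ?_
  have h1 : ∀ h, e g ^ (j + 1) * κ (a g) * (e h ^ (k + 1) * κ (b h)) =
      e g ^ j * (e g * e h) * e h ^ k * κ (a g * b h) := fun h => by
    have : κ (a g) * e h ^ (k + 1) = e h ^ (k + 1) * κ (a g) :=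
      (Commute.pow_left (hc h (a g)) (k + 1)).eq.symm
    rw [mul_assoc, ← mul_assoc (κ _), this, pow_succ, pow_succ', map_mul]
    simp only [mul_assoc]
  simp only [h1]
  rw [Finset.sum_eq_single g]
  · congr 1
    rw [← pow_two, ← pow_add, ← pow_add]
    congr 1
    ring
  · intro h _ hg
    rw [ho g h hg.symm]
    simp
  · simp

lemma tsum'_mul_kap (j : ℕ) (a : G → A) (b : A) :
    tsum' κ e j a * κ b = tsum' κ e j fun g => a g * b := by
  simp [tsum', Finset.sum_mul, mul_assoc]

lemma tsum'_sum {ι : Type*} (s : Finset ι) (j : ℕ) (a : ι → G → A) :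
    ∑ r ∈ s, tsum' κ e j (a r) = tsum' κ e j fun g => ∑ r ∈ s, a r g := by
  simp only [tsum', map_sum, Finset.mul_sum]
  exact Finset.sum_comm

variable (κ e) in
/-- matrix version -/
def tsumM (j : ℕ) (a : G → Matrix m n A) : Matrix m n Q :=
  Matrix.of fun r s => tsum' κ e j fun g => a g r s

lemma tsumM_mul [Fintype n] (hc : ∀ g a, e g * κ a = κ a * e g)
    (ho : ∀ g h, g ≠ h → e g * e h = 0) (j k : ℕ) (a : G → Matrix m n A) (b : G → Matrix n p A) :
    tsumM κ e j a * tsumM κ e k b = tsumM κ e (j + k + 1) fun g => a g * b g := by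
  ext r s
  simp only [tsumM, Matrix.mul_apply, of_apply, tsum'_mul hc ho, tsum'_sum]

lemma tsumM_mul_kap [Fintype n] (j : ℕ) (a : G → Matrix m n A) (b : Matrix n p A) :
    tsumM κ e j a * b.map κ = tsumM κ e j fun g => a g * b := by
  ext r s
  simp only [tsumM, Matrix.mul_apply, of_apply, map_apply, tsum'_mul_kap, tsum'_sum]

lemma tsumM_add (j : ℕ) (a b : G → Matrix m n A) :
    tsumM κ e j a + tsumM κ e j b = tsumM κ e j fun g => a g + b g := by
  ext r s
  simp [tsumM, tsum', mul_add, Finset.sum_add_distrib]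

end Sums

end Pool.Agent.Lib.MP_f90f6c_an.H50
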