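import Pool.Agent.Lib.MP_f90f6c_an.H50Sub

/-!
The Choquet integral of a dimension function is additive on commuting self-adjoint elements.
-/

namespace Pool.Agent.Lib.MP_f90f6c_an.H50

open Filter Topology
open scoped ComplexStarModule

set_option linter.unusedSectionVars false

section Val

variable {X : Type*} [TopologicalSpace X]

/-- a modular function of supports -/
structure IsVal (μ : C(X, ℝ) → ℝ) : Prop where
  mono : ∀ f g, 0 ≤ f → 0 ≤ g → (∀ x, g x = 0 → f x = 0) → μ f ≤ μ g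
  zero : μ 0 = 0
  modular : ∀ f g, 0 ≤ f → 0 ≤ g → μ (f + g) + μ (f * g) = μ f + μ g

open scoped Classical in
/-- number of functions not vanishing at a point -/
noncomputable def cnt {ι : Type*} (s : Finset ι) (F : ι → C(X, ℝ)) (x : X) : ℕ :=
  ∑ i ∈ s, if F i x = 0 then 0 else 1

lemma cnt_le_card {ι : Type*} (s : Finset ι) (F : ι → C(X, ℝ)) (x : X) : cnt s F x ≤ s.card := by
  rw [Finset.card_eq_sum_ones]
  exact Finset.sum_le_sum fun i _ => by split_ifs <;> simp

lemma IsVal.congr {μ : C(X, ℝ) → ℝ} (hμ : IsVal μ) {f g : C(X, ℝ)} (hf : 0 ≤ f) (hg : 0 ≤ g)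
    (h : ∀ x, f x = 0 ↔ g x = 0) : μ f = μ g :=
  le_antisymm (hμ.mono f g hf hg fun x => (h x).2) (hμ.mono g f hg hf fun x => (h x).1)

lemma IsVal.exists_chain {μ : C(X, ℝ) → ℝ} (hμ : IsVal μ) {ι : Type*} (s : Finset ι)
    {F : ι → C(X, ℝ)} (hF : ∀ i, 0 ≤ F i) :
    ∃ w : ℕ → C(X, ℝ), (∀ k, 0 ≤ w k) ∧ (∀ k x, w k x = 0 ↔ cnt s F x < k) ∧
      ∀ M, s.card ≤ M → ∑ k ∈ Finset.range M, μ (w (k + 1)) = ∑ i ∈ s, μ (F i) := by
  classical
  induction s using Finset.induction_on with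
  | empty =>
    refine ⟨fun k => if k = 0 then 1 else 0, fun k => ?_, fun k x => ?_, fun M _ => ?_⟩
    · cases k <;> simp
    · cases k <;> simp [cnt]
    · simp [hμ.zero]
  | insert i s hi ih =>
    obtain ⟨w, hw0, hw, hsum⟩ := ih
    have hf := hF i
    have hc : ∀ x, cnt (insert i s) F x = (if F i x = 0 then 0 else 1) + cnt s F x := fun x => by
      rw [cnt, Finset.sum_insert hi, cnt]
    refine ⟨fun k => Nat.casesOn k 1 fun k => w (k + 1) + w k * F i, fun k => ?_, fun k x => ?_,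
      fun M hM => ?_⟩
    · cases k with
      | zero => exact zero_le_one
      | succ k => exact add_nonneg (hw0 _) (mul_nonneg (hw0 _) hf)
    · cases k with
      | zero => simp
      | succ k =>
        have h1 : 0 ≤ w (k + 1) x := hw0 _ x
        have h2 : 0 ≤ w k x * F i x := mul_nonneg (hw0 _ x) (hf x)
        simp only [ContinuousMap.add_apply, ContinuousMap.mul_apply, add_eq_zero_iff_of_nonneg h1 h2,
          mul_eq_zero, hw, hc]
        split_ifs with h
        · simp [h]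
        · simp only [h, or_false]
          omega
    · rw [Finset.card_insert_of_notMem hi] at hM
      have h1 : ∀ k, μ (w (k + 1) + w k * F i) =
          μ (w (k + 1)) + (μ (w k * F i) - μ (w (k + 1) * F i)) := fun k => by
        have h2 := hμ.modular _ _ (hw0 (k + 1)) (mul_nonneg (hw0 k) hf)
        have h3 : μ (w (k + 1) * (w k * F i)) = μ (w (k + 1) * F i) := by
          refine hμ.congr (mul_nonneg (hw0 _) (mul_nonneg (hw0 k) hf)) (mul_nonneg (hw0 _) hf)
            fun x => ?_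
          simp only [ContinuousMap.mul_apply, mul_eq_zero, hw]
          constructor
          · rintro (h | h | h)
            exacts [Or.inl h, Or.inl (by omega), Or.inr h]
          · rintro (h | h)
            exacts [Or.inl h, Or.inr (Or.inr h)]
        linarith
      have h4 : μ (w 0 * F i) = μ (F i) := hμ.congr (mul_nonneg (hw0 _) hf) hf fun x => by
        simp [hw]
      have h5 : μ (w M * F i) = 0 := by
        rw [← hμ.zero]
        refine hμ.congr (mul_nonneg (hw0 _) hf) le_rfl fun x => ?_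
        have := cnt_le_card s F x
        simp only [ContinuousMap.mul_apply, mul_eq_zero, hw, ContinuousMap.zero_apply, iff_true]
        left
        omega
      simp only [h1]
      rw [Finset.sum_add_distrib, hsum M (by omega), Finset.sum_range_sub' (fun k => μ (w k * F i)),
        Finset.sum_insert hi, h4, h5]
      ring

lemma IsVal.sum_le {μ : C(X, ℝ) → ℝ} (hμ : IsVal μ) {ι κ : Type*} (s : Finset ι) (t : Finset κ)
    {F : ι → C(X, ℝ)} {G : κ → C(X, ℝ)} (hF : ∀ i, 0 ≤ F i) (hG : ∀ i, 0 ≤ G i)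
    (h : ∀ x, cnt s F x ≤ cnt t G x) : ∑ i ∈ s, μ (F i) ≤ ∑ i ∈ t, μ (G i) := by
  obtain ⟨w, hw0, hw, hs⟩ := hμ.exists_chain s hF
  obtain ⟨v, hv0, hv, ht⟩ := hμ.exists_chain t hG
  rw [← hs (s.card + t.card) (by omega), ← ht (s.card + t.card) (by omega)]
  refine Finset.sum_le_sum fun k _ => hμ.mono _ _ (hw0 _) (hv0 _) fun x hx => ?_
  rw [hv] at hx
  rw [hw]
  exact (h x).trans_lt hx

/-- cut-down of a function -/
noncomputable def fcut (t : ℝ) (f : C(X, ℝ)) : C(X, ℝ) := (f - t • 1) ⊔ 0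

lemma fcut_nonneg (t : ℝ) (f : C(X, ℝ)) : 0 ≤ fcut t f := le_sup_right

lemma fcut_apply (t : ℝ) (f : C(X, ℝ)) (x : X) : fcut t f x = max (f x - t) 0 := by
  simp [fcut]

lemma cnt_fcut {f : C(X, ℝ)} {R : ℕ} {x : X} (h : |f x| ≤ R) :
    f x + R ≤ cnt (Finset.range (2 * R)) (fun i => fcut (-R + i) f) x ∧
      (cnt (Finset.range (2 * R)) (fun i => fcut (-R + i) f) x : ℝ) ≤ f x + R + 1 := by
  obtain ⟨h1, h2⟩ := abs_le.1 h
  have : cnt (Finset.range (2 * R)) (fun i => fcut (-R + i) f) x = ⌈f x + R⌉₊ := by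
    have h3 : ⌈f x + R⌉₊ ≤ 2 * R := Nat.ceil_le.2 (by push_cast; linarith)
    rw [cnt, ← Finset.sum_range_add_sum_Ico _ h3, Finset.sum_eq_zero (s := Finset.Ico _ _),
      add_zero, Finset.sum_congr rfl (g := fun _ => 1)]
    · simp
    · intro i hi
      rw [Finset.mem_range, Nat.lt_ceil] at hi
      rw [if_neg]
      rw [fcut_apply, max_eq_left (by linarith)]
      linarith
    · intro i hi
      have := Nat.ceil_le.1 (Finset.mem_Ico.1 hi).1
      rw [if_pos]
      rw [fcut_apply, max_eq_right (by linarith)]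
  rw [this]
  exact ⟨Nat.le_ceil _, (Nat.ceil_lt_add_one (by linarith)).le⟩

lemma cnt_disjSum {ι κ : Type*} (s : Finset ι) (t : Finset κ) (F : ι → C(X, ℝ)) (G : κ → C(X, ℝ))
    (x : X) : cnt (s.disjSum t) (Sum.elim F G) x = cnt s F x + cnt t G x := by
  rw [cnt, Finset.sum_disjSum]
  rfl

lemma cnt_one (k : ℕ) (x : X) : cnt (Finset.range k) (fun _ => (1 : C(X, ℝ))) x = k := by
  simp [cnt]

lemma IsVal.sum_fcut {μ : C(X, ℝ) → ℝ} (hμ : IsVal μ) {f g : C(X, ℝ)} {R : ℕ}
    (hf : ∀ x, |f x| ≤ R) (hg : ∀ x, |g x| ≤ R) (hfg : ∀ x, |(f + g) x| ≤ R) :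
    (∑ i ∈ Finset.range (2 * R), μ (fcut (-R + i) f)) + ∑ i ∈ Finset.range (2 * R),
        μ (fcut (-R + i) g) ≤ (∑ i ∈ Finset.range (2 * R), μ (fcut (-R + i) (f + g))) +
          (R + 2) * μ 1 ∧
    (∑ i ∈ Finset.range (2 * R), μ (fcut (-R + i) (f + g))) + R * μ 1 ≤
      (∑ i ∈ Finset.range (2 * R), μ (fcut (-R + i) f)) + (∑ i ∈ Finset.range (2 * R),
        μ (fcut (-R + i) g)) + μ 1 := by
  constructor
  · have := hμ.sum_le ((Finset.range (2 * R)).disjSum (Finset.range (2 * R)))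
      ((Finset.range (2 * R)).disjSum (Finset.range (R + 2)))
      (F := Sum.elim (fun i : ℕ => fcut (-R + i) f) fun i : ℕ => fcut (-R + i) g)
      (G := Sum.elim (fun i : ℕ => fcut (-R + i) (f + g)) fun _ => 1)
      (by rintro (i | i) <;> exact fcut_nonneg _ _)
      (by rintro (i | i); exacts [fcut_nonneg _ _, zero_le_one]) fun x => by
        rw [cnt_disjSum, cnt_disjSum, cnt_one, ← Nat.cast_le (α := ℝ)]
        have h1 := (cnt_fcut (hf x)).2
        have h2 := (cnt_fcut (hg x)).2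
        have h3 := (cnt_fcut (hfg x)).1
        rw [ContinuousMap.add_apply] at h3
        push_cast
        linarith
    simpa [Finset.sum_disjSum] using this
  · have := hμ.sum_le ((Finset.range (2 * R)).disjSum (Finset.range R))
      (((Finset.range (2 * R)).disjSum (Finset.range (2 * R))).disjSum (Finset.range 1))
      (F := Sum.elim (fun i : ℕ => fcut (-R + i) (f + g)) fun _ => 1)
      (G := Sum.elim (Sum.elim (fun i : ℕ => fcut (-R + i) f) fun i : ℕ => fcut (-R + i) g)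
        fun _ => 1)
      (by rintro (i | i); exacts [fcut_nonneg _ _, zero_le_one])
      (by rintro ((i | i) | i); exacts [fcut_nonneg _ _, fcut_nonneg _ _, zero_le_one]) fun x => by
        rw [cnt_disjSum, cnt_disjSum, cnt_disjSum, cnt_one, cnt_one, ← Nat.cast_le (α := ℝ)]
        have h1 := (cnt_fcut (hf x)).1
        have h2 := (cnt_fcut (hg x)).1
        have h3 := (cnt_fcut (hfg x)).2
        rw [ContinuousMap.add_apply] at h3
        push_cast
        linarith
    simpa [Finset.sum_disjSum] using this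

end Val

section Dim

variable {E : Type*} [CStarAlgebra E] [PartialOrder E] [StarOrderedRing E]

lemma cut_unique {a b c : E} {t : ℝ} (ha : IsSelfAdjoint a) (h : a - t • 1 = b - c)
    (hbc : b * c = 0) (hb : 0 ≤ b) (hc : 0 ≤ c) : cut t a = b := by
  have h1 := (CFC.posPart_negPart_unique h hbc hb hc).1
  have h2 : a - t • 1 = cut t a - cfc (fun s => max (t - s) 0) a := by
    rw [cut, ← cfc_sub _ _ _ (by fun_prop) (by fun_prop), ← Algebra.algebraMap_eq_smul_one,
      ← cfc_const t a]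
    conv_lhs => enter [1]; rw [← cfc_id' ℝ a]
    rw [← cfc_sub _ _ _ (by fun_prop) (by fun_prop)]
    refine cfc_congr fun s _ => ?_
    rcases le_total s t with h | h
    · rw [max_eq_right (sub_nonpos.2 h), max_eq_left (sub_nonneg.2 h)]
      ring
    · rw [max_eq_left (sub_nonneg.2 h), max_eq_right (sub_nonpos.2 h)]
      ring
  have h3 : cut t a * cfc (fun s => max (t - s) 0) a = 0 := by
    rw [cut, cfc_mul_cfc (by fun_prop) (by fun_prop), ← cfc_zero ℝ a]
    refine cfc_congr fun s _ => ?_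
    rcases le_total s t with h | h
    · simp [max_eq_right (sub_nonpos.2 h)]
    · simp [max_eq_right (sub_nonpos.2 h)]
  rw [← h1, (CFC.posPart_negPart_unique h2 h3 (cut_nonneg _ _)
    (cfc_nonneg fun _ _ => le_max_right _ _)).1]

lemma cut_map {X : Type*} [TopologicalSpace X] (ρ : C(X, ℝ) →⋆ₐ[ℝ] E) (t : ℝ) (f : C(X, ℝ)) :
    cut t (ρ f) = ρ (fcut t f) := by
  refine cut_unique (c := ρ (fcut (-t) (-f))) ((IsSelfAdjoint.all f).map ρ) ?_ ?_
    (map_nonneg ρ (fcut_nonneg _ _)) (map_nonneg ρ (fcut_nonneg _ _))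
  · rw [← map_one ρ, ← map_smul, ← map_sub, ← map_sub]
    congr 1
    ext x
    simp only [ContinuousMap.sub_apply, ContinuousMap.smul_apply, ContinuousMap.one_apply,
      smul_eq_mul, mul_one, fcut_apply, ContinuousMap.neg_apply]
    rcases le_total (f x) t with h | h
    · rw [max_eq_right (sub_nonpos.2 h), max_eq_left (by linarith)]
      ring
    · rw [max_eq_left (sub_nonneg.2 h), max_eq_right (by linarith)]
      ring
  · rw [← map_mul, ← map_zero ρ]
    congr 1
    ext x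
    simp only [ContinuousMap.mul_apply, fcut_apply, ContinuousMap.neg_apply,
      ContinuousMap.zero_apply]
    rcases le_total (f x) t with h | h
    · rw [max_eq_right (sub_nonpos.2 h), zero_mul]
    · rw [max_eq_right (a := -f x - -t) (by linarith), mul_zero]

lemma abs_le_norm_of_mem {a : E} {t : ℝ} (ht : t ∈ spectrum ℝ a) : |t| ≤ ‖a‖ := by
  have := spectrum.norm_le_norm_mul_of_mem ht
  have h4 : ‖(1 : E)‖ ≤ 1 := by
    nontriviality E
    simp
  rw [Real.norm_eq_abs] at this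
  nlinarith [norm_nonneg a]

lemma cut_eq_zero {a : E} {t : ℝ} (h : ‖a‖ ≤ t) : cut t a = 0 := by
  rw [cut, ← cfc_zero ℝ a]
  exact cfc_congr fun s hs => max_eq_right (by linarith [(abs_le.1 (abs_le_norm_of_mem hs)).2])

lemma isUnit_cut {a : E} (ha : IsSelfAdjoint a) {t : ℝ} (h : ∀ s ∈ spectrum ℝ a, t < s) :
    IsUnit (cut t a) :=
  (isUnit_cfc_iff _ a).2 fun s hs => (lt_max_of_lt_left (sub_pos.2 (h s hs))).ne'

/-- a dimension function on a single algebra -/
structure DimFn (ν : E → ℝ) : Prop where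
  mono : ∀ a b, 0 ≤ a → 0 ≤ b → CSub a b → ν a ≤ ν b
  zero : ν 0 = 0
  mod1 : ∀ a b, 0 ≤ a → 0 ≤ b → Commute a b → ν (a + b) + ν (a * b * (a + b)) ≤ ν a + ν b
  mod2 : ∀ a b, 0 ≤ a → 0 ≤ b → Commute a b →
    ν (a * (a + b) ^ 2) + ν (b * (a + b) ^ 2) ≤ ν (a + b) + ν (a * b * (a + b))

variable {ν : E → ℝ}

lemma DimFn.isVal (hν : DimFn ν) {X : Type*} [TopologicalSpace X] [CompactSpace X]
    (ρ : C(X, ℝ) →⋆ₐ[ℝ] E) (hρ : Continuous ρ) : IsVal fun f => ν (ρ f) := by
  have hm : ∀ f g : C(X, ℝ), 0 ≤ f → 0 ≤ g → (∀ x, g x = 0 → f x = 0) → ν (ρ f) ≤ ν (ρ g) :=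
    fun f g hf hg h => hν.mono _ _ (map_nonneg ρ hf) (map_nonneg ρ hg) (CSub.of_supp ρ hρ hf hg h)
  refine ⟨hm, by rw [map_zero, hν.zero], fun f g hf hg => ?_⟩
  have hc : Commute (ρ f) (ρ g) := (Commute.all f g).map ρ
  have h1 := hν.mod1 _ _ (map_nonneg ρ hf) (map_nonneg ρ hg) hc
  have h2 := hν.mod2 _ _ (map_nonneg ρ hf) (map_nonneg ρ hg) hc
  simp only [← map_add, ← map_mul, ← map_pow] at h1 h2
  have hs := add_nonneg hf hg
  have hp := mul_nonneg hf hg
  have key : ∀ x, f x + g x = 0 → f x = 0 ∧ g x = 0 := fun x h =>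
    (add_eq_zero_iff_of_nonneg (hf x) (hg x)).1 h
  have h3 := hm _ _ hp (mul_nonneg hp hs) fun x h => by
    simp only [ContinuousMap.mul_apply, ContinuousMap.add_apply, mul_eq_zero] at h ⊢
    exact h.elim id fun h => Or.inl (key x h).1
  have h4 := hm _ _ (mul_nonneg hp hs) hp fun x h => by
    rw [ContinuousMap.mul_apply, h, zero_mul]
  have h5 := hm _ _ hf (mul_nonneg hf (pow_nonneg hs 2)) fun x h => by
    simp only [ContinuousMap.mul_apply, ContinuousMap.add_apply, mul_eq_zero,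
      ContinuousMap.pow_apply, pow_eq_zero_iff two_ne_zero] at h
    exact h.elim id fun h => (key x h).1
  have h6 := hm _ _ hg (mul_nonneg hg (pow_nonneg hs 2)) fun x h => by
    simp only [ContinuousMap.mul_apply, ContinuousMap.add_apply, mul_eq_zero,
      ContinuousMap.pow_apply, pow_eq_zero_iff two_ne_zero] at h
    exact h.elim id fun h => (key x h).2
  linarith

lemma DimFn.nonneg (hν : DimFn ν) {a : E} (ha : 0 ≤ a) : 0 ≤ ν a := by
  rw [← hν.zero]
  exact hν.mono _ _ le_rfl ha (CSub.of_le le_rfl ha)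

lemma DimFn.le_one (hν : DimFn ν) {a : E} (ha : 0 ≤ a) : ν a ≤ ν 1 := by
  have h1 := (IsSelfAdjoint.of_nonneg ha).le_algebraMap_norm_self
  rw [Algebra.algebraMap_eq_smul_one] at h1
  exact hν.mono _ _ ha zero_le_one ((CSub.of_le ha h1).trans (CSub.smul (norm_nonneg _) _))

lemma DimFn.of_isUnit (hν : DimFn ν) {a : E} (ha : 0 ≤ a) (hu : IsUnit a) : ν a = ν 1 := by
  refine le_antisymm (hν.le_one ha) (hν.mono _ _ zero_le_one ha ?_)
  obtain ⟨s, hs, -, h1⟩ := exists_inv_sqrt ha hu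
  have := CSub.conj s a
  rwa [hs, h1] at this

lemma DimFn.antitone (hν : DimFn ν) (a : E) : Antitone fun t => ν (cut t a) := fun _ _ h =>
  hν.mono _ _ (cut_nonneg _ _) (cut_nonneg _ _) (CSub.of_le (cut_nonneg _ _) (cut_le_cut h a))

lemma DimFn.integrable (hν : DimFn ν) (a : E) (s t : ℝ) :
    IntervalIntegrable (fun t => ν (cut t a)) MeasureTheory.volume s t :=
  (hν.antitone a).intervalIntegrable

/-- the Choquet integral -/
noncomputable def choq (ν : E → ℝ) (a : E) : ℝ := (∫ t in -‖a‖..‖a‖, ν (cut t a)) - ‖a‖ * ν 1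

lemma DimFn.integral_low (hν : DimFn ν) {a : E} (ha : IsSelfAdjoint a) {r R : ℝ} (h : r ≤ R)
    (hr : ∀ s ∈ spectrum ℝ a, R ≤ s) : ∫ t in r..R, ν (cut t a) = (R - r) * ν 1 := by
  rw [intervalIntegral.integral_congr_Ioo_of_le h (g := fun _ => ν 1) fun t ht =>
    hν.of_isUnit (cut_nonneg _ _) (isUnit_cut ha fun s hs => ht.2.trans_le (hr s hs))]
  simp

lemma DimFn.integral_high (hν : DimFn ν) {a : E} {r R : ℝ} (h : r ≤ R) (hr : ‖a‖ ≤ r) :
    ∫ t in r..R, ν (cut t a) = 0 := by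
  rw [intervalIntegral.integral_congr_Ioo_of_le h (g := fun _ => 0) fun t ht => by
    simp only [cut_eq_zero (hr.trans ht.1.le), hν.zero]]
  simp

lemma DimFn.choq_eq (hν : DimFn ν) {a : E} (ha : IsSelfAdjoint a) {R : ℝ} (h : ‖a‖ ≤ R) :
    choq ν a = (∫ t in -R..R, ν (cut t a)) - R * ν 1 := by
  rw [← intervalIntegral.integral_add_adjacent_intervals (hν.integrable a (-R) (-‖a‖))
    (hν.integrable a _ _), ← intervalIntegral.integral_add_adjacent_intervals
    (hν.integrable a (-‖a‖) ‖a‖) (hν.integrable a _ _), hν.integral_high h le_rfl,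
    hν.integral_low ha (neg_le_neg h) fun s hs => (abs_le.1 (abs_le_norm_of_mem hs)).1, choq]
  ring

lemma DimFn.choq_eq_of_nonneg (hν : DimFn ν) {a : E} (ha : 0 ≤ a) {R : ℝ} (h : ‖a‖ ≤ R) :
    choq ν a = ∫ t in 0..R, ν (cut t a) := by
  have h0 := (norm_nonneg a).trans h
  rw [hν.choq_eq (.of_nonneg ha) h, ← intervalIntegral.integral_add_adjacent_intervals
    (hν.integrable a (-R) 0) (hν.integrable a _ _), hν.integral_low (.of_nonneg ha)
      (neg_nonpos.2 h0) fun s hs => spectrum_nonneg_of_nonneg ha hs]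
  ring

lemma DimFn.choq_nonneg (hν : DimFn ν) {a : E} (ha : 0 ≤ a) : 0 ≤ choq ν a := by
  rw [hν.choq_eq_of_nonneg ha le_rfl]
  exact intervalIntegral.integral_nonneg_of_forall (norm_nonneg _) fun t =>
    hν.nonneg (cut_nonneg _ _)

lemma DimFn.choq_le (hν : DimFn ν) {a : E} (ha : 0 ≤ a) (h : ‖a‖ ≤ 1) : choq ν a ≤ ν a := by
  rw [hν.choq_eq_of_nonneg ha h]
  have := intervalIntegral.integral_mono_on zero_le_one (hν.integrable a 0 1)
    (intervalIntegrable_const (c := ν a)) fun t ht =>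
      hν.mono _ _ (cut_nonneg _ _) ha (CSub.of_le (cut_nonneg _ _) (cut_le_self ht.1 ha))
  simpa using this

lemma DimFn.choq_one (hν : DimFn ν) : choq ν 1 = ν 1 := by
  have h4 : ‖(1 : E)‖ ≤ 1 := by
    nontriviality E
    simp
  rw [hν.choq_eq_of_nonneg zero_le_one h4, hν.integral_low (.one E) zero_le_one fun s hs =>
    (CFC.one_le_iff (R := ℝ) (1 : E)).1 le_rfl s hs]
  ring

lemma DimFn.choq_smul_pos (hν : DimFn ν) {a : E} (ha : IsSelfAdjoint a) {c : ℝ} (hc : 0 < c) :
    choq ν (c • a) = c * choq ν a := by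
  have h1 : ∀ t, ν (cut (c * t) (c • a)) = ν (cut t a) := fun t => by
    have h2 : cut (c * t) (c • a) = c • cut t a := by
      rw [cut, cut, ← cfc_comp_smul c _ a, ← cfc_smul c _ a]
      refine cfc_congr fun s _ => ?_
      simp only [smul_eq_mul]
      rw [← mul_sub, mul_max_of_nonneg _ _ hc.le, mul_zero]
    have h3 : cut t a = c⁻¹ • cut (c * t) (c • a) := by
      rw [h2, smul_smul, inv_mul_cancel₀ hc.ne', one_smul]
    refine le_antisymm (hν.mono _ _ (cut_nonneg _ _) (cut_nonneg _ _) ?_)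
      (hν.mono _ _ (cut_nonneg _ _) (cut_nonneg _ _) ?_)
    · rw [h2]
      exact CSub.smul hc.le _
    · conv => enter [1]; rw [h3]
      exact CSub.smul (inv_nonneg.2 hc.le) _
  rw [choq, choq, norm_smul, Real.norm_of_nonneg hc.le, ← mul_neg,
    ← intervalIntegral.mul_integral_comp_mul_left]
  simp only [h1]
  ring

lemma DimFn.choq_approx (hν : DimFn ν) {a : E} (ha : IsSelfAdjoint a) {R : ℕ} (h : ‖a‖ ≤ R) :
    choq ν a + R * ν 1 ≤ ∑ i ∈ Finset.range (2 * R), ν (cut (-R + i) a) ∧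
      ∑ i ∈ Finset.range (2 * R), ν (cut (-R + i) a) ≤ choq ν a + R * ν 1 + ν 1 := by
  have h1 := ((hν.antitone a).antitoneOn (Set.Icc (-R : ℝ) (-R + (2 * R : ℕ)))).integral_le_sum
  have h2 := ((hν.antitone a).antitoneOn (Set.Icc (-R : ℝ) (-R + (2 * R : ℕ)))).sum_le_integral
  have e : (-R + (2 * R : ℕ) : ℝ) = R := by
    push_cast
    ring
  have h3 := Finset.sum_range_succ (fun i : ℕ => ν (cut (-R + i) a)) (2 * R)
  rw [Finset.sum_range_succ'] at h3
  have h4 := hν.nonneg (cut_nonneg (-R + (2 * R : ℕ)) a)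
  have h5 := hν.le_one (cut_nonneg (-R + (0 : ℕ)) a)
  rw [e] at h1 h2
  rw [hν.choq_eq ha h]
  constructor <;> linarith

lemma exists_rho {a b : E} (ha : IsSelfAdjoint a) (hb : IsSelfAdjoint b) (hab : Commute a b) :
    ∃ (X : Type) (_ : TopologicalSpace X) (_ : CompactSpace X) (ρ : C(X, ℝ) →⋆ₐ[ℝ] E)
      (f g : C(X, ℝ)), Continuous ρ ∧ ρ f = a ∧ ρ g = b := by
  have hz : IsStarNormal (a + Complex.I • b) := by
    refine ⟨?_⟩
    have : star (a + Complex.I • b) = a + (-Complex.I) • b := by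
      simp [ha.star_eq, hb.star_eq]
    rw [this]
    exact ((Commute.refl a).add_right (hab.smul_right _)).add_left
      ((hab.symm.smul_left _).add_right (((Commute.refl b).smul_left _).smul_right _))
  set z := a + Complex.I • b with hz'
  have : CompactSpace (spectrum ℂ z) := isCompact_iff_compactSpace.1 (spectrum.isCompact z)
  refine ⟨spectrum ℂ z, inferInstance, this, ((cfcHom hz).restrictScalars ℝ).comp
    (ContinuousMap.realToRCLikeStarAlgHom _ ℂ), ⟨fun w => w.1.re, by fun_prop⟩,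
    ⟨fun w => w.1.im, by fun_prop⟩, (cfcHom_continuous hz).comp
      (ContinuousMap.continuous_realToRCLike _ ℂ), ?_, ?_⟩
  · have h1 := cfc_re_id z
    rw [cfc_apply _ z] at h1
    refine Eq.trans rfl (h1.trans ?_)
    simp [hz', ha.coe_realPart, hb.imaginaryPart]
  · have h1 := cfc_im_id z
    rw [cfc_apply _ z] at h1
    refine Eq.trans rfl (h1.trans ?_)
    simp [hz', hb.coe_realPart, ha.imaginaryPart]

lemma DimFn.choq_add_approx (hν : DimFn ν) {a b : E} (ha : IsSelfAdjoint a) (hb : IsSelfAdjoint b)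
    (hab : Commute a b) : |choq ν (a + b) - (choq ν a + choq ν b)| ≤ 3 * ν 1 := by
  obtain ⟨X, _, _, ρ, f, g, hρ, rfl, rfl⟩ := exists_rho ha hb hab
  obtain ⟨R, hR⟩ := exists_nat_ge (‖f‖ + ‖g‖ + ‖ρ f‖ + ‖ρ g‖)
  have n1 := norm_nonneg f
  have n2 := norm_nonneg g
  have n3 := norm_nonneg (ρ f)
  have n4 := norm_nonneg (ρ g)
  have n5 := norm_add_le (ρ f) (ρ g)
  have n6 := norm_add_le f g
  obtain ⟨h1, h2⟩ := (hν.isVal ρ hρ).sum_fcut (f := f) (g := g) (R := R)
    (fun x => (f.norm_coe_le_norm x).trans (by linarith))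
    (fun x => (g.norm_coe_le_norm x).trans (by linarith))
    (fun x => ((f + g).norm_coe_le_norm x).trans (by linarith))
  simp only [← cut_map, map_one, map_add] at h1 h2
  obtain ⟨h3, h4⟩ := hν.choq_approx ha (R := R) (by linarith)
  obtain ⟨h5, h6⟩ := hν.choq_approx hb (R := R) (by linarith)
  obtain ⟨h7, h8⟩ := hν.choq_approx (ha.add hb) (R := R) (by linarith)
  rw [abs_le]
  constructor <;> linarith

theorem DimFn.choq_add (hν : DimFn ν) {a b : E} (ha : IsSelfAdjoint a) (hb : IsSelfAdjoint b)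
    (hab : Commute a b) : choq ν (a + b) = choq ν a + choq ν b := by
  by_contra hne
  have hd : 0 < |choq ν (a + b) - (choq ν a + choq ν b)| := abs_pos.2 (sub_ne_zero.2 hne)
  have h0 := hν.nonneg zero_le_one
  set c := (3 * ν 1 + 1) / |choq ν (a + b) - (choq ν a + choq ν b)| with hc
  have hc0 : 0 < c := by positivity
  have := hν.choq_add_approx ((IsSelfAdjoint.all c).smul ha) ((IsSelfAdjoint.all c).smul hb)
    ((hab.smul_left c).smul_right c)
  rw [← smul_add, hν.choq_smul_pos ha hc0, hν.choq_smul_pos hb hc0,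
    hν.choq_smul_pos (ha.add hb) hc0, ← mul_add, ← mul_sub, abs_mul, abs_of_pos hc0, hc,
    div_mul_cancel₀ _ hd.ne'] at this
  linarith

lemma DimFn.choq_zero (hν : DimFn ν) : choq ν 0 = 0 := by
  have := hν.choq_add (.zero E) (.zero E) (Commute.refl 0)
  rw [add_zero] at this
  linarith

theorem DimFn.choq_smul (hν : DimFn ν) {a : E} (ha : IsSelfAdjoint a) (c : ℝ) :
    choq ν (c • a) = c * choq ν a := by
  rcases lt_trichotomy c 0 with h | rfl | h
  · have h1 := hν.choq_smul_pos ha (neg_pos.2 h)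
    have h2 := hν.choq_add ((IsSelfAdjoint.all c).smul ha) ((IsSelfAdjoint.all (-c)).smul ha)
      (((Commute.refl a).smul_left c).smul_right _)
    rw [← add_smul, add_neg_cancel, zero_smul, hν.choq_zero] at h2
    linarith
  · simp [hν.choq_zero]
  · exact hν.choq_smul_pos ha h

/-- complex extension -/
noncomputable def choqC (ν : E → ℝ) (x : E) : ℂ := choq ν (ℜ x) + Complex.I * choq ν (ℑ x)

lemma DimFn.choqC_sa (hν : DimFn ν) {a : E} (ha : IsSelfAdjoint a) : choqC ν a = choq ν a := by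
  simp [choqC, ha.coe_realPart, ha.imaginaryPart, hν.choq_zero]

theorem DimFn.isQuasitrace (hν : DimFn ν) (htr : ∀ x, choq ν (star x * x) = choq ν (x * star x)) :
    IsQuasitrace (choqC ν) := by
  have hre : ∀ S : NonUnitalStarSubalgebra ℂ E, ∀ x ∈ S, (ℜ x : E) ∈ S := fun S x hx => by
    rw [realPart_apply_coe, ← Complex.coe_smul]
    exact SMulMemClass.smul_mem _ (add_mem hx (star_mem hx))
  have him : ∀ S : NonUnitalStarSubalgebra ℂ E, ∀ x ∈ S, (ℑ x : E) ∈ S := fun S x hx => by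
    rw [imaginaryPart_apply_coe, ← Complex.coe_smul]
    exact SMulMemClass.smul_mem _ (SMulMemClass.smul_mem _ (sub_mem hx (star_mem hx)))
  refine ⟨fun x => ?_, fun x => ?_, fun x => ?_, fun S _ hS x hx y hy => ?_,
    fun S _ hS c x hx => ?_, fun a b ha hb => ?_⟩
  · rw [hν.choqC_sa (.star_mul_self x), hν.choqC_sa (.mul_star_self x), htr]
  · rw [hν.choqC_sa (.star_mul_self x)]
    exact hν.choq_nonneg (star_mul_self_nonneg x)
  · rw [hν.choqC_sa (.star_mul_self x)]
    simp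
  · simp only [choqC, map_add, AddSubgroup.coe_add]
    rw [hν.choq_add (ℜ x).2 (ℜ y).2 (hS _ (hre S x hx) _ (hre S y hy)),
      hν.choq_add (ℑ x).2 (ℑ y).2 (hS _ (him S x hx) _ (him S y hy))]
    push_cast
    ring
  · have hc : Commute (ℜ x : E) (ℑ x : E) := hS _ (hre S x hx) _ (him S x hx)
    have e1 : (ℜ (c • x) : E) = c.re • (ℜ x : E) + (-c.im) • (ℑ x : E) := by
      rw [realPart_smul, sub_eq_add_neg, neg_smul]
      rfl
    have e2 : (ℑ (c • x) : E) = c.re • (ℑ x : E) + c.im • (ℜ x : E) := by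
      rw [imaginaryPart_smul]
      rfl
    rw [choqC, choqC, e1, e2, hν.choq_add ((IsSelfAdjoint.all _).smul (ℜ x).2)
      ((IsSelfAdjoint.all _).smul (ℑ x).2) ((hc.smul_left _).smul_right _),
      hν.choq_add ((IsSelfAdjoint.all _).smul (ℑ x).2)
      ((IsSelfAdjoint.all _).smul (ℜ x).2) ((hc.symm.smul_left _).smul_right _),
      hν.choq_smul (ℜ x).2, hν.choq_smul (ℑ x).2, hν.choq_smul (ℜ x).2, hν.choq_smul (ℑ x).2]
    apply Complex.ext
    · simp
      ring
    · simp
  · rw [hν.choqC_sa ha, hν.choqC_sa hb, choqC]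
    simp [ha.coe_realPart, hb.imaginaryPart, hb.coe_realPart, ha.imaginaryPart]

end Dim

end Pool.Agent.Lib.MP_f90f6c_an.H50
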