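import Pool.Agent.Lib.MP_f90f6c_an.H50Map
import Pool.Agent.Lib.MP_f90f6c_an.H50Seq
import Pool.Agent.Lib.MP_f90f6c_an.H50Val

/-!
Averaging along Rokhlin towers.
-/

namespace Pool.Agent.Lib.MP_f90f6c_an.H50

open Filter Topology Matrix

set_option linter.unusedSectionVars false

section Prelim

variable {A : Type*} [CStarAlgebra A] [PartialOrder A] [StarOrderedRing A]
variable {B : Type*} [CStarAlgebra B] [PartialOrder B] [StarOrderedRing B]
variable {m n p : Type*} [Fintype m] [DecidableEq m] [Fintype n] [DecidableEq n]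
  [Fintype p] [DecidableEq p]

lemma nonneg_of_map_nonneg (φ : B →⋆ₐ[ℂ] A) (hφ : Function.Injective φ) {b : B} (h : 0 ≤ φ b) :
    0 ≤ b := by
  have hb : IsSelfAdjoint b := hφ (by rw [map_star, (IsSelfAdjoint.of_nonneg h).star_eq])
  rw [StarOrderedRing.nonneg_iff_spectrum_nonneg (R := ℝ) b, ← hb.map_spectrum_real φ hφ]
  exact fun t ht => spectrum_nonneg_of_nonneg h ht

lemma mapHom_injective (φ : B →⋆ₐ[ℂ] A) (hφ : Function.Injective φ) :
    Function.Injective (mapHom (m := m) φ) := Matrix.map_injective hφ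

lemma norm_map_matrix (φ : B →⋆ₐ[ℂ] A) (hφ : Function.Injective φ) (M : Matrix m m B) :
    ‖M.map φ‖ = ‖M‖ := NonUnitalStarAlgHom.norm_map (mapHom φ) (mapHom_injective φ hφ) M

/-- constant diagonal matrices -/
noncomputable def diagHom : A →⋆ₐ[ℂ] Matrix m m A where
  toFun a := diagonal fun _ => a
  map_one' := diagonal_one
  map_mul' a b := by simp
  map_zero' := diagonal_zero
  map_add' a b := by simp
  commutes' c := by
    ext i j
    simp [Algebra.algebraMap_eq_smul_one, diagonal_apply, Matrix.one_apply]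
  map_star' a := by simp [star_eq_conjTranspose, diagonal_conjTranspose]

lemma cut_diagonal (ε : ℝ) {a : A} (ha : IsSelfAdjoint a) :
    cut ε (diagonal fun _ : m => a) = diagonal fun _ => cut ε a :=
  (map_cut1 (diagHom (m := m)) ε ha).symm

/-- block diagonal sum of copies of a matrix -/
def blk {R : Type*} [Zero R] (L : ℕ) (c : Matrix m m R) : Matrix (Fin L × m) (Fin L × m) R :=
  Matrix.of fun i j => if i.1 = j.1 then c i.2 j.2 else 0

lemma blk_eq (L : ℕ) (c : Matrix m m A) :
    blk L c = mapM (NonUnitalStarAlgHom.id ℂ (Matrix m m A)) (diagonal fun _ : Fin L => c) := by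
  ext i j
  simp only [blk, mapM, of_apply, diagonal_apply, NonUnitalStarAlgHom.coe_id, id]
  split_ifs <;> rfl

lemma blk_nonneg (L : ℕ) {c : Matrix m m A} (hc : 0 ≤ c) : 0 ≤ blk L c := by
  rw [blk_eq]
  exact mapM_nonneg _ (diagonal_nonneg hc)

lemma cls_blk (L : ℕ) {c : Matrix m m A} (hc : 0 ≤ c) : cls (blk L c) = L • cls c := by
  rw [blk_eq, ← Wmap_cls _ (diagonal_nonneg hc), cls_diagonal_fin hc, map_nsmul, Wmap_cls1 _ hc]
  rfl

lemma u_le_cut_add_cut {F : A} (hF : IsSelfAdjoint F) :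
    W.u A ≤ cls1 (cut (1 / 4) F) + cls1 (cut (1 / 4) (1 - F)) := by
  have h1 : cut (1 / 4) (1 - F) = cfc (fun t : ℝ => max (1 - t - 1 / 4) 0) F := by
    have : 1 - F = cfc (fun t : ℝ => 1 - t) F := by
      rw [cfc_sub _ _ _ (by fun_prop) (by fun_prop), cfc_id' ℝ F, cfc_const_one ℝ F]
    rw [cut, this, ← cfc_comp' _ _ F]
  have h2 : IsUnit (cut (1 / 4) F + cut (1 / 4) (1 - F)) := by
    rw [h1, cut, ← cfc_add F _ _]
    refine (isUnit_cfc_iff _ F).2 fun t _ => ne_of_gt ?_
    have := le_max_left (t - 1 / 4) 0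
    have := le_max_left (1 - t - 1 / 4) 0
    linarith
  have h3 := card_le_cls_of_isUnit (oneBy_nonneg (add_nonneg (cut_nonneg _ _) (cut_nonneg _ _)))
    (h2.map oneBy)
  rw [Fintype.card_unit, one_nsmul, map_add] at h3
  exact h3.trans (cls_add_le (oneBy_nonneg (cut_nonneg _ _)) (oneBy_nonneg (cut_nonneg _ _)))

lemma CSub.tail {f x T : A} (hf : 0 ≤ f) (hx : 0 ≤ x) (h : CSub (1 - f) x) (hT : IsSelfAdjoint T)
    (j : ℕ) {θ : ℝ} (hθ : ‖T - f ^ j‖ < θ) : CSub (cut θ (1 - T)) x := by
  have hs : IsSelfAdjoint f := .of_nonneg hf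
  let k : ℝ → ℝ := fun t => √(∑ i ∈ Finset.range j, t ^ i)
  have hk : Continuous k := by fun_prop
  have h1 : cfc k f * (1 - f) * star (cfc k f) = 1 - f ^ j := by
    have e1 : 1 - f = cfc (fun t : ℝ => 1 - t) f := by
      rw [cfc_sub _ _ _ (by fun_prop) (by fun_prop), cfc_id' ℝ f, cfc_const_one ℝ f]
    have e2 : 1 - f ^ j = cfc (fun t : ℝ => 1 - t ^ j) f := by
      rw [cfc_sub _ _ _ (by fun_prop) (by fun_prop), cfc_pow_id f j, cfc_const_one ℝ f]
    rw [star_cfc, e1, e2, cfc_mul_cfc hk (by fun_prop), cfc_mul_cfc (by fun_prop) hk]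
    refine cfc_congr fun t ht => ?_
    have h0 := spectrum_nonneg_of_nonneg hf ht
    rw [mul_right_comm, Real.mul_self_sqrt (Finset.sum_nonneg fun i _ => pow_nonneg h0 i),
      geom_sum_mul_neg]
  obtain ⟨v, hv⟩ := ((h1 ▸ CSub.conj (cfc k f) (1 - f)).trans h).exists_near (sub_pos.2 hθ)
  refine (CSub.cut_of_near ((IsSelfAdjoint.one A).sub hT) (star_right_conjugate_nonneg hx v)
    ?_).trans (CSub.conj v x)
  have : 1 - T - v * x * star v = (1 - f ^ j - v * x * star v) - (T - f ^ j) := by abel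
  rw [this]
  refine (norm_sub_le _ _).trans_lt ?_
  linarith

end Prelim

section Towers

variable {G : Type*} [Group G] [Fintype G] {A : Type*} [CStarAlgebra A] [PartialOrder A]
  [StarOrderedRing A] (α : G →* (A ≃⋆ₐ[ℂ] A))

lemma act_act (g h : G) (a : A) : α g (α h a) = α (g * h) a := by
  rw [map_mul]
  rfl

lemma act_one (a : A) : α 1 a = a := by
  rw [map_one]
  rfl

/-- unnormalized averaging -/
def avg : A →+ fixedAlg α where
  toFun a := ⟨∑ g, α g a, fun h => by
    simp only [map_sum, act_act]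
    exact Fintype.sum_equiv (Equiv.mulLeft h) _ _ fun _ => rfl⟩
  map_zero' := Subtype.ext (by simp)
  map_add' a b := Subtype.ext (by simp [Finset.sum_add_distrib])

lemma coe_avg (a : A) : (avg α a : A) = ∑ g, α g a := rfl

lemma avg_star (a : A) : avg α (star a) = star (avg α a) :=
  Subtype.ext (by simp [coe_avg, map_star, star_sum])

/-- a family of towers along a filter -/
structure Towers (x : A) {I : Type*} (l : Filter I) (f : I → G → A) (δ : I → ℝ) : Prop where
  nonneg : ∀ i g, 0 ≤ f i g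
  norm_le : ∀ i g, ‖f i g‖ ≤ 1
  orth : ∀ i g h, g ≠ h → f i g * f i h = 0
  comm : ∀ g a, Tendsto (fun i => f i g * a - a * f i g) l (𝓝 0)
  equiv : ∀ g h, Tendsto (fun i => α g (f i h) - f i (g * h)) l (𝓝 0)
  small : ∀ i, CSub (1 - ∑ g, f i g) x
  large : ∀ i, 1 / 2 < ‖(∑ g, f i g) * x * ∑ g, f i g‖
  pos : ∀ i, 0 < δ i
  zero : Tendsto δ l (𝓝 0)

variable {α}

lemma WeakTracialRokhlin.exists_towers (h : WeakTracialRokhlin α) {x : A} (hx : 0 ≤ x)
    (hx' : ‖x‖ = 1) : ∃ (l : Filter (Finset A × ℕ)) (_ : l.NeBot) (f : _) (δ : _),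
      Towers α x l f δ := by
  classical
  let δ : Finset A × ℕ → ℝ := fun i => 1 / ((i.2 : ℝ) + 2)
  have hδ : ∀ i, 0 < δ i := fun i => by positivity
  have hδ' : ∀ i, δ i ≤ 1 / 2 := fun i =>
    one_div_le_one_div_of_le two_pos (le_add_of_nonneg_left (Nat.cast_nonneg _))
  have h0 : Tendsto δ atTop (𝓝 0) := by
    have h1 : Tendsto (fun i : Finset A × ℕ => i.2) atTop atTop := by
      rw [← prod_atTop_atTop_eq]
      exact tendsto_snd
    exact tendsto_const_nhds.div_atTop (tendsto_atTop_add_const_right _ _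
      (tendsto_natCast_atTop_atTop.comp h1))
  choose f h1 h2 h3 h4 h5 h6 h7 using fun i : Finset A × ℕ => h (δ i) (hδ i) i.1 x hx hx'
  refine ⟨atTop, inferInstance, f, δ, h1, h2, h3, fun g a => ?_, fun g k => ?_,
    fun i => cuntzSub_iff.1 (h6 i),
    fun i => ?_, hδ, h0⟩
  · refine squeeze_zero_norm' ?_ h0
    filter_upwards [eventually_ge_atTop ({a}, 0)] with i hi
    exact (h4 i g a (hi.1 (Finset.mem_singleton_self a))).le
  · exact squeeze_zero_norm (fun i => (h5 i g k).le) h0
  · linarith [h7 i, hδ' i]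

variable {x : A} {I : Type*} {l : Filter I} {f : I → G → A} {δ : I → ℝ}

lemma Towers.exists_rep (T : Towers α x l f δ) : ∃ e : G → Quo A l,
    (∀ g, Rep l (fun i => f i g) (e g)) ∧ (∀ g h, Rep l (fun i => α g (f i h)) (e (g * h))) ∧
    (∀ g a, e g * kap A l a = kap A l a * e g) ∧ ∀ g h, g ≠ h → e g * e h = 0 := by
  choose e he using fun g => exists_rep_of_bound (l := l) (fun i => T.norm_le i g)
  refine ⟨e, he, fun g h => (he _).of_tendsto (T.equiv g h), fun g a =>
    (((Rep.const a).mul (he g)).unique ((he g).mul (Rep.const a)) (T.comm g a)).symm,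
    fun g h hgh => ((he g).mul (he h)).unique Rep.zero ?_⟩
  simp [T.orth _ g h hgh, tendsto_const_nhds]

variable {m n p : Type*} [Fintype m] [DecidableEq m] [Fintype n] [DecidableEq n]

lemma map_val_mul {q : Type*} (M : Matrix m n (fixedAlg α)) (N : Matrix n q (fixedAlg α)) :
    (M * N).map (fixedAlg α).subtype = M.map (fixedAlg α).subtype * N.map (fixedAlg α).subtype :=
  Matrix.map_mul (f := (fixedAlg α).subtype)

theorem Towers.transfer [l.NeBot] (T : Towers α x l f δ) (hx : 0 ≤ x) {c : Matrix m m A}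
    {b : Matrix n n A} (hc : 0 ≤ c) (hb : 0 ≤ b) (w : G → Matrix m n A)
    (hw : ∀ g, w g * b * (w g)ᴴ = c.map (α g)) {K L M : ℕ}
    (h : K • W.u A ≤ L • cls c + M • W.u A) :
    ∃ (y : Matrix m m (fixedAlg α)) (z : fixedAlg α), 0 ≤ y ∧ 0 ≤ z ∧
      cls (y.map (fixedAlg α).subtype) ≤ cls b ∧ CSub (z : A) x ∧
      K • W.u (fixedAlg α) ≤ L • cls y + M • W.u (fixedAlg α) + K • cls1 z := by
  obtain ⟨e, he, he', hce, hoe⟩ := T.exists_rep
  have hinj : Function.Injective (fixedAlg α).subtype := Subtype.val_injective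
  have hfs : ∀ i g, star (f i g) = f i g := fun i g => (IsSelfAdjoint.of_nonneg (T.nonneg i g)).star_eq
  have he1 : ∀ g, Rep l (fun i => α g (f i 1)) (e g) := fun g => by simpa using he' g 1
  have rL : ∀ a, Rep l (fun i => (avg α (f i 1 * a) : A)) (tsum' (kap A l) e 0 fun g => α g a) :=
    fun a => by
      simpa [coe_avg, tsum'] using Rep.sum Finset.univ fun g => (he1 g).mul (Rep.const (α g a))
  have rR : ∀ a, Rep l (fun i => (avg α (a * f i 1) : A)) (tsum' (kap A l) e 0 fun g => α g a) :=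
    fun a => by
      simpa [coe_avg, tsum', hce] using
        Rep.sum Finset.univ fun g => (Rep.const (α g a)).mul (he1 g)
  have rB : ∀ a, Rep l (fun i => (avg α (f i 1 * a * f i 1) : A))
      (tsum' (kap A l) e 1 fun g => α g a) := fun a => by
    have := Rep.sum Finset.univ fun g => ((he1 g).mul (Rep.const (α g a))).mul (he1 g)
    simp only [mul_assoc, ← hce] at this
    simpa [coe_avg, tsum', mul_assoc, pow_succ] using this
  obtain ⟨v₁, v₂, hv⟩ := exists_conj_add_eq_one (m := Fin K) (p := Fin M) (blk_nonneg L hc)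
    mone_nonneg (by rwa [cls_blk L hc, cls_one, Fintype.card_fin, Fintype.card_fin])
  let y : I → Matrix m m (fixedAlg α) := fun i => c.map fun a => avg α (f i 1 * a * f i 1)
  have hy0 : ∀ i, 0 ≤ y i := fun i => by
    refine nonneg_of_map_nonneg (mapHom (m := m) (fixedAlg α).subtype)
      (mapHom_injective _ hinj) ?_
    have : mapHom (fixedAlg α).subtype (y i) = ∑ g, mapHom (α g).toStarAlgHom
        ((diagonal fun _ => f i 1) * c * (diagonal fun _ => f i 1)ᴴ) := by
      ext r s
      simp [mapHom, y, coe_avg, Matrix.sum_apply, diagonal_conjTranspose, hfs]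
    rw [this]
    exact Finset.sum_nonneg fun g _ => map_nonneg _ (conj_nonneg _ hc)
  have ry : RepM l (fun i => (y i).map (fixedAlg α).subtype)
      (tsumM (kap A l) e 1 fun g => c.map (α g)) := fun r s => rB (c r s)
  let Wm : I → Matrix m n A := fun i => Matrix.of fun r s => ∑ g, f i g * w g r s
  have rW : RepM l Wm (tsumM (kap A l) e 0 w) := fun r s => by
    simpa [Wm, tsumM, tsum'] using Rep.sum Finset.univ fun g => (he g).mul (Rep.const (w g r s))
  have rW' : RepM l (fun i => (Wm i)ᴴ) (tsumM (kap A l) e 0 fun g => (w g)ᴴ) := fun r s => by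
    simpa [Wm, tsumM, tsum', hfs, hce, star_sum] using
      Rep.sum Finset.univ fun g => (Rep.const (star (w g s r))).mul (he g)
  have r1 := (rW.mul (RepM.const b)).mul rW'
  rw [tsumM_mul_kap, tsumM_mul hce hoe] at r1
  simp only [hw] at r1
  let η : I → ℝ := fun i => ‖(y i).map (fixedAlg α).subtype - Wm i * b * (Wm i)ᴴ‖ + δ i
  have hη : Tendsto η l (𝓝 0) := by
    simpa only [add_zero] using (tendsto_zero_iff_norm_tendsto_zero.1 (ry.tendsto r1)).add T.zero
  have hη0 : ∀ i, 0 ≤ η i := fun i => add_nonneg (norm_nonneg _) (T.pos i).le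
  let y' : I → Matrix m m (fixedAlg α) := fun i => cut (η i) (y i)
  have ry' : RepM l (fun i => (y' i).map (fixedAlg α).subtype)
      (tsumM (kap A l) e 1 fun g => c.map (α g)) := by
    refine ry.of_tendsto (squeeze_zero_norm (fun i => ?_) hη)
    rw [← Matrix.map_sub _ (map_sub _), norm_map_matrix _ hinj, norm_sub_rev]
    exact norm_sub_cut (hη0 i) (hy0 i)
  have rblk : RepM l (fun i => (blk L (y' i)).map (fixedAlg α).subtype)
      (tsumM (kap A l) e 1 fun g => (blk L c).map (α g)) := fun r s => by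
    by_cases hrs : r.1 = s.1
    · simpa [blk, hrs, tsumM] using ry' r.2 s.2
    · simpa [blk, hrs, tsumM, tsum'] using Rep.zero
  let V₁ : I → Matrix (Fin K) (Fin L × m) (fixedAlg α) :=
    fun i => v₁.map fun a => avg α (f i 1 * a)
  let V₂ : I → Matrix (Fin K) (Fin M) (fixedAlg α) :=
    fun i => v₂.map fun a => avg α (f i 1 * a * f i 1)
  have rV₁ : RepM l (fun i => (V₁ i).map (fixedAlg α).subtype)
      (tsumM (kap A l) e 0 fun g => v₁.map (α g)) := fun r s => rL (v₁ r s)
  have rV₁' : RepM l (fun i => (V₁ i)ᴴ.map (fixedAlg α).subtype)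
      (tsumM (kap A l) e 0 fun g => v₁ᴴ.map (α g)) := fun r s => by
    simpa [V₁, ← avg_star, hfs, tsumM] using rR (star (v₁ s r))
  have rV₂ : RepM l (fun i => (V₂ i).map (fixedAlg α).subtype)
      (tsumM (kap A l) e 1 fun g => v₂.map (α g)) := fun r s => rB (v₂ r s)
  have rV₂' : RepM l (fun i => (V₂ i)ᴴ.map (fixedAlg α).subtype)
      (tsumM (kap A l) e 1 fun g => v₂ᴴ.map (α g)) := fun r s => by
    simpa [V₂, ← avg_star, hfs, tsumM, mul_assoc] using rB (star (v₂ s r))
  have r2 := ((rV₁.mul rblk).mul rV₁').add (rV₂.mul rV₂')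
  rw [tsumM_mul hce hoe, tsumM_mul hce hoe, tsumM_mul hce hoe, tsumM_add] at r2
  have e1 : ∀ g, v₁.map (α g) * (blk L c).map (α g) * v₁ᴴ.map (α g) + v₂.map (α g) * v₂ᴴ.map (α g)
      = 1 := fun g => by
    rw [Matrix.mul_one] at hv
    rw [← Matrix.map_mul (f := α g), ← Matrix.map_mul (f := α g), ← Matrix.map_mul (f := α g),
      ← Matrix.map_add _ (map_add _), hv, Matrix.map_one _ (map_zero _) (map_one _)]
  simp only [e1] at r2
  let F : I → fixedAlg α := fun i => avg α (f i 1 ^ 4)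
  have hF : ∀ i, IsSelfAdjoint (F i) := fun i => by
    simp [IsSelfAdjoint, F, ← avg_star, hfs]
  have rF : Rep l (fun i => (F i : A)) (tsum' (kap A l) e 3 fun _ => 1) := by
    simpa [F, coe_avg, tsum'] using Rep.sum Finset.univ fun g => (he1 g).pow 4
  have rD : RepM l (fun i => (diagonal fun _ : Fin K => F i).map (fixedAlg α).subtype)
      (tsumM (kap A l) e 3 fun _ => 1) := fun r s => by
    by_cases hrs : r = s
    · simpa [hrs, tsumM] using rF
    · simpa [hrs, tsumM, tsum'] using Rep.zero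
  have rf : Rep l (fun i => (∑ g, f i g) ^ 4) (tsum' (kap A l) e 3 fun _ => 1) := by
    have h1 : Rep l (fun i => ∑ g, f i g) (tsum' (kap A l) e 0 fun _ => 1) := by
      simpa [tsum'] using Rep.sum Finset.univ he
    have h2 := ((h1.mul h1).mul h1).mul h1
    simp only [tsum'_mul hce hoe, mul_one] at h2
    simpa [pow_succ] using h2
  have h3 := (tendsto_zero_iff_norm_tendsto_zero.1 (rD.tendsto r2)).eventually
    (gt_mem_nhds (show (0 : ℝ) < 1 / 4 by norm_num))
  have h4 := (tendsto_zero_iff_norm_tendsto_zero.1 (rF.tendsto rf)).eventually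
    (gt_mem_nhds (show (0 : ℝ) < 1 / 4 by norm_num))
  obtain ⟨i, h3, h4⟩ := (h3.and h4).exists
  refine ⟨y' i, cut (1 / 4) (1 - F i), cut_nonneg _ _, cut_nonneg _ _, ?_, ?_, ?_⟩
  · rw [map_cut _ _ (.of_nonneg (hy0 i))]
    refine (cls_cut_le_of_near (.of_nonneg (map_nonneg (mapHom (fixedAlg α).subtype) (hy0 i)))
      (conj_nonneg (Wm i) hb) (lt_add_of_pos_right _ (T.pos i))).trans (cls_conj_le _ hb)
  · have := map_cut1 (fixedAlg α).subtype (1 / 4) ((IsSelfAdjoint.one _).sub (hF i))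
    rw [map_sub, map_one] at this
    have h5 := CSub.tail (Finset.sum_nonneg fun g _ => T.nonneg i g) hx (T.small i)
      ((hF i).map (fixedAlg α).subtype) 4 h4
    rw [← this] at h5
    exact h5
  · rw [← map_val_mul, ← map_val_mul, ← map_val_mul, ← Matrix.map_add _ (map_add _),
      ← Matrix.map_sub _ (map_sub _), norm_map_matrix _ hinj] at h3
    have h5 : 0 ≤ V₁ i * blk L (y' i) * (V₁ i)ᴴ := conj_nonneg _ (blk_nonneg L (cut_nonneg _ _))
    have h6 := cls_cut_le_of_near (show IsSelfAdjoint (diagonal fun _ : Fin K => F i) from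
      (hF i).map (diagHom (m := Fin K))) (add_nonneg h5 (mul_conjT_self_nonneg _)) h3
    rw [cut_diagonal _ (hF i), cls_diagonal_fin (cut_nonneg _ _)] at h6
    have h7 := cls_conj_le (V₁ i) (blk_nonneg L (cut_nonneg (η i) (y i)))
    have h8 := cls_conj_le (V₂ i) mone_nonneg
    rw [cls_blk L (cut_nonneg _ _)] at h7
    rw [Matrix.mul_one, cls_one, Fintype.card_fin] at h8
    refine (nsmul_le_nsmul_right (u_le_cut_add_cut (hF i)) K).trans ?_
    rw [nsmul_add]
    exact add_le_add (h6.trans ((cls_add_le h5 (mul_conjT_self_nonneg _)).trans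
      (add_le_add h7 h8))) le_rfl

theorem Towers.transfer_inv [l.NeBot] (T : Towers α x l f δ) (hx : 0 ≤ x)
    {c : Matrix m m (fixedAlg α)} (hc : 0 ≤ c) {K L M : ℕ}
    (h : K • W.u A ≤ L • cls (c.map (fixedAlg α).subtype) + M • W.u A) :
    ∃ z : fixedAlg α, 0 ≤ z ∧ CSub (z : A) x ∧
      K • W.u (fixedAlg α) ≤ L • cls c + M • W.u (fixedAlg α) + K • cls1 z := by
  obtain ⟨e, he, he', hce, hoe⟩ := T.exists_rep
  have hinj : Function.Injective (fixedAlg α).subtype := Subtype.val_injective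
  have hfs : ∀ i g, star (f i g) = f i g := fun i g => (IsSelfAdjoint.of_nonneg (T.nonneg i g)).star_eq
  have he1 : ∀ g, Rep l (fun i => α g (f i 1)) (e g) := fun g => by simpa using he' g 1
  have rL : ∀ a, Rep l (fun i => (avg α (f i 1 * a) : A)) (tsum' (kap A l) e 0 fun g => α g a) :=
    fun a => by
      simpa [coe_avg, tsum'] using Rep.sum Finset.univ fun g => (he1 g).mul (Rep.const (α g a))
  have rR : ∀ a, Rep l (fun i => (avg α (a * f i 1) : A)) (tsum' (kap A l) e 0 fun g => α g a) :=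
    fun a => by
      simpa [coe_avg, tsum', hce] using
        Rep.sum Finset.univ fun g => (Rep.const (α g a)).mul (he1 g)
  have hc' : 0 ≤ c.map (fixedAlg α).subtype := map_nonneg (mapHom (fixedAlg α).subtype) hc
  obtain ⟨v₁, v₂, hv⟩ := exists_conj_add_eq_one (m := Fin K) (p := Fin M) (blk_nonneg L hc')
    mone_nonneg (by rwa [cls_blk L hc', cls_one, Fintype.card_fin, Fintype.card_fin])
  have eblk : (blk L c).map (fixedAlg α).subtype = blk L (c.map (fixedAlg α).subtype) := by
    ext r s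
    simp only [blk, map_apply, of_apply]
    split_ifs <;> rfl
  have eblk' : ∀ g, (blk L (c.map (fixedAlg α).subtype)).map (α g) =
      blk L (c.map (fixedAlg α).subtype) := fun g => by
    rw [← eblk]
    ext r s
    exact (blk L c r s).2 g
  let V₁ : I → Matrix (Fin K) (Fin L × m) (fixedAlg α) :=
    fun i => v₁.map fun a => avg α (f i 1 * a)
  let V₂ : I → Matrix (Fin K) (Fin M) (fixedAlg α) :=
    fun i => v₂.map fun a => avg α (f i 1 * a)
  have rV₁ : RepM l (fun i => (V₁ i).map (fixedAlg α).subtype)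
      (tsumM (kap A l) e 0 fun g => v₁.map (α g)) := fun r s => rL (v₁ r s)
  have rV₁' : RepM l (fun i => (V₁ i)ᴴ.map (fixedAlg α).subtype)
      (tsumM (kap A l) e 0 fun g => v₁ᴴ.map (α g)) := fun r s => by
    simpa [V₁, ← avg_star, hfs, tsumM] using rR (star (v₁ s r))
  have rV₂ : RepM l (fun i => (V₂ i).map (fixedAlg α).subtype)
      (tsumM (kap A l) e 0 fun g => v₂.map (α g)) := fun r s => rL (v₂ r s)
  have rV₂' : RepM l (fun i => (V₂ i)ᴴ.map (fixedAlg α).subtype)
      (tsumM (kap A l) e 0 fun g => v₂ᴴ.map (α g)) := fun r s => by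
    simpa [V₂, ← avg_star, hfs, tsumM] using rR (star (v₂ s r))
  have r2 := ((rV₁.mul (RepM.const ((blk L c).map (fixedAlg α).subtype))).mul rV₁').add
    (rV₂.mul rV₂')
  rw [tsumM_mul_kap, tsumM_mul hce hoe, tsumM_mul hce hoe, tsumM_add] at r2
  have e1 : ∀ g, v₁.map (α g) * (blk L c).map (fixedAlg α).subtype * v₁ᴴ.map (α g) +
      v₂.map (α g) * v₂ᴴ.map (α g) = 1 := fun g => by
    rw [Matrix.mul_one] at hv
    rw [eblk, ← eblk' g, ← Matrix.map_mul (f := α g), ← Matrix.map_mul (f := α g),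
      ← Matrix.map_mul (f := α g), ← Matrix.map_add _ (map_add _), hv,
      Matrix.map_one _ (map_zero _) (map_one _)]
  simp only [e1] at r2
  let F : I → fixedAlg α := fun i => avg α (f i 1 ^ 2)
  have hF : ∀ i, IsSelfAdjoint (F i) := fun i => by
    simp [IsSelfAdjoint, F, ← avg_star, hfs]
  have rF : Rep l (fun i => (F i : A)) (tsum' (kap A l) e 1 fun _ => 1) := by
    simpa [F, coe_avg, tsum'] using Rep.sum Finset.univ fun g => (he1 g).pow 2
  have rD : RepM l (fun i => (diagonal fun _ : Fin K => F i).map (fixedAlg α).subtype)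
      (tsumM (kap A l) e 1 fun _ => 1) := fun r s => by
    by_cases hrs : r = s
    · simpa [hrs, tsumM] using rF
    · simpa [hrs, tsumM, tsum'] using Rep.zero
  have rf : Rep l (fun i => (∑ g, f i g) ^ 2) (tsum' (kap A l) e 1 fun _ => 1) := by
    have h1 : Rep l (fun i => ∑ g, f i g) (tsum' (kap A l) e 0 fun _ => 1) := by
      simpa [tsum'] using Rep.sum Finset.univ he
    have h2 := h1.mul h1
    simp only [tsum'_mul hce hoe, mul_one] at h2
    simpa [pow_succ] using h2
  have h3 := (tendsto_zero_iff_norm_tendsto_zero.1 (rD.tendsto r2)).eventually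
    (gt_mem_nhds (show (0 : ℝ) < 1 / 4 by norm_num))
  have h4 := (tendsto_zero_iff_norm_tendsto_zero.1 (rF.tendsto rf)).eventually
    (gt_mem_nhds (show (0 : ℝ) < 1 / 4 by norm_num))
  obtain ⟨i, h3, h4⟩ := (h3.and h4).exists
  refine ⟨cut (1 / 4) (1 - F i), cut_nonneg _ _, ?_, ?_⟩
  · have := map_cut1 (fixedAlg α).subtype (1 / 4) ((IsSelfAdjoint.one _).sub (hF i))
    rw [map_sub, map_one] at this
    have h5 := CSub.tail (Finset.sum_nonneg fun g _ => T.nonneg i g) hx (T.small i)
      ((hF i).map (fixedAlg α).subtype) 2 h4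
    rw [← this] at h5
    exact h5
  · rw [← map_val_mul, ← map_val_mul, ← map_val_mul, ← Matrix.map_add _ (map_add _),
      ← Matrix.map_sub _ (map_sub _), norm_map_matrix _ hinj] at h3
    have h5 : 0 ≤ V₁ i * blk L c * (V₁ i)ᴴ := conj_nonneg _ (blk_nonneg L hc)
    have h6 := cls_cut_le_of_near (show IsSelfAdjoint (diagonal fun _ : Fin K => F i) from
      (hF i).map (diagHom (m := Fin K))) (add_nonneg h5 (mul_conjT_self_nonneg _)) h3
    rw [cut_diagonal _ (hF i), cls_diagonal_fin (cut_nonneg _ _)] at h6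
    have h7 := cls_conj_le (V₁ i) (blk_nonneg L hc)
    have h8 := cls_conj_le (V₂ i) mone_nonneg
    rw [cls_blk L hc] at h7
    rw [Matrix.mul_one, cls_one, Fintype.card_fin] at h8
    refine (nsmul_le_nsmul_right (u_le_cut_add_cut (hF i)) K).trans ?_
    rw [nsmul_add]
    exact add_le_add (h6.trans ((cls_add_le h5 (mul_conjT_self_nonneg _)).trans
      (add_le_add h7 h8))) le_rfl

end Towers

end Pool.Agent.Lib.MP_f90f6c_an.H50
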