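import Pool.Agent.Lib.MP_f90f6c_an.H50Edw
import Pool.Agent.Lib.MP_f90f6c_an.H50Rok

/-!
Cutting Cuntz classes by approximately central positive contractions.
-/

namespace Pool.Agent.Lib.MP_f90f6c_an.H50

open Filter Topology Matrix

set_option linter.unusedSectionVars false

variable {A : Type*} [CStarAlgebra A] [PartialOrder A] [StarOrderedRing A]
variable {m n J : Type*} [Fintype m] [DecidableEq m] [Fintype n] [DecidableEq n]
  [Fintype J] [DecidableEq J]

lemma bd_nonneg {y : J → Matrix m m A} (hy : ∀ j, 0 ≤ y j) : 0 ≤ blockDiagonal y := by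
  choose s hs using fun j => exists_eq_conjT_mul (hy j)
  have : blockDiagonal y = (blockDiagonal s)ᴴ * blockDiagonal s := by
    rw [blockDiagonal_conjTranspose, ← blockDiagonal_mul]
    exact congrArg _ (funext hs)
  rw [this]
  exact conjT_mul_self_nonneg _

lemma cut_bd (θ : ℝ) {y : J → Matrix m m A} (hy : ∀ j, 0 ≤ y j) :
    cut θ (blockDiagonal y) = blockDiagonal fun j => cut θ (y j) := by
  have h1 : ∀ j, y j - θ • 1 = cut θ (y j) - cfc (fun s => max (θ - s) 0) (y j) := fun j => by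
    rw [cut, ← cfc_sub _ _ _ (by fun_prop) (by fun_prop), ← Algebra.algebraMap_eq_smul_one,
      ← cfc_const θ (y j) (IsSelfAdjoint.of_nonneg (hy j))]
    conv_lhs => enter [1]; rw [← cfc_id' ℝ (y j) (IsSelfAdjoint.of_nonneg (hy j))]
    rw [← cfc_sub _ _ _ (by fun_prop) (by fun_prop)]
    refine cfc_congr fun s _ => ?_
    rcases le_total s θ with h | h
    · rw [max_eq_right (sub_nonpos.2 h), max_eq_left (sub_nonneg.2 h)]
      ring
    · rw [max_eq_left (sub_nonneg.2 h), max_eq_right (sub_nonpos.2 h)]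
      ring
  have h2 : ∀ j, cut θ (y j) * cfc (fun s => max (θ - s) 0) (y j) = 0 := fun j => by
    rw [cut, cfc_mul_cfc (by fun_prop) (by fun_prop), ← cfc_zero ℝ (y j)]
    refine cfc_congr fun s _ => ?_
    rcases le_total s θ with h | h
    · simp [max_eq_right (sub_nonpos.2 h)]
    · simp [max_eq_right (sub_nonpos.2 h)]
  refine cut_unique (c := blockDiagonal fun j => cfc (fun s => max (θ - s) 0) (y j))
    (.of_nonneg (bd_nonneg hy)) ?_ ?_ (bd_nonneg fun j => cut_nonneg _ _)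
    (bd_nonneg fun j => cfc_nonneg fun _ _ => le_max_right _ _)
  · rw [← blockDiagonal_one, ← blockDiagonal_smul, ← blockDiagonal_sub, ← blockDiagonal_sub]
    exact congrArg _ (funext h1)
  · rw [← blockDiagonal_mul, ← blockDiagonal_zero]
    exact congrArg _ (funext h2)

lemma sum_cls_le_of_orth {ι : Type*} (s : Finset ι) {a : ι → Matrix m m A} (ha : ∀ i, 0 ≤ a i)
    (h : ∀ i j, i ≠ j → a i * a j = 0) : ∑ i ∈ s, cls (a i) ≤ cls (∑ i ∈ s, a i) := by
  classical
  induction s using Finset.induction_on with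
  | empty => simp [cls_zero]
  | insert i s hi ih =>
    rw [Finset.sum_insert hi, Finset.sum_insert hi]
    refine (add_le_add le_rfl ih).trans (cls_add_of_orth (ha i)
      (Finset.sum_nonneg fun j _ => ha j) ?_)
    rw [Finset.mul_sum]
    exact Finset.sum_eq_zero fun j hj => h i j fun e => hi (e ▸ hj)

lemma cls_bd {y : J → Matrix m m A} (hy : ∀ j, 0 ≤ y j) :
    cls (blockDiagonal y) = ∑ j, cls (y j) := by
  let ι : J → Matrix (m × J) m A := fun j => Matrix.of fun r s => if r = (s, j) then 1 else 0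
  have h1 : ∀ j k, (ι j)ᴴ * ι k = if j = k then 1 else 0 := fun j k => by
    ext r s
    by_cases h : j = k
    · simp [ι, Matrix.mul_apply, h, Matrix.one_apply, eq_comm, apply_ite star]
    · simp [ι, Matrix.mul_apply, h, Ne.symm h]
  have h2 : blockDiagonal y = ∑ j, ι j * y j * (ι j)ᴴ := by
    ext ⟨r, j⟩ ⟨s, k⟩
    by_cases h : j = k <;>
      simp [ι, Matrix.mul_apply, blockDiagonal_apply', Matrix.sum_apply, ite_and, apply_ite star, h]
  have h3 : ∀ j, cls (ι j * y j * (ι j)ᴴ) = cls (y j) := fun j => by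
    refine le_antisymm (cls_conj_le _ (hy j)) ?_
    have := cls_conj_le (ι j)ᴴ (conj_nonneg (ι j) (hy j))
    rwa [conjTranspose_conjTranspose, ← Matrix.mul_assoc, ← Matrix.mul_assoc, h1, if_pos rfl,
      Matrix.one_mul, Matrix.mul_assoc, h1, if_pos rfl, Matrix.mul_one] at this
  simp only [h2, ← h3]
  refine le_antisymm (cls_sum_le _ fun j => conj_nonneg _ (hy j))
    (sum_cls_le_of_orth _ (fun j => conj_nonneg _ (hy j)) fun j k hjk => ?_)
  rw [Matrix.mul_assoc (ι k), Matrix.mul_assoc, ← Matrix.mul_assoc (ι j)ᴴ, h1, if_neg hjk,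
    Matrix.zero_mul, Matrix.mul_zero]

/-- constant diagonal matrix -/
def dg {R : Type*} [Zero R] (m : Type*) [DecidableEq m] (e : R) : Matrix m m R :=
  diagonal fun _ => e

lemma dg_conjT {e : A} (he : 0 ≤ e) : (dg m e)ᴴ = dg m e := herm_of_nonneg (diagonal_nonneg he)

lemma dg_conj_nonneg {e : A} (he : 0 ≤ e) {a : Matrix m m A} (ha : 0 ≤ a) :
    0 ≤ dg m e * a * dg m e := by simpa [dg_conjT he] using conj_nonneg (dg m e) ha

lemma norm_dg_le (e : A) : ‖dg m e‖ ≤ ‖e‖ :=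
  NonUnitalStarAlgHom.norm_apply_le (diagHom (m := m)) e

lemma norm_dg_conj_le {e : A} (he : ‖e‖ ≤ 1) (a : Matrix m m A) : ‖dg m e * a * dg m e‖ ≤ ‖a‖ := by
  have h1 := (norm_dg_le (m := m) e).trans he
  refine norm_mul₃_le.trans ?_
  have := mul_le_mul (mul_le_mul_of_nonneg_right h1 (norm_nonneg a)) h1 (norm_nonneg _)
    (by positivity)
  simpa using this

/-- the class of the cut-down of the compression of `a` by `e` -/
noncomputable def Phi (θ : ℝ) (e : A) (a : Matrix m m A) : W A := cls (cut θ (dg m e * a * dg m e))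

lemma Phi_mono {θ θ' : ℝ} (h : θ ≤ θ') (e : A) (a : Matrix m m A) : Phi θ' e a ≤ Phi θ e a :=
  cls_cut_mono h _

lemma Phi_bd (θ : ℝ) {e : A} (he : 0 ≤ e) {y : J → Matrix m m A} (hy : ∀ j, 0 ≤ y j) :
    Phi θ e (blockDiagonal y) = ∑ j, Phi θ e (y j) := by
  have : dg (m × J) e = blockDiagonal fun _ : J => dg m e := by
    simp [dg, blockDiagonal_diagonal]
  rw [Phi, this, ← blockDiagonal_mul, ← blockDiagonal_mul,
    cut_bd θ fun j => dg_conj_nonneg he (hy j), cls_bd fun j => cut_nonneg _ _]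
  rfl

lemma Phi_fromBlocks (θ : ℝ) {e : A} (he : 0 ≤ e) {a : Matrix m m A} {b : Matrix n n A}
    (ha : 0 ≤ a) (hb : 0 ≤ b) : Phi θ e (fromBlocks a 0 0 b) = Phi θ e a + Phi θ e b := by
  have : dg (m ⊕ n) e = fromBlocks (dg m e) 0 0 (dg n e) := by
    rw [dg, dg, dg, fromBlocks_diagonal]
    congr 1
    ext (i | i) <;> rfl
  simp only [Phi, this, fromBlocks_multiply, Matrix.mul_zero, Matrix.zero_mul, add_zero, zero_add]
  exact cls_cut_fromBlocks θ (dg_conj_nonneg he ha) (dg_conj_nonneg he hb)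

variable {I : Type*} {l : Filter I}

variable (l) in
/-- an approximately central family of positive contractions -/
structure AC (e : I → A) : Prop where
  nonneg : ∀ i, 0 ≤ e i
  norm_le : ∀ i, ‖e i‖ ≤ 1
  comm : ∀ a, Tendsto (fun i => e i * a - a * e i) l (𝓝 0)

lemma AC.exists_rep {e : I → A} (h : AC l e) :
    ∃ q, Rep l e q ∧ ∀ a, q * kap A l a = kap A l a * q := by
  obtain ⟨q, hq⟩ := exists_rep_of_bound (l := l) h.norm_le
  exact ⟨q, hq, fun a => (((Rep.const a).mul hq).unique (hq.mul (Rep.const a)) (h.comm a)).symm⟩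

lemma Rep.dg {e : I → A} {q : Quo A l} (h : Rep l e q) : RepM l (fun i => dg m (e i)) (dg m q) :=
  fun r s => by
    by_cases hrs : r = s
    · simpa [H50.dg, hrs] using h
    · simpa [H50.dg, hrs] using Rep.zero

lemma dg_comm {q : Quo A l} (h : ∀ a, q * kap A l a = kap A l a * q) (v : Matrix m n A) :
    dg m q * v.map (kap A l) = v.map (kap A l) * dg n q := by
  ext r s
  simp [dg, h]

lemma dg_mul_dg {R : Type*} [NonUnitalNonAssocSemiring R] (p q : R) :
    dg m p * dg m q = dg m (p * q) := diagonal_mul_diagonal _ _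

lemma eventually_norm_lt {U V : I → Matrix m m A} {M : Matrix m m (Quo A l)} (hU : RepM l U M)
    (hV : RepM l V M) {ε : ℝ} (hε : 0 < ε) : ∀ᶠ i in l, ‖U i - V i‖ < ε :=
  (tendsto_zero_iff_norm_tendsto_zero.1 (hU.tendsto hV)).eventually (gt_mem_nhds hε)

lemma norm_conj_sub_cut (w : Matrix m n A) {X : Matrix n n A} (hX : 0 ≤ X) {θ : ℝ} (hθ : 0 ≤ θ) :
    ‖w * X * wᴴ - w * cut θ X * wᴴ‖ ≤ θ * ‖w * wᴴ‖ := by
  have h1 := sub_nonneg.2 (cut_le_self hθ hX)
  have h2 := (IsSelfAdjoint.of_nonneg h1).le_algebraMap_norm_self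
  have h3 := conj_le_conj w h2
  rw [Algebra.algebraMap_eq_smul_one, Matrix.mul_smul, Matrix.mul_one, Matrix.smul_mul] at h3
  have h4 := CStarAlgebra.norm_le_norm_of_nonneg_of_le (conj_nonneg w h1) h3
  rw [norm_smul, norm_norm, Matrix.mul_sub, Matrix.sub_mul] at h4
  exact h4.trans (mul_le_mul_of_nonneg_right (norm_sub_cut hθ hX) (norm_nonneg _))

lemma AC.phi_le {e : I → A} (h : AC l e) {a : Matrix m m A} {b : Matrix n n A} (ha : 0 ≤ a)
    (hb : 0 ≤ b) (hab : cls a ≤ cls b) {θ : ℝ} (hθ : 0 < θ) :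
    ∃ θ' > 0, ∀ᶠ i in l, Phi θ (e i) a ≤ Phi θ' (e i) b := by
  obtain ⟨q, hq, hc⟩ := h.exists_rep
  have h3 : 0 < θ / 3 := by positivity
  obtain ⟨w, hw⟩ := ((cls_le_cls ha hb).1 hab).exists_near h3
  have r1 := (hq.dg.mul (RepM.const (w * b * wᴴ))).mul hq.dg
  have r2 := ((RepM.const w).mul ((hq.dg.mul (RepM.const b)).mul hq.dg)).mul (RepM.const wᴴ)
  rw [show dg m q * (w * b * wᴴ).map (kap A l) * dg m q = w.map (kap A l) *
      (dg n q * b.map (kap A l) * dg n q) * wᴴ.map (kap A l) by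
    rw [Matrix.map_mul, Matrix.map_mul, ← Matrix.mul_assoc, ← Matrix.mul_assoc, dg_comm hc w,
      Matrix.mul_assoc, ← dg_comm hc wᴴ]
    simp only [Matrix.mul_assoc]] at r1
  refine ⟨θ / 3 / (‖w * wᴴ‖ + 1), by positivity, ?_⟩
  filter_upwards [eventually_norm_lt r1 r2 h3] with i hi
  have p1 := dg_conj_nonneg (h.nonneg i) hb
  refine (cls_cut_le_of_near (.of_nonneg (dg_conj_nonneg (h.nonneg i) ha))
    (conj_nonneg w (cut_nonneg _ _)) ?_).trans (cls_conj_le w (cut_nonneg _ _))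
  have h4 := norm_conj_sub_cut w p1 (show 0 ≤ θ / 3 / (‖w * wᴴ‖ + 1) by positivity)
  have h5 := norm_dg_conj_le (h.norm_le i) (a - w * b * wᴴ)
  have h6 : θ / 3 / (‖w * wᴴ‖ + 1) * ‖w * wᴴ‖ ≤ θ / 3 := by
    rw [div_mul_eq_mul_div, div_le_iff₀ (by positivity)]
    nlinarith
  rw [Matrix.mul_sub, Matrix.sub_mul] at h5
  refine lt_of_le_of_lt (norm_sub_le_norm_sub_add_norm_sub _ _ _ |>.trans
    (add_le_add h5 (norm_sub_le_norm_sub_add_norm_sub _ (w * (dg n (e i) * b * dg n (e i)) * wᴴ) _)))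
    ?_
  linarith

lemma AC.phi_le_add {e : I → A} (h : AC l e) {p : Type*} [Fintype p] [DecidableEq p]
    {a : Matrix m m A} {b : Matrix n n A} {c : Matrix p p A} (ha : 0 ≤ a)
    (hb : 0 ≤ b) (hc : 0 ≤ c) (hab : cls a ≤ cls b + cls c) {θ : ℝ} (hθ : 0 < θ) :
    ∃ θ' > 0, ∀ᶠ i in l, Phi θ (e i) a ≤ Phi θ' (e i) b + Phi θ' (e i) c := by
  rw [← cls_fromBlocks hb hc] at hab
  simpa only [Phi_fromBlocks _ (h.nonneg _) hb hc] using
    h.phi_le ha (fromBlocks_nonneg hb hc) hab hθ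

lemma AC.phi_le_nsmul {e : I → A} (h : AC l e) {a : Matrix m m A} {b : Matrix n n A} (ha : 0 ≤ a)
    (hb : 0 ≤ b) {N M : ℕ} (hab : N • cls a ≤ N • cls b + M • W.u A) {θ : ℝ} (hθ : 0 < θ) :
    ∃ θ' > 0, ∀ᶠ i in l, N • Phi θ (e i) a ≤ N • Phi θ' (e i) b + M • W.u A := by
  have h1 := h.phi_le_add (bd_nonneg fun _ : Fin N => ha) (bd_nonneg fun _ : Fin N => hb)
    (mone_nonneg (m := Fin M)) (by simpa [cls_bd fun _ : Fin N => ha, cls_bd fun _ : Fin N => hb,
      cls_one] using hab) hθ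
  obtain ⟨θ', h2, h3⟩ := h1
  refine ⟨θ', h2, h3.mono fun i hi => ?_⟩
  rw [Phi_bd _ (h.nonneg i) fun _ => ha, Phi_bd _ (h.nonneg i) fun _ => hb] at hi
  simp only [Finset.sum_const, Finset.card_univ, Fintype.card_fin] at hi
  exact hi.trans (add_le_add le_rfl ((cls_le_card (cut_nonneg θ' (dg (Fin M) (e i) * 1 *
    dg (Fin M) (e i)))).trans_eq (by rw [Fintype.card_fin])))

lemma sum_phi_le {e : I → J → A} (h : ∀ j, AC l fun i => e i j)
    (ho : ∀ i j k, j ≠ k → e i j * e i k = 0) {b : Matrix m m A} (hb : 0 ≤ b) {θ : ℝ}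
    (hθ : 0 < θ) : ∀ᶠ i in l, ∑ j, Phi θ (e i j) b ≤ cls b := by
  choose q hq hc using fun j => (h j).exists_rep
  have hq0 : ∀ j k, j ≠ k → q j * q k = 0 := fun j k hjk =>
    ((hq j).mul (hq k)).unique Rep.zero (by simp [ho _ j k hjk, tendsto_const_nhds])
  let V : I → Matrix (m × J) m A := fun i => Matrix.of fun r s => if r.1 = s then e i r.2 else 0
  let Q : Matrix (m × J) (m × J) (Quo A l) := Matrix.of fun r s =>
    q r.2 * kap A l (b r.1 s.1) * q s.2
  have r1 : RepM l (fun i => V i * b * (V i)ᴴ) Q := fun r s => by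
    simpa [V, Q, Matrix.mul_apply, apply_ite star,
      (IsSelfAdjoint.of_nonneg ((h _).nonneg _)).star_eq] using
      ((hq r.2).mul (Rep.const (b r.1 s.1))).mul (hq s.2)
  have r2 : RepM l (fun i => blockDiagonal fun j => dg m (e i j) * b * dg m (e i j)) Q :=
    fun r s => by
      by_cases hrs : r.2 = s.2
      · simpa [Q, blockDiagonal_apply, hrs, dg] using
          ((hq s.2).mul (Rep.const (b r.1 s.1))).mul (hq s.2)
      · simpa [Q, blockDiagonal_apply, hrs, hc, mul_assoc, hq0 _ _ hrs] using Rep.zero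
  filter_upwards [eventually_norm_lt r2 r1 hθ] with i hi
  have p1 : ∀ j, 0 ≤ dg m (e i j) * b * dg m (e i j) := fun j => dg_conj_nonneg ((h j).nonneg i) hb
  have h1 := (cls_cut_le_of_near (.of_nonneg (bd_nonneg p1)) (conj_nonneg (V i) hb) hi).trans
    (cls_conj_le _ hb)
  rwa [cut_bd θ p1, cls_bd fun j => cut_nonneg _ _] at h1

lemma sum_sq_le_one {e : J → A} (h0 : ∀ j, 0 ≤ e j) (h1 : ∀ j, ‖e j‖ ≤ 1)
    (ho : ∀ j k, j ≠ k → e j * e k = 0) : ∑ j, e j * e j ≤ 1 := by
  have hs : ∀ j, star (e j) = e j := fun j => (IsSelfAdjoint.of_nonneg (h0 j)).star_eq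
  have h2 : ∀ j, 0 ≤ e j * e j := fun j => by simpa [hs] using star_mul_self_nonneg (e j)
  refine le_one_of_mul_self_le (Finset.sum_nonneg fun j _ => h2 j) ?_
  rw [Finset.sum_mul_sum]
  refine Finset.sum_le_sum fun j _ => ?_
  rw [Finset.sum_eq_single j]
  · have h3 : e j * e j ≤ 1 := (CStarAlgebra.norm_le_one_iff_of_nonneg _ (h2 j)).1
      ((norm_mul_le _ _).trans (mul_le_one₀ (h1 j) (norm_nonneg _) (h1 j)))
    simpa [hs, mul_assoc] using star_left_conjugate_le_conjugate h3 (e j)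
  · intro k _ hk
    rw [mul_assoc, ← mul_assoc (e j) (e k), ho j k hk.symm, zero_mul, mul_zero]
  · simp

lemma le_sum_phi {e : I → J → A} (h : ∀ j, AC l fun i => e i j)
    (ho : ∀ i j k, j ≠ k → e i j * e i k = 0) {a : Matrix m m A} (ha : 0 ≤ a) {σ : ℝ}
    (hσ : 0 < σ) : ∃ θ > 0, ∀ᶠ i in l, cls (cut σ a) ≤ ∑ j, Phi θ (e i j) a +
      Fintype.card m • cls1 (cut θ (1 - ∑ j, e i j * e i j)) := by
  choose q hq hc using fun j => (h j).exists_rep
  set r := rt a with hr
  have hK : 0 < (Fintype.card J : ℝ) + ‖r * rᴴ‖ + 1 := by positivity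
  set θ := σ / (Fintype.card J + ‖r * rᴴ‖ + 1) with hθ
  have hθ0 : 0 < θ := div_pos hσ hK
  have r1 : RepM l (fun i => r * dg m (∑ j, e i j * e i j) * r)
      (r.map (kap A l) * dg m (∑ j, q j * q j) * r.map (kap A l)) :=
    ((RepM.const r).mul (Rep.sum Finset.univ fun j => (hq j).mul (hq j)).dg).mul (RepM.const r)
  have r2 : RepM l (fun i => ∑ j, dg m (e i j) * a * dg m (e i j))
      (∑ j, dg m (q j) * a.map (kap A l) * dg m (q j)) := fun s t => by
    simpa only [Matrix.sum_apply] using Rep.sum Finset.univ fun j =>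
      (((hq j).dg.mul (RepM.const a)).mul (hq j).dg) s t
  have e1 : r.map (kap A l) * dg m (∑ j, q j * q j) * r.map (kap A l) =
      ∑ j, dg m (q j) * a.map (kap A l) * dg m (q j) := by
    have : dg m (∑ j, q j * q j) = ∑ j, dg m (q j) * dg m (q j) := by
      ext s t
      simp [dg, Matrix.sum_apply, diagonal_apply]
    rw [this, Finset.mul_sum, Finset.sum_mul]
    refine Finset.sum_congr rfl fun j _ => ?_
    rw [← rt_mul_rt ha, Matrix.map_mul, ← hr, ← mul_assoc, ← mul_assoc, dg_comm (hc j),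
      mul_assoc _ (r.map _), ← dg_comm (hc j), mul_assoc (_ * _)]
  rw [e1] at r1
  refine ⟨θ, hθ0, ?_⟩
  filter_upwards [eventually_norm_lt r1 r2 hθ0] with i hi
  have p1 : ∀ j, 0 ≤ dg m (e i j) * a * dg m (e i j) := fun j => dg_conj_nonneg ((h j).nonneg i) ha
  have p2 : 0 ≤ 1 - ∑ j, e i j * e i j := sub_nonneg.2 (sum_sq_le_one (fun j => (h j).nonneg i)
    (fun j => (h j).norm_le i) (ho i))
  have p3 := Finset.sum_nonneg (s := Finset.univ)
    fun j _ => cut_nonneg θ (dg m (e i j) * a * dg m (e i j))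
  have p4 := conj_nonneg r (cut_nonneg θ (dg m (1 - ∑ j, e i j * e i j)))
  refine (cls_cut_le_of_near (.of_nonneg ha) (add_nonneg p3 p4) ?_).trans
    ((cls_add_le p3 p4).trans (add_le_add (cls_sum_le _ fun j => cut_nonneg _ _)
      ((cls_conj_le r (cut_nonneg _ _)).trans (le_of_eq ?_))))
  · have h1 := norm_conj_sub_cut r (diagonal_nonneg (m := m) p2) hθ0.le
    have h2 : ‖∑ j, dg m (e i j) * a * dg m (e i j) -
        ∑ j, cut θ (dg m (e i j) * a * dg m (e i j))‖ ≤ Fintype.card J * θ := by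
      rw [← Finset.sum_sub_distrib]
      simpa using norm_sum_le_of_le Finset.univ fun j _ => norm_sub_cut hθ0.le (p1 j)
    have e2 : a = r * dg m (∑ j, e i j * e i j) * r + r * dg m (1 - ∑ j, e i j * e i j) * rᴴ := by
      rw [hr, show (rt a)ᴴ = rt a from star_rt a, ← add_mul, ← mul_add, dg, dg, diagonal_add]
      simp [rt_mul_rt ha]
    have e3 : θ * (Fintype.card J + ‖r * rᴴ‖ + 1) = σ := div_mul_cancel₀ _ hK.ne'
    conv_lhs => enter [1, 1]; rw [e2]
    rw [add_sub_add_comm]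
    refine lt_of_le_of_lt ((norm_add_le _ _).trans (add_le_add
      (norm_sub_le_norm_sub_add_norm_sub _ (∑ j, dg m (e i j) * a * dg m (e i j)) _) h1)) ?_
    linarith
  · rw [dg, cut_diagonal _ (.of_nonneg p2), cls_diagonal (cut_nonneg _ _)]

end Pool.Agent.Lib.MP_f90f6c_an.H50
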