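import Pool.Agent.Lib.MP_f90f6c_an.H50Rok
import Pool.Agent.Lib.MP_f90f6c_an.H50Simple
import Pool.Agent.Lib.MP_f90f6c_an.H50State

/-!
The crossed product: the averaging projection, frames and compression.
-/

namespace Pool.Agent.Lib.MP_f90f6c_an.H50

open Filter Topology Matrix

set_option linter.unusedSectionVars false

lemma CSub.exists_conj {E : Type*} [CStarAlgebra E] [PartialOrder E] [StarOrderedRing E] {a b : E}
    (ha : IsSelfAdjoint a) (hb : 0 ≤ b) (h : CSub a b) {ε : ℝ} (hε : 0 < ε) :
    ∃ w, w * b * star w = cut ε a := by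
  obtain ⟨w, hw⟩ := (h.map oneBy).msub.exists_conj (ha.map oneBy) (oneBy_nonneg hb) hε
  rw [← map_cut1 _ _ ha] at hw
  refine ⟨w () (), ?_⟩
  simpa [Matrix.mul_apply] using congrFun (congrFun hw ()) ()

lemma cls1_sum_le {E : Type*} [CStarAlgebra E] [PartialOrder E] [StarOrderedRing E] {ι : Type*}
    (s : Finset ι) {a : ι → E} (ha : ∀ i, 0 ≤ a i) :
    cls1 (∑ i ∈ s, a i) ≤ ∑ i ∈ s, cls1 (a i) := by
  rw [cls1, map_sum]
  exact cls_sum_le s fun i => oneBy_nonneg (ha i)

variable {G : Type*} [Group G] [Fintype G] [DecidableEq G] {A : Type*} [CStarAlgebra A]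
  [PartialOrder A] [StarOrderedRing A] (α : G →* (A ≃⋆ₐ[ℂ] A))

/-- covariant matrices -/
def invAlg : StarSubalgebra ℂ (CStarMatrix G G A) where
  carrier := {X | ∀ g h s, X (g * s) (h * s) = α s⁻¹ (X g h)}
  mul_mem' := fun {X Y} hX hY g h s => by
    simp only [CStarMatrix.mul_apply, map_sum, map_mul, ← hX g, ← hY _ h]
    exact (Fintype.sum_equiv (Equiv.mulRight s) _ _ fun _ => rfl).symm
  add_mem' := fun {X Y} hX hY g h s => by
    simp only [CStarMatrix.add_apply, map_add, hX g h s, hY g h s]
  algebraMap_mem' := fun c g h s => by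
    simp only [CStarMatrix.algebraMap_apply, mul_left_inj]
    split_ifs
    · rw [Algebra.algebraMap_eq_smul_one, map_smul, map_one]
    · rw [map_zero]
  star_mem' := fun {X} hX g h s => by
    simp only [CStarMatrix.star_apply, map_star, hX h g s]

lemma continuous_entry (g h : G) : Continuous fun X : CStarMatrix G G A => X g h :=
  (continuous_id (X := Matrix G G A)).matrix_elem g h

lemma crossed_le_invAlg : crossed α ≤ invAlg α := by
  refine StarSubalgebra.topologicalClosure_minimal (StarAlgebra.adjoin_le ?_) ?_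
  · rintro _ (⟨a, rfl⟩ | ⟨k, rfl⟩) g h s
    · simp only [regPi, CStarMatrix.ofMatrix_apply, diagonal_apply, mul_left_inj]
      split_ifs
      · rw [act_act, _root_.mul_inv_rev]
      · rw [map_zero]
    · simp only [regLambda, CStarMatrix.ofMatrix_apply, of_apply, ← mul_assoc, mul_left_inj]
      split_ifs
      · rw [map_one]
      · rw [map_zero]
  · have : (invAlg α : Set (CStarMatrix G G A)) =
        ⋂ g, ⋂ h, ⋂ s, {X | X (g * s) (h * s) = α s⁻¹ (X g h)} := by
      ext X
      simp only [Set.mem_iInter]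
      rfl
    rw [this]
    exact isClosed_iInter fun g => isClosed_iInter fun h => isClosed_iInter fun s =>
      isClosed_eq (continuous_entry _ _)
        ((StarAlgEquiv.isometry (α s⁻¹)).continuous.comp (continuous_entry _ _))

/-- entries of elements of the crossed product -/
def ent (g h : G) : crossed α →ₗ[ℂ] A where
  toFun X := X.1 g h
  map_add' _ _ := rfl
  map_smul' _ _ := rfl

variable {α}

lemma ent_ext {X Y : crossed α} (h : ∀ g k, ent α g k X = ent α g k Y) : X = Y :=
  Subtype.ext (CStarMatrix.ext h)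

lemma ent_mul (X Y : crossed α) (g h : G) :
    ent α g h (X * Y) = ∑ k, ent α g k X * ent α k h Y := rfl

lemma ent_star (X : crossed α) (g h : G) : ent α g h (star X) = star (ent α h g X) := rfl

lemma ent_one (g h : G) : ent α g h 1 = if g = h then 1 else 0 := rfl

lemma continuous_ent (g h : G) : Continuous (ent α g h) :=
  (continuous_entry g h).comp continuous_subtype_val

lemma ent_inv (X : crossed α) (g h s : G) :
    ent α (g * s) (h * s) X = α s⁻¹ (ent α g h X) := crossed_le_invAlg α X.2 g h s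

lemma tendsto_of_ent {I : Type*} {l : Filter I} {X : I → crossed α}
    (h : ∀ g k, Tendsto (fun i => ent α g k (X i)) l (𝓝 0)) : Tendsto (fun i => ‖X i‖) l (𝓝 0) := by
  have h1 : Tendsto (fun i => (CStarMatrix.ofMatrix.symm (X i).1 : Matrix G G A)) l (𝓝 0) :=
    tendsto_pi_nhds.2 fun g => tendsto_pi_nhds.2 fun k => h g k
  have h2 := tendsto_zero_iff_norm_tendsto_zero.1 h1
  exact h2

lemma regPi_mem (a : A) : regPi α a ∈ crossed α :=
  StarSubalgebra.le_topologicalClosure _ (StarAlgebra.subset_adjoin ℂ _ (Or.inl ⟨a, rfl⟩))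

lemma regLambda_mem (k : G) : regLambda A k ∈ crossed α :=
  StarSubalgebra.le_topologicalClosure _ (StarAlgebra.subset_adjoin ℂ _ (Or.inr ⟨k, rfl⟩))

lemma ent_regPi (a : A) (g h : G) :
    ent α g h ⟨regPi α a, regPi_mem a⟩ = if g = h then α g⁻¹ a else 0 := rfl

variable (α) in
/-- the embedding of `A` -/
noncomputable def piD : A →⋆ₐ[ℂ] crossed α where
  toFun a := ⟨regPi α a, regPi_mem a⟩
  map_one' := ent_ext fun g h => by simp [ent_regPi, ent_one]
  map_mul' a b := ent_ext fun g h => by
    simp only [ent_regPi, ent_mul, ite_mul, zero_mul, Finset.sum_ite_eq, Finset.mem_univ, if_true,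
      map_mul]
    split_ifs <;> simp
  map_zero' := ent_ext fun g h => by simp [ent_regPi]
  map_add' a b := ent_ext fun g h => by
    simp only [ent_regPi, map_add]
    split_ifs <;> simp
  commutes' c := ent_ext fun g h => by
    simp only [ent_regPi, Algebra.algebraMap_eq_smul_one, map_smul, ent_one, map_one]
    split_ifs <;> simp
  map_star' a := ent_ext fun g h => by
    simp only [ent_regPi, ent_star, map_star]
    by_cases hgh : g = h
    · simp [hgh]
    · simp [hgh, Ne.symm hgh]

lemma ent_piD (a : A) (g h : G) : ent α g h (piD α a) = if g = h then α g⁻¹ a else 0 := rfl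

variable (α) in
/-- the sum of the canonical unitaries -/
noncomputable def allOne : crossed α := ∑ k, ⟨regLambda A k, regLambda_mem k⟩

lemma ent_allOne (g h : G) : ent α g h (allOne α) = 1 := by
  rw [allOne, map_sum, Finset.sum_eq_single (g * h⁻¹)]
  · exact if_pos (by simp)
  · exact fun k _ hk => if_neg fun h' => hk (by simp [h'])
  · simp

variable (α) in
/-- the averaging projection -/
noncomputable def proj : crossed α := (Fintype.card G : ℂ)⁻¹ • allOne α

lemma ent_proj (g h : G) : ent α g h (proj α) = (Fintype.card G : ℂ)⁻¹ • 1 := by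
  rw [proj, map_smul, ent_allOne]

lemma card_ne : (Fintype.card G : ℂ) ≠ 0 := Nat.cast_ne_zero.2 Fintype.card_ne_zero

lemma star_proj : star (proj α) = proj α := ent_ext fun g h => by simp [ent_star, ent_proj]

lemma proj_mul_proj : proj α * proj α = proj α := ent_ext fun g h => by
  simp only [ent_mul, ent_proj, smul_mul_smul_comm, mul_one, Finset.sum_const, Finset.card_univ]
  rw [← Nat.cast_smul_eq_nsmul ℂ, smul_smul, ← mul_assoc, mul_inv_cancel₀ card_ne, one_mul]

lemma proj_nonneg : 0 ≤ proj α := by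
  have := star_mul_self_nonneg (proj α)
  rwa [star_proj, proj_mul_proj] at this

lemma fix_inv (b : fixedAlg α) (g : G) : (α g)⁻¹ (b : A) = b := by
  rw [← map_inv]
  exact b.2 _

lemma ent_piD_mul_proj (b : fixedAlg α) (g h : G) :
    ent α g h (piD α b * proj α) = (Fintype.card G : ℂ)⁻¹ • (b : A) := by
  simp [ent_mul, ent_piD, ent_proj, fix_inv]

lemma piD_comm_proj (b : fixedAlg α) : proj α * piD α b = piD α b * proj α :=
  ent_ext fun g h => by
    rw [ent_piD_mul_proj]
    simp [ent_mul, ent_piD, ent_proj, fix_inv]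

variable (α) in
/-- the fixed point algebra as a corner of the crossed product -/
noncomputable def psiD : fixedAlg α →⋆ₙₐ[ℂ] crossed α where
  toFun b := piD α b * proj α
  map_smul' c b := by simp
  map_zero' := by simp
  map_add' a b := by simp [add_mul]
  map_mul' a b := by
    rw [mul_assoc, ← mul_assoc (proj α), piD_comm_proj, mul_assoc, proj_mul_proj, ← mul_assoc,
      ← map_mul]
    rfl
  map_star' a := by
    rw [star_mul, star_proj, ← map_star]
    exact (piD_comm_proj (star a)).symm

lemma psiD_one : psiD α 1 = proj α := by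
  change piD α 1 * proj α = _
  rw [map_one, one_mul]

/-- row sum -/
noncomputable def rowSum (X : crossed α) : A := ∑ h, ent α 1 h X

lemma sum_ent (X : crossed α) (g : G) : ∑ h, ent α g h X = α g⁻¹ (rowSum X) := by
  simp only [rowSum, map_sum, ← ent_inv, one_mul]
  exact (Fintype.sum_equiv (Equiv.mulRight g) _ _ fun _ => rfl).symm

lemma ent_conj_psiD (X Y : crossed α) (b : fixedAlg α) (g h : G) :
    ent α g h (X * psiD α b * star Y) =
      (Fintype.card G : ℂ)⁻¹ • (α g⁻¹ (rowSum X) * b * star (α h⁻¹ (rowSum Y))) := by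
  have : ∀ k k', ent α k k' (psiD α b) = (Fintype.card G : ℂ)⁻¹ • (b : A) := ent_piD_mul_proj b
  simp only [ent_mul, this, ent_star, ← Finset.sum_mul, ← Finset.mul_sum, ← star_sum, sum_ent,
    mul_smul_comm, ← Finset.smul_sum, smul_mul_assoc]

variable {x : A} {I : Type*} {l : Filter I} {f : I → G → A} {δ : I → ℝ}

lemma Towers.tendsto_proj (T : Towers α x l f δ) (g : G) :
    Tendsto (fun i => ‖piD α (f i g * f i g) - piD α (f i g) * allOne α * piD α (f i g)‖) l
      (𝓝 0) := by
  obtain ⟨e, -, he, -, hoe⟩ := T.exists_rep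
  refine tendsto_of_ent fun h k => ?_
  simp only [map_sub, ent_mul, ent_piD, ent_allOne, ite_mul, zero_mul, Finset.sum_ite_eq,
    Finset.mem_univ, if_true, mul_one, mul_ite, mul_zero, Finset.sum_ite_eq', map_mul]
  by_cases hk : h = k
  · simp [hk, tendsto_const_nhds]
  · have h1 := (he h⁻¹ g).mul (he k⁻¹ g)
    rw [hoe _ _ (by simpa using hk)] at h1
    simpa [hk] using Rep.zero.tendsto h1

lemma allOne_eq : allOne α = (Fintype.card G : ℝ) • proj α := by
  rw [proj, ← Complex.coe_smul, smul_smul]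
  simp

lemma allOne_nonneg : 0 ≤ allOne α := by
  rw [allOne_eq]
  exact smul_nonneg (Nat.cast_nonneg _) proj_nonneg

theorem exists_frame (hA : IsSimple A) (hα : WeakTracialRokhlin α) :
    ∃ (ι : Type) (_ : Fintype ι) (u : ι → A),
      ∀ g, ∑ i, u i * α g (star (u i)) = if g = 1 then 1 else 0 := by
  have := hA.1
  obtain ⟨l, _, f, δ, T⟩ := hα.exists_towers zero_le_one norm_one
  have hn : (0 : ℝ) < Fintype.card G := Nat.cast_pos.2 Fintype.card_pos
  set η : ℝ := 1 / (4 * Fintype.card G) with hη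
  have hη0 : 0 < η := by positivity
  have hε : 0 < η * η / 2 := by positivity
  have h1 := (T.tendsto_proj 1).eventually (gt_mem_nhds hε)
  have h2 : ∀ᶠ i in l, ∀ g, ‖α g (f i 1) - f i (g * 1)‖ < η := eventually_all.2 fun g =>
    (tendsto_zero_iff_norm_tendsto_zero.1 (T.equiv g 1)).eventually (gt_mem_nhds hη0)
  obtain ⟨i, h1, h2⟩ := (h1.and h2).exists
  set a := f i 1 with ha
  have has : star a = a := (IsSelfAdjoint.of_nonneg (T.nonneg i 1)).star_eq
  have haa : 0 ≤ a * a := by simpa [has] using star_mul_self_nonneg a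
  have h3 : η < ‖a‖ := by
    have h4 := T.large i
    rw [mul_one] at h4
    have h5 := norm_mul_le (∑ g, f i g) (∑ g, f i g)
    have h6 : 1 / 2 < ‖∑ g, f i g‖ := by nlinarith [norm_nonneg (∑ g, f i g)]
    have h7 : ‖∑ g, f i g‖ ≤ ∑ _ : G, (‖a‖ + η) := norm_sum_le_of_le _ fun g _ => by
      have h8 := h2 g
      have h9 := norm_sub_norm_le (f i g) (α g a)
      rw [mul_one, norm_sub_rev] at h8
      rw [StarAlgEquiv.norm_map] at h9
      linarith
    rw [Finset.sum_const, Finset.card_univ, nsmul_eq_mul] at h7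
    have h8 : Fintype.card G * η = 1 / 4 := by
      rw [hη]
      field_simp
    nlinarith
  have hne : cut (η * η / 2) (cut (η * η / 2) (a * a)) ≠ 0 := fun h0 => by
    have h4 := norm_sub_cut hε.le haa
    have h5 := norm_sub_cut hε.le (cut_nonneg (η * η / 2) (a * a))
    rw [h0, sub_zero] at h5
    have h6 := norm_sub_norm_le (a * a) (cut (η * η / 2) (a * a))
    have h7 : ‖a * a‖ = ‖a‖ * ‖a‖ := by simpa [has] using CStarRing.norm_star_mul_self (x := a)
    nlinarith
  obtain ⟨ι, _, c, hc⟩ := hA.exists_sum_star (cut_nonneg _ _) hne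
  have hb : 0 ≤ piD α a * allOne α * piD α a := by
    simpa [← map_star, has] using star_right_conjugate_nonneg allOne_nonneg (piD α a)
  obtain ⟨w, hw⟩ := (CSub.cut_of_near (.of_nonneg (map_nonneg (piD α) haa)) hb h1).exists_conj
    (.of_nonneg (cut_nonneg _ _)) hb hε
  rw [← map_cut1 _ _ (.of_nonneg haa), ← map_cut1 _ _ (.of_nonneg (cut_nonneg _ _))] at hw
  have h4 : ∑ j, (piD α (c j) * w * piD α a) * allOne α * star (piD α (c j) * w * piD α a) = 1 := by
    rw [← map_one (piD α), ← hc, map_sum]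
    refine Finset.sum_congr rfl fun j _ => ?_
    rw [map_mul, map_mul, ← hw]
    simp only [star_mul, ← map_star, has, mul_assoc]
  refine ⟨ι, inferInstance, fun j => rowSum (piD α (c j) * w * piD α a), fun g => ?_⟩
  have h5 := congrArg (ent α 1 g⁻¹) h4
  rw [map_sum, ent_one] at h5
  simp only [eq_comm (a := (1 : G)), inv_eq_one] at h5
  rw [← h5]
  refine Finset.sum_congr rfl fun j _ => ?_
  beta_reduce
  generalize piD α (c j) * w * piD α a = X
  simp only [ent_mul, ent_allOne, ent_star, mul_one, ← Finset.mul_sum, ← star_sum, sum_ent, inv_one,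
    act_one, inv_inv, map_star]

lemma avg_mul (a : A) (b : fixedAlg α) : avg α (a * b) = avg α a * b :=
  Subtype.ext (by simp [coe_avg, Finset.sum_mul, b.2 _])

lemma mul_avg (a : A) (b : fixedAlg α) : avg α (b * a) = b * avg α a :=
  Subtype.ext (by simp [coe_avg, Finset.mul_sum, b.2 _])

theorem exists_small_bound (hA : IsSimple A) (hα : WeakTracialRokhlin α) :
    ∃ N : ℕ, ∀ (M : ℕ) (x : A) (z : fixedAlg α), 0 ≤ x → 0 ≤ z → M • cls1 x ≤ W.u A →
      CSub (z : A) x → M • cls1 z ≤ N • W.u (fixedAlg α) := by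
  classical
  obtain ⟨ι, _, u, hu⟩ := exists_frame hA hα
  have key : ∀ c, ∑ k, u k * avg α (star (u k) * c) = c := fun c => by
    simp only [coe_avg, map_mul, Finset.mul_sum, ← mul_assoc]
    rw [Finset.sum_comm]
    simp [← Finset.sum_mul, hu]
  let φ : A →⋆ₙₐ[ℂ] Matrix ι ι (fixedAlg α) :=
    { toFun := fun a => Matrix.of fun i j => avg α (star (u i) * a * u j)
      map_smul' := fun c a => by
        ext i j
        simp [coe_avg, Finset.smul_sum]
      map_zero' := by
        ext i j
        simp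
      map_add' := fun a b => by
        ext i j
        simp [mul_add, add_mul]
      map_mul' := fun a b => by
        ext i j : 2
        simp only [of_apply, Matrix.mul_apply, ← avg_mul, ← map_sum, mul_assoc, ← Finset.mul_sum,
          key]
      map_star' := fun a => by
        ext i j : 2
        simp [← avg_star, mul_assoc] }
  refine ⟨Fintype.card ι, fun M x z hx hz hM hzx => ?_⟩
  have hz' : 0 ≤ (z : A) := hz
  have h1 : cls1 z ≤ cls (φ z) := by
    have h2 := cls_conj_le (Matrix.of fun (_ : Unit) i => avg α (u i)) (map_nonneg φ hz')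
    have h3 : ∑ k, (avg α (u k) : A) * star (u k) = 1 := by
      simpa [star_sum, avg_star] using congrArg star (key 1)
    have h4 : (Matrix.of fun (_ : Unit) i => avg α (u i)) * φ z *
        (Matrix.of fun (_ : Unit) i => avg α (u i))ᴴ = oneBy ((Fintype.card G : ℝ) • z) := by
      ext i j : 2
      have h6 : ∀ i j, φ z i j = avg α (star (u i) * z * u j) := fun _ _ => rfl
      simp only [Matrix.mul_apply, of_apply, conjTranspose_apply, h6, ← mul_avg, ← map_sum,
        ← mul_assoc, ← Finset.sum_mul, h3, one_mul, ← avg_star, oneBy_apply]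
      simp only [mul_avg, MulMemClass.coe_mul, mul_assoc, ← Finset.mul_sum, h3, mul_one]
      simp [coe_avg, z.2 _, Nat.cast_smul_eq_nsmul]
    rw [h4] at h2
    have hn : (0 : ℝ) < Fintype.card G := Nat.cast_pos.2 Fintype.card_pos
    refine (cls1_le hz (smul_nonneg hn.le hz) ?_).trans h2
    simpa [smul_smul, inv_mul_cancel₀ hn.ne'] using
      CSub.smul (inv_nonneg.2 hn.le) ((Fintype.card G : ℝ) • z)
  calc M • cls1 z ≤ M • Wmap φ (cls1 x) := nsmul_le_nsmul_right (h1.trans
        ((Wmap_cls1 φ hz').ge.trans (Wmap_mono φ (cls1_le hz' hx hzx)))) M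
    _ ≤ Wmap φ (W.u A) := by
        rw [← map_nsmul]
        exact Wmap_mono φ hM
    _ ≤ _ := by
        rw [W.u, Wmap_cls1 φ zero_le_one]
        exact cls_le_card (map_nonneg φ zero_le_one)

theorem one_le_card_mul_state (hA : IsSimple A) (hinf : ¬FiniteDimensional ℂ A)
    (hα : WeakTracialRokhlin α) {s : W (crossed α) →+ ℝ} (hs : IsState (W.u (crossed α)) s) :
    1 ≤ Fintype.card G * s (cls1 (proj α)) := by
  refine le_of_forall_pos_le_add fun ε hε => ?_
  obtain ⟨M, hM⟩ := exists_nat_one_div_lt hε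
  obtain ⟨x, hx, hx', hxM⟩ := hA.exists_small hinf (M + 1)
  obtain ⟨l, _, f, δ, T⟩ := hα.exists_towers hx hx'
  have h1 := tendsto_finsetSum Finset.univ fun g _ => T.tendsto_proj g
  rw [Finset.sum_const_zero] at h1
  obtain ⟨i, h1⟩ := (h1.eventually (gt_mem_nhds (show (0 : ℝ) < 1 / 4 by norm_num))).exists
  have hfs : ∀ g, star (f i g) = f i g := fun g => (IsSelfAdjoint.of_nonneg (T.nonneg i g)).star_eq
  have hF : ∑ g, f i g * f i g = (∑ g, f i g) ^ 2 := by
    rw [sq, Finset.sum_mul_sum]
    refine Finset.sum_congr rfl fun g _ => (Finset.sum_eq_single (f := fun j => f i g * f i j) g ?_ ?_).symm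
    · exact fun h _ hg => T.orth i g h hg.symm
    · simp
  have hf0 : 0 ≤ ∑ g, f i g := Finset.sum_nonneg fun g _ => T.nonneg i g
  have hFs : IsSelfAdjoint (∑ g, f i g * f i g) := hF ▸ (IsSelfAdjoint.of_nonneg hf0).pow 2
  have hb : ∀ g, 0 ≤ piD α (f i g) * allOne α * piD α (f i g) := fun g => by
    simpa [← map_star, hfs] using star_right_conjugate_nonneg allOne_nonneg (piD α (f i g))
  have h2 := u_le_cut_add_cut (hFs.map (piD α))
  have h3 : cls1 (cut (1 / 4) (piD α (∑ g, f i g * f i g))) ≤ Fintype.card G • cls1 (proj α) := by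
    refine (cls1_le (cut_nonneg _ _) (Finset.sum_nonneg fun g _ => hb g) (CSub.cut_of_near
      (hFs.map (piD α)) (Finset.sum_nonneg fun g _ => hb g) (lt_of_le_of_lt ?_ h1))).trans
        ((cls1_sum_le Finset.univ hb).trans ?_)
    · rw [map_sum, ← Finset.sum_sub_distrib]
      exact norm_sum_le _ _
    · rw [← Finset.card_univ, ← Finset.sum_const]
      refine Finset.sum_le_sum fun g _ => cls1_le (hb g) proj_nonneg (CSub.trans ?_
        (allOne_eq (α := α) ▸ CSub.smul (Nat.cast_nonneg _) _))
      simpa [← map_star, hfs] using CSub.conj (piD α (f i g)) (allOne α)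
  have h4 : cls1 (cut (1 / 4) (1 - piD α (∑ g, f i g * f i g))) ≤ cls1 (piD α x) := by
    have h5 := (CSub.tail hf0 hx (T.small i) hFs 2 (θ := 1 / 4) (by simp [hF])).map (piD α)
    rw [map_cut1 _ _ ((IsSelfAdjoint.one A).sub hFs), map_sub, map_one] at h5
    exact cls1_le (cut_nonneg _ _) (map_nonneg _ hx) h5
  have h5 := Wmap1_mono (piD α).toNonUnitalStarAlgHom hxM
  rw [map_nsmul, Wmap1_cls1 _ hx, Wmap1_u _ (map_one (piD α))] at h5
  have h6 := hs.mono h5
  have h7 := hs.mono (h2.trans (add_le_add h3 h4))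
  rw [map_nsmul, hs.unit, nsmul_eq_mul] at h6
  rw [map_add, map_nsmul, hs.unit, nsmul_eq_mul] at h7
  have h8 : s (cls1 (piD α x)) ≤ 1 / ((M : ℝ) + 1) := by
    rw [le_div_iff₀ (by positivity), mul_comm]
    exact_mod_cast h6
  linarith

theorem compress {x y : W (fixedAlg α)} (h : Wmap1 (psiD α) x ≤ Wmap1 (psiD α) y) :
    Wmap1 (fixedAlg α).subtype.toNonUnitalStarAlgHom x ≤
      Wmap1 (fixedAlg α).subtype.toNonUnitalStarAlgHom y := by
  obtain ⟨k, x, hx, rfl⟩ := cls_surj x
  obtain ⟨m, y, hy, rfl⟩ := cls_surj y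
  rw [Wmap1_cls _ hx, Wmap1_cls _ hy, cls_le_cls (map_nonneg' _ hx) (map_nonneg' _ hy)] at h ⊢
  have h1 := map_mem_closure (f := fun X : Matrix (Fin k) (Fin k) (crossed α) =>
    X.map fun d => (Fintype.card G : ℂ) • ent α 1 1 d)
    (t := {x | ∃ v : Matrix (Fin k) (Fin m) A,
      x = v * y.map (fixedAlg α).subtype.toNonUnitalStarAlgHom * vᴴ})
    (continuous_id.matrix_map ((continuous_ent 1 1).const_smul _)) h (by
      rintro _ ⟨v, rfl⟩
      refine ⟨v.map rowSum, ?_⟩
      ext i j
      simp only [map_apply, Matrix.mul_apply, conjTranspose_apply, map_sum, Finset.sum_mul,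
        ent_conj_psiD, Finset.smul_sum, smul_smul, mul_inv_cancel₀ (card_ne (G := G)), one_smul,
        inv_one, act_one]
      rfl)
  have h2 : ((x.map (psiD α)).map fun d => (Fintype.card G : ℂ) • ent α 1 1 d) =
      x.map (fixedAlg α).subtype.toNonUnitalStarAlgHom := by
    ext i j
    change (Fintype.card G : ℂ) • ent α 1 1 (piD α (x i j) * proj α) = x i j
    rw [ent_piD_mul_proj, smul_smul, mul_inv_cancel₀ card_ne, one_smul]
  rw [h2] at h1
  exact h1

end Pool.Agent.Lib.MP_f90f6c_an.H50
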