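import Mathlib

/-!
Definitions for the radius of comparison, fixed point algebras, crossed products by finite
groups and the weak tracial Rokhlin property.
-/

namespace Pool.Agent.Lib.MP_f90f6c_an.H50

open Filter Topology
open scoped ENNReal

section General

variable {E : Type*} [CStarAlgebra E]

/-- Cuntz subequivalence in `E`: `v k * b * (v k)⋆ → a` for some sequence `v`. -/
def CuntzSub (a b : E) : Prop :=
  ∃ v : ℕ → E, Tendsto (fun k => v k * b * star (v k)) atTop (𝓝 a)

/-- A quasitrace on `E` (Blackadar-Handelman, Haagerup): `τ (x⋆ x) = τ (x x⋆) ≥ 0`, `τ` is linear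
on every commutative C⋆-subalgebra, and `τ (a + i b) = τ a + i τ b` for self-adjoint `a`, `b`. -/
structure IsQuasitrace (τ : E → ℂ) : Prop where
  star_mul_eq : ∀ x, τ (star x * x) = τ (x * star x)
  re_nonneg : ∀ x, 0 ≤ (τ (star x * x)).re
  im_eq_zero : ∀ x, (τ (star x * x)).im = 0
  add_of_comm : ∀ S : NonUnitalStarSubalgebra ℂ E, IsClosed (S : Set E) →
    (∀ x ∈ S, ∀ y ∈ S, x * y = y * x) → ∀ x ∈ S, ∀ y ∈ S, τ (x + y) = τ x + τ y
  smul_of_comm : ∀ S : NonUnitalStarSubalgebra ℂ E, IsClosed (S : Set E) →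
    (∀ x ∈ S, ∀ y ∈ S, x * y = y * x) → ∀ c : ℂ, ∀ x ∈ S, τ (c • x) = c * τ x
  re_add_im : ∀ a b, IsSelfAdjoint a → IsSelfAdjoint b →
    τ (a + Complex.I • b) = τ a + Complex.I * τ b

/-- The power `a^s` of a positive element `a`, by the continuous functional calculus. -/
noncomputable def cpow (a : E) (s : ℝ) : E :=
  cfc (fun t : ℝ => t ^ s) a

/-- `E` is simple: it is nonzero and its only closed two-sided ideals are `0` and `E`. -/
def IsSimple (E : Type*) [CStarAlgebra E] : Prop :=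
  Nontrivial E ∧ ∀ I : TwoSidedIdeal E, IsClosed (I : Set E) → I = ⊥ ∨ I = ⊤

/-- `E` has (topological) stable rank one: the invertible elements are dense. -/
def StableRankOne (E : Type*) [CStarAlgebra E] : Prop :=
  Dense {x : E | IsUnit x}

end General

section Radius

variable (A : Type*) [CStarAlgebra A] [PartialOrder A] [StarOrderedRing A]

/-- The C⋆-algebra `M_n(A)`. -/
abbrev Mn (n : ℕ) : Type _ := CStarMatrix (Fin n) (Fin n) A

variable {A} in
/-- The upper left corner embedding `M_n(A) → M_N(A)` (used for `n ≤ N`). -/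
def corner {n : ℕ} (N : ℕ) (a : Mn A n) : Mn A N :=
  CStarMatrix.ofMatrix (Matrix.of fun i j =>
    if h : i.1 < n ∧ j.1 < n then a ⟨i.1, h.1⟩ ⟨j.1, h.2⟩ else 0)

/-- A normalized 2-quasitrace on `A` together with its extension to `M_∞(A)`: a family of
quasitraces `τ n` on `M_n(A)`, compatible with the corner embeddings, with `τ 1 1 = 1`. -/
structure QT where
  /-- the quasitrace on `M_n(A)` -/
  τ : ∀ n : ℕ, Mn A n → ℂ
  isQuasitrace : ∀ n, IsQuasitrace (τ n)
  compat : ∀ n N : ℕ, n ≤ N → ∀ a : Mn A n, τ N (corner N a) = τ n a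
  normalized : τ 1 1 = 1

variable {A} in
/-- The dimension function `d_τ(a) = lim_k τ(a^(1/k))`. -/
noncomputable def QT.d (t : QT A) {n : ℕ} (a : Mn A n) : ℝ :=
  limUnder atTop fun k : ℕ => (t.τ n (cpow a ((k : ℝ) + 1)⁻¹)).re

/-- `A` has `r`-comparison: for positive `a`, `b` in `M_∞(A)` (so in a common `M_n(A)`),
`d_τ(a) + r < d_τ(b)` for all `τ` in `QT(A)` implies that `a` is Cuntz subequivalent to `b`. -/
def RComparison (r : ℝ) : Prop :=
  ∀ (n : ℕ) (a b : Mn A n), 0 ≤ a → 0 ≤ b → (∀ t : QT A, t.d a + r < t.d b) → CuntzSub a b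

/-- The radius of comparison, in `[0, ∞]` (the infimum of the empty set is `∞`). -/
noncomputable def rc : ℝ≥0∞ :=
  ⨅ (r : ℝ) (_ : 0 ≤ r) (_ : RComparison A r), ENNReal.ofReal r

/-- `QT(A)` has finitely many extreme points: it is the convex hull of a finite family. -/
def FiniteQT : Prop :=
  ∃ (k : ℕ) (σ : Fin k → QT A), ∀ t : QT A, ∃ w : Fin k → ℝ, (∀ i, 0 ≤ w i) ∧ ∑ i, w i = 1 ∧
    ∀ (n : ℕ) (a : Mn A n), t.τ n a = ∑ i, w i * (σ i).τ n a

/-- Every quasitrace on `A` is a trace. -/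
def QTAreTraces : Prop :=
  ∀ (t : QT A) (n : ℕ) (a b : Mn A n), t.τ n (a + b) = t.τ n a + t.τ n b

variable {A} in
/-- The value of `τ` on `a`, seen as a `1 × 1` matrix. -/
def QT.tr (t : QT A) (a : A) : ℂ := t.τ 1 (CStarMatrix.ofMatrix (Matrix.diagonal fun _ => a))

/-- Uniform property Γ, in its finite-set form (Castillejos-Evington-Tikuisis-White): there are
approximately central pairwise orthogonal positive contractions `e₁, …, eₙ` with
`τ(a eᵢ) ≈ τ(a) / n` uniformly in `τ`. -/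
def UniformGamma : Prop :=
  ∀ n : ℕ, 0 < n → ∀ ε : ℝ, 0 < ε → ∀ F : Finset A,
    ∃ e : Fin n → A, (∀ i, 0 ≤ e i) ∧ (∀ i, ‖e i‖ ≤ 1) ∧ (∀ i j, i ≠ j → e i * e j = 0) ∧
      (∀ i, ∀ a ∈ F, ‖e i * a - a * e i‖ < ε) ∧
      ∀ (t : QT A) (i : Fin n), ∀ a ∈ F, ‖t.tr (a * e i) - t.tr a / n‖ < ε

end Radius

section Subalgebra

variable {A : Type*} [CStarAlgebra A] [PartialOrder A] [StarOrderedRing A]

/-- A closed star subalgebra with the order inherited from `A` is star-ordered. -/
instance starOrderedRingSub (S : StarSubalgebra ℂ A) [hS : IsClosed (S : Set A)] :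
    StarOrderedRing S :=
  StarOrderedRing.of_le_iff fun x y => by
    constructor
    · intro h
      have h0 : (0 : A) ≤ (y : A) - x := sub_nonneg.2 h
      have hm : cfc Real.sqrt ((y : A) - x) ∈ S := cfc_mem (𝕜' := ℂ) _ (S.sub_mem y.2 x.2)
      refine ⟨⟨_, hm⟩, Subtype.ext ?_⟩
      have hs : IsSelfAdjoint (cfc Real.sqrt ((y : A) - x)) := cfc_predicate _ _
      have : cfc Real.sqrt ((y : A) - x) * cfc Real.sqrt ((y : A) - x) = (y : A) - x := by
        rw [← cfc_mul _ _ _ (by fun_prop) (by fun_prop)]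
        conv_rhs => rw [← cfc_id' ℝ ((y : A) - x)]
        exact cfc_congr fun t ht => Real.mul_self_sqrt (spectrum_nonneg_of_nonneg h0 ht)
      change (y : A) = x + star (cfc Real.sqrt ((y : A) - x)) * cfc Real.sqrt ((y : A) - x)
      rw [hs.star_eq, this]
      abel
    · rintro ⟨s, rfl⟩
      change (x : A) ≤ x + star (s : A) * s
      exact le_add_of_nonneg_right (star_mul_self_nonneg _)

end Subalgebra

section Action

variable {G : Type*} [Group G] {A : Type*} [CStarAlgebra A]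

/-- The fixed point algebra `A^α`. -/
def fixedAlg (α : G →* (A ≃⋆ₐ[ℂ] A)) : StarSubalgebra ℂ A where
  carrier := {a | ∀ g, α g a = a}
  mul_mem' := fun {a b} ha hb g => by rw [map_mul, ha g, hb g]
  add_mem' := fun {a b} ha hb g => by rw [map_add, ha g, hb g]
  algebraMap_mem' := fun c g => by
    rw [Algebra.algebraMap_eq_smul_one, map_smul, map_one]
  star_mem' := fun {a} ha g => by rw [map_star, ha g]

instance isClosed_fixedAlg (α : G →* (A ≃⋆ₐ[ℂ] A)) : IsClosed (fixedAlg α : Set A) := by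
  have : (fixedAlg α : Set A) = ⋂ g, {a | α g a = a} := by
    ext a
    simp only [Set.mem_iInter]
    rfl
  rw [this]
  exact isClosed_iInter fun g =>
    isClosed_eq (StarAlgEquiv.isometry (α g)).continuous continuous_id

variable [Fintype G] [DecidableEq G] [PartialOrder A] [StarOrderedRing A]

/-- The regular representation of `A` on `l^2(G, A)`: the diagonal matrix `(α_(g⁻¹)(a))_g`. -/
def regPi (α : G →* (A ≃⋆ₐ[ℂ] A)) (a : A) : CStarMatrix G G A :=
  CStarMatrix.ofMatrix (Matrix.diagonal fun g => α g⁻¹ a)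

variable (A) in
/-- The left regular representation of `G` on `l^2(G, A)`: the permutation matrix of `h ↦ k h`. -/
def regLambda (k : G) : CStarMatrix G G A :=
  CStarMatrix.ofMatrix (Matrix.of fun g h => if g = k * h then 1 else 0)

/-- The crossed product `C⋆(G, A, α)` of a finite group action, realized as the C⋆-subalgebra of
`M_G(A)` generated by the regular covariant representation `(regPi α, regLambda A)`. -/
noncomputable def crossed (α : G →* (A ≃⋆ₐ[ℂ] A)) : StarSubalgebra ℂ (CStarMatrix G G A) :=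
  (StarAlgebra.adjoin ℂ (Set.range (regPi α) ∪ Set.range (regLambda A))).topologicalClosure

instance isClosed_crossed (α : G →* (A ≃⋆ₐ[ℂ] A)) :
    IsClosed (crossed α : Set (CStarMatrix G G A)) :=
  StarSubalgebra.isClosed_topologicalClosure _

omit [DecidableEq G] in
/-- The weak tracial Rokhlin property. -/
def WeakTracialRokhlin (α : G →* (A ≃⋆ₐ[ℂ] A)) : Prop :=
  ∀ ε : ℝ, 0 < ε → ∀ F : Finset A, ∀ x : A, 0 ≤ x → ‖x‖ = 1 →
    ∃ f : G → A, (∀ g, 0 ≤ f g) ∧ (∀ g, ‖f g‖ ≤ 1) ∧ (∀ g h, g ≠ h → f g * f h = 0) ∧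
      (∀ g, ∀ a ∈ F, ‖f g * a - a * f g‖ < ε) ∧
      (∀ g h, ‖α g (f h) - f (g * h)‖ < ε) ∧
      CuntzSub (1 - ∑ g, f g) x ∧
      1 - ε < ‖(∑ g, f g) * x * ∑ g, f g‖

omit [Fintype G] [DecidableEq G] in
/-- Every quasitrace on `A` is invariant under the action. -/
def InvariantQT (α : G →* (A ≃⋆ₐ[ℂ] A)) : Prop :=
  ∀ (t : QT A) (g : G) (n : ℕ) (a : Mn A n), t.τ n (a.map (α g)) = t.τ n a

end Action

end Pool.Agent.Lib.MP_f90f6c_an.H50
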