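import Pool.Agent.Lib.MP_f90f6c_an.H50LL

/-!
Edwards' condition for lower semicontinuous states on `W(A)`.
-/

namespace Pool.Agent.Lib.MP_f90f6c_an.H50

open Filter Topology

set_option linter.unusedSectionVars false

variable {A : Type*} [CStarAlgebra A] [PartialOrder A] [StarOrderedRing A]

/-- the value of a functional on the (possibly missing) infimum of two classes -/
noncomputable def meetV (s : W A →+ ℝ) (x y : W A) : ℝ := sSup {v | ∃ z, z ≤ x ∧ z ≤ y ∧ v = s z}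

variable {s : W A →+ ℝ}

lemma mono_nonneg (hs : Monotone s) (x : W A) : 0 ≤ s x := by simpa using hs (W.zero_le x)

lemma le_meetV (hs : Monotone s) {x y z : W A} (h1 : z ≤ x) (h2 : z ≤ y) : s z ≤ meetV s x y := by
  refine le_csSup ⟨s x, ?_⟩ ⟨z, h1, h2, rfl⟩
  rintro _ ⟨w, h, -, rfl⟩
  exact hs h

lemma meetV_le {x y : W A} {c : ℝ} (h : ∀ z, z ≤ x → z ≤ y → s z ≤ c) : meetV s x y ≤ c := by
  refine csSup_le ⟨_, 0, W.zero_le _, W.zero_le _, rfl⟩ ?_
  rintro _ ⟨w, h1, h2, rfl⟩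
  exact h w h1 h2

lemma meetV_nonneg (hs : Monotone s) (x y : W A) : 0 ≤ meetV s x y := by
  simpa using le_meetV hs (W.zero_le x) (W.zero_le y)

lemma meetV_le_left (hs : Monotone s) (x y : W A) : meetV s x y ≤ s x :=
  meetV_le fun _ h _ => hs h

lemma meetV_comm (x y : W A) : meetV s x y = meetV s y x := by
  simp only [meetV, and_left_comm]

lemma meetV_mono (hs : Monotone s) {x y x' y' : W A} (h1 : x ≤ x') (h2 : y ≤ y') :
    meetV s x y ≤ meetV s x' y' :=
  meetV_le fun _ h3 h4 => le_meetV hs (h3.trans h1) (h4.trans h2)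

lemma meetV_add_le (hs : Monotone s) (hl : Lsc s) (x x' y : W A) :
    meetV s (x + x') y ≤ meetV s x y + meetV s x' y :=
  meetV_le fun z h1 h2 => le_of_forall_lt fun t ht => by
    obtain ⟨z', h3, h4⟩ := hl z t ht
    obtain ⟨e₁, e₂, p1, p2, p3, p4, p5⟩ := h3.riesz h1
    have := hs p5
    rw [map_add] at this
    linarith [le_meetV hs p2 (p1.trans h2), le_meetV hs p4 (p3.trans h2)]

lemma add_meetV_le (hs : Monotone s) (x y x' y' : W A) :
    meetV s x y + meetV s x' y' ≤ meetV s (x + x') (y + y') := by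
  rw [← le_sub_iff_add_le]
  refine meetV_le fun z h1 h2 => ?_
  rw [le_sub_comm]
  refine meetV_le fun z' h3 h4 => ?_
  have := le_meetV hs (add_le_add h1 h3) (add_le_add h2 h4)
  rw [map_add] at this
  linarith

lemma meetV_nsmul_le (hs : Monotone s) (hl : Lsc s) (x y : W A) (N : ℕ) :
    meetV s (N • x) y ≤ N * meetV s x y := by
  induction N with
  | zero => simpa using meetV_le_left hs 0 y
  | succ N ih =>
    rw [succ_nsmul]
    have := meetV_add_le hs hl (N • x) x y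
    push_cast
    linarith

lemma exists_part (hs : Monotone s) (hl : Lsc s) (c : ℕ → W A) (ω : Ultrafilter ℕ) :
    ∃ (p : W A →+ ℝ) (g : ℕ → W A → ℝ), Monotone p ∧ Monotone (s - p) ∧
      (∀ N w, Tendsto (fun k => meetV s w (N • c k)) ω (𝓝 (g N w))) ∧ (∀ N w, g N w ≤ p w) ∧
      ∀ w t, (∀ N, g N w ≤ t) → p w ≤ t := by
  have h1 : ∀ (N : ℕ) w, ∃ a ∈ Set.Icc 0 (s w), Tendsto (fun k => meetV s w (N • c k)) ω (𝓝 a) :=
    fun N w => isCompact_Icc.ultrafilter_le_nhds (ω.map fun k => meetV s w (N • c k))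
      (le_principal_iff.2 (mem_map.2 (univ_mem' fun k =>
        ⟨meetV_nonneg hs _ _, meetV_le_left hs _ _⟩)))
  choose g hg hg' using h1
  have hb : ∀ w, BddAbove (Set.range fun N => g N w) := fun w => ⟨s w, by
    rintro _ ⟨N, rfl⟩
    exact (hg N w).2⟩
  have hle : ∀ N w, g N w ≤ ⨆ N, g N w := fun N w => le_ciSup (hb w) N
  have hadd : ∀ x y, ⨆ N, g N (x + y) = (⨆ N, g N x) + ⨆ N, g N y := fun x y => by
    refine le_antisymm (ciSup_le fun N => le_trans ?_ (add_le_add (hle N x) (hle N y))) ?_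
    · exact le_of_tendsto_of_tendsto' (hg' N _) ((hg' N x).add (hg' N y)) fun k =>
        meetV_add_le hs hl _ _ _
    · rw [← le_sub_iff_add_le]
      refine ciSup_le fun N => ?_
      rw [le_sub_comm]
      refine ciSup_le fun N' => ?_
      have := le_of_tendsto_of_tendsto' ((hg' N x).add (hg' N' y)) (hg' (N + N') (x + y)) fun k =>
        (add_meetV_le hs _ _ _ _).trans (by rw [add_nsmul])
      linarith [hle (N + N') (x + y)]
  have h0 : ⨆ N, g N 0 = 0 := by
    have := hadd 0 0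
    rw [add_zero] at this
    linarith
  let p : W A →+ ℝ := ⟨⟨fun w => ⨆ N, g N w, h0⟩, hadd⟩
  have hp : Monotone p := fun x y h => ciSup_le fun N => le_trans
    (le_of_tendsto_of_tendsto' (hg' N x) (hg' N y) fun k => meetV_mono hs h le_rfl) (hle N y)
  refine ⟨p, g, hp, fun x y h => ?_, hg', hle, fun w t h => ciSup_le h⟩
  change s x - p x ≤ s y - p y
  rw [sub_le_iff_le_add]
  refine le_of_forall_lt fun t ht => ?_
  obtain ⟨x', h1, h2⟩ := hl x t ht
  obtain ⟨e, h3, h4⟩ := h1.compl h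
  have h5 := hp h4
  have h6 := hs h3
  have h7 : p e ≤ s e := ciSup_le fun N => (hg N e).2
  rw [map_add] at h5 h6
  linarith

theorem exists_edwards_seq {s₀ : W A →+ ℝ} (hs₀ : Monotone s₀) (hl₀ : Lsc s₀) (x y : W A) :
    ∃ z : ℕ → W A, (∀ k, z k ≤ x) ∧ (∀ k, z k ≤ y) ∧
      ∀ s : W A →+ ℝ, Monotone s → Lsc s → (∀ w, s w ≤ s₀ w) → ∀ t : ℝ,
        (∀ p : W A →+ ℝ, Monotone p → Monotone (s - p) → t < p y + (s - p) x) →
          ∀ᶠ k in atTop, t < s (z k) := by
  have h1 : ∀ k : ℕ, ∃ z z' c d e : W A, z ≤ x ∧ z ≤ y ∧ z' + c ≤ x ∧ x ≤ z + c ∧ y ≤ z + d ∧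
      z ≤ z' + e ∧ s₀ e ≤ 1 / ((k : ℝ) + 1) ∧ meetV s₀ d c ≤ 1 / ((k : ℝ) + 1) := fun k => by
    have hk : (0 : ℝ) < 1 / ((k : ℝ) + 1) := by positivity
    obtain ⟨_, ⟨z, h1, h2, rfl⟩, h3⟩ := exists_lt_of_lt_csSup
      (s := {v | ∃ z, z ≤ x ∧ z ≤ y ∧ v = s₀ z}) ⟨_, 0, W.zero_le _, W.zero_le _, rfl⟩
      (sub_lt_self (meetV s₀ x y) hk)
    obtain ⟨z'', h4, h5⟩ := hl₀ z _ h3
    obtain ⟨z', h6, h7⟩ := h4.interp
    obtain ⟨c, c1, c2⟩ := h7.compl h1
    obtain ⟨d, d1, d2⟩ := h7.compl h2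
    obtain ⟨e, e1, e2⟩ := h6.compl h7.le
    have h8 := hs₀ e1
    have h9 := le_meetV hs₀ h1 h2
    have h10 := hs₀ h6.le
    rw [map_add] at h8
    refine ⟨z, z', c, d, e, h1, h2, c1, c2, d2, e2, by linarith, meetV_le fun w w1 w2 => ?_⟩
    have := le_meetV hs₀ ((add_le_add le_rfl w2).trans c1) ((add_le_add le_rfl w1).trans d1)
    rw [map_add] at this
    linarith
  choose z z' c d e h1 h2 h3 h4 h5 h6 h7 h8 using h1
  refine ⟨z, h1, h2, fun s hs hl hle t ht => ?_⟩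
  by_contra hcon
  rw [not_eventually] at hcon
  have := frequently_iff_neBot.1 hcon
  let ω := Ultrafilter.of (atTop ⊓ 𝓟 {k | ¬t < s (z k)})
  have hω := Ultrafilter.of_le (atTop ⊓ 𝓟 {k | ¬t < s (z k)})
  obtain ⟨p, g, hp, hp', hg, hg1, hg2⟩ := exists_part hs hl c ω
  have h9 : p y ≤ p x - s x + t := hg2 _ _ fun N => by
    have h10 : Tendsto (fun k : ℕ => meetV s x ((N + 1) • c k) - s x + t +
        (N + 1) * (1 / ((k : ℝ) + 1))) ω (𝓝 (g (N + 1) x - s x + t + (N + 1) * 0)) :=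
      (((hg (N + 1) x).sub_const _).add_const _).add
        ((tendsto_one_div_add_atTop_nhds_zero_nat.mono_left (hω.trans inf_le_left)).const_mul _)
    have h11 := le_of_tendsto_of_tendsto (hg N y) h10 (by
      filter_upwards [(hω.trans inf_le_right) (mem_principal_self _)] with k hk
      have a1 := meetV_mono hs (h5 k) (le_refl (N • c k))
      have a2 := meetV_add_le hs hl (z k) (d k) (N • c k)
      have a3 := meetV_mono hs (h6 k) (le_refl (N • c k))
      have a4 := meetV_add_le hs hl (z' k) (e k) (N • c k)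
      have a5 := (meetV_le_left hs (e k) (N • c k)).trans ((hle _).trans (h7 k))
      have a6 := meetV_nsmul_le hs hl (c k) (d k) N
      have a7 : meetV s (c k) (d k) ≤ 1 / ((k : ℝ) + 1) :=
        meetV_le fun w w1 w2 => (hle w).trans ((le_meetV hs₀ w2 w1).trans (h8 k))
      have a8 := add_meetV_le hs (z' k) (N • c k) (c k) (c k)
      have a9 := meetV_mono hs (h3 k) (le_refl (N • c k + c k))
      have a10 := le_meetV hs (le_refl (c k)) le_rfl
      have a11 := hs (h4 k)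
      have a12 := mul_le_mul_of_nonneg_left a7 (Nat.cast_nonneg (α := ℝ) N)
      rw [meetV_comm] at a6
      rw [map_add] at a11
      rw [succ_nsmul]
      simp only [not_lt] at hk
      linarith)
    linarith [hg1 (N + 1) x]
  have := ht p hp hp'
  rw [AddMonoidHom.sub_apply] at this
  linarith

/-- `κ` is the defect of an approximate embedding of `x` below both `y₁` and `y₂` -/
def Solves (x y₁ y₂ κ : W A) : Prop := ∃ z, z ≤ y₁ ∧ z ≤ y₂ ∧ x ≤ z + κ

theorem exists_solves {ι : Type*} [Fintype ι] (s : ι → W A →+ ℝ)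
    (hs : ∀ i, IsState (W.u A) (s i)) (hl : ∀ i, Lsc (s i)) {x y₁ y₂ : W A} (h : y₁ ≤ x) {t : ℝ}
    (ht : ∀ p q : W A →+ ℝ, Monotone p → Monotone q → (p + q) (W.u A) = 1 →
      (p + q) x - t < p y₂ + q y₁) : ∃ κ, Solves x y₁ y₂ κ ∧ ∀ i, s i κ < t := by
  have hm : ∀ i, Monotone (s i) := fun i => (hs i).mono
  have hfin : ∀ (S : Finset ι) (w : W A) (r : ι → ℝ), (∀ i ∈ S, r i < s i w) →
      ∃ w', LL w' w ∧ ∀ i ∈ S, r i < s i w' := fun S w r hr => by
    obtain ⟨k, a, ha, rfl⟩ := cls_surj w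
    have : ∀ᶠ ε in 𝓝[>] (0 : ℝ), ∀ i ∈ S, r i < s i (cls (cut ε a)) :=
      (eventually_all_finset S).2 fun i hi => by
        obtain ⟨w', h1, h2⟩ := hl i _ _ (hr i hi)
        obtain ⟨δ, hδ, h3⟩ := h1.exists_cut ha
        filter_upwards [Ioo_mem_nhdsGT hδ] with ε hε
        exact h2.trans_le (hm i (h3.trans (cls_cut_mono hε.2.le a)))
    obtain ⟨ε, h1, hε⟩ := (this.and self_mem_nhdsWithin).exists
    exact ⟨_, LL.cut ha hε, h1⟩
  have hs₀ : Monotone (∑ i, s i : W A →+ ℝ) := fun x y h => by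
    simpa only [AddMonoidHom.finsetSum_apply] using Finset.sum_le_sum fun i _ => hm i h
  have hl₀ : Lsc (∑ i, s i) := fun w r hr => by
    rw [AddMonoidHom.finsetSum_apply] at hr
    have hn : (0 : ℝ) < Fintype.card ι + 1 := by positivity
    obtain ⟨w', h1, h2⟩ := hfin Finset.univ w
      (fun i => s i w - (∑ i, s i w - r) / (Fintype.card ι + 1)) fun i _ =>
        sub_lt_self _ (div_pos (sub_pos.2 hr) hn)
    refine ⟨w', h1, ?_⟩
    have h3 := Finset.sum_le_sum fun i hi => (h2 i hi).le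
    rw [Finset.sum_sub_distrib, Finset.sum_const, Finset.card_univ, nsmul_eq_mul] at h3
    rw [AddMonoidHom.finsetSum_apply]
    have h4 : Fintype.card ι * ((∑ i, s i w - r) / (Fintype.card ι + 1)) < ∑ i, s i w - r := by
      rw [← mul_div_assoc, div_lt_iff₀ hn]
      nlinarith
    linarith
  obtain ⟨z, h1, h2, h3⟩ := exists_edwards_seq hs₀ hl₀ y₁ y₂
  have h4 : ∀ᶠ k in atTop, ∀ i, s i x - t < s i (z k) := eventually_all.2 fun i =>
    h3 (s i) (hm i) (hl i) (fun w => by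
      rw [AddMonoidHom.finsetSum_apply]
      exact Finset.single_le_sum (f := fun i => s i w) (fun j _ => mono_nonneg (hm j) w)
        (Finset.mem_univ i)) _ fun p hp hp' => by
      simpa using ht p (s i - p) hp hp' (by simpa using (hs i).unit)
  obtain ⟨k, hk⟩ := h4.exists
  obtain ⟨z', h5, h6⟩ := hfin Finset.univ (z k) _ fun i _ => hk i
  obtain ⟨κ, h7, h8⟩ := h5.compl ((h1 k).trans h)
  refine ⟨κ, ⟨z k, h1 k, h2 k, h8⟩, fun i => ?_⟩
  have := hm i h7
  rw [map_add] at this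
  linarith [h6 i (Finset.mem_univ i)]

variable (A) in
/-- local solutions can be patched -/
def Patch : Prop := ∀ (x' x y₁ y₂ : W A) (t : ℝ), LL x' x →
  (∀ (k : ℕ) (s : Fin k → W A →+ ℝ), (∀ i, IsState (W.u A) (s i)) → (∀ i, Lsc (s i)) →
    ∃ κ, Solves x y₁ y₂ κ ∧ ∀ i, s i κ < t) →
  ∃ κ, Solves x' y₁ y₂ κ ∧ ∀ s, IsState (W.u A) s → s κ < t

lemma exists_state_smul {p : W A →+ ℝ} (hp : Monotone p) :
    p = 0 ∨ 0 < p (W.u A) ∧ ∃ s, IsState (W.u A) s ∧ ∀ w, p w = p (W.u A) * s w := by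
  rcases (mono_nonneg hp (W.u A)).eq_or_lt with h | h
  · refine Or.inl (AddMonoidHom.ext fun w => le_antisymm ?_ (mono_nonneg hp w))
    obtain ⟨k, hk⟩ := w.exists_le_nsmul
    simpa [← h] using hp hk
  · refine Or.inr ⟨h, (AddMonoidHom.mulLeft (p (W.u A))⁻¹).comp p, ⟨fun x y hxy =>
      mul_le_mul_of_nonneg_left (hp hxy) (inv_nonneg.2 h.le), inv_mul_cancel₀ h.ne'⟩, fun w => ?_⟩
    change _ = _ * (_ * p w)
    rw [← mul_assoc, mul_inv_cancel₀ h.ne', one_mul]

theorem Patch.big_inf (hA : Patch A) {t : ℝ} {x y : W A}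
    (hx : ∀ s, IsState (W.u A) s → t < s x) (hy : ∀ s, IsState (W.u A) s → t < s y) :
    ∃ c, c ≤ x ∧ c ≤ y ∧ ∀ s, IsState (W.u A) s → t < s c := by
  obtain ⟨k, hk⟩ := x.exists_le_nsmul
  obtain ⟨κ, ⟨z, h1, h2, h3⟩, h4⟩ := hA _ _ x y (k - t) (LL.unit k) fun l s hs hl =>
    exists_solves s hs hl hk fun p q hp hq h => by
      rw [map_nsmul, h, nsmul_eq_mul, mul_one, sub_sub_cancel]
      rw [AddMonoidHom.add_apply] at h
      rcases exists_state_smul hp with rfl | ⟨p0, s₁, hs₁, hp1⟩ <;>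
        rcases exists_state_smul hq with rfl | ⟨q0, s₂, hs₂, hq1⟩
      · simp at h
      · simp only [AddMonoidHom.zero_apply, zero_add] at h ⊢
        rw [hq1, h, one_mul]
        exact hx _ hs₂
      · simp only [AddMonoidHom.zero_apply, add_zero] at h ⊢
        rw [hp1, h, one_mul]
        exact hy _ hs₁
      · rw [hp1, hq1]
        have a1 := mul_lt_mul_of_pos_left (hy _ hs₁) p0
        have a2 := mul_lt_mul_of_pos_left (hx _ hs₂) q0
        have a3 : t = p (W.u A) * t + q (W.u A) * t := by rw [← add_mul, h, one_mul]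
        linarith
  refine ⟨z, h1, h2, fun s hs => ?_⟩
  have := hs.mono h3
  rw [hs.nsmul_unit, map_add] at this
  linarith [h4 s hs]

theorem Patch.embed (hA : Patch A) {x' x y : W A} (h : LL x' x)
    (hxy : ∀ s, IsState (W.u A) s → s x ≤ s y) {ε : ℝ} (hε : 0 < ε) :
    ∃ κ, Solves x' x y κ ∧ ∀ s, IsState (W.u A) s → s κ < ε :=
  hA _ _ x y ε h fun l s hs hl => exists_solves s hs hl le_rfl fun p q hp hq _ => by
    rw [AddMonoidHom.add_apply]
    rcases exists_state_smul hp with rfl | ⟨p0, s₁, hs₁, hp1⟩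
    · simpa using hε
    · rw [hp1 x, hp1 y]
      linarith [mul_le_mul_of_nonneg_left (hxy _ hs₁) p0.le]

end Pool.Agent.Lib.MP_f90f6c_an.H50
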