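import Pool.Agent.Lib.MP_f90f6c_an.H50Coin

/-!
Patching local solutions with approximately central partitions that divide all states evenly.
-/

namespace Pool.Agent.Lib.MP_f90f6c_an.H50

open Filter Topology Matrix

set_option linter.unusedSectionVars false

lemma convex_of_closed {E : Type*} [AddCommGroup E] [Module ℝ E] [TopologicalSpace E]
    [IsTopologicalAddGroup E] [ContinuousSMul ℝ E] {S : Set E} (hS : IsClosed S) {p : ℝ}
    (h0 : 0 < p) (h1 : p < 1) (h : ∀ x ∈ S, ∀ y ∈ S, x + p • (y - x) ∈ S) : Convex ℝ S := by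
  refine convex_iff_add_mem.2 fun x hx y hy a b ha hb hab => ?_
  let T : Set ℝ := {t | x + t • (y - x) ∈ S}
  have hT : IsClosed T := hS.preimage (f := fun t : ℝ => x + t • (y - x)) (by fun_prop)
  have h2 : Set.Icc (0 : ℝ) 1 ⊆ T := by
    refine IsClosed.Icc_subset_of_forall_exists_gt (hT.inter isClosed_Icc) (by simpa [T] using hx)
      fun t ht u hu => ?_
    have h3 : ∀ k : ℕ, t + p ^ k * (1 - t) ∈ T := fun k => by
      induction k with
      | zero => simpa [T] using hy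
      | succ k ih =>
        have := h _ ht.1 _ ih
        simp only [T, Set.mem_ofPred_eq]
        convert this using 1
        module
    have h4 : 0 < 1 - t := sub_pos.2 ht.2.2
    obtain ⟨k, hk⟩ := exists_pow_lt_of_lt_one (div_pos (sub_pos.2 hu) h4) h1
    rw [lt_div_iff₀ h4] at hk
    exact ⟨_, h3 k, lt_add_of_pos_right _ (by positivity), by linarith⟩
  have h3 := h2 (a := b) ⟨hb, by linarith⟩
  simp only [T, Set.mem_ofPred_eq] at h3
  convert h3 using 1
  rw [show a = 1 - b by linarith]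
  module

variable {A : Type*} [CStarAlgebra A] [PartialOrder A] [StarOrderedRing A]

lemma exists_weights {P : W A → Prop} {t : ℝ}
    (h : ∀ s, IsState (W.u A) s → ∃ κ, P κ ∧ s κ < t) (hne : ∃ s, IsState (W.u A) s) :
    ∃ (F : Finset {κ // P κ}) (w : F → ℝ) (t' : ℝ), (∀ i, 0 ≤ w i) ∧ ∑ i, w i = 1 ∧ t' < t ∧
      ∀ s, IsState (W.u A) s → ∑ i, w i * s i.1.1 ≤ t' := by
  classical
  let T : Set (W A → ℝ) := {f | (∀ x y, f (x + y) = f x + f y) ∧ Monotone f ∧ f (W.u A) = 1}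
  have hT : ∀ f (hf : f ∈ T), IsState (W.u A) (AddMonoidHom.mk' f hf.1) := fun f hf => ⟨hf.2.1, hf.2.2⟩
  have hT' : ∀ s, IsState (W.u A) s → ⇑s ∈ T := fun s hs => ⟨map_add s, hs.mono, hs.unit⟩
  choose k hk using W.exists_le_nsmul (A := A)
  have hc : IsCompact T := by
    refine (isCompact_univ_pi fun x => isCompact_Icc (a := (0 : ℝ)) (b := k x)).of_isClosed_subset
      ?_ fun f hf x _ => ⟨(hT f hf).nonneg W.zero_le x,
        ((hT f hf).mono (hk x)).trans_eq ((hT f hf).nsmul_unit _)⟩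
    simp only [T, Set.ofPred_and, Set.ofPred_forall, Monotone]
    exact (isClosed_iInter fun x => isClosed_iInter fun y => isClosed_eq (by fun_prop)
      (by fun_prop)).inter ((isClosed_iInter fun x => isClosed_iInter fun y =>
        isClosed_iInter fun _ => isClosed_le (by fun_prop) (by fun_prop)).inter
          (isClosed_eq (by fun_prop) continuous_const))
  obtain ⟨F, hF⟩ := hc.elim_finite_subcover (fun κ : {κ // P κ} => {f | f κ.1 < t})
    (fun κ => isOpen_lt (by fun_prop) continuous_const) fun f hf => by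
      obtain ⟨κ, h1, h2⟩ := h _ (hT f hf)
      exact Set.mem_iUnion.2 ⟨⟨κ, h1⟩, h2⟩
  let L : (W A → ℝ) →ₗ[ℝ] F → ℝ := LinearMap.pi fun i => LinearMap.proj i.1.1
  have hcv : Convex ℝ T := fun f hf g hg a b ha hb hab => ⟨fun x y => by
    simp only [Pi.add_apply, Pi.smul_apply, hf.1, hg.1, smul_eq_mul]
    ring, fun x y hxy => add_le_add (mul_le_mul_of_nonneg_left (hf.2.1 hxy) ha)
      (mul_le_mul_of_nonneg_left (hg.2.1 hxy) hb), by simp [hf.2.2, hg.2.2, hab]⟩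
  obtain ⟨φ, u, v, h1, h2, h3⟩ := geometric_hahn_banach_compact_closed (hcv.linear_image L)
    (hc.image (continuous_pi fun i => continuous_apply _)) (convex_Ici fun _ : F => t) isClosed_Ici
    (Set.disjoint_left.2 (by
      rintro _ ⟨f, hf, rfl⟩ h4
      obtain ⟨κ, h5, h6⟩ := Set.mem_iUnion₂.1 (hF hf)
      exact absurd (h4 ⟨κ, h5⟩) (not_le.2 h6)))
  let w : F → ℝ := fun i => φ (Pi.single i 1)
  have hφ : ∀ x : F → ℝ, φ x = ∑ i, w i * x i := fun x => by
    conv_lhs => rw [pi_eq_sum_univ' x]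
    simp only [map_sum, map_smul, smul_eq_mul, w, mul_comm]
  have hw : ∀ i, 0 ≤ w i := fun i => not_lt.1 fun hi => by
    have h4 := h3 ((fun _ => t) + ((v - φ fun _ => t) / w i) • Pi.single i 1) (Set.mem_Ici.2
      (le_add_of_nonneg_right (smul_nonneg (div_nonneg_of_nonpos
        (sub_nonpos.2 (h3 _ Set.self_mem_Ici).le) hi.le) (Pi.single_nonneg.2 zero_le_one))))
    rw [map_add, map_smul, smul_eq_mul, div_mul_cancel₀ _ hi.ne] at h4
    linarith
  have h4 := h3 _ Set.self_mem_Ici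
  rw [hφ, ← Finset.sum_mul] at h4
  have h5 : ∀ s, IsState (W.u A) s → ∑ i, w i * s i.1.1 < u := fun s hs =>
    (hφ (L s)).ge.trans_lt (h1 _ ⟨s, hT' s hs, rfl⟩)
  have h6 : 0 < ∑ i, w i := (Finset.sum_nonneg fun i _ => hw i).lt_of_ne' fun h0 => by
    obtain ⟨s, hs⟩ := hne
    have h7 := h5 s hs
    simp only [(Finset.sum_eq_zero_iff_of_nonneg fun i _ => hw i).1 h0 _ (Finset.mem_univ _),
      zero_mul, Finset.sum_const_zero] at h7 h4
    linarith
  refine ⟨F, fun i => w i / ∑ i, w i, u / ∑ i, w i, fun i => div_nonneg (hw i) h6.le, ?_, ?_,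
    fun s hs => ?_⟩
  · rw [← Finset.sum_div, div_self h6.ne']
  · rw [div_lt_iff₀ h6]
    linarith
  · simp only [div_mul_eq_mul_div, ← Finset.sum_div]
    exact div_le_div_of_nonneg_right (h5 s hs).le h6.le

variable {J : Type*} [Fintype J] [DecidableEq J] {I : Type*} {l : Filter I}

variable (l) in
/-- approximately central orthogonal families that divide all states evenly -/
structure Coin (e : I → J → A) (η : ℝ) : Prop where
  ac : ∀ j, AC l fun i => e i j
  orth : ∀ i j k, j ≠ k → e i j * e i k = 0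
  fair : ∀ j (k : ℕ) (c : Matrix (Fin k) (Fin k) A), 0 ≤ c → ∀ δ θ η' : ℝ, 0 < δ → 0 < θ → 0 < η' →
    ∀ᶠ i in l, ∀ s, IsState (W.u A) s →
      s (Phi θ (e i j) (cut δ c)) ≤ s (cls c) / Fintype.card J + η'
  small : ∀ θ : ℝ, 0 < θ → ∀ᶠ i in l, ∀ s, IsState (W.u A) s →
    s (cls1 (cut θ (1 - ∑ j, e i j * e i j))) ≤ η

lemma sum_phi_le' {e : I → J → A} (h : ∀ j, AC l fun i => e i j)
    (ho : ∀ i j k, j ≠ k → e i j * e i k = 0) {k : J → ℕ}
    {b : ∀ j, Matrix (Fin (k j)) (Fin (k j)) A} (hb : ∀ j, 0 ≤ b j) {θ : J → ℝ} (hθ : ∀ j, 0 < θ j)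
    {y : W A} (hy : ∀ j, cls (b j) ≤ y) : ∀ᶠ i in l, ∑ j, Phi (θ j) (e i j) (b j) ≤ y := by
  obtain ⟨r, c, hc, rfl⟩ := cls_surj y
  choose θ' h1 h2 using fun j => (h j).phi_le (hb j) hc (hy j) (hθ j)
  obtain ⟨θ₀, h3, h4⟩ := ((eventually_all.2 fun j => Ioo_mem_nhdsGT (h1 j)).and
    (self_mem_nhdsWithin (a := (0 : ℝ)) (s := Set.Ioi 0))).exists
  filter_upwards [eventually_all.2 h2, sum_phi_le h ho hc h4] with i p1 p2
  exact (Finset.sum_le_sum fun j _ => (p1 j).trans (Phi_mono (h3 j).2.le _ _)).trans p2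

lemma exists_mix (h : ∀ η > 0, ∃ (l : Filter I) (_ : l.NeBot) (e : I → J → A), Coin l e η)
    {m : Type*} [Fintype m] [DecidableEq m] {a : Matrix m m A} (ha : 0 ≤ a) {δ₁ δ₂ : ℝ}
    (hδ : δ₁ < δ₂) {y₁ y₂ : W A} {κ : J → W A} (hκ : ∀ j, Solves (cls (cut δ₁ a)) y₁ y₂ (κ j))
    {η : ℝ} (hη : 0 < η) : ∃ κ', Solves (cls (cut δ₂ a)) y₁ y₂ κ' ∧
      ∀ s, IsState (W.u A) s → s κ' ≤ (∑ j, s (κ j)) / Fintype.card J + η := by
  choose z h1 h2 h3 using hκ
  choose k b hb hb' using fun j => cls_surj (z j)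
  choose k' c hc hc' using fun j => cls_surj (κ j)
  have h4 : ∀ j, ∃ ε > 0, cls (cut ((δ₁ + δ₂) / 2) a) ≤ cls (b j) + cls (cut ε (c j)) := fun j => by
    obtain ⟨z₁, z₂, p1, p2, p3⟩ := ((LL.cut_cut ha (show δ₁ < (δ₁ + δ₂) / 2 by linarith)).mono le_rfl
      (h3 j)).split
    obtain ⟨ε, hε, p4⟩ := (hc' j ▸ p2).exists_cut (hc j)
    exact ⟨ε, hε, p3.trans (add_le_add (p1.le.trans (hb' j).ge) p4)⟩
  choose ε hε h4 using h4
  have hK : (0 : ℝ) < Fintype.card J + Fintype.card m + 1 := by positivity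
  obtain ⟨l, _, e, C⟩ := h _ (div_pos hη hK)
  obtain ⟨θ, hθ, h5⟩ := le_sum_phi C.ac C.orth (cut_nonneg ((δ₁ + δ₂) / 2) a)
    (show 0 < (δ₂ - δ₁) / 2 by linarith)
  rw [cut_cut (by linarith) (.of_nonneg ha), show (δ₂ - δ₁) / 2 + (δ₁ + δ₂) / 2 = δ₂ by ring] at h5
  choose θ' hθ' h6 using fun j => (C.ac j).phi_le_add (cut_nonneg _ _) (hb j) (cut_nonneg _ _)
    (h4 j) hθ
  obtain ⟨i, p1, p2, p3, p4, p5, p6⟩ := (h5.and ((eventually_all.2 h6).and
    ((sum_phi_le' C.ac C.orth hb hθ' fun j => (hb' j).trans_le (h1 j)).and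
    ((sum_phi_le' C.ac C.orth hb hθ' fun j => (hb' j).trans_le (h2 j)).and
    ((eventually_all.2 fun j => C.fair j _ _ (hc j) _ _ _ (hε j) (hθ' j) (div_pos hη hK)).and
    (C.small θ hθ)))))).exists
  refine ⟨∑ j, Phi (θ' j) (e i j) (cut (ε j) (c j)) +
    Fintype.card m • cls1 (cut θ (1 - ∑ j, e i j * e i j)), ⟨_, p3, p4, p1.trans ?_⟩, fun s hs => ?_⟩
  · rw [← add_assoc, ← Finset.sum_add_distrib]
    exact add_le_add (Finset.sum_le_sum fun j _ => p2 j) le_rfl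
  · have q1 := Finset.sum_le_sum fun j (_ : j ∈ Finset.univ) => p5 j s hs
    have q2 := mul_le_mul_of_nonneg_left (p6 s hs) (Nat.cast_nonneg (α := ℝ) (Fintype.card m))
    simp only [hc', Finset.sum_add_distrib, Finset.sum_const, Finset.card_univ, nsmul_eq_mul,
      ← Finset.sum_div] at q1
    rw [map_add, map_sum, map_nsmul, nsmul_eq_mul]
    have q3 := div_mul_cancel₀ η hK.ne'
    have q4 := div_pos hη hK
    nlinarith

theorem patch_of_coins [Nontrivial J]
    (h : ∀ η > 0, ∃ (l : Filter I) (_ : l.NeBot) (e : I → J → A), Coin l e η) : Patch A := by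
  rintro x' x y₁ y₂ t ⟨k, a, ε, ha, hε, h1, h2⟩ H
  let P : W A → Prop := fun κ => ∃ δ < ε, Solves (cls (cut δ a)) y₁ y₂ κ
  by_cases hne : ∃ s, IsState (W.u A) s
  swap
  · exact ⟨x', ⟨0, W.zero_le _, W.zero_le _, by simp⟩, fun s hs => absurd ⟨s, hs⟩ hne⟩
  obtain ⟨F, w, t', hw, hw1, ht, hF⟩ := exists_weights (P := P) (t := t) (fun s hs => by
    obtain ⟨s', p1, p2, -, p3⟩ := hs.exists_lsc
    obtain ⟨κ, ⟨z, q1, q2, q3⟩, q4⟩ := H 1 (fun _ => s') (fun _ => p1) fun _ => p2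
    obtain ⟨z', κ', r1, r2, r3⟩ := ((LL.cut ha (half_pos hε)).mono le_rfl (h2.trans q3)).split
    exact ⟨κ', ⟨_, half_lt_self hε, z', r1.le.trans q1, r1.le.trans q2, r3⟩,
      (p3 _ _ r2).trans_lt (q4 0)⟩) hne
  let S : Set (F → ℝ) := {v | ∀ η > 0, ∃ κ, P κ ∧
    ∀ s, IsState (W.u A) s → s κ ≤ ∑ i, v i * s i.1.1 + η}
  have hS : IsClosed S := by
    choose r hr using W.exists_le_nsmul (A := A)
    refine isClosed_of_closure_subset fun v hv η hη => ?_
    have hc : Continuous fun v' : F → ℝ => ∑ i, |v' i - v i| * r i.1.1 := by fun_prop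
    obtain ⟨v', p1, p2⟩ := mem_closure_iff_nhds.1 hv _ ((hc.tendsto v).eventually
      (gt_mem_nhds (show _ < η / 2 by simpa using hη)))
    obtain ⟨κ, p3, p4⟩ := p2 _ (half_pos hη)
    refine ⟨κ, p3, fun s hs => (p4 s hs).trans ?_⟩
    have p5 : ∑ i, (v' i * s i.1.1 - v i * s i.1.1) ≤ ∑ i, |v' i - v i| * r i.1.1 :=
      Finset.sum_le_sum fun i _ => by
        rw [← sub_mul]
        exact mul_le_mul (le_abs_self _) ((hs.mono (hr _)).trans_eq (hs.nsmul_unit _))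
          (hs.nonneg W.zero_le _) (abs_nonneg _)
    rw [Finset.sum_sub_distrib] at p5
    simp only [Set.mem_ofPred_eq] at p1
    linarith
  have hn : (1 : ℝ) < Fintype.card J := Nat.one_lt_cast.2 Fintype.one_lt_card
  obtain ⟨j₀⟩ : Nonempty J := inferInstance
  have hcv : Convex ℝ S := convex_of_closed hS (inv_pos.2 (one_pos.trans hn))
    (inv_lt_one_of_one_lt₀ hn) fun v hv v' hv' η hη => by
      obtain ⟨κ, ⟨δ, p1, p2⟩, p3⟩ := hv _ (half_pos hη)
      obtain ⟨κ', ⟨δ', q1, q2⟩, q3⟩ := hv' _ (half_pos hη)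
      obtain ⟨δ'', r1, r2⟩ := exists_between (max_lt p1 q1)
      obtain ⟨κ'', r3, r4⟩ := exists_mix h ha r1 (y₁ := y₁) (y₂ := y₂)
        (κ := fun j => if j = j₀ then κ' else κ) (fun j => by
          split_ifs
          · exact q2.imp fun z hz => ⟨hz.1, hz.2.1, (cls_cut_mono (le_max_right _ _) a).trans hz.2.2⟩
          · exact p2.imp fun z hz => ⟨hz.1, hz.2.1, (cls_cut_mono (le_max_left _ _) a).trans hz.2.2⟩)
        (half_pos hη)
      refine ⟨κ'', ⟨δ'', r2, r3⟩, fun s hs => (r4 s hs).trans ?_⟩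
      have e1 : ∑ j, s (if j = j₀ then κ' else κ) = Fintype.card J * s κ + (s κ' - s κ) := by
        have : ∀ j, s (if j = j₀ then κ' else κ) = s κ + if j = j₀ then s κ' - s κ else 0 :=
          fun j => by split_ifs <;> ring
        simp [this, Finset.sum_add_distrib]
      have e2 : ∑ i, (v + (Fintype.card J : ℝ)⁻¹ • (v' - v)) i * s i.1.1 = ∑ i, v i * s i.1.1 +
          (Fintype.card J : ℝ)⁻¹ * (∑ i, v' i * s i.1.1 - ∑ i, v i * s i.1.1) := by
        simp only [Pi.add_apply, Pi.smul_apply, Pi.sub_apply, smul_eq_mul, add_mul, mul_assoc,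
          sub_mul, Finset.sum_add_distrib, ← Finset.mul_sum, Finset.sum_sub_distrib]
      have hn0 : (0 : ℝ) < Fintype.card J := one_pos.trans hn
      rw [e1, e2, add_div, mul_div_cancel_left₀ _ hn0.ne', div_eq_inv_mul]
      have a1 := mul_le_mul_of_nonneg_left (p3 s hs) (sub_nonneg.2 (inv_lt_one_of_one_lt₀ hn).le)
      have a2 := mul_le_mul_of_nonneg_left (q3 s hs) (inv_pos.2 hn0).le
      linarith
  have hw' : w ∈ S := by
    classical
    rw [pi_eq_sum_univ' w]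
    refine hcv.sum_mem (fun i _ => hw i) hw1 fun i _ η hη => ⟨i.1.1, i.1.2, fun s _ => ?_⟩
    simpa [Pi.single_apply] using hη.le
  obtain ⟨κ, ⟨δ, p1, z, p2, p3, p4⟩, p5⟩ := hw' _ (half_pos (sub_pos.2 ht))
  exact ⟨κ, ⟨z, p2, p3, h1.trans ((cls_cut_mono p1.le a).trans p4)⟩,
    fun s hs => by linarith [p5 s hs, hF s hs]⟩

end Pool.Agent.Lib.MP_f90f6c_an.H50
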