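import Pool.Agent.Lib.MP_f90f6c_an.H50Main
import Pool.Agent.Lib.MP_f90f6c_an.H50Mix

/-!
Three situations in which local solutions can be patched.
-/

namespace Pool.Agent.Lib.MP_f90f6c_an.H50

open Filter Topology Matrix

set_option linter.unusedSectionVars false

variable {A : Type*} [CStarAlgebra A] [PartialOrder A] [StarOrderedRing A]

lemma IsState.exists_qt_LL {s : W A →+ ℝ} (hs : IsState (W.u A) s) :
    ∃ t : QT A, ∀ (k : ℕ) (a : Matrix (Fin k) (Fin k) A), 0 ≤ a →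
      dimS (t.tm k) a ≤ s (cls a) ∧ ∀ x, LL x (cls a) → s x ≤ dimS (t.tm k) a :=
  hs.exists_qt'.imp fun t ht k a ha => by
    rw [← t.d_eq ha]
    refine ⟨(ht k a ha).1, fun x hx => ?_⟩
    obtain ⟨δ, hδ, h⟩ := hx.exists_cut ha
    exact (hs.mono h).trans ((ht k a ha).2 δ hδ)

theorem FiniteQT.patch (h : FiniteQT A) : Patch A := by
  obtain ⟨k, σ, hσ⟩ := h
  intro x' x y₁ y₂ t hx H
  choose s hs hs' using fun i => (σ i).exists_state
  choose s' p1 p2 _ p4 using fun i => (hs i).exists_lsc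
  obtain ⟨κ, ⟨z, q1, q2, q3⟩, q4⟩ := H k s' p1 p2
  obtain ⟨z', κ', r1, r2, r3⟩ := (hx.mono le_rfl q3).split
  obtain ⟨κ₁, r4, r5⟩ := r2.interp
  obtain ⟨m, c, hc, rfl⟩ := cls_surj κ₁
  refine ⟨κ', ⟨z', r1.le.trans q1, r1.le.trans q2, r3⟩, fun s₀ hs₀ => ?_⟩
  obtain ⟨τ, hτ⟩ := hs₀.exists_qt_LL
  obtain ⟨w, w0, w1, hw⟩ := hσ τ
  have h1 : dimS (τ.tm m) c ≤ ∑ i, w i * s' i κ := dimS_le fun f hf => by
    rw [QT.tm, hw, Complex.re_sum]
    refine Finset.sum_le_sum fun i _ => ?_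
    rw [Complex.re_ofReal_mul]
    refine mul_le_mul_of_nonneg_left ((((σ i).isQ m).le_dimS hc hf).trans ?_) (w0 i)
    rw [← (σ i).d_eq hc, ← hs' i m c hc]
    exact p4 i _ _ r5
  refine (((hτ m c hc).2 _ r4).trans h1).trans_lt ?_
  obtain ⟨i, -, hi⟩ := Finset.exists_ne_zero_of_sum_ne_zero (w1.trans_ne one_ne_zero)
  refine (Finset.sum_lt_sum (g := fun i => w i * t)
    (fun i _ => mul_le_mul_of_nonneg_left (q4 i).le (w0 i))
    ⟨i, Finset.mem_univ i, mul_lt_mul_of_pos_left (q4 i) ((w0 i).lt_of_ne' hi)⟩).trans_eq ?_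
  rw [← Finset.sum_mul, w1, one_mul]

section Invariant

variable {G : Type*} [Group G] [Fintype G] [DecidableEq G] {α : G →* (A ≃⋆ₐ[ℂ] A)}

lemma InvariantQT.state_le (h : InvariantQT α) {s : W A →+ ℝ} (hs : IsState (W.u A) s) (g : G)
    {x' x : W A} (hx : LL x' x) : s (actW α g x') ≤ s x := by
  obtain ⟨k, a, ha, rfl⟩ := cls_surj x
  obtain ⟨τ, hτ⟩ := hs.exists_qt_LL
  have h1 : LL (actW α g x') (actW α g (cls a)) := hx.map (α g).toStarAlgHom
  rw [actW_cls g ha] at h1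
  refine ((hτ k _ (map_act_nonneg g ha)).2 _ h1).trans (le_trans (dimS_le fun f hf => ?_)
    (hτ k a ha).1)
  have h2 : cfc f (a.map (α g)) = (cfc f a).map (α g) :=
    (map_cfc_matrix (α g).toStarAlgHom hf.cont (.of_nonneg ha)).symm
  have h3 : τ.tm k ((cfc f a).map (α g)) = τ.tm k (cfc f a) :=
    h τ g k (CStarMatrix.ofMatrix (cfc f a))
  rw [h2, h3]
  exact (τ.isQ k).le_dimS ha hf

variable {x : A} {I : Type*} {l : Filter I} {f : I → G → A} {δ : I → ℝ}

lemma Towers.ac (T : Towers α x l f δ) (g : G) : AC l fun i => f i g :=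
  ⟨fun i => T.nonneg i g, fun i => T.norm_le i g, T.comm g⟩

lemma Towers.actW_phi_le (T : Towers α x l f δ) (g k : G) {m : Type*} [Fintype m] [DecidableEq m]
    {c : Matrix m m A} (hc : 0 ≤ c) {θ : ℝ} (hθ : 0 < θ) :
    ∀ᶠ i in l, actW α k (Phi θ (f i g) c) ≤ Phi (θ / 2) (f i (k * g)) (c.map (α k)) := by
  obtain ⟨e, he, he', -, -⟩ := T.exists_rep
  have r1 := ((he' k g).dg.mul (RepM.const (c.map (α k)))).mul (he' k g).dg
  have r2 := ((he (k * g)).dg.mul (RepM.const (c.map (α k)))).mul (he (k * g)).dg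
  filter_upwards [eventually_norm_lt r1 r2 (half_pos hθ)] with i hi
  have p1 := dg_conj_nonneg (T.nonneg i g) hc
  have p2 := dg_conj_nonneg (T.nonneg i (k * g)) (map_act_nonneg (α := α) k hc)
  have e1 : (dg m (f i g) * c * dg m (f i g)).map (α k) =
      dg m (α k (f i g)) * c.map (α k) * dg m (α k (f i g)) := by
    ext r s
    simp [dg]
  have e2 : (cut θ (dg m (f i g) * c * dg m (f i g))).map (α k) =
      cut θ ((dg m (f i g) * c * dg m (f i g)).map (α k)) :=
    map_cut (α k).toStarAlgHom θ (.of_nonneg p1)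
  rw [Phi, actW_cls k (cut_nonneg _ _), e2]
  refine cls_cut_le_of_near (.of_nonneg (map_act_nonneg k p1)) (cut_nonneg _ _) ?_
  rw [e1]
  refine lt_of_le_of_lt (norm_sub_le_norm_sub_add_norm_sub _
    (dg m (f i (k * g)) * c.map (α k) * dg m (f i (k * g))) _) ?_
  linarith [norm_sub_cut (half_pos hθ).le p2]

lemma Towers.coin (T : Towers α x l f δ) (h : InvariantQT α) (hx : 0 ≤ x) {η : ℝ}
    (hη : ∀ s, IsState (W.u A) s → s (cls1 x) ≤ η) : Coin l f η := by
  refine ⟨T.ac, T.orth, fun g k c hc δ θ η' hδ hθ hη' => ?_, fun θ hθ => Eventually.of_forall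
    fun i s hs => le_trans (hs.mono (cls1_le (cut_nonneg _ _) hx ?_)) (hη s hs)⟩
  · have key : ∀ j, ∃ θ' > 0, ∀ᶠ i in l, ∀ s, IsState (W.u A) s →
        s (Phi θ (f i g) (cut δ c)) ≤ s (Phi θ' (f i j) c) + η' := fun j => by
      obtain ⟨N, M, hN, h1, h2⟩ := rel_of_states (b := cls c)
        (x' := actW α (j * g⁻¹) (cls (cut δ c))) (x := actW α (j * g⁻¹) (cls (cut (δ / 2) c)))
        ((LL.cut_cut hc (half_lt_self hδ)).map (α (j * g⁻¹)).toStarAlgHom) hη' fun s hs =>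
          (h.state_le hs _ (LL.cut hc (half_pos hδ))).trans_lt (lt_add_of_pos_right _ hη')
      rw [actW_cls _ (cut_nonneg _ _)] at h1
      obtain ⟨θ', hθ', h3⟩ := (T.ac j).phi_le_nsmul (map_act_nonneg _ (cut_nonneg _ _)) hc h1
        (half_pos (half_pos hθ))
      refine ⟨θ', hθ', ?_⟩
      filter_upwards [h3, T.actW_phi_le g (j * g⁻¹) (cut_nonneg δ c) hθ] with i p1 p2 s hs
      rw [inv_mul_cancel_right] at p2
      have p3 := h.state_le hs (j * g⁻¹)⁻¹ ((LL.cut_cut (dg_conj_nonneg (T.nonneg i j)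
        (map_act_nonneg (α := α) (j * g⁻¹) (cut_nonneg δ c))) (half_lt_self (half_pos hθ))).mono
          p2 le_rfl)
      have p4 := actW_actW_inv (α := α) (j * g⁻¹)⁻¹ (Phi θ (f i g) (cut δ c))
      rw [inv_inv] at p4
      rw [p4] at p3
      have p5 := hs.mono p1
      rw [map_add, map_nsmul, map_nsmul, hs.nsmul_unit, nsmul_eq_mul, nsmul_eq_mul] at p5
      refine p3.trans (le_of_mul_le_mul_left (p5.trans ?_) (Nat.cast_pos.2 hN))
      linarith
    choose θ' hθ' key using key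
    filter_upwards [eventually_all.2 key, sum_phi_le' T.ac T.orth (k := fun _ => k)
      (b := fun _ => c) (fun _ => hc) hθ' fun _ => le_rfl] with i p1 p2 s hs
    have hn : (0 : ℝ) < Fintype.card G := Nat.cast_pos.2 Fintype.card_pos
    have p3 := Finset.sum_le_sum fun j (_ : j ∈ Finset.univ) => p1 j s hs
    have p4 := hs.mono p2
    rw [map_sum] at p4
    simp only [Finset.sum_add_distrib, Finset.sum_const, Finset.card_univ, nsmul_eq_mul] at p3
    rw [div_add' _ _ _ hn.ne', le_div_iff₀ hn]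
    linarith
  · have hF : ∑ g, f i g * f i g = (∑ g, f i g) ^ 2 := by
      rw [sq, Finset.sum_mul_sum]
      refine Finset.sum_congr rfl fun g _ =>
        (Finset.sum_eq_single (f := fun j => f i g * f i j) g ?_ ?_).symm
      · exact fun h _ hg => T.orth i g h hg.symm
      · simp
    have hf0 : 0 ≤ ∑ g, f i g := Finset.sum_nonneg fun g _ => T.nonneg i g
    exact CSub.tail hf0 hx (T.small i) (hF ▸ (IsSelfAdjoint.of_nonneg hf0).pow 2) 2
      (by simpa [hF] using hθ)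

theorem InvariantQT.patch [Nontrivial G] (h : InvariantQT α) (hA : IsSimple A)
    (hinf : ¬FiniteDimensional ℂ A) (hα : WeakTracialRokhlin α) : Patch A :=
  patch_of_coins (J := G) (I := Finset A × ℕ) fun η hη => by
    obtain ⟨M, hM⟩ := exists_nat_one_div_lt hη
    obtain ⟨x, hx, hx', hxM⟩ := hA.exists_small hinf (M + 1)
    obtain ⟨l, _, f, δ, T⟩ := hα.exists_towers hx hx'
    refine ⟨l, inferInstance, f, T.coin h hx fun s hs => le_trans ?_ hM.le⟩
    have := hs.mono hxM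
    rw [map_nsmul, hs.unit, nsmul_eq_mul] at this
    rw [le_div_iff₀ (by positivity), mul_comm]
    exact_mod_cast this

end Invariant

end Pool.Agent.Lib.MP_f90f6c_an.H50
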