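import Pool.Agent.Lib.MP_f90f6c_an.H50Fair

/-!
Uniform property Γ allows patching.
-/

namespace Pool.Agent.Lib.MP_f90f6c_an.H50

open Filter Topology Matrix

set_option linter.unusedSectionVars false

section Alg

variable {E : Type*} [CStarAlgebra E] [PartialOrder E] [StarOrderedRing E] {τ : E → ℂ}

lemma IsQuasitrace.smul_sa (hτ : IsQuasitrace τ) {a : E} (ha : IsSelfAdjoint a) (c : ℂ) :
    τ (c • a) = c * τ a := by
  have := ha.isStarNormal
  exact hτ.smul_of_comm _ (StarAlgebra.elemental.isClosed ℂ a) (elemental_comm a) c a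
    (StarAlgebra.elemental.self_mem ℂ a)

/-- an additive quasitrace as a linear map -/
noncomputable def IsQuasitrace.lin (hτ : IsQuasitrace τ) (h : ∀ a b, τ (a + b) = τ a + τ b) :
    E →ₗ[ℂ] ℂ where
  toFun := τ
  map_add' := h
  map_smul' c x := by
    conv_lhs => rw [← realPart_add_I_smul_imaginaryPart x, smul_add, smul_smul, h,
      hτ.smul_sa (realPart x).2, hτ.smul_sa (imaginaryPart x).2]
    conv_rhs => rw [← realPart_add_I_smul_imaginaryPart x,
      hτ.re_add_im _ _ (realPart x).2 (imaginaryPart x).2]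
    simp only [RingHom.id_apply, smul_eq_mul]
    ring

lemma IsQuasitrace.mul_comm (hτ : IsQuasitrace τ) (h : ∀ a b, τ (a + b) = τ a + τ b) (x y : E) :
    τ (x * y) = τ (y * x) := by
  have h0 : ∀ z, hτ.lin h (star z * z) = hτ.lin h (z * star z) := hτ.star_mul_eq
  have h1 := h0 (star x + y)
  have h2 := h0 (star x + Complex.I • y)
  have h3 := h0 (star x)
  have h4 := h0 y
  simp only [star_add, star_star, star_smul, add_mul, mul_add, map_add, smul_mul_assoc,
    mul_smul_comm, map_smul, smul_eq_mul, RCLike.star_def, Complex.conj_I] at h1 h2 h3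
  change hτ.lin h (x * y) = hτ.lin h (y * x)
  linear_combination (1 / 2) * h1 - (Complex.I / 2) * h2 - (1 / 2 - Complex.I / 2) * h3 -
    (1 / 2 - Complex.I / 2) * h4 + (1 / 2 : ℂ) * (hτ.lin h (x * y) - hτ.lin h (y * x) -
      hτ.lin h (star y * star x) + hτ.lin h (star x * star y) - Complex.I * hτ.lin h (star y * y) +
        Complex.I * hτ.lin h (y * star y)) * Complex.I_mul_I

lemma IsQuasitrace.dimS_cut_le (hτ : IsQuasitrace τ) {u : E} (hu : 0 ≤ u) {ρ : ℝ} (hρ : 0 < ρ) :
    dimS τ (cut ρ u) ≤ ρ⁻¹ * (τ u).re := dimS_le fun f hf => by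
  have h1 := hτ.cfc_le hu (f := fun t => f (max (t - ρ) 0)) (g := fun t => ρ⁻¹ • t)
    (hf.cont.comp (by fun_prop)) (by fun_prop) (c := 0) fun t ht => by
      have h0 := spectrum_nonneg_of_nonneg hu ht
      rw [add_zero, smul_eq_mul]
      rcases le_total t ρ with h | h
      · rw [max_eq_right (sub_nonpos.2 h), hf.zero]
        positivity
      · exact (hf.le_one _).trans (by rwa [le_inv_mul_iff₀ hρ, mul_one])
  rwa [cfc_smul ρ⁻¹ _ u, cfc_id' ℝ u, hτ.re_smul (.of_nonneg hu), zero_mul, add_zero,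
    cfc_comp' f _ u hf.cont.continuousOn] at h1

lemma csub_cut_of_approx {u y : E} (hu : 0 ≤ u) (hu1 : u ≤ 1) (hy : 0 ≤ y) {η θ : ℝ} (hη : 0 < η)
    (h : 2 * ‖(1 - u) * y‖ < η * θ) : CSub (cut θ y) (cut (1 - η) u) := by
  have hs : IsSelfAdjoint u := .of_nonneg hu
  have hsp : ∀ t ∈ spectrum ℝ u, t ≤ 1 := (CFC.le_one_iff (R := ℝ) u).1 hu1
  have hpos : ∀ t : ℝ, 0 < max η (1 - t) := fun t => lt_max_of_lt_left hη
  have q1 : Continuous fun t : ℝ => (max η (1 - t))⁻¹ :=
    Continuous.inv₀ (by fun_prop) fun t => (hpos t).ne'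
  set K := cfc (fun t => η⁻¹ * max (t - (1 - η)) 0) u with hK
  have hKs : star K = K := star_cfc _ _
  have e1 : 1 - K = cfc (fun t => (max η (1 - t))⁻¹) u * (1 - u) := by
    have q2 : Continuous fun t : ℝ => (max η (1 - t))⁻¹ * t := q1.mul continuous_id'
    rw [mul_sub, mul_one, cfc_mul_id q1 hs, ← cfc_sub _ _ _ q1.continuousOn q2.continuousOn, hK, ← cfc_const_one ℝ u,
      ← cfc_sub _ _ _ (by fun_prop) (by fun_prop)]
    refine cfc_congr fun t _ => ?_
    rcases le_total t (1 - η) with h | h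
    · have := hpos t
      rw [max_eq_right (by linarith : η ≤ 1 - t)] at this ⊢
      rw [max_eq_right (sub_nonpos.2 h)]
      field_simp
      ring
    · rw [max_eq_left (by linarith : 1 - t ≤ η), max_eq_left (sub_nonneg.2 h)]
      field_simp
      ring
  have n1 : ‖cfc (fun t => (max η (1 - t))⁻¹) u‖ ≤ η⁻¹ :=
    norm_cfc_le (inv_nonneg.2 hη.le) fun t _ => by
      rw [Real.norm_eq_abs, abs_of_pos (inv_pos.2 (hpos t))]
      exact inv_anti₀ hη (le_max_left _ _)
  have n2 : ‖K‖ ≤ 1 := norm_cfc_le zero_le_one fun t ht => by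
    rw [Real.norm_eq_abs, abs_of_nonneg (by positivity), inv_mul_le_iff₀ hη, mul_one]
    exact max_le (by linarith [hsp t ht]) hη.le
  have n3 : ‖(1 - K) * y‖ ≤ η⁻¹ * ‖(1 - u) * y‖ := by
    rw [e1, mul_assoc]
    exact (norm_mul_le _ _).trans (mul_le_mul_of_nonneg_right n1 (norm_nonneg _))
  have n4 : ‖y * (1 - K)‖ = ‖(1 - K) * y‖ := by
    rw [← norm_star]
    simp [hKs, (IsSelfAdjoint.of_nonneg hy).star_eq]
  have n5 : ‖y - K * y * K‖ < θ := by
    have e2 : y - K * y * K = (1 - K) * y + K * (y * (1 - K)) := by noncomm_ring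
    have h1 := norm_mul_le K (y * (1 - K))
    have h2 := mul_le_mul_of_nonneg_right n2 (norm_nonneg (y * (1 - K)))
    have h3 : η⁻¹ * (2 * ‖(1 - u) * y‖) < θ := by rwa [inv_mul_lt_iff₀ hη]
    rw [e2]
    linarith [norm_add_le ((1 - K) * y) (K * (y * (1 - K)))]
  have p1 : 0 ≤ K * y * K := by simpa [hKs] using star_left_conjugate_nonneg hy K
  have h1 := star_left_conjugate_le_conjugate (IsSelfAdjoint.of_nonneg hy).le_algebraMap_norm_self K
  rw [hKs, Algebra.algebraMap_eq_smul_one, mul_smul_comm, mul_one, smul_mul_assoc] at h1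
  refine (CSub.cut_of_near (.of_nonneg hy) p1 n5).trans (((CSub.of_le p1 h1).trans
    (CSub.smul (norm_nonneg _) _)).trans ?_)
  rw [hK, cfc_mul_cfc (by fun_prop) (by fun_prop), cut]
  exact CSub.cfc_supp hs (by fun_prop) (by fun_prop) (fun t _ => mul_self_nonneg _)
    (fun t _ => le_max_right _ _) fun t _ ht => by simp [ht]

end Alg

variable {A : Type*} [CStarAlgebra A] [PartialOrder A] [StarOrderedRing A]

lemma QT.tm_conj (t : QT A) (h : QTAreTraces A) {k : ℕ} {a : Matrix (Fin k) (Fin k) A}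
    (ha : aᴴ = a) {e : A} (he : 0 ≤ e) :
    t.tm k (a * dg (Fin k) e * a) = ∑ r, t.tr ((a * a) r r * e) := by
  let x : Fin k → Matrix (Fin k) (Fin 1) A := fun r => Matrix.of fun i _ => a i r * rt e
  have has : ∀ i j, star (a i j) = a j i := fun i j => by
    conv_rhs => rw [← ha]
    rfl
  have e1 : a * dg (Fin k) e * a = ∑ r, x r * (x r)ᴴ := by
    ext i j
    simp [x, dg, Matrix.mul_apply, Matrix.sum_apply, star_rt, has, mul_assoc,
      ← mul_assoc (rt e) (rt e), rt_mul_rt he, diagonal_apply]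
  have e2 := map_sum ((t.isQ k).lin (h t k)) (fun r => x r * (x r)ᴴ) Finset.univ
  rw [e1]
  refine e2.trans (Finset.sum_congr rfl fun r _ => ?_)
  have e3 : (x r)ᴴ * x r = dg (Fin 1) (rt e) * dg (Fin 1) ((a * a) r r * rt e) := by
    ext i j
    obtain rfl := Subsingleton.elim i 0
    obtain rfl := Subsingleton.elim j 0
    simp [x, dg, Matrix.mul_apply, star_rt, has, Finset.mul_sum, Finset.sum_mul, mul_assoc]
  change t.tm k _ = _
  rw [← t.tm_rect, e3, (t.isQ 1).mul_comm (h t 1), dg_mul_dg, mul_assoc, rt_mul_rt he]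
  rfl

lemma QT.tr_one (t : QT A) : t.tr 1 = 1 := by
  rw [QT.tr, diagonal_one]
  exact t.normalized

theorem UniformGamma.patch (hΓ : UniformGamma A) (h : QTAreTraces A) : Patch A := by
  classical
  let δ : Finset A × ℕ → ℝ := fun i => 1 / ((i.2 : ℝ) + 1)
  have hδ : ∀ i, 0 < δ i := fun i => by positivity
  have h0 : Tendsto δ atTop (𝓝 0) := by
    have h1 : Tendsto (fun i : Finset A × ℕ => i.2) atTop atTop := by
      rw [← prod_atTop_atTop_eq]
      exact tendsto_snd
    exact tendsto_one_div_add_atTop_nhds_zero_nat.comp h1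
  choose e h1 h2 h3 h4 h5 using fun i : Finset A × ℕ => hΓ 2 two_pos (δ i) (hδ i) i.1
  have hmem : ∀ a : A, ∀ᶠ i : Finset A × ℕ in atTop, a ∈ i.1 := fun a => by
    filter_upwards [eventually_ge_atTop ({a}, 0)] with i hi
    exact hi.1 (Finset.mem_singleton_self a)
  have hac : ∀ j, AC atTop fun i => e i j := fun j => ⟨fun i => h1 i j, fun i => h2 i j, fun a =>
    squeeze_zero_norm' ((hmem a).mono fun i hi => (h4 i j a hi).le) h0⟩
  have h6 : ∀ (t : QT A) i j, ∀ a ∈ i.1, (t.tr a).re / 2 - δ i ≤ (t.tr (a * e i j)).re :=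
    fun t i j a ha => by
      have := (abs_le.1 ((Complex.abs_re_le_norm _).trans (h5 i t j a ha).le)).1
      rw [Complex.sub_re, Complex.div_natCast_re] at this
      push_cast at this
      linarith
  refine patch_of_coins (J := Fin 2) fun η hη => ⟨atTop, inferInstance, e, hac, h3,
    fun j k c hc ε θ η' hε hθ hη' => ?_, fun θ hθ => ?_⟩
  · have hg : IsTest fun t => min (max t 0 / ε) 1 * min (max t 0 / ε) 1 :=
      ⟨by fun_prop, fun t => mul_self_nonneg _, fun t => mul_le_one₀ (min_le_right _ _)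
        (le_min (by positivity) zero_le_one) (min_le_right _ _), by simp⟩
    set a := cfc (fun t => min (max t 0 / ε) 1) c with ha
    have has : aᴴ = a := star_cfc _ _
    have haa : a * a = cfc (fun t => min (max t 0 / ε) 1 * min (max t 0 / ε) 1) c :=
      cfc_mul_cfc (by fun_prop) (by fun_prop) c
    have hac' : a * cut ε c = cut ε c := by
      rw [ha, cut, cfc_mul_cfc (by fun_prop) (by fun_prop)]
      refine cfc_congr fun t _ => ?_
      rcases le_total t ε with h | h
      · simp [max_eq_right (sub_nonpos.2 h)]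
      · rw [min_eq_right (by rw [le_div_iff₀ hε, one_mul]; exact le_max_of_le_left h), one_mul]
    have hjj : j.rev ≠ j := by revert j; decide
    obtain ⟨q, hq, hc1⟩ := (hac j).exists_rep
    obtain ⟨q', hq', hc2⟩ := (hac j.rev).exists_rep
    have hqq : q' * q = 0 :=
      (hq'.mul hq).unique Rep.zero (by simp [h3 _ _ _ hjj])
    have r1 := (hq.dg.mul (RepM.const (cut ε c))).mul hq.dg
    have r2 := (((RepM.const a).mul hq'.dg).mul (RepM.const a)).mul r1
    have r3 := ((RepM.const (a * a)).mul r1)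
    have r4 := r1.add r2
    have hdd : dg (Fin k) q' * dg (Fin k) q = 0 := by rw [dg_mul_dg, hqq, dg, diagonal_zero]
    rw [mul_assoc (a.map _), dg_comm hc2, ← mul_assoc (a.map _), mul_assoc _ (dg _ q'),
      ← mul_assoc (dg _ q'), ← mul_assoc (dg _ q'), hdd, zero_mul, zero_mul, mul_zero,
      add_zero] at r4
    rw [← mul_assoc ((a * a).map _), ← mul_assoc ((a * a).map _), ← dg_comm hc1,
      mul_assoc (dg _ q), ← Matrix.map_mul, mul_assoc a a (cut ε c), hac', hac'] at r3
    obtain ⟨ρ, hρ, hρ1, hρ2⟩ : ∃ ρ : ℝ, 0 < ρ ∧ ρ < 1 ∧ ρ * (2 * k + η') ≤ η' := by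
      have : (0 : ℝ) < 2 * k + η' + η' := by positivity
      refine ⟨η' / (2 * k + η' + η'), by positivity, (div_lt_one this).2 (by
        linarith [Nat.cast_nonneg (α := ℝ) k]), ?_⟩
      rw [div_mul_eq_mul_div, div_le_iff₀ this]
      nlinarith
    filter_upwards [eventually_norm_lt r4 r3 (show 0 < ρ * (θ / 2) / 2 by positivity),
      eventually_all.2 fun r => hmem ((a * a) r r), h0.eventually (gt_mem_nhds hρ)]
      with i p1 p2 p3 s hs
    obtain ⟨t, ht⟩ := hs.exists_qt_LL
    have y0 := dg_conj_nonneg (h1 i j) (cut_nonneg ε c)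
    have u1 : 0 ≤ a * dg (Fin k) (e i j.rev) * a := by
      simpa [has, dg] using conj_nonneg a (diagonal_nonneg (m := Fin k) (h1 i j.rev))
    have u2 : a * a ≤ 1 := haa ▸ cfc_le_one _ _ fun t _ => hg.le_one t
    have u0 : 0 ≤ a * a - a * dg (Fin k) (e i j.rev) * a := by
      have := conj_le_conj a ((CStarAlgebra.norm_le_one_iff_of_nonneg _
        (diagonal_nonneg (m := Fin k) (h1 i j.rev))).1 ((norm_dg_le _).trans (h2 i j.rev)))
      rwa [has, Matrix.mul_one, ← sub_nonneg] at this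
    have c1 := csub_cut_of_approx u0 ((sub_le_self _ u1).trans u2) y0 hρ (θ := θ / 2) (by
      rw [sub_mul, sub_mul, one_mul, sub_sub_eq_add_sub]
      linarith)
    have c2 := ((ht k _ (cut_nonneg _ _)).2 _ (LL.cut_cut y0 (half_lt_self hθ))).trans
      ((t.dimS_mono (cut_nonneg _ _) (cut_nonneg _ _) c1.msub).trans
        ((t.isQ k).dimS_cut_le u0 (sub_pos.2 hρ1)))
    have c3 := map_sub ((t.isQ k).lin (h t k)) (a * a) (a * dg (Fin k) (e i j.rev) * a)
    have c4 := t.tm_conj h has (h1 i j.rev)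
    have c5 := t.tm_conj h has zero_le_one
    rw [dg, diagonal_one, mul_one] at c5
    simp only [mul_one] at c5
    have c6 := Finset.sum_le_sum fun r (_ : r ∈ Finset.univ) => h6 t i j.rev _ (p2 r)
    rw [Finset.sum_sub_distrib, ← Finset.sum_div, ← Complex.re_sum, ← Complex.re_sum, ← c4, ← c5,
      Finset.sum_const, Finset.card_univ, Fintype.card_fin, nsmul_eq_mul] at c6
    have c7 := ((t.isQ k).le_dimS hc hg).trans (ht k c hc).1
    have c8 := hs.mono (cls_le_card hc)
    rw [hs.nsmul_unit, Fintype.card_fin] at c8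
    rw [← haa] at c7
    change t.tm k _ = t.tm k _ - t.tm k _ at c3
    rw [c3, Complex.sub_re, le_inv_mul_iff₀ (sub_pos.2 hρ1)] at c2
    refine le_of_mul_le_mul_left (c2.trans ?_) (sub_pos.2 hρ1)
    have c9 := mul_le_mul_of_nonneg_left p3.le (Nat.cast_nonneg (α := ℝ) k)
    have c10 := mul_le_mul_of_nonneg_left c8 hρ.le
    have c11 : 0 ≤ ρ * k := by positivity
    simp only [Fintype.card_fin, Nat.cast_ofNat]
    nlinarith
  · filter_upwards [hmem 1, h0.eventually (gt_mem_nhds (show 0 < θ / 2 * η / 4 by positivity))]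
      with i p1 p2 s hs
    obtain ⟨t, ht⟩ := hs.exists_qt_LL
    have s0 := sub_nonneg.2 (sum_sq_le_one (h1 i) (h2 i) (h3 i))
    have s1 := diagonal_nonneg (m := Fin 1) s0
    have c1 := ((ht 1 _ (cut_nonneg _ _)).2 _ (LL.cut_cut s1 (half_lt_self hθ))).trans
      ((t.isQ 1).dimS_cut_le s1 (half_pos hθ))
    rw [cut_diagonal _ (.of_nonneg s0), cls_diagonal_fin (cut_nonneg _ _), one_nsmul,
      le_inv_mul_iff₀ (half_pos hθ)] at c1
    let L : A →ₗ[ℂ] ℂ := ((t.isQ 1).lin (h t 1)).comp (diagHom (m := Fin 1)).toLinearMap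
    have hL : ∀ a, L a = t.tr a := fun a => rfl
    have hs' : ∀ j, star (e i j) = e i j := fun j => (IsSelfAdjoint.of_nonneg (h1 i j)).star_eq
    have c2 := (t.isQ 1).nonneg (diagonal_nonneg (m := Fin 1)
      (star_mul_self_nonneg (1 - e i 0 - e i 1)))
    have e1 : star (1 - e i 0 - e i 1) * (1 - e i 0 - e i 1) =
        1 + 1 - e i 0 - e i 0 - e i 1 - e i 1 - (1 - ∑ j, e i j * e i j) := by
      simp only [star_sub, star_one, hs', Fin.sum_univ_two, mul_sub, sub_mul,
        h3 i 0 1 zero_ne_one, h3 i 1 0 one_ne_zero, mul_one, one_mul]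
      abel
    change 0 ≤ (L _).re at c2
    change _ ≤ (L _).re at c1
    rw [e1, map_sub, map_sub, map_sub, map_sub, map_sub, map_add, hL 1, hL (e i 0),
      hL (e i 1)] at c2
    have c3 := h6 t i 0 1 p1
    have c4 := h6 t i 1 1 p1
    rw [one_mul] at c3 c4
    simp only [t.tr_one, Complex.sub_re, Complex.add_re, Complex.one_re] at c2 c3 c4
    refine le_of_mul_le_mul_left (c1.trans ?_) (half_pos hθ)
    linarith

theorem reduces {G : Type*} [Group G] [Fintype G] [DecidableEq G] {α : G →* (A ≃⋆ₐ[ℂ] A)}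
    (hA : IsSimple A) (hinf : ¬FiniteDimensional ℂ A) (hα : WeakTracialRokhlin α)
    (h : StableRankOne A ∨ FiniteQT A ∨ InvariantQT α ∨ (QTAreTraces A ∧ UniformGamma A)) :
    Reduces α := by
  rcases h with h | h | h | h
  · exact reduces_of_sr1 hA hinf h hα
  · exact reduces_of_patch hA hinf h.patch hα
  · rcases subsingleton_or_nontrivial G with _ | _
    · exact reduces_of_subsingleton
    · exact reduces_of_patch hA hinf (h.patch hA hinf hα) hα
  · exact reduces_of_patch hA hinf (h.2.patch h.1) hα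

end Pool.Agent.Lib.MP_f90f6c_an.H50
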