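import Pool.Agent.Lib.MP_f90f6c_an.H50Defs

/-!
General facts about positive elements of a unital C⋆-algebra.
-/

namespace Pool.Agent.Lib.MP_f90f6c_an.H50

open Filter Topology

set_option linter.unusedSectionVars false

variable {E : Type*} [CStarAlgebra E] [PartialOrder E] [StarOrderedRing E]

lemma cfc_sa (f : ℝ → ℝ) (a : E) : IsSelfAdjoint (cfc f a) := cfc_predicate f a

lemma star_cfc (f : ℝ → ℝ) (a : E) : star (cfc f a) = cfc f a := (cfc_sa f a).star_eq

lemma cfc_mul_cfc {f g : ℝ → ℝ} (hf : Continuous f) (hg : Continuous g) (a : E) :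
    cfc f a * cfc g a = cfc (fun t => f t * g t) a :=
  (cfc_mul f g a hf.continuousOn hg.continuousOn).symm

lemma cfc_mul_id {f : ℝ → ℝ} (hf : Continuous f) {a : E} (ha : IsSelfAdjoint a) :
    cfc f a * a = cfc (fun t => f t * t) a := by
  rw [cfc_mul f (fun t => t) a hf.continuousOn continuous_id.continuousOn, cfc_id' ℝ a]

lemma id_mul_cfc {f : ℝ → ℝ} (hf : Continuous f) {a : E} (ha : IsSelfAdjoint a) :
    a * cfc f a = cfc (fun t => t * f t) a := by
  rw [cfc_mul (fun t => t) f a continuous_id.continuousOn hf.continuousOn, cfc_id' ℝ a]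

lemma cfc_eq_self {f : ℝ → ℝ} {a : E} (ha : 0 ≤ a) (hf : ∀ t, 0 ≤ t → f t = t) : cfc f a = a := by
  conv_rhs => rw [← cfc_id' ℝ a]
  exact cfc_congr fun t ht => hf t (spectrum_nonneg_of_nonneg ha ht)

/-- square root -/
noncomputable def rt (a : E) : E := cfc Real.sqrt a

lemma rt_nonneg (a : E) : 0 ≤ rt a := cfc_nonneg fun _ _ => Real.sqrt_nonneg _

lemma star_rt (a : E) : star (rt a) = rt a := star_cfc _ _

lemma rt_mul_rt {a : E} (ha : 0 ≤ a) : rt a * rt a = a := by
  rw [rt, cfc_mul_cfc Real.continuous_sqrt Real.continuous_sqrt]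
  exact cfc_eq_self ha fun t ht => Real.mul_self_sqrt ht

lemma norm_le_of_star_mul_le {p q : E} (h : star p * p ≤ star q * q) : ‖p‖ ≤ ‖q‖ := by
  have := CStarAlgebra.norm_le_norm_of_nonneg_of_le (star_mul_self_nonneg p) h
  rw [CStarRing.norm_star_mul_self, CStarRing.norm_star_mul_self] at this
  exact (mul_self_le_mul_self_iff (norm_nonneg p) (norm_nonneg q)).2 this

lemma norm_cfc_le' {f : ℝ → ℝ} {a : E} (ha : 0 ≤ a) {η : ℝ} (hη : 0 ≤ η)
    (hf : ∀ t, 0 ≤ t → |f t| ≤ η) : ‖cfc f a‖ ≤ η :=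
  norm_cfc_le hη fun t ht => hf t (spectrum_nonneg_of_nonneg ha ht)

/-- factorization lemma: if `0 ≤ a ≤ y⋆ y` then `a = x⋆ x` with `x` in the closure of `y E` -/
theorem exists_factor {y a : E} (ha : 0 ≤ a) (h : a ≤ star y * y) :
    ∃ x ∈ closure {x | ∃ t, x = y * t}, star x * x = a := by
  set c := star y * y with hc
  have hc0 : 0 ≤ c := star_mul_self_nonneg y
  have hcs : IsSelfAdjoint c := .of_nonneg hc0
  have key1 : ∀ T, ‖rt a * T‖ ≤ ‖rt c * T‖ := fun T => by
    refine norm_le_of_star_mul_le ?_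
    simp only [star_mul, star_rt]
    rw [mul_assoc, mul_assoc, ← mul_assoc (rt a), ← mul_assoc (rt c), rt_mul_rt ha, rt_mul_rt hc0,
      ← mul_assoc, ← mul_assoc]
    exact star_left_conjugate_le_conjugate h T
  have key2 : ∀ T, ‖y * T‖ ≤ ‖rt c * T‖ := fun T => by
    refine norm_le_of_star_mul_le (le_of_eq ?_)
    simp only [star_mul, star_rt]
    rw [mul_assoc, mul_assoc, ← mul_assoc (star y), ← mul_assoc (rt c), rt_mul_rt hc0]
  have key3 : ∀ g : ℝ → ℝ, Continuous g → ∀ η, 0 ≤ η → (∀ t, 0 ≤ t → |√t * (g t * √t)| ≤ η) →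
      ‖y * (cfc g c * rt a)‖ ≤ η := fun g hg η hη hb => by
    refine (key2 _).trans ?_
    rw [← norm_star]
    simp only [star_mul, star_rt, star_cfc, mul_assoc]
    refine (key1 _).trans ?_
    rw [rt, cfc_mul_cfc hg Real.continuous_sqrt, cfc_mul_cfc Real.continuous_sqrt (by fun_prop)]
    exact norm_cfc_le' hc0 hη hb
  let δ : ℕ → ℝ := fun k => 1 / ((k : ℝ) + 1)
  have hδ : ∀ k, 0 < δ k := fun k => by positivity
  have hδ0 : Tendsto δ atTop (𝓝 0) := tendsto_one_div_add_atTop_nhds_zero_nat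
  have hδm : ∀ N k : ℕ, N ≤ k → δ k ≤ δ N := fun N k hk => by
    have : (N : ℝ) ≤ k := by exact_mod_cast hk
    exact one_div_le_one_div_of_le (by positivity) (by linarith)
  let g : ℕ → ℝ → ℝ := fun k t => (√t + δ k)⁻¹
  have hg : ∀ k, Continuous (g k) := fun k =>
    Continuous.inv₀ (by fun_prop) fun t => by have := hδ k; positivity
  let x : ℕ → E := fun k => y * (cfc (g k) c * rt a)
  have hx : CauchySeq x := by
    refine cauchySeq_of_le_tendsto_0 δ (fun k l N hk hl => ?_) hδ0
    have e1 : x k - x l = y * (cfc (fun t => g k t - g l t) c * rt a) := by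
      rw [cfc_sub _ _ _ (hg k).continuousOn (hg l).continuousOn]
      simp only [x, mul_sub, sub_mul]
    rw [dist_eq_norm, e1]
    refine key3 _ ((hg k).sub (hg l)) _ (hδ N).le fun t _ => ?_
    have h1 := hδ k
    have h2 := hδ l
    have h3 := hδm N k hk
    have h4 := hδm N l hl
    have h5 := Real.sqrt_nonneg t
    have e2 : √t * ((g k t - g l t) * √t) = (δ l - δ k) * (√t / (√t + δ k) * (√t / (√t + δ l))) := by
      simp only [g]
      field_simp
      ring
    have h6 : √t / (√t + δ k) ≤ 1 := (div_le_one (by positivity)).2 (by linarith)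
    have h7 : √t / (√t + δ l) ≤ 1 := (div_le_one (by positivity)).2 (by linarith)
    have h8 : 0 ≤ √t / (√t + δ k) * (√t / (√t + δ l)) := by positivity
    have h9 : √t / (√t + δ k) * (√t / (√t + δ l)) ≤ 1 :=
      mul_le_one₀ h6 (by positivity) h7
    rw [Pi.sub_apply, e2, abs_mul, abs_of_nonneg h8]
    have h10 : |δ l - δ k| ≤ δ N := abs_le.2 ⟨by linarith, by linarith⟩
    nlinarith [abs_nonneg (δ l - δ k)]
  obtain ⟨z, hz⟩ := cauchySeq_tendsto_of_complete hx
  refine ⟨z, mem_closure_of_tendsto hz (Eventually.of_forall fun k => ⟨_, rfl⟩), ?_⟩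
  have h1 : Tendsto (fun k => star (x k) * x k) atTop (𝓝 (star z * z)) := hz.star.mul hz
  refine tendsto_nhds_unique h1 ?_
  rw [tendsto_iff_norm_sub_tendsto_zero]
  refine squeeze_zero (g := fun k => δ k * (2 * ‖rt a‖)) (fun _ => norm_nonneg _) (fun k => ?_)
    (by simpa using hδ0.mul_const (2 * ‖rt a‖))
  have hk := hδ k
  have c1 : Continuous fun t => δ k * g k t := continuous_const.mul (hg k)
  have c2 : Continuous fun t => (δ k + 2 * √t) * g k t := (by fun_prop : Continuous
    fun t => δ k + 2 * √t).mul (hg k)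
  have e1 : a - star (x k) * x k =
      rt a * cfc (fun t => δ k * g k t) c * (cfc (fun t => (δ k + 2 * √t) * g k t) c * rt a) := by
    have e2 : cfc (fun t => δ k * g k t) c * cfc (fun t => (δ k + 2 * √t) * g k t) c =
        1 - cfc (g k) c * c * cfc (g k) c := by
      have c3 : Continuous fun t => g k t * t := (hg k).mul continuous_id'
      have c4 : Continuous fun t => g k t * t * g k t := c3.mul (hg k)
      rw [cfc_mul_id (hg k) hcs, cfc_mul_cfc c1 c2, cfc_mul_cfc c3 (hg k),
        ← cfc_one (R := ℝ) c, ← cfc_sub _ _ _ continuous_one.continuousOn c4.continuousOn]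
      refine cfc_congr fun t ht => ?_
      have h0 := spectrum_nonneg_of_nonneg hc0 ht
      have h5 := Real.sqrt_nonneg t
      have h6 : t = √t * √t := (Real.mul_self_sqrt h0).symm
      simp only [g, Pi.one_apply]
      generalize √t = s at *
      subst h6
      field_simp
      ring
    rw [mul_assoc, ← mul_assoc (cfc _ c), e2]
    simp only [x, star_mul, star_rt, star_cfc, sub_mul, mul_sub, one_mul, rt_mul_rt ha, mul_assoc,
      hc]
  rw [norm_sub_rev, e1]
  refine (norm_mul_le _ _).trans (mul_le_mul ((key1 _).trans ?_) ((norm_mul_le _ _).trans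
    (mul_le_mul_of_nonneg_right ?_ (norm_nonneg _))) (norm_nonneg _) hk.le)
  · rw [rt, cfc_mul_cfc Real.continuous_sqrt c1]
    refine norm_cfc_le' hc0 hk.le fun t _ => ?_
    have h5 := Real.sqrt_nonneg t
    have e2 : √t * (δ k * g k t) = δ k * (√t / (√t + δ k)) := by
      simp only [g]
      field_simp
    have h6 : √t / (√t + δ k) ≤ 1 := (div_le_one (by positivity)).2 (by linarith)
    rw [e2, abs_of_nonneg (by positivity)]
    nlinarith
  · refine norm_cfc_le' hc0 (by norm_num) fun t _ => ?_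
    have h5 := Real.sqrt_nonneg t
    simp only [g]
    rw [abs_of_nonneg (by positivity), ← div_eq_mul_inv, div_le_iff₀ (by positivity)]
    linarith

lemma sub_algebraMap_le {a b : E} (ha : IsSelfAdjoint a) (hb : IsSelfAdjoint b) :
    a - algebraMap ℝ E ‖a - b‖ ≤ b := by
  have := (ha.sub hb).le_algebraMap_norm_self
  rw [sub_le_iff_le_add] at this ⊢
  rwa [add_comm]

/-- if `b` is close to `a` then a cut-off function of `a` is below `e b e` -/
lemma exists_cfc_le_conj {a b : E} (ha : IsSelfAdjoint a) (hb : IsSelfAdjoint b) {ε : ℝ}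
    (h : ‖a - b‖ < ε) {f : ℝ → ℝ} (hf : Continuous f) (hf0 : ∀ t, 0 ≤ f t)
    (hfε : ∀ t ∈ spectrum ℝ a, t ≤ ε → f t = 0) :
    ∃ e : E, star e = e ∧ cfc f a ≤ e * b * e := by
  set η := ‖a - b‖ with hη
  let k : ℝ → ℝ := fun t => √(f t / max (t - η) (ε - η))
  have hpos : ∀ t, 0 < max (t - η) (ε - η) := fun t => lt_max_of_lt_right (by linarith)
  have hk : Continuous k :=
    Real.continuous_sqrt.comp (hf.div (by fun_prop) fun t => (hpos t).ne')
  refine ⟨cfc k a, star_cfc _ _, ?_⟩
  have h1 := star_left_conjugate_le_conjugate (sub_algebraMap_le ha hb) (cfc k a)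
  rw [star_cfc] at h1
  refine le_trans (le_of_eq ?_) h1
  have e1 : a - algebraMap ℝ E η = cfc (fun t => t - η) a := by
    rw [cfc_sub _ _ _ continuous_id'.continuousOn continuous_const.continuousOn, cfc_id' ℝ a,
      cfc_const η a]
  rw [← hη, e1, cfc_mul_cfc hk (by fun_prop), cfc_mul_cfc (by fun_prop) hk]
  refine cfc_congr fun t ht => ?_
  have e2 : k t * k t = f t / max (t - η) (ε - η) :=
    Real.mul_self_sqrt (div_nonneg (hf0 t) (hpos t).le)
  have e3 : k t * (t - η) * k t = f t / max (t - η) (ε - η) * (t - η) := by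
    rw [← e2]
    ring
  simp only [e3]
  rcases le_or_gt t ε with h2 | h2
  · simp [hfε t ht h2]
  · rw [max_eq_left (by linarith), div_mul_cancel₀]
    linarith

/-- the cut-down `(a - ε)₊` -/
noncomputable def cut (ε : ℝ) (a : E) : E := cfc (fun t => max (t - ε) 0) a

lemma cut_nonneg (ε : ℝ) (a : E) : 0 ≤ cut ε a := cfc_nonneg fun _ _ => le_max_right _ _

lemma norm_sub_cut {ε : ℝ} (hε : 0 ≤ ε) {a : E} (ha : 0 ≤ a) : ‖a - cut ε a‖ ≤ ε := by
  have : a - cut ε a = cfc (fun t => t - max (t - ε) 0) a := by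
    rw [cfc_sub _ _ _ continuous_id'.continuousOn (by fun_prop), cfc_id' ℝ a, cut]
  rw [this]
  refine norm_cfc_le' ha hε fun t ht => abs_le.2 ⟨?_, ?_⟩
  · have := max_le (show t - ε ≤ t by linarith) ht
    linarith
  · have := le_max_left (t - ε) 0
    linarith

lemma tendsto_cut {a : E} (ha : 0 ≤ a) : Tendsto (fun ε => cut ε a) (𝓝[>] 0) (𝓝 a) := by
  rw [tendsto_iff_norm_sub_tendsto_zero]
  refine squeeze_zero' (g := fun ε => ε) (Eventually.of_forall fun _ => norm_nonneg _) ?_
    (tendsto_nhdsWithin_of_tendsto_nhds tendsto_id)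
  filter_upwards [self_mem_nhdsWithin] with ε hε
  rw [norm_sub_rev]
  exact norm_sub_cut (le_of_lt hε) ha

lemma cut_le_cut {ε η : ℝ} (h : ε ≤ η) (a : E) : cut η a ≤ cut ε a :=
  cfc_mono (fun t _ => max_le_max (by linarith) le_rfl) (by fun_prop) (by fun_prop)

lemma cut_le_self {ε : ℝ} (hε : 0 ≤ ε) {a : E} (ha : 0 ≤ a) : cut ε a ≤ a := by
  conv_rhs => rw [← cfc_id' ℝ a]
  exact cfc_mono (fun t ht => max_le (by linarith) (spectrum_nonneg_of_nonneg ha ht))
    (by fun_prop) (by fun_prop)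

lemma exists_inv_sqrt {T : E} (hT : 0 ≤ T) (hu : IsUnit T) :
    ∃ s : E, star s = s ∧ s * T = T * s ∧ s * T * s = 1 := by
  have hs : IsSelfAdjoint T := .of_nonneg hT
  have hpos : ∀ t ∈ spectrum ℝ T, 0 < t := fun t ht =>
    lt_of_le_of_ne (spectrum_nonneg_of_nonneg hT ht) (by
      rintro rfl
      exact (spectrum.zero_notMem_iff ℝ).2 hu ht)
  have hc : ContinuousOn (fun t : ℝ => (√t)⁻¹) (spectrum ℝ T) :=
    Real.continuous_sqrt.continuousOn.inv₀ fun t ht => (Real.sqrt_pos.2 (hpos t ht)).ne'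
  refine ⟨cfc (fun t => (√t)⁻¹) T, star_cfc _ _, ((Commute.refl T).cfc_real _).eq, ?_⟩
  have hc2 : ContinuousOn (fun t : ℝ => (√t)⁻¹ * t) (spectrum ℝ T) :=
    hc.mul continuous_id'.continuousOn
  conv_lhs => enter [1, 2]; rw [← cfc_id' ℝ T]
  rw [← cfc_mul _ _ _ hc continuous_id'.continuousOn,
    ← cfc_mul _ _ _ hc2 hc, ← cfc_one (R := ℝ) T]
  refine cfc_congr fun t ht => ?_
  have h1 := hpos t ht
  have h2 : 0 < √t := Real.sqrt_pos.2 h1
  have h3 : t = √t * √t := (Real.mul_self_sqrt h1.le).symm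
  simp only [Pi.one_apply]
  generalize √t = s at *
  subst h3
  field_simp

lemma isUnit_of_norm_one_sub_lt {T : E} (h : ‖1 - T‖ < 1) : IsUnit T := by
  have := (Units.oneSub (1 - T) h).isUnit
  simpa using this

lemma le_one_of_mul_self_le {c : E} (hc : 0 ≤ c) (h : c * c ≤ c) : c ≤ 1 := by
  rw [← CStarAlgebra.norm_le_one_iff_of_nonneg c hc]
  have hs : star c = c := (IsSelfAdjoint.of_nonneg hc).star_eq
  have h1 : ‖c * c‖ ≤ ‖c‖ :=
    CStarAlgebra.norm_le_norm_of_nonneg_of_le (by simpa [hs] using star_mul_self_nonneg c) h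
  have h2 : ‖c * c‖ = ‖c‖ * ‖c‖ := by simpa [hs] using CStarRing.norm_star_mul_self (x := c)
  nlinarith [norm_nonneg c]

lemma eq_zero_of_star_mul_self {x : E} (h : star x * x = 0) : x = 0 :=
  (CStarRing.star_mul_self_eq_zero_iff x).1 h

/-- in stable rank one, `x⋆ x` and `x x⋆` are approximately unitarily equivalent -/
lemma exists_unitary_conj (hE : StableRankOne E) (x : E) {ε : ℝ} (hε : 0 < ε) :
    ∃ u : E, u * star u = 1 ∧ ‖u * (star x * x) * star u - x * star x‖ < ε := by
  have hcont : Continuous fun s : E => ‖star x * x - star s * s‖ + ‖s * star s - x * star x‖ := by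
    fun_prop
  obtain ⟨s, hs1, hs⟩ := hE.exists_mem_open (hcont.isOpen_preimage _ (isOpen_Iio (a := ε)))
    ⟨x, by simpa using hε⟩
  have hs1 : IsUnit s := hs1
  obtain ⟨h, hh, hc, h1⟩ := exists_inv_sqrt (star_mul_self_nonneg s) (hs1.star.mul hs1)
  have hu : star (s * h) * (s * h) = 1 := by
    rw [star_mul, hh, ← h1]
    simp only [mul_assoc]
  have hhu : IsUnit h := by
    have h2 : h * (star s * s * h) = 1 := by rw [← mul_assoc, h1]
    have h3 : (star s * s * h) * h = 1 := by rw [← hc, h1]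
    exact ⟨⟨h, star s * s * h, h2, h3⟩, rfl⟩
  have hu' : (s * h) * star (s * h) = 1 := by
    obtain ⟨v, hv⟩ := hs1.mul hhu
    rw [← hv] at hu ⊢
    have : star (v : E) = (v⁻¹ : Eˣ) := by
      rw [← mul_one (star (v : E)), ← Units.mul_inv v, ← mul_assoc, hu, one_mul]
    rw [this, Units.mul_inv]
  refine ⟨s * h, hu', ?_⟩
  have e1 : s * h * (star s * s) * star (s * h) = s * star s := by
    rw [star_mul, hh]
    calc s * h * (star s * s) * (h * star s) = s * (h * (star s * s) * h) * star s := by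
          simp only [mul_assoc]
      _ = s * star s := by rw [h1, mul_one]
  have e2 : s * h * (star x * x) * star (s * h) - x * star x =
      s * h * (star x * x - star s * s) * star (s * h) + (s * star s - x * star x) := by
    rw [mul_sub, sub_mul, e1]
    abel
  have hn : ‖s * h‖ ≤ 1 := by
    have h4 := CStarRing.norm_star_mul_self (x := s * h)
    rw [hu] at h4
    have h5 : ‖(1 : E)‖ ≤ 1 := by
      nontriviality E
      simp
    nlinarith [norm_nonneg (s * h)]
  rw [e2]
  refine (norm_add_le _ _).trans_lt (lt_of_le_of_lt (add_le_add ?_ le_rfl) hs)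
  calc ‖s * h * (star x * x - star s * s) * star (s * h)‖
      ≤ ‖s * h‖ * ‖star x * x - star s * s‖ * ‖star (s * h)‖ := norm_mul₃_le
    _ ≤ 1 * ‖star x * x - star s * s‖ * 1 := by
        rw [norm_star]
        gcongr
    _ = _ := by ring

end Pool.Agent.Lib.MP_f90f6c_an.H50
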