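import Pool.Agent.Lib.MP_f90f6c_an.H50W
import Pool.Agent.Lib.MP_f90f6c_an.H50State

/-!
Stable rank one: cancellation and common lower bounds in the Cuntz semigroup.
-/

namespace Pool.Agent.Lib.MP_f90f6c_an.H50

open Filter Topology Matrix

set_option linter.unusedSectionVars false

variable {A : Type*} [CStarAlgebra A] [PartialOrder A] [StarOrderedRing A]
variable {k m n p : Type*} [Fintype m] [DecidableEq m] [Fintype n] [DecidableEq n]
  [Fintype p] [DecidableEq p] [Fintype k] [DecidableEq k]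

lemma StableRankOne.of_surjective {E F : Type*} [CStarAlgebra E] [CStarAlgebra F]
    (hE : StableRankOne E) (φ : E →* F) (hφ : Continuous φ) (hs : Function.Surjective φ) :
    StableRankOne F := fun y => by
  obtain ⟨x, rfl⟩ := hs y
  exact map_mem_closure hφ (hE x) fun _ h => IsUnit.map φ h

lemma StableRankOne.reindex (h : StableRankOne (Matrix m m A)) (e : m ≃ n) :
    StableRankOne (Matrix n n A) :=
  h.of_surjective (Matrix.reindexAlgEquiv ℂ A e).toAlgHom.toMonoidHom
    (continuous_id.matrix_reindex e e) (Matrix.reindexAlgEquiv ℂ A e).surjective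

lemma StableRankOne.blocks (hm : StableRankOne (Matrix m m A)) (hn : StableRankOne (Matrix n n A)) :
    StableRankOne (Matrix (m ⊕ n) (m ⊕ n) A) := fun X => by
  rw [← fromBlocks_toBlocks X]
  generalize X.toBlocks₁₁ = a
  generalize X.toBlocks₁₂ = b
  generalize X.toBlocks₂₁ = c
  generalize X.toBlocks₂₂ = d
  rw [← closure_closure]
  refine map_mem_closure (f := fun a => fromBlocks a b c d) (by fun_prop) (hm a) ?_
  rintro _ ⟨⟨a, a', ha, ha'⟩, rfl⟩
  have h1 := map_mem_closure (f := fun e => fromBlocks a b c (e + c * a' * b))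
    (t := {x | IsUnit x}) (by fun_prop) (hn (d - c * a' * b)) (by
      rintro _ ⟨⟨e, e', he, he'⟩, rfl⟩
      have e1 : fromBlocks a b c (e + c * a' * b) =
          fromBlocks 1 0 (c * a') 1 * fromBlocks a 0 0 e * fromBlocks 1 (a' * b) 0 1 := by
        simp only [fromBlocks_multiply, Matrix.one_mul, Matrix.mul_zero, add_zero, Matrix.zero_mul,
          zero_add, Matrix.mul_one, Matrix.mul_assoc, ha']
        rw [← Matrix.mul_assoc a, ha, Matrix.one_mul, add_comm]
      simp only [Set.mem_ofPred_eq, e1]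
      refine IsUnit.mul (IsUnit.mul
        ⟨⟨fromBlocks 1 0 (c * a') 1, fromBlocks 1 0 (-(c * a')) 1, ?_, ?_⟩, rfl⟩
        ⟨⟨fromBlocks a 0 0 e, fromBlocks a' 0 0 e', ?_, ?_⟩, rfl⟩)
        ⟨⟨fromBlocks 1 (a' * b) 0 1, fromBlocks 1 (-(a' * b)) 0 1, ?_, ?_⟩, rfl⟩ <;>
      simp only [fromBlocks_multiply, Matrix.one_mul, Matrix.mul_zero, add_zero, Matrix.zero_mul,
        zero_add, Matrix.mul_one, ha, ha', he, he', add_neg_cancel, neg_add_cancel,
        fromBlocks_one])
  simpa using h1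

lemma StableRankOne.matrix (hA : StableRankOne A) : StableRankOne (Matrix n n A) := by
  have h1 : StableRankOne (Matrix Unit Unit A) :=
    hA.of_surjective (oneBy (A := A)).toAlgHom.toMonoidHom (map_continuous oneBy)
      fun x => ⟨x () (), rfl⟩
  have h2 : ∀ l : ℕ, StableRankOne (Matrix (Fin l) (Fin l) A) := fun l => by
    induction l with
    | zero => exact fun x => subset_closure (isUnit_of_subsingleton x)
    | succ l ih =>
      exact (ih.blocks h1).reindex
        (finSuccEquivLast.trans (Equiv.optionEquivSumPUnit.{0} (Fin l))).symm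
  exact (h2 _).reindex (Fintype.equivFin n).symm

lemma conjT_rt (a : Matrix n n A) : (rt a)ᴴ = rt a := star_rt a

theorem StableRankOne.cancel (hA : StableRankOne A) {a c : Matrix k k A} (ha : 0 ≤ a) (hc : 0 ≤ c)
    (hac : a * c = 0) {y : W A} (h : Fintype.card k • W.u A ≤ y + cls c) : cls a ≤ y := by
  obtain ⟨l, b, hb, rfl⟩ := cls_surj y
  obtain ⟨v, w, hvw⟩ := exists_conj_add_eq_one hb hc h
  rw [cls_le_cls ha hb]
  have has : star a = a := herm_of_nonneg ha
  have h0 : a * rt c = 0 := by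
    rw [← CStarRing.mul_star_self_eq_zero_iff, star_mul, star_rt, has, mul_assoc,
      ← mul_assoc (rt c), rt_mul_rt hc, ← mul_assoc, hac, zero_mul]
  refine (CSub.self_sq ha).msub.trans (MSub.of_forall fun ε hε => ?_)
  obtain ⟨u, hu, hu'⟩ := exists_unitary_conj hA.matrix (rt c * star w)
    (show 0 < ε / (‖a‖ * ‖a‖ + 1) by positivity)
  refine ⟨_, MSub.conj (a * u * v) b, ?_⟩
  have e1 : star (rt c * star w) * (rt c * star w) = 1 - v * b * vᴴ := by
    rw [star_mul, star_star, star_rt, mul_assoc, ← mul_assoc (rt c), rt_mul_rt hc, ← hvw,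
      ← mul_assoc, add_sub_cancel_left]
    rfl
  have e2 : a * a - a * u * v * b * (a * u * v)ᴴ = a * (u * (star (rt c * star w) *
      (rt c * star w)) * star u - rt c * star w * star (rt c * star w)) * a := by
    rw [e1, mul_sub a, ← mul_assoc a (rt c * star w), ← mul_assoc a (rt c), h0, zero_mul, zero_mul,
      sub_zero, mul_sub, mul_one, sub_mul, hu, mul_sub, mul_one, sub_mul]
    simp only [conjTranspose_mul, herm_of_nonneg ha, Matrix.mul_assoc, star_eq_conjTranspose]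
  rw [e2]
  refine norm_mul₃_le.trans_lt ?_
  rw [lt_div_iff₀ (by positivity)] at hu'
  have := norm_nonneg (u * (star (rt c * star w) * (rt c * star w)) * star u -
    rt c * star w * star (rt c * star w))
  nlinarith

lemma card_le_of_eq_one {Y₁ : Matrix k n A} {R₁ : Matrix n k A} {Y₂ : Matrix k p A}
    {R₂ : Matrix p k A} (h : Y₁ * R₁ + Y₂ * R₂ = 1) :
    Fintype.card k • W.u A ≤ cls (R₁ᴴ * R₁) + cls (R₂ᴴ * R₂) := by
  have h1 := MSub.one_of_mul_eq_one (Y := fromCols Y₁ Y₂) (R := fromRows R₁ R₂)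
    (by rw [fromCols_mul_fromRows, h])
  rw [← cls_le_cls mone_nonneg (conjT_mul_self_nonneg _), cls_one,
    conjTranspose_fromRows_eq_fromCols_conjTranspose, fromCols_mul_fromRows] at h1
  exact h1.trans (cls_add_le (conjT_mul_self_nonneg _) (conjT_mul_self_nonneg _))

/-- the candidates for a common lower bound -/
noncomputable def lowM (a : Matrix m m A) (b : Matrix n n A) (t : Matrix n m A) : Matrix m m A :=
  (rt b * t * rt a)ᴴ * (rt b * t * rt a)

lemma lowM_nonneg (a : Matrix m m A) (b : Matrix n n A) (t : Matrix n m A) : 0 ≤ lowM a b t :=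
  conjT_mul_self_nonneg _

lemma continuous_lowM (a : Matrix m m A) (b : Matrix n n A) : Continuous (lowM a b) := by
  unfold lowM
  fun_prop

lemma cls_lowM_le_right (a : Matrix m m A) {b : Matrix n n A} (hb : 0 ≤ b) (t : Matrix n m A) :
    cls (lowM a b t) ≤ cls b := by
  have : lowM a b t = (t * rt a)ᴴ * b * (t * rt a)ᴴᴴ := by
    conv_rhs => rw [← rt_mul_rt hb]
    simp only [lowM, conjTranspose_mul, conjT_rt, Matrix.mul_assoc, conjTranspose_conjTranspose]
  rw [this]
  exact cls_conj_le _ hb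

lemma cls_lowM_le_left {a : Matrix m m A} (ha : 0 ≤ a) (b : Matrix n n A) (t : Matrix n m A) :
    cls (lowM a b t) ≤ cls a := by
  have : (rt b * t * rt a) * (rt b * t * rt a)ᴴ = (rt b * t) * a * (rt b * t)ᴴ := by
    conv_rhs => rw [← rt_mul_rt ha]
    simp only [conjTranspose_mul, conjT_rt, Matrix.mul_assoc]
  rw [lowM, cls_conjT_mul, this]
  exact cls_conj_le _ ha

theorem StableRankOne.dense_low (hA : StableRankOne A) {a : Matrix m m A} {b : Matrix n n A}
    (ha : 0 ≤ a) (hb : 0 ≤ b) {K : ℕ} {z : W A} (h1 : K • W.u A ≤ cls a + z)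
    (h2 : K • W.u A ≤ cls b + z) : Dense {t | K • W.u A ≤ cls (lowM a b t) + z} := fun t => by
  obtain ⟨l, c, hc, rfl⟩ := cls_surj z
  rw [← Fintype.card_fin K] at h1 h2 ⊢
  obtain ⟨v₁, v₂, hv⟩ := exists_conj_add_eq_one ha hc h1
  obtain ⟨w₁, w₂, hw⟩ := exists_conj_add_eq_one hb hc h2
  set i₁ := rt a * v₁ᴴ with hi₁
  set i₂ := rt c * v₂ᴴ with hi₂
  set j₁ := rt b * w₁ᴴ with hj₁
  set j₂ := rt c * w₂ᴴ with hj₂
  have hi : i₁ᴴ * i₁ + i₂ᴴ * i₂ = 1 := by
    rw [← hv]
    conv_rhs => rw [← rt_mul_rt ha, ← rt_mul_rt hc]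
    simp only [hi₁, hi₂, conjTranspose_mul, conjT_rt, conjTranspose_conjTranspose, Matrix.mul_assoc]
  have hj : j₁ᴴ * j₁ + j₂ᴴ * j₂ = 1 := by
    rw [← hw]
    conv_rhs => rw [← rt_mul_rt hb, ← rt_mul_rt hc]
    simp only [hj₁, hj₂, conjTranspose_mul, conjT_rt, conjTranspose_conjTranspose, Matrix.mul_assoc]
  set m₀ := j₁ᴴ * (rt b * t * rt a) * i₁ + j₂ᴴ * i₂ with hm₀
  have hd : Dense ((fun e => m₀ + e) ⁻¹' {x | IsUnit x}) :=
    Dense.preimage hA.matrix (isOpenMap_add_left m₀)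
  have ho : IsOpen ((fun e : Matrix (Fin K) (Fin K) A => 1 + i₂ᴴ * j₂ * e) ⁻¹' {x | IsUnit x}) :=
    Units.isOpen.preimage (by fun_prop)
  have h0 := hd.open_subset_closure_inter ho (a := 0) (by simp)
  have hφ : ContinuousAt (fun e : Matrix (Fin K) (Fin K) A =>
      t + w₁ᴴ * (e * Ring.inverse (1 + i₂ᴴ * j₂ * e)) * v₁) 0 := by
    have h3 : ContinuousAt (fun e : Matrix (Fin K) (Fin K) A =>
        Ring.inverse (1 + i₂ᴴ * j₂ * e)) 0 :=
      ContinuousAt.comp (g := Ring.inverse) (x := 0)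
        (f := fun e : Matrix (Fin K) (Fin K) A => 1 + i₂ᴴ * j₂ * e) (by simpa using NormedRing.inverse_continuousAt (1 : (Matrix (Fin K) (Fin K) A)ˣ))
        (by fun_prop)
    have h4 : Continuous fun e : Matrix (Fin K) (Fin K) A => t + w₁ᴴ * e * v₁ := by fun_prop
    exact h4.continuousAt.comp (continuousAt_id.mul h3)
  have h5 := mem_closure_image hφ h0
  simp only [zero_mul, Matrix.mul_zero, Matrix.zero_mul, add_zero] at h5
  refine closure_mono ?_ h5
  rintro _ ⟨e, ⟨he₁, he₂⟩, rfl⟩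
  obtain ⟨s, hs⟩ := (show IsUnit (m₀ + e) from he₂).exists_left_inv
  have he := Ring.inverse_mul_cancel _ (show IsUnit (1 + i₂ᴴ * j₂ * e) from he₁)
  set e' := e * Ring.inverse (1 + i₂ᴴ * j₂ * e) with he'
  have he'' : e' * (1 + i₂ᴴ * j₂ * e) = e := by rw [he', mul_assoc, he, mul_one]
  set T := rt b * (t + w₁ᴴ * e' * v₁) * rt a with hT
  have hT' : T = rt b * t * rt a + j₁ * e' * i₁ᴴ := by
    simp only [hT, hj₁, hi₁, Matrix.mul_add, Matrix.add_mul, conjTranspose_mul, conjT_rt,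
      conjTranspose_conjTranspose, Matrix.mul_assoc]
  have key : j₁ᴴ * (T * i₁) + (j₁ᴴ * j₁ * e' * i₂ᴴ + j₂ᴴ) * (i₂ + j₂ * e) = m₀ + e := by
    have h6 : j₁ᴴ * j₁ * (e' * (i₁ᴴ * i₁ + i₂ᴴ * i₂ + i₂ᴴ * j₂ * e)) + j₂ᴴ * j₂ * e = e := by
      rw [hi, he'', ← add_mul, hj, one_mul]
    conv_rhs => rw [← h6]
    simp only [hT', hm₀, Matrix.mul_add, Matrix.add_mul, Matrix.mul_assoc]
    abel
  have h7 := card_le_of_eq_one (Y₁ := s * j₁ᴴ) (R₁ := T * i₁)
    (Y₂ := s * (j₁ᴴ * j₁ * e' * i₂ᴴ + j₂ᴴ)) (R₂ := i₂ + j₂ * e)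
    (by rw [Matrix.mul_assoc, Matrix.mul_assoc s, ← mul_add, key, hs])
  refine h7.trans (add_le_add ?_ ?_)
  · have : (T * i₁)ᴴ * (T * i₁) = i₁ᴴ * (Tᴴ * T) * i₁ᴴᴴ := by
      simp only [conjTranspose_mul, conjTranspose_conjTranspose, Matrix.mul_assoc]
    rw [this]
    exact cls_conj_le _ (conjT_mul_self_nonneg _)
  · have : (i₂ + j₂ * e)ᴴ * (i₂ + j₂ * e) = (v₂ᴴ + w₂ᴴ * e)ᴴ * c * (v₂ᴴ + w₂ᴴ * e)ᴴᴴ := by
      have h8 : i₂ + j₂ * e = rt c * (v₂ᴴ + w₂ᴴ * e) := by
        rw [hi₂, hj₂, Matrix.mul_add, Matrix.mul_assoc]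
      rw [h8, conjTranspose_mul, conjT_rt, conjTranspose_conjTranspose, Matrix.mul_assoc,
        ← Matrix.mul_assoc (rt c), rt_mul_rt hc, Matrix.mul_assoc]
    rw [this]
    exact cls_conj_le _ hc

lemma eventually_cut_le_low (a : Matrix m m A) (b : Matrix n n A) (t : Matrix n m A) {ε : ℝ}
    (hε : 0 < ε) : ∀ᶠ s in 𝓝 t, cls (cut ε (lowM a b t)) ≤ cls (lowM a b s) := by
  have hc : Continuous fun s => ‖lowM a b t - lowM a b s‖ :=
    (continuous_const.sub (continuous_lowM a b)).norm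
  filter_upwards [(hc.tendsto t).eventually (gt_mem_nhds (by simpa using hε))] with s hs
  exact cls_cut_le_of_near (.of_nonneg (lowM_nonneg _ _ _)) (lowM_nonneg _ _ _) hs

lemma isOpen_low (a : Matrix m m A) (b : Matrix n n A) (K : ℕ) (z : W A) :
    IsOpen {t | K • W.u A ≤ cls (lowM a b t) + z} := by
  refine isOpen_iff_mem_nhds.2 fun t ht => ?_
  obtain ⟨ε, h, hε⟩ := ((eventually_le_cut_add (lowM_nonneg a b t) ht).and
    self_mem_nhdsWithin).exists
  filter_upwards [eventually_cut_le_low a b t hε] with s hs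
  exact h.trans (add_le_add hs le_rfl)

theorem StableRankOne.exists_low (hA : StableRankOne A) {x y z : W A} {K L : ℕ}
    (h : ∀ i j, i + j = L → K • W.u A ≤ i • x + j • y + z) :
    ∃ c, c ≤ x ∧ c ≤ y ∧ K • W.u A ≤ L • c + z := by
  obtain ⟨l, a, ha, rfl⟩ := cls_surj x
  obtain ⟨l', b, hb, rfl⟩ := cls_surj y
  have key : ∀ r ≤ L, ∃ t, ∀ i j, i + j + r = L →
      K • W.u A ≤ r • cls (lowM a b t) + (i • cls a + j • cls b + z) := fun r => by
    induction r with
    | zero => exact fun _ => ⟨0, fun i j hij => by simpa using h i j hij⟩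
    | succ r ih =>
      intro hr
      obtain ⟨t, ht⟩ := ih (by omega)
      have h1 : ∀ᶠ ε in 𝓝[>] (0 : ℝ), ∀ i ∈ Finset.range (L - r + 1), K • W.u A ≤
          r • cls (cut ε (lowM a b t)) + (i • cls a + (L - r - i) • cls b + z) :=
        (eventually_all_finset _).2 fun i hi => eventually_le_nsmul_cut_add (lowM_nonneg a b t) r
          (ht i _ (by simp at hi; omega))
      obtain ⟨ε, h2, hε⟩ := (h1.and self_mem_nhdsWithin).exists
      let Z : ℕ → W A := fun i =>
        r • cls (cut ε (lowM a b t)) + (i • cls a + (L - r - 1 - i) • cls b + z)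
      have h3 : Dense (⋂₀ ((fun i => {s | K • W.u A ≤ cls (lowM a b s) + Z i}) ''
          (Finset.range (L - r) : Set ℕ))) := by
        refine ((Finset.finite_toSet _).image _).dense_sInter ?_ ?_
        · rintro _ ⟨i, -, rfl⟩
          exact isOpen_low a b K _
        · rintro _ ⟨i, hi, rfl⟩
          simp only [Finset.coe_range, Set.mem_Iio] at hi
          refine hA.dense_low ha hb ?_ ?_
          · have := h2 (i + 1) (by simp; omega)
            rw [show L - r - (i + 1) = L - r - 1 - i by omega, succ_nsmul] at this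
            refine this.trans (le_of_eq ?_)
            simp only [Z]
            abel
          · have := h2 i (by simp; omega)
            rw [show L - r - i = L - r - 1 - i + 1 by omega, succ_nsmul] at this
            refine this.trans (le_of_eq ?_)
            simp only [Z]
            abel
      obtain ⟨s, hs1, hs2⟩ := h3.inter_nhds_nonempty (eventually_cut_le_low a b t hε)
      refine ⟨s, fun i j hij => ?_⟩
      have h4 := hs1 _ ⟨i, by simp; omega, rfl⟩
      simp only [Set.mem_ofPred_eq, Z, show L - r - 1 - i = j by omega] at h4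
      rw [succ_nsmul', add_assoc]
      exact h4.trans (add_le_add le_rfl (add_le_add (nsmul_le_nsmul_right hs2 r) le_rfl))
  obtain ⟨t, ht⟩ := key L le_rfl
  exact ⟨_, cls_lowM_le_left ha b t, cls_lowM_le_right a hb t, by simpa using ht 0 0 (by simp)⟩

theorem StableRankOne.big_inf (hA : StableRankOne A) {t : ℝ} {x y : W A}
    (hx : Big (W.u A) t x) (hy : Big (W.u A) t y) : ∃ c, c ≤ x ∧ c ≤ y ∧ Big (W.u A) t c := by
  obtain ⟨k₁, l₁, m₁, h₁, h₁'⟩ := hx
  obtain ⟨k₂, l₂, m₂, h₂, h₂'⟩ := hy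
  obtain ⟨N, l, m, hN, hx, hy, hlt⟩ : ∃ N l m : ℕ, 0 < N ∧ l • W.u A ≤ m • W.u A + N • x ∧
      l • W.u A ≤ m • W.u A + N • y ∧ N * t + m < l := by
    have h3 := add_le_add (nsmul_le_nsmul_right h₁ (k₂ + 1))
      (le_refl ((m₂ * (k₁ + 1)) • W.u A))
    have h4 := add_le_add (nsmul_le_nsmul_right h₂ (k₁ + 1))
      (le_refl ((m₁ * (k₂ + 1)) • W.u A))
    simp only [nsmul_add, ← mul_nsmul, ← add_nsmul] at h3 h4
    refine ⟨(k₁ + 1) * (k₂ + 1), min (l₁ * (k₂ + 1) + m₂ * (k₁ + 1)) (l₂ * (k₁ + 1) + m₁ * (k₂ + 1)),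
      m₁ * (k₂ + 1) + m₂ * (k₁ + 1), by positivity,
      (W.nsmul_le (min_le_left _ _) _).trans (h3.trans (le_of_eq ?_)),
      (W.nsmul_le (min_le_right _ _) _).trans (h4.trans (le_of_eq ?_)), ?_⟩
    · rw [add_nsmul (W.u A) (m₁ * (k₂ + 1)), add_right_comm]
    · rw [add_nsmul (W.u A) (m₁ * (k₂ + 1)), add_right_comm, mul_comm (k₂ + 1), add_comm (_ • W.u A)
        (_ • W.u A)]
    · push_cast
      have p1 : (0 : ℝ) < k₁ + 1 := by positivity
      have p2 : (0 : ℝ) < k₂ + 1 := by positivity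
      refine lt_min ?_ ?_ <;> nlinarith [mul_lt_mul_of_pos_right h₁' p2,
        mul_lt_mul_of_pos_right h₂' p1]
  obtain ⟨R, hR⟩ := exists_nat_gt (N * t / (l - (N * t + m)))
  rw [div_lt_iff₀ (by linarith)] at hR
  obtain ⟨c, hc1, hc2, hc⟩ := hA.exists_low (x := x) (y := y) (z := (m * R) • W.u A) (K := l * R)
    (L := N * (R + 1)) fun i j hij => by
      obtain ⟨q, q', hq, hi, hj⟩ : ∃ q q', q + q' = R ∧ N * q ≤ i ∧ N * q' ≤ j := by
        refine ⟨min (i / N) R, R - min (i / N) R, by omega, ?_, ?_⟩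
        · exact (Nat.mul_le_mul_left N (min_le_left _ _)).trans (Nat.mul_div_le i N)
        · have h5 := Nat.lt_mul_div_succ i hN
          rcases le_total (i / N) R with h | h
          · rw [min_eq_left h]
            obtain ⟨d, rfl⟩ := Nat.exists_eq_add_of_le h
            rw [Nat.add_sub_cancel_left]
            nlinarith
          · rw [min_eq_right h]
            simp
      have h5 := add_le_add (nsmul_le_nsmul_right hx q) (nsmul_le_nsmul_right hy q')
      simp only [nsmul_add, ← mul_nsmul] at h5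
      rw [← hq, mul_add, add_nsmul, mul_add, add_nsmul]
      refine h5.trans (le_trans (le_of_eq (by abel)) (add_le_add (add_le_add (W.nsmul_le hi x)
        (W.nsmul_le hj y)) le_rfl))
  have e1 : N * (R + 1) - 1 + 1 = N * (R + 1) :=
    Nat.sub_add_cancel (Nat.succ_le_of_lt (by positivity))
  have e2 : ((N * (R + 1) - 1 : ℕ) : ℝ) + 1 = N * (R + 1) := by exact_mod_cast e1
  refine ⟨c, hc1, hc2, N * (R + 1) - 1, l * R, m * R, by rwa [e1, add_comm], ?_⟩
  rw [e2]
  push_cast
  nlinarith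

theorem StableRankOne.big_inf_finset (hA : StableRankOne A) {t : ℝ} {ι : Type*}
    (s : Finset ι) {x : ι → W A} {y : W A} (hx : ∀ i, Big (W.u A) t (x i))
    (hy : Big (W.u A) t y) : ∃ c, (∀ i ∈ s, c ≤ x i) ∧ Big (W.u A) t c := by
  classical
  induction s using Finset.induction_on with
  | empty => exact ⟨y, by simp, hy⟩
  | insert i s _ ih =>
    obtain ⟨c, hc, hc'⟩ := ih
    obtain ⟨d, hd1, hd2, hd⟩ := hA.big_inf hc' (hx i)
    refine ⟨d, fun j hj => ?_, hd⟩
    rcases Finset.mem_insert.1 hj with rfl | hj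
    exacts [hd2, hd1.trans (hc j hj)]

end Pool.Agent.Lib.MP_f90f6c_an.H50
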