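import Pool.Agent.Lib.MP_f90f6c_an.H50Cross
import Pool.Agent.Lib.MP_f90f6c_an.H50SQ
import Pool.Agent.Lib.MP_f90f6c_an.H50SR1
import Pool.Agent.Lib.MP_f90f6c_an.H50Edw

/-!
The reverse inequalities for the radius of comparison: stable rank one, or patching.
-/

namespace Pool.Agent.Lib.MP_f90f6c_an.H50

open Filter Topology Matrix
open scoped ENNReal

set_option linter.unusedSectionVars false

variable {G : Type*} [Group G] [Fintype G] [DecidableEq G] {A : Type*} [CStarAlgebra A]
  [PartialOrder A] [StarOrderedRing A] {α : G →* (A ≃⋆ₐ[ℂ] A)}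

/-- the action on the Cuntz semigroup -/
noncomputable def actW (α : G →* (A ≃⋆ₐ[ℂ] A)) (g : G) : W A →+ W A :=
  Wmap1 (α g).toNonUnitalStarAlgHom

lemma actW_cls {m : Type*} [Fintype m] [DecidableEq m] (g : G) {a : Matrix m m A} (ha : 0 ≤ a) :
    actW α g (cls a) = cls (a.map (α g)) := Wmap1_cls _ ha

lemma map_act_nonneg {m : Type*} [Fintype m] [DecidableEq m] (g : G) {a : Matrix m m A}
    (ha : 0 ≤ a) : 0 ≤ a.map (α g) := map_nonneg' (α g).toNonUnitalStarAlgHom ha

lemma actW_actW_inv (g : G) (x : W A) : actW α g (actW α g⁻¹ x) = x := by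
  obtain ⟨k, a, ha, rfl⟩ := cls_surj x
  rw [actW_cls _ ha, actW_cls _ (map_act_nonneg _ ha)]
  congr 1
  ext i j
  rw [map_apply, map_apply, act_act, mul_inv_cancel, act_one]

lemma Big.actW {t : ℝ} {x : W A} (h : Big (W.u A) t x) (g : G) : Big (W.u A) t (actW α g x) := by
  obtain ⟨k, l, m, h1, h2⟩ := h
  have h3 := Wmap1_mono (α g).toNonUnitalStarAlgHom h1
  rw [map_add, map_nsmul, map_nsmul, map_nsmul, Wmap1_u _ (map_one (α g))] at h3
  exact ⟨k, l, m, h3, h2⟩

variable (α) in
/-- the map induced by the inclusion of the fixed point algebra -/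
noncomputable abbrev inW : W (fixedAlg α) →+ W A :=
  Wmap1 (fixedAlg α).subtype.toNonUnitalStarAlgHom

lemma Big.lt {B : Type*} [CStarAlgebra B] [PartialOrder B] [StarOrderedRing B] {t : ℝ} {x : W B}
    (h : Big (W.u B) t x) {s : W B →+ ℝ} (hs : IsState (W.u B) s) : t < s x := by
  obtain ⟨k, l, m, h1, h2⟩ := h
  have h3 := hs.mono h1
  rw [map_add, hs.nsmul_unit, hs.nsmul_unit, map_nsmul, nsmul_eq_mul] at h3
  push_cast at h3
  exact lt_of_mul_lt_mul_left (by linarith) (show (0 : ℝ) ≤ k + 1 by positivity)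

variable (A) in
/-- large elements have large lower bounds -/
def HasInf : Prop := ∀ (t : ℝ) (x y : W A), Big (W.u A) t x → Big (W.u A) t y →
  ∃ c, c ≤ x ∧ c ≤ y ∧ Big (W.u A) t c

lemma HasInf.finset (hA : HasInf A) {t : ℝ} {ι : Type*} (s : Finset ι) {x : ι → W A} {y : W A}
    (hx : ∀ i, Big (W.u A) t (x i)) (hy : Big (W.u A) t y) :
    ∃ c, (∀ i ∈ s, c ≤ x i) ∧ Big (W.u A) t c := by
  classical
  induction s using Finset.induction_on with
  | empty => exact ⟨y, by simp, hy⟩
  | insert i s _ ih =>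
    obtain ⟨c, hc, hc'⟩ := ih
    obtain ⟨d, hd1, hd2, hd⟩ := hA _ _ _ hc' (hx i)
    refine ⟨d, fun j hj => ?_, hd⟩
    rcases Finset.mem_insert.1 hj with rfl | hj
    exacts [hd2, hd1.trans (hc j hj)]

lemma Patch.hasInf (hA : Patch A) : HasInf A := fun _ _ _ hx hy =>
  (hA.big_inf (fun _ hs => hx.lt hs) fun _ hs => hy.lt hs).imp fun _ h =>
    ⟨h.1, h.2.1, big_of_states W.zero_le W.exists_le_nsmul h.2.2⟩

lemma exists_small_fixed (hA : IsSimple A) (hinf : ¬FiniteDimensional ℂ A)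
    (hα : WeakTracialRokhlin α) (l : ℕ) {ε : ℝ} (hε : 0 < ε) : ∃ x : A, 0 ≤ x ∧ ‖x‖ = 1 ∧
      ∀ z : fixedAlg α, 0 ≤ z → CSub (z : A) x →
        ∀ s, IsState (W.u (fixedAlg α)) s → l * s (cls1 z) < ε := by
  obtain ⟨N, hN⟩ := exists_small_bound hA hα
  obtain ⟨M, hM⟩ := exists_nat_gt (l * N / ε)
  rw [div_lt_iff₀ hε] at hM
  obtain ⟨x, hx0, hx1, hxM⟩ := hA.exists_small hinf M
  refine ⟨x, hx0, hx1, fun z hz h6 s hs => ?_⟩
  have h8 := hs.mono (hN M x z hx0 hz hxM h6)
  rw [hs.nsmul_unit, map_nsmul, nsmul_eq_mul] at h8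
  have hl : (0 : ℝ) ≤ l := Nat.cast_nonneg _
  refine lt_of_mul_lt_mul_left ?_ (Nat.cast_nonneg (α := ℝ) M)
  nlinarith

theorem le_of_big (hA : IsSimple A) (hinf : ¬FiniteDimensional ℂ A) (hI : HasInf A)
    (hα : WeakTracialRokhlin α) {t t' : ℝ} (ht : t < t') {x : W A} (hx : Big (W.u A) t' x) :
    ∃ y : W (fixedAlg α), (∀ s, IsState (W.u (fixedAlg α)) s → t < s y) ∧ inW α y ≤ x := by
  obtain ⟨c, hc, k, l, m, h1, h2⟩ := hI.finset Finset.univ
    (x := fun g => actW α g⁻¹ x) (fun g => hx.actW g⁻¹) hx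
  obtain ⟨n, b, hb, rfl⟩ := cls_surj x
  obtain ⟨n', c, hc0, rfl⟩ := cls_surj c
  rw [add_comm] at h1
  obtain ⟨ε, h3, hε⟩ := ((eventually_le_nsmul_cut_add hc0 _ h1).and self_mem_nhdsWithin).exists
  have h4 : ∀ g, ∃ w : Matrix (Fin n') (Fin n) A, w * b * wᴴ = (cut ε c).map (α g) := fun g => by
    have h5 := Wmap1_mono (α g).toNonUnitalStarAlgHom (hc g (Finset.mem_univ g))
    change actW α g _ ≤ actW α g _ at h5
    rw [actW_actW_inv, actW_cls _ hc0, cls_le_cls (map_act_nonneg _ hc0) hb] at h5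
    obtain ⟨w, hw⟩ := h5.exists_conj (.of_nonneg (map_act_nonneg _ hc0)) hb hε
    exact ⟨w, hw.trans (map_cut (α g).toStarAlgHom ε (.of_nonneg hc0)).symm⟩
  choose w hw using h4
  obtain ⟨x, hx0, hx1, hxM⟩ := exists_small_fixed hA hinf hα l (sub_pos.2 ht)
  obtain ⟨F, _, f, δ, T⟩ := hα.exists_towers hx0 hx1
  obtain ⟨y, z, hy, hz, h5, h6, h7⟩ := T.transfer hx0 (cut_nonneg ε c) hb w hw h3
  refine ⟨cls y, fun s hs => ?_, (Wmap1_cls _ hy).trans_le h5⟩
  have h9 := hs.mono h7
  rw [map_add, map_add, hs.nsmul_unit, hs.nsmul_unit, map_nsmul, map_nsmul, nsmul_eq_mul,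
    nsmul_eq_mul] at h9
  push_cast at h9
  have hk : (0 : ℝ) ≤ k := Nat.cast_nonneg _
  have h11 := hxM z hz h6 s hs
  by_contra hcon
  push Not at hcon
  nlinarith

theorem big_fixed (hA : IsSimple A) (hinf : ¬FiniteDimensional ℂ A)
    (hα : WeakTracialRokhlin α) {t t' : ℝ} (ht : t < t') {y : W (fixedAlg α)}
    (hy : Big (W.u A) t' (inW α y)) {s : W (fixedAlg α) →+ ℝ} (hs : IsState (W.u _) s) :
    t < s y := by
  obtain ⟨k, l, m, h1, h2⟩ := hy
  obtain ⟨n, c, hc, rfl⟩ := cls_surj y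
  rw [add_comm, Wmap1_cls _ hc] at h1
  obtain ⟨x, hx0, hx1, hxM⟩ := exists_small_fixed hA hinf hα l (sub_pos.2 ht)
  obtain ⟨F, _, f, δ, T⟩ := hα.exists_towers hx0 hx1
  obtain ⟨z, hz, h6, h7⟩ := T.transfer_inv hx0 hc h1
  have h9 := hs.mono h7
  rw [map_add, map_add, hs.nsmul_unit, hs.nsmul_unit, map_nsmul, map_nsmul, nsmul_eq_mul,
    nsmul_eq_mul] at h9
  push_cast at h9
  have hk : (0 : ℝ) ≤ k := Nat.cast_nonneg _
  have h11 := hxM z hz h6 s hs
  by_contra hcon
  push Not at hcon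
  nlinarith

variable (α) in
/-- comparison in `A` reduces to comparison of elements of the fixed point algebra -/
def Reduces : Prop := ∀ r r' : ℝ, 0 ≤ r → r < r' →
  (∀ x y : W (fixedAlg α), (∀ s, IsState (W.u (fixedAlg α)) s → s x + r < s y) →
    inW α x ≤ inW α y) → RComparison A r'

lemma rComparison_of_states {r : ℝ} (h : ∀ x' x y : W A, LL x' x →
    (∀ s, IsState (W.u A) s → s x + r < s y) → x' ≤ y) : RComparison A r := by
  intro n a b ha hb hab
  obtain ⟨a, rfl⟩ := CStarMatrix.ofMatrix.surjective a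
  obtain ⟨b, rfl⟩ := CStarMatrix.ofMatrix.surjective b
  replace ha : 0 ≤ a := ha
  replace hb : 0 ≤ b := hb
  have key : MSub a b := MSub.of_cut ha fun ε hε => (cls_le_cls (cut_nonneg _ _) hb).1 <|
    h _ _ _ (LL.cut_cut ha (half_lt_self hε)) fun s hs => by
      obtain ⟨t, ht⟩ := hs.exists_qt'
      linarith [hab t, (ht n a ha).2 _ (half_pos hε), (ht n b hb).1]
  exact cuntzSub_iff.2 key

theorem reduces_of_sr1 (hA : IsSimple A) (hinf : ¬FiniteDimensional ℂ A) (hsr : StableRankOne A)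
    (hα : WeakTracialRokhlin α) : Reduces α := fun r r' _ hr HB =>
  rComparison_of_states <| by
    rintro x' x y ⟨n, a, ε, ha, hε, p1, p2⟩ hab
    set c := cfc (fun t => max (ε - t) 0) a with hc
    have hc0 : 0 ≤ c := cfc_nonneg fun _ _ => le_max_right _ _
    have h1 : cut ε a * c = 0 := by
      rw [cut, hc, cfc_mul_cfc (by fun_prop) (by fun_prop), ← cfc_zero ℝ a]
      refine cfc_congr fun s _ => ?_
      rcases le_total s ε with h | h
      · simp [max_eq_right (sub_nonpos.2 h)]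
      · simp [max_eq_right (sub_nonpos.2 h)]
    have h2 : n • W.u A ≤ cls a + cls c := by
      have h3 : IsUnit (a + c) := by
        conv => enter [1, 1]; rw [← cfc_id' ℝ a]
        rw [hc, ← cfc_add a _ _]
        refine (isUnit_cfc_iff _ a).2 fun t _ => ne_of_gt ?_
        have := le_max_left (ε - t) 0
        linarith
      simpa using (card_le_cls_of_isUnit (add_nonneg ha hc0) h3).trans (cls_add_le ha hc0)
    have h3 : Big (W.u A) (n + r') (y + cls c) :=
      big_of_states W.zero_le W.exists_le_nsmul fun s hs => by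
        have h4 := hs.mono (h2.trans (add_le_add p2 le_rfl))
        rw [hs.nsmul_unit, map_add] at h4
        rw [map_add]
        linarith [hab s hs]
    obtain ⟨z, hz, hz'⟩ := le_of_big hA hinf (fun _ _ _ => hsr.big_inf) hα
      (show n + r < n + r' by linarith) h3
    have h4 := HB (n • W.u _) z fun s hs => by
      rw [hs.nsmul_unit]
      exact hz s hs
    rw [map_nsmul, Wmap1_u _ (map_one (fixedAlg α).subtype)] at h4
    exact p1.trans (hsr.cancel (cut_nonneg _ _) hc0 h1 (by simpa using h4.trans hz'))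

theorem reduces_of_patch (hA : IsSimple A) (hinf : ¬FiniteDimensional ℂ A) (hP : Patch A)
    (hα : WeakTracialRokhlin α) : Reduces α := fun r r' h0 hr HB =>
  rComparison_of_states fun x' x y hx hab => by
    have hn : (0 : ℝ) < Fintype.card G := Nat.cast_pos.2 Fintype.card_pos
    set η := (r' - r) / 3 with hη
    have hη0 : 0 < η := by linarith
    obtain ⟨x₁, p1, p2⟩ := hx.interp
    obtain ⟨κ, ⟨z, q1, q2, q3⟩, q4⟩ := hP.embed p2 (y := y)
      (fun s hs => by linarith [hab s hs]) (div_pos hη0 hn)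
    obtain ⟨k, c, hc, rfl⟩ := cls_surj κ
    let c' : Matrix (Fin k) (Fin k) (fixedAlg α) := c.map (avg α)
    have e1 : c'.map (fixedAlg α).subtype = ∑ g, c.map (α g) := by
      ext i j
      simp [c', coe_avg, Matrix.sum_apply]
    have hc' : 0 ≤ c' := nonneg_of_map_nonneg (mapHom (m := Fin k) (fixedAlg α).subtype)
      (mapHom_injective _ Subtype.val_injective)
      (le_of_le_of_eq (Finset.sum_nonneg fun g _ => map_act_nonneg g hc) e1.symm)
    have e2 : inW α (cls c') = cls (∑ g, c.map (α g)) := (Wmap1_cls _ hc').trans (congrArg cls e1)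
    have q5 : cls c ≤ inW α (cls c') := by
      rw [e2]
      refine cls_mono hc (le_of_eq_of_le ?_ (Finset.single_le_sum
        (fun g _ => map_act_nonneg (α := α) g hc) (Finset.mem_univ 1)))
      ext i j
      exact (act_one α _).symm
    have q6 : ∀ s, IsState (W.u A) s → s (inW α (cls c')) < η := fun s hs => by
      rw [e2]
      refine (hs.mono (cls_sum_le _ fun g => map_act_nonneg g hc)).trans_lt ?_
      rw [map_sum]
      refine (Finset.sum_lt_sum_of_nonempty Finset.univ_nonempty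
        (g := fun _ => η / Fintype.card G) fun g _ => ?_).trans_eq ?_
      · rw [← actW_cls g hc]
        exact q4 (s.comp (actW α g)) ⟨hs.mono.comp (Wmap1_mono _), by
          change s (Wmap1 _ _) = 1
          rw [Wmap1_u _ (map_one (α g)), hs.unit]⟩
      · rw [Finset.sum_const, Finset.card_univ, nsmul_eq_mul, mul_div_cancel₀ _ hn.ne']
    obtain ⟨z', κ', r1, r2, r3⟩ := (p1.mono le_rfl (q3.trans (add_le_add le_rfl q5))).split
    rw [Wmap1_cls _ hc'] at r2
    obtain ⟨ε, hε, r4⟩ := r2.exists_cut (map_nonneg' _ hc')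
    obtain ⟨w, r5, r6⟩ := r1.compl q2
    obtain ⟨v, r7, r8⟩ := le_of_big hA hinf hP.hasInf hα (show r' - η < r' by linarith) (x := w)
      (big_of_states W.zero_le W.exists_le_nsmul fun s hs => by
        have := hs.mono r6
        rw [map_add] at this
        linarith [hab s hs, hs.mono q1])
    obtain ⟨d, d1, d2⟩ := (LL.cut hc' hε).compl (cls_le_card hc')
    have d3 := Wmap1_mono (fixedAlg α).subtype.toNonUnitalStarAlgHom d2
    rw [map_nsmul, Wmap1_u _ (map_one (fixedAlg α).subtype), map_add] at d3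
    have r9 := HB (cls (cut ε c')) v fun s hs => by
      have d4 := big_fixed hA hinf hα
        (show Fintype.card (Fin k) - η - η < Fintype.card (Fin k) - η by linarith) (y := d)
        (big_of_states W.zero_le W.exists_le_nsmul fun s hs => by
          have := hs.mono d3
          rw [map_add, hs.nsmul_unit] at this
          linarith [q6 s hs]) hs
      have d5 := hs.mono d1
      rw [map_add, hs.nsmul_unit] at d5
      linarith [r7 s hs]
    rw [Wmap1_cls _ (cut_nonneg _ _)] at r9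
    refine r3.trans (le_trans (add_le_add le_rfl (r4.trans (le_trans (le_of_eq ?_)
      (r9.trans r8)))) r5)
    exact congrArg cls (map_cut (fixedAlg α).subtype ε (.of_nonneg hc')).symm

theorem reduces_of_subsingleton [Subsingleton G] : Reduces α := fun r r' _ hr HB =>
  rComparison_of_states fun x' x y hx hab => by
    let φ : A →⋆ₙₐ[ℂ] fixedAlg α :=
      { toFun := fun a => ⟨a, fun g => by rw [Subsingleton.elim g 1, act_one]⟩
        map_smul' := fun _ _ => rfl
        map_zero' := rfl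
        map_add' := fun _ _ => rfl
        map_mul' := fun _ _ => rfl
        map_star' := fun _ => rfl }
    have h1 : ∀ w, inW α (Wmap1 φ w) = w := fun w => by
      obtain ⟨k, a, ha, rfl⟩ := cls_surj w
      rw [Wmap1_cls _ ha, Wmap1_cls _ (map_nonneg' _ ha)]
      rfl
    have h2 := HB (Wmap1 φ x) (Wmap1 φ y) fun s hs => by
      have := hab (s.comp (Wmap1 φ)) ⟨hs.mono.comp (Wmap1_mono φ), by
        change s (Wmap1 φ _) = 1
        rw [Wmap1_u φ rfl, hs.unit]⟩
      change s (Wmap1 φ x) + r' < s (Wmap1 φ y) at this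
      linarith
    rw [h1, h1] at h2
    exact hx.le.trans h2

theorem Reduces.of_crossed (H : Reduces α) (hA : IsSimple A) (hinf : ¬FiniteDimensional ℂ A)
    (hα : WeakTracialRokhlin α) {r r' : ℝ} (h0 : 0 ≤ r)
    (hr : Fintype.card G * r < r') (h : RComparison (crossed α) r) : RComparison A r' :=
  H _ _ (mul_nonneg (Nat.cast_nonneg _) h0) hr fun x y hy => compress <| h.le_of_states fun s hs => by
    have h1 := one_le_card_mul_state hA hinf hα hs
    have h2 := hs.nonneg W.zero_le (cls1 (proj α))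
    have h3 : 0 < s (cls1 (proj α)) := lt_of_le_of_ne h2 fun h => by
      rw [← h, mul_zero] at h1
      linarith
    have h4 := hy ((AddMonoidHom.mulLeft (s (cls1 (proj α)))⁻¹).comp (s.comp (Wmap1 (psiD α))))
      ⟨fun x y hxy => mul_le_mul_of_nonneg_left (hs.mono (Wmap1_mono _ hxy)) (inv_nonneg.2 h2), by
        change _ * s (Wmap1 (psiD α) (cls1 1)) = 1
        rw [Wmap1_cls1 _ zero_le_one, psiD_one, inv_mul_cancel₀ h3.ne']⟩
    change _ * s (Wmap1 (psiD α) x) + _ < _ * s (Wmap1 (psiD α) y) at h4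
    rw [lt_inv_mul_iff₀ h3, mul_add, ← mul_assoc, mul_inv_cancel₀ h3.ne', one_mul] at h4
    nlinarith

lemma rc_le_of_forall {r : ℝ} (h0 : 0 ≤ r) (h : ∀ r', r < r' → RComparison A r') :
    rc A ≤ ENNReal.ofReal r := by
  refine ENNReal.le_of_forall_pos_le_add fun ε hε _ => ?_
  have hε' : (0 : ℝ) < ε := hε
  rw [← ENNReal.ofReal_coe_nnreal, ← ENNReal.ofReal_add h0 hε'.le]
  exact iInf_le_of_le (r + ε) (iInf_le_of_le (add_nonneg h0 hε'.le)
    (iInf_le _ (h _ (lt_add_of_pos_right r hε'))))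

theorem Reduces.rc_le_fixed (H : Reduces α) : rc A ≤ rc (fixedAlg α) :=
  le_iInf fun _ => le_iInf fun h0 => le_iInf fun h => rc_le_of_forall h0 fun _ hr =>
    H _ _ h0 hr fun _ _ hxy => Wmap1_mono _ (h.le_of_states hxy)

theorem Reduces.rc_le_crossed (H : Reduces α) (hA : IsSimple A) (hinf : ¬FiniteDimensional ℂ A)
    (hα : WeakTracialRokhlin α) : (Fintype.card G : ℝ≥0∞)⁻¹ * rc A ≤ rc (crossed α) := by
  refine le_iInf fun r => le_iInf fun h0 => le_iInf fun h => ?_
  have h1 := rc_le_of_forall (mul_nonneg (Nat.cast_nonneg (Fintype.card G)) h0)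
    fun _ hr => H.of_crossed hA hinf hα h0 hr h
  rw [ENNReal.ofReal_mul (Nat.cast_nonneg _), ENNReal.ofReal_natCast] at h1
  exact (ENNReal.inv_mul_le_iff (Nat.cast_ne_zero.2 Fintype.card_ne_zero)
    (ENNReal.natCast_ne_top _)).2 h1

end Pool.Agent.Lib.MP_f90f6c_an.H50
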