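import Pool.Agent.Lib.MP_f90f6c_an.H50W

/-!
Functoriality of the Cuntz semigroup.
-/

namespace Pool.Agent.Lib.MP_f90f6c_an.H50

open Filter Topology Matrix

set_option linter.unusedSectionVars false

variable {A : Type*} [CStarAlgebra A] [PartialOrder A] [StarOrderedRing A]
variable {B : Type*} [CStarAlgebra B] [PartialOrder B] [StarOrderedRing B]
variable {m n p N : Type*} [Fintype m] [DecidableEq m] [Fintype n] [DecidableEq n]
  [Fintype p] [DecidableEq p] [Fintype N] [DecidableEq N]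

/-- amplification of a matrix valued homomorphism -/
noncomputable def mapM (φ : A →⋆ₙₐ[ℂ] Matrix N N B) (a : Matrix m n A) : Matrix (m × N) (n × N) B :=
  Matrix.of fun i j => φ (a i.1 j.1) i.2 j.2

lemma mapM_mul (φ : A →⋆ₙₐ[ℂ] Matrix N N B) (a : Matrix m n A) (b : Matrix n p A) :
    mapM φ (a * b) = mapM φ a * mapM φ b := by
  ext i j
  simp [mapM, Matrix.mul_apply, map_sum, Matrix.sum_apply, Fintype.sum_prod_type]

lemma mapM_conjT (φ : A →⋆ₙₐ[ℂ] Matrix N N B) (a : Matrix m n A) :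
    mapM φ aᴴ = (mapM φ a)ᴴ := by
  ext i j
  simp [mapM, map_star]

lemma continuous_mapM (φ : A →⋆ₙₐ[ℂ] Matrix N N B) :
    Continuous (mapM φ : Matrix m n A → _) := by
  refine continuous_matrix fun i j => ?_
  have hφ : Continuous φ := map_continuous φ
  exact (hφ.comp (continuous_id.matrix_elem i.1 j.1)).matrix_elem i.2 j.2

lemma mapM_nonneg (φ : A →⋆ₙₐ[ℂ] Matrix N N B) {a : Matrix m m A} (ha : 0 ≤ a) :
    0 ≤ mapM φ a := by
  obtain ⟨s, rfl⟩ := exists_eq_conjT_mul ha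
  rw [mapM_mul, mapM_conjT]
  exact conjT_mul_self_nonneg _

lemma MSub.mapM (φ : A →⋆ₙₐ[ℂ] Matrix N N B) {a : Matrix m m A} {b : Matrix n n A}
    (h : MSub a b) : MSub (mapM φ a) (mapM φ b) := by
  refine map_mem_closure (continuous_mapM φ) h ?_
  rintro _ ⟨v, rfl⟩
  exact ⟨H50.mapM φ v, by rw [mapM_mul, mapM_mul, mapM_conjT]⟩

lemma cls_mapM_rep (φ : A →⋆ₙₐ[ℂ] Matrix N N B) {a : Matrix m m A} (ha : 0 ≤ a) :
    cls (mapM φ (cls a).rep.a) = cls (mapM φ a) :=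
  cls_eq_cls (mapM_nonneg φ (cls a).rep.h) (mapM_nonneg φ ha) ((rep_msub ha).mapM φ)
    ((msub_rep ha).mapM φ)

/-- the map induced on Cuntz semigroups -/
noncomputable def Wmap (φ : A →⋆ₙₐ[ℂ] Matrix N N B) : W A →+ W B where
  toFun x := cls (mapM φ x.rep.a)
  map_zero' := by
    rw [← cls_zero (m := Fin 0), cls_mapM_rep φ le_rfl, ← cls_zero (m := Fin 0 × N)]
    congr 1
    exact Subsingleton.elim _ _
  map_add' x y := by
    obtain ⟨k, a, ha, rfl⟩ := cls_surj x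
    obtain ⟨l, b, hb, rfl⟩ := cls_surj y
    rw [← cls_fromBlocks ha hb, cls_mapM_rep φ ha, cls_mapM_rep φ hb,
      cls_mapM_rep φ (fromBlocks_nonneg ha hb),
      ← cls_fromBlocks (mapM_nonneg φ ha) (mapM_nonneg φ hb),
      ← cls_submatrix_equiv (fromBlocks_nonneg (mapM_nonneg φ ha) (mapM_nonneg φ hb))
        (Equiv.sumProdDistrib _ _ _)]
    congr 1
    ext ⟨i | i, i'⟩ ⟨j | j, j'⟩ <;> simp [mapM]

lemma Wmap_cls (φ : A →⋆ₙₐ[ℂ] Matrix N N B) {a : Matrix m m A} (ha : 0 ≤ a) :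
    Wmap φ (cls a) = cls (mapM φ a) := cls_mapM_rep φ ha

lemma Wmap_mono (φ : A →⋆ₙₐ[ℂ] Matrix N N B) : Monotone (Wmap φ) := fun x y h => by
  obtain ⟨k, a, ha, rfl⟩ := cls_surj x
  obtain ⟨l, b, hb, rfl⟩ := cls_surj y
  rw [Wmap_cls φ ha, Wmap_cls φ hb, cls_le_cls (mapM_nonneg φ ha) (mapM_nonneg φ hb)]
  exact ((cls_le_cls ha hb).1 h).mapM φ

lemma Wmap_cls1 (φ : A →⋆ₙₐ[ℂ] Matrix N N B) {a : A} (ha : 0 ≤ a) :
    Wmap φ (cls1 a) = cls (φ a) := by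
  rw [cls1, Wmap_cls φ (oneBy_nonneg ha),
    ← cls_submatrix_equiv (map_nonneg φ ha) (Equiv.uniqueProd N Unit)]
  congr 1

/-- the map induced on Cuntz semigroups -/
noncomputable def Wmap1 (φ : A →⋆ₙₐ[ℂ] B) : W A →+ W B :=
  Wmap (oneBy.toNonUnitalStarAlgHom.comp φ)

lemma Wmap1_mono (φ : A →⋆ₙₐ[ℂ] B) : Monotone (Wmap1 φ) := Wmap_mono _

lemma map_nonneg' (φ : A →⋆ₙₐ[ℂ] B) {a : Matrix m m A} (ha : 0 ≤ a) : 0 ≤ a.map φ :=
  submatrix_nonneg (mapM_nonneg (oneBy.toNonUnitalStarAlgHom.comp φ) ha)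
    (Equiv.prodUnique m Unit).symm

lemma Wmap1_cls (φ : A →⋆ₙₐ[ℂ] B) {a : Matrix m m A} (ha : 0 ≤ a) :
    Wmap1 φ (cls a) = cls (a.map φ) := by
  rw [Wmap1, Wmap_cls _ ha, ← cls_submatrix_equiv (map_nonneg' φ ha) (Equiv.prodUnique m Unit)]
  congr 1

lemma Wmap1_cls1 (φ : A →⋆ₙₐ[ℂ] B) {a : A} (ha : 0 ≤ a) : Wmap1 φ (cls1 a) = cls1 (φ a) :=
  Wmap_cls1 _ ha

lemma Wmap1_u (φ : A →⋆ₙₐ[ℂ] B) (h : φ 1 = 1) : Wmap1 φ (W.u A) = W.u B := by
  rw [W.u, Wmap1_cls1 φ zero_le_one, h, W.u]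

/-- entrywise application of a unital homomorphism -/
noncomputable def mapHom (φ : A →⋆ₐ[ℂ] B) : Matrix m m A →⋆ₐ[ℂ] Matrix m m B where
  toAlgHom := φ.toAlgHom.mapMatrix
  map_star' a := by
    ext i j
    simp [map_star]

lemma map_cfc_matrix (φ : A →⋆ₐ[ℂ] B) {f : ℝ → ℝ} (hf : Continuous f) {a : Matrix m m A}
    (ha : IsSelfAdjoint a) : (cfc f a).map φ = cfc f (a.map φ) :=
  StarAlgHom.map_cfc (mapHom φ) f a hf.continuousOn (map_continuous _) ha (ha.map (mapHom φ))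

lemma map_cut (φ : A →⋆ₐ[ℂ] B) (ε : ℝ) {a : Matrix m m A} (ha : IsSelfAdjoint a) :
    (cut ε a).map φ = cut ε (a.map φ) :=
  map_cfc_matrix φ (by fun_prop) ha

lemma map_cut1 (φ : A →⋆ₐ[ℂ] B) (ε : ℝ) {a : A} (ha : IsSelfAdjoint a) :
    φ (cut ε a) = cut ε (φ a) :=
  StarAlgHom.map_cfc φ _ a (by fun_prop) (map_continuous _) ha (ha.map φ)

end Pool.Agent.Lib.MP_f90f6c_an.H50
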