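import Pool.Agent.Lib.MP_f90f6c_an.H50Gen
import Pool.Agent.Lib.MP_f90f6c_an.H50Mat

/-!
Cuntz subequivalence for elements of a C⋆-algebra and for matrices of different sizes.
-/

namespace Pool.Agent.Lib.MP_f90f6c_an.H50

open Filter Topology Matrix

set_option linter.unusedSectionVars false

section Gen

variable {E : Type*} [CStarAlgebra E] [PartialOrder E] [StarOrderedRing E]

/-- Cuntz subequivalence, closure form -/
def CSub (a b : E) : Prop := a ∈ closure {x | ∃ v, x = v * b * star v}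

lemma cuntzSub_iff {a b : E} : CuntzSub a b ↔ CSub a b := by
  rw [CSub, mem_closure_iff_seq_limit]
  constructor
  · rintro ⟨v, hv⟩
    exact ⟨_, fun k => ⟨v k, rfl⟩, hv⟩
  · rintro ⟨x, hx, hv⟩
    choose v hv' using hx
    exact ⟨v, by simpa only [← hv'] using hv⟩

lemma CSub.conj (v b : E) : CSub (v * b * star v) b := subset_closure ⟨v, rfl⟩

lemma CSub.trans {a b c : E} (h1 : CSub a b) (h2 : CSub b c) : CSub a c := by
  refine closure_minimal ?_ isClosed_closure h1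
  rintro _ ⟨v, rfl⟩
  refine map_mem_closure (f := fun x => v * x * star v) (by fun_prop) h2 ?_
  rintro _ ⟨w, rfl⟩
  exact ⟨v * w, by simp [mul_assoc]⟩

lemma CSub.of_forall {a b : E} (h : ∀ ε > 0, ∃ x, CSub x b ∧ ‖a - x‖ < ε) : CSub a b := by
  rw [CSub, ← closure_closure, Metric.mem_closure_iff]
  intro ε hε
  obtain ⟨x, hx, h⟩ := h ε hε
  exact ⟨x, hx, by rwa [dist_eq_norm]⟩

lemma CSub.exists_near {a b : E} (h : CSub a b) {ε : ℝ} (hε : 0 < ε) :
    ∃ v, ‖a - v * b * star v‖ < ε := by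
  obtain ⟨_, ⟨v, rfl⟩, h⟩ := Metric.mem_closure_iff.1 h ε hε
  exact ⟨v, by rwa [dist_eq_norm] at h⟩

lemma CSub.of_le {a c : E} (ha : 0 ≤ a) (h : a ≤ c) : CSub a c := by
  have hc := ha.trans h
  obtain ⟨x, hx, rfl⟩ := exists_factor (y := rt c) ha (by rwa [star_rt, rt_mul_rt hc])
  refine map_mem_closure (f := fun x => star x * x) (by fun_prop) hx ?_
  rintro _ ⟨t, rfl⟩
  refine ⟨star t, ?_⟩
  simp only [star_mul, star_rt, star_star]
  rw [mul_assoc, ← mul_assoc (rt c), rt_mul_rt hc, mul_assoc]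

lemma CSub.refl (a : E) : CSub a a := by simpa using CSub.conj 1 a

lemma CSub.smul {c : ℝ} (hc : 0 ≤ c) (a : E) : CSub (c • a) a := by
  have := CSub.conj (√c • (1 : E)) a
  simpa [smul_smul, Real.mul_self_sqrt hc] using this

lemma exists_const_supp {X : Type*} [TopologicalSpace X] [CompactSpace X] {f g : C(X, ℝ)}
    (hg : 0 ≤ g) (h : ∀ x, g x = 0 → f x = 0) {ε : ℝ} (hε : 0 < ε) :
    ∃ C : ℝ, 0 ≤ C ∧ f ≤ C • g + ε • 1 := by
  have hK : IsCompact {x | ε ≤ f x} := (isClosed_le continuous_const f.continuous).isCompact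
  obtain ⟨η, hη, hη'⟩ := hK.exists_forall_le' g.continuous.continuousOn (a := 0) fun x hx =>
    lt_of_le_of_ne (hg x) fun h0 => by
      have := h x h0.symm
      simp only [Set.mem_ofPred_eq] at hx
      linarith
  refine ⟨‖f‖ / η, by positivity, ContinuousMap.le_def.2 fun x => ?_⟩
  have h0 : 0 ≤ g x := hg x
  simp only [ContinuousMap.add_apply, ContinuousMap.smul_apply, ContinuousMap.one_apply,
    smul_eq_mul, mul_one]
  rcases le_or_gt ε (f x) with h1 | h1
  · have h2 := hη' x h1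
    have h3 : f x ≤ ‖f‖ := (le_abs_self _).trans (f.norm_coe_le_norm x)
    have h4 : ‖f‖ / η * η ≤ ‖f‖ / η * g x := by gcongr
    rw [div_mul_cancel₀ _ hη.ne'] at h4
    linarith
  · have : 0 ≤ ‖f‖ / η * g x := by positivity
    linarith

lemma CSub.of_supp {X : Type*} [TopologicalSpace X] [CompactSpace X] (ρ : C(X, ℝ) →⋆ₐ[ℝ] E)
    (hρ : Continuous ρ) {f g : C(X, ℝ)} (hf : 0 ≤ f) (hg : 0 ≤ g) (h : ∀ x, g x = 0 → f x = 0) :
    CSub (ρ f) (ρ g) := by
  have key : f ∈ closure {k : C(X, ℝ) | CSub (ρ k) (ρ g)} := by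
    rw [Metric.mem_closure_iff]
    intro ε hε
    obtain ⟨C, hC, hle⟩ := exists_const_supp hg h (half_pos hε)
    let k : C(X, ℝ) := (f - (ε / 2) • 1) ⊔ 0
    have hk0 : 0 ≤ k := le_sup_right
    have hk1 : k ≤ C • g := sup_le (sub_le_iff_le_add.2 hle) (smul_nonneg hC hg)
    refine ⟨k, ?_, ?_⟩
    · refine (CSub.of_le (map_nonneg ρ hk0) (OrderHomClass.mono ρ hk1)).trans ?_
      rw [map_smul]
      exact CSub.smul hC _
    · refine lt_of_le_of_lt ((ContinuousMap.dist_le (half_pos hε).le).2 fun x => ?_)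
        (half_lt_self hε)
      have h0 : 0 ≤ f x := hf x
      simp only [k, ContinuousMap.sup_apply, ContinuousMap.sub_apply, ContinuousMap.smul_apply,
        ContinuousMap.one_apply, smul_eq_mul, mul_one, ContinuousMap.zero_apply, Real.dist_eq]
      rw [abs_le]
      constructor
      · have := max_le (show f x - ε / 2 ≤ f x by linarith) h0
        linarith
      · have := le_max_left (f x - ε / 2) 0
        linarith
  rw [CSub, ← closure_closure]
  exact map_mem_closure hρ key fun k hk => hk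

lemma CSub.cfc_supp {a : E} (ha : IsSelfAdjoint a) {f g : ℝ → ℝ} (hf : Continuous f)
    (hg : Continuous g) (hf0 : ∀ t ∈ spectrum ℝ a, 0 ≤ f t) (hg0 : ∀ t ∈ spectrum ℝ a, 0 ≤ g t)
    (h : ∀ t ∈ spectrum ℝ a, g t = 0 → f t = 0) : CSub (cfc f a) (cfc g a) := by
  rw [cfc_apply f a, cfc_apply g a]
  exact CSub.of_supp (cfcHom ha) (cfcHom_continuous ha) (fun x => hf0 x x.2) (fun x => hg0 x x.2)
    fun x => h x x.2

lemma CSub.cfc_self {a : E} (ha : 0 ≤ a) {f : ℝ → ℝ} (hf : Continuous f)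
    (hf0 : ∀ t, 0 ≤ t → 0 ≤ f t) (h : f 0 = 0) : CSub (cfc f a) a := by
  have := CSub.cfc_supp (.of_nonneg ha) hf continuous_id'
    (fun t ht => hf0 t (spectrum_nonneg_of_nonneg ha ht))
    (fun t ht => spectrum_nonneg_of_nonneg ha ht) fun t _ ht => by rw [ht, h]
  rwa [cfc_id' ℝ a (.of_nonneg ha)] at this

lemma CSub.self_cfc {a : E} (ha : 0 ≤ a) {f : ℝ → ℝ} (hf : Continuous f)
    (hf0 : ∀ t, 0 < t → 0 < f t) (h : 0 ≤ f 0) : CSub a (cfc f a) := by
  have := CSub.cfc_supp (.of_nonneg ha) continuous_id' hf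
    (fun t ht => spectrum_nonneg_of_nonneg ha ht)
    (fun t ht => (spectrum_nonneg_of_nonneg ha ht).eq_or_lt.elim (fun h' => h' ▸ h)
      fun h' => (hf0 t h').le) fun t ht h1 =>
      (spectrum_nonneg_of_nonneg ha ht).eq_or_lt.elim Eq.symm fun h' => absurd h1 (hf0 t h').ne'
  rwa [cfc_id' ℝ a (.of_nonneg ha)] at this

lemma CSub.self_sq {a : E} (ha : 0 ≤ a) : CSub a (a * a) := by
  have := CSub.self_cfc ha (f := fun t => t * t) (by fun_prop) (fun t ht => by positivity)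
    (by simp)
  rwa [← cfc_mul_cfc continuous_id' continuous_id', cfc_id' ℝ a (.of_nonneg ha)] at this

lemma CSub.sq_self {a : E} (ha : 0 ≤ a) : CSub (a * a) a := by
  have := CSub.cfc_self ha (f := fun t => t * t) (by fun_prop) (fun t ht => by positivity)
    (by simp)
  rwa [← cfc_mul_cfc continuous_id' continuous_id', cfc_id' ℝ a (.of_nonneg ha)] at this

lemma CSub.cfc_of_near {a b : E} (ha : IsSelfAdjoint a) (hb : 0 ≤ b) {ε : ℝ}
    (h : ‖a - b‖ < ε) {f : ℝ → ℝ} (hf : Continuous f) (hf0 : ∀ t, 0 ≤ f t)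
    (hfε : ∀ t ∈ spectrum ℝ a, t ≤ ε → f t = 0) : CSub (cfc f a) b := by
  obtain ⟨e, he, hle⟩ := exists_cfc_le_conj ha (.of_nonneg hb) h hf hf0 hfε
  refine (CSub.of_le (cfc_nonneg fun t _ => hf0 t) hle).trans ?_
  simpa [he] using CSub.conj e b

lemma CSub.cut_of_near {a b : E} (ha : IsSelfAdjoint a) (hb : 0 ≤ b) {ε : ℝ}
    (h : ‖a - b‖ < ε) : CSub (cut ε a) b :=
  CSub.cfc_of_near ha hb h (by fun_prop) (fun _ => le_max_right _ _) fun t _ ht =>
    max_eq_right (by linarith)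

lemma CSub.map {F H : Type*} [CStarAlgebra F] [PartialOrder F] [StarOrderedRing F]
    [FunLike H E F] [NonUnitalAlgHomClass H ℂ E F] [StarHomClass H E F]
    (φ : H) {a b : E} (h : CSub a b) : CSub (φ a) (φ b) := by
  refine map_mem_closure (f := φ) (map_continuous φ) h ?_
  rintro _ ⟨v, rfl⟩
  exact ⟨φ v, by simp [map_star]⟩

end Gen

section Rect

variable {A : Type*} [CStarAlgebra A] [PartialOrder A] [StarOrderedRing A]
variable {m n p q : Type*} [Fintype m] [DecidableEq m] [Fintype n] [DecidableEq n]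
  [Fintype p] [DecidableEq p] [Fintype q] [DecidableEq q]

/-- Cuntz subequivalence of matrices of different sizes -/
def MSub (a : Matrix m m A) (b : Matrix n n A) : Prop :=
  a ∈ closure {x | ∃ v : Matrix m n A, x = v * b * vᴴ}

lemma msub_iff {a b : Matrix n n A} : MSub a b ↔ CSub a b := Iff.rfl

lemma CSub.msub {a b : Matrix n n A} (h : CSub a b) : MSub a b := h

lemma MSub.conj (v : Matrix m n A) (b : Matrix n n A) : MSub (v * b * vᴴ) b :=
  subset_closure ⟨v, rfl⟩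

lemma MSub.conj' (v : Matrix n m A) (b : Matrix n n A) : MSub (vᴴ * b * v) b := by
  simpa using MSub.conj vᴴ b

lemma MSub.refl (a : Matrix n n A) : MSub a a := CSub.refl a

lemma MSub.trans {a : Matrix m m A} {b : Matrix n n A} {c : Matrix p p A} (h1 : MSub a b)
    (h2 : MSub b c) : MSub a c := by
  refine closure_minimal ?_ isClosed_closure h1
  rintro _ ⟨v, rfl⟩
  refine map_mem_closure (f := fun x => v * x * vᴴ) (by fun_prop) h2 ?_
  rintro _ ⟨w, rfl⟩
  exact ⟨v * w, by simp [Matrix.mul_assoc]⟩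

lemma MSub.of_forall {a : Matrix m m A} {b : Matrix n n A}
    (h : ∀ ε > 0, ∃ x, MSub x b ∧ ‖a - x‖ < ε) : MSub a b := by
  rw [MSub, ← closure_closure]
  refine Metric.mem_closure_iff.2 fun ε hε => ?_
  obtain ⟨x, hx, h⟩ := h ε hε
  exact ⟨x, hx, by rwa [dist_eq_norm]⟩

lemma MSub.exists_near {a : Matrix m m A} {b : Matrix n n A} (h : MSub a b) {ε : ℝ}
    (hε : 0 < ε) : ∃ v : Matrix m n A, ‖a - v * b * vᴴ‖ < ε := by
  obtain ⟨_, ⟨v, rfl⟩, h⟩ := Metric.mem_closure_iff.1 h ε hε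
  exact ⟨v, by rwa [dist_eq_norm] at h⟩

lemma MSub.of_cut {a : Matrix m m A} {b : Matrix n n A} (ha : 0 ≤ a)
    (h : ∀ ε > 0, MSub (cut ε a) b) : MSub a b :=
  MSub.of_forall fun ε hε => ⟨_, h (ε / 2) (half_pos hε),
    (norm_sub_cut (half_pos hε).le ha).trans_lt (half_lt_self hε)⟩

lemma MSub.zero (b : Matrix n n A) : MSub (0 : Matrix m m A) b := by
  simpa using MSub.conj (0 : Matrix m n A) b

lemma MSub.submatrix (a : Matrix n n A) (e : m → n) : MSub (a.submatrix e e) a := by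
  rw [submatrix_eq_conj]
  exact MSub.conj _ _

lemma MSub.conjT_mul (x : Matrix n m A) : MSub (xᴴ * x) (x * xᴴ) := by
  refine (CSub.self_sq (conjT_mul_self_nonneg x)).msub.trans ?_
  simpa [Matrix.mul_assoc] using MSub.conj' x (x * xᴴ)

lemma MSub.mul_conjT (x : Matrix n m A) : MSub (x * xᴴ) (xᴴ * x) := by
  simpa using MSub.conjT_mul xᴴ

lemma MSub.fromBlocks {a : Matrix m m A} {a' : Matrix n n A} {b : Matrix p p A}
    {b' : Matrix q q A} (ha : MSub a a') (hb : MSub b b') :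
    MSub (fromBlocks a 0 0 b) (fromBlocks a' 0 0 b') := by
  refine map_mem_closure₂ (f := fun x y => Matrix.fromBlocks x 0 0 y) (by fun_prop) ha hb ?_
  rintro _ ⟨v, rfl⟩ _ ⟨w, rfl⟩
  exact ⟨Matrix.fromBlocks v 0 0 w, by simp [fromBlocks_conjTranspose, fromBlocks_multiply]⟩

lemma MSub.add_fromBlocks (a b : Matrix m m A) : MSub (a + b) (Matrix.fromBlocks a 0 0 b) := by
  have := MSub.conj (fromCols (1 : Matrix m m A) (1 : Matrix m m A)) (Matrix.fromBlocks a 0 0 b)
  simpa [fromCols_mul_fromBlocks, conjTranspose_fromCols_eq_fromRows_conjTranspose,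
    fromCols_mul_fromRows] using this

lemma MSub.fromBlocks_add {a b : Matrix m m A} (ha : 0 ≤ a) (hb : 0 ≤ b) (hab : a * b = 0) :
    MSub (Matrix.fromBlocks a 0 0 b) (a + b) := by
  have hba : b * a = 0 := by
    have := congrArg conjTranspose hab
    simpa [herm_of_nonneg ha, herm_of_nonneg hb] using this
  have h1 := MSub.conjT_mul (fromCols a b)
  simp only [conjTranspose_fromCols_eq_fromRows_conjTranspose, fromRows_mul_fromCols,
    fromCols_mul_fromRows, herm_of_nonneg ha, herm_of_nonneg hb, hab, hba] at h1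
  refine ((CSub.self_sq ha).msub.fromBlocks (CSub.self_sq hb).msub).trans (h1.trans ?_)
  have := (CSub.sq_self (add_nonneg ha hb)).msub
  simpa [mul_add, add_mul, hab, hba] using this

lemma MSub.exists_conj_eq_one {X : Matrix n n A} (hX : 0 ≤ X) (h : MSub (1 : Matrix m m A) X) :
    ∃ V : Matrix m n A, V * X * Vᴴ = 1 := by
  obtain ⟨v, hv⟩ := h.exists_near one_pos
  obtain ⟨s, hs, -, h1⟩ := exists_inv_sqrt (conj_nonneg v hX) (isUnit_of_norm_one_sub_lt hv)
  have hs' : sᴴ = s := hs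
  refine ⟨s * v, ?_⟩
  rw [← h1]
  simp [Matrix.mul_assoc, hs']

lemma MSub.one_of_mul_eq_one {Y : Matrix m n A} {R : Matrix n m A} (h : Y * R = 1) :
    MSub (1 : Matrix m m A) (Rᴴ * R) := by
  refine MSub.trans ?_ (MSub.mul_conjT R)
  have := MSub.conj Y (R * Rᴴ)
  rwa [← Matrix.mul_assoc, h, Matrix.one_mul, ← conjTranspose_mul, h, conjTranspose_one] at this

lemma MSub.one_of_isUnit {T : Matrix m m A} (hT : 0 ≤ T) (hu : IsUnit T) :
    MSub (1 : Matrix m m A) T := by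
  obtain ⟨s, hs, -, h1⟩ := exists_inv_sqrt hT hu
  have := CSub.conj s T
  rwa [hs, h1] at this

lemma exists_factor_rect {y : Matrix n m A} {a : Matrix m m A} (ha : 0 ≤ a) (h : a ≤ yᴴ * y) :
    ∃ x ∈ closure {x | ∃ t : Matrix m m A, x = y * t}, xᴴ * x = a := by
  have h1 : (0 : Matrix (m ⊕ n) (m ⊕ n) A) ≤ fromBlocks a 0 0 0 := fromBlocks_nonneg ha le_rfl
  have h2 : fromBlocks a 0 0 0 ≤ star (fromBlocks 0 0 y 0 : Matrix (m ⊕ n) (m ⊕ n) A) *
      fromBlocks 0 0 y 0 := by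
    have := fromBlocks_nonneg (sub_nonneg.2 h) (le_refl (0 : Matrix n n A))
    rw [← sub_nonneg]
    convert this using 1
    simp only [star_eq_conjTranspose, fromBlocks_conjTranspose, fromBlocks_multiply]
    ext (i | i) (j | j) <;> simp
  obtain ⟨X, hX, hX'⟩ := exists_factor h1 h2
  have h3 : X.toBlocks₁₁ = 0 := by
    have : X.toBlocks₁₁ ∈ closure {0} := by
      refine map_mem_closure (f := fun X : Matrix (m ⊕ n) (m ⊕ n) A => X.toBlocks₁₁)
        (continuous_id.matrix_submatrix Sum.inl Sum.inl) hX ?_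
      rintro _ ⟨t, rfl⟩
      rw [← fromBlocks_toBlocks t]
      simp [fromBlocks_multiply]
    simpa using this
  refine ⟨X.toBlocks₂₁, ?_, ?_⟩
  · refine map_mem_closure (f := fun X : Matrix (m ⊕ n) (m ⊕ n) A => X.toBlocks₂₁)
      (continuous_id.matrix_submatrix Sum.inr Sum.inl) hX ?_
    rintro _ ⟨t, rfl⟩
    refine ⟨t.toBlocks₁₁, ?_⟩
    conv_lhs => rw [← fromBlocks_toBlocks t]
    simp [fromBlocks_multiply]
  · rw [← fromBlocks_toBlocks X, h3] at hX'
    simp only [star_eq_conjTranspose, fromBlocks_conjTranspose, fromBlocks_multiply,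
      fromBlocks_inj] at hX'
    simpa using hX'.1

/-- the Kirchberg-Rordam lemma -/
theorem MSub.exists_factor {a : Matrix m m A} {b : Matrix n n A} (ha : IsSelfAdjoint a)
    (hb : 0 ≤ b) (h : MSub a b) {ε : ℝ} (hε : 0 < ε) {f : ℝ → ℝ} (hf : Continuous f)
    (hf0 : ∀ t, 0 ≤ f t) (hfε : ∀ t ∈ spectrum ℝ a, t ≤ ε → f t = 0) :
    ∃ δ > 0, ∃ x : Matrix n m A, xᴴ * x = cfc f a ∧
      ∀ g : ℝ → ℝ, Continuous g → (∀ t, δ ≤ t → g t = 1) → cfc g b * x = x := by
  obtain ⟨v, hv⟩ := h.exists_near hε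
  have h1 : Tendsto (fun δ => ‖a - v * cut δ b * vᴴ‖) (𝓝[>] 0) (𝓝 ‖a - v * b * vᴴ‖) := by
    have hc : Continuous fun x : Matrix n n A => ‖a - v * x * vᴴ‖ :=
      Continuous.norm (f := fun x : Matrix n n A => a - v * x * vᴴ) (by fun_prop)
    exact (hc.tendsto b).comp (tendsto_cut hb)
  obtain ⟨δ, hδ, hδ0⟩ := ((h1.eventually (gt_mem_nhds hv)).and self_mem_nhdsWithin).exists
  obtain ⟨e, he, hle⟩ := exists_cfc_le_conj ha (.of_nonneg (conj_nonneg v (cut_nonneg δ b))) hδ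
    hf hf0 hfε
  have he' : eᴴ = e := he
  let r : Matrix n n A := cfc (fun t => √(max (t - δ) 0)) b
  have hr : rᴴ = r := star_cfc _ _
  have hrr : r * r = cut δ b := by
    rw [cfc_mul_cfc (by fun_prop) (by fun_prop), cut]
    exact cfc_congr fun t _ => Real.mul_self_sqrt (le_max_right _ _)
  obtain ⟨x, hx, hx'⟩ := exists_factor_rect (y := r * vᴴ * e) (cfc_nonneg fun t _ => hf0 t)
    (hle.trans (le_of_eq (by simp [← hrr, Matrix.mul_assoc, hr, he'])))
  refine ⟨δ, hδ0, x, hx', fun g hg hg1 => ?_⟩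
  have hgr : cfc g b * r = r := by
    rw [cfc_mul_cfc hg (by fun_prop)]
    refine cfc_congr fun t _ => ?_
    rcases le_total δ t with h2 | h2
    · simp [hg1 t h2]
    · simp [max_eq_right (sub_nonpos.2 h2)]
  refine closure_minimal (t := {x : Matrix n m A | cfc g b * x = x}) ?_
    (isClosed_eq (by fun_prop) continuous_id) hx
  rintro _ ⟨t, rfl⟩
  simp only [Set.mem_ofPred_eq, ← Matrix.mul_assoc, hgr]

theorem MSub.exists_conj {a : Matrix m m A} {b : Matrix n n A} (ha : IsSelfAdjoint a)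
    (hb : 0 ≤ b) (h : MSub a b) {ε : ℝ} (hε : 0 < ε) :
    ∃ w : Matrix m n A, w * b * wᴴ = cut ε a := by
  obtain ⟨δ, hδ, x, hx, hg⟩ := h.exists_factor ha hb hε (f := fun t => max (t - ε) 0)
    (by fun_prop) (fun _ => le_max_right _ _) fun t _ ht => max_eq_right (by linarith)
  let k : ℝ → ℝ := fun t => (√(max t δ))⁻¹
  have hpos : ∀ t, 0 < √(max t δ) := fun t => Real.sqrt_pos.2 (lt_max_of_lt_right hδ)
  have hk : Continuous k := Continuous.inv₀ (by fun_prop) fun t => (hpos t).ne'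
  have hk' : (cfc k b)ᴴ = cfc k b := star_cfc _ _
  have c1 : Continuous fun t => k t * t := hk.mul continuous_id'
  have h1 := hg (fun t => k t * t * k t) (c1.mul hk) fun t ht => by
    have h2 := hpos t
    simp only [k, max_eq_left ht] at h2 ⊢
    have h3 : t = √t * √t := (Real.mul_self_sqrt (hδ.le.trans ht)).symm
    generalize √t = s at *
    subst h3
    field_simp
  rw [← cfc_mul_cfc c1 hk, ← cfc_mul_id hk (.of_nonneg hb)] at h1
  refine ⟨xᴴ * cfc k b, ?_⟩
  rw [cut, ← hx]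
  conv_rhs => enter [2]; rw [← h1]
  simp [Matrix.mul_assoc, hk']

lemma MSub.cfc_conjT_mul (x : Matrix n m A) {f : ℝ → ℝ} (hf : Continuous f) (hf0 : ∀ t, 0 ≤ f t)
    (h0 : f 0 = 0) : MSub (cfc f (xᴴ * x)) (cfc f (x * xᴴ)) := by
  have ha := conjT_mul_self_nonneg x
  have hb := mul_conjT_self_nonneg x
  have c1 : Continuous fun t => √(f t) := by fun_prop
  have c2 : Continuous fun t => √(f t) * t := by fun_prop
  have c3 : Continuous fun t => f t * t := by fun_prop
  have hs : (cfc (fun t => √(f t)) (xᴴ * x))ᴴ = cfc (fun t => √(f t)) (xᴴ * x) := star_cfc _ _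
  have h1 := MSub.conjT_mul (x * cfc (fun t => √(f t)) (xᴴ * x))
  have e1 : (x * cfc (fun t => √(f t)) (xᴴ * x))ᴴ * (x * cfc (fun t => √(f t)) (xᴴ * x)) =
      cfc (fun t => f t * t) (xᴴ * x) := by
    rw [conjTranspose_mul, hs, Matrix.mul_assoc, ← Matrix.mul_assoc xᴴ, ← mul_assoc,
      cfc_mul_id c1 (.of_nonneg ha), cfc_mul_cfc c2 c1]
    refine cfc_congr fun t _ => ?_
    have := Real.mul_self_sqrt (hf0 t)
    rw [mul_right_comm, this]
  have e2 : (x * cfc (fun t => √(f t)) (xᴴ * x)) * (x * cfc (fun t => √(f t)) (xᴴ * x))ᴴ =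
      cfc (fun t => f t * t) (x * xᴴ) := by
    rw [conjTranspose_mul, hs, Matrix.mul_assoc, ← Matrix.mul_assoc _ _ xᴴ, cfc_mul_cfc c1 c1,
      ← Matrix.mul_assoc, cfc_intertwine _ (by fun_prop) (.of_nonneg ha) (.of_nonneg hb) x
        (by simp [Matrix.mul_assoc]), Matrix.mul_assoc, cfc_mul_id (by fun_prop) (.of_nonneg hb)]
    refine cfc_congr fun t _ => ?_
    simp only [Real.mul_self_sqrt (hf0 t)]
  rw [e1, e2] at h1
  refine (CSub.cfc_supp (.of_nonneg ha) hf c3 (fun t _ => hf0 t) (fun t ht =>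
    mul_nonneg (hf0 t) (spectrum_nonneg_of_nonneg ha ht)) fun t _ ht => ?_).msub.trans
    (h1.trans (CSub.cfc_supp (.of_nonneg hb) c3 hf (fun t ht =>
      mul_nonneg (hf0 t) (spectrum_nonneg_of_nonneg hb ht)) (fun t _ => hf0 t)
        fun t _ ht => by simp [ht]).msub)
  rcases mul_eq_zero.1 ht with h | h
  · exact h
  · rw [h, h0]

end Rect

end Pool.Agent.Lib.MP_f90f6c_an.H50
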