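import Pool.Agent.Lib.MP_f90f6c_an.H50Sub

/-!
The Cuntz semigroup `W(A)` as an ordered commutative monoid.
-/

namespace Pool.Agent.Lib.MP_f90f6c_an.H50

open Filter Topology Matrix

set_option linter.unusedSectionVars false

/-- positive matrices of all sizes -/
structure Pos (A : Type*) [CStarAlgebra A] [PartialOrder A] [StarOrderedRing A] where
  /-- size -/
  n : ℕ
  /-- the matrix -/
  a : Matrix (Fin n) (Fin n) A
  h : 0 ≤ a

variable {A : Type*} [CStarAlgebra A] [PartialOrder A] [StarOrderedRing A]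
variable {m n p q : Type*} [Fintype m] [DecidableEq m] [Fintype n] [DecidableEq n]
  [Fintype p] [DecidableEq p] [Fintype q] [DecidableEq q]

instance : Preorder (Pos A) where
  le x y := MSub x.a y.a
  le_refl x := MSub.refl _
  le_trans _ _ _ := MSub.trans

variable (A) in
/-- the Cuntz semigroup -/
def W := Antisymmetrization (Pos A) (· ≤ ·)

noncomputable instance : PartialOrder (W A) :=
  inferInstanceAs (PartialOrder (Antisymmetrization (Pos A) (· ≤ ·)))

/-- class of a positive matrix indexed by `Fin` -/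
def W.mk (x : Pos A) : W A := toAntisymmetrization (· ≤ ·) x

lemma W.mk_le_mk {x y : Pos A} : W.mk x ≤ W.mk y ↔ MSub x.a y.a :=
  toAntisymmetrization_le_toAntisymmetrization_iff

/-- a representative -/
noncomputable def W.rep (x : W A) : Pos A := ofAntisymmetrization (· ≤ ·) x

lemma W.mk_rep (x : W A) : W.mk x.rep = x := toAntisymmetrization_ofAntisymmetrization _ x

open scoped Classical in
/-- the class of a positive matrix -/
noncomputable def cls (a : Matrix m m A) : W A :=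
  if h : 0 ≤ a then
    W.mk ⟨Fintype.card m, a.submatrix (Fintype.equivFin m).symm (Fintype.equivFin m).symm,
      submatrix_nonneg h _⟩
  else W.mk ⟨0, 0, le_rfl⟩

lemma MSub.submatrix_equiv (a : Matrix n n A) (e : m ≃ n) : MSub a (a.submatrix e e) := by
  simpa using MSub.submatrix (a.submatrix e e) e.symm

lemma cls_le_cls {a : Matrix m m A} {b : Matrix n n A} (ha : 0 ≤ a) (hb : 0 ≤ b) :
    cls a ≤ cls b ↔ MSub a b := by
  simp only [cls, dif_pos ha, dif_pos hb, W.mk_le_mk]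
  exact ⟨fun h => (MSub.submatrix_equiv _ _).trans (h.trans (MSub.submatrix _ _)),
    fun h => (MSub.submatrix _ _).trans (h.trans (MSub.submatrix_equiv _ _))⟩

lemma cls_eq_cls {a : Matrix m m A} {b : Matrix n n A} (ha : 0 ≤ a) (hb : 0 ≤ b) (h1 : MSub a b)
    (h2 : MSub b a) : cls a = cls b :=
  le_antisymm ((cls_le_cls ha hb).2 h1) ((cls_le_cls hb ha).2 h2)

lemma cls_eq_mk (x : Pos A) : cls x.a = W.mk x := by
  simp only [cls, dif_pos x.h]
  exact le_antisymm (W.mk_le_mk.2 (MSub.submatrix _ _)) (W.mk_le_mk.2 (MSub.submatrix_equiv _ _))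

lemma cls_rep (x : W A) : cls x.rep.a = x := by rw [cls_eq_mk, W.mk_rep]

lemma cls_surj (x : W A) : ∃ (k : ℕ) (a : Matrix (Fin k) (Fin k) A), 0 ≤ a ∧ cls a = x :=
  ⟨_, _, x.rep.h, cls_rep x⟩

lemma cls_submatrix_equiv {a : Matrix n n A} (ha : 0 ≤ a) (e : m ≃ n) :
    cls (a.submatrix e e) = cls a :=
  cls_eq_cls (submatrix_nonneg ha _) ha (MSub.submatrix _ _) (MSub.submatrix_equiv _ _)

noncomputable instance : Add (W A) := ⟨fun x y => cls (fromBlocks x.rep.a 0 0 y.rep.a)⟩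

noncomputable instance : Zero (W A) := ⟨W.mk ⟨0, 0, le_rfl⟩⟩

lemma msub_rep {a : Matrix m m A} (ha : 0 ≤ a) : MSub a (cls a).rep.a :=
  (cls_le_cls ha (cls a).rep.h).1 (cls_rep _).ge

lemma rep_msub {a : Matrix m m A} (ha : 0 ≤ a) : MSub (cls a).rep.a a :=
  (cls_le_cls (cls a).rep.h ha).1 (cls_rep _).le

lemma cls_fromBlocks {a : Matrix m m A} {b : Matrix n n A} (ha : 0 ≤ a) (hb : 0 ≤ b) :
    cls (fromBlocks a 0 0 b) = cls a + cls b :=
  cls_eq_cls (fromBlocks_nonneg ha hb) (fromBlocks_nonneg (cls a).rep.h (cls b).rep.h)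
    ((msub_rep ha).fromBlocks (msub_rep hb)) ((rep_msub ha).fromBlocks (rep_msub hb))

lemma W.zero_le (x : W A) : 0 ≤ x := by
  rw [← x.mk_rep]
  exact W.mk_le_mk.2 (MSub.zero _)

lemma cls_zero : cls (0 : Matrix m m A) = 0 := by
  refine le_antisymm ?_ (W.zero_le _)
  have : (0 : W A) = cls (0 : Matrix (Fin 0) (Fin 0) A) := (cls_eq_mk ⟨0, 0, le_rfl⟩).symm
  rw [this, cls_le_cls le_rfl le_rfl]
  exact MSub.zero _

lemma W.add_comm' (x y : W A) : x + y = y + x := by
  obtain ⟨k, a, ha, rfl⟩ := cls_surj x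
  obtain ⟨l, b, hb, rfl⟩ := cls_surj y
  rw [← cls_fromBlocks ha hb, ← cls_fromBlocks hb ha,
    ← cls_submatrix_equiv (fromBlocks_nonneg ha hb) (Equiv.sumComm _ _)]
  congr 1
  ext (i | i) (j | j) <;> simp

lemma W.add_assoc' (x y z : W A) : x + y + z = x + (y + z) := by
  obtain ⟨k, a, ha, rfl⟩ := cls_surj x
  obtain ⟨l, b, hb, rfl⟩ := cls_surj y
  obtain ⟨r, c, hc, rfl⟩ := cls_surj z
  rw [← cls_fromBlocks ha hb, ← cls_fromBlocks hb hc, ← cls_fromBlocks (fromBlocks_nonneg ha hb) hc,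
    ← cls_fromBlocks ha (fromBlocks_nonneg hb hc),
    ← cls_submatrix_equiv (fromBlocks_nonneg ha (fromBlocks_nonneg hb hc)) (Equiv.sumAssoc _ _ _)]
  congr 1
  ext ((i | i) | i) ((j | j) | j) <;> simp

lemma W.add_zero' (x : W A) : x + 0 = x := by
  obtain ⟨k, a, ha, rfl⟩ := cls_surj x
  rw [← cls_zero (m := Fin 0), ← cls_fromBlocks ha le_rfl,
    ← cls_submatrix_equiv (fromBlocks_nonneg ha le_rfl) (Equiv.sumEmpty _ _).symm]
  congr 1

noncomputable instance : AddCommMonoid (W A) where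
  add_assoc := W.add_assoc'
  zero_add x := by rw [W.add_comm', W.add_zero']
  add_zero := W.add_zero'
  add_comm := W.add_comm'
  nsmul := nsmulRec

instance : IsOrderedAddMonoid (W A) where
  add_le_add_left x y h z := by
    obtain ⟨k, a, ha, rfl⟩ := cls_surj x
    obtain ⟨l, b, hb, rfl⟩ := cls_surj y
    obtain ⟨r, c, hc, rfl⟩ := cls_surj z
    rw [← cls_fromBlocks ha hc, ← cls_fromBlocks hb hc,
      cls_le_cls (fromBlocks_nonneg ha hc) (fromBlocks_nonneg hb hc)]
    exact ((cls_le_cls ha hb).1 h).fromBlocks (MSub.refl _)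

lemma W.le_add_right (x y : W A) : x ≤ x + y := le_add_of_nonneg_right (W.zero_le y)

lemma W.le_add_left (x y : W A) : y ≤ x + y := le_add_of_nonneg_left (W.zero_le x)

lemma W.nsmul_le {k l : ℕ} (h : k ≤ l) (x : W A) : k • x ≤ l • x :=
  nsmul_le_nsmul_left (W.zero_le x) h

lemma cls_add_le {a b : Matrix m m A} (ha : 0 ≤ a) (hb : 0 ≤ b) : cls (a + b) ≤ cls a + cls b := by
  rw [← cls_fromBlocks ha hb, cls_le_cls (add_nonneg ha hb) (fromBlocks_nonneg ha hb)]
  exact MSub.add_fromBlocks a b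

lemma cls_add_of_orth {a b : Matrix m m A} (ha : 0 ≤ a) (hb : 0 ≤ b) (hab : a * b = 0) :
    cls a + cls b ≤ cls (a + b) := by
  rw [← cls_fromBlocks ha hb, cls_le_cls (fromBlocks_nonneg ha hb) (add_nonneg ha hb)]
  exact MSub.fromBlocks_add ha hb hab

lemma cls_sum_le {ι : Type*} (s : Finset ι) {a : ι → Matrix m m A} (ha : ∀ i, 0 ≤ a i) :
    cls (∑ i ∈ s, a i) ≤ ∑ i ∈ s, cls (a i) := by
  classical
  induction s using Finset.induction_on with
  | empty => simp [cls_zero]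
  | insert i s hi ih =>
    rw [Finset.sum_insert hi, Finset.sum_insert hi]
    exact (cls_add_le (ha i) (Finset.sum_nonneg fun j _ => ha j)).trans (add_le_add le_rfl ih)

lemma cls_mono {a b : Matrix m m A} (ha : 0 ≤ a) (h : a ≤ b) : cls a ≤ cls b :=
  (cls_le_cls ha (ha.trans h)).2 (CSub.of_le ha h)

lemma cls_conj_le (v : Matrix m n A) {b : Matrix n n A} (hb : 0 ≤ b) : cls (v * b * vᴴ) ≤ cls b :=
  (cls_le_cls (conj_nonneg v hb) hb).2 (MSub.conj v b)

lemma cls_conjT_mul (x : Matrix n m A) : cls (xᴴ * x) = cls (x * xᴴ) :=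
  cls_eq_cls (conjT_mul_self_nonneg x) (mul_conjT_self_nonneg x) (MSub.conjT_mul x)
    (MSub.mul_conjT x)

/-- an element as a one by one matrix -/
def oneBy : A →⋆ₐ[ℂ] Matrix Unit Unit A where
  toFun a := Matrix.of fun _ _ => a
  map_one' := by ext; simp
  map_mul' a b := by ext; simp [Matrix.mul_apply]
  map_zero' := rfl
  map_add' a b := rfl
  commutes' c := by ext; simp [Algebra.algebraMap_eq_smul_one]
  map_star' a := by ext; simp

@[simp] lemma oneBy_apply (a : A) (i j : Unit) : oneBy a i j = a := rfl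

/-- the class of an element -/
noncomputable def cls1 (a : A) : W A := cls (oneBy a)

lemma oneBy_nonneg {a : A} (ha : 0 ≤ a) : 0 ≤ oneBy a := map_nonneg oneBy ha

lemma cls1_le {a b : A} (ha : 0 ≤ a) (hb : 0 ≤ b) (h : CSub a b) : cls1 a ≤ cls1 b :=
  (cls_le_cls (oneBy_nonneg ha) (oneBy_nonneg hb)).2 (h.map oneBy).msub

variable (A) in
/-- the class of the unit -/
noncomputable def W.u : W A := cls1 1

lemma diagonal_nonneg {a : A} (ha : 0 ≤ a) : 0 ≤ (diagonal fun _ : m => a) := by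
  obtain ⟨s, rfl⟩ := CStarAlgebra.nonneg_iff_eq_star_mul_self.1 ha
  have : (diagonal fun _ : m => star s * s) = (diagonal fun _ : m => s)ᴴ * diagonal fun _ => s := by
    simp [diagonal_conjTranspose, diagonal_mul_diagonal]
  rw [this]
  exact conjT_mul_self_nonneg _

lemma cls_diagonal_fin {a : A} (ha : 0 ≤ a) (k : ℕ) :
    cls (diagonal fun _ : Fin k => a) = k • cls1 a := by
  induction k with
  | zero =>
    rw [zero_nsmul, ← cls_zero (m := Fin 0)]
    congr 1
    exact Subsingleton.elim _ _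
  | succ k ih =>
    rw [succ_nsmul, ← ih, cls1, ← cls_fromBlocks (diagonal_nonneg ha) (oneBy_nonneg ha),
      ← cls_submatrix_equiv (diagonal_nonneg ha) (finSuccEquivLast.trans
        (Equiv.optionEquivSumPUnit.{0} (Fin k))).symm]
    congr 1
    ext (i | i) (j | j) <;> simp [diagonal_apply, Fin.ext_iff] <;> omega

lemma cls_diagonal {a : A} (ha : 0 ≤ a) :
    cls (diagonal fun _ : m => a) = Fintype.card m • cls1 a := by
  rw [← cls_diagonal_fin ha, ← cls_submatrix_equiv (diagonal_nonneg ha) (Fintype.equivFin m)]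
  congr 1
  ext i j
  simp [diagonal_apply]

lemma mone_nonneg : 0 ≤ (1 : Matrix m m A) := zero_le_one

lemma cls_one : cls (1 : Matrix m m A) = Fintype.card m • W.u A := by
  rw [W.u, ← cls_diagonal zero_le_one, diagonal_one]

lemma cls_le_card {a : Matrix m m A} (ha : 0 ≤ a) : cls a ≤ Fintype.card m • W.u A := by
  rw [← cls_one, cls_le_cls ha mone_nonneg]
  have h1 := (IsSelfAdjoint.of_nonneg ha).le_algebraMap_norm_self
  rw [Algebra.algebraMap_eq_smul_one] at h1
  exact (CSub.of_le ha h1).trans (CSub.smul (norm_nonneg _) _)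

lemma W.exists_le_nsmul (x : W A) : ∃ k : ℕ, x ≤ k • W.u A := by
  obtain ⟨k, a, ha, rfl⟩ := cls_surj x
  exact ⟨_, cls_le_card ha⟩

lemma card_le_cls_of_isUnit {T : Matrix m m A} (hT : 0 ≤ T) (hu : IsUnit T) :
    Fintype.card m • W.u A ≤ cls T := by
  rw [← cls_one, cls_le_cls mone_nonneg hT]
  exact MSub.one_of_isUnit hT hu

lemma exists_conj_add_eq_one {a : Matrix n n A} {b : Matrix p p A} (ha : 0 ≤ a) (hb : 0 ≤ b)
    (h : Fintype.card m • W.u A ≤ cls a + cls b) :
    ∃ (v : Matrix m n A) (w : Matrix m p A), v * a * vᴴ + w * b * wᴴ = 1 := by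
  rw [← cls_one, ← cls_fromBlocks ha hb, cls_le_cls mone_nonneg (fromBlocks_nonneg ha hb)] at h
  obtain ⟨V, hV⟩ := h.exists_conj_eq_one (fromBlocks_nonneg ha hb)
  refine ⟨V.toCols₁, V.toCols₂, ?_⟩
  rw [← fromCols_toCols V, fromCols_mul_fromBlocks,
    conjTranspose_fromCols_eq_fromRows_conjTranspose, fromCols_mul_fromRows] at hV
  simpa using hV

lemma card_le_of_near_one {a : Matrix n n A} {b : Matrix p p A} (ha : 0 ≤ a) (hb : 0 ≤ b)
    (v : Matrix m n A) (w : Matrix m p A) (h : ‖1 - (v * a * vᴴ + w * b * wᴴ)‖ < 1) :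
    Fintype.card m • W.u A ≤ cls a + cls b :=
  (card_le_cls_of_isUnit (add_nonneg (conj_nonneg v ha) (conj_nonneg w hb))
    (isUnit_of_norm_one_sub_lt h)).trans ((cls_add_le (conj_nonneg v ha) (conj_nonneg w hb)).trans
      (add_le_add (cls_conj_le v ha) (cls_conj_le w hb)))

/-- compactness of multiples of the unit -/
lemma eventually_le_cut_add {a : Matrix n n A} (ha : 0 ≤ a) {K : ℕ} {z : W A}
    (h : K • W.u A ≤ cls a + z) : ∀ᶠ ε in 𝓝[>] 0, K • W.u A ≤ cls (cut ε a) + z := by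
  obtain ⟨k, b, hb, rfl⟩ := cls_surj z
  rw [← Fintype.card_fin K] at h ⊢
  obtain ⟨v, w, hvw⟩ := exists_conj_add_eq_one ha hb h
  have hc : Continuous fun x : Matrix n n A => ‖1 - (v * x * vᴴ + w * b * wᴴ)‖ :=
    Continuous.norm (f := fun x : Matrix n n A => 1 - (v * x * vᴴ + w * b * wᴴ)) (by fun_prop)
  have h1 := (hc.tendsto a).comp (tendsto_cut ha)
  rw [hvw, sub_self, norm_zero] at h1
  filter_upwards [h1.eventually (gt_mem_nhds one_pos)] with ε hε
  exact card_le_of_near_one (cut_nonneg _ _) hb v w hε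

lemma cls_cut_mono {ε η : ℝ} (h : ε ≤ η) (a : Matrix n n A) : cls (cut η a) ≤ cls (cut ε a) :=
  cls_mono (cut_nonneg _ _) (cut_le_cut h a)

lemma cls_cut_le {ε : ℝ} (hε : 0 ≤ ε) {a : Matrix n n A} (ha : 0 ≤ a) : cls (cut ε a) ≤ cls a :=
  cls_mono (cut_nonneg _ _) (cut_le_self hε ha)

lemma eventually_le_nsmul_cut_add {a : Matrix n n A} (ha : 0 ≤ a) {K : ℕ} (i : ℕ) {z : W A}
    (h : K • W.u A ≤ i • cls a + z) : ∀ᶠ ε in 𝓝[>] 0, K • W.u A ≤ i • cls (cut ε a) + z := by
  induction i generalizing z with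
  | zero => simpa using h
  | succ i ih =>
    rw [succ_nsmul', add_assoc] at h
    obtain ⟨η, hη, hη0⟩ := ((eventually_le_cut_add ha h).and self_mem_nhdsWithin).exists
    rw [add_left_comm] at hη
    filter_upwards [ih hη, Ioo_mem_nhdsGT hη0] with ε h1 h2
    rw [succ_nsmul, add_assoc]
    exact h1.trans (add_le_add le_rfl (add_le_add (cls_cut_mono h2.2.le a) le_rfl))

lemma cls_cut_le_of_near {a b : Matrix n n A} (ha : IsSelfAdjoint a) (hb : 0 ≤ b) {ε : ℝ}
    (h : ‖a - b‖ < ε) : cls (cut ε a) ≤ cls b :=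
  (cls_le_cls (cut_nonneg _ _) hb).2 (CSub.cut_of_near ha hb h)

end Pool.Agent.Lib.MP_f90f6c_an.H50
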