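import Pool.Agent.Lib.MP_f90f6c_an.H64Defs

/-!
The second moment inequality for a two player game.
-/

namespace Pool.Agent.Lib.MP_f90f6c_an.H50

open Filter Topology Matrix

set_option linter.unusedSectionVars false

variable {D : Type*} [CStarAlgebra D] [PartialOrder D] [StarOrderedRing D]
variable {m n r : Type*} [Fintype m] [DecidableEq m] [Fintype n] [DecidableEq n]
  [Fintype r] [DecidableEq r]

lemma ineq_split {ι κ : Type*} [Fintype ι] [DecidableEq ι] [Fintype κ] (p : ι)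
    (g : (ι → κ) → ℝ) :
    Fintype.card κ * ∑ σ, g σ = ∑ σ : ι → κ, ∑ x, g (Function.update σ p x) := by
  have hi : Function.Involutive
      fun u : (ι → κ) × κ => (Function.update u.1 p u.2, u.1 p) := fun u => by simp
  have := hi.bijective.sum_comp fun u => g u.1
  simp only [Fintype.sum_prod_type, Finset.sum_const, Finset.card_univ, nsmul_eq_mul] at this
  rw [this, Finset.mul_sum]

lemma ineq_diag {V ι : Type*} [AddCommGroup V] [Module ℝ V] [Fintype ι] (B : V →ₗ[ℝ] V →ₗ[ℝ] ℝ)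
    (v : ι → V) (h : ∀ i j, 0 ≤ B (v i) (v j)) :
    ∑ i, B (v i) (v i) ≤ B (∑ i, v i) (∑ i, v i) := by
  rw [map_sum B, LinearMap.sum_apply]
  refine Finset.sum_le_sum fun i _ => ?_
  rw [map_sum]
  exact Finset.single_le_sum (fun j _ => h i j) (Finset.mem_univ i)

lemma ineq_abs {V : Type*} [AddCommGroup V] [Module ℝ V] (B : V →ₗ[ℝ] V →ₗ[ℝ] ℝ)
    (hs : ∀ x y, B x y = B y x) (S : Submodule ℝ V) (hS : ∀ x ∈ S, 0 ≤ B x x) {N : ℕ} (hN : 0 < N)
    {q : V} (P : (Fin N × Fin (4 * N ^ 2) → Fin N) → Fin N → V)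
    (Q : Fin N × Fin (4 * N ^ 2) → Fin N → V) (hP : ∀ σ i, P σ i ∈ S) (hQ : ∀ p i, Q p i ∈ S)
    (hP' : ∀ σ i j, 0 ≤ B (P σ i) (P σ j)) (hQ' : ∀ p i j, 0 ≤ B (Q p i) (Q p j))
    (hPq : ∀ σ, ∑ i, P σ i = q) (hQq : ∀ p, ∑ i, Q p i = q) :
    B q q ≤ ∑ σ, ∑ p, B (P σ p.1) (Q p (σ p)) := by
  have hN' : (0 : ℝ) < N := Nat.cast_pos.2 hN
  have hq : q ∈ S := hPq (fun _ => ⟨0, hN⟩) ▸ S.sum_mem fun i _ => hP _ i
  have h0 := hS q hq
  obtain ⟨Z, hZ⟩ : ∃ Z : Fin N × Fin (4 * N ^ 2) → Fin N → V,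
      ∀ p x, Z p x = Q p x - (N : ℝ)⁻¹ • q := ⟨_, fun _ _ => rfl⟩
  have z1 : ∀ p, ∑ x, Z p x = 0 := fun p => by
    simp only [hZ, Finset.sum_sub_distrib, hQq, Finset.sum_const, Finset.card_univ,
      Fintype.card_fin]
    rw [← Nat.cast_smul_eq_nsmul ℝ, smul_smul, mul_inv_cancel₀ hN'.ne', one_smul, sub_self]
  have z2 : ∀ p, ∑ x, B (Z p x) (Z p x) ≤ B q q := fun p => by
    have e1 : ∀ x, B (Z p x) (Z p x) = B (Q p x) (Q p x) - (N : ℝ)⁻¹ * B q (Q p x) -
        (N : ℝ)⁻¹ * B q (Z p x) := fun x => by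
      rw [hZ]
      simp only [map_sub, map_smul, LinearMap.sub_apply, LinearMap.smul_apply, smul_eq_mul,
        hs (Q p x) q]
    have e2 := ineq_diag B (Q p) (hQ' p)
    simp only [e1, Finset.sum_sub_distrib, ← Finset.mul_sum, ← map_sum, z1, hQq, map_zero]
    rw [hQq] at e2
    have := mul_nonneg (inv_pos.2 hN').le h0
    linarith
  obtain ⟨c, hc⟩ : ∃ c : ℝ, c = Fintype.card (Fin N × Fin (4 * N ^ 2) → Fin N) := ⟨_, rfl⟩
  have c1 : 1 ≤ c := by
    have : Nonempty (Fin N × Fin (4 * N ^ 2) → Fin N) := ⟨fun _ => ⟨0, hN⟩⟩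
    rw [hc]
    exact_mod_cast Fintype.card_pos
  have z3 : ∀ p p', N * ∑ σ : Fin N × Fin (4 * N ^ 2) → Fin N, B (Z p (σ p)) (Z p' (σ p')) ≤
      if p' = p then c * B q q else 0 := fun p p' => by
    have e := ineq_split p fun σ : Fin N × Fin (4 * N ^ 2) → Fin N => B (Z p (σ p)) (Z p' (σ p'))
    rw [Fintype.card_fin] at e
    rw [e]
    split_ifs with h
    · subst h
      simp only [Function.update_self]
      rw [Finset.sum_const, Finset.card_univ, nsmul_eq_mul, ← hc]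
      exact mul_le_mul_of_nonneg_left (z2 _) (zero_le_one.trans c1)
    · simp only [Function.update_self, Function.update_of_ne h, ← LinearMap.sum_apply, ← map_sum,
        z1, map_zero, LinearMap.zero_apply, Finset.sum_const_zero, le_refl]
  obtain ⟨Y, hY⟩ : ∃ Y : (Fin N × Fin (4 * N ^ 2) → Fin N) → Fin N → V,
      ∀ σ i, Y σ i = ∑ j, Z (i, j) (σ (i, j)) := ⟨_, fun _ _ => rfl⟩
  have y1 : ∀ i, ∑ σ, B (Y σ i) (Y σ i) ≤ 4 * N * (c * B q q) := fun i => by
    refine le_of_mul_le_mul_left ?_ hN'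
    have e1 : ∀ σ, B (Y σ i) (Y σ i) =
        ∑ j, ∑ j', B (Z (i, j) (σ (i, j))) (Z (i, j') (σ (i, j'))) := fun σ => by
      rw [hY, map_sum B, LinearMap.sum_apply]
      exact Finset.sum_congr rfl fun j _ => map_sum _ _ _
    simp only [e1]
    rw [Finset.sum_comm, Finset.mul_sum]
    calc _ ≤ ∑ _j : Fin (4 * N ^ 2), c * B q q := Finset.sum_le_sum fun j _ => by
          rw [Finset.sum_comm, Finset.mul_sum]
          refine (Finset.sum_le_sum fun j' _ => z3 (i, j) (i, j')).trans_eq ?_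
          simp
      _ = _ := by
          rw [Finset.sum_const, Finset.card_univ, Fintype.card_fin, nsmul_eq_mul]
          push_cast
          ring
  have y2 : ∀ σ i, -(N * B (P σ i) (P σ i)) - (4 * (N : ℝ))⁻¹ * B (Y σ i) (Y σ i) ≤
      B (P σ i) (Y σ i) := fun σ i => by
    have e1 := hS _ (S.add_mem (S.smul_mem (2 * N) (hP σ i)) (show Y σ i ∈ S from
      hY σ i ▸ S.sum_mem fun j _ => hZ _ _ ▸ S.sub_mem (hQ _ _) (S.smul_mem _ hq)))
    simp only [map_add, map_smul, LinearMap.add_apply, LinearMap.smul_apply, smul_eq_mul,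
      hs (Y σ i) (P σ i)] at e1
    have e2 := mul_nonneg (inv_pos.2 (show 0 < 4 * (N : ℝ) by positivity)).le e1
    refine sub_nonneg.1 (e2.trans_eq ?_)
    field_simp
    ring
  have y3 : ∀ σ, ∑ p, B (P σ p.1) (Q p (σ p)) = ∑ i, B (P σ i) (Y σ i) + 4 * N * B q q :=
    fun σ => by
    have e1 : ∀ p x, Q p x = Z p x + (N : ℝ)⁻¹ • q := fun p x => by rw [hZ, sub_add_cancel]
    have e2 : B q q = ∑ i, B (P σ i) q := by rw [← LinearMap.sum_apply, ← map_sum, hPq]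
    rw [e2, Fintype.sum_prod_type, Finset.mul_sum, ← Finset.sum_add_distrib]
    refine Finset.sum_congr rfl fun i _ => ?_
    simp only [e1, hY, map_add, map_smul, map_sum, Finset.sum_add_distrib, Finset.sum_const,
      Finset.card_univ, Fintype.card_fin, nsmul_eq_mul, smul_eq_mul]
    push_cast
    field_simp
  have y4 : ∀ σ, 3 * N * B q q - (4 * (N : ℝ))⁻¹ * ∑ i, B (Y σ i) (Y σ i) ≤
      ∑ p, B (P σ p.1) (Q p (σ p)) := fun σ => by
    have e1 := Finset.sum_le_sum fun i (_ : i ∈ Finset.univ) => y2 σ i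
    have e2 := mul_le_mul_of_nonneg_left (ineq_diag B (P σ) (hP' σ)) hN'.le
    rw [Finset.sum_sub_distrib, Finset.sum_neg_distrib, ← Finset.mul_sum, ← Finset.mul_sum] at e1
    rw [hPq] at e2
    rw [y3]
    linarith
  refine le_trans ?_ (Finset.sum_le_sum fun σ _ => y4 σ)
  rw [Finset.sum_sub_distrib, Finset.sum_const, Finset.card_univ, nsmul_eq_mul, ← hc,
    ← Finset.mul_sum, Finset.sum_comm]
  have e1 := Finset.sum_le_sum fun i (_ : i ∈ Finset.univ) => y1 i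
  rw [Finset.sum_const, Finset.card_univ, Fintype.card_fin, nsmul_eq_mul] at e1
  have e2 := mul_le_mul_of_nonneg_left e1 (inv_pos.2 (show 0 < 4 * (N : ℝ) by positivity)).le
  have e3 : (4 * (N : ℝ))⁻¹ * (N * (4 * N * (c * B q q))) = N * (c * B q q) := by field_simp
  have e4 : (1 : ℝ) ≤ N := by exact_mod_cast hN
  have e5 : B q q ≤ c * B q q := le_mul_of_one_le_left h0 c1
  have e6 : c * B q q ≤ N * (c * B q q) := le_mul_of_one_le_left (h0.trans e5) e4
  linarith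

theorem game_ineq (τ : TS D) {N : ℕ} (hN : 0 < N) {q : Matrix r r D}
    (P : (Fin N × Fin (4 * N ^ 2) → Fin N) → Fin N → Matrix r r D)
    (Q : Fin N × Fin (4 * N ^ 2) → Fin N → Matrix r r D)
    (hP : ∀ σ i, 0 ≤ P σ i) (hQ : ∀ p i, 0 ≤ Q p i) (hPq : ∀ σ, ∑ i, P σ i = q)
    (hQq : ∀ p, ∑ i, Q p i = q) :
    τ.Tr (q * q) ≤ ∑ σ, ∑ p, τ.Tr (P σ p.1 * Q p (σ p)) := by
  refine ineq_abs ((LinearMap.mul ℝ (Matrix r r D)).compr₂ τ.Tr) (fun x y => τ.Tr_comm x y)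
    (selfAdjoint.submodule ℝ (Matrix r r D)) (fun x hx => ?_) hN P Q
    (fun σ i => IsSelfAdjoint.of_nonneg (hP σ i)) (fun p i => IsSelfAdjoint.of_nonneg (hQ p i))
    (fun σ i j => τ.Tr_mul_nonneg (hP σ i) (hP σ j))
    (fun p i j => τ.Tr_mul_nonneg (hQ p i) (hQ p j)) hPq hQq
  have h : star x = x := hx
  have := τ.Tr_nonneg (star_mul_self_nonneg x)
  rwa [h] at this

end Pool.Agent.Lib.MP_f90f6c_an.H50
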