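import Pool.Agent.Lib.MP_f90f6c_an.H64Slot
import Pool.Agent.Lib.MP_f90f6c_an.H64Ineq

/-!
A contraction between two hereditary subalgebras whose trace is proportional to a prescribed one.
-/

namespace Pool.Agent.Lib.MP_f90f6c_an.H50

open Filter Topology Matrix

set_option linter.unusedSectionVars false

variable {D : Type*} [CStarAlgebra D] [PartialOrder D] [StarOrderedRing D]
variable {m n r : Type*} [Fintype m] [DecidableEq m] [Fintype n] [DecidableEq n]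
  [Fintype r] [DecidableEq r]

lemma game_sum_le {ι : Type*} (s : Finset ι) (x : ι → Matrix n m D)
    (h : ∀ t, (x t)ᴴ * x t ≤ 1) :
    (∑ t ∈ s, x t)ᴴ * (∑ t ∈ s, x t) ≤ ((4 : ℝ) ^ s.card) • (1 : Matrix m m D) := by
  classical
  induction s using Finset.induction_on with
  | empty => simp
  | insert i s hi ih =>
    rw [Finset.sum_insert hi, Finset.card_insert_of_notMem hi]
    refine (add_conjT_mul_le _ _).trans ((add_le_add
      (smul_le_smul_of_nonneg_left (h i) zero_le_two)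
      (smul_le_smul_of_nonneg_left ih zero_le_two)).trans ?_)
    rw [smul_smul, ← add_smul]
    refine smul_le_smul_of_nonneg_right ?_ zero_le_one
    have : (1 : ℝ) ≤ 4 ^ s.card := one_le_pow₀ (by norm_num)
    rw [pow_succ]
    linarith

lemma game_dom_left {ι : Type*} (s : Finset ι) (x : ι → Matrix n m D) {b : Matrix m m D}
    (h : ∀ t, Dom ((x t)ᴴ * x t) b) : Dom ((∑ t ∈ s, x t)ᴴ * (∑ t ∈ s, x t)) b := by
  classical
  induction s using Finset.induction_on with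
  | empty => simpa using Dom.zero b
  | insert i s hi ih =>
    rw [Finset.sum_insert hi]
    exact (h i).add_conjT_mul ih

lemma game_dom_right {ι : Type*} (s : Finset ι) (x : ι → Matrix n m D) {b : Matrix n n D}
    (h : ∀ t, Dom (x t * (x t)ᴴ) b) : Dom ((∑ t ∈ s, x t) * (∑ t ∈ s, x t)ᴴ) b := by
  classical
  induction s using Finset.induction_on with
  | empty => simpa using Dom.zero b
  | insert i s hi ih =>
    rw [Finset.sum_insert hi]
    exact (h i).add_mul_conjT ih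

lemma game_term_le (A : Matrix m r D) {B : Matrix n r D} (hB : Bᴴ * B ≤ 1) :
    (B * Aᴴ)ᴴ * (B * Aᴴ) ≤ A * Aᴴ := by
  simpa only [conjTranspose_mul, conjTranspose_conjTranspose, Matrix.mul_one, Matrix.mul_assoc]
    using conj_le_conj A hB

lemma game_term_le' {A : Matrix m r D} (B : Matrix n r D) (hA : Aᴴ * A ≤ 1) :
    (B * Aᴴ) * (B * Aᴴ)ᴴ ≤ B * Bᴴ := by
  simpa only [conjTranspose_mul, conjTranspose_conjTranspose, Matrix.mul_one, Matrix.mul_assoc]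
    using conj_le_conj B hA

lemma game_tr_cross (τ : TS D) (A A' : Matrix m r D) (B B' : Matrix n r D) :
    τ.Tr ((B * Aᴴ)ᴴ * (B' * A'ᴴ)) = τ.Tr (A'ᴴ * A * (Bᴴ * B')) := by
  rw [← Matrix.mul_assoc, τ.Tr_comm]
  simp only [conjTranspose_mul, conjTranspose_conjTranspose, Matrix.mul_assoc]

lemma game_tr_sum (τ : TS D) {ι : Type*} [Fintype ι] (A : ι → Matrix m r D)
    (B : ι → Matrix n r D) (h : ∀ t t', t ≠ t' → (A t')ᴴ * A t = 0 ∨ (B t)ᴴ * B t' = 0) :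
    τ.Tr ((∑ t, B t * (A t)ᴴ)ᴴ * (∑ t, B t * (A t)ᴴ)) =
      ∑ t, τ.Tr ((A t)ᴴ * A t * ((B t)ᴴ * B t)) := by
  rw [conjTranspose_sum, Matrix.sum_mul, map_sum]
  refine Finset.sum_congr rfl fun t _ => ?_
  rw [Matrix.mul_sum, map_sum, Finset.sum_eq_single t, game_tr_cross]
  · intro t' _ ht
    rw [game_tr_cross]
    rcases h t t' ht.symm with h1 | h1
    · rw [h1, Matrix.zero_mul, map_zero]
    · rw [h1, Matrix.mul_zero, map_zero]
  · simp

lemma game_core {ι : Type*} [Fintype ι] {q : Matrix r r D} (hq0 : 0 ≤ q) (hq1 : q ≤ 1)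
    {k : Matrix m m D} {c : Matrix n n D} (A : ι → Matrix m r D) (B : ι → Matrix n r D)
    (hAq : ∀ t, (A t)ᴴ * A t ≤ q) (hBq : ∀ t, (B t)ᴴ * B t ≤ q)
    (h : ∀ t t', t ≠ t' → (A t')ᴴ * A t = 0 ∨ (B t)ᴴ * B t' = 0)
    (hAk : ∀ t, Dom (A t * (A t)ᴴ) k) (hBc : ∀ t, Dom (B t * (B t)ᴴ) c) :
    ∃ S : Matrix n m D, Sᴴ * S ≤ 1 ∧ Dom (Sᴴ * S) k ∧ Dom (S * Sᴴ) c ∧ ∀ τ : TS D,
      τ.Tr (Sᴴ * S) = ((4 : ℝ) ^ Fintype.card ι)⁻¹ * ∑ t, τ.Tr ((A t)ᴴ * A t * ((B t)ᴴ * B t)) ∧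
        τ.Tr (Sᴴ * S) ≤ τ.Tr (q * q) := by
  set T : Matrix n m D := ∑ t, B t * (A t)ᴴ with hT
  set l : ℝ := ((2 : ℝ) ^ Fintype.card ι)⁻¹ with hl
  have h4 : (0 : ℝ) < 4 ^ Fintype.card ι := by positivity
  have hll : l * l = ((4 : ℝ) ^ Fintype.card ι)⁻¹ := by
    rw [hl, ← mul_inv, ← mul_pow]
    norm_num
  have e1 : (l • T)ᴴ * (l • T) = ((4 : ℝ) ^ Fintype.card ι)⁻¹ • (Tᴴ * T) := by
    rw [conjTranspose_smul, star_trivial, Matrix.smul_mul, Matrix.mul_smul, smul_smul, hll]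
  have e2 : (l • T) * (l • T)ᴴ = ((4 : ℝ) ^ Fintype.card ι)⁻¹ • (T * Tᴴ) := by
    rw [conjTranspose_smul, star_trivial, Matrix.smul_mul, Matrix.mul_smul, smul_smul, hll]
  have hA1 : ∀ t, (A t)ᴴ * A t ≤ 1 := fun t => (hAq t).trans hq1
  have hB1 : ∀ t, (B t)ᴴ * B t ≤ 1 := fun t => (hBq t).trans hq1
  refine ⟨l • T, ?_, ?_, ?_, fun τ => ?_⟩
  · have h1 := game_sum_le Finset.univ (fun t => B t * (A t)ᴴ) fun t =>
      (game_term_le _ (hB1 t)).trans (mul_conjT_le_one (hA1 t))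
    rw [e1]
    refine (smul_le_smul_of_nonneg_left h1 (inv_nonneg.2 h4.le)).trans (le_of_eq ?_)
    rw [smul_smul, Finset.card_univ, inv_mul_cancel₀ h4.ne', one_smul]
  · rw [e1]
    exact (game_dom_left Finset.univ _ fun t =>
      (Dom.of_le (game_term_le _ (hB1 t))).trans (hAk t)).smul (inv_nonneg.2 h4.le)
  · rw [e2]
    exact (game_dom_right Finset.univ _ fun t =>
      (Dom.of_le (game_term_le' _ (hA1 t))).trans (hBc t)).smul (inv_nonneg.2 h4.le)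
  · have e3 : τ.Tr ((l • T)ᴴ * (l • T)) =
        ((4 : ℝ) ^ Fintype.card ι)⁻¹ * ∑ t, τ.Tr ((A t)ᴴ * A t * ((B t)ᴴ * B t)) := by
      rw [e1, map_smul, smul_eq_mul, hT, game_tr_sum τ A B h]
    refine ⟨e3, ?_⟩
    have h1 : ∀ t, τ.Tr ((A t)ᴴ * A t * ((B t)ᴴ * B t)) ≤ τ.Tr (q * q) := fun t => by
      refine (τ.Tr_mul_mono (conjT_mul_self_nonneg _) (hBq t)).trans ?_
      rw [τ.Tr_comm]
      exact τ.Tr_mul_mono hq0 (hAq t)
    have h2 := Finset.sum_le_sum fun t (_ : t ∈ Finset.univ) => h1 t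
    rw [Finset.sum_const, Finset.card_univ, nsmul_eq_mul] at h2
    have h3 : (Fintype.card ι : ℝ) ≤ 4 ^ Fintype.card ι := by
      exact_mod_cast (Nat.lt_pow_self (by norm_num : 1 < 4)).le
    rw [e3, inv_mul_le_iff₀ h4]
    exact h2.trans (mul_le_mul_of_nonneg_right h3 (τ.Tr_mul_nonneg hq0 hq0))

theorem game (hF : FIN D) {ε : ℝ} (hε : 0 < ε) : ∃ θ c₀ : ℝ, 0 < θ ∧ 0 < c₀ ∧
    ∀ (m n r : Type) [Fintype m] [DecidableEq m] [Fintype n] [DecidableEq n] [Fintype r]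
      [DecidableEq r] (k : Matrix m m D) (c : Matrix n n D) (w : Matrix r r D),
      0 ≤ k → 0 ≤ c → 0 ≤ w → (∀ s, IsState (W.u D) s → ε < s (cls k)) →
      (∀ s, IsState (W.u D) s → ε < s (cls c)) → (∀ s, IsState (W.u D) s → s (cls w) < θ) →
      ∃ S : Matrix n m D, Sᴴ * S ≤ 1 ∧ Dom (Sᴴ * S) k ∧ Dom (S * Sᴴ) c ∧
        ∀ τ : TS D, c₀ * τ.Tr (rmp w * rmp w) ≤ τ.Tr (Sᴴ * S) ∧
          τ.Tr (Sᴴ * S) ≤ τ.Tr (rmp w * rmp w) := by
  obtain ⟨N, η, hN, hη, H⟩ := exists_slots hF hε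
  set L : ℝ := (Fintype.card (Fin N × Fin (4 * N ^ 2) → Fin N) : ℝ) with hL
  set L' : ℝ := (Fintype.card (Fin N × Fin (4 * N ^ 2)) : ℝ) with hL'
  have hL0 : 0 ≤ L := Nat.cast_nonneg _
  have hL0' : 0 ≤ L' := Nat.cast_nonneg _
  have hN0 : (0 : ℝ) < N := Nat.cast_pos.2 hN
  have hM : 0 < (L + L' + 1) * N := by positivity
  refine ⟨min η (ε / 2 / ((L + L' + 1) * N)),
    ((4 : ℝ) ^ Fintype.card ((Fin N × Fin (4 * N ^ 2) → Fin N) × (Fin N × Fin (4 * N ^ 2))))⁻¹,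
    lt_min hη (by positivity), by positivity, ?_⟩
  intro m n r _ _ _ _ _ _ k c w hk hc hw hεk hεc hθ
  have hη' : ∀ s, IsState (W.u D) s → s (cls w) < η := fun s hs =>
    (hθ s hs).trans_le (min_le_left _ _)
  have hb : ∀ s, IsState (W.u D) s → ∀ x : ℝ, x ≤ L + L' + 1 → x * N * s (cls w) ≤ ε / 2 :=
    fun s hs x hx => by
      have h1 := (hθ s hs).trans_le (min_le_right _ _)
      rw [lt_div_iff₀ hM] at h1
      have h2 : 0 ≤ s (cls w) := hs.nonneg W.zero_le _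
      have h3 : x * N * s (cls w) ≤ (L + L' + 1) * N * s (cls w) :=
        mul_le_mul_of_nonneg_right (mul_le_mul_of_nonneg_right hx hN0.le) h2
      linarith
  obtain ⟨a, ha1, ha2, ha3⟩ := H m r (Fin N × Fin (4 * N ^ 2) → Fin N) k w hk hw hεk hη'
    fun s hs => hb s hs L (by linarith)
  obtain ⟨b, hb1, hb2, hb3⟩ := H n r (Fin N × Fin (4 * N ^ 2)) c w hc hw hεc hη'
    fun s hs => hb s hs L' (by linarith)
  obtain ⟨S, h1, h2, h3, h4⟩ := game_core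
    (ι := (Fin N × Fin (4 * N ^ 2) → Fin N) × (Fin N × Fin (4 * N ^ 2)))
    (rmp_nonneg w) (rmp_le_one w) (k := k) (c := c)
    (fun t => a t.1 t.2.1) (fun t => b t.2 (t.1 t.2))
    (fun t => (Finset.single_le_sum (f := fun i => (a t.1 i)ᴴ * a t.1 i)
      (fun i _ => conjT_mul_self_nonneg _) (Finset.mem_univ t.2.1)).trans_eq (ha1 t.1))
    (fun t => (Finset.single_le_sum (f := fun i => (b t.2 i)ᴴ * b t.2 i)
      (fun i _ => conjT_mul_self_nonneg _) (Finset.mem_univ (t.1 t.2))).trans_eq (hb1 t.2))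
    (fun t t' ht => by
      by_cases h : t.2 = t'.2
      · exact Or.inl (ha2 _ _ (fun h' => ht (Prod.ext h'.symm h)) _ _)
      · exact Or.inr (hb2 _ _ h _ _))
    (fun t => ha3 _ _) (fun t => hb3 _ _)
  refine ⟨S, h1, h2, h3, fun τ => ⟨?_, (h4 τ).2⟩⟩
  rw [(h4 τ).1, Fintype.sum_prod_type]
  exact mul_le_mul_of_nonneg_left (game_ineq τ hN (fun σ i => (a σ i)ᴴ * a σ i)
    (fun p i => (b p i)ᴴ * b p i) (fun _ _ => conjT_mul_self_nonneg _)
    (fun _ _ => conjT_mul_self_nonneg _) ha1 hb1) (by positivity)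

end Pool.Agent.Lib.MP_f90f6c_an.H50
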