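import Pool.Agent.Lib.MP_f90f6c_an.H64Lay
import Pool.Agent.Lib.MP_f90f6c_an.H64Game

/-!
The iteration: an element of smaller rank is covered up to small trace.
-/

namespace Pool.Agent.Lib.MP_f90f6c_an.H50

open Filter Topology Matrix

set_option linter.unusedSectionVars false

variable {D : Type*} [CStarAlgebra D] [PartialOrder D] [StarOrderedRing D]
variable {m n : Type} [Fintype m] [DecidableEq m] [Fintype n] [DecidableEq n]

/-- the state of the iteration -/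
structure St (a : Matrix m m D) (b : Matrix n n D) (β ε₁ Λ : ℝ) (T : Matrix n m D)
    (E : Matrix m m D) : Prop where
  nonneg : 0 ≤ E
  le : E ≤ a
  dom₁ : Dom (Tᴴ * T) a
  dom₂ : Dom (T * Tᴴ) b
  err : ‖a - Tᴴ * T - E‖ < β
  low : ∃ μ : ℝ, 0 < μ ∧ ∀ τ : TS D, ε₁ + μ ≤ τ.Tr E
  up : ∀ τ : TS D, τ.Tr E ≤ ε₁ + Λ

lemma core_split {E : Type*} [CStarAlgebra E] [PartialOrder E] [StarOrderedRing E] {a : E}
    (ha : IsSelfAdjoint a) (δ : ℝ) :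
    ∃ g : E, g * cut δ a = 0 ∧ a = cut δ a - g + δ • (1 : E) := by
  refine ⟨cfc (fun t => max (δ - t) 0) a, ?_, ?_⟩
  · rw [cut, cfc_mul_cfc (by fun_prop) (by fun_prop), ← cfc_zero ℝ a]
    refine cfc_congr fun s _ => ?_
    rcases le_total s δ with h | h
    · simp [max_eq_right (sub_nonpos.2 h)]
    · simp [max_eq_right (sub_nonpos.2 h)]
  · rw [cut, ← cfc_sub _ _ _ (by fun_prop) (by fun_prop), ← Algebra.algebraMap_eq_smul_one,
      ← cfc_const δ a, ← cfc_add a _ _ (by fun_prop) (by fun_prop)]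
    conv_lhs => rw [← cfc_id' ℝ a]
    refine cfc_congr fun s _ => ?_
    rcases le_total s δ with h | h
    · rw [max_eq_right (sub_nonpos.2 h), max_eq_left (sub_nonneg.2 h)]
      ring
    · rw [max_eq_left (sub_nonneg.2 h), max_eq_right (sub_nonpos.2 h)]
      ring

lemma core_norm {E : Type*} [CStarAlgebra E] [PartialOrder E] [StarOrderedRing E] {x : E} {ν : ℝ}
    (hν : 0 ≤ ν) (h : star x * x ≤ (ν ^ 2) • (1 : E)) : ‖x‖ ≤ ν := by
  have h1 : ‖x‖ ≤ ‖ν • (1 : E)‖ := norm_le_of_star_mul_le (by simpa [smul_smul, sq] using h)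
  rw [norm_smul, Real.norm_of_nonneg hν] at h1
  refine h1.trans (mul_le_of_le_one_right hν ?_)
  nontriviality E
  simp

lemma core_gain {S : Matrix n m D} {E : Matrix m m D} (hE : 0 ≤ E) {δ : ℝ}
    (h : Dom (Sᴴ * S) (cut δ E)) : δ • (S * Sᴴ) ≤ S * E * Sᴴ := by
  obtain ⟨g, h1, h2⟩ := core_split (IsSelfAdjoint.of_nonneg hE) δ
  have h3 : g * Sᴴ = 0 := Dom.mul_eq_zero (by rwa [conjTranspose_conjTranspose]) h1
  conv_rhs => rw [h2]
  rw [Matrix.mul_add, Matrix.add_mul, Matrix.mul_sub, Matrix.sub_mul, Matrix.mul_assoc S g, h3,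
    Matrix.mul_zero, sub_zero, Matrix.mul_smul, Matrix.mul_one, Matrix.smul_mul]
  exact le_add_of_nonneg_left (conj_nonneg S (cut_nonneg _ _))

lemma core_cross {T S : Matrix n m D} (hS : Sᴴ * S ≤ 1) {ν : ℝ} (hν : 0 ≤ ν)
    (h : cut (ν ^ 2) (T * Tᴴ) * S = 0) : ‖Tᴴ * S‖ ≤ ν := by
  refine core_norm hν ?_
  have h1 := conj_le_conj Sᴴ (le_cut_add (.of_nonneg (mul_conjT_self_nonneg T)) (ν ^ 2))
  rw [conjTranspose_conjTranspose, Matrix.mul_add, Matrix.add_mul, Matrix.mul_assoc Sᴴ (cut _ _),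
    h, Matrix.mul_zero, zero_add, Matrix.mul_smul, Matrix.mul_one, Matrix.smul_mul] at h1
  refine le_trans (le_of_eq ?_) (h1.trans (smul_le_smul_of_nonneg_left hS (sq_nonneg ν)))
  simp only [star_eq_conjTranspose, conjTranspose_mul, conjTranspose_conjTranspose,
    Matrix.mul_assoc]

theorem St.step (hT : Traces D) (hTi : Tiny D) (hF : FIN D) {a : Matrix m m D} {b : Matrix n n D}
    (ha1 : a ≤ 1) (hb : 0 ≤ b) {γ ε₁ : ℝ} (hγ : 0 < γ) (hε₁ : 0 < ε₁)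
    (hab : ∀ s, IsState (W.u D) s → s (cls a) + γ < s (cls b)) :
    ∃ κ : ℝ, 0 < κ ∧ κ < 1 ∧ ∀ β Λ T E, St a b β ε₁ Λ T E →
      ∃ T' E', St a b β ε₁ ((1 - κ) * Λ) T' E' := by
  obtain ⟨M, hM⟩ : ∃ M : ℝ, M = Fintype.card m + 1 := ⟨_, rfl⟩
  have hm : (0 : ℝ) ≤ Fintype.card m := Nat.cast_nonneg _
  have hM0 : 0 < M := by linarith
  obtain ⟨δ, hδ, hδ'⟩ : ∃ δ : ℝ, 0 < δ ∧ δ * (2 * M) = ε₁ :=
    ⟨ε₁ / (2 * M), by positivity, by field_simp⟩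
  obtain ⟨θg, c₀, hθg, hc₀, hG⟩ := game hF (lt_min (half_pos hε₁) hγ)
  obtain ⟨θ, hθ, hθ1, hθ2⟩ : ∃ θ : ℝ, 0 < θ ∧ θ * (2 * M) ≤ θg ∧ θ ≤ 1 / 4 :=
    ⟨min (θg / (2 * M)) (1 / 4), by positivity,
      (le_div_iff₀ (by positivity)).1 (min_le_left _ _), min_le_right _ _⟩
  obtain ⟨κ, hκ, hκ1, hκ2⟩ : ∃ κ : ℝ, 0 < κ ∧ κ ≤ δ * c₀ * θ / 2 ∧ κ ≤ 1 / 2 :=
    ⟨min (δ * c₀ * θ / 2) (1 / 2), by positivity, min_le_left _ _, min_le_right _ _⟩
  refine ⟨κ, hκ, by linarith, fun β Λ T E h => ?_⟩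
  obtain ⟨μ, hμ, hlow⟩ := h.low
  have ha : 0 ≤ a := h.nonneg.trans h.le
  have hE1 : E ≤ 1 := h.le.trans ha1
  have hf : ∀ τ : TS D, τ.re (θ • (∑ i, E i i - ε₁ • (1 : D))) = θ * (τ.Tr E - ε₁) := fun τ => by
    rw [map_smul, map_sub, map_smul, τ.re_one, smul_eq_mul, smul_eq_mul, mul_one, τ.Tr_apply]
  have hf' : ∀ τ : TS D, θ * μ ≤ θ * (τ.Tr E - ε₁) := fun τ =>
    mul_le_mul_of_nonneg_left (by linarith [hlow τ]) hθ.le
  have hρ : 0 < θ * μ / 4 := by positivity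
  obtain ⟨b₀, hb₀, h1⟩ := exists_pos_of_traces (x := θ • (∑ i, E i i - ε₁ • (1 : D)))
    (fun τ => by rw [hf]; linarith [hf' τ]) hρ
  simp only [hf, abs_le] at h1
  obtain ⟨r, w, hw, h2, h3⟩ := exists_layers hTi hb₀ hρ
  obtain ⟨ν, hν, hν'⟩ : ∃ ν : ℝ, 0 < ν ∧ ‖a - Tᴴ * T - E‖ + 3 * ν = β :=
    ⟨(β - ‖a - Tᴴ * T - E‖) / 3, by linarith [h.err], by ring⟩
  obtain ⟨c, hc, c1, c2, -, c3⟩ := exists_compl_dom hb (mul_conjT_self_nonneg T) h.dom₂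
    (pow_pos hν 2)
  obtain ⟨S₀, s1, s2, s3, s4⟩ := hG m n (Fin r) (cut δ E) c w (cut_nonneg _ _) hc hw
    (fun s hs => by
      obtain ⟨τ, hτ⟩ := hT s hs
      have p1 := hτ.low' (cut_nonneg δ E) ((cut_le_self hδ.le h.nonneg).trans hE1)
      have p2 := τ.Tr_mono (le_cut_add (.of_nonneg h.nonneg) δ)
      rw [map_add, map_smul, τ.Tr_one, smul_eq_mul] at p2
      refine (min_le_left _ _).trans_lt ?_
      nlinarith [hlow τ])
    (fun s hs => by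
      have p1 := hs.mono (c3.trans (add_le_add le_rfl ((cls_conjT_mul T).ge.trans
        (h.dom₁.cls_le (conjT_mul_self_nonneg T) ha))))
      rw [map_add] at p1
      linarith [hab s hs, min_le_right (ε₁ / 2) γ])
    (fun s hs => by
      obtain ⟨τ, hτ⟩ := hT s hs
      have p1 := mul_le_mul_of_nonneg_left (τ.Tr_le_card hE1) hθ.le
      nlinarith [h2 s τ hs hτ, (h1 τ).2, hf' τ, mul_pos hθ hε₁])
  have e1 : (S₀ * rt E)ᴴ * (S₀ * rt E) = rt E * (S₀ᴴ * S₀) * (rt E)ᴴ := by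
    simp only [conjTranspose_mul, conjT_rt, Matrix.mul_assoc]
  have e2 : (S₀ * rt E) * (S₀ * rt E)ᴴ = S₀ * E * S₀ᴴ := by
    conv_rhs => rw [← rt_mul_rt h.nonneg]
    simp only [conjTranspose_mul, conjT_rt, Matrix.mul_assoc]
  have l1 : (S₀ * rt E)ᴴ * (S₀ * rt E) ≤ E := by
    have := conj_le_conj (rt E) s1
    rwa [← e1, Matrix.mul_one, conjT_rt, rt_mul_rt h.nonneg] at this
  have l2 : (S₀ * rt E) * (S₀ * rt E)ᴴ ≤ S₀ * S₀ᴴ := by
    simpa only [e2, Matrix.mul_one] using conj_le_conj S₀ hE1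
  have l3 : δ • (S₀ * S₀ᴴ) ≤ (S₀ * rt E) * (S₀ * rt E)ᴴ := e2 ▸ core_gain h.nonneg s2
  have l4 : ‖Tᴴ * (S₀ * rt E)‖ ≤ ν := core_cross (l1.trans hE1) hν.le (by
    rw [← Matrix.mul_assoc, s3.mul_eq_zero c2, Matrix.zero_mul])
  generalize S₀ * rt E = S at l1 l2 l3 l4
  have t1 : ∀ τ : TS D, δ * (c₀ * (θ * (τ.Tr E - ε₁) / 2)) ≤ τ.Tr (Sᴴ * S) ∧
      τ.Tr (Sᴴ * S) ≤ 5 / 4 * (θ * (τ.Tr E - ε₁)) := fun τ => by
    have p1 := τ.Tr_mono l2
    have p2 := τ.Tr_mono l3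
    rw [map_smul, smul_eq_mul, τ.Tr_comm S, τ.Tr_comm S₀] at p2
    rw [τ.Tr_comm S, τ.Tr_comm S₀] at p1
    refine ⟨le_trans (mul_le_mul_of_nonneg_left (le_trans (mul_le_mul_of_nonneg_left ?_ hc₀.le)
      (s4 τ).1) hδ.le) p2, ?_⟩
    · linarith [(h3 τ).1, (h1 τ).1, hf' τ]
    · linarith [(s4 τ).2, (h3 τ).2, (h1 τ).2, hf' τ]
  refine ⟨T + S, E - Sᴴ * S, sub_nonneg.2 l1, (sub_le_self _ (conjT_mul_self_nonneg S)).trans h.le,
    h.dom₁.add_conjT_mul (.of_le (l1.trans h.le)),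
    h.dom₂.add_mul_conjT ((Dom.of_le l2).trans (s3.trans c1)), ?_, ⟨μ / 2, half_pos hμ, fun τ => ?_⟩,
    fun τ => ?_⟩
  · have e3 : a - (T + S)ᴴ * (T + S) - (E - Sᴴ * S) =
        a - Tᴴ * T - E - Tᴴ * S - star (Tᴴ * S) := by
      simp only [star_eq_conjTranspose, conjTranspose_mul, conjTranspose_conjTranspose,
        conjTranspose_add, Matrix.add_mul, Matrix.mul_add]
      abel
    rw [e3]
    refine ((norm_sub_le _ _).trans (add_le_add (norm_sub_le _ _) le_rfl)).trans_lt ?_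
    rw [norm_star]
    linarith
  · rw [map_sub]
    have p1 := mul_le_mul_of_nonneg_right hθ2 (show 0 ≤ τ.Tr E - ε₁ by linarith [hlow τ])
    linarith [(t1 τ).2, hlow τ]
  · rw [map_sub]
    have p1 := mul_le_mul_of_nonneg_right hκ1 (show 0 ≤ τ.Tr E - ε₁ by linarith [hlow τ])
    have p2 := mul_le_mul_of_nonneg_left (show τ.Tr E - ε₁ ≤ Λ by linarith [h.up τ])
      (show 0 ≤ 1 - κ by linarith)
    nlinarith [(t1 τ).1]

theorem core (hT : Traces D) (hTi : Tiny D) (hF : FIN D) {a : Matrix m m D} {b : Matrix n n D}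
    (ha : 0 ≤ a) (ha1 : a ≤ 1) (hb : 0 ≤ b) {γ ε₁ β : ℝ} (hγ : 0 < γ) (hε₁ : 0 < ε₁) (hβ : 0 < β)
    (hab : ∀ s, IsState (W.u D) s → s (cls a) + γ < s (cls b))
    (hlow : ∀ τ : TS D, 2 * ε₁ ≤ τ.Tr a) :
    ∃ z κ, z ≤ cls a ∧ z ≤ cls b ∧ cls (cut (3 * β) a) ≤ z + κ ∧
      ∀ s, IsState (W.u D) s → β * s κ ≤ 4 * ε₁ := by
  obtain ⟨κ, hκ, hκ1, hstep⟩ := St.step hT hTi hF ha1 hb hγ hε₁ hab
  have key : ∀ j : ℕ, ∃ T E, St a b β ε₁ ((1 - κ) ^ j * (Fintype.card m + 1)) T E := fun j => by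
    induction j with
    | zero =>
      refine ⟨0, a, ha, le_rfl, by simpa using Dom.zero a, by simpa using Dom.zero b,
        by simpa using hβ, ⟨ε₁, hε₁, fun τ => by linarith [hlow τ]⟩, fun τ => ?_⟩
      rw [pow_zero]
      linarith [τ.Tr_le_card ha1]
    | succ j ih =>
      obtain ⟨T, E, h⟩ := ih
      rw [pow_succ', mul_assoc]
      exact hstep _ _ _ _ h
  obtain ⟨j, hj⟩ := exists_pow_lt_of_lt_one
    (show 0 < ε₁ / (Fintype.card m + 1) by positivity) (show 1 - κ < 1 by linarith)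
  rw [lt_div_iff₀ (by positivity)] at hj
  obtain ⟨T, E, h⟩ := key j
  have h0 := conjT_mul_self_nonneg T
  refine ⟨cls (Tᴴ * T), cls (cut β E), h.dom₁.cls_le h0 ha,
    (cls_conjT_mul T).trans_le (h.dom₂.cls_le (mul_conjT_self_nonneg T) hb),
    (cls_cut_le_of_le (δ := 2 * β) (.of_nonneg ha) (add_nonneg h0 (cut_nonneg _ _)) ?_
      (by linarith)).trans (cls_add_le h0 (cut_nonneg _ _)), fun s hs => ?_⟩
  · have h1 := (((IsSelfAdjoint.of_nonneg ha).sub (.of_nonneg h0)).sub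
      (.of_nonneg h.nonneg)).le_algebraMap_norm_self
    rw [Algebra.algebraMap_eq_smul_one] at h1
    have h2 := h1.trans (smul_le_smul_of_nonneg_right h.err.le zero_le_one)
    rw [sub_sub, sub_le_iff_le_add] at h2
    refine h2.trans ((add_le_add le_rfl (add_le_add le_rfl
      (le_cut_add (.of_nonneg h.nonneg) β))).trans (le_of_eq ?_))
    rw [two_mul, add_smul]
    abel
  · obtain ⟨τ, hτ⟩ := hT s hs
    linarith [hτ.up' h.nonneg (half_pos hβ) (half_lt_self hβ), h.up τ]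

end Pool.Agent.Lib.MP_f90f6c_an.H50
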