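import Pool.Agent.Lib.MP_f90f6c_an.H50Gam

/-!
Tracial states, their relation with states on `W(D)`, and the properties used in the proof of the
reverse inequalities when quasitraces are traces.
-/

namespace Pool.Agent.Lib.MP_f90f6c_an.H50

open Filter Topology Matrix

set_option linter.unusedSectionVars false

section Alg

variable {E : Type*} [CStarAlgebra E] [PartialOrder E] [StarOrderedRing E]

/-- `X` is dominated by a multiple of `b` -/
def Dom (X b : E) : Prop := ∃ C : ℝ, 0 ≤ C ∧ X ≤ C • b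

lemma Dom.of_le {X b : E} (h : X ≤ b) : Dom X b := ⟨1, zero_le_one, by rwa [one_smul]⟩

lemma Dom.refl (X : E) : Dom X X := .of_le le_rfl

lemma Dom.zero (b : E) : Dom 0 b := ⟨0, le_rfl, by rw [zero_smul]⟩

lemma Dom.trans {X Y Z : E} (h1 : Dom X Y) (h2 : Dom Y Z) : Dom X Z := by
  obtain ⟨C, hC, h1⟩ := h1
  obtain ⟨C', hC', h2⟩ := h2
  exact ⟨C * C', mul_nonneg hC hC', h1.trans (by
    rw [mul_smul]
    exact smul_le_smul_of_nonneg_left h2 hC)⟩

lemma Dom.add {X Y b : E} (h1 : Dom X b) (h2 : Dom Y b) : Dom (X + Y) b := by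
  obtain ⟨C, hC, h1⟩ := h1
  obtain ⟨C', hC', h2⟩ := h2
  exact ⟨C + C', add_nonneg hC hC', by rw [add_smul]; exact add_le_add h1 h2⟩

lemma Dom.smul {X b : E} (h : Dom X b) {c : ℝ} (hc : 0 ≤ c) : Dom (c • X) b :=
  Dom.trans ⟨c, hc, le_rfl⟩ h

lemma Dom.sum {ι : Type*} (s : Finset ι) {X : ι → E} {b : E} (h : ∀ i, Dom (X i) b) :
    Dom (∑ i ∈ s, X i) b := by
  classical
  induction s using Finset.induction_on with
  | empty => simpa using Dom.zero b
  | insert i s hi ih =>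
    rw [Finset.sum_insert hi]
    exact (h i).add ih

lemma Dom.csub {X b : E} (hX : 0 ≤ X) (h : Dom X b) : CSub X b := by
  obtain ⟨C, hC, h⟩ := h
  exact (CSub.of_le hX h).trans (CSub.smul hC b)

/-- a self-adjoint element that kills `b` kills everything dominated by `b` -/
lemma Dom.conj_eq_zero {X b p : E} (hX : 0 ≤ X) (h : Dom X b) (hp : p * b = 0) :
    p * X * star p = 0 := by
  obtain ⟨C, -, h⟩ := h
  have h1 := star_right_conjugate_le_conjugate h p
  rw [mul_smul_comm, hp, smul_zero, zero_mul] at h1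
  exact le_antisymm h1 (star_right_conjugate_nonneg hX p)

/-- a function vanishing near `0` is dominated by the element -/
lemma Dom.cfc {b : E} (hb : 0 ≤ b) {f : ℝ → ℝ} (hf : Continuous f) {C : ℝ} (hC : 0 ≤ C)
    (h : ∀ t, 0 ≤ t → f t ≤ C * t) : Dom (cfc f b) b := by
  refine ⟨C, hC, ?_⟩
  conv_rhs => rw [← cfc_id' ℝ b, ← cfc_smul C _ b]
  exact cfc_mono (fun t ht => h t (spectrum_nonneg_of_nonneg hb ht)) (by fun_prop) (by fun_prop)

lemma exists_compl_dom' {k c : E} (hk : 0 ≤ k) (hc : 0 ≤ c) (h : Dom c k) {η : ℝ} (hη : 0 < η) :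
    ∃ H y : E, star H = H ∧ H * cut η c = 0 ∧ 0 ≤ H * k * H ∧ Dom (H * k * H) k ∧ 0 ≤ y ∧
      Dom y c ∧ Dom k (H * k * H + y) := by
  have q1 : Continuous fun t : ℝ => min (max t 0 / η) 1 := by fun_prop
  set G := cfc (fun t : ℝ => min (max t 0 / η) 1) c with hG
  have hGs : star G = G := star_cfc _ _
  have d1 : Dom (G * k * G) c := by
    have h1 := star_left_conjugate_le_conjugate
      (IsSelfAdjoint.of_nonneg hk).le_algebraMap_norm_self G
    rw [hGs, Algebra.algebraMap_eq_smul_one, mul_smul_comm, mul_one, smul_mul_assoc] at h1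
    refine Dom.trans ⟨_, norm_nonneg _, h1⟩ ?_
    rw [hG, cfc_mul_cfc q1 q1]
    refine Dom.cfc hc (q1.mul q1) (inv_nonneg.2 hη.le) fun t ht => ?_
    rw [max_eq_left ht, ← div_eq_inv_mul]
    have h2 := min_le_left (t / η) 1
    have h3 := min_le_right (t / η) 1
    have h4 : 0 ≤ min (t / η) 1 := le_min (by positivity) zero_le_one
    nlinarith
  refine ⟨1 - G, G * k * G, by simp [hGs], ?_,
    by simpa [hGs] using star_left_conjugate_nonneg hk (1 - G), ?_,
    by simpa [hGs] using star_left_conjugate_nonneg hk G, d1, 2, zero_le_two, ?_⟩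
  · rw [sub_mul, one_mul, hG, cut, cfc_mul_cfc q1 (by fun_prop), sub_eq_zero]
    refine cfc_congr fun t _ => ?_
    rcases le_total t η with h | h
    · simp [max_eq_right (sub_nonpos.2 h)]
    · rw [min_eq_right (by rw [le_div_iff₀ hη, one_mul]; exact le_max_of_le_left h), one_mul]
  · have h2 : 0 ≤ (1 + G) * k * (1 + G) := by
      simpa [hGs] using star_left_conjugate_nonneg hk (1 + G)
    have h1 : (1 - G) * k * (1 - G) ≤ (2 : ℝ) • k + (2 : ℝ) • (G * k * G) := by
      refine (le_add_of_nonneg_right h2).trans (le_of_eq ?_)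
      simp only [two_smul]
      noncomm_ring
    exact (Dom.of_le h1).trans (((Dom.refl k).smul zero_le_two).add
      ((d1.trans h).smul zero_le_two))
  · have h2 : 0 ≤ (G - (1 - G)) * k * (G - (1 - G)) := by
      simpa [hGs] using star_left_conjugate_nonneg hk (G - (1 - G))
    refine (le_add_of_nonneg_right h2).trans (le_of_eq ?_)
    simp only [two_smul]
    noncomm_ring

lemma le_cut_add {a : E} (ha : IsSelfAdjoint a) (δ : ℝ) : a ≤ cut δ a + δ • (1 : E) := by
  rw [← Algebra.algebraMap_eq_smul_one, ← cfc_const δ a, cut,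
    ← cfc_add a _ _ (by fun_prop) (by fun_prop)]
  conv_lhs => rw [← cfc_id' ℝ a]
  exact cfc_mono (fun t _ => by linarith [le_max_left (t - δ) 0]) (by fun_prop) (by fun_prop)

/-- one-sided version of `CSub.cut_of_near` -/
lemma CSub.cut_of_le {a b : E} (ha : IsSelfAdjoint a) {δ ε : ℝ} (h : a ≤ b + δ • (1 : E))
    (hδ : δ < ε) : CSub (cut ε a) b := by
  let k : ℝ → ℝ := fun t => √(max (t - ε) 0 / max (t - δ) (ε - δ))
  have hpos : ∀ t, 0 < max (t - δ) (ε - δ) := fun t => lt_max_of_lt_right (by linarith)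
  have hk : Continuous k :=
    Real.continuous_sqrt.comp (Continuous.div (by fun_prop) (by fun_prop) fun t => (hpos t).ne')
  have h1 := star_left_conjugate_le_conjugate (sub_le_iff_le_add.2 h) (cfc k a)
  have e1 : a - δ • (1 : E) = cfc (fun t => t - δ) a := by
    rw [cfc_sub _ _ _ continuous_id'.continuousOn continuous_const.continuousOn, cfc_id' ℝ a,
      cfc_const δ a, Algebra.algebraMap_eq_smul_one]
  rw [star_cfc, e1, cfc_mul_cfc hk (by fun_prop), cfc_mul_cfc (by fun_prop) hk] at h1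
  have e2 : cfc (fun t => k t * (t - δ) * k t) a = cut ε a := by
    refine cfc_congr fun t _ => ?_
    have e2 : k t * k t = max (t - ε) 0 / max (t - δ) (ε - δ) :=
      Real.mul_self_sqrt (div_nonneg (le_max_right _ _) (hpos t).le)
    have e3 : k t * (t - δ) * k t = max (t - ε) 0 / max (t - δ) (ε - δ) * (t - δ) := by
      rw [← e2]
      ring
    simp only [e3]
    rcases le_or_gt t ε with h2 | h2
    · simp [max_eq_right (sub_nonpos.2 h2)]
    · rw [max_eq_left (show ε - δ ≤ t - δ by linarith), div_mul_cancel₀]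
      linarith
  rw [e2] at h1
  refine (CSub.of_le (cut_nonneg _ _) h1).trans ?_
  simpa [star_cfc] using CSub.conj (cfc k a) b

lemma cut_smul {c : ℝ} (hc : 0 < c) (ε : ℝ) {a : E} (ha : IsSelfAdjoint a) :
    cut (c * ε) (c • a) = c • cut ε a := by
  rw [cut, cut, ← cfc_smul c _ a (by fun_prop), ← cfc_comp_smul c _ a (by fun_prop)]
  refine cfc_congr fun t _ => ?_
  simp only [smul_eq_mul]
  rw [← mul_sub, mul_max_of_nonneg _ _ hc.le, mul_zero]

/-- `0` on `t ≤ 1/3`, `1` on `t ≥ 2/3` -/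
noncomputable def ramp (t : ℝ) : ℝ := min (max (3 * t - 1) 0) 1

lemma continuous_ramp : Continuous ramp := by
  unfold ramp
  fun_prop

lemma ramp_nonneg (t : ℝ) : 0 ≤ ramp t := le_min (le_max_right _ _) zero_le_one

lemma ramp_le_one (t : ℝ) : ramp t ≤ 1 := min_le_right _ _

lemma ramp_eq_zero {t : ℝ} (h : t ≤ 1 / 3) : ramp t = 0 := by
  rw [ramp, max_eq_right (by linarith), min_eq_left zero_le_one]

lemma ramp_eq_one {t : ℝ} (h : 2 / 3 ≤ t) : ramp t = 1 :=
  min_eq_right (le_max_of_le_left (by linarith))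

/-- the ramp of an element -/
noncomputable def rmp (w : E) : E := cfc ramp w

lemma rmp_nonneg (w : E) : 0 ≤ rmp w := cfc_nonneg fun t _ => ramp_nonneg t

lemma rmp_le_one (w : E) : rmp w ≤ 1 := cfc_le_one _ _ fun t _ => ramp_le_one t

lemma star_rmp (w : E) : star (rmp w) = rmp w := star_cfc _ _

lemma rmp_sq (w : E) : rmp w * rmp w = cfc (fun t => ramp t * ramp t) w :=
  cfc_mul_cfc continuous_ramp continuous_ramp w

lemma rmp_sq_nonneg (w : E) : 0 ≤ rmp w * rmp w := by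
  simpa [star_rmp] using star_mul_self_nonneg (rmp w)

lemma rmp_sq_le_one (w : E) : rmp w * rmp w ≤ 1 := by
  rw [rmp_sq]
  exact cfc_le_one _ _ fun t _ => mul_le_one₀ (ramp_le_one t) (ramp_nonneg t) (ramp_le_one t)

lemma rmp_sq_csub {w : E} (hw : 0 ≤ w) : CSub (rmp w * rmp w) (cut (1 / 3) w) := by
  rw [rmp_sq, cut]
  refine CSub.cfc_supp (.of_nonneg hw) (continuous_ramp.mul continuous_ramp) (by fun_prop)
    (fun t _ => mul_self_nonneg _) (fun t _ => le_max_right _ _) fun t _ ht => ?_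
  rw [ramp_eq_zero (by linarith [max_eq_right_iff.1 ht]), mul_zero]

lemma rmp_eq (w : E) :
    rmp w = (3 : ℝ) • cut (1 / 3) w - (3 : ℝ) • cut (2 / 3) w := by
  rw [cut, cut, ← cfc_smul _ _ w (by fun_prop), ← cfc_smul _ _ w (by fun_prop),
    ← cfc_sub _ _ _ (by fun_prop) (by fun_prop), rmp]
  refine cfc_congr fun t _ => ?_
  simp only [ramp, smul_eq_mul]
  rcases le_total t (1 / 3) with h | h
  · rw [max_eq_right (by linarith), max_eq_right (by linarith), max_eq_right (by linarith)]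
    simp
  · rw [max_eq_left (by linarith), max_eq_left (by linarith : 0 ≤ t - 1 / 3)]
    rcases le_total t (2 / 3) with h' | h'
    · rw [max_eq_right (by linarith), min_eq_left (by linarith)]
      ring
    · rw [max_eq_left (by linarith), min_eq_right (by linarith)]
      ring

end Alg

variable {D : Type*} [CStarAlgebra D] [PartialOrder D] [StarOrderedRing D]
variable {m n p : Type*} [Fintype m] [DecidableEq m] [Fintype n] [DecidableEq n]
  [Fintype p] [DecidableEq p]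

lemma Dom.cls_le {X b : Matrix m m D} (hX : 0 ≤ X) (hb : 0 ≤ b) (h : Dom X b) : cls X ≤ cls b :=
  (cls_le_cls hX hb).2 (h.csub hX).msub

lemma Dom.conj (v : Matrix m n D) {X b : Matrix n n D} (h : Dom X b) :
    Dom (v * X * vᴴ) (v * b * vᴴ) := by
  obtain ⟨C, hC, h⟩ := h
  exact ⟨C, hC, by simpa only [Matrix.mul_smul, Matrix.smul_mul] using conj_le_conj v h⟩

lemma eq_zero_of_mul_conjT {S : Matrix m n D} (h : S * Sᴴ = 0) : S = 0 := by
  ext i j
  have h1 := congrFun (congrFun h i) i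
  simp only [Matrix.mul_apply, conjTranspose_apply, Matrix.zero_apply] at h1
  have h2 := (Finset.sum_eq_zero_iff_of_nonneg fun k _ => mul_star_self_nonneg (S i k)).1 h1 j
    (Finset.mem_univ j)
  exact (CStarRing.mul_star_self_eq_zero_iff _).1 h2

/-- what kills `c` kills every `S` whose range is dominated by `c` -/
lemma Dom.mul_eq_zero {S : Matrix m n D} {c : Matrix m m D} (h : Dom (S * Sᴴ) c)
    {P : Matrix p m D} (hP : P * c = 0) : P * S = 0 := by
  obtain ⟨C, -, h⟩ := h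
  have h1 := conj_le_conj P h
  rw [Matrix.mul_smul, hP, smul_zero, Matrix.zero_mul] at h1
  refine eq_zero_of_mul_conjT (le_antisymm ?_ (mul_conjT_self_nonneg _))
  simpa only [conjTranspose_mul, Matrix.mul_assoc] using h1

lemma add_conjT_mul_le (S T : Matrix n m D) :
    (S + T)ᴴ * (S + T) ≤ (2 : ℝ) • (Sᴴ * S) + (2 : ℝ) • (Tᴴ * T) := by
  refine (le_add_of_nonneg_right (conjT_mul_self_nonneg (S - T))).trans (le_of_eq ?_)
  simp only [conjTranspose_add, conjTranspose_sub, Matrix.add_mul, Matrix.mul_add, Matrix.sub_mul,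
    Matrix.mul_sub, two_smul]
  abel

lemma Dom.add_conjT_mul {S T : Matrix n m D} {b : Matrix m m D} (h1 : Dom (Sᴴ * S) b)
    (h2 : Dom (Tᴴ * T) b) : Dom ((S + T)ᴴ * (S + T)) b :=
  (Dom.of_le (add_conjT_mul_le S T)).trans ((h1.smul zero_le_two).add (h2.smul zero_le_two))

lemma Dom.add_mul_conjT {S T : Matrix m n D} {b : Matrix m m D} (h1 : Dom (S * Sᴴ) b)
    (h2 : Dom (T * Tᴴ) b) : Dom ((S + T) * (S + T)ᴴ) b := by
  have := Dom.add_conjT_mul (S := Sᴴ) (T := Tᴴ) (by simpa using h1) (by simpa using h2)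
  simpa only [← conjTranspose_add, conjTranspose_conjTranspose] using this

lemma mul_conjT_le_one {S : Matrix n m D} (h : Sᴴ * S ≤ 1) : S * Sᴴ ≤ 1 := by
  refine le_one_of_mul_self_le (mul_conjT_self_nonneg S) ?_
  simpa only [Matrix.mul_one, Matrix.mul_assoc] using conj_le_conj S h

lemma cls_cut_le_of_le {a b : Matrix m m D} (ha : IsSelfAdjoint a) (hb : 0 ≤ b) {δ ε : ℝ}
    (h : a ≤ b + δ • (1 : Matrix m m D)) (hδ : δ < ε) : cls (cut ε a) ≤ cls b :=
  (cls_le_cls (cut_nonneg _ _) hb).2 (CSub.cut_of_le ha h hδ).msub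

/-- the complement of `c` in `k` -/
lemma exists_compl_dom {k c : Matrix m m D} (hk : 0 ≤ k) (hc : 0 ≤ c) (h : Dom c k) {η : ℝ}
    (hη : 0 < η) : ∃ κ : Matrix m m D, 0 ≤ κ ∧ Dom κ k ∧ cut η c * κ = 0 ∧
      (∀ {p : Type} [Fintype p] [DecidableEq p] (y : Matrix m p D), Dom (y * yᴴ) (cut η c) →
        yᴴ * κ = 0) ∧ cls k ≤ cls κ + cls c := by
  obtain ⟨H, y, h1, h2, h3, h4, h5, h6, h7⟩ := exists_compl_dom' hk hc h hη
  have h1' : Hᴴ = H := h1
  refine ⟨H * k * H, h3, h4, ?_, fun y hy => ?_,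
    (h7.cls_le hk (add_nonneg h3 h5)).trans ((cls_add_le h3 h5).trans
      (add_le_add le_rfl (h6.cls_le h5 hc)))⟩
  · have := congrArg star h2
    rw [star_mul, h1, (IsSelfAdjoint.of_nonneg (cut_nonneg η c)).star_eq, star_zero] at this
    rw [← mul_assoc, ← mul_assoc, this, zero_mul, zero_mul]
  · have h8 := congrArg conjTranspose (hy.mul_eq_zero h2)
    rw [conjTranspose_mul, h1', conjTranspose_zero] at h8
    rw [← Matrix.mul_assoc, ← Matrix.mul_assoc, h8, Matrix.zero_mul, Matrix.zero_mul]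

lemma cls_smul {c : ℝ} (hc : 0 < c) {a : Matrix m m D} (ha : 0 ≤ a) : cls (c • a) = cls a := by
  refine cls_eq_cls (smul_nonneg hc.le ha) ha (CSub.smul hc.le a).msub ?_
  simpa [smul_smul, inv_mul_cancel₀ hc.ne'] using (CSub.smul (inv_nonneg.2 hc.le) (c • a)).msub

lemma diag_nonneg {a : Matrix m m D} (ha : 0 ≤ a) (i : m) : 0 ≤ a i i := by
  obtain ⟨s, rfl⟩ := exists_eq_conjT_mul ha
  exact Finset.sum_nonneg fun k _ => star_mul_self_nonneg (s k i)

variable (D) in
/-- tracial states -/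
structure TS where
  /-- the functional -/
  τ : D →ₗ[ℂ] ℂ
  comm : ∀ x y, τ (x * y) = τ (y * x)
  re_nonneg : ∀ x, 0 ≤ (τ (star x * x)).re
  im_zero : ∀ x, (τ (star x * x)).im = 0
  one : τ 1 = 1

/-- the real part of a tracial state -/
noncomputable def TS.re (τ : TS D) : D →ₗ[ℝ] ℝ :=
  Complex.reLm.comp (τ.τ.restrictScalars ℝ)

lemma TS.re_apply (τ : TS D) (a : D) : τ.re a = (τ.τ a).re := rfl

lemma TS.re_one (τ : TS D) : τ.re 1 = 1 := by rw [TS.re_apply, τ.one, Complex.one_re]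

lemma TS.re_nonneg' (τ : TS D) {a : D} (ha : 0 ≤ a) : 0 ≤ τ.re a := by
  obtain ⟨s, rfl⟩ := CStarAlgebra.nonneg_iff_eq_star_mul_self.1 ha
  exact τ.re_nonneg s

/-- the (unnormalized, real part of the) trace on matrices -/
noncomputable def TS.Tr (τ : TS D) : Matrix m m D →ₗ[ℝ] ℝ where
  toFun a := τ.re (∑ i, a i i)
  map_add' a b := by simp [Finset.sum_add_distrib]
  map_smul' c a := by simp [← Finset.smul_sum]

lemma TS.Tr_apply (τ : TS D) (a : Matrix m m D) : τ.Tr a = τ.re (∑ i, a i i) := rfl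

lemma TS.Tr_nonneg (τ : TS D) {a : Matrix m m D} (ha : 0 ≤ a) : 0 ≤ τ.Tr a :=
  τ.re_nonneg' (Finset.sum_nonneg fun i _ => diag_nonneg ha i)

lemma TS.Tr_mono (τ : TS D) {a b : Matrix m m D} (h : a ≤ b) : τ.Tr a ≤ τ.Tr b := by
  have := τ.Tr_nonneg (sub_nonneg.2 h)
  rwa [map_sub, sub_nonneg] at this

lemma TS.Tr_comm (τ : TS D) (x : Matrix m n D) (y : Matrix n m D) :
    τ.Tr (x * y) = τ.Tr (y * x) := by
  simp only [TS.Tr_apply, Matrix.mul_apply, map_sum, TS.re_apply]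
  rw [Finset.sum_comm]
  simp only [τ.comm (x _ _)]

lemma TS.Tr_one (τ : TS D) : τ.Tr (1 : Matrix m m D) = Fintype.card m := by
  simp only [TS.Tr_apply, one_apply_eq, map_sum, τ.re_one]
  simp

lemma TS.Tr_le_card (τ : TS D) {a : Matrix m m D} (h : a ≤ 1) : τ.Tr a ≤ Fintype.card m :=
  (τ.Tr_mono h).trans_eq τ.Tr_one

lemma TS.Tr_submatrix (τ : TS D) (a : Matrix n n D) (e : m ≃ n) :
    τ.Tr (a.submatrix e e) = τ.Tr a :=
  congrArg τ.re (Equiv.sum_comp e fun i => a i i)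

lemma TS.Tr_fromBlocks (τ : TS D) (a : Matrix m m D) (b : Matrix n n D) :
    τ.Tr (fromBlocks a 0 0 b) = τ.Tr a + τ.Tr b := by
  simp [TS.Tr_apply]

lemma TS.Tr_bd (τ : TS D) (y : n → Matrix m m D) : τ.Tr (blockDiagonal y) = ∑ j, τ.Tr (y j) := by
  simp only [TS.Tr_apply, Fintype.sum_prod_type, blockDiagonal_apply_eq, map_sum]
  exact Finset.sum_comm

lemma TS.Tr_oneBy (τ : TS D) (a : D) : τ.Tr (oneBy a) = τ.re a := by
  simp [TS.Tr_apply]

lemma TS.Tr_mul_nonneg (τ : TS D) {P Q : Matrix m m D} (hP : 0 ≤ P) (hQ : 0 ≤ Q) :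
    0 ≤ τ.Tr (P * Q) := by
  obtain ⟨s, rfl⟩ := exists_eq_conjT_mul hP
  rw [Matrix.mul_assoc, τ.Tr_comm]
  exact τ.Tr_nonneg (conj_nonneg s hQ)

lemma TS.Tr_mul_mono (τ : TS D) {P Q Q' : Matrix m m D} (hP : 0 ≤ P) (h : Q ≤ Q') :
    τ.Tr (P * Q) ≤ τ.Tr (P * Q') := by
  have := τ.Tr_mul_nonneg hP (sub_nonneg.2 h)
  rwa [mul_sub, map_sub, sub_nonneg] at this

/-- the state `s` is the dimension function of the trace `τ`, up to cut-downs -/
structure Rel (s : W D →+ ℝ) (τ : TS D) : Prop where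
  low : ∀ (k : ℕ) (a : Matrix (Fin k) (Fin k) D), 0 ≤ a → a ≤ 1 → τ.Tr a ≤ s (cls a)
  up : ∀ (k : ℕ) (a : Matrix (Fin k) (Fin k) D), 0 ≤ a → ∀ ρ ε : ℝ, 0 < ρ → ρ < ε →
    ρ * s (cls (cut ε a)) ≤ τ.Tr a

lemma Rel.low' {s : W D →+ ℝ} {τ : TS D} (h : Rel s τ) {a : Matrix m m D} (ha : 0 ≤ a)
    (ha1 : a ≤ 1) : τ.Tr a ≤ s (cls a) := by
  let e := (Fintype.equivFin m).symm
  have h1 := submatrix_nonneg (sub_nonneg.2 ha1) e
  have h2 : (1 - a).submatrix e e = 1 - a.submatrix e e := by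
    rw [← submatrix_one_equiv e]
    rfl
  have := h.low _ (a.submatrix e e) (submatrix_nonneg ha e) (sub_nonneg.1 (h2 ▸ h1))
  rwa [τ.Tr_submatrix, cls_submatrix_equiv ha] at this

lemma Rel.up' {s : W D →+ ℝ} {τ : TS D} (h : Rel s τ) {a : Matrix m m D} (ha : 0 ≤ a) {ρ ε : ℝ}
    (hρ : 0 < ρ) (hε : ρ < ε) : ρ * s (cls (cut ε a)) ≤ τ.Tr a := by
  let e := (Fintype.equivFin m).symm
  have := h.up _ (a.submatrix e e) (submatrix_nonneg ha e) ρ ε hρ hε
  rwa [τ.Tr_submatrix, cut, cfc_submatrix _ (by fun_prop) (.of_nonneg ha), ← cut,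
    cls_submatrix_equiv (cut_nonneg _ _)] at this

/-- a function that is at least one on the support of the cut-down dominates its rank -/
lemma Rel.up_cfc {s : W D →+ ℝ} {τ : TS D} (h : Rel s τ) (hs : IsState (W.u D) s)
    {a : Matrix m m D} (ha : IsSelfAdjoint a) {g : ℝ → ℝ} (hg : Continuous g) (hg0 : ∀ t, 0 ≤ g t)
    {ε : ℝ} (hg1 : ∀ t, ε < t → 1 ≤ g t) : s (cls (cut ε a)) ≤ τ.Tr (cfc g a) := by
  have h0 : 0 ≤ cfc g a := cfc_nonneg fun t _ => hg0 t
  have key : ∀ ρ : ℝ, 0 < ρ → ρ < 1 → ρ * s (cls (cut ε a)) ≤ τ.Tr (cfc g a) := fun ρ h1 h2 => by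
    refine le_trans (mul_le_mul_of_nonneg_left (hs.mono ?_) h1.le)
      (h.up' h0 h1 (show ρ < (ρ + 1) / 2 by linarith))
    rw [cls_le_cls (cut_nonneg _ _) (cut_nonneg _ _), cut, cut, ← cfc_comp' _ _ a]
    refine (CSub.cfc_supp ha (by fun_prop) (by fun_prop) (fun _ _ => le_max_right _ _)
      (fun _ _ => le_max_right _ _) fun t _ ht => ?_).msub
    refine max_eq_right (sub_nonpos.2 (le_of_not_gt fun h3 => ?_))
    linarith [hg1 t h3, max_eq_right_iff.1 ht]
  have h1 : Tendsto (fun ρ : ℝ => ρ * s (cls (cut ε a))) (𝓝[<] 1) (𝓝 (1 * s (cls (cut ε a)))) :=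
    (tendsto_nhdsWithin_of_tendsto_nhds tendsto_id).mul_const _
  rw [one_mul] at h1
  refine le_of_tendsto h1 ?_
  filter_upwards [Ioo_mem_nhdsLT one_pos] with ρ hρ using key ρ hρ.1 hρ.2

variable (D) in
/-- every state on `W(D)` comes from a trace -/
def Traces : Prop := ∀ s, IsState (W.u D) s → ∃ τ : TS D, Rel s τ

variable (D) in
/-- there are full elements of arbitrarily small rank -/
def Tiny : Prop := ∀ η : ℝ, 0 < η → ∃ w : W D, (∃ N : ℕ, W.u D ≤ N • w) ∧
  ∀ s, IsState (W.u D) s → s w < η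

variable (D) in
/-- small elements are below a fixed multiple of any element of rank more than `ε` -/
def FIN : Prop := ∀ ε : ℝ, 0 < ε → ∃ (N : ℕ) (η : ℝ), 0 < η ∧ ∀ x c : W D,
  (∀ s, IsState (W.u D) s → s x < η) → (∀ s, IsState (W.u D) s → ε < s c) → x ≤ N • c

variable (D) in
/-- comparison of ranks gives subequivalence up to an element of small rank -/
def Embed : Prop := ∀ x' x y : W D, LL x' x → (∀ s, IsState (W.u D) s → s x ≤ s y) →
  ∀ ε : ℝ, 0 < ε → ∃ κ, Solves x' x y κ ∧ ∀ s, IsState (W.u D) s → s κ < ε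

variable (D) in
/-- every class contains a class of proportional rank -/
def Shrink : Prop := ∀ e' e : W D, LL e' e → ∀ μ δ : ℝ, 0 ≤ μ → μ ≤ 1 → 0 < δ →
  ∃ w' w, LL w' w ∧ w ≤ e ∧ ∀ s, IsState (W.u D) s → μ * s e' - δ ≤ s w' ∧ s w ≤ μ * s e

end Pool.Agent.Lib.MP_f90f6c_an.H50
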