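import Pool.Agent.Lib.MP_f90f6c_an.H64Defs

/-!
Edwards' condition for finitely many classes at one state.
-/

namespace Pool.Agent.Lib.MP_f90f6c_an.H50

open Filter Topology Matrix

set_option linter.unusedSectionVars false

variable {D : Type*} [CStarAlgebra D] [PartialOrder D] [StarOrderedRing D]
variable {m n r : Type*} [Fintype m] [DecidableEq m] [Fintype n] [DecidableEq n]
  [Fintype r] [DecidableEq r]

lemma ed_lsc {s₀ q : W D →+ ℝ} (hl : Lsc s₀) (hq : Monotone (s₀ - q)) : Lsc q := fun x t ht => by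
  obtain ⟨x', h1, h2⟩ := hl x (s₀ x - q x + t) (by linarith)
  have h3 : s₀ x' - q x' ≤ s₀ x - q x := hq h1.le
  exact ⟨x', h1, by linarith⟩

lemma ed_exists {q : W D →+ ℝ} {x y : W D} {t : ℝ} (h : t < meetV q x y) :
    ∃ z, z ≤ x ∧ z ≤ y ∧ t < q z := by
  obtain ⟨_, ⟨z, h1, h2, rfl⟩, h3⟩ := exists_lt_of_lt_csSup
    (s := {v | ∃ z, z ≤ x ∧ z ≤ y ∧ v = q z}) ⟨_, 0, W.zero_le _, W.zero_le _, rfl⟩ h
  exact ⟨z, h1, h2, h3⟩

lemma ed_step {s₀ : W D →+ ℝ} (hs : Monotone s₀) (hl : Lsc s₀) {x y u : W D} {t δ₁ δ₂ δ : ℝ}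
    (hx : ∀ q : W D →+ ℝ, Monotone q → Monotone (s₀ - q) → t * q u - δ₁ ≤ q x)
    (hy : ∀ q : W D →+ ℝ, Monotone q → Monotone (s₀ - q) → t * q u - δ₂ ≤ q y) (hδ : 0 < δ) :
    ∃ z, z ≤ x ∧ z ≤ y ∧
      ∀ q : W D →+ ℝ, Monotone q → Monotone (s₀ - q) → t * q u - (δ₁ + δ₂ + δ) ≤ q z := by
  obtain ⟨z, z1, z2, hz⟩ := exists_edwards_seq hs hl x y
  have hz' : ∀ q : W D →+ ℝ, Monotone q → Monotone (s₀ - q) → ∀ r : ℝ,
      (∀ p : W D →+ ℝ, Monotone p → Monotone (q - p) → r < p y + (q - p) x) →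
        ∀ᶠ k in atTop, r < q (z k) := fun q h1 h2 =>
    hz q h1 (ed_lsc hl h2) fun w => sub_nonneg.1 (mono_nonneg h2 w)
  have k1 : ∀ q : W D →+ ℝ, Monotone q → Monotone (s₀ - q) → ∀ r : ℝ, r < meetV q x y →
      ∀ᶠ k in atTop, r < q (z k) := fun q h1 h2 r hr => hz' q h1 h2 r fun p p1 p2 => by
    obtain ⟨w, w1, w2, w3⟩ := ed_exists hr
    have a1 := p1 w2
    have a2 : q w - p w ≤ (q - p) x := p2 w1
    linarith
  obtain ⟨w, w1, w2, w3⟩ := ed_exists (sub_lt_self (meetV s₀ x y) hδ)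
  refine ⟨w, w1, w2, fun q h1 h2 => ?_⟩
  have k2 : t * q u - δ₁ - δ₂ ≤ meetV q x y := le_of_forall_lt fun r hr => by
    obtain ⟨k, hk⟩ := (hz' q h1 h2 r fun p p1 p2 => by
      have a1 := hy p p1 fun a b h => by
        have b1 : s₀ a - q a ≤ s₀ b - q b := h2 h
        have b2 : q a - p a ≤ q b - p b := p2 h
        change s₀ a - p a ≤ s₀ b - p b
        linarith
      have a2 := hx (q - p) p2 fun a b h => by
        have b1 : s₀ a - q a ≤ s₀ b - q b := h2 h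
        have b2 := p1 h
        change s₀ a - (q a - p a) ≤ s₀ b - (q b - p b)
        linarith
      rw [AddMonoidHom.sub_apply q p u] at a2
      linarith).exists
    exact hk.trans_le (le_meetV h1 (z1 k) (z2 k))
  have k3 : meetV q x y + meetV (s₀ - q) x y ≤ meetV s₀ x y := by
    refine le_of_forall_pos_le_add fun ε hε => ?_
    obtain ⟨k, a1, a2⟩ := ((k1 q h1 h2 _ (sub_lt_self _ (half_pos hε))).and
      (k1 (s₀ - q) h2 (by rwa [sub_sub_cancel]) _ (sub_lt_self _ (half_pos hε)))).exists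
    have a3 := le_meetV hs (z1 k) (z2 k)
    rw [AddMonoidHom.sub_apply] at a2
    linarith
  have k4 : s₀ w - q w ≤ meetV (s₀ - q) x y := le_meetV h2 w1 w2
  linarith

theorem exists_local_inf {s₀ : W D →+ ℝ} (hs : IsState (W.u D) s₀) (hl : Lsc s₀) {ι : Type*}
    [Fintype ι] [Nonempty ι] (x : ι → W D) {t : ℝ}
    (hx : ∀ i s, IsState (W.u D) s → t ≤ s (x i)) {δ : ℝ} (hδ : 0 < δ) :
    ∃ z, (∀ i, z ≤ x i) ∧ t - δ ≤ s₀ z := by
  classical
  have h0 : ∀ i, ∀ q : W D →+ ℝ, Monotone q → Monotone (s₀ - q) →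
      t * q (W.u D) - 0 ≤ q (x i) := fun i q h1 _ => by
    rcases exists_state_smul h1 with rfl | ⟨p0, s, h2, h3⟩
    · simp
    · rw [h3 (x i), sub_zero, mul_comm]
      exact mul_le_mul_of_nonneg_left (hx i s h2) p0.le
  have key : ∀ S : Finset ι, ∀ ε : ℝ, 0 < ε → ∃ z, (∀ i ∈ S, z ≤ x i) ∧
      ∀ q : W D →+ ℝ, Monotone q → Monotone (s₀ - q) → t * q (W.u D) - ε ≤ q z := fun S => by
    induction S using Finset.induction_on with
    | empty =>
      exact fun ε hε => ⟨x (Classical.arbitrary ι), by simp, fun q h1 h2 => by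
        linarith [h0 (Classical.arbitrary ι) q h1 h2]⟩
    | insert i S _ ih =>
      intro ε hε
      obtain ⟨z, z1, z2⟩ := ih _ (half_pos hε)
      obtain ⟨w, w1, w2, w3⟩ := ed_step hs.mono hl z2 (h0 i) (half_pos hε)
      refine ⟨w, fun j hj => ?_, fun q h1 h2 => by linarith [w3 q h1 h2]⟩
      rcases Finset.mem_insert.1 hj with rfl | hj
      · exact w2
      · exact w1.trans (z1 j hj)
  obtain ⟨z, z1, z2⟩ := key Finset.univ δ hδ
  refine ⟨z, fun i => z1 i (Finset.mem_univ i), ?_⟩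
  have := z2 s₀ hs.mono (by rw [sub_self]; exact monotone_const)
  rwa [hs.unit, mul_one] at this

end Pool.Agent.Lib.MP_f90f6c_an.H50
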