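import Pool.Agent.Lib.MP_f90f6c_an.H64Core

/-!
Consequences of the iteration in the Cuntz semigroup.
-/

namespace Pool.Agent.Lib.MP_f90f6c_an.H50

open Filter Topology Matrix

set_option linter.unusedSectionVars false

variable {D : Type*} [CStarAlgebra D] [PartialOrder D] [StarOrderedRing D]
variable {m n r : Type*} [Fintype m] [DecidableEq m] [Fintype n] [DecidableEq n]
  [Fintype r] [DecidableEq r]

lemma emb_scale {E : Type*} [CStarAlgebra E] [PartialOrder E] [StarOrderedRing E] {a : E}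
    (ha : 0 ≤ a) : ∃ c : ℝ, 0 < c ∧ c • a ≤ 1 := by
  have h0 : 0 < ‖a‖ + 1 := by positivity
  refine ⟨(‖a‖ + 1)⁻¹, inv_pos.2 h0, ?_⟩
  have h1 := (IsSelfAdjoint.of_nonneg ha).le_algebraMap_norm_self
  rw [Algebra.algebraMap_eq_smul_one] at h1
  have h2 : a ≤ (‖a‖ + 1) • (1 : E) := by
    rw [add_smul, one_smul]
    exact h1.trans (le_add_of_nonneg_right zero_le_one)
  have h3 := smul_le_smul_of_nonneg_left h2 (inv_pos.2 h0).le
  rwa [smul_smul, inv_mul_cancel₀ h0.ne', one_smul] at h3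

lemma emb_contr {x' x : W D} (h : LL x' x) :
    ∃ (k : ℕ) (a : Matrix (Fin k) (Fin k) D) (β : ℝ), 0 ≤ a ∧ a ≤ 1 ∧ 0 < β ∧
      LL x' (cls (cut (3 * β) a)) ∧ cls a ≤ x := by
  obtain ⟨k, a, ε, ha, hε, h1, h2⟩ := h
  obtain ⟨c, hc, h3⟩ := emb_scale ha
  have h4 : 0 ≤ c • a := smul_nonneg hc.le ha
  have h5 : 0 < c * ε := mul_pos hc hε
  refine ⟨k, c • a, c * ε / 6, h4, h3, by positivity,
    (LL.cut_cut h4 (η := c * ε) (by linarith)).mono ?_ le_rfl, by rwa [cls_smul hc ha]⟩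
  rwa [cut_smul hc ε (.of_nonneg ha), cls_smul hc (cut_nonneg _ _)]

lemma emb_surj (x : W D) :
    ∃ (k : ℕ) (a : Matrix (Fin k) (Fin k) D), 0 ≤ a ∧ a ≤ 1 ∧ cls a = x := by
  obtain ⟨k, a, ha, rfl⟩ := cls_surj x
  obtain ⟨c, hc, h3⟩ := emb_scale ha
  exact ⟨k, c • a, smul_nonneg hc.le ha, h3, cls_smul hc ha⟩

lemma emb_full {N : ℕ} {d : W D} (h : W.u D ≤ N • d) {s : W D →+ ℝ} (hs : IsState (W.u D) s) :
    ((N : ℝ) + 1)⁻¹ < s d := by
  have h1 := hs.mono h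
  rw [hs.unit, map_nsmul, nsmul_eq_mul] at h1
  have h2 := hs.nonneg W.zero_le d
  have h3 : 0 < s d := lt_of_le_of_ne h2 fun e => by
    rw [← e, mul_zero] at h1
    linarith
  rw [inv_lt_iff_one_lt_mul₀ (by positivity)]
  nlinarith

lemma emb_block_le_one {a : Matrix m m D} {b : Matrix n n D} (ha : a ≤ 1) (hb : b ≤ 1) :
    fromBlocks a 0 0 b ≤ 1 := by
  have h1 := fromBlocks_nonneg (sub_nonneg.2 ha) (sub_nonneg.2 hb)
  have h2 : fromBlocks (1 - a) 0 0 (1 - b) = 1 - fromBlocks a 0 0 b := by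
    rw [← fromBlocks_one, sub_eq_add_neg (fromBlocks _ _ _ _), fromBlocks_neg, fromBlocks_add]
    simp [sub_eq_add_neg]
  rwa [h2, sub_nonneg] at h1

theorem embed_of_fin (hT : Traces D) (hTi : Tiny D) (hF : FIN D) : Embed D := by
  intro x' x y hx hxy ε hε
  obtain ⟨d, ⟨N, hN⟩, hd⟩ := hTi (ε / 8) (by positivity)
  obtain ⟨k, a, β, ha, ha1, hβ, h1, h2⟩ := emb_contr hx
  obtain ⟨l, d1, hd1, hd2, rfl⟩ := emb_surj d
  obtain ⟨j, b, hb, hbe⟩ := cls_surj (y + (cls d1 + cls d1))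
  obtain ⟨η, h3, hη⟩ := ((eventually_le_nsmul_cut_add (K := 1) hd1 N (z := 0)
    (by simpa using hN)).and self_mem_nhdsWithin).exists
  have hη0 : 0 < η := hη
  rw [one_nsmul, add_zero] at h3
  have hN0 : 0 < ((N : ℝ) + 1)⁻¹ := by positivity
  have hl : ∀ τ : TS D, η / 2 * ((N : ℝ) + 1)⁻¹ ≤ τ.Tr d1 := fun τ => by
    obtain ⟨s, hs, hr⟩ := τ.exists_state
    exact (mul_le_mul_of_nonneg_left (emb_full h3 hs).le (half_pos hη0).le).trans
      (hr.up' hd1 (half_pos hη0) (half_lt_self hη0))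
  obtain ⟨z, κ, z1, z2, z3, z4⟩ := core hT hTi hF (fromBlocks_nonneg ha hd1)
    (emb_block_le_one ha1 hd2) hb hN0
    (ε₁ := min (η / 2 * ((N : ℝ) + 1)⁻¹ / 2) (β * ε / 16)) (lt_min (by positivity) (by positivity))
    hβ (fun s hs => by
      rw [cls_fromBlocks ha hd1, hbe, map_add, map_add, map_add]
      linarith [emb_full hN hs, hs.mono h2, hxy s hs])
    (fun τ => by
      rw [τ.Tr_fromBlocks]
      linarith [hl τ, τ.Tr_nonneg ha, min_le_left (η / 2 * ((N : ℝ) + 1)⁻¹ / 2) (β * ε / 16)])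
  rw [cls_fromBlocks ha hd1] at z1
  rw [cls_cut_fromBlocks _ ha hd1] at z3
  rw [hbe] at z2
  obtain ⟨z₁, κ₁, a1, a2, a3⟩ := (h1.mono le_rfl ((W.le_add_right _ _).trans z3)).split
  obtain ⟨z₂, a4, a5⟩ := a1.interp
  obtain ⟨e₁, e₂, b1, b2, -, b4, b5⟩ := a5.riesz z1
  obtain ⟨f₁, f₂, c1, c2, c3⟩ := (a4.mono le_rfl b5).split
  obtain ⟨e₃, e₄, g1, g2, -, g4, g5⟩ := c1.riesz (b1.trans z2)
  refine ⟨e₄ + f₂ + κ₁, ⟨e₃, g1.trans (b2.trans h2), g2, ?_⟩, fun s hs => ?_⟩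
  · calc x' ≤ z₁ + κ₁ := a3
      _ ≤ f₁ + f₂ + κ₁ := add_le_add c3 le_rfl
      _ ≤ e₃ + e₄ + f₂ + κ₁ := add_le_add (add_le_add g5 le_rfl) le_rfl
      _ = e₃ + (e₄ + f₂ + κ₁) := by abel
  · have i1 := hs.mono g4
    have i2 := hs.mono (c2.le.trans b4)
    have i3 := hs.mono a2.le
    have i4 : s κ ≤ ε / 4 := by
      refine le_of_mul_le_mul_left ((z4 s hs).trans ?_) hβ
      linarith [min_le_right (η / 2 * ((N : ℝ) + 1)⁻¹ / 2) (β * ε / 16)]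
    have i5 := hd s hs
    rw [map_add] at i1
    rw [map_add, map_add]
    linarith

lemma emb_layer (hTi : Tiny D) {b : D} (hb : 0 ≤ b) {ρ : ℝ} (hρ : 0 < ρ) :
    ∃ v'' v' v : W D, LL v'' v' ∧ LL v' v ∧
      ∀ s τ, IsState (W.u D) s → Rel s τ → τ.re b - ρ ≤ s v'' ∧ s v ≤ τ.re b := by
  obtain ⟨k, w, hw, h1, h2⟩ := exists_layers hTi hb hρ
  refine ⟨cls (cut (1 / 3) w), cls (cut (1 / 6) w), cls w, LL.cut_cut hw (by norm_num),
    LL.cut hw (by norm_num), fun s τ hs hr => ⟨?_, h1 s τ hs hr⟩⟩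
  refine (h2 τ).1.trans ((hr.low' (rmp_sq_nonneg w) (rmp_sq_le_one w)).trans (hs.mono ?_))
  exact (cls_le_cls (rmp_sq_nonneg w) (cut_nonneg _ _)).2 (rmp_sq_csub hw).msub

lemma emb_sub (hE : Embed D) {v'' v' v y : W D} (h1 : LL v'' v') (h2 : LL v' v)
    (h : ∀ s, IsState (W.u D) s → s v ≤ s y) {δ : ℝ} (hδ : 0 < δ) :
    ∃ z' z, LL z' z ∧ z ≤ v ∧ z ≤ y ∧ ∀ s, IsState (W.u D) s → s v'' - δ < s z' := by
  obtain ⟨κ, ⟨z, a1, a2, a3⟩, a4⟩ := hE v' v y h2 h δ hδ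
  obtain ⟨z', κ', b1, b2, b3⟩ := (h1.mono le_rfl a3).split
  refine ⟨z', z, b1, a1, a2, fun s hs => ?_⟩
  have i1 := hs.mono b3
  have i2 := hs.mono b2.le
  rw [map_add] at i1
  linarith [a4 s hs]

theorem Embed.shrink (hE : Embed D) (hT : Traces D) (hTi : Tiny D) : Shrink D := by
  intro e' e he μ δ hμ hμ1 hδ
  obtain ⟨k, c, η, hc, hη, h1, h2⟩ := he
  have q1 : Continuous fun t : ℝ => min (max t 0 / η) 1 := by fun_prop
  have q2 : ∀ t : ℝ, 0 ≤ min (max t 0 / η) 1 := fun t =>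
    le_min (div_nonneg (le_max_right _ _) hη.le) zero_le_one
  obtain ⟨g, hg⟩ : ∃ g, g = cfc (fun t : ℝ => min (max t 0 / η) 1) c := ⟨_, rfl⟩
  have g0 : 0 ≤ g := hg ▸ cfc_nonneg fun t _ => q2 t
  have g1 : g ≤ 1 := hg ▸ cfc_le_one _ _ fun t _ => min_le_right _ _
  have g2 : cls g ≤ e := by
    refine (Dom.cls_le g0 hc ?_).trans h2
    rw [hg]
    refine Dom.cfc hc q1 (inv_nonneg.2 hη.le) fun t ht => ?_
    rw [max_eq_left ht, ← div_eq_inv_mul]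
    exact min_le_left _ _
  have g3 : ∀ s τ, IsState (W.u D) s → Rel s τ → s e' ≤ τ.Tr g ∧ τ.Tr g ≤ s e :=
    fun s τ hs hr => by
      refine ⟨(hs.mono h1).trans ?_, (hr.low' g0 g1).trans (hs.mono g2)⟩
      rw [hg]
      refine hr.up_cfc hs (.of_nonneg hc) q1 q2 fun t ht => le_min ?_ le_rfl
      rw [le_div_iff₀ hη, one_mul]
      exact le_max_of_le_left ht.le
  have hb : 0 ≤ μ • ∑ i, g i i :=
    smul_nonneg hμ (Finset.sum_nonneg fun i _ => diag_nonneg g0 i)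
  have hre : ∀ τ : TS D, τ.re (μ • ∑ i, g i i) = μ * τ.Tr g := fun τ => by
    rw [map_smul, smul_eq_mul, τ.Tr_apply]
  obtain ⟨v'', v', v, a1, a2, a3⟩ := emb_layer hTi hb (half_pos hδ)
  have a4 : ∀ s, IsState (W.u D) s → μ * s e' - δ / 2 ≤ s v'' ∧ s v ≤ μ * s e := fun s hs => by
    obtain ⟨τ, hr⟩ := hT s hs
    obtain ⟨i1, i2⟩ := a3 s τ hs hr
    obtain ⟨i3, i4⟩ := g3 s τ hs hr
    rw [hre] at i1 i2
    constructor
    · linarith [mul_le_mul_of_nonneg_left i3 hμ]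
    · linarith [mul_le_mul_of_nonneg_left i4 hμ]
  obtain ⟨z', z, b1, b2, b3, b4⟩ := emb_sub hE a1 a2 (y := e) (fun s hs => (a4 s hs).2.trans
    (mul_le_of_le_one_left (hs.nonneg W.zero_le e) hμ1)) (half_pos hδ)
  refine ⟨z', z, b1, b3, fun s hs => ⟨?_, (hs.mono b2).trans (a4 s hs).2⟩⟩
  linarith [b4 s hs, (a4 s hs).1]

lemma emb_big_open {t : ℝ} {x : W D} (h : Big (W.u D) t x) :
    ∃ t', t < t' ∧ ∀ s, IsState (W.u D) s → t' ≤ s x := by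
  obtain ⟨k, l, j, h1, h2⟩ := h
  have hk : (0 : ℝ) < k + 1 := by positivity
  refine ⟨(l - j) / (k + 1), by rw [lt_div_iff₀ hk]; linarith, fun s hs => ?_⟩
  have h3 := hs.mono h1
  rw [map_add, hs.nsmul_unit, hs.nsmul_unit, map_nsmul, nsmul_eq_mul] at h3
  push_cast at h3
  rw [div_le_iff₀ hk]
  linarith

theorem Embed.hasInf (hE : Embed D) (hT : Traces D) (hTi : Tiny D) : HasInf D := by
  intro t x y hx hy
  rcases lt_or_ge t 0 with ht | ht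
  · exact ⟨0, W.zero_le _, W.zero_le _,
      big_of_states W.zero_le W.exists_le_nsmul fun s _ => by rwa [map_zero]⟩
  obtain ⟨t₁, h1, h2⟩ := emb_big_open hx
  obtain ⟨t₂, h3, h4⟩ := emb_big_open hy
  obtain ⟨t', ht'⟩ : ∃ t', t' = min t₁ t₂ := ⟨_, rfl⟩
  have h5 : t < t' := ht' ▸ lt_min h1 h3
  have h6 : t' ≤ t₁ := ht' ▸ min_le_left _ _
  have h7 : t' ≤ t₂ := ht' ▸ min_le_right _ _
  have hρ : 0 < (t' - t) / 3 := by linarith
  have hb : 0 ≤ t' • (1 : D) := smul_nonneg (ht.trans h5.le) zero_le_one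
  obtain ⟨v'', v', v, a1, a2, a3⟩ := emb_layer hTi hb hρ
  have a4 : ∀ s, IsState (W.u D) s → t' - (t' - t) / 3 ≤ s v'' ∧ s v ≤ t' := fun s hs => by
    obtain ⟨τ, hr⟩ := hT s hs
    have i1 := a3 s τ hs hr
    rwa [map_smul, τ.re_one, smul_eq_mul, mul_one] at i1
  obtain ⟨z', z, b1, b2, b3, b4⟩ := emb_sub hE a1 a2 (y := x)
    (fun s hs => (a4 s hs).2.trans (h6.trans (h2 s hs))) hρ
  obtain ⟨κ, ⟨c, c1, c2, c3⟩, c4⟩ := hE z' z y b1
    (fun s hs => (hs.mono b2).trans ((a4 s hs).2.trans (h7.trans (h4 s hs)))) _ hρ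
  refine ⟨c, c1.trans b3, c2, big_of_states W.zero_le W.exists_le_nsmul fun s hs => ?_⟩
  have i1 := hs.mono c3
  rw [map_add] at i1
  linarith [b4 s hs, c4 s hs, (a4 s hs).1]

end Pool.Agent.Lib.MP_f90f6c_an.H50
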