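import Pool.Agent.Lib.MP_f90f6c_an.H64Loc

/-!
The fixed point algebra: traces, small full elements, compression.
-/

namespace Pool.Agent.Lib.MP_f90f6c_an.H50

open Filter Topology Matrix

set_option linter.unusedSectionVars false

variable {G : Type*} [Group G] [Fintype G] [DecidableEq G] {A : Type*} [CStarAlgebra A]
  [PartialOrder A] [StarOrderedRing A] {α : G →* (A ≃⋆ₐ[ℂ] A)}

section Gen

open scoped ComplexStarModule

variable {E : Type*} [CStarAlgebra E] [PartialOrder E] [StarOrderedRing E] {τ : E → ℂ}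

lemma fix_add (hτ : IsQuasitrace τ)
    (h : ∀ a b, 0 ≤ a → 0 ≤ b → (τ (a + b)).re = (τ a).re + (τ b).re) (a b : E) :
    τ (a + b) = τ a + τ b := by
  have him : ∀ a, 0 ≤ a → (τ a).im = 0 := fun a ha => by
    obtain ⟨s, rfl⟩ := CStarAlgebra.nonneg_iff_eq_star_mul_self.1 ha
    exact hτ.im_eq_zero s
  have h1 : ∀ a b, 0 ≤ a → 0 ≤ b → τ (a + b) = τ a + τ b := fun a b ha hb =>
    Complex.ext (h a b ha hb) (by
      rw [Complex.add_im, him _ ha, him _ hb, him _ (add_nonneg ha hb), add_zero])
  have h2 : ∀ a b, IsSelfAdjoint a → IsSelfAdjoint b → τ (a + b) = τ a + τ b := by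
    intro a b ha hb
    have hs : ∀ c : ℝ, IsSelfAdjoint (c • (1 : E)) := fun c => (IsSelfAdjoint.all c).smul (.one E)
    have hc : ∀ (c : ℝ) (x : E), Commute x (c • (1 : E)) := fun c x =>
      (Commute.one_right _).smul_right c
    have hp : ∀ x : E, IsSelfAdjoint x → 0 ≤ x + ‖x‖ • (1 : E) := fun x hx => by
      have := hx.neg_algebraMap_norm_le_self
      rwa [Algebra.algebraMap_eq_smul_one, neg_le_iff_add_nonneg] at this
    have e := h1 _ _ (hp a ha) (hp b hb)
    rw [add_add_add_comm, hτ.add_comm (ha.add hb) ((hs _).add (hs _))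
      ((hc _ _).add_right (hc _ _)), hτ.add_comm ha (hs _) (hc _ _),
      hτ.add_comm hb (hs _) (hc _ _), hτ.add_comm (hs _) (hs _) (hc _ _)] at e
    linear_combination e
  rw [← realPart_add_I_smul_imaginaryPart a, ← realPart_add_I_smul_imaginaryPart b,
    add_add_add_comm, ← smul_add, hτ.re_add_im _ _ ((ℜ a).2.add (ℜ b).2) ((ℑ a).2.add (ℑ b).2),
    hτ.re_add_im _ _ (ℜ a).2 (ℑ a).2, hτ.re_add_im _ _ (ℜ b).2 (ℑ b).2,
    h2 _ _ (ℜ a).2 (ℜ b).2, h2 _ _ (ℑ a).2 (ℑ b).2]
  ring

lemma fix_step (hτ : IsQuasitrace τ) (a : E) (j : ℕ) :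
    (τ (cfc (fun t : ℝ => min (max t 0) (j + 1 : ℕ)) a)).re =
      (τ (cfc (fun t : ℝ => min (max t 0) j) a)).re +
        (τ (cfc (fun t : ℝ => min (max (t - j) 0) 1) a)).re := by
  rw [← Complex.add_re, ← hτ.add_comm (cfc_sa _ _) (cfc_sa _ _) (cfc_commute_cfc _ _ _),
    ← cfc_add a _ _ (by fun_prop) (by fun_prop)]
  congr 2
  refine cfc_congr fun t _ => ?_
  have : (0 : ℝ) ≤ j := Nat.cast_nonneg j
  push_cast
  simp only [min_def, max_def]
  split_ifs <;> linarith

lemma fix_zero (hτ : IsQuasitrace τ) (a : E) : (τ (cfc (fun _ : ℝ => (0 : ℝ)) a)).re = 0 := by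
  have := hτ.re_smul (.one E) 0
  rw [zero_smul, zero_mul] at this
  rw [cfc_const_zero, this]

lemma fix_test : IsTest fun t => min (max t 0) 1 :=
  ⟨by fun_prop, fun _ => le_min (le_max_right _ _) zero_le_one, fun _ => min_le_right _ _, by simp⟩

end Gen

section Lay

variable {D : Type*} [CStarAlgebra D] [PartialOrder D] [StarOrderedRing D] {k : ℕ}

/-- the sum of the layers of `a` -/
noncomputable def fix_lay (r : ℝ) (J : ℕ) (a : Matrix (Fin k) (Fin k) D) : W D :=
  ∑ j ∈ Finset.range J, cls (cut (j + 1 + r) a)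

lemma fix_lay_LL {a : Matrix (Fin k) (Fin k) D} (ha : 0 ≤ a) {r r' : ℝ} (h : r < r') (J : ℕ) :
    LL (fix_lay r' J a) (fix_lay r J a) := by
  induction J with
  | zero => exact LL.zero _
  | succ J ih =>
    rw [fix_lay, fix_lay, Finset.sum_range_succ, Finset.sum_range_succ]
    exact ih.add (LL.cut_cut ha (by linarith))

variable {s : W D →+ ℝ} {t : QT D}
  (H : ∀ (k : ℕ) (a : Matrix (Fin k) (Fin k) D), 0 ≤ a →
    dimS (t.tm k) a ≤ s (cls a) ∧ ∀ x, LL x (cls a) → s x ≤ dimS (t.tm k) a)
include H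

lemma fix_up {a : Matrix (Fin k) (Fin k) D} (ha : 0 ≤ a) {r : ℝ} (hr : 0 < r) (J : ℕ) :
    s (fix_lay r J a) ≤ (t.tm k a).re := by
  have key : s (fix_lay r J a) ≤ (t.tm k (cfc (fun t : ℝ => min (max t 0) J) a)).re := by
    induction J with
    | zero => simp [fix_lay, fix_zero (t.isQ k) a, -cfc_const_zero]
    | succ J ih =>
      rw [fix_lay, Finset.sum_range_succ, map_add, fix_step (t.isQ k)]
      refine add_le_add ih (((H k _ (cut_nonneg (J + 1) a)).2 _
        (LL.cut_cut ha (by linarith))).trans (dimS_le fun f hf => ?_))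
      rw [cut, ← cfc_comp' _ _ a hf.cont.continuousOn]
      have := (t.isQ k).cfc_le ha (f := fun x => f (max (x - (J + 1)) 0))
        (g := fun x => min (max (x - J) 0) 1) (hf.cont.comp (by fun_prop)) (by fun_prop) (c := 0)
        fun x _ => by
          rcases le_total x (J + 1) with h | h
          · rw [max_eq_right (by linarith), hf.zero, add_zero]
            exact fix_test.nonneg _
          · rw [min_eq_right (le_max_of_le_left (by linarith)), add_zero]
            exact hf.le_one _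
      simpa using this
  have := (t.isQ k).cfc_le ha (f := fun x => min (max x 0) J) (g := fun x => x) (by fun_prop)
    (by fun_prop) (c := 0) fun x hx => by
      rw [max_eq_left (spectrum_nonneg_of_nonneg ha hx), add_zero]
      exact min_le_left _ _
  rw [cfc_id' ℝ a, zero_mul, add_zero] at this
  exact key.trans this

lemma fix_low (hs : IsState (W.u D) s) {a : Matrix (Fin k) (Fin k) D} (ha : 0 ≤ a) {r : ℝ}
    (hr : r ≤ 1) {J : ℕ} (hJ : ‖a‖ ≤ J) : (t.tm k a).re ≤ s (fix_lay r J a) + 2 * k := by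
  have h1 : (t.tm k 1).re ≤ k := by
    have := ((t.isQ k).le_dimS mone_nonneg fix_test).trans (H k 1 mone_nonneg).1
    rw [cls_one, hs.nsmul_unit, cfc_apply_one] at this
    simpa using this
  have key : ∀ J : ℕ, (t.tm k (cfc (fun t : ℝ => min (max t 0) (J + 2 : ℕ)) a)).re ≤
      s (fix_lay r J a) + 2 * k := fun J => by
    induction J with
    | zero =>
      have := (t.isQ k).cfc_le ha (f := fun t : ℝ => min (max t 0) (0 + 2 : ℕ)) (g := fun _ => 0)
        (by fun_prop) (by fun_prop) (c := 2) fun x _ => by simp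
      rw [fix_zero (t.isQ k)] at this
      simp only [fix_lay, Finset.range_zero, Finset.sum_empty, map_zero]
      linarith
    | succ J ih =>
      rw [fix_lay, Finset.sum_range_succ, map_add, add_right_comm J 1 2, fix_step (t.isQ k),
        add_right_comm]
      refine add_le_add ih (le_trans ?_ (((t.isQ k).le_dimS (cut_nonneg _ _) fix_test).trans
        (H k _ (cut_nonneg _ _)).1))
      rw [cut, ← cfc_comp' _ _ a]
      have := (t.isQ k).cfc_le ha (f := fun x => min (max (x - (J + 2 : ℕ)) 0) 1)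
        (g := fun x => min (max (max (x - (J + 1 + r)) 0) 0) 1) (by fun_prop) (by fun_prop) (c := 0)
        fun x _ => by
          rw [add_zero]
          refine min_le_min_right _ (max_le_max_right _ (le_max_of_le_left ?_))
          push_cast
          linarith
      simpa only [zero_mul, add_zero] using this
  have := (t.isQ k).cfc_le ha (f := fun x => x) (g := fun x => min (max x 0) (J + 2 : ℕ))
    (by fun_prop) (by fun_prop) (c := 0) fun x hx => by
      rw [add_zero]
      refine le_min (le_max_left _ _) ?_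
      have := (abs_le.1 (abs_le_norm_of_mem hx)).2
      push_cast
      linarith
  rw [cfc_id' ℝ a, zero_mul, add_zero] at this
  exact this.trans (key J)

end Lay

lemma fix_inW {k : ℕ} {a : Matrix (Fin k) (Fin k) (fixedAlg α)} (ha : 0 ≤ a) (r : ℝ) (J : ℕ) :
    inW α (fix_lay r J a) = fix_lay r J (a.map (fixedAlg α).subtype) := by
  simp only [fix_lay, map_sum]
  refine Finset.sum_congr rfl fun j _ => ?_
  rw [← map_cut _ _ (.of_nonneg ha)]
  exact Wmap1_cls _ (cut_nonneg _ _)

theorem QTAreTraces.fixed (h : QTAreTraces A) (hA : IsSimple A) (hinf : ¬FiniteDimensional ℂ A)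
    (hα : WeakTracialRokhlin α) : QTAreTraces (fixedAlg α) := by
  intro t k
  suffices hre : ∀ a b : Matrix (Fin k) (Fin k) (fixedAlg α), 0 ≤ a → 0 ≤ b →
      (t.tm k (a + b)).re = (t.tm k a).re + (t.tm k b).re from fix_add (t.isQ k) hre
  obtain ⟨σ, hσ, hσt⟩ := t.exists_state
  have H : ∀ (k : ℕ) (a : Matrix (Fin k) (Fin k) (fixedAlg α)), 0 ≤ a →
      dimS (t.tm k) a ≤ σ (cls a) ∧ ∀ x, LL x (cls a) → σ x ≤ dimS (t.tm k) a := fun k a ha => by
    rw [← t.d_eq ha, ← hσt k a ha]
    exact ⟨le_rfl, fun x hx => hσ.mono hx.le⟩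
  have key : ∀ a b : Matrix (Fin k) (Fin k) (fixedAlg α), 0 ≤ a → 0 ≤ b →
      |(t.tm k (a + b)).re - ((t.tm k a).re + (t.tm k b).re)| ≤ 6 * k + 1 := by
    intro a b ha hb
    have hab := add_nonneg ha hb
    have p : ∀ {x : Matrix (Fin k) (Fin k) (fixedAlg α)}, 0 ≤ x →
        0 ≤ x.map (fixedAlg α).subtype := fun hx =>
      map_nonneg' (fixedAlg α).subtype.toNonUnitalStarAlgHom hx
    have e : (a + b).map (fixedAlg α).subtype =
        a.map (fixedAlg α).subtype + b.map (fixedAlg α).subtype := rfl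
    obtain ⟨J, hJ⟩ := exists_nat_ge (‖a‖ + ‖b‖ + ‖a.map (fixedAlg α).subtype‖ +
      ‖b.map (fixedAlg α).subtype‖)
    have n1 := norm_nonneg a
    have n2 := norm_nonneg b
    have n3 := norm_nonneg (a.map (fixedAlg α).subtype)
    have n4 := norm_nonneg (b.map (fixedAlg α).subtype)
    have n5 := norm_add_le a b
    have n6 := norm_add_le (a.map (fixedAlg α).subtype) (b.map (fixedAlg α).subtype)
    have h1 := transfer_le hA hinf hα (fix_lay_LL hab (show (1 / 2 : ℝ) < 1 by norm_num) J)
      (y := fix_lay 1 J a + fix_lay 1 J b) (θ := 4 * k) (lt_add_one _) (fun s hs => by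
        obtain ⟨u, hu⟩ := hs.exists_qt_LL
        have q1 := fix_up hu (p hab) one_half_pos J
        have q2 := fix_low hu hs (p ha) le_rfl (J := J) (by linarith)
        have q3 := fix_low hu hs (p hb) le_rfl (J := J) (by linarith)
        have q4 : u.tm k ((a + b).map (fixedAlg α).subtype) = u.tm k (a.map (fixedAlg α).subtype) +
          u.tm k (b.map (fixedAlg α).subtype) := h u k _ _
        rw [map_add, map_add, fix_inW hab, fix_inW ha, fix_inW hb]
        rw [q4, Complex.add_re] at q1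
        linarith) hσ
    have h2 := transfer_le hA hinf hα ((fix_lay_LL ha (show (1 / 2 : ℝ) < 1 by norm_num) J).add
      (fix_lay_LL hb (show (1 / 2 : ℝ) < 1 by norm_num) J))
      (y := fix_lay 1 J (a + b)) (θ := 2 * k) (lt_add_one _) (fun s hs => by
        obtain ⟨u, hu⟩ := hs.exists_qt_LL
        have q1 := fix_low hu hs (p hab) le_rfl (J := J) (by rw [e]; linarith)
        have q2 := fix_up hu (p ha) one_half_pos J
        have q3 := fix_up hu (p hb) one_half_pos J
        have q4 : u.tm k ((a + b).map (fixedAlg α).subtype) = u.tm k (a.map (fixedAlg α).subtype) +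
          u.tm k (b.map (fixedAlg α).subtype) := h u k _ _
        rw [map_add, map_add, fix_inW hab, fix_inW ha, fix_inW hb]
        rw [q4, Complex.add_re] at q1
        linarith) hσ
    rw [map_add] at h1 h2
    have q1 := fix_up H hab one_pos J
    have q2 := fix_up H ha one_pos J
    have q3 := fix_up H hb one_pos J
    have q4 := fix_low H hσ hab le_rfl (J := J) (by linarith)
    have q5 := fix_low H hσ ha le_rfl (J := J) (by linarith)
    have q6 := fix_low H hσ hb le_rfl (J := J) (by linarith)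
    rw [abs_le]
    constructor <;> linarith
  intro a b ha hb
  by_contra hne
  have h0 := abs_pos.2 (sub_ne_zero.2 hne)
  obtain ⟨c, hc⟩ : ∃ c : ℝ, c = (6 * k + 2) /
    |(t.tm k (a + b)).re - ((t.tm k a).re + (t.tm k b).re)| := ⟨_, rfl⟩
  have hc0 : 0 ≤ c := hc ▸ by positivity
  have h1 := key _ _ (smul_nonneg hc0 ha) (smul_nonneg hc0 hb)
  rw [← smul_add, (t.isQ k).re_smul (.of_nonneg ha), (t.isQ k).re_smul (.of_nonneg hb),
    (t.isQ k).re_smul (.of_nonneg (add_nonneg ha hb)), ← mul_add, ← mul_sub, abs_mul,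
    abs_of_nonneg hc0, hc, div_mul_cancel₀ _ h0.ne'] at h1
  linarith

lemma fix_full (hA : IsSimple A) {x : A} (hx : 0 ≤ x) (hx' : ‖x‖ = 1) :
    ∃ N : ℕ, W.u A ≤ N • cls1 x := by
  obtain ⟨ι, _, a, ha⟩ := hA.exists_sum_star hx (fun h => by simp [h] at hx')
  refine ⟨Fintype.card ι, ?_⟩
  rw [W.u, ← ha, ← Finset.card_univ, ← Finset.sum_const]
  exact (cls1_sum_le _ fun i => star_right_conjugate_nonneg hx _).trans
    (Finset.sum_le_sum fun i _ => cls1_le (star_right_conjugate_nonneg hx _) hx (CSub.conj _ _))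

lemma fix_lt {D : Type*} [CStarAlgebra D] [PartialOrder D] [StarOrderedRing D] (N : ℕ) {η : ℝ}
    (hη : 0 < η) : ∃ M : ℕ, ∀ w : W D, M • w ≤ N • W.u D → ∀ s, IsState (W.u D) s → s w < η := by
  obtain ⟨M, hM⟩ := exists_nat_gt (N / η)
  refine ⟨M, fun w hw s hs => ?_⟩
  have h1 := hs.mono hw
  rw [hs.nsmul_unit, map_nsmul, nsmul_eq_mul] at h1
  rw [div_lt_iff₀ hη] at hM
  exact lt_of_mul_lt_mul_left (h1.trans_lt hM) (Nat.cast_nonneg M)

theorem IsSimple.tiny (hA : IsSimple A) (hinf : ¬FiniteDimensional ℂ A) : Tiny A := by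
  intro η hη
  obtain ⟨M, hM⟩ := fix_lt (D := A) 1 hη
  obtain ⟨x, hx, hx', h⟩ := hA.exists_small hinf M
  exact ⟨cls1 x, fix_full hA hx hx', hM _ (by rwa [one_nsmul])⟩

theorem tiny_fixed (hA : IsSimple A) (hinf : ¬FiniteDimensional ℂ A) (hα : WeakTracialRokhlin α) :
    Tiny (fixedAlg α) := by
  classical
  obtain ⟨ι, _, u, hu⟩ := exists_frame hA hα
  have key : ∀ c, ∑ k, u k * avg α (star (u k) * c) = c := fun c => by
    simp only [coe_avg, map_mul, Finset.mul_sum, ← mul_assoc]
    rw [Finset.sum_comm]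
    simp [← Finset.sum_mul, hu]
  let φ : A →⋆ₙₐ[ℂ] Matrix ι ι (fixedAlg α) :=
    { toFun := fun a => Matrix.of fun i j => avg α (star (u i) * a * u j)
      map_smul' := fun c a => by
        ext i j
        simp [coe_avg, Finset.smul_sum]
      map_zero' := by
        ext i j
        simp
      map_add' := fun a b => by
        ext i j
        simp [mul_add, add_mul]
      map_mul' := fun a b => by
        ext i j : 2
        simp only [of_apply, Matrix.mul_apply, ← avg_mul, ← map_sum, mul_assoc, ← Finset.mul_sum,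
          key]
      map_star' := fun a => by
        ext i j : 2
        simp [← avg_star, mul_assoc] }
  have h1 : ∀ z : fixedAlg α, 0 ≤ z → cls1 z ≤ cls (φ z) := fun z hz => by
    have hz' : 0 ≤ (z : A) := hz
    have h2 := cls_conj_le (Matrix.of fun (_ : Unit) i => avg α (u i)) (map_nonneg φ hz')
    have h3 : ∑ k, (avg α (u k) : A) * star (u k) = 1 := by
      simpa [star_sum, avg_star] using congrArg star (key 1)
    have h4 : (Matrix.of fun (_ : Unit) i => avg α (u i)) * φ z *
        (Matrix.of fun (_ : Unit) i => avg α (u i))ᴴ = oneBy ((Fintype.card G : ℝ) • z) := by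
      ext i j : 2
      have h6 : ∀ i j, φ z i j = avg α (star (u i) * z * u j) := fun _ _ => rfl
      simp only [Matrix.mul_apply, of_apply, conjTranspose_apply, h6, ← mul_avg, ← map_sum,
        ← mul_assoc, ← Finset.sum_mul, h3, one_mul, ← avg_star, oneBy_apply]
      simp only [mul_avg, MulMemClass.coe_mul, mul_assoc, ← Finset.mul_sum, h3, mul_one]
      simp [coe_avg, z.2 _, Nat.cast_smul_eq_nsmul]
    rw [h4] at h2
    have hn : (0 : ℝ) < Fintype.card G := Nat.cast_pos.2 Fintype.card_pos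
    refine (cls1_le hz (smul_nonneg hn.le hz) ?_).trans h2
    simpa [smul_smul, inv_mul_cancel₀ hn.ne'] using
      CSub.smul (inv_nonneg.2 hn.le) ((Fintype.card G : ℝ) • z)
  have h2 : Wmap φ (W.u A) = cls (φ 1) := Wmap_cls1 φ zero_le_one
  intro η hη
  obtain ⟨M, hM⟩ := fix_lt (D := fixedAlg α) (Fintype.card ι) hη
  obtain ⟨x, hx, hx', h⟩ := hA.exists_small hinf M
  obtain ⟨N, hN⟩ := fix_full hA hx hx'
  refine ⟨Wmap φ (cls1 x), ⟨N, ?_⟩, hM _ ?_⟩
  · rw [← map_nsmul]
    exact (h1 1 zero_le_one).trans (h2.ge.trans (Wmap_mono φ hN))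
  · rw [← map_nsmul]
    exact (Wmap_mono φ h).trans (h2.le.trans (cls_le_card (map_nonneg φ zero_le_one)))

theorem compress' {x y : W (fixedAlg α)} (h : Wmap1 (psiD α) x ≤ Wmap1 (psiD α) y) : x ≤ y := by
  obtain ⟨k, x, hx, rfl⟩ := cls_surj x
  obtain ⟨m, y, hy, rfl⟩ := cls_surj y
  rw [Wmap1_cls _ hx, Wmap1_cls _ hy, cls_le_cls (map_nonneg' _ hx) (map_nonneg' _ hy)] at h
  rw [cls_le_cls hx hy]
  let F : crossed α →+ fixedAlg α :=
    { toFun := fun X => (Fintype.card G : ℂ)⁻¹ • avg α (rowSum X)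
      map_zero' := by simp [rowSum]
      map_add' := fun X Y => by simp [rowSum, Finset.sum_add_distrib] }
  have hF : ∀ X, (F X : A) = (Fintype.card G : ℂ)⁻¹ • ∑ g, α g (rowSum X) := fun X => rfl
  have hc : Continuous F := by
    refine continuous_induced_rng.2 ?_
    simp only [Function.comp_def, hF, rowSum]
    exact (continuous_finsetSum _ fun g _ => (StarAlgEquiv.isometry (α g)).continuous.comp
      (continuous_finsetSum _ fun h _ => continuous_ent 1 h)).const_smul _
  have h0 : ∀ X Y b, F (X * psiD α b * star Y) = F X * b * star (F Y) := fun X Y b => by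
    have e : rowSum (X * psiD α b * star Y) = rowSum X * (b * star (F Y) : fixedAlg α) := by
      rw [rowSum]
      simp only [ent_conj_psiD, inv_one, act_one, ← Finset.smul_sum, ← Finset.mul_sum, ← star_sum,
        MulMemClass.coe_mul, StarMemClass.coe_star, hF, star_smul, mul_smul_comm]
      rw [Fintype.sum_equiv (Equiv.inv G) (fun h => α h⁻¹ (rowSum Y)) (fun h => α h (rowSum Y))
        fun _ => rfl]
      simp [mul_assoc]
    change (Fintype.card G : ℂ)⁻¹ • avg α _ = (Fintype.card G : ℂ)⁻¹ • avg α _ * b * _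
    rw [e, avg_mul, mul_assoc, smul_mul_assoc]
  have h1 := map_mem_closure (f := fun X : Matrix (Fin k) (Fin k) (crossed α) => X.map F)
    (t := {x | ∃ v : Matrix (Fin k) (Fin m) (fixedAlg α), x = v * y * vᴴ})
    (continuous_id.matrix_map hc) h (by
      rintro _ ⟨v, rfl⟩
      refine ⟨v.map F, ?_⟩
      ext i j : 2
      simp only [map_apply, Matrix.mul_apply, conjTranspose_apply, map_sum, Finset.sum_mul, h0])
  have h2 : (x.map (psiD α)).map F = x := by
    ext i j
    have : ∀ g, ent α 1 g (psiD α (x i j)) = (Fintype.card G : ℂ)⁻¹ • (x i j : A) :=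
      ent_piD_mul_proj _ 1
    simp only [map_apply, hF, rowSum, this, Finset.sum_const, Finset.card_univ,
      ← Nat.cast_smul_eq_nsmul ℂ, smul_smul, mul_inv_cancel₀ (card_ne (G := G)), one_smul,
      (x i j).2 _, inv_mul_cancel₀ (card_ne (G := G))]
  rw [h2] at h1
  exact h1

end Pool.Agent.Lib.MP_f90f6c_an.H50
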