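import Pool.Agent.Lib.MP_f90f6c_an.H64Defs

/-!
Invariant elements: transfer of rank inequalities, invariant Riesz decomposition, towers.
-/

namespace Pool.Agent.Lib.MP_f90f6c_an.H50

open Filter Topology Matrix

set_option linter.unusedSectionVars false

lemma loc_alg {E : Type*} [CStarAlgebra E] [PartialOrder E] [StarOrderedRing E] {a G : E}
    (ha : 0 ≤ a) (hG : 0 ≤ G) {η : ℝ} (hη : 0 < η) :
    ∃ h y : E, star h = h ∧ h * G * h ≤ η • (1 : E) ∧ 0 ≤ y ∧ Dom y G ∧
      a ≤ (2 : ℝ) • (h * a * h) + (2 : ℝ) • y := by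
  have q1 : Continuous fun t : ℝ => min (max t 0 / η) 1 := by fun_prop
  have q2 : Continuous fun t : ℝ => 1 - min (max t 0 / η) 1 := by fun_prop
  have q3 : Continuous fun t : ℝ => (1 - min (max t 0 / η) 1) * t := by fun_prop
  obtain ⟨K, hK⟩ : ∃ K : E, K = cfc (fun t : ℝ => min (max t 0 / η) 1) G := ⟨_, rfl⟩
  have hKs : star K = K := by rw [hK]; exact star_cfc _ _
  have e1 : 1 - K = cfc (fun t : ℝ => 1 - min (max t 0 / η) 1) G := by
    rw [cfc_sub _ _ _ (by fun_prop) q1.continuousOn, cfc_const_one ℝ G, hK]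
  refine ⟨1 - K, K * a * K, by simp [hKs], ?_,
    by simpa [hKs] using star_left_conjugate_nonneg ha K, ?_, ?_⟩
  · rw [e1, cfc_mul_id q2 (.of_nonneg hG), cfc_mul_cfc q3 q2,
      ← Algebra.algebraMap_eq_smul_one, ← cfc_const η G]
    refine cfc_mono (fun t ht => ?_) (by fun_prop) (by fun_prop)
    have h0 := spectrum_nonneg_of_nonneg hG ht
    simp only [max_eq_left h0]
    rcases le_total t η with h | h
    · have h2 : 0 ≤ min (t / η) 1 := le_min (by positivity) zero_le_one
      have h3 := min_le_right (t / η) 1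
      have h4 : (1 - min (t / η) 1) * (1 - min (t / η) 1) ≤ 1 := by nlinarith
      nlinarith
    · rw [min_eq_right (by rwa [le_div_iff₀ hη, one_mul])]
      simpa using hη.le
  · have h1 := star_left_conjugate_le_conjugate
      (IsSelfAdjoint.of_nonneg ha).le_algebraMap_norm_self K
    rw [hKs, Algebra.algebraMap_eq_smul_one, mul_smul_comm, mul_one, smul_mul_assoc] at h1
    refine Dom.trans ⟨_, norm_nonneg _, h1⟩ ?_
    rw [hK, cfc_mul_cfc q1 q1]
    refine Dom.cfc hG (q1.mul q1) (inv_nonneg.2 hη.le) fun t ht => ?_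
    rw [max_eq_left ht, ← div_eq_inv_mul]
    have h2 := min_le_left (t / η) 1
    have h3 := min_le_right (t / η) 1
    have h4 : 0 ≤ min (t / η) 1 := le_min (by positivity) zero_le_one
    nlinarith
  · have h2 : 0 ≤ (K - (1 - K)) * a * (K - (1 - K)) := by
      simpa [hKs] using star_left_conjugate_nonneg ha (K - (1 - K))
    refine (le_add_of_nonneg_right h2).trans (le_of_eq ?_)
    simp only [two_smul]
    noncomm_ring

lemma loc_alg2 {E : Type*} [CStarAlgebra E] [PartialOrder E] [StarOrderedRing E] {a X y : E}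
    (hX : IsSelfAdjoint X) (h : a ≤ (2 : ℝ) • X + (2 : ℝ) • y) (δ : ℝ) :
    a ≤ ((2 : ℝ) • cut δ X + (2 : ℝ) • y) + (2 * δ) • (1 : E) := by
  refine h.trans ?_
  have h1 := smul_le_smul_of_nonneg_left (le_cut_add hX δ) (zero_le_two (α := ℝ))
  rw [smul_add, smul_smul] at h1
  rw [add_right_comm]
  exact add_le_add h1 le_rfl

variable {G : Type*} [Group G] [Fintype G] [DecidableEq G] {A : Type*} [CStarAlgebra A]
  [PartialOrder A] [StarOrderedRing A] {α : G →* (A ≃⋆ₐ[ℂ] A)}

theorem transfer_le (hA : IsSimple A) (hinf : ¬FiniteDimensional ℂ A) (hα : WeakTracialRokhlin α)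
    {x' x y : W (fixedAlg α)} (h : LL x' x) {θ θ' : ℝ} (hθ : θ < θ')
    (hxy : ∀ s, IsState (W.u A) s → s (inW α x) ≤ s (inW α y) + θ)
    {σ : W (fixedAlg α) →+ ℝ} (hσ : IsState (W.u _) σ) : σ x' < σ y + θ' := by
  obtain ⟨k, hk⟩ := x.exists_le_nsmul
  obtain ⟨d, d1, d2⟩ := h.compl hk
  have d3 := Wmap1_mono (fixedAlg α).subtype.toNonUnitalStarAlgHom d2
  rw [map_nsmul, Wmap1_u _ (map_one (fixedAlg α).subtype), map_add] at d3
  have d4 := big_fixed hA hinf hα (show k - θ' < k - (θ + θ') / 2 by linarith) (y := y + d)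
    (big_of_states W.zero_le W.exists_le_nsmul fun s hs => by
      have := hs.mono d3
      rw [map_add, hs.nsmul_unit] at this
      rw [map_add, map_add]
      linarith [hxy s hs]) hσ
  have d5 := hσ.mono d1
  rw [map_add, hσ.nsmul_unit] at d5
  rw [map_add] at d4
  linarith

variable {m : Type*} [Fintype m] [DecidableEq m]

lemma loc_avg_map (p : Matrix m m A) :
    (p.map (avg α)).map (fixedAlg α).subtype = ∑ g, p.map (α g) := by
  ext i j
  simp [coe_avg, Matrix.sum_apply]

lemma loc_avg_nonneg {p : Matrix m m A} (hp : 0 ≤ p) : 0 ≤ p.map (avg α) :=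
  nonneg_of_map_nonneg (mapHom (fixedAlg α).subtype) (mapHom_injective _ Subtype.val_injective)
    (le_of_le_of_eq (Finset.sum_nonneg fun g _ => map_act_nonneg g hp) (loc_avg_map p).symm)

lemma loc_le_avg {p : Matrix m m A} (hp : 0 ≤ p) (g : G) :
    p.map (α g) ≤ (p.map (avg α)).map (fixedAlg α).subtype := by
  rw [loc_avg_map]
  exact Finset.single_le_sum (fun g _ => map_act_nonneg (α := α) g hp) (Finset.mem_univ g)

lemma loc_inW_cls {q : Matrix m m (fixedAlg α)} (hq : 0 ≤ q) :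
    inW α (cls q) = cls (q.map (fixedAlg α).subtype) := Wmap1_cls _ hq

lemma loc_inW_cut {q : Matrix m m (fixedAlg α)} (hq : 0 ≤ q) (δ : ℝ) :
    inW α (cls (cut δ q)) = cls (cut δ (q.map (fixedAlg α).subtype)) :=
  (loc_inW_cls (cut_nonneg δ q)).trans
    (congrArg cls (map_cut (fixedAlg α).subtype δ (.of_nonneg hq)))

lemma loc_inW_avg {p : Matrix m m A} (hp : 0 ≤ p) :
    inW α (cls (p.map (avg α))) ≤ ∑ g, actW α g (cls p) := by
  rw [loc_inW_cls (loc_avg_nonneg hp), loc_avg_map]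
  refine (cls_sum_le _ fun g => map_act_nonneg g hp).trans (le_of_eq ?_)
  exact Finset.sum_congr rfl fun g _ => (actW_cls g hp).symm

lemma loc_actW_mono (g : G) : Monotone (actW α g) := Wmap1_mono _

theorem inv_riesz {w' w : W (fixedAlg α)} (h : LL w' w) {v d : W A} (hw : inW α w ≤ v + d) :
    ∃ e g : W (fixedAlg α), inW α e ≤ d ∧ e ≤ w ∧ w' ≤ e + g ∧ inW α g ≤ ∑ s, actW α s v := by
  obtain ⟨k, a, ε, ha, hε, h1, h2⟩ := h
  obtain ⟨l, b, hb, rfl⟩ := cls_surj v
  obtain ⟨l', c, hc, rfl⟩ := cls_surj d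
  have ha' : 0 ≤ a.map (fixedAlg α).subtype := map_nonneg (mapHom (fixedAlg α).subtype) ha
  have h3 := (Wmap1_mono (fixedAlg α).subtype.toNonUnitalStarAlgHom h2).trans hw
  rw [loc_inW_cls ha, ← cls_fromBlocks hb hc, cls_le_cls ha' (fromBlocks_nonneg hb hc)] at h3
  obtain ⟨V, hV⟩ := h3.exists_conj (.of_nonneg ha') (fromBlocks_nonneg hb hc) (half_pos hε)
  rw [← fromCols_toCols V, fromCols_mul_fromBlocks,
    conjTranspose_fromCols_eq_fromRows_conjTranspose, fromCols_mul_fromRows,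
    ← map_cut (fixedAlg α).subtype (ε / 2) (.of_nonneg ha)] at hV
  simp only [Matrix.mul_zero, add_zero, zero_add] at hV
  have p1 := conj_nonneg V.toCols₁ hb
  have p2 := conj_nonneg V.toCols₂ hc
  have c1 := cls_conj_le V.toCols₁ hb
  have c2 := cls_conj_le V.toCols₂ hc
  generalize V.toCols₁ * b * V.toCols₁ᴴ = P at hV p1 c1
  generalize V.toCols₂ * c * V.toCols₂ᴴ = Q at hV p2 c2
  have a0 := cut_nonneg (ε / 2) a
  obtain ⟨H, y, hH, q1, q2, q3, q4⟩ := loc_alg a0 (loc_avg_nonneg (α := α) p1)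
    (show 0 < ε / 16 by positivity)
  have x0 : 0 ≤ H * cut (ε / 2) a * H := by
    have := star_left_conjugate_nonneg a0 H
    rwa [hH] at this
  refine ⟨cls (cut (ε / 8) (H * cut (ε / 2) a * H)), cls (P.map (avg α)), ?_, ?_, ?_,
    (loc_inW_avg p1).trans (Finset.sum_le_sum fun g _ => loc_actW_mono g c1)⟩
  · obtain ⟨K, hK⟩ : ∃ K, K = mapHom (fixedAlg α).subtype H := ⟨_, rfl⟩
    have hKs : star K = K := by rw [hK, ← map_star, hH]
    have r1 : P ≤ mapHom (fixedAlg α).subtype (P.map (avg α)) := by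
      refine le_of_eq_of_le ?_ (loc_le_avg p1 1)
      ext i j
      exact (act_one α _).symm
    have r2 := star_left_conjugate_le_conjugate r1 K
    have r3 := OrderHomClass.mono (mapHom (m := Fin k) (fixedAlg α).subtype) q1
    rw [map_mul, map_mul, ← hK, ← Complex.coe_smul, map_smul, map_one, Complex.coe_smul] at r3
    rw [hKs] at r2
    have r4 : 0 ≤ K * Q * K := by
      have := star_left_conjugate_nonneg p2 K
      rwa [hKs] at this
    have r5 : (H * cut (ε / 2) a * H).map (fixedAlg α).subtype = K * Q * K + K * P * K := by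
      change mapHom (fixedAlg α).subtype _ = _
      rw [map_mul, map_mul, ← hK, ← add_mul, ← mul_add, add_comm, hV]
      rfl
    have r6 := cls_conj_le K p2
    rw [show Kᴴ = K from hKs] at r6
    rw [loc_inW_cut x0, r5]
    exact (cls_cut_le_of_le (.of_nonneg (r5 ▸ map_nonneg (mapHom (fixedAlg α).subtype) x0)) r4
      (add_le_add le_rfl (r2.trans r3)) (by linarith)).trans (r6.trans c2)
  · have r6 := cls_conj_le H a0
    rw [show Hᴴ = H from hH] at r6
    exact (cls_cut_le (by positivity) x0).trans (r6.trans ((cls_cut_le (half_pos hε).le ha).trans h2))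
  · have r1 := smul_nonneg (zero_le_two (α := ℝ)) (cut_nonneg (ε / 8) (H * cut (ε / 2) a * H))
    have r2 := smul_nonneg (zero_le_two (α := ℝ)) q2
    have r3 := cls_cut_le_of_le (.of_nonneg a0) (add_nonneg r1 r2)
      (loc_alg2 (.of_nonneg x0) q4 (ε / 8)) (show 2 * (ε / 8) < ε / 2 by linarith)
    rw [cut_cut (half_pos hε).le (.of_nonneg ha), add_halves] at r3
    refine h1.trans (r3.trans ((cls_add_le r1 r2).trans (add_le_add
      (cls_smul two_pos (cut_nonneg _ _)).le ?_)))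
    exact (q3.smul zero_le_two).cls_le r2 (loc_avg_nonneg p1)

lemma loc_towers {x : A} {I : Type*} {l : Filter I} {f : I → G → A} {δ : I → ℝ}
    (T : Towers α x l f δ) {n : Type*} [Fintype n] [DecidableEq n] {c : Matrix m m A}
    {b : Matrix n n A} (hc : 0 ≤ c) (hb : 0 ≤ b) (w : G → Matrix m n A)
    (hw : ∀ g, w g * b * (w g)ᴴ = c.map (α g)) {θ : ℝ} (hθ : 0 < θ) :
    ∀ᶠ i in l, inW α (cls (cut θ ((dg m (f i 1) * c * dg m (f i 1)).map (avg α)))) ≤ cls b := by
  obtain ⟨e, he, he', hce, hoe⟩ := T.exists_rep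
  have hfs : ∀ i g, star (f i g) = f i g := fun i g =>
    (IsSelfAdjoint.of_nonneg (T.nonneg i g)).star_eq
  have he1 : ∀ g, Rep l (fun i => α g (f i 1)) (e g) := fun g => by simpa using he' g 1
  have rB : ∀ a, Rep l (fun i => (avg α (f i 1 * a * f i 1) : A))
      (tsum' (kap A l) e 1 fun g => α g a) := fun a => by
    have := Rep.sum Finset.univ fun g => ((he1 g).mul (Rep.const (α g a))).mul (he1 g)
    simp only [mul_assoc, ← hce] at this
    simpa [coe_avg, tsum', mul_assoc, pow_succ] using this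
  have ry : RepM l (fun i => ((dg m (f i 1) * c * dg m (f i 1)).map (avg α)).map
      (fixedAlg α).subtype) (tsumM (kap A l) e 1 fun g => c.map (α g)) := fun r s => by
    simpa [dg, tsumM] using rB (c r s)
  let Wm : I → Matrix m n A := fun i => Matrix.of fun r s => ∑ g, f i g * w g r s
  have rW : RepM l Wm (tsumM (kap A l) e 0 w) := fun r s => by
    simpa [Wm, tsumM, tsum'] using Rep.sum Finset.univ fun g => (he g).mul (Rep.const (w g r s))
  have rW' : RepM l (fun i => (Wm i)ᴴ) (tsumM (kap A l) e 0 fun g => (w g)ᴴ) := fun r s => by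
    simpa [Wm, tsumM, tsum', hfs, hce, star_sum] using
      Rep.sum Finset.univ fun g => (Rep.const (star (w g s r))).mul (he g)
  have r1 := (rW.mul (RepM.const b)).mul rW'
  rw [tsumM_mul_kap, tsumM_mul hce hoe] at r1
  simp only [hw] at r1
  filter_upwards [eventually_norm_lt ry r1 hθ] with i hi
  have y0 := loc_avg_nonneg (α := α) (dg_conj_nonneg (T.nonneg i 1) hc)
  rw [loc_inW_cut y0]
  exact (cls_cut_le_of_near (.of_nonneg (map_nonneg (mapHom (fixedAlg α).subtype) y0))
    (conj_nonneg _ hb) hi).trans (cls_conj_le _ hb)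

lemma loc_map_map (c : Matrix m m A) (g h : G) : (c.map (α h)).map (α g) = c.map (α (g * h)) := by
  ext i j
  exact act_act α g h _

theorem local_inv (hA : IsSimple A) (hinf : ¬FiniteDimensional ℂ A) (hα : WeakTracialRokhlin α)
    {c z' z : W A} (hz : LL z' z) (hc : ∀ g, actW α g z ≤ c) {η : ℝ} (hη : 0 < η) :
    ∃ y' y : G → W (fixedAlg α), (∀ h, LL (y' h) (y h)) ∧ (∀ h, inW α (y h) ≤ c) ∧
      (∀ h, inW α (y h) ≤ ∑ g, actW α (g * h) z) ∧
      ∀ s, IsState (W.u A) s → s z' ≤ ∑ h, s (inW α (y' h)) + η := by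
  obtain ⟨k, a, ε, ha, hε, h1, h2⟩ := hz
  obtain ⟨n, b, hb, rfl⟩ := cls_surj c
  have c0 := cut_nonneg (ε / 2) a
  have h4 : ∀ g, ∃ w : Matrix (Fin k) (Fin n) A,
      w * b * wᴴ = (cut (ε / 2) a).map (α g) := fun g => by
    have h5 := (loc_actW_mono g h2).trans (hc g)
    rw [actW_cls _ ha, cls_le_cls (map_act_nonneg _ ha) hb] at h5
    obtain ⟨w, hw⟩ := h5.exists_conj (.of_nonneg (map_act_nonneg _ ha)) hb (half_pos hε)
    exact ⟨w, hw.trans (map_cut (α g).toStarAlgHom (ε / 2) (.of_nonneg ha)).symm⟩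
  choose w hw using h4
  obtain ⟨M, hM⟩ := exists_nat_gt (k / η)
  rw [div_lt_iff₀ hη] at hM
  obtain ⟨x, hx, hx', hxM⟩ := hA.exists_small hinf M
  obtain ⟨l, _, f, δ, T⟩ := hα.exists_towers hx hx'
  obtain ⟨θ, hθ, e1⟩ := le_sum_phi T.ac T.orth c0 (half_pos hε)
  have e2 := eventually_all.2 fun h => loc_towers T (map_act_nonneg (α := α) h c0) hb
    (fun g => w (g * h)) (fun g => by rw [hw, loc_map_map]) (show 0 < θ / 4 by positivity)
  have e3 := eventually_all.2 fun g => T.actW_phi_le g g⁻¹ c0 hθ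
  obtain ⟨i, e1, e2, e3⟩ := (e1.and (e2.and e3)).exists
  have p0 : ∀ h, 0 ≤ dg (Fin k) (f i 1) * (cut (ε / 2) a).map (α h) * dg (Fin k) (f i 1) :=
    fun h => dg_conj_nonneg (T.nonneg i 1) (map_act_nonneg h c0)
  have y0 := fun h => loc_avg_nonneg (α := α) (p0 h)
  refine ⟨fun h => cls (cut (θ / 3) ((dg (Fin k) (f i 1) * (cut (ε / 2) a).map (α h) *
      dg (Fin k) (f i 1)).map (avg α))), _, fun h => LL.cut_cut (y0 h) (by linarith), e2,
    fun h => ?_, fun s hs => ?_⟩
  · refine (Wmap1_mono _ (cls_cut_le (by positivity) (y0 h))).trans ((loc_inW_avg (p0 h)).trans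
      (Finset.sum_le_sum fun g _ => ?_))
    have r1 := cls_conj_le (dg (Fin k) (f i 1)) (map_act_nonneg (α := α) h c0)
    rw [dg_conjT (T.nonneg i 1)] at r1
    refine (loc_actW_mono g r1).trans ?_
    rw [actW_cls g (map_act_nonneg h c0), loc_map_map, ← actW_cls _ c0]
    exact loc_actW_mono _ ((cls_cut_le (half_pos hε).le ha).trans h2)
  · have r1 : ∀ g, Phi θ (f i g) (cut (ε / 2) a) ≤ inW α (cls (cut (θ / 3) ((dg (Fin k) (f i 1) *
        (cut (ε / 2) a).map (α g⁻¹) * dg (Fin k) (f i 1)).map (avg α)))) := fun g => by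
      have r2 := loc_actW_mono (α := α) g (e3 g)
      rw [actW_actW_inv, inv_mul_cancel] at r2
      refine r2.trans ?_
      rw [Phi, actW_cls g (cut_nonneg _ _), loc_inW_cut (y0 _)]
      refine le_of_eq_of_le (congrArg cls (map_cut (α g).toStarAlgHom _ (.of_nonneg (p0 _))))
        (cls_cut_le_of_le (.of_nonneg (map_act_nonneg g (p0 _))) (cut_nonneg _ _)
          ((loc_le_avg (p0 _) g).trans (le_cut_add (.of_nonneg
            (map_nonneg (mapHom (fixedAlg α).subtype) (y0 _))) _)) (by linarith))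
    have hF : ∑ g, f i g * f i g = (∑ g, f i g) ^ 2 := by
      rw [sq, Finset.sum_mul_sum]
      refine Finset.sum_congr rfl fun g _ =>
        (Finset.sum_eq_single (f := fun j => f i g * f i j) g ?_ ?_).symm
      · exact fun h _ hg => T.orth i g h hg.symm
      · simp
    have hf0 : 0 ≤ ∑ g, f i g := Finset.sum_nonneg fun g _ => T.nonneg i g
    have r2 := hs.mono (cls1_le (cut_nonneg _ _) hx (CSub.tail hf0 hx (T.small i)
      (hF ▸ (IsSelfAdjoint.of_nonneg hf0).pow 2) 2 (show ‖∑ g, f i g * f i g - _‖ < θ by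
        simpa [hF] using hθ)))
    rw [cut_cut (half_pos hε).le (.of_nonneg ha), add_halves] at e1
    have r3 := hs.mono (h1.trans e1)
    rw [map_add, map_sum, map_nsmul, nsmul_eq_mul, Fintype.card_fin] at r3
    have r4 := Finset.sum_le_sum fun g (_ : g ∈ Finset.univ) => hs.mono (r1 g)
    have r5 := hs.mono hxM
    rw [map_nsmul, hs.unit, nsmul_eq_mul] at r5
    have r6 := hs.nonneg W.zero_le (cls1 x)
    have r7 : (k : ℝ) * s (cls1 x) ≤ η := by nlinarith
    have r8 := mul_le_mul_of_nonneg_left r2 (Nat.cast_nonneg (α := ℝ) k)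
    rw [← Equiv.sum_comp (Equiv.inv G)]
    simp only [Equiv.inv_apply]
    linarith

end Pool.Agent.Lib.MP_f90f6c_an.H50
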