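import Pool.Agent.Lib.MP_f90f6c_an.H64Ed
import Pool.Agent.Lib.MP_f90f6c_an.H64Loc

/-!
Invariant lower bounds of uniformly positive rank.
-/

namespace Pool.Agent.Lib.MP_f90f6c_an.H50

open Filter Topology Matrix

set_option linter.unusedSectionVars false

variable {G : Type*} [Group G] [Fintype G] [DecidableEq G] {A : Type*} [CStarAlgebra A]
  [PartialOrder A] [StarOrderedRing A] {α : G →* (A ≃⋆ₐ[ℂ] A)}

lemma inv_actW_mono (g : G) : Monotone (actW α g) := Wmap1_mono _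

lemma inv_inW_mono : Monotone (inW α) := Wmap1_mono _

lemma inv_actW_u (g : G) : actW α g (W.u A) = W.u A := Wmap1_u _ (map_one (α g))

lemma inv_inW_u : inW α (W.u _) = W.u A := Wmap1_u _ (map_one (fixedAlg α).subtype)

lemma inv_actW_inW (g : G) (v : W (fixedAlg α)) : actW α g (inW α v) = inW α v := by
  obtain ⟨k, a, ha, rfl⟩ := cls_surj v
  rw [Wmap1_cls _ ha, actW_cls _ (map_nonneg' _ ha)]
  congr 1
  ext i j
  exact (a i j).2 g

lemma inv_state_act {s : W A →+ ℝ} (hs : IsState (W.u A) s) (g : G) :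
    IsState (W.u A) (s.comp (actW α g)) :=
  ⟨hs.mono.comp (inv_actW_mono g), by rw [AddMonoidHom.comp_apply, inv_actW_u, hs.unit]⟩

lemma inv_state_in {s : W A →+ ℝ} (hs : IsState (W.u A) s) :
    IsState (W.u (fixedAlg α)) (s.comp (inW α)) :=
  ⟨hs.mono.comp inv_inW_mono, by rw [AddMonoidHom.comp_apply, inv_inW_u, hs.unit]⟩

lemma inv_LL_in {x y : W (fixedAlg α)} (h : LL x y) : LL (inW α x) (inW α y) :=
  h.map (fixedAlg α).subtype

/-- an invariant lower bound of large rank at one state -/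
lemma inv_local (hA : IsSimple A) (hinf : ¬FiniteDimensional ℂ A) (hα : WeakTracialRokhlin α)
    {t : ℝ} (ht : 0 < t) (ht1 : t ≤ 1) {c : W A} (hc : ∀ s, IsState (W.u A) s → t ≤ s c)
    {s : W A →+ ℝ} (hs : IsState (W.u A) s) :
    ∃ y' y : W (fixedAlg α), LL y' y ∧ inW α y ≤ c ∧ inW α y ≤ Fintype.card G • W.u A ∧
      t / (2 * Fintype.card G) < s (inW α y') := by
  have hn : (0 : ℝ) < Fintype.card G := Nat.cast_pos.2 Fintype.card_pos
  obtain ⟨s₀, p1, p2, p3, -⟩ := hs.exists_lsc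
  obtain ⟨z, q1, q2⟩ := exists_local_inf p1 p2
    (fun o : Option G => o.elim (W.u A) fun g => actW α g⁻¹ c) (t := t) (fun o σ hσ => by
      cases o with
      | none => exact ht1.trans hσ.unit.ge
      | some g => exact hc _ (inv_state_act hσ g⁻¹)) (show 0 < t / 4 by linarith)
  obtain ⟨z', r1, r2⟩ := p2 z (2 * t / 3) (by linarith)
  obtain ⟨y', y, u1, u2, u3, u4⟩ := local_inv hA hinf hα r1 (c := c)
    (fun g => (inv_actW_mono g (q1 (some g))).trans_eq (actW_actW_inv g c))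
    (show 0 < t / 6 by linarith)
  have u5 : ∑ _h : G, t / (2 * Fintype.card G) < ∑ h, s (inW α (y' h)) := by
    rw [Finset.sum_const, Finset.card_univ, nsmul_eq_mul,
      show (Fintype.card G : ℝ) * (t / (2 * Fintype.card G)) = t / 2 by field_simp]
    linarith [u4 s hs, p3 z']
  obtain ⟨h, -, u6⟩ := Finset.exists_lt_of_sum_lt u5
  refine ⟨y' h, y h, u1 h, u2 h, (u3 h).trans ?_, u6⟩
  rw [← Finset.card_univ, ← Finset.sum_const]
  exact Finset.sum_le_sum fun g _ => (inv_actW_mono _ (q1 none)).trans_eq (inv_actW_u _)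

/-- finitely many invariant lower bounds that are large on average -/
lemma inv_weights (hA : IsSimple A) (hinf : ¬FiniteDimensional ℂ A) (hα : WeakTracialRokhlin α)
    {t : ℝ} (ht : 0 < t) (ht1 : t ≤ 1) {c : W A} (hc : ∀ s, IsState (W.u A) s → t ≤ s c)
    (hne : ∃ s, IsState (W.u A) s) :
    ∃ (k : ℕ) (w : Fin k → ℝ) (y' y : Fin k → W (fixedAlg α)), (∀ i, 0 ≤ w i) ∧ ∑ i, w i = 1 ∧
      (∀ i, LL (y' i) (y i)) ∧ (∀ i, inW α (y i) ≤ c) ∧
      (∀ i, inW α (y i) ≤ Fintype.card G • W.u A) ∧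
      ∀ s, IsState (W.u A) s → t / (2 * Fintype.card G) ≤ ∑ i, w i * s (inW α (y' i)) := by
  let P : W A → Prop := fun κ => ∃ y' y : W (fixedAlg α), LL y' y ∧ inW α y ≤ c ∧
    inW α y ≤ Fintype.card G • W.u A ∧ Fintype.card G • W.u A ≤ inW α y' + κ
  obtain ⟨F, w, t', hw, hw1, ht', hF⟩ := exists_weights (P := P)
    (t := Fintype.card G - t / (2 * Fintype.card G)) (fun s hs => by
      obtain ⟨y', y, p1, p2, p3, p4⟩ := inv_local hA hinf hα ht ht1 hc hs
      obtain ⟨y₁, q1, q2⟩ := p1.interp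
      obtain ⟨κ, r1, r2⟩ := (inv_LL_in q1).compl ((inv_inW_mono q2.le).trans p3)
      refine ⟨κ, ⟨y₁, y, q2, p2, p3, r2⟩, ?_⟩
      have := hs.mono r1
      rw [map_add, hs.nsmul_unit] at this
      linarith) hne
  choose y' y h1 h2 h3 h4 using fun i : F => i.1.2
  let e := (Fintype.equivFin F).symm
  refine ⟨_, fun i => w (e i), fun i => y' (e i), fun i => y (e i), fun i => hw _,
    (Equiv.sum_comp e w).trans hw1, fun i => h1 _, fun i => h2 _, fun i => h3 _, fun s hs => ?_⟩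
  rw [Equiv.sum_comp e fun i => w i * s (inW α (y' i))]
  have h5 : ∑ i, w i * (Fintype.card G : ℝ) ≤ ∑ i, (w i * s (inW α (y' i)) + w i * s i.1.1) :=
    Finset.sum_le_sum fun i _ => by
      have := hs.mono (h4 i)
      rw [map_add, hs.nsmul_unit] at this
      rw [← mul_add]
      exact mul_le_mul_of_nonneg_left this (hw i)
  rw [← Finset.sum_mul, hw1, Finset.sum_add_distrib] at h5
  linarith [hF s hs]

/-- one step of the greedy construction -/
lemma inv_step (hS : Shrink (fixedAlg α)) {c : W A} {v' v y' y : W (fixedAlg α)} (hv : LL v' v)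
    (hvc : inW α v ≤ c) (hy : LL y' y) (hyc : inW α y ≤ c) {μ δ : ℝ} (hμ : 0 ≤ μ) (hμ1 : μ ≤ 1)
    (hδ : 0 < δ) : ∃ x' x : W (fixedAlg α), LL x' x ∧ inW α x ≤ c ∧ ∀ s, IsState (W.u A) s →
      s (inW α x) ≤ s (inW α v) + μ * s (inW α y) ∧
      s (inW α v') + μ * (s (inW α y') - Fintype.card G * s (inW α v)) - δ ≤ s (inW α x') := by
  obtain ⟨v'', p1, p2⟩ := hv.interp
  obtain ⟨d, p3, p4⟩ := (inv_LL_in p2).compl hvc
  obtain ⟨y₂, q1, q2⟩ := hy.interp
  obtain ⟨e, g, r1, r2, r3, r4⟩ := inv_riesz q2 (hyc.trans p4)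
  obtain ⟨e', g', u1, u2, u3⟩ := (q1.mono le_rfl r3).split
  obtain ⟨w', w, a1, a2, a3⟩ := hS e' e u1 μ δ hμ hμ1 hδ
  simp only [inv_actW_inW, Finset.sum_const, Finset.card_univ] at r4
  refine ⟨v' + w', v'' + w, p1.add a1, ?_, fun s hs => ?_⟩
  · rw [map_add]
    exact (add_le_add le_rfl ((inv_inW_mono a2).trans r1)).trans p3
  · obtain ⟨b1, b2⟩ := a3 _ (inv_state_in hs)
    simp only [AddMonoidHom.comp_apply] at b1 b2
    have b3 := hs.mono (inv_inW_mono p2.le)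
    have b4 := mul_le_mul_of_nonneg_left (hs.mono (inv_inW_mono r2)) hμ
    have b5 := hs.mono (inv_inW_mono u3)
    have b6 := hs.mono ((inv_inW_mono u2.le).trans r4)
    rw [map_add, map_add] at b5
    rw [map_nsmul, nsmul_eq_mul] at b6
    have b7 : μ * (s (inW α y') - Fintype.card G * s (inW α v)) ≤ μ * s (inW α e') :=
      mul_le_mul_of_nonneg_left (by linarith) hμ
    rw [map_add, map_add, map_add, map_add]
    constructor <;> linarith

lemma inv_greedy (hS : Shrink (fixedAlg α)) {c : W A} {ι : Type*} [Fintype ι] {w : ι → ℝ}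
    {y' y : ι → W (fixedAlg α)} (hw : ∀ i, 0 ≤ w i) (hw1 : ∑ i, w i = 1)
    (h1 : ∀ i, LL (y' i) (y i)) (h2 : ∀ i, inW α (y i) ≤ c)
    (h3 : ∀ i, inW α (y i) ≤ Fintype.card G • W.u A) {θ δ : ℝ} (hθ : 0 ≤ θ) (hθ1 : θ ≤ 1)
    (hδ : 0 < δ) (S : Finset ι) : ∃ v' v : W (fixedAlg α), LL v' v ∧ inW α v ≤ c ∧
      ∀ s, IsState (W.u A) s → s (inW α v) ≤ θ * Fintype.card G * ∑ i ∈ S, w i ∧
        θ * ∑ i ∈ S, w i * (s (inW α (y' i)) - θ * Fintype.card G ^ 2) - S.card * δ ≤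
          s (inW α v') := by
  classical
  have hn : (0 : ℝ) ≤ Fintype.card G := Nat.cast_nonneg _
  have hle : ∀ T : Finset ι, ∑ i ∈ T, w i ≤ 1 := fun T =>
    (Finset.sum_le_sum_of_subset_of_nonneg T.subset_univ fun i _ _ => hw i).trans_eq hw1
  induction S using Finset.induction_on with
  | empty => exact ⟨0, 0, LL.zero _, by simpa using W.zero_le c, fun s _ => by simp⟩
  | insert i S hi ih =>
    obtain ⟨v', v, p1, p2, p3⟩ := ih
    have hwi : w i ≤ 1 := by simpa using hle {i}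
    have hμ := mul_nonneg hθ (hw i)
    obtain ⟨x', x, q1, q2, q3⟩ := inv_step hS p1 p2 (h1 i) (h2 i) hμ
      (mul_le_one₀ hθ1 (hw i) hwi) hδ
    refine ⟨x', x, q1, q2, fun s hs => ?_⟩
    obtain ⟨r1, r2⟩ := p3 s hs
    obtain ⟨r3, r4⟩ := q3 s hs
    have r5 := mul_le_mul_of_nonneg_left ((hs.mono (h3 i)).trans_eq (hs.nsmul_unit _)) hμ
    have r6 : s (inW α v) ≤ θ * Fintype.card G :=
      r1.trans (mul_le_of_le_one_right (mul_nonneg hθ hn) (hle S))
    have r7 : θ * w i * (s (inW α (y' i)) - θ * Fintype.card G ^ 2) ≤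
        θ * w i * (s (inW α (y' i)) - Fintype.card G * s (inW α v)) :=
      mul_le_mul_of_nonneg_left (by nlinarith [mul_le_mul_of_nonneg_left r6 hn]) hμ
    rw [Finset.sum_insert hi, Finset.sum_insert hi, Finset.card_insert_of_notMem hi]
    push_cast
    constructor <;> nlinarith

theorem inv_lower (hA : IsSimple A) (hinf : ¬FiniteDimensional ℂ A) (hα : WeakTracialRokhlin α)
    (hS : Shrink (fixedAlg α)) {ε : ℝ} (hε : 0 < ε) : ∃ γ : ℝ, 0 < γ ∧ ∀ c : W A,
      (∀ s, IsState (W.u A) s → ε < s c) →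
      ∃ w : W (fixedAlg α), inW α w ≤ c ∧ ∀ s, IsState (W.u A) s → γ < s (inW α w) := by
  have hn : (1 : ℝ) ≤ Fintype.card G := Nat.one_le_cast.2 Fintype.card_pos
  have ht : 0 < min ε 1 := lt_min hε one_pos
  have ht1 : min ε 1 ≤ 1 := min_le_right _ _
  obtain ⟨γ₀, hγ₀⟩ : ∃ γ₀, γ₀ = min ε 1 / (2 * Fintype.card G) := ⟨_, rfl⟩
  have g0 : 0 < γ₀ := by rw [hγ₀]; positivity
  have g1 : γ₀ ≤ 1 := by
    rw [hγ₀, div_le_one (by positivity)]
    linarith
  obtain ⟨θ, hθ⟩ : ∃ θ, θ = γ₀ / (2 * Fintype.card G ^ 2) := ⟨_, rfl⟩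
  have t0 : 0 < θ := by rw [hθ]; positivity
  have t1 : θ ≤ 1 := by
    rw [hθ, div_le_one (by positivity)]
    nlinarith
  have t2 : θ * Fintype.card G ^ 2 = γ₀ / 2 := by
    rw [hθ]
    field_simp
  have t3 := mul_pos t0 g0
  refine ⟨θ * γ₀ / 8, by positivity, fun c hc => ?_⟩
  by_cases hne : ∃ s, IsState (W.u A) s
  swap
  · exact ⟨0, by simpa using W.zero_le c, fun s hs => absurd ⟨s, hs⟩ hne⟩
  obtain ⟨k, w, y', y, hw, hw1, h1, h2, h3, h4⟩ := inv_weights hA hinf hα ht ht1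
    (fun s hs => (min_le_left _ _).trans (hc s hs).le) hne
  have hk : (0 : ℝ) ≤ k := Nat.cast_nonneg _
  obtain ⟨v', v, p1, p2, p3⟩ := inv_greedy hS hw hw1 h1 h2 h3 t0.le t1
    (δ := θ * γ₀ / (4 * (k + 1))) (by positivity) Finset.univ
  refine ⟨v', (inv_inW_mono p1.le).trans p2, fun s hs => lt_of_lt_of_le ?_ (p3 s hs).2⟩
  have q1 := h4 s hs
  have q2 : (k : ℝ) * (θ * γ₀ / (4 * (k + 1))) ≤ θ * γ₀ / 4 := by
    rw [← mul_div_assoc, div_le_div_iff₀ (by positivity) (by positivity)]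
    nlinarith
  rw [← hγ₀] at q1
  simp only [t2, mul_sub, Finset.sum_sub_distrib, ← Finset.sum_mul, hw1, Finset.card_univ,
    Fintype.card_fin]
  nlinarith [mul_le_mul_of_nonneg_left q1 t0.le]

/-- every class is below an invariant class of proportional rank -/
lemma inv_upper (x : W A) : ∃ y : W (fixedAlg α), x ≤ inW α y ∧ inW α y ≤ ∑ g, actW α g x := by
  obtain ⟨k, c, hc, rfl⟩ := cls_surj x
  let c' : Matrix (Fin k) (Fin k) (fixedAlg α) := c.map (avg α)
  have e1 : c'.map (fixedAlg α).subtype = ∑ g, c.map (α g) := by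
    ext i j
    simp [c', coe_avg, Matrix.sum_apply]
  have hc' : 0 ≤ c' := nonneg_of_map_nonneg (mapHom (fixedAlg α).subtype)
    (mapHom_injective _ Subtype.val_injective)
    (le_of_le_of_eq (Finset.sum_nonneg fun g _ => map_act_nonneg g hc) e1.symm)
  have e2 : inW α (cls c') = cls (∑ g, c.map (α g)) := (Wmap1_cls _ hc').trans (congrArg cls e1)
  refine ⟨cls c', ?_, ?_⟩
  · rw [e2]
    refine cls_mono hc (le_of_eq_of_le ?_ (Finset.single_le_sum
      (fun g _ => map_act_nonneg (α := α) g hc) (Finset.mem_univ 1)))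
    ext i j
    exact (act_one α _).symm
  · rw [e2]
    simp only [actW_cls _ hc]
    exact cls_sum_le _ fun g => map_act_nonneg g hc

lemma inv_LL_lift {x : W A} {y : W (fixedAlg α)} (h : LL x (inW α y)) :
    ∃ y', LL y' y ∧ x ≤ inW α y' := by
  obtain ⟨k, c, hc, rfl⟩ := cls_surj y
  rw [Wmap1_cls _ hc] at h
  obtain ⟨δ, hδ, h1⟩ := h.exists_cut (map_nonneg' _ hc)
  refine ⟨_, LL.cut hc hδ, h1.trans (le_of_eq ?_)⟩
  rw [Wmap1_cls _ (cut_nonneg _ _)]
  exact congrArg cls (map_cut (fixedAlg α).subtype δ (.of_nonneg hc)).symm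

theorem fin_of_fixed (hA : IsSimple A) (hinf : ¬FiniteDimensional ℂ A) (hα : WeakTracialRokhlin α)
    (hS : Shrink (fixedAlg α)) {r : ℝ}
    (HB : ∀ x y : W (fixedAlg α), (∀ s, IsState (W.u _) s → s x + r < s y) → x ≤ y) : FIN A := by
  intro ε hε
  obtain ⟨γ, hγ, H⟩ := inv_lower hA hinf hα hS hε
  obtain ⟨N, hN⟩ := exists_nat_gt ((r + Fintype.card G + 2) / (γ / 2))
  rw [div_lt_iff₀ (half_pos hγ)] at hN
  refine ⟨N, 1, one_pos, fun x c hx hc => le_of_forall_LL fun x' hx' => ?_⟩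
  obtain ⟨w, p1, p2⟩ := H c hc
  obtain ⟨y, q1, q2⟩ := inv_upper (α := α) x
  obtain ⟨y', r1, r2⟩ := inv_LL_lift (hx'.mono le_rfl q1)
  have key := HB y' (N • w) fun σ hσ => by
    have a1 := big_fixed hA hinf hα (half_lt_self hγ)
      (big_of_states W.zero_le W.exists_le_nsmul p2) hσ
    have a2 := transfer_le hA hinf hα r1 (y := 0) (θ := Fintype.card G)
      (θ' := Fintype.card G + 1) (lt_add_one _) (fun s hs => by
        refine (hs.mono q2).trans ?_
        rw [map_sum, map_zero, map_zero, zero_add]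
        refine (Finset.sum_le_sum (g := fun _ => 1) fun g _ =>
          (hx _ (inv_state_act hs g)).le).trans_eq ?_
        simp) hσ
    rw [map_zero] at a2
    rw [map_nsmul, nsmul_eq_mul]
    nlinarith [mul_le_mul_of_nonneg_left a1.le (Nat.cast_nonneg (α := ℝ) N)]
  refine r2.trans ((inv_inW_mono key).trans ?_)
  rw [map_nsmul]
  exact nsmul_le_nsmul_right p1 N

end Pool.Agent.Lib.MP_f90f6c_an.H50
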