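import Pool.Agent.Lib.MP_f90f6c_an.H64Tr

/-!
All ranks almost occur: layers of an element of small rank and prescribed traces.
-/

namespace Pool.Agent.Lib.MP_f90f6c_an.H50

open Filter Topology Matrix

set_option linter.unusedSectionVars false

variable {D : Type*} [CStarAlgebra D] [PartialOrder D] [StarOrderedRing D]
variable {m n r : Type*} [Fintype m] [DecidableEq m] [Fintype n] [DecidableEq n]
  [Fintype r] [DecidableEq r]

/-- the `j`-th layer function -/
noncomputable def layG (j : ℕ) (t : ℝ) : ℝ := min (max (t - j) 0) 1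

/-- the square of the ramp of the `j`-th cut-down -/
noncomputable def layQ (j : ℕ) (t : ℝ) : ℝ :=
  ramp (max (t - (j + 1)) 0) * ramp (max (t - (j + 1)) 0)

lemma lay_contG (j : ℕ) : Continuous (layG j) := by
  unfold layG
  fun_prop

lemma lay_contQ (j : ℕ) : Continuous (layQ j) := by
  have h : Continuous fun t : ℝ => ramp (max (t - (j + 1)) 0) :=
    continuous_ramp.comp (by fun_prop)
  exact h.mul h

lemma lay_G_nonneg (j : ℕ) (t : ℝ) : 0 ≤ layG j t := le_min (le_max_right _ _) zero_le_one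

lemma lay_G_one {j : ℕ} {t : ℝ} (h : (j : ℝ) + 1 ≤ t) : layG j t = 1 :=
  min_eq_right (le_max_of_le_left (by linarith))

lemma lay_sum_G (K : ℕ) (t : ℝ) : ∑ j ∈ Finset.range K, layG j t = min (max t 0) K := by
  induction K with
  | zero => simp
  | succ K ih =>
    rw [Finset.sum_range_succ, ih, layG]
    have hK : (0 : ℝ) ≤ K := Nat.cast_nonneg K
    push_cast
    simp only [min_def, max_def]
    split_ifs <;> linarith

lemma lay_Q_le (j : ℕ) (t : ℝ) : layQ j t ≤ layG j t := by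
  rcases le_total t (j + 1) with h | h
  · rw [layQ, max_eq_right (by linarith), ramp_eq_zero (by norm_num), mul_zero]
    exact lay_G_nonneg j t
  · rw [lay_G_one h]
    exact mul_le_one₀ (ramp_le_one _) (ramp_nonneg _) (ramp_le_one _)

lemma lay_le_Q (j : ℕ) (t : ℝ) : layG j (t - 2) ≤ layQ j t := by
  rcases le_total t (j + 2) with h | h
  · rw [layG, max_eq_right (by linarith), min_eq_left zero_le_one]
    exact mul_self_nonneg _
  · rw [layQ, ramp_eq_one (le_max_of_le_left (by linarith)), mul_one]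
    exact min_le_right _ _

lemma lay_sum_G_le (K : ℕ) {t : ℝ} (ht : 0 ≤ t) : ∑ j : Fin K, layG j t ≤ t := by
  rw [Fin.sum_univ_eq_sum_range (fun j => layG j t) K, lay_sum_G, max_eq_left ht]
  exact min_le_left _ _

lemma lay_sum_Q_le (K : ℕ) {t : ℝ} (ht : 0 ≤ t) : ∑ j : Fin K, layQ j t ≤ t :=
  (Finset.sum_le_sum fun (j : Fin K) _ => lay_Q_le j t).trans (lay_sum_G_le K ht)

lemma lay_le_sum_Q (K : ℕ) {t : ℝ} (ht : 0 ≤ t) (hK : t ≤ K) :
    t - 2 * min t 1 ≤ ∑ j : Fin K, layQ j t := by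
  refine le_trans ?_ (Finset.sum_le_sum fun j _ => lay_le_Q j t)
  rw [Fin.sum_univ_eq_sum_range (fun j => layG j (t - 2)) K, lay_sum_G]
  simp only [min_def, max_def]
  split_ifs <;> linarith

section Alg

variable {E : Type*} [CStarAlgebra E] [PartialOrder E] [StarOrderedRing E]

lemma lay_sum_cfc {ι : Type*} [Fintype ι] {f : ι → ℝ → ℝ} (hf : ∀ i, Continuous (f i)) (a : E) :
    ∑ i, cfc (f i) a = cfc (fun t => ∑ i, f i t) a := by
  rw [← cfc_sum f a Finset.univ fun i _ => (hf i).continuousOn]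
  refine cfc_congr fun t _ => ?_
  simp

lemma lay_rmp_cut (j : ℕ) (a : E) :
    rmp (cut (j + 1) a) * rmp (cut (j + 1) a) = cfc (layQ j) a := by
  by_cases ha : IsSelfAdjoint a
  · have h : Continuous fun t => ramp t * ramp t := continuous_ramp.mul continuous_ramp
    rw [rmp_sq, cut, ← cfc_comp' _ _ a h.continuousOn]
    rfl
  · rw [rmp_sq, cut, cfc_apply_of_not_predicate a ha, cfc_apply_of_not_predicate a ha,
      cfc_apply_zero]
    simp [ramp]

lemma lay_sum_le {a : E} (ha : 0 ≤ a) (K : ℕ) {f : ℕ → ℝ → ℝ} (hf : ∀ i, Continuous (f i))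
    (h : ∀ t, 0 ≤ t → ∑ j : Fin K, f j t ≤ t) : ∑ j : Fin K, cfc (f j) a ≤ a := by
  rw [lay_sum_cfc (f := fun j : Fin K => f j) fun j => hf j]
  conv_rhs => rw [← cfc_id' ℝ a]
  exact cfc_mono (fun t ht => h t (spectrum_nonneg_of_nonneg ha ht))
    (continuous_finsetSum _ fun (j : Fin K) _ => hf j).continuousOn (by fun_prop)

lemma lay_le_sum {a : E} (ha : 0 ≤ a) {K : ℕ} (hK : ‖a‖ ≤ K) :
    a - (2 : ℝ) • cfc (fun t : ℝ => min t 1) a ≤ ∑ j : Fin K, cfc (layQ j) a := by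
  rw [lay_sum_cfc (f := fun j : Fin K => layQ j) fun j => lay_contQ j,
    ← cfc_smul (2 : ℝ) _ a (by fun_prop)]
  conv_lhs => enter [1]; rw [← cfc_id' ℝ a]
  rw [← cfc_sub _ _ _ (by fun_prop) (by fun_prop)]
  refine cfc_mono (fun t ht => ?_) (by fun_prop)
    (continuous_finsetSum _ fun (j : Fin K) _ => lay_contQ j).continuousOn
  rcases subsingleton_or_nontrivial E with hE | hE
  · simp at ht
  · exact lay_le_sum_Q K (spectrum_nonneg_of_nonneg ha ht)
      (((le_abs_self t).trans (spectrum.norm_le_norm_of_mem ht)).trans hK)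

lemma lay_dom {w Y : E} (hw : 0 ≤ w) (hY : 0 ≤ Y) :
    0 ≤ rt w * Y * rt w ∧ Dom (rt w * Y * rt w) w := by
  refine ⟨by simpa [star_rt] using star_left_conjugate_nonneg hY (rt w), ‖Y‖, norm_nonneg _, ?_⟩
  have h1 := star_left_conjugate_le_conjugate
    (IsSelfAdjoint.of_nonneg hY).le_algebraMap_norm_self (rt w)
  rwa [star_rt, Algebra.algebraMap_eq_smul_one, mul_smul_comm, mul_one, smul_mul_assoc,
    rt_mul_rt hw] at h1

end Alg

lemma lay_rows {w : Matrix m m D} (hw : 0 ≤ w) {N : ℕ} (h : W.u D ≤ N • cls w) :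
    ∃ x : Fin N → Matrix Unit m D, ∑ i, x i * w * (x i)ᴴ = 1 := by
  have h0 : 0 ≤ blockDiagonal fun _ : Fin N => w := bd_nonneg fun _ => hw
  have h1 : cls (1 : Matrix Unit Unit D) ≤ cls (blockDiagonal fun _ : Fin N => w) := by
    rw [cls_one, cls_bd fun _ => hw]
    simpa using h
  obtain ⟨X, hX⟩ := ((cls_le_cls mone_nonneg h0).1 h1).exists_conj_eq_one h0
  refine ⟨fun i => Matrix.of fun u s => X u (s, i), ?_⟩
  rw [← hX]
  ext u v
  simp only [Matrix.sum_apply, Matrix.mul_apply, conjTranspose_apply, of_apply,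
    Fintype.sum_prod_type, blockDiagonal_apply', mul_ite, mul_zero, Finset.sum_ite_eq',
    Finset.mem_univ, if_true]
  exact Finset.sum_comm

/-- an element of small rank with prescribed traces -/
lemma lay_small (hTi : Tiny D) {b : D} (hb : 0 ≤ b) {η : ℝ} (hη : 0 < η) :
    ∃ (k : ℕ) (a : Matrix (Fin k) (Fin k) D), 0 ≤ a ∧ (∀ τ : TS D, τ.Tr a = τ.re b) ∧
      ∀ s, IsState (W.u D) s → s (cls a) < η := by
  obtain ⟨w, ⟨N, hN⟩, hs⟩ := hTi η hη
  obtain ⟨k, w, hw, rfl⟩ := cls_surj w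
  obtain ⟨x, hx⟩ := lay_rows hw hN
  have hY : 0 ≤ ∑ i, (x i)ᴴ * oneBy b * x i :=
    Finset.sum_nonneg fun i _ => conj_nonneg' _ (oneBy_nonneg hb)
  obtain ⟨h1, h2⟩ := lay_dom hw hY
  refine ⟨k, _, h1, fun τ => ?_, fun s h => (h.mono (h2.cls_le h1 hw)).trans_lt (hs s h)⟩
  rw [τ.Tr_comm, ← Matrix.mul_assoc, rt_mul_rt hw, Finset.mul_sum, map_sum, ← τ.Tr_oneBy]
  conv_rhs => rw [← Matrix.one_mul (oneBy b), ← hx, Finset.sum_mul, map_sum]
  refine Finset.sum_congr rfl fun i _ => ?_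
  rw [← Matrix.mul_assoc, τ.Tr_comm]
  simp only [Matrix.mul_assoc]

lemma lay_rmp_bd {y : n → Matrix m m D} (hy : ∀ j, 0 ≤ y j) :
    rmp (blockDiagonal y) = blockDiagonal fun j => rmp (y j) := by
  rw [rmp_eq, cut_bd _ hy, cut_bd _ hy, ← blockDiagonal_smul, ← blockDiagonal_smul,
    ← blockDiagonal_sub]
  exact congrArg _ (funext fun j => (rmp_eq (y j)).symm)

theorem exists_layers (hTi : Tiny D) {b : D} (hb : 0 ≤ b) {ρ : ℝ} (hρ : 0 < ρ) :
    ∃ (k : ℕ) (w : Matrix (Fin k) (Fin k) D), 0 ≤ w ∧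
      (∀ s τ, IsState (W.u D) s → Rel s τ → s (cls w) ≤ τ.re b) ∧
      ∀ τ : TS D, τ.re b - ρ ≤ τ.Tr (rmp w * rmp w) ∧ τ.Tr (rmp w * rmp w) ≤ τ.re b := by
  obtain ⟨k, a, ha, hτ, hs⟩ := lay_small hTi hb (half_pos hρ)
  obtain ⟨K, hK⟩ := exists_nat_ge ‖a‖
  have hy : ∀ j : Fin K, 0 ≤ cut ((j : ℕ) + 1) a := fun j => cut_nonneg _ _
  have h0 : 0 ≤ blockDiagonal fun j : Fin K => cut ((j : ℕ) + 1) a := bd_nonneg hy
  let e := (Fintype.equivFin (Fin k × Fin K)).symm
  refine ⟨_, (blockDiagonal fun j : Fin K => cut ((j : ℕ) + 1) a).submatrix e e,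
    submatrix_nonneg h0 e, fun s τ h hR => ?_, fun τ => ?_⟩
  · rw [cls_submatrix_equiv h0, cls_bd hy, map_sum, ← hτ]
    refine le_trans (Finset.sum_le_sum fun j _ => hR.up_cfc h (.of_nonneg ha) (lay_contG j)
      (lay_G_nonneg j) fun t ht => (lay_G_one ht.le).ge) ?_
    rw [← map_sum]
    exact τ.Tr_mono (lay_sum_le ha K lay_contG fun t ht => lay_sum_G_le K ht)
  · have e1 : rmp ((blockDiagonal fun j : Fin K => cut ((j : ℕ) + 1) a).submatrix e e) =
        (rmp (blockDiagonal fun j : Fin K => cut ((j : ℕ) + 1) a)).submatrix e e :=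
      cfc_submatrix _ continuous_ramp (.of_nonneg h0) e
    rw [e1, submatrix_mul_equiv, τ.Tr_submatrix, lay_rmp_bd hy, ← blockDiagonal_mul, τ.Tr_bd]
    simp only [lay_rmp_cut]
    rw [← map_sum, ← hτ]
    refine ⟨?_, τ.Tr_mono (lay_sum_le ha K lay_contQ fun t ht => lay_sum_Q_le K ht)⟩
    refine le_trans ?_ (τ.Tr_mono (lay_le_sum ha hK))
    obtain ⟨s, h, hR⟩ := τ.exists_state
    have p0 : 0 ≤ cfc (fun t : ℝ => min t 1) a :=
      cfc_nonneg fun t ht => le_min (spectrum_nonneg_of_nonneg ha ht) zero_le_one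
    have p1 : cfc (fun t : ℝ => min t 1) a ≤ 1 := cfc_le_one _ _ fun t _ => min_le_right _ _
    have p2 : Dom (cfc (fun t : ℝ => min t 1) a) a :=
      Dom.cfc ha (by fun_prop) zero_le_one fun t _ => by rw [one_mul]; exact min_le_left _ _
    have := ((hR.low' p0 p1).trans (h.mono (p2.cls_le p0 ha))).trans_lt (hs s h)
    rw [map_sub, map_smul, smul_eq_mul]
    linarith

end Pool.Agent.Lib.MP_f90f6c_an.H50
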