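import Pool.Agent.Lib.MP_f90f6c_an.H64Emb
import Pool.Agent.Lib.MP_f90f6c_an.H64Inv
import Pool.Agent.Lib.MP_f90f6c_an.H64Fix

/-!
The reverse inequalities for the radius of comparison when quasitraces are traces.
-/

namespace Pool.Agent.Lib.MP_f90f6c_an.H50

open Filter Topology Matrix
open scoped ENNReal

set_option linter.unusedSectionVars false

variable {G : Type*} [Group G] [Fintype G] [DecidableEq G] {A : Type*} [CStarAlgebra A]
  [PartialOrder A] [StarOrderedRing A] {α : G →* (A ≃⋆ₐ[ℂ] A)}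

theorem reduces_of_embed (hA : IsSimple A) (hinf : ¬FiniteDimensional ℂ A) (hE : Embed A)
    (hI : HasInf A) (hα : WeakTracialRokhlin α) : Reduces α := fun r r' h0 hr HB =>
  rComparison_of_states fun x' x y hx hab => by
    have hn : (0 : ℝ) < Fintype.card G := Nat.cast_pos.2 Fintype.card_pos
    set η := (r' - r) / 3 with hη
    have hη0 : 0 < η := by linarith
    obtain ⟨x₁, p1, p2⟩ := hx.interp
    obtain ⟨κ, ⟨z, q1, q2, q3⟩, q4⟩ := hE _ _ y p2
      (fun s hs => by linarith [hab s hs]) _ (div_pos hη0 hn)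
    obtain ⟨k, c, hc, rfl⟩ := cls_surj κ
    let c' : Matrix (Fin k) (Fin k) (fixedAlg α) := c.map (avg α)
    have e1 : c'.map (fixedAlg α).subtype = ∑ g, c.map (α g) := by
      ext i j
      simp [c', coe_avg, Matrix.sum_apply]
    have hc' : 0 ≤ c' := nonneg_of_map_nonneg (mapHom (m := Fin k) (fixedAlg α).subtype)
      (mapHom_injective _ Subtype.val_injective)
      (le_of_le_of_eq (Finset.sum_nonneg fun g _ => map_act_nonneg g hc) e1.symm)
    have e2 : inW α (cls c') = cls (∑ g, c.map (α g)) := (Wmap1_cls _ hc').trans (congrArg cls e1)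
    have q5 : cls c ≤ inW α (cls c') := by
      rw [e2]
      refine cls_mono hc (le_of_eq_of_le ?_ (Finset.single_le_sum
        (fun g _ => map_act_nonneg (α := α) g hc) (Finset.mem_univ 1)))
      ext i j
      exact (act_one α _).symm
    have q6 : ∀ s, IsState (W.u A) s → s (inW α (cls c')) < η := fun s hs => by
      rw [e2]
      refine (hs.mono (cls_sum_le _ fun g => map_act_nonneg g hc)).trans_lt ?_
      rw [map_sum]
      refine (Finset.sum_lt_sum_of_nonempty Finset.univ_nonempty
        (g := fun _ => η / Fintype.card G) fun g _ => ?_).trans_eq ?_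
      · rw [← actW_cls g hc]
        exact q4 (s.comp (actW α g)) ⟨hs.mono.comp (Wmap1_mono _), by
          change s (Wmap1 _ _) = 1
          rw [Wmap1_u _ (map_one (α g)), hs.unit]⟩
      · rw [Finset.sum_const, Finset.card_univ, nsmul_eq_mul, mul_div_cancel₀ _ hn.ne']
    obtain ⟨z', κ', r1, r2, r3⟩ := (p1.mono le_rfl (q3.trans (add_le_add le_rfl q5))).split
    rw [Wmap1_cls _ hc'] at r2
    obtain ⟨ε, hε, r4⟩ := r2.exists_cut (map_nonneg' _ hc')
    obtain ⟨w, r5, r6⟩ := r1.compl q2
    obtain ⟨v, r7, r8⟩ := le_of_big hA hinf hI hα (show r' - η < r' by linarith) (x := w)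
      (big_of_states W.zero_le W.exists_le_nsmul fun s hs => by
        have := hs.mono r6
        rw [map_add] at this
        linarith [hab s hs, hs.mono q1])
    obtain ⟨d, d1, d2⟩ := (LL.cut hc' hε).compl (cls_le_card hc')
    have d3 := Wmap1_mono (fixedAlg α).subtype.toNonUnitalStarAlgHom d2
    rw [map_nsmul, Wmap1_u _ (map_one (fixedAlg α).subtype), map_add] at d3
    have r9 := HB (cls (cut ε c')) v fun s hs => by
      have d4 := big_fixed hA hinf hα
        (show Fintype.card (Fin k) - η - η < Fintype.card (Fin k) - η by linarith) (y := d)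
        (big_of_states W.zero_le W.exists_le_nsmul fun s hs => by
          have := hs.mono d3
          rw [map_add, hs.nsmul_unit] at this
          linarith [q6 s hs]) hs
      have d5 := hs.mono d1
      rw [map_add, hs.nsmul_unit] at d5
      linarith [r7 s hs]
    rw [Wmap1_cls _ (cut_nonneg _ _)] at r9
    refine r3.trans (le_trans (add_le_add le_rfl (r4.trans (le_trans (le_of_eq ?_)
      (r9.trans r8)))) r5)
    exact congrArg cls (map_cut (fixedAlg α).subtype ε (.of_nonneg hc')).symm

/-- comparison in the fixed point algebra gives comparison in `A` -/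
theorem rComparison_of_traces (hA : IsSimple A) (hinf : ¬FiniteDimensional ℂ A)
    (hα : WeakTracialRokhlin α) (h : QTAreTraces A) {r r' : ℝ} (h0 : 0 ≤ r) (hr : r < r')
    (HB : ∀ x y : W (fixedAlg α), (∀ s, IsState (W.u _) s → s x + r < s y) → x ≤ y) :
    RComparison A r' := by
  have hFB : FIN (fixedAlg α) := fun ε hε => by
    obtain ⟨N, hN⟩ := exists_nat_gt ((1 + r) / ε)
    rw [div_lt_iff₀ hε] at hN
    refine ⟨N, 1, one_pos, fun x c hx hc => HB _ _ fun s hs => ?_⟩
    rw [map_nsmul, nsmul_eq_mul]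
    have := mul_le_mul_of_nonneg_left (hc s hs).le (Nat.cast_nonneg (α := ℝ) N)
    linarith [hx s hs]
  have hTB := (h.fixed hA hinf hα).traces
  have hTiB := tiny_fixed hA hinf hα
  have hFA := fin_of_fixed hA hinf hα ((embed_of_fin hTB hTiB hFB).shrink hTB hTiB) HB
  have hE := embed_of_fin h.traces (hA.tiny hinf) hFA
  exact reduces_of_embed hA hinf hE (hE.hasInf h.traces (hA.tiny hinf)) hα r r' h0 hr
    fun x y hxy => Wmap1_mono _ (HB x y hxy)

theorem crossed_le_of_states (hA : IsSimple A) (hinf : ¬FiniteDimensional ℂ A)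
    (hα : WeakTracialRokhlin α) {r : ℝ} (h0 : 0 ≤ r) (h : RComparison (crossed α) r)
    (x y : W (fixedAlg α))
    (hy : ∀ s, IsState (W.u _) s → s x + Fintype.card G * r < s y) : x ≤ y :=
  compress' <| h.le_of_states fun s hs => by
    have h1 := one_le_card_mul_state hA hinf hα hs
    have h2 := hs.nonneg W.zero_le (cls1 (proj α))
    have h3 : 0 < s (cls1 (proj α)) := lt_of_le_of_ne h2 fun h => by
      rw [← h, mul_zero] at h1
      linarith
    have h4 := hy ((AddMonoidHom.mulLeft (s (cls1 (proj α)))⁻¹).comp (s.comp (Wmap1 (psiD α))))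
      ⟨fun x y hxy => mul_le_mul_of_nonneg_left (hs.mono (Wmap1_mono _ hxy)) (inv_nonneg.2 h2), by
        change _ * s (Wmap1 (psiD α) (cls1 1)) = 1
        rw [Wmap1_cls1 _ zero_le_one, psiD_one, inv_mul_cancel₀ h3.ne']⟩
    change _ * s (Wmap1 (psiD α) x) + _ < _ * s (Wmap1 (psiD α) y) at h4
    rw [lt_inv_mul_iff₀ h3, mul_add, ← mul_assoc, mul_inv_cancel₀ h3.ne', one_mul] at h4
    nlinarith

theorem rc_le_of_traces (hA : IsSimple A) (hinf : ¬FiniteDimensional ℂ A)
    (hα : WeakTracialRokhlin α) (h : QTAreTraces A) :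
    rc A ≤ rc (fixedAlg α) ∧ (Fintype.card G : ℝ≥0∞)⁻¹ * rc A ≤ rc (crossed α) := by
  refine ⟨le_iInf fun _ => le_iInf fun h0 => le_iInf fun h1 => rc_le_of_forall h0 fun _ hr =>
    rComparison_of_traces hA hinf hα h h0 hr fun _ _ hxy => h1.le_of_states hxy,
    le_iInf fun r => le_iInf fun h0 => le_iInf fun h2 => ?_⟩
  have h3 := mul_nonneg (Nat.cast_nonneg (α := ℝ) (Fintype.card G)) h0
  have h1 := rc_le_of_forall h3 fun _ hr =>
    rComparison_of_traces hA hinf hα h h3 hr (crossed_le_of_states hA hinf hα h0 h2)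
  rw [ENNReal.ofReal_mul (Nat.cast_nonneg _), ENNReal.ofReal_natCast] at h1
  exact (ENNReal.inv_mul_le_iff (Nat.cast_ne_zero.2 Fintype.card_ne_zero)
    (ENNReal.natCast_ne_top _)).2 h1

end Pool.Agent.Lib.MP_f90f6c_an.H50
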