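import Pool.Agent.Lib.MP_f90f6c_an.H64Defs

/-!
Embeddings of one small element into multiples of mutually orthogonal slots.
-/

namespace Pool.Agent.Lib.MP_f90f6c_an.H50

open Filter Topology Matrix

set_option linter.unusedSectionVars false

variable {D : Type*} [CStarAlgebra D] [PartialOrder D] [StarOrderedRing D]
variable {m n r : Type*} [Fintype m] [DecidableEq m] [Fintype n] [DecidableEq n]
  [Fintype r] [DecidableEq r]

lemma slot_factor {w : Matrix r r D} {k : Matrix m m D} (hw : 0 ≤ w) (hk : 0 ≤ k) {N : ℕ}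
    (h : cls w ≤ N • cls k) {e : ℝ} (he : 0 < e) {f : ℝ → ℝ} (hf : Continuous f)
    (hf0 : ∀ t, 0 ≤ f t) (hfe : ∀ t, t ≤ e → f t = 0) :
    ∃ x : Fin N → Matrix m r D, ∑ i, (x i)ᴴ * x i = cfc f w ∧ ∀ i, Dom (x i * (x i)ᴴ) k := by
  have h0 : 0 ≤ blockDiagonal fun _ : Fin N => k := bd_nonneg fun _ => hk
  have h1 : cls w ≤ cls (blockDiagonal fun _ : Fin N => k) := by
    rw [cls_bd fun _ => hk]
    simpa using h
  obtain ⟨δ, hδ, X, hX, hg⟩ := ((cls_le_cls hw h0).1 h1).exists_factor (.of_nonneg hw) h0 he hf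
    hf0 fun t _ => hfe t
  let ι : Fin N → Matrix m (m × Fin N) D := fun i => Matrix.of fun s p => if p = (s, i) then 1 else 0
  have q1 : Continuous fun t : ℝ => min (max t 0 / δ) 1 := by fun_prop
  refine ⟨fun i => ι i * X, ?_, fun i => ?_⟩
  · rw [← hX]
    ext s t
    simp only [ι, Matrix.sum_apply, Matrix.mul_apply, conjTranspose_apply, of_apply, ite_mul,
      one_mul, zero_mul, Finset.sum_ite_eq', Finset.mem_univ, if_true, Fintype.sum_prod_type]
    exact Finset.sum_comm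
  · have e1 : ι i * (blockDiagonal fun _ : Fin N => k) = k * ι i := by
      ext s ⟨t, j⟩
      by_cases hj : j = i
      · simp [ι, Matrix.mul_apply, hj]
      · simp [ι, Matrix.mul_apply, blockDiagonal_apply', hj, Ne.symm hj]
    have e2 := cfc_intertwine _ q1 (.of_nonneg h0) (.of_nonneg hk) (ι i) e1
    set G := cfc (fun t : ℝ => min (max t 0 / δ) 1) k with hG
    have hGs : Gᴴ = G := star_cfc _ _
    have e3 : ι i * X = G * (ι i * X) := by
      rw [← Matrix.mul_assoc, ← e2, Matrix.mul_assoc, hg _ q1 fun t ht => min_eq_right (by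
        rw [le_div_iff₀ hδ, one_mul]; exact le_max_of_le_left ht)]
    have h2 := conj_le_conj G
      (IsSelfAdjoint.of_nonneg (mul_conjT_self_nonneg (ι i * X))).le_algebraMap_norm_self
    rw [← Matrix.mul_assoc, ← e3, Matrix.mul_assoc, ← conjTranspose_mul, ← e3, hGs,
      Algebra.algebraMap_eq_smul_one, mul_smul_comm, mul_one, smul_mul_assoc] at h2
    refine Dom.trans ⟨_, norm_nonneg _, h2⟩ ?_
    rw [hG, cfc_mul_cfc q1 q1]
    refine Dom.cfc hk (q1.mul q1) (inv_nonneg.2 hδ.le) fun t ht => ?_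
    rw [max_eq_left ht, ← div_eq_inv_mul]
    have h2 := min_le_left (t / δ) 1
    have h3 := min_le_right (t / δ) 1
    have h4 : 0 ≤ min (t / δ) 1 := le_min (by positivity) zero_le_one
    nlinarith

lemma slot_step {r : Type} [Fintype r] [DecidableEq r] {w : Matrix r r D} {k : Matrix m m D}
    (hw : 0 ≤ w) (hk : 0 ≤ k) {N : ℕ} (h : cls w ≤ N • cls k) :
    ∃ (y : Fin N → Matrix m r D) (κ : Matrix m m D), ∑ i, (y i)ᴴ * y i = rmp w ∧
      (∀ i, Dom (y i * (y i)ᴴ) k) ∧ 0 ≤ κ ∧ Dom κ k ∧ (∀ i, (y i)ᴴ * κ = 0) ∧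
      cls k ≤ cls κ + N • cls w := by
  obtain ⟨x, hx, hd⟩ := slot_factor hw hk h (e := 1 / 12) (by norm_num)
    (f := fun t => max (t - 1 / 12) 0) (by fun_prop) (fun _ => le_max_right _ _)
    fun t ht => max_eq_right (by linarith)
  rw [← cut] at hx
  have hc : 0 ≤ ∑ i, x i * (x i)ᴴ := Finset.sum_nonneg fun i _ => mul_conjT_self_nonneg _
  have hck : Dom (∑ i, x i * (x i)ᴴ) k := Dom.sum _ hd
  have h1 : cls (∑ i, x i * (x i)ᴴ) ≤ N • cls w := by
    refine (cls_sum_le _ fun i => mul_conjT_self_nonneg _).trans ?_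
    have : ∀ i, cls (x i * (x i)ᴴ) ≤ cls w := fun i => by
      rw [← cls_conjT_mul]
      refine cls_mono (conjT_mul_self_nonneg _) (le_trans ?_ (cut_le_self (ε := 1 / 12)
        (by norm_num) hw))
      rw [← hx]
      exact Finset.single_le_sum (f := fun i => (x i)ᴴ * x i)
        (fun i _ => conjT_mul_self_nonneg _) (Finset.mem_univ i)
    simpa using Finset.sum_le_sum fun i (_ : i ∈ Finset.univ) => this i
  have h2 : cls (cut (1 / 12) w) ≤ cls (blockDiagonal fun _ : Fin N => ∑ i, x i * (x i)ᴴ) := by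
    rw [cls_bd fun _ => hc, ← hx]
    refine (cls_sum_le _ fun i => conjT_mul_self_nonneg _).trans (Finset.sum_le_sum fun i _ => ?_)
    rw [cls_conjT_mul]
    exact cls_mono (mul_conjT_self_nonneg _) (Finset.single_le_sum (f := fun i => x i * (x i)ᴴ)
      (fun i _ => mul_conjT_self_nonneg _) (Finset.mem_univ i))
  obtain ⟨η, hη, h3⟩ := ((LL.cut_cut hw (show (1 / 12 : ℝ) < 1 / 6 by norm_num)).mono le_rfl
    h2).exists_cut (bd_nonneg fun _ => hc)
  rw [cut_bd _ fun _ => hc, cls_bd fun _ => cut_nonneg _ _] at h3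
  obtain ⟨y, hy, hyd⟩ := slot_factor (N := N) (cut_nonneg (1 / 6) w)
    (cut_nonneg η (∑ i, x i * (x i)ᴴ)) (by simpa using h3) (e := 1 / 6) (by norm_num)
    (f := fun t => ramp (t + 1 / 6)) (continuous_ramp.comp (by fun_prop))
    (fun _ => ramp_nonneg _) fun t ht => ramp_eq_zero (by linarith)
  obtain ⟨κ, k1, k2, -, k4, k5⟩ := exists_compl_dom hk hc hck hη
  refine ⟨y, κ, ?_, fun i => (hyd i).trans ((Dom.of_le (cut_le_self hη.le hc)).trans hck), k1, k2,
    fun i => k4 _ (hyd i), k5.trans (add_le_add le_rfl h1)⟩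
  have q : Continuous fun t : ℝ => ramp (t + 1 / 6) := continuous_ramp.comp (by fun_prop)
  rw [hy, cut, ← cfc_comp' _ _ w q.continuousOn, rmp]
  refine cfc_congr fun t _ => ?_
  rcases le_total t (1 / 6) with ht | ht
  · rw [max_eq_right (by linarith), ramp_eq_zero (by norm_num), ramp_eq_zero (by linarith)]
  · rw [max_eq_left (by linarith), sub_add_cancel]

lemma slot_ind {r : Type} [Fintype r] [DecidableEq r] {w : Matrix r r D} (hw : 0 ≤ w) {N : ℕ}
    {c₀ : ℝ} (hc : ∀ c : W D, (∀ s, IsState (W.u D) s → c₀ < s c) → cls w ≤ N • c) (L : ℕ) :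
    ∀ k : Matrix m m D, 0 ≤ k →
      (∀ s, IsState (W.u D) s → c₀ + L * N * s (cls w) < s (cls k)) →
      ∃ a : Fin L → Fin N → Matrix m r D, (∀ j, ∑ i, (a j i)ᴴ * a j i = rmp w) ∧
        (∀ j j', j ≠ j' → ∀ i i', (a j i)ᴴ * a j' i' = 0) ∧ ∀ j i, Dom (a j i * (a j i)ᴴ) k := by
  induction L with
  | zero => exact fun k _ _ => ⟨fun j => j.elim0, fun j => j.elim0, fun j => j.elim0,
      fun j => j.elim0⟩
  | succ L ih =>
    intro k hk h
    obtain ⟨y, κ, y1, y2, k1, k2, k3, k4⟩ := slot_step hw hk (hc (cls k) fun s hs => by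
      have := hs.nonneg W.zero_le (cls w)
      exact lt_of_le_of_lt (le_add_of_nonneg_right (by positivity)) (h s hs))
    obtain ⟨a, a1, a2, a3⟩ := ih κ k1 fun s hs => by
      have h1 := hs.mono k4
      have h2 := h s hs
      rw [map_add, map_nsmul, nsmul_eq_mul] at h1
      push_cast at h2
      linarith
    have o1 : ∀ i j i', (y i)ᴴ * a j i' = 0 := fun i j i' => (a3 j i').mul_eq_zero (k3 i)
    refine ⟨Fin.cons y a, fun j => ?_, fun j j' => ?_, fun j => ?_⟩
    · exact Fin.cases y1 a1 j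
    · refine Fin.cases (Fin.cases (fun h => (h rfl).elim) (fun j' _ i i' => o1 i j' i') j')
        (fun j => Fin.cases (fun _ i i' => ?_)
          (fun j' h => a2 j j' fun e => h (by rw [e])) j') j
      simpa using congrArg conjTranspose (o1 i' j i)
    · exact Fin.cases y2 (fun j i => (a3 j i).trans k2) j

theorem exists_slots (hF : FIN D) {ε : ℝ} (hε : 0 < ε) : ∃ (N : ℕ) (η : ℝ), 0 < N ∧ 0 < η ∧
    ∀ (m r J : Type) [Fintype m] [DecidableEq m] [Fintype r] [DecidableEq r] [Fintype J]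
      (k : Matrix m m D) (w : Matrix r r D), 0 ≤ k → 0 ≤ w →
      (∀ s, IsState (W.u D) s → ε < s (cls k)) → (∀ s, IsState (W.u D) s → s (cls w) < η) →
      (∀ s, IsState (W.u D) s → Fintype.card J * N * s (cls w) ≤ ε / 2) →
      ∃ a : J → Fin N → Matrix m r D, (∀ j, ∑ i, (a j i)ᴴ * a j i = rmp w) ∧
        (∀ j j', j ≠ j' → ∀ i i', (a j i)ᴴ * a j' i' = 0) ∧ ∀ j i, Dom (a j i * (a j i)ᴴ) k := by
  obtain ⟨N, η, hη, h⟩ := hF (ε / 2) (half_pos hε)
  refine ⟨N + 1, η, N.succ_pos, hη, fun m r J _ _ _ _ _ k w hk hw h1 h2 h3 => ?_⟩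
  obtain ⟨a, a1, a2, a3⟩ := slot_ind hw (N := N + 1) (c₀ := ε / 2)
    (fun c hc => (h _ c h2 hc).trans (W.nsmul_le N.le_succ c)) (Fintype.card J) k hk
    fun s hs => by linarith [h1 s hs, h3 s hs]
  exact ⟨fun j => a (Fintype.equivFin J j), fun j => a1 _,
    fun j j' hj => a2 _ _ fun e => hj ((Fintype.equivFin J).injective e), fun j => a3 _⟩

end Pool.Agent.Lib.MP_f90f6c_an.H50
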