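import Pool.Agent.Lib.MP_f90f6c_an.H64Defs

/-!
Traces and states; a positive element with prescribed traces.
-/

namespace Pool.Agent.Lib.MP_f90f6c_an.H50

open Filter Topology Matrix

set_option linter.unusedSectionVars false

variable {D : Type*} [CStarAlgebra D] [PartialOrder D] [StarOrderedRing D]
variable {m n r : Type*} [Fintype m] [DecidableEq m] [Fintype n] [DecidableEq n]
  [Fintype r] [DecidableEq r]

/-- the complex trace on matrices -/
noncomputable def trC (τ : TS D) : Matrix m m D →ₗ[ℂ] ℂ where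
  toFun a := τ.τ (∑ i, a i i)
  map_add' a b := by simp [Finset.sum_add_distrib]
  map_smul' c a := by simp [← Finset.smul_sum]

lemma trC_apply (τ : TS D) (a : Matrix m m D) : trC τ a = τ.τ (∑ i, a i i) := rfl

lemma trC_comm (τ : TS D) (x : Matrix m n D) (y : Matrix n m D) :
    trC τ (x * y) = trC τ (y * x) := by
  simp only [trC_apply, Matrix.mul_apply, map_sum]
  rw [Finset.sum_comm]
  simp only [τ.comm (x _ _)]

lemma tr_im_nonneg (τ : TS D) {a : D} (ha : 0 ≤ a) : (τ.τ a).im = 0 := by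
  obtain ⟨s, rfl⟩ := CStarAlgebra.nonneg_iff_eq_star_mul_self.1 ha
  exact τ.im_zero s

lemma trC_isQ (τ : TS D) : IsQuasitrace (trC τ : Matrix m m D → ℂ) where
  star_mul_eq x := trC_comm τ _ _
  re_nonneg x := τ.Tr_nonneg (star_mul_self_nonneg x)
  im_eq_zero x :=
    tr_im_nonneg τ (Finset.sum_nonneg fun i _ => diag_nonneg (star_mul_self_nonneg x) i)
  add_of_comm _ _ _ x _ y _ := map_add _ x y
  smul_of_comm _ _ _ c x _ := map_smul _ c x
  re_add_im a b _ _ := by rw [map_add, map_smul, smul_eq_mul]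

/-- the quasitrace family of a tracial state -/
noncomputable def trQT (τ : TS D) : QT D where
  τ k a := trC τ (CStarMatrix.ofMatrix.symm a)
  isQuasitrace k := trC_isQ (m := Fin k) τ
  compat k N h a := by
    have h1 := corner_eq h (CStarMatrix.ofMatrix.symm a)
    rw [Equiv.apply_symm_apply] at h1
    rw [h1, Equiv.symm_apply_apply, trC_comm, ← Matrix.mul_assoc, incl_conjT_mul, Matrix.one_mul]
  normalized := by
    change τ.τ (∑ i : Fin 1, (1 : Matrix (Fin 1) (Fin 1) D) i i) = 1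
    simp [τ.one]

lemma tr_low (t : QT D) {k : ℕ} {a : Matrix (Fin k) (Fin k) D} (ha : 0 ≤ a) (ha1 : a ≤ 1) :
    (t.tm k a).re ≤ dimS (t.tm k) a := by
  have hs : IsSelfAdjoint a := .of_nonneg ha
  have h1 : ∀ x ∈ spectrum ℝ a, x ≤ 1 := by
    rw [← cfc_id' ℝ a] at ha1
    exact (cfc_le_one_iff (fun x : ℝ => x) a).1 ha1
  have h2 : cfc (fun x : ℝ => min (max x 0) 1) a = a := by
    conv_rhs => rw [← cfc_id' ℝ a]
    refine cfc_congr fun x hx => ?_
    simp only [max_eq_left (spectrum_nonneg_of_nonneg ha hx), min_eq_left (h1 x hx)]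
  have h3 := (t.isQ k).le_dimS ha (f := fun x : ℝ => min (max x 0) 1)
    ⟨by fun_prop, fun x => le_min (le_max_right _ _) zero_le_one, fun x => min_le_right _ _,
      by simp⟩
  rwa [h2] at h3

lemma tr_rel (t : QT D) {s : W D →+ ℝ} {τ : TS D}
    (hTr : ∀ (k : ℕ) (a : Matrix (Fin k) (Fin k) D), 0 ≤ a → τ.Tr a = (t.tm k a).re)
    (h : ∀ (k : ℕ) (a : Matrix (Fin k) (Fin k) D), 0 ≤ a →
      dimS (t.tm k) a ≤ s (cls a) ∧ ∀ x, LL x (cls a) → s x ≤ dimS (t.tm k) a) : Rel s τ where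
  low k a ha ha1 := (hTr k a ha).trans_le ((tr_low t ha ha1).trans (h k a ha).1)
  up k a ha ρ ε hρ hε := by
    have h1 := ((h k _ (cut_nonneg ρ a)).2 _ (LL.cut_cut ha hε)).trans
      ((t.isQ k).dimS_cut_le ha hρ)
    rwa [le_inv_mul_iff₀ hρ, ← hTr k a ha] at h1

theorem TS.exists_state (τ : TS D) : ∃ s, IsState (W.u D) s ∧ Rel s τ := by
  obtain ⟨s, hs, h⟩ := (trQT τ).exists_state
  refine ⟨s, hs, tr_rel (trQT τ) (fun k a _ => rfl) fun k a ha => ?_⟩
  rw [← (trQT τ).d_eq ha, ← h k a ha]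
  exact ⟨le_rfl, fun x hx => hs.mono hx.le⟩

theorem QTAreTraces.traces (h : QTAreTraces D) : Traces D := by
  intro s hs
  obtain ⟨t, ht⟩ := hs.exists_qt_LL
  let L : D →ₗ[ℂ] ℂ := ((t.isQ 1).lin (h t 1)).comp (diagHom (m := Fin 1)).toLinearMap
  have hL : ∀ a, L a = t.tm 1 (diagHom (m := Fin 1) a) := fun a => rfl
  let τ : TS D :=
    { τ := L
      comm := fun x y => by
        rw [hL, hL, map_mul, map_mul]
        exact (t.isQ 1).mul_comm (h t 1) _ _
      re_nonneg := fun x => by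
        rw [hL, map_mul, map_star]
        exact (t.isQ 1).re_nonneg _
      im_zero := fun x => by
        rw [hL, map_mul, map_star]
        exact (t.isQ 1).im_eq_zero _
      one := t.tr_one }
  refine ⟨τ, tr_rel t (fun k a ha => ?_) ht⟩
  have c := t.tm_conj h (a := rt a) (star_rt a) zero_le_one
  rw [dg, diagonal_one, mul_one, rt_mul_rt ha] at c
  simp only [mul_one] at c
  rw [c, TS.Tr_apply, TS.re_apply, map_sum]
  rfl

lemma tr_im_sa (τ : TS D) {h : D} (hh : IsSelfAdjoint h) : (τ.τ h).im = 0 := by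
  rw [← CFC.posPart_sub_negPart h hh, map_sub, Complex.sub_im,
    tr_im_nonneg τ (CFC.posPart_nonneg h), tr_im_nonneg τ (CFC.negPart_nonneg h), sub_zero]

lemma tr_re_I (τ : TS D) {h : D} (hh : IsSelfAdjoint h) : τ.re (Complex.I • h) = 0 := by
  rw [TS.re_apply, map_smul, smul_eq_mul, Complex.mul_re, tr_im_sa τ hh]
  simp

lemma tr_norm_sub {h : D} (hh : IsSelfAdjoint h) : 0 ≤ ‖h‖ • (1 : D) - h := by
  rw [sub_nonneg, ← Algebra.algebraMap_eq_smul_one]
  exact hh.le_algebraMap_norm_self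

lemma tr_norm_add {h : D} (hh : IsSelfAdjoint h) : 0 ≤ ‖h‖ • (1 : D) + h := by
  simpa using tr_norm_sub hh.neg

lemma tr_abs_le (τ : TS D) (y : D) : |τ.re y| ≤ ‖y‖ := by
  have h1 : τ.re y = τ.re (realPart y) := by
    conv_lhs => rw [← realPart_add_I_smul_imaginaryPart y, map_add,
      tr_re_I τ (imaginaryPart y).2, add_zero]
  have h2 := τ.re_nonneg' (tr_norm_sub (realPart y).2)
  have h3 := τ.re_nonneg' (tr_norm_add (realPart y).2)
  have h4 : ‖(realPart y : D)‖ ≤ ‖y‖ := realPart.norm_le y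
  rw [map_sub, map_smul, τ.re_one, smul_eq_mul, mul_one] at h2
  rw [map_add, map_smul, τ.re_one, smul_eq_mul, mul_one] at h3
  rw [h1, abs_le]
  constructor <;> linarith

/-- Hahn-Banach: a function `τ ↦ τ x` that is nonnegative is close to `τ ↦ τ b` with `0 ≤ b` -/
theorem exists_pos_of_traces {x : D} (hx : ∀ τ : TS D, 0 ≤ τ.re x) {ρ : ℝ} (hρ : 0 < ρ) :
    ∃ b : D, 0 ≤ b ∧ ∀ τ : TS D, |τ.re b - τ.re x| ≤ ρ := by
  let C : Submodule ℝ D := Submodule.span ℝ
    ({y | ∃ u v : D, y = u * v - v * u} ∪ {y | ∃ h : D, IsSelfAdjoint h ∧ y = Complex.I • h})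
  have hC1 : ∀ u v : D, u * v - v * u ∈ C := fun u v =>
    Submodule.subset_span (Or.inl ⟨u, v, rfl⟩)
  have hC2 : ∀ h : D, IsSelfAdjoint h → Complex.I • h ∈ C := fun h hh =>
    Submodule.subset_span (Or.inr ⟨h, hh, rfl⟩)
  have hC : ∀ (τ : TS D), ∀ c ∈ C, τ.re c = 0 := fun τ c hc => by
    have : C ≤ LinearMap.ker τ.re := Submodule.span_le.2 (by
      rintro _ (⟨u, v, rfl⟩ | ⟨h, hh, rfl⟩)
      · simp [TS.re_apply, τ.comm u v]
      · exact tr_re_I τ hh)
    exact this hc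
  let S : Set D := {y | ∃ b c : D, 0 ≤ b ∧ c ∈ C ∧ y = b + c}
  have hS : Convex ℝ S := by
    rintro _ ⟨b, c, hb, hc, rfl⟩ _ ⟨b', c', hb', hc', rfl⟩ p q hp hq -
    refine ⟨p • b + q • b', p • c + q • c', add_nonneg (smul_nonneg hp hb) (smul_nonneg hq hb'),
      C.add_mem (C.smul_mem _ hc) (C.smul_mem _ hc'), ?_⟩
    simp only [smul_add]
    abel
  by_cases hxS : x ∈ closure S
  · obtain ⟨_, ⟨b, c, hb, hc, rfl⟩, hd⟩ := Metric.mem_closure_iff.1 hxS ρ hρ
    refine ⟨b, hb, fun τ => ?_⟩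
    have h1 := tr_abs_le τ (b + c - x)
    rw [map_sub, map_add, hC τ c hc, add_zero, ← dist_eq_norm, dist_comm] at h1
    exact h1.trans hd.le
  exfalso
  obtain ⟨f, u, hfx, hf⟩ := RCLike.geometric_hahn_banach_point_closed (𝕜 := ℂ) hS.closure
    isClosed_closure hxS
  simp only [RCLike.re_to_complex] at hfx hf
  have hu : u < 0 := by
    simpa using hf 0 (subset_closure ⟨0, 0, le_rfl, C.zero_mem, by simp⟩)
  have hre : ∀ (t : ℝ) (y : D), (f (t • y)).re = t * (f y).re := fun t y => by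
    rw [f.map_smul_of_tower, Complex.real_smul, Complex.re_ofReal_mul]
  have key : ∀ b c : D, 0 ≤ b → c ∈ C → 0 ≤ (f (b + c)).re := fun b c hb hc => by
    by_contra h0
    push Not at h0
    have ht : 0 ≤ u / (f (b + c)).re := div_nonneg_of_nonpos hu.le h0.le
    have h1 := hf ((u / (f (b + c)).re) • (b + c))
      (subset_closure ⟨_, _, smul_nonneg ht hb, C.smul_mem _ hc, smul_add _ _ _⟩)
    rw [hre, div_mul_cancel₀ _ h0.ne] at h1
    exact lt_irrefl _ h1
  have p1 : ∀ b : D, 0 ≤ b → 0 ≤ (f b).re := fun b hb => by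
    simpa using key b 0 hb C.zero_mem
  have p2 : ∀ c ∈ C, (f c).re = 0 := fun c hc => by
    have h1 := key 0 c le_rfl hc
    have h2 := key 0 (-c) le_rfl (C.neg_mem hc)
    rw [zero_add] at h1 h2
    rw [map_neg, Complex.neg_re] at h2
    linarith
  have p3 : ∀ h : D, IsSelfAdjoint h → (f h).im = 0 := fun h hh => by
    simpa using p2 _ (hC2 h hh)
  have p4 : ∀ v w : D, f (v * w) = f (w * v) := fun v w => by
    have h1 := p2 _ (hC1 v w)
    have h2 := p2 _ (hC1 (Complex.I • v) w)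
    rw [smul_mul_assoc, mul_smul_comm, ← smul_sub, map_smul, smul_eq_mul] at h2
    rw [← sub_eq_zero, ← map_sub]
    rw [Complex.I_mul_re, neg_eq_zero] at h2
    exact Complex.ext h1 h2
  have p5 : 0 < (f 1).re := by
    refine (p1 1 zero_le_one).lt_of_ne fun h0 => ?_
    have h1 := p1 _ (tr_norm_add (realPart x).2)
    rw [map_add, Complex.add_re, hre, ← h0, mul_zero, zero_add] at h1
    have h2 : (f x).re = (f (realPart x)).re := by
      conv_lhs => rw [← realPart_add_I_smul_imaginaryPart x, map_add, Complex.add_re,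
        p2 _ (hC2 _ (imaginaryPart x).2), add_zero]
    linarith
  let τ : TS D :=
    { τ := (((f 1).re⁻¹ : ℝ) : ℂ) • f.toLinearMap
      comm := fun v w => by simp [p4 v w]
      re_nonneg := fun v => by
        change 0 ≤ ((((f 1).re⁻¹ : ℝ) : ℂ) * f (star v * v)).re
        rw [Complex.re_ofReal_mul]
        exact mul_nonneg (inv_nonneg.2 p5.le) (p1 _ (star_mul_self_nonneg v))
      im_zero := fun v => by
        change ((((f 1).re⁻¹ : ℝ) : ℂ) * f (star v * v)).im = 0
        rw [Complex.im_ofReal_mul, p3 _ (IsSelfAdjoint.star_mul_self v), mul_zero]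
      one := by
        change (((f 1).re⁻¹ : ℝ) : ℂ) * f 1 = 1
        refine Complex.ext ?_ ?_
        · rw [Complex.re_ofReal_mul, inv_mul_cancel₀ p5.ne', Complex.one_re]
        · rw [Complex.im_ofReal_mul, p3 _ (IsSelfAdjoint.one D), mul_zero, Complex.one_im] }
  have h1 := hx τ
  change 0 ≤ ((((f 1).re⁻¹ : ℝ) : ℂ) * f x).re at h1
  rw [Complex.re_ofReal_mul] at h1
  have h2 := mul_neg_of_pos_of_neg (inv_pos.2 p5) (hfx.trans hu)
  linarith

end Pool.Agent.Lib.MP_f90f6c_an.H50
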