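import Pool.Agent.Lib.MP_f90f6c_an.H50Gam

/-!
The open (reverse) inequalities of Q1 hold when quasitraces on `A` are traces and `A` has uniform property Γ.
-/

namespace Pool.Agent.Lib.MP_f90f6c_an.UniformGamma

open Pool.Agent.Lib.MP_f90f6c_an.H50
open scoped ENNReal

theorem result {G : Type*} [Group G] [Fintype G] [DecidableEq G]
    {A : Type*} [CStarAlgebra A] [PartialOrder A] [StarOrderedRing A]
    (α : G →* (A ≃⋆ₐ[ℂ] A)) (hsimple : IsSimple A) (hinf : ¬FiniteDimensional ℂ A)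
    (htr : QTAreTraces A) (hΓ : UniformGamma A) (hα : WeakTracialRokhlin α) :
    rc A ≤ rc (fixedAlg α) ∧ (Fintype.card G : ℝ≥0∞)⁻¹ * rc A ≤ rc (crossed α) :=
  have H := reduces hsimple hinf hα (Or.inr (Or.inr (Or.inr ⟨htr, hΓ⟩)))
  ⟨H.rc_le_fixed, H.rc_le_crossed hsimple hinf hα⟩

end Pool.Agent.Lib.MP_f90f6c_an.UniformGamma
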