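import Pool.Agent.Lib.MP_f90f6c_an.H85Int

/-!
Approximate infima and division of ranks.
-/

namespace Pool.Agent.Lib.MP_f90f6c_an.H50

open Filter Topology Matrix

set_option linter.unusedSectionVars false

variable {D : Type*} [CStarAlgebra D] [PartialOrder D] [StarOrderedRing D]
variable {m n : Type} [Fintype m] [DecidableEq m] [Fintype n] [DecidableEq n]

/-- compactness of the state space -/
lemma ai_cover {ι : Type*} (U : ι → Set (W D → ℝ)) (hU : ∀ i, IsOpen (U i))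
    (h : ∀ s, IsState (W.u D) s → ∃ i, ⇑s ∈ U i) :
    ∃ F : Finset ι, ∀ s, IsState (W.u D) s → ∃ i ∈ F, ⇑s ∈ U i := by
  let T : Set (W D → ℝ) := {f | (∀ x y, f (x + y) = f x + f y) ∧ Monotone f ∧ f (W.u D) = 1}
  have hT : ∀ f (hf : f ∈ T), IsState (W.u D) (AddMonoidHom.mk' f hf.1) := fun f hf =>
    ⟨hf.2.1, hf.2.2⟩
  have hT' : ∀ s, IsState (W.u D) s → ⇑s ∈ T := fun s hs => ⟨map_add s, hs.mono, hs.unit⟩
  choose k hk using W.exists_le_nsmul (A := D)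
  have hc : IsCompact T := by
    refine (isCompact_univ_pi fun x => isCompact_Icc (a := (0 : ℝ)) (b := k x)).of_isClosed_subset
      ?_ fun f hf x _ => ⟨(hT f hf).nonneg W.zero_le x,
        ((hT f hf).mono (hk x)).trans_eq ((hT f hf).nsmul_unit _)⟩
    simp only [T, Set.ofPred_and, Set.ofPred_forall, Monotone]
    exact (isClosed_iInter fun x => isClosed_iInter fun y => isClosed_eq (by fun_prop)
      (by fun_prop)).inter ((isClosed_iInter fun x => isClosed_iInter fun y =>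
        isClosed_iInter fun _ => isClosed_le (by fun_prop) (by fun_prop)).inter
          (isClosed_eq (by fun_prop) continuous_const))
  obtain ⟨F, hF⟩ := hc.elim_finite_subcover U hU fun f hf => by
    obtain ⟨i, hi⟩ := h _ (hT f hf)
    exact Set.mem_iUnion.2 ⟨i, hi⟩
  refine ⟨F, fun s hs => ?_⟩
  obtain ⟨i, h1, h2⟩ := Set.mem_iUnion₂.1 (hF (hT' s hs))
  exact ⟨i, h1, h2⟩

lemma ai_nsmul {x y : W D} (h : LL x y) (k : ℕ) : LL (k • x) (k • y) := by
  induction k with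
  | zero => simpa using LL.zero (0 : W D)
  | succ k ih =>
    rw [succ_nsmul, succ_nsmul]
    exact ih.add h

/-- Edwards' condition at one state, relative to a bound with real coefficients -/
lemma ai_local {x' x c₁ c₂ g : W D} (hx : LL x' x) {a b t η : ℝ} (ha : 0 ≤ a) (hb : 0 ≤ b)
    (hη : 0 < η) (h₁ : ∀ s, IsState (W.u D) s → a * s x ≤ s c₁ + b * s g + t)
    (h₂ : ∀ s, IsState (W.u D) s → a * s x ≤ s c₂ + b * s g + t) {s : W D →+ ℝ}
    (hs : IsState (W.u D) s) :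
    ∃ z' z, LL z' z ∧ z ≤ c₁ ∧ z ≤ c₂ ∧ a * s x' < s z' + b * s g + (t + η) := by
  obtain ⟨s', p1, p2, p3, p4⟩ := hs.exists_lsc
  obtain ⟨z, z1, z2, z3⟩ := exists_edwards_seq p1.mono p2 c₁ c₂
  have key : ∀ (p : W D →+ ℝ) (c : W D), Monotone p →
      (∀ s, IsState (W.u D) s → a * s x ≤ s c + b * s g + t) →
      a * p x ≤ p c + b * p g + p (W.u D) * t := by
    intro p c hp hc
    rcases exists_state_smul hp with rfl | ⟨p0, s₁, hs₁, hp1⟩
    · simp
    · rw [hp1 x, hp1 c, hp1 g]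
      have := mul_le_mul_of_nonneg_left (hc _ hs₁) p0.le
      linarith
  obtain ⟨k, hk⟩ := (z3 s' p1.mono p2 (fun _ => le_rfl) (a * s' x - b * s' g - t - η)
    fun p hp hp' => by
      have a1 := key p c₂ hp h₂
      have a2 := key (s' - p) c₁ hp' h₁
      simp only [AddMonoidHom.sub_apply, p1.unit] at a2 ⊢
      linarith).exists
  obtain ⟨z', q1, q2⟩ := p2 _ _ hk
  exact ⟨z', z k, q1, z1 k, z2 k, by
    linarith [p3 z', mul_le_mul_of_nonneg_left (p3 g) hb,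
      mul_le_mul_of_nonneg_left (p4 _ _ hx) ha]⟩

/-- finitely many common lower bounds have a common improvement -/
lemma ai_finset (hTi : Tiny D) (hF : FIN D) {x y : W D} {ι : Type*} (F : Finset ι) {z' z : ι → W D}
    (h : ∀ i, LL (z' i) (z i)) (h₁ : ∀ i, z i ≤ x) (h₂ : ∀ i, z i ≤ y) {δ : ℝ} (hδ : 0 < δ) :
    ∃ e' e, LL e' e ∧ e ≤ x ∧ e ≤ y ∧
      ∀ i ∈ F, ∀ s, IsState (W.u D) s → s (z' i) - δ ≤ s e' := by
  classical
  induction F using Finset.induction_on with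
  | empty => exact ⟨0, 0, LL.zero _, W.zero_le _, W.zero_le _, by simp⟩
  | insert i F _ ih =>
    obtain ⟨e', e, a1, a2, a3, a4⟩ := ih
    obtain ⟨f', f, b1, b2, b3, b4, b5⟩ := interp_small hTi hF (h i) a1 (h₁ i) (h₂ i) a2 a3 hδ
    refine ⟨f', f, b1, b2, b3, fun j hj s hs => ?_⟩
    rcases Finset.mem_insert.1 hj with rfl | hj
    · exact b5 s hs
    · exact (a4 j hj s hs).trans (hs.mono b4)

/-- approximate infimum of two classes -/
theorem ai_two (hTi : Tiny D) (hF : FIN D) {x' x c₁ c₂ g : W D} (hx : LL x' x) {a b t η : ℝ}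
    (ha : 0 ≤ a) (hb : 0 ≤ b) (hη : 0 < η)
    (h₁ : ∀ s, IsState (W.u D) s → a * s x ≤ s c₁ + b * s g + t)
    (h₂ : ∀ s, IsState (W.u D) s → a * s x ≤ s c₂ + b * s g + t) :
    ∃ e' e, LL e' e ∧ e ≤ c₁ ∧ e ≤ c₂ ∧
      ∀ s, IsState (W.u D) s → a * s x' ≤ s e' + b * s g + (t + η) := by
  obtain ⟨F, hC⟩ := ai_cover (D := D)
    (ι := {p : W D × W D // LL p.1 p.2 ∧ p.2 ≤ c₁ ∧ p.2 ≤ c₂})
    (fun p => {f | a * f x' < f p.1.1 + b * f g + (t + η / 2)})
    (fun p => isOpen_lt (by fun_prop) (by fun_prop)) fun s hs => by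
      obtain ⟨z', z, q1, q2, q3, q4⟩ := ai_local hx ha hb (half_pos hη) h₁ h₂ hs
      exact ⟨⟨(z', z), q1, q2, q3⟩, q4⟩
  obtain ⟨e', e, a1, a2, a3, a4⟩ := ai_finset hTi hF F (z' := fun p => p.1.1) (z := fun p => p.1.2)
    (fun p => p.2.1) (fun p => p.2.2.1) (fun p => p.2.2.2) (half_pos hη)
  refine ⟨e', e, a1, a2, a3, fun s hs => ?_⟩
  obtain ⟨p, h3, h4⟩ := hC s hs
  have h5 : a * s x' < s p.1.1 + b * s g + (t + η / 2) := h4
  linarith [a4 p h3 s hs]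

theorem approx_inf (hTi : Tiny D) (hF : FIN D) {x y g' g f : W D} (hg : LL g' g) {t ν μ : ℝ}
    (hν : 0 ≤ ν) (hμ : 0 ≤ μ) (hx : ∀ s, IsState (W.u D) s → t + ν * s g - μ * s f ≤ s x)
    (hy : ∀ s, IsState (W.u D) s → t + ν * s g - μ * s f ≤ s y) {ε : ℝ} (hε : 0 < ε) :
    ∃ c' c, LL c' c ∧ c ≤ x ∧ c ≤ y ∧
      ∀ s, IsState (W.u D) s → t + ν * s g' - μ * s f - ε ≤ s c' := by
  obtain ⟨e', e, a1, a2, a3, a4⟩ := ai_two hTi hF (c₁ := x) (c₂ := y) (g := f) (t := -t) hg hν hμ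
    hε (fun s hs => by linarith [hx s hs]) fun s hs => by linarith [hy s hs]
  exact ⟨e', e, a1, a2, a3, fun s hs => by linarith [a4 s hs]⟩

/-- approximate infimum of finitely many classes -/
theorem ai_inf_finset (hTi : Tiny D) (hF : FIN D) {ι : Type*} (F : Finset ι) {c₀ g : W D} {c : ι → W D}
    {b t : ℝ} (hb : 0 ≤ b) (h₀ : ∀ s, IsState (W.u D) s → t ≤ s c₀ + b * s g)
    (h : ∀ i, ∀ s, IsState (W.u D) s → t ≤ s (c i) + b * s g) {η : ℝ} (hη : 0 < η) :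
    ∃ e' e, LL e' e ∧ e ≤ c₀ ∧ (∀ i ∈ F, e ≤ c i) ∧
      ∀ s, IsState (W.u D) s → t - η ≤ s e' + b * s g := by
  classical
  induction F using Finset.induction_on generalizing η with
  | empty =>
    obtain ⟨e', e, a1, a2, -, a3⟩ := ai_two hTi hF (c₁ := c₀) (c₂ := c₀) (g := g) (t := -t)
      (LL.zero 0) le_rfl hb hη (fun s hs => by linarith [h₀ s hs]) fun s hs => by
        linarith [h₀ s hs]
    exact ⟨e', e, a1, a2, by simp, fun s hs => by linarith [a3 s hs]⟩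
  | insert i F _ ih =>
    obtain ⟨e', e, a1, a2, a3, a4⟩ := ih (half_pos hη)
    obtain ⟨f', f, b1, b2, b3, b4⟩ := ai_two hTi hF (c₁ := e) (c₂ := c i) (g := g) (t := η / 2 - t)
      (LL.zero 0) le_rfl hb (half_pos hη)
      (fun s hs => by linarith [a4 s hs, hs.mono a1.le]) fun s hs => by linarith [h i s hs]
    refine ⟨f', f, b1, b2.trans a2, fun j hj => ?_, fun s hs => by linarith [b4 s hs]⟩
    rcases Finset.mem_insert.1 hj with rfl | hj
    exacts [b3, b2.trans (a3 j hj)]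

lemma ai_big_open {t : ℝ} {x : W D} (h : Big (W.u D) t x) :
    ∃ t', t < t' ∧ ∀ s, IsState (W.u D) s → t' ≤ s x := by
  obtain ⟨k, l, j, h1, h2⟩ := h
  have hk : (0 : ℝ) < k + 1 := by positivity
  refine ⟨(l - j) / (k + 1), by rw [lt_div_iff₀ hk]; linarith, fun s hs => ?_⟩
  have h3 := hs.mono h1
  rw [map_add, hs.nsmul_unit, hs.nsmul_unit, map_nsmul, nsmul_eq_mul] at h3
  push_cast at h3
  rw [div_le_iff₀ hk]
  linarith

theorem hasInf_of_fin (hTi : Tiny D) (hF : FIN D) : HasInf D := fun t x y hx hy => by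
  obtain ⟨t₁, h1, h2⟩ := ai_big_open hx
  obtain ⟨t₂, h3, h4⟩ := ai_big_open hy
  have h5 : t < min t₁ t₂ := lt_min h1 h3
  obtain ⟨e', e, a1, a2, a3, a4⟩ := ai_two hTi hF (c₁ := x) (c₂ := y) (g := 0) (t := -min t₁ t₂)
    (LL.zero 0) le_rfl le_rfl (half_pos (sub_pos.2 h5))
    (fun s hs => by linarith [h2 s hs, min_le_left t₁ t₂]) fun s hs => by
      linarith [h4 s hs, min_le_right t₁ t₂]
  exact ⟨e, a2, a3, big_of_states W.zero_le W.exists_le_nsmul fun s hs => by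
    linarith [a4 s hs, hs.mono a1.le]⟩

theorem shrink_weak (hTi : Tiny D) (hF : FIN D) {e' e : W D} (h : LL e' e) {μ δ : ℝ} (hμ : 0 ≤ μ)
    (hμ1 : μ ≤ 1) (hδ : 0 < δ) : ∃ w' w, LL w' w ∧ w ≤ e ∧
      ∀ s, IsState (W.u D) s → μ * s e' - δ ≤ s w' ∧ s w ≤ μ * s e + δ := by
  have he := h
  have h0 := hμ
  have h1 := hμ1
  obtain ⟨m, hm⟩ := W.exists_le_nsmul e
  obtain ⟨e₁, he₀, he₁⟩ := he.interp
  obtain ⟨K, hK⟩ := exists_nat_gt (4 * m / δ)
  have hK0 : (0 : ℝ) < K := lt_of_le_of_lt (by positivity) hK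
  rw [div_lt_iff₀ hδ] at hK
  obtain ⟨p, hp1, hp2⟩ : ∃ p : ℕ, (p : ℝ) ≤ μ * K ∧ μ * K < p + 1 :=
    ⟨⌊μ * K⌋₊, Nat.floor_le (by positivity), Nat.lt_floor_add_one _⟩
  have hpK : (p : ℝ) ≤ K := hp1.trans (mul_le_of_le_one_left hK0.le h1)
  have hp0 : (0 : ℝ) ≤ p := Nat.cast_nonneg _
  obtain ⟨F, hC⟩ := ai_cover (D := D) (ι := {q : W D × W D // LL q.1 q.2 ∧ K • q.2 ≤ e})
    (fun q => {f | f e₁ < K * f q.1.1 + δ / 4})
    (fun q => isOpen_lt (by fun_prop) (by fun_prop)) fun s hs => by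
      obtain ⟨s', p1, p2, p3, p4⟩ := hs.exists_lsc
      obtain ⟨w', w, q1, q2, q3⟩ := local_div hTi p1 p2 e K (ρ := δ / 8) (by positivity)
        (Nat.cast_pos.1 hK0)
      refine ⟨⟨(w', w), q1, q2⟩, ?_⟩
      change s e₁ < K * s w' + δ / 4
      linarith [p4 _ _ he₁, mul_le_mul_of_nonneg_left (p3 w') hK0.le]
  have hc : ∀ q : {q : W D × W D // LL q.1 q.2 ∧ K • q.2 ≤ e},
      ∃ d, p • q.1.1 + d ≤ m • W.u D ∧ m • W.u D ≤ p • q.1.2 + d := fun q =>
    (ai_nsmul q.2.1 p).compl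
      ((nsmul_le_nsmul_left (W.zero_le _) (Nat.cast_le.1 hpK)).trans (q.2.2.trans hm))
  choose d d1 d2 using hc
  obtain ⟨c', c, a1, a2, a3, a4⟩ := ai_inf_finset hTi hF F (c₀ := m • W.u D) (g := e) (c := d) (t := m)
    h0 (fun s hs => by
      rw [hs.nsmul_unit]
      exact le_add_of_nonneg_right (mul_nonneg h0 (hs.nonneg W.zero_le e)))
    (fun q s hs => by
      have i1 := hs.mono (d2 q)
      have i2 := hs.mono q.2.2
      rw [map_add, hs.nsmul_unit, map_nsmul, nsmul_eq_mul] at i1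
      rw [map_nsmul, nsmul_eq_mul] at i2
      have i3 := mul_le_mul_of_nonneg_right hp1 (hs.nonneg W.zero_le q.1.2)
      have i4 := mul_le_mul_of_nonneg_left i2 h0
      linarith) hδ
  obtain ⟨v, v1, v2⟩ := a1.compl a2
  obtain ⟨w', w, b1, b2, b3, b4⟩ := ai_two hTi hF (c₁ := v) (c₂ := e) (g := 0) (t := δ / 2) he₀ h0
    le_rfl (half_pos hδ) (fun s hs => by
      obtain ⟨q, h3, h4⟩ := hC s hs
      have h5 : s e₁ < K * s q.1.1 + δ / 4 := h4
      have i1 := hs.mono ((add_le_add le_rfl (a3 q h3)).trans (d1 q))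
      have i2 := hs.mono v2
      have i4 := hs.mono ((nsmul_le_nsmul_right q.2.1.le K).trans (q.2.2.trans hm))
      rw [map_add, hs.nsmul_unit, map_nsmul, nsmul_eq_mul] at i1
      rw [map_add, hs.nsmul_unit] at i2
      rw [hs.nsmul_unit, map_nsmul, nsmul_eq_mul] at i4
      have i5 := hs.nonneg W.zero_le q.1.1
      have i6 : s q.1.1 ≤ δ / 4 := by
        refine le_of_mul_le_mul_left ?_ hK0
        linarith
      have i7 := mul_le_mul_of_nonneg_left h5.le h0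
      have i8 := mul_le_mul_of_nonneg_right hp2.le i5
      nlinarith)
    (fun s hs => by
      have := mul_le_mul h1 (hs.mono he₁.le) (hs.nonneg W.zero_le _) zero_le_one
      linarith)
  refine ⟨w', w, b1, b3, fun s hs => ⟨by linarith [b4 s hs], ?_⟩⟩
  have i1 := hs.mono v1
  rw [map_add, hs.nsmul_unit] at i1
  linarith [a4 s hs, hs.mono b2]

theorem shrink_of_fin (hTi : Tiny D) (hF : FIN D)
    (hP : ∀ e : W D, e ≠ 0 → ∃ σ : ℝ, 0 < σ ∧ ∀ s, IsState (W.u D) s → σ ≤ s e) : Shrink D := by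
  intro e' e he μ δ h0 h1 hδ
  obtain ⟨m, hm⟩ := W.exists_le_nsmul e
  have h2 : ∀ s, IsState (W.u D) s → s e' ≤ m := fun s hs =>
    (hs.mono (he.le.trans hm)).trans_eq (hs.nsmul_unit m)
  have hm0 : (0 : ℝ) ≤ m := Nat.cast_nonneg _
  obtain ⟨τ, hτ, hτ'⟩ : ∃ τ : ℝ, 0 < τ ∧ τ * (m + 1) = δ / 2 :=
    ⟨δ / 2 / (m + 1), by positivity, by field_simp⟩
  by_cases h3 : e = 0 ∨ μ ≤ τ
  · refine ⟨0, 0, LL.zero _, W.zero_le _, fun s hs => ?_⟩
    rw [map_zero]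
    refine ⟨?_, mul_nonneg h0 (hs.nonneg W.zero_le e)⟩
    rcases h3 with rfl | h3
    · have := mul_le_mul_of_nonneg_left (hs.mono he.le) h0
      rw [map_zero] at this
      linarith
    · have := mul_le_mul h3 (h2 s hs) (hs.nonneg W.zero_le _) hτ.le
      linarith
  push Not at h3
  obtain ⟨σ, hσ, h4⟩ := hP e h3.1
  obtain ⟨w', w, a1, a2, a3⟩ := shrink_weak hTi hF he (μ := μ - τ) (sub_pos.2 h3.2).le
    (by linarith) (lt_min (half_pos hδ) (mul_pos hτ hσ))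
  refine ⟨w', w, a1, a2, fun s hs => ⟨?_, ?_⟩⟩
  · have := mul_le_mul_of_nonneg_left (h2 s hs) hτ.le
    linarith [(a3 s hs).1, min_le_left (δ / 2) (τ * σ)]
  · have := mul_le_mul_of_nonneg_left (h4 s hs) hτ.le
    linarith [(a3 s hs).2, min_le_right (δ / 2) (τ * σ)]

end Pool.Agent.Lib.MP_f90f6c_an.H50
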