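import Pool.Agent.Lib.MP_f90f6c_an.H64Ed

/-!
Division of a class at one state, and at all states by finitely many divisions.
-/

namespace Pool.Agent.Lib.MP_f90f6c_an.H50

open Filter Topology Matrix

set_option linter.unusedSectionVars false

variable {D : Type*} [CStarAlgebra D] [PartialOrder D] [StarOrderedRing D]

lemma div_part {s₀ p q : W D →+ ℝ} (hp : Monotone (s₀ - p)) (hq : Monotone q) :
    Monotone (s₀ - (p - q)) := fun a b h => by
  have b1 : s₀ a - p a ≤ s₀ b - p b := hp h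
  have b2 := hq h
  change s₀ a - (p a - q a) ≤ s₀ b - (p b - q b)
  linarith

/-- Edwards' condition with an affine lower bound -/
lemma ed_stepL {s₀ : W D →+ ℝ} (hs : Monotone s₀) (hl : Lsc s₀) {x y : W D} {δ₁ δ₂ δ : ℝ}
    {L : (W D →+ ℝ) → ℝ} (hL : ∀ q p, L (q - p) = L q - L p)
    (hx : ∀ q : W D →+ ℝ, Monotone q → Monotone (s₀ - q) → L q - δ₁ ≤ q x)
    (hy : ∀ q : W D →+ ℝ, Monotone q → Monotone (s₀ - q) → L q - δ₂ ≤ q y) (hδ : 0 < δ) :
    ∃ z, z ≤ x ∧ z ≤ y ∧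
      ∀ q : W D →+ ℝ, Monotone q → Monotone (s₀ - q) → L q - (δ₁ + δ₂ + δ) ≤ q z := by
  obtain ⟨z, z1, z2, hz⟩ := exists_edwards_seq hs hl x y
  have hz' : ∀ q : W D →+ ℝ, Monotone q → Monotone (s₀ - q) → ∀ r : ℝ,
      (∀ p : W D →+ ℝ, Monotone p → Monotone (q - p) → r < p y + (q - p) x) →
        ∀ᶠ k in atTop, r < q (z k) := fun q h1 h2 =>
    hz q h1 (ed_lsc hl h2) fun w => sub_nonneg.1 (mono_nonneg h2 w)
  have k1 : ∀ q : W D →+ ℝ, Monotone q → Monotone (s₀ - q) → ∀ r : ℝ, r < meetV q x y →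
      ∀ᶠ k in atTop, r < q (z k) := fun q h1 h2 r hr => hz' q h1 h2 r fun p p1 p2 => by
    obtain ⟨w, w1, w2, w3⟩ := ed_exists hr
    have a1 := p1 w2
    have a2 : q w - p w ≤ (q - p) x := p2 w1
    linarith
  obtain ⟨w, w1, w2, w3⟩ := ed_exists (sub_lt_self (meetV s₀ x y) hδ)
  refine ⟨w, w1, w2, fun q h1 h2 => ?_⟩
  have k2 : L q - δ₁ - δ₂ ≤ meetV q x y := le_of_forall_lt fun r hr => by
    obtain ⟨k, hk⟩ := (hz' q h1 h2 r fun p p1 p2 => by
      have a1 := hy p p1 fun a b h => by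
        have b1 : s₀ a - q a ≤ s₀ b - q b := h2 h
        have b2 : q a - p a ≤ q b - p b := p2 h
        change s₀ a - p a ≤ s₀ b - p b
        linarith
      have a2 := hx (q - p) p2 (div_part h2 p1)
      rw [hL] at a2
      linarith).exists
    exact hk.trans_le (le_meetV h1 (z1 k) (z2 k))
  have k3 : meetV q x y + meetV (s₀ - q) x y ≤ meetV s₀ x y := by
    refine le_of_forall_pos_le_add fun ε hε => ?_
    obtain ⟨k, a1, a2⟩ := ((k1 q h1 h2 _ (sub_lt_self _ (half_pos hε))).and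
      (k1 (s₀ - q) h2 (by rwa [sub_sub_cancel]) _ (sub_lt_self _ (half_pos hε)))).exists
    have a3 := le_meetV hs (z1 k) (z2 k)
    rw [AddMonoidHom.sub_apply] at a2
    linarith
  have k4 : s₀ w - q w ≤ meetV (s₀ - q) x y := le_meetV h2 w1 w2
  linarith

/-- compactness of the state space -/
lemma exists_finite_states {ι : Type*} (U : ι → Set (W D → ℝ)) (hU : ∀ i, IsOpen (U i))
    (h : ∀ s, IsState (W.u D) s → ∃ i, ⇑s ∈ U i) :
    ∃ F : Finset ι, ∀ s, IsState (W.u D) s → ∃ i ∈ F, ⇑s ∈ U i := by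
  let T : Set (W D → ℝ) := {f | (∀ x y, f (x + y) = f x + f y) ∧ Monotone f ∧ f (W.u D) = 1}
  have hT : ∀ f (hf : f ∈ T), IsState (W.u D) (AddMonoidHom.mk' f hf.1) := fun f hf =>
    ⟨hf.2.1, hf.2.2⟩
  choose k hk using W.exists_le_nsmul (A := D)
  have hc : IsCompact T := by
    refine (isCompact_univ_pi fun x => isCompact_Icc (a := (0 : ℝ)) (b := k x)).of_isClosed_subset
      ?_ fun f hf x _ => ⟨(hT f hf).nonneg W.zero_le x,
        ((hT f hf).mono (hk x)).trans_eq ((hT f hf).nsmul_unit _)⟩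
    simp only [T, Set.ofPred_and, Set.ofPred_forall, Monotone]
    exact (isClosed_iInter fun x => isClosed_iInter fun y => isClosed_eq (by fun_prop)
      (by fun_prop)).inter ((isClosed_iInter fun x => isClosed_iInter fun y =>
        isClosed_iInter fun _ => isClosed_le (by fun_prop) (by fun_prop)).inter
          (isClosed_eq (by fun_prop) continuous_const))
  obtain ⟨F, hF⟩ := hc.elim_finite_subcover U hU fun f hf => Set.mem_iUnion.2 (h _ (hT f hf))
  exact ⟨F, fun s hs => by simpa using hF (show ⇑s ∈ T from ⟨map_add s, hs.mono, hs.unit⟩)⟩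

lemma div_LL_nsmul {x y : W D} (h : LL x y) (K : ℕ) : LL (K • x) (K • y) := by
  induction K with
  | zero => simpa using LL.zero 0
  | succ K ih => simpa only [succ_nsmul] using ih.add h

lemma div_chain {p : W D →+ ℝ} (hp : Monotone p) (hl : Lsc p) {w₀ : W D} {t ε : ℝ}
    (hε : 0 ≤ ε) (ht : t ≤ ε) (hup : ∀ q : W D →+ ℝ, Monotone q → q w₀ ≤ ε * q (W.u D)) (K : ℕ) :
    ∀ (k y : W D) (δ₁ δ₂ δ : ℝ), y ≤ w₀ → 0 < δ →
      (∀ q : W D →+ ℝ, Monotone q → Monotone (p - q) → t * q (W.u D) - δ₁ ≤ q y) →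
      (∀ q : W D →+ ℝ, Monotone q → Monotone (p - q) → K * ε * q (W.u D) - δ₂ ≤ q k) →
      ∃ v, v ≤ y ∧ K • v ≤ k ∧ t * p (W.u D) - (δ₁ + K * δ₂ + δ) ≤ p v := by
  induction K with
  | zero =>
    refine fun k y δ₁ δ₂ δ _ hδ hy _ => ⟨y, le_rfl, by simpa using W.zero_le k, ?_⟩
    have := hy p hp (by rw [sub_self]; exact monotone_const)
    push_cast
    linarith
  | succ K ih =>
    intro k y δ₁ δ₂ δ hyw hδ hy hk
    have h3 : 0 < δ / 3 := by positivity
    obtain ⟨z, z1, z2, hz⟩ := ed_step (u := W.u D) (t := t) (δ₂ := δ₂) (y := k) hp hl hy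
      (fun q h1 h2 => by
        have a1 := hk q h1 h2
        have a2 := mul_le_mul_of_nonneg_right ht (mono_nonneg h1 (W.u D))
        have a3 := mul_nonneg (mul_nonneg (Nat.cast_nonneg (α := ℝ) K) hε) (mono_nonneg h1 (W.u D))
        push_cast at a1
        linarith) h3
    obtain ⟨z', z3, z4⟩ := hl z _ (sub_lt_self (p z) h3)
    obtain ⟨k₁, k1, k2⟩ := z3.compl z2
    obtain ⟨v, v1, v2, v3⟩ := ih k₁ z' (δ₁ + δ₂ + δ / 3 + δ / 3) δ₂ (δ / 3)
      (z3.le.trans (z1.trans hyw)) h3 (fun q h1 h2 => by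
        have a1 := hz q h1 h2
        have a2 : p z' - q z' ≤ p z - q z := h2 z3.le
        linarith) fun q h1 h2 => by
        have a1 := hk q h1 h2
        have a2 := h1 k2
        have a3 := (h1 (z1.trans hyw)).trans (hup q h1)
        rw [map_add] at a2
        push_cast at a1
        linarith
    refine ⟨v, v1.trans (z3.le.trans z1), ?_, by push_cast; linarith⟩
    rw [succ_nsmul, add_comm]
    exact (add_le_add v1 v2).trans k1

lemma div_step {s₀ : W D →+ ℝ} (hs : IsState (W.u D) s₀) (hl : Lsc s₀) {w₀ : W D} {t ε ρ : ℝ}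
    (h0 : 0 < t) (ht : t ≤ ε) (hρ : 0 < ρ)
    (hlo : ∀ q : W D →+ ℝ, Monotone q → t * q (W.u D) ≤ q w₀)
    (hup : ∀ q : W D →+ ℝ, Monotone q → q w₀ ≤ ε * q (W.u D)) (K M : ℕ) {k : W D}
    (hk : k ≤ M • W.u D) (hk' : K * ε + ρ ≤ s₀ k) :
    ∃ v, K • v ≤ k ∧ t * ρ / (4 * (M + 1)) < s₀ v := by
  have hε : 0 ≤ ε := h0.le.trans ht
  set δ := t * ρ / (2 * (M + 1) * (t + K + 1)) with hδe
  have hδ : 0 < δ := by positivity
  let S : Set ℝ := {v | ∃ q : W D →+ ℝ, Monotone q ∧ Monotone (s₀ - q) ∧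
    v = q k - K * ε * q (W.u D)}
  have hb : BddAbove S := ⟨s₀ k, by
    rintro _ ⟨q, h1, h2, rfl⟩
    have a1 : 0 ≤ s₀ k - q k := mono_nonneg h2 k
    have a3 := mul_nonneg (mul_nonneg (Nat.cast_nonneg (α := ℝ) K) hε) (mono_nonneg h1 (W.u D))
    linarith⟩
  have hm : s₀ k - K * ε * s₀ (W.u D) ∈ S :=
    ⟨s₀, hs.mono, by rw [sub_self]; exact monotone_const, rfl⟩
  obtain ⟨_, ⟨p, p1, p2, rfl⟩, p3⟩ := exists_lt_of_lt_csSup ⟨_, hm⟩ (sub_lt_self (sSup S) hδ)
  obtain ⟨v, -, v2, v3⟩ := div_chain p1 (ed_lsc hl p2) hε ht hup K k w₀ 0 δ δ le_rfl hδ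
    (fun q h1 _ => by simpa using hlo q h1) fun q h1 h2 => by
      have a1 := le_csSup hb ⟨p - q, h2, div_part p2 h1, rfl⟩
      rw [AddMonoidHom.sub_apply, AddMonoidHom.sub_apply] at a1
      linarith
  refine ⟨v, v2, ?_⟩
  have a1 := le_csSup hb hm
  have a2 := p1 hk
  have a3 := mul_nonneg (mul_nonneg (Nat.cast_nonneg (α := ℝ) K) hε) (mono_nonneg p1 (W.u D))
  have a4 : 0 ≤ s₀ v - p v := mono_nonneg p2 v
  have a5 := mono_nonneg p1 (W.u D)
  rw [hs.unit] at a1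
  rw [map_nsmul, nsmul_eq_mul] at a2
  have a6 : ρ - δ ≤ (M + 1) * p (W.u D) := by linarith
  have a7 : (M + 1) * ((t + K + 1) * δ) = t * ρ / 2 := by
    rw [hδe]
    field_simp
  have a8 := mul_le_mul_of_nonneg_left a6 h0.le
  have a9 : 0 ≤ M * (t * δ) := by positivity
  have a10 := mul_le_mul_of_nonneg_left (show t * p (W.u D) - (K * δ + δ) ≤ s₀ v by linarith)
    (show (0 : ℝ) ≤ M + 1 by positivity)
  have a11 := mul_pos h0 hρ
  rw [div_lt_iff₀ (by positivity)]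
  nlinarith

/-- division at one lower semicontinuous state -/
theorem local_division (hTi : Tiny D) {s₀ : W D →+ ℝ} (hs : IsState (W.u D) s₀) (hl : Lsc s₀)
    (k : W D) {K : ℕ} (hK : 0 < K) {ρ : ℝ} (hρ : 0 < ρ) :
    ∃ w' w, LL w' w ∧ K • w ≤ k ∧ s₀ k ≤ K * s₀ w' + ρ := by
  have hK' : (0 : ℝ) < K := Nat.cast_pos.2 hK
  obtain ⟨w₀, ⟨N, hN⟩, hw⟩ := hTi (ρ / 4 / K) (by positivity)
  obtain ⟨M, hM⟩ := k.exists_le_nsmul
  have h0 : (0 : ℝ) < (N + 1 : ℝ)⁻¹ := by positivity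
  have hlo : ∀ q : W D →+ ℝ, Monotone q → (N + 1 : ℝ)⁻¹ * q (W.u D) ≤ q w₀ := fun q hq => by
    have a1 := hq hN
    rw [map_nsmul, nsmul_eq_mul] at a1
    rw [inv_mul_le_iff₀ (by positivity)]
    linarith [mono_nonneg hq w₀]
  have hup : ∀ q : W D →+ ℝ, Monotone q → q w₀ ≤ ρ / 4 / K * q (W.u D) := fun q hq => by
    rcases exists_state_smul hq with rfl | ⟨p0, s, h2, h3⟩
    · simp
    · rw [h3 w₀, mul_comm]
      exact mul_le_mul_of_nonneg_right (hw s h2).le p0.le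
  have ht : (N + 1 : ℝ)⁻¹ ≤ ρ / 4 / K := by
    simpa [hs.unit] using (hlo s₀ hs.mono).trans (hup s₀ hs.mono)
  set γ := (N + 1 : ℝ)⁻¹ * (ρ / 4) / (4 * (M + 1)) with hγe
  have hγ : 0 < γ := by positivity
  have key : ∀ (n : ℕ) (k : W D), k ≤ M • W.u D → s₀ k ≤ n * (K * γ) → ∀ δ : ℝ, 0 < δ →
      ∃ w' w, LL w' w ∧ K • w ≤ k ∧ s₀ k ≤ K * s₀ w' + ρ / 2 + δ := fun n => by
    induction n with
    | zero =>
      exact fun k _ h δ hδ => ⟨0, 0, LL.zero 0, by simpa using W.zero_le k, by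
        simp only [Nat.cast_zero, zero_mul] at h
        rw [map_zero]
        linarith⟩
    | succ n ih =>
      intro k hk h δ hδ
      rcases le_total (s₀ k) (ρ / 2) with h1 | h1
      · exact ⟨0, 0, LL.zero 0, by simpa using W.zero_le k, by rw [map_zero]; linarith⟩
      obtain ⟨v, v1, v2⟩ := div_step hs hl h0 ht (ρ := ρ / 4) (by positivity) hlo hup K M hk (by
        rw [mul_div_cancel₀ _ hK'.ne']
        linarith)
      obtain ⟨v', v3, v4⟩ := hl v (max γ (s₀ v - δ / 2 / K))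
        (max_lt v2 (sub_lt_self _ (by positivity)))
      obtain ⟨v'', v5, v6⟩ := v3.interp
      obtain ⟨k₁, k1, k2⟩ := (div_LL_nsmul v6 K).compl v1
      have a1 := hs.mono k1
      have a2 := hs.mono k2
      rw [map_add, map_nsmul, nsmul_eq_mul] at a1 a2
      have a3 := mul_le_mul_of_nonneg_left (((le_max_left _ _).trans v4.le).trans
        (hs.mono v5.le)) hK'.le
      have a4 := mul_le_mul_of_nonneg_left ((le_max_right _ _).trans v4.le) hK'.le
      rw [mul_sub, mul_div_cancel₀ _ hK'.ne'] at a4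
      obtain ⟨w', w, w1, w2, w3⟩ := ih k₁ (((W.le_add_left _ _).trans k1).trans hk)
        (by push_cast at h; linarith) (δ / 2) (half_pos hδ)
      refine ⟨v' + w', v'' + w, v5.add w1, ?_, by rw [map_add]; linarith⟩
      rw [nsmul_add]
      exact (add_le_add le_rfl w2).trans k1
  obtain ⟨n, hn⟩ := exists_nat_ge (s₀ k / (K * γ))
  rw [div_le_iff₀ (by positivity)] at hn
  obtain ⟨w', w, w1, w2, w3⟩ := key n k hM hn (ρ / 2) (half_pos hρ)
  exact ⟨w', w, w1, w2, by linarith⟩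

/-- finitely many divisions serve all states -/
theorem finite_division (hTi : Tiny D) {k' k : W D} (hk : LL k' k) {K : ℕ} (hK : 0 < K) {ρ : ℝ}
    (hρ : 0 < ρ) : ∃ F : Finset (W D × W D), (∀ p ∈ F, LL p.1 p.2 ∧ K • p.2 ≤ k) ∧
      ∀ s, IsState (W.u D) s → ∃ p ∈ F, s k' < K * s p.1 + ρ := by
  classical
  obtain ⟨F, hF⟩ := exists_finite_states (ι := {p : W D × W D // LL p.1 p.2 ∧ K • p.2 ≤ k})
    (fun p => {f | f k' < K * f p.1.1 + ρ}) (fun p => isOpen_lt (by fun_prop) (by fun_prop))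
    fun s hs => by
      obtain ⟨s₀, p1, p2, p3, p4⟩ := hs.exists_lsc
      obtain ⟨w', w, w1, w2, w3⟩ := local_division hTi p1 p2 k hK (half_pos hρ)
      refine ⟨⟨(w', w), w1, w2⟩, ?_⟩
      have a1 := mul_le_mul_of_nonneg_left (p3 w') (Nat.cast_nonneg (α := ℝ) K)
      have a2 := p4 _ _ hk
      change s k' < K * s w' + ρ
      linarith
  refine ⟨F.map (Function.Embedding.subtype _), fun p hp => ?_, fun s hs => ?_⟩
  · obtain ⟨q, -, rfl⟩ := Finset.mem_map.1 hp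
    exact q.2
  · obtain ⟨p, h1, h2⟩ := hF s hs
    exact ⟨p.1, Finset.mem_map_of_mem _ h1, h2⟩

theorem local_div (hT : Tiny D) {s : W D →+ ℝ} (hs : IsState (W.u D) s) (hl : Lsc s) (k : W D)
    (K : ℕ) {ρ : ℝ} (hρ : 0 < ρ) (hK : 0 < K) :
    ∃ w' w, LL w' w ∧ K • w ≤ k ∧ s k ≤ K * s w' + ρ :=
  local_division hT hs hl k hK hρ

end Pool.Agent.Lib.MP_f90f6c_an.H50
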