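import Pool.Agent.Lib.MP_f90f6c_an.H85Link
import Pool.Agent.Lib.MP_f90f6c_an.H85LD

/-!
A multiple of the unit almost embeds into every element of larger rank.
-/

namespace Pool.Agent.Lib.MP_f90f6c_an.H50

open Filter Topology Matrix

set_option linter.unusedSectionVars false

variable {D : Type*} [CStarAlgebra D] [PartialOrder D] [StarOrderedRing D]
variable {m n : Type} [Fintype m] [DecidableEq m] [Fintype n] [DecidableEq n]

lemma c1_low {E : Type*} [CStarAlgebra E] [PartialOrder E] [StarOrderedRing E] (a : ℝ) (Y : E) :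
    cut a Y * cfc (fun t => max (a - t) 0) Y = 0 := by
  rw [cut, cfc_mul_cfc (by fun_prop) (by fun_prop), ← cfc_zero ℝ Y]
  refine cfc_congr fun s _ => ?_
  rcases le_total s a with h | h
  · simp [max_eq_right (sub_nonpos.2 h)]
  · simp [max_eq_right (sub_nonpos.2 h)]

lemma c1_cover {E : Type*} [CStarAlgebra E] [PartialOrder E] [StarOrderedRing E] {a : ℝ} {Y : E}
    (hY : IsSelfAdjoint Y) :
    (a / 4) • (1 : E) ≤ cut (a / 4) (cfc (fun t => max (a - t) 0) Y) + cut (a / 2) Y := by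
  rw [cut, cut, ← cfc_comp' _ _ Y, ← cfc_add Y _ _ (by fun_prop) (by fun_prop),
    ← Algebra.algebraMap_eq_smul_one, ← cfc_const (a / 4) Y]
  refine cfc_mono (fun t _ => ?_) (by fun_prop) (by fun_prop)
  linarith [le_max_left (max (a - t) 0 - a / 4) 0, le_max_left (a - t) 0,
    le_max_left (t - a / 2) 0]

lemma c1_comm {E : Type*} [CStarAlgebra E] [PartialOrder E] [StarOrderedRing E] (a : ℝ) {Y : E}
    (hY : IsSelfAdjoint Y) : Y * cut a Y = cut a Y * Y := by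
  rw [cut, cfc_mul_id (by fun_prop) hY, id_mul_cfc (by fun_prop) hY]
  exact cfc_congr fun t _ => mul_comm _ _

lemma c1_big {T S : Matrix n m D} {θ : ℝ} (hθ : 0 < θ) {a : ℝ} (ha : 0 < a) :
    ∃ l : ℝ, a • (cut θ (Sᴴ * S) * cut θ (Sᴴ * S)) ≤
      cut θ (Sᴴ * S) * ((T + l • S)ᴴ * (T + l • S)) * cut θ (Sᴴ * S) := by
  obtain ⟨r, hr⟩ : ∃ r, r = cut θ (Sᴴ * S) := ⟨_, rfl⟩
  have hs : rᴴ = r := hr ▸ (IsSelfAdjoint.of_nonneg (cut_nonneg _ _)).star_eq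
  have h1 := smul_cut_sq_le (.of_nonneg (conjT_mul_self_nonneg S)) θ
  rw [← hr] at h1 ⊢
  obtain ⟨C, hC, h2⟩ := link_dom r (conjT_mul_self_nonneg T)
  rw [hs] at h2
  have hl : 0 ≤ 2 * (a + C) / θ := by positivity
  refine ⟨√(2 * (a + C) / θ), ?_⟩
  have h0 := add_conjT_mul_le (T + √(2 * (a + C) / θ) • S) (-T)
  rw [add_neg_cancel_comm, conjTranspose_neg, Matrix.neg_mul, Matrix.mul_neg, neg_neg,
    conjTranspose_smul, star_trivial, Matrix.smul_mul, Matrix.mul_smul, smul_smul,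
    Real.mul_self_sqrt hl] at h0
  have h3 := conj_le_conj r h0
  rw [hs, mul_add r, add_mul (r * _), mul_smul_comm, mul_smul_comm, mul_smul_comm,
    smul_mul_assoc, smul_mul_assoc, smul_mul_assoc] at h3
  generalize (T + √(2 * (a + C) / θ) • S)ᴴ * (T + √(2 * (a + C) / θ) • S) = X at h3 ⊢
  have h4 := smul_le_smul_of_nonneg_left h1 hl
  rw [smul_smul, div_mul_cancel₀ _ hθ.ne'] at h4
  have h5 := (h4.trans h3).trans (add_le_add le_rfl (smul_le_smul_of_nonneg_left h2 zero_le_two))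
  rw [mul_add, add_smul, mul_smul, mul_smul, add_le_add_iff_right] at h5
  have h6 := smul_le_smul_of_nonneg_left h5 (show (0 : ℝ) ≤ 2⁻¹ by norm_num)
  rwa [inv_smul_smul₀ two_ne_zero, inv_smul_smul₀ two_ne_zero] at h6

lemma c1_step {b c : Matrix n n D} {T₀ T S : Matrix n m D} {a₀ a θ : ℝ} (ha : 0 < a)
    (haa : a < a₀) (hθ : 0 < θ) (hE : Ext T₀ a₀ T) (hT : Dom (T * Tᴴ) b) (hcb : Dom c b)
    (hcT : cut a (T * Tᴴ) * c = 0) (hS1 : Dom (Sᴴ * S) (cfc (fun t => max (a₀ - t) 0) (T₀ᴴ * T₀)))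
    (hS2 : Dom (S * Sᴴ) c) : ∃ T' : Matrix n m D, Ext T₀ a₀ T' ∧ Dom (T' * T'ᴴ) b ∧
      cls (cut a (Tᴴ * T)) ≤ cls (cut (a / 2) (T'ᴴ * T')) ∧
      cls (cut a₀ (T₀ᴴ * T₀)) + cls (cut θ (Sᴴ * S)) ≤ cls (cut (a / 2) (T'ᴴ * T')) := by
  have hX : IsSelfAdjoint (Tᴴ * T) := .of_nonneg (conjT_mul_self_nonneg T)
  have hX₀ : IsSelfAdjoint (T₀ᴴ * T₀) := .of_nonneg (conjT_mul_self_nonneg T₀)
  have hcs : ∀ (t : ℝ) (Y : Matrix m m D), (cut t Y)ᴴ = cut t Y := fun t Y => star_cfc _ _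
  have h1 : Sᴴ * cut a (T * Tᴴ) = 0 := by
    have := congrArg conjTranspose (hS2.mul_eq_zero hcT)
    rwa [conjTranspose_mul, show (cut a (T * Tᴴ))ᴴ = cut a (T * Tᴴ) from star_cfc _ _,
      conjTranspose_zero] at this
  have h2 : Sᴴ * (T * cut a (Tᴴ * T)) = 0 := by
    rw [cut, cfc_intertwine _ (by fun_prop) hX (.of_nonneg (mul_conjT_self_nonneg T)) T
      (Matrix.mul_assoc _ _ _).symm, ← cut, ← Matrix.mul_assoc, h1, Matrix.zero_mul]
  have h3' : cut a₀ (T₀ᴴ * T₀) * Sᴴ = 0 :=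
    Dom.mul_eq_zero (by rwa [conjTranspose_conjTranspose]) (c1_low a₀ _)
  have h3 : S * cut a₀ (T₀ᴴ * T₀) = 0 := by
    have := congrArg conjTranspose h3'
    rwa [conjTranspose_mul, hcs, conjTranspose_conjTranspose, conjTranspose_zero] at this
  have h4 : Sᴴ * (T * cut a₀ (T₀ᴴ * T₀)) = 0 := by
    obtain ⟨ψ, hψ⟩ := ext_fix hX hX₀ haa hE.2
    rw [← hψ, ← Matrix.mul_assoc T, ← Matrix.mul_assoc, h2, Matrix.zero_mul]
  obtain ⟨l, hl⟩ := c1_big (T := T) (S := S) hθ ha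
  have e1 : (T + l • S) * cut a₀ (T₀ᴴ * T₀) = T * cut a₀ (T₀ᴴ * T₀) := by
    rw [Matrix.add_mul, Matrix.smul_mul, h3, smul_zero, add_zero]
  have e2 : (T + l • S)ᴴ * (T + l • S) * cut a₀ (T₀ᴴ * T₀) = T₀ᴴ * T₀ * cut a₀ (T₀ᴴ * T₀) := by
    rw [Matrix.mul_assoc, e1, conjTranspose_add, Matrix.add_mul, conjTranspose_smul,
      Matrix.smul_mul, h4, smul_zero, add_zero, ← Matrix.mul_assoc, hE.2]
  have d1 : Dom ((l • S) * (l • S)ᴴ) b := by
    rw [conjTranspose_smul, star_trivial, Matrix.smul_mul, Matrix.mul_smul, smul_smul]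
    exact (hS2.trans hcb).smul (mul_self_nonneg l)
  refine ⟨T + l • S, ⟨e1.trans hE.1, e2⟩, hT.add_mul_conjT d1,
    cls_le_cut_of_conj (cut_nonneg _ _) (conjT_mul_self_nonneg _) (half_lt_self ha)
      ((smul_cut_sq_le hX a).trans ?_), ?_⟩
  · have h2' : (T * cut a (Tᴴ * T))ᴴ * S = 0 := by
      have := congrArg conjTranspose h2
      rwa [conjTranspose_mul, conjTranspose_conjTranspose, conjTranspose_zero] at this
    have e3 : ∀ (U : Matrix n m D) (q : Matrix m m D), qᴴ = q →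
        q * (Uᴴ * U) * q = (U * q)ᴴ * (U * q) := fun U q hq => by
      simp only [conjTranspose_mul, hq, Matrix.mul_assoc]
    rw [e3 _ _ (hcs _ _), e3 _ _ (hcs _ _), Matrix.add_mul, conjTranspose_add, Matrix.add_mul,
      Matrix.mul_add, Matrix.mul_add, Matrix.smul_mul, Matrix.mul_smul, ← Matrix.mul_assoc _ S,
      h2', Matrix.zero_mul, smul_zero, add_zero, conjTranspose_smul, Matrix.smul_mul,
      conjTranspose_mul S, Matrix.mul_assoc _ Sᴴ, h2, Matrix.mul_zero, smul_zero, zero_add,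
      ← conjTranspose_mul S, ← conjTranspose_smul]
    exact le_add_of_nonneg_right (conjT_mul_self_nonneg _)
  · have o1 : cut a₀ (T₀ᴴ * T₀) * cut θ (Sᴴ * S) = 0 :=
      (Dom.of_le (cut_le_self hθ.le (conjT_mul_self_nonneg S))).mul_eq_zero' (cut_nonneg _ _)
        (by rw [← Matrix.mul_assoc, h3', Matrix.zero_mul])
    have o2 : cut θ (Sᴴ * S) * cut a₀ (T₀ᴴ * T₀) = 0 := by
      have := congrArg conjTranspose o1
      rwa [conjTranspose_mul, hcs, hcs, conjTranspose_zero] at this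
    have p1 := smul_cut_sq_le hX₀ a₀
    have p2 := c1_comm a₀ hX₀
    have p0 : 0 ≤ cut a₀ (T₀ᴴ * T₀) * cut a₀ (T₀ᴴ * T₀) := by
      simpa only [hcs] using conjT_mul_self_nonneg (cut a₀ (T₀ᴴ * T₀))
    have hX' : ((T + l • S)ᴴ * (T + l • S))ᴴ = (T + l • S)ᴴ * (T + l • S) := by
      rw [conjTranspose_mul, conjTranspose_conjTranspose]
    have e0 := hcs a₀ (T₀ᴴ * T₀)
    have r0 := hcs θ (Sᴴ * S)
    refine (cls_add_of_orth (cut_nonneg _ _) (cut_nonneg _ _) o1).trans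
      (cls_le_cut_of_conj (add_nonneg (cut_nonneg _ _) (cut_nonneg _ _))
        (conjT_mul_self_nonneg _) (half_lt_self ha) ?_)
    generalize cut a₀ (T₀ᴴ * T₀) = e at *
    generalize cut θ (Sᴴ * S) = r at *
    generalize (T + l • S)ᴴ * (T + l • S) = X' at *
    have q1 : r * X' * e = 0 := by rw [mul_assoc, e2, p2, ← mul_assoc, o2, zero_mul]
    have q2 : e * X' * r = 0 := by
      have := congrArg conjTranspose q1
      rwa [conjTranspose_mul, conjTranspose_mul, e0, r0, hX', conjTranspose_zero,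
        ← mul_assoc] at this
    have q3 : e * X' * e = e * (T₀ᴴ * T₀) * e := by rw [mul_assoc, e2, mul_assoc]
    rw [add_mul, mul_add, mul_add, o1, o2, add_zero, zero_add, add_mul, mul_add, add_mul, add_mul,
      q1, q2, q3, add_zero, zero_add, smul_add]
    exact add_le_add ((smul_le_smul_of_nonneg_right haa.le p0).trans p1) hl

lemma c1_lt (N : ℕ) {η : ℝ} (hη : 0 < η) :
    ∃ M : ℕ, ∀ w : W D, M • w ≤ N • W.u D → ∀ s, IsState (W.u D) s → s w < η := by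
  obtain ⟨M, hM⟩ := exists_nat_gt (N / η)
  refine ⟨M, fun w hw s hs => ?_⟩
  have h1 := hs.mono hw
  rw [hs.nsmul_unit, map_nsmul, nsmul_eq_mul] at h1
  rw [div_lt_iff₀ hη] at hM
  exact lt_of_mul_lt_mul_left (h1.trans_lt hM) (Nat.cast_nonneg M)

lemma c1_round (hTi : Tiny D) (hF : FIN D) {b : Matrix n n D} (hb : 0 ≤ b) {γ : ℝ} (hγ : 0 < γ)
    (hmb : ∀ s, IsState (W.u D) s → Fintype.card m + γ < s (cls b)) {ρ : ℝ} (hρ : 0 < ρ) :
    ∃ κ : ℝ, 0 < κ ∧ κ < 1 ∧ ∀ (T₀ : Matrix n m D) (a₀ Λ : ℝ), 0 < a₀ → Dom (T₀ * T₀ᴴ) b →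
      (∀ s, IsState (W.u D) s → Fintype.card m - ρ - s (cls (cut a₀ (T₀ᴴ * T₀))) ≤ Λ) →
      ∃ (T : Matrix n m D) (a : ℝ), 0 < a ∧ a < a₀ ∧ Ext T₀ a₀ T ∧ Dom (T * Tᴴ) b ∧
        ∀ s, IsState (W.u D) s → Fintype.card m - ρ - s (cls (cut a (Tᴴ * T))) ≤ κ * Λ := by
  classical
  obtain ⟨N, η, hη, hN⟩ := hF γ hγ
  obtain ⟨M, hM⟩ := c1_lt (D := D) (Fintype.card m) hη
  obtain ⟨K, hK, hKN, hKM⟩ : ∃ K : ℕ, 0 < K ∧ N ≤ K ∧ M ≤ K := ⟨N + M + 1, by omega, by omega, by omega⟩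
  have hK' : (0 : ℝ) < K := Nat.cast_pos.2 hK
  refine ⟨K ^ 2 / (K ^ 2 + 1), by positivity, (div_lt_one (by positivity)).2 (lt_add_one _),
    fun T₀ a₀ Λ ha₀ hT₀ hΛ => ?_⟩
  obtain ⟨k, hk⟩ : ∃ k, k = cfc (fun t => max (a₀ - t) 0) (T₀ᴴ * T₀) := ⟨_, rfl⟩
  have hk0 : 0 ≤ k := hk ▸ cfc_nonneg fun t _ => le_max_right _ _
  obtain ⟨F, hF1, hF2⟩ := finite_division hTi (LL.cut hk0 (show 0 < a₀ / 4 by linarith)) hK hρ
  have key : ∀ S : Finset (W D × W D), S ⊆ F → ∃ (T : Matrix n m D) (a : ℝ), 0 < a ∧ a < a₀ ∧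
      Ext T₀ a₀ T ∧ Dom (T * Tᴴ) b ∧ cls (cut (a₀ / 2) (T₀ᴴ * T₀)) ≤ cls (cut a (Tᴴ * T)) ∧
      ∀ p ∈ S, ∃ z, p.1 ≤ K • z ∧ cls (cut a₀ (T₀ᴴ * T₀)) + z ≤ cls (cut a (Tᴴ * T)) := fun S => by
    induction S using Finset.induction_on with
    | empty => exact fun _ => ⟨T₀, a₀ / 2, half_pos ha₀, half_lt_self ha₀, .refl _ _, hT₀, le_rfl,
        by simp⟩
    | insert p S _ ih =>
      intro hS
      obtain ⟨T, a, ha, haa, hE, hT, h1, h2⟩ := ih ((Finset.subset_insert _ _).trans hS)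
      obtain ⟨p1, p2⟩ := hF1 p (hS (Finset.mem_insert_self _ _))
      obtain ⟨c, hc, c1, c2, -, c3⟩ := exists_compl_dom hb (mul_conjT_self_nonneg T) hT ha
      have p3 : p.2 ≤ K • cls c := (hN _ _
        (hM _ ((W.nsmul_le hKM _).trans (p2.trans (cls_le_card hk0)))) fun s hs => by
          have := hs.mono (c3.trans (add_le_add le_rfl ((cls_conjT_mul T).ge.trans
            (cls_le_card (conjT_mul_self_nonneg T)))))
          rw [map_add, hs.nsmul_unit] at this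
          linarith [hmb s hs]).trans (W.nsmul_le hKN _)
      obtain ⟨z', z, z1, z2, z3, z4⟩ := link p1 p2 p3
      obtain ⟨U, θ, hθ, u1, u2, u3⟩ := exists_op_link hk0 hc z1 z2 z3
      obtain ⟨T', t1, t2, t3, t4⟩ := c1_step ha haa hθ hE hT c1 c2 (hk ▸ u1) u2
      refine ⟨T', a / 2, half_pos ha, by linarith, t1, t2, h1.trans t3, fun q hq => ?_⟩
      rcases Finset.mem_insert.1 hq with rfl | hq
      · exact ⟨z', z4, (add_le_add le_rfl u3).trans t4⟩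
      · obtain ⟨y, y1, y2⟩ := h2 q hq
        exact ⟨y, y1, y2.trans t3⟩
  obtain ⟨T, a, ha, haa, hE, hT, h1, h2⟩ := key F le_rfl
  refine ⟨T, a, ha, haa, hE, hT, fun s hs => ?_⟩
  obtain ⟨p, hp, p1⟩ := hF2 s hs
  obtain ⟨z, z1, z2⟩ := h2 p hp
  have a1 := hs.mono z1
  have a2 := hs.mono z2
  have h4 : 0 < a₀ / 4 := by linarith
  have a3 : Fintype.card m • W.u D ≤ cls (cut (a₀ / 4) k) + cls (cut a (Tᴴ * T)) := by
    rw [← cls_one, ← cls_smul h4 mone_nonneg]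
    refine (cls_mono (smul_nonneg h4.le (mone_nonneg (A := D) (m := m)))
      (c1_cover (.of_nonneg (conjT_mul_self_nonneg T₀)))).trans ?_
    rw [← hk]
    exact (cls_add_le (cut_nonneg _ _) (cut_nonneg _ _)).trans (add_le_add le_rfl h1)
  have a4 := hs.mono a3
  rw [map_add, hs.nsmul_unit] at a4
  rw [map_add] at a2
  rw [map_nsmul, nsmul_eq_mul] at a1
  have a5 := mul_le_mul_of_nonneg_left a1 hK'.le
  have a6 := mul_le_mul_of_nonneg_left (show s z ≤ Λ - (Fintype.card m - ρ -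
    s (cls (cut a (Tᴴ * T)))) by linarith [hΛ s hs]) (sq_nonneg (K : ℝ))
  rw [div_mul_eq_mul_div, le_div_iff₀ (by positivity)]
  nlinarith

theorem core_one (hTi : Tiny D) (hF : FIN D) {b : Matrix n n D} (hb : 0 ≤ b) {γ : ℝ} (hγ : 0 < γ)
    (hmb : ∀ s, IsState (W.u D) s → Fintype.card m + γ < s (cls b)) {T₀ : Matrix n m D} {a₀ : ℝ}
    (ha₀ : 0 < a₀) (hT₀ : Dom (T₀ * T₀ᴴ) b) {η : ℝ} (hη : 0 < η) :
    ∃ (T : Matrix n m D) (a : ℝ), 0 < a ∧ a < a₀ ∧ Ext T₀ a₀ T ∧ Dom (T * Tᴴ) b ∧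
      ∀ s, IsState (W.u D) s → Fintype.card m - η ≤ s (cls (cut a (Tᴴ * T))) := by
  obtain ⟨κ, hκ, hκ1, H⟩ := c1_round hTi hF hb hγ hmb (half_pos hη)
  have key : ∀ j : ℕ, ∃ (T : Matrix n m D) (a : ℝ), 0 < a ∧ a < a₀ ∧ Ext T₀ a₀ T ∧
      Dom (T * Tᴴ) b ∧ ∀ s, IsState (W.u D) s →
        Fintype.card m - η / 2 - s (cls (cut a (Tᴴ * T))) ≤ κ ^ j * (Fintype.card m + 1) :=
    fun j => by
    induction j with
    | zero =>
      refine ⟨T₀, a₀ / 2, half_pos ha₀, half_lt_self ha₀, .refl _ _, hT₀, fun s hs => ?_⟩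
      rw [pow_zero]
      linarith [hs.nonneg W.zero_le (cls (cut (a₀ / 2) (T₀ᴴ * T₀)))]
    | succ j ih =>
      obtain ⟨T, a, ha, haa, hE, hT, h⟩ := ih
      obtain ⟨T', a', ha', haa', hE', hT', h'⟩ := H T a _ ha hT h
      refine ⟨T', a', ha', haa'.trans haa, hE.trans hE' haa, hT', ?_⟩
      rwa [pow_succ', mul_assoc]
  obtain ⟨j, hj⟩ := exists_pow_lt_of_lt_one
    (show 0 < η / 2 / (Fintype.card m + 1) by positivity) hκ1
  rw [lt_div_iff₀ (by positivity)] at hj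
  obtain ⟨T, a, ha, haa, hE, hT, h⟩ := key j
  exact ⟨T, a, ha, haa, hE, hT, fun s hs => by linarith [h s hs]⟩

end Pool.Agent.Lib.MP_f90f6c_an.H50
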