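import Pool.Agent.Lib.MP_f90f6c_an.H85Core

/-!
Interpolation up to small rank.
-/

namespace Pool.Agent.Lib.MP_f90f6c_an.H50

open Filter Topology Matrix

set_option linter.unusedSectionVars false

variable {D : Type*} [CStarAlgebra D] [PartialOrder D] [StarOrderedRing D]
variable {m n : Type} [Fintype m] [DecidableEq m] [Fintype n] [DecidableEq n]

lemma int_rows {p : Type} [Fintype p] [DecidableEq p] {A : Matrix n m D} {B : Matrix p m D}
    {a : Matrix n n D} {c : Matrix p p D} (ha : 0 ≤ a) (hc : 0 ≤ c) (h1 : Dom (A * Aᴴ) a)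
    (h2 : Dom (B * Bᴴ) c) : Dom (fromRows A B * (fromRows A B)ᴴ) (fromBlocks a 0 0 c) := by
  obtain ⟨C, hC, h1⟩ := h1
  obtain ⟨C', hC', h2⟩ := h2
  have e : fromRows A B = fromRows A 0 + fromRows 0 B := by
    ext (i | i) j <;> simp
  rw [e]
  refine Dom.add_mul_conjT ⟨C, hC, ?_⟩ ⟨C', hC', ?_⟩
  · have := fromBlocks_nonneg (sub_nonneg.2 h1) (smul_nonneg hC hc)
    refine sub_nonneg.1 (this.trans_eq ?_)
    rw [conjTranspose_fromRows_eq_fromCols_conjTranspose, fromRows_mul_fromCols]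
    ext (i | i) (j | j) <;> simp
  · have := fromBlocks_nonneg (smul_nonneg hC' ha) (sub_nonneg.2 h2)
    refine sub_nonneg.1 (this.trans_eq ?_)
    rw [conjTranspose_fromRows_eq_fromCols_conjTranspose, fromRows_mul_fromCols]
    ext (i | i) (j | j) <;> simp

lemma int_rows' {p : Type} [Fintype p] [DecidableEq p] {A : Matrix n m D} {B : Matrix p m D}
    {a : Matrix n n D} {c : Matrix p p D}
    (h : Dom (fromRows A B * (fromRows A B)ᴴ) (fromBlocks a 0 0 c)) :
    Dom (A * Aᴴ) a ∧ Dom (B * Bᴴ) c := by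
  have h1 := h.conj (fromCols (1 : Matrix n n D) (0 : Matrix n p D))
  have h2 := h.conj (fromCols (0 : Matrix p n D) (1 : Matrix p p D))
  rw [conjTranspose_fromRows_eq_fromCols_conjTranspose, fromRows_mul_fromCols] at h1 h2
  constructor
  · simpa [fromCols_mul_fromBlocks, conjTranspose_fromCols_eq_fromRows_conjTranspose,
      fromCols_mul_fromRows] using h1
  · simpa [fromCols_mul_fromBlocks, conjTranspose_fromCols_eq_fromRows_conjTranspose,
      fromCols_mul_fromRows] using h2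

/-- the complement of a cut-down in the unit -/
lemma int_compl {t p : Matrix m m D} (ht : 0 ≤ t) (hp : 0 ≤ p) (hpt : p * t = 0) {θ : ℝ}
    (hθ : 0 < θ) : ∃ w : Matrix m m D, 0 ≤ w ∧ Dom p w ∧
      cls w + cls (cut θ t) ≤ Fintype.card m • W.u D ∧ Fintype.card m • W.u D ≤ cls w + cls t := by
  have hs : IsSelfAdjoint t := .of_nonneg ht
  have hf : Continuous fun x : ℝ => max (1 - θ⁻¹ * x) 0 := by fun_prop
  set w := cfc (fun x : ℝ => max (1 - θ⁻¹ * x) 0) t with hw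
  have hw0 : 0 ≤ w := cfc_nonneg fun _ _ => le_max_right _ _
  have e1 : w * p = p := by
    have h1 : t * p = 0 := by
      simpa [herm_of_nonneg ht, herm_of_nonneg hp] using congrArg conjTranspose hpt
    rw [hw, ← cfc_intertwine _ hf (IsSelfAdjoint.zero _) hs p (by rw [h1, mul_zero])]
    simp [cfc_apply_zero]
  refine ⟨w, hw0, Dom.trans ⟨_, norm_nonneg _, le_smul_of_fix (star_cfc _ _) hp e1⟩ (.of_le ?_),
    ?_, ?_⟩
  · rw [hw, cfc_mul_cfc hf hf]
    refine cfc_mono (fun x hx => ?_) (by fun_prop) (by fun_prop)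
    have h1 : max (1 - θ⁻¹ * x) 0 ≤ 1 := max_le (sub_le_self _ (mul_nonneg (inv_nonneg.2 hθ.le)
      (spectrum_nonneg_of_nonneg ht hx))) zero_le_one
    nlinarith [le_max_right (1 - θ⁻¹ * x) 0]
  · refine (cls_add_of_orth hw0 (cut_nonneg _ _) ?_).trans
      (cls_le_card (add_nonneg hw0 (cut_nonneg _ _)))
    rw [hw, cut, cfc_mul_cfc hf (by fun_prop), ← cfc_zero ℝ t]
    refine cfc_congr fun x _ => ?_
    rcases le_total x θ with h | h
    · simp [max_eq_right (sub_nonpos.2 h)]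
    · have : 1 - θ⁻¹ * x ≤ 0 := by
        rw [sub_nonpos, le_inv_mul_iff₀ hθ, mul_one]
        exact h
      simp [max_eq_right this]
  · have h1 : (1 : Matrix m m D) ≤ w + θ⁻¹ • t := by
      conv_rhs => rw [← cfc_id' ℝ t]
      rw [hw, ← cfc_smul _ _ t (by fun_prop), ← cfc_add t _ _ (by fun_prop) (by fun_prop),
        ← cfc_one ℝ t]
      refine cfc_mono (fun x _ => ?_) (by fun_prop) (by fun_prop)
      simp only [Pi.one_apply, smul_eq_mul]
      linarith [le_max_left (1 - θ⁻¹ * x) 0]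
    rw [← cls_one, ← cls_smul (inv_pos.2 hθ) ht]
    exact (cls_mono mone_nonneg h1).trans (cls_add_le hw0 (smul_nonneg (inv_nonneg.2 hθ.le) ht))

/-- what kills the small part of `x` has source below `x` -/
lemma int_source {T : Matrix n m D} {x : Matrix m m D} (hx : 0 ≤ x) {β : ℝ} (hβ : 0 < β)
    (h : T * cut β (cfc (fun t : ℝ => max (2 * β - t) 0) x) = 0) : cls (Tᴴ * T) ≤ cls x := by
  have hs : IsSelfAdjoint x := .of_nonneg hx
  have hg : Continuous fun t : ℝ => max (max (2 * β - t) 0 - β) 0 := by fun_prop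
  have hf : Continuous fun t : ℝ => 1 - β⁻¹ • max (max (2 * β - t) 0 - β) 0 := by fun_prop
  rw [cut, ← cfc_comp' _ _ x] at h
  set ψ := cfc (fun t : ℝ => 1 - β⁻¹ • max (max (2 * β - t) 0 - β) 0) x with hψ
  have e1 : T * ψ = T := by
    rw [hψ, cfc_sub _ _ x (by fun_prop) (by fun_prop), cfc_smul _ _ x hg.continuousOn,
      cfc_const_one ℝ x, Matrix.mul_sub, Matrix.mul_smul, h, smul_zero, sub_zero, Matrix.mul_one]
  have e2 : ψᴴ = ψ := star_cfc _ _
  have e3 : T * Tᴴ = T * (ψ * ψ) * Tᴴ := by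
    conv_lhs => rw [← e1]
    simp only [conjTranspose_mul, e2, Matrix.mul_assoc]
  have h0 : 0 ≤ ψ * ψ := by simpa only [e2] using conjT_mul_self_nonneg ψ
  rw [cls_conjT_mul, e3]
  refine (cls_conj_le T h0).trans ((cls_le_cls h0 hx).2 ?_)
  rw [hψ, cfc_mul_cfc hf hf]
  refine (CSub.cfc_self hx (hf.mul hf) (fun t _ => mul_self_nonneg _) ?_).msub
  have e4 : max (max (2 * β - 0) 0 - β) 0 = β := by
    rw [max_eq_left (by linarith : 0 ≤ 2 * β - 0), max_eq_left (by linarith)]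
    ring
  simp only [Pi.mul_apply, e4, smul_eq_mul, inv_mul_cancel₀ hβ.ne', sub_self, mul_zero]

theorem interp_small (hTi : Tiny D) (hF : FIN D) {z₁' z₁ z₂' z₂ x y : W D} (h₁ : LL z₁' z₁)
    (h₂ : LL z₂' z₂) (h₁x : z₁ ≤ x) (h₁y : z₁ ≤ y) (h₂x : z₂ ≤ x) (h₂y : z₂ ≤ y) {ε : ℝ}
    (hε : 0 < ε) : ∃ e' e, LL e' e ∧ e ≤ x ∧ e ≤ y ∧ z₂' ≤ e' ∧
      ∀ s, IsState (W.u D) s → s z₁' - ε ≤ s e' := by
  obtain ⟨k, x, hx, rfl⟩ := cls_surj x
  obtain ⟨l, y, hy, rfl⟩ := cls_surj y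
  obtain ⟨v₁, a1, a2⟩ := h₁.interp
  obtain ⟨v₂, a3, a4⟩ := h₂.interp
  obtain ⟨β₁, b1, b2⟩ := (a2.mono le_rfl h₁x).exists_cut hx
  obtain ⟨β₂, b3, b4⟩ := (a4.mono le_rfl h₂x).exists_cut hx
  obtain ⟨β, hβ, b5, b6⟩ : ∃ β : ℝ, 0 < β ∧ 2 * β ≤ β₁ ∧ 2 * β ≤ β₂ :=
    ⟨min β₁ β₂ / 2, half_pos (lt_min b1 b3), by linarith [min_le_left β₁ β₂],
      by linarith [min_le_right β₁ β₂]⟩
  obtain ⟨L₁, θ₁, hθ₁, c1, c0, c2⟩ := exists_op_link (cut_nonneg (2 * β) x) hy a1
    (b2.trans (cls_cut_mono b5 x)) (a2.le.trans h₁y)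
  obtain ⟨L, θ, hθ, c3, c4, c5⟩ := exists_op_link (cut_nonneg (2 * β) x) hy a3
    (b4.trans (cls_cut_mono b6 x)) (a4.le.trans h₂y)
  have c6 : cls (L₁ᴴ * L₁) ≤ cls y :=
    (cls_conjT_mul L₁).trans_le (c0.cls_le (mul_conjT_self_nonneg _) hy)
  set p := cfc (fun t : ℝ => max (2 * β - t) 0) x with hp
  have hp0 : 0 ≤ p := cfc_nonneg fun _ _ => le_max_right _ _
  have e1 : p * cut (2 * β) x = 0 := by
    rw [hp, cut, cfc_mul_cfc (by fun_prop) (by fun_prop), ← cfc_zero ℝ x]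
    refine cfc_congr fun s _ => ?_
    rcases le_total s (2 * β) with h | h
    · simp [max_eq_right (sub_nonpos.2 h)]
    · simp [max_eq_right (sub_nonpos.2 h)]
  have hQ := conjT_mul_self_nonneg L
  have e2 : L * p = 0 := by
    have := Dom.mul_eq_zero (S := Lᴴ) (by rwa [conjTranspose_conjTranspose]) e1
    simpa [herm_of_nonneg hp0] using congrArg conjTranspose this
  obtain ⟨w, hw, d1, d2, d3⟩ := int_compl (conjT_mul_self_nonneg L₁) hp0
    (c1.mul_eq_zero' (conjT_mul_self_nonneg L₁) e1) hθ₁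
  obtain ⟨d, ⟨N, hN⟩, hd⟩ := hTi _ (half_pos hε)
  obtain ⟨j, d, hd0, rfl⟩ := cls_surj d
  have hb := fromBlocks_nonneg hw hd0
  obtain ⟨R, r1, r2⟩ : ∃ R : Matrix (Fin k ⊕ Fin j) (Fin k) D, Rᴴ * R = p ∧
      Dom (R * Rᴴ) (fromBlocks w 0 0 d) := ⟨fromRows (rt p) 0, by
    rw [conjTranspose_fromRows_eq_fromCols_conjTranspose, fromCols_mul_fromRows, conjT_rt,
      rt_mul_rt hp0, Matrix.mul_zero, add_zero],
    int_rows hw hd0 (by rwa [conjT_rt, rt_mul_rt hp0]) (by simpa using Dom.zero d)⟩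
  have e3 : (fromRows L R)ᴴ * fromRows L R = Lᴴ * L + p := by
    rw [conjTranspose_fromRows_eq_fromCols_conjTranspose, fromCols_mul_fromRows, r1]
  obtain ⟨T, a, ha, ha', hE, hT, hr⟩ := core_one (m := Fin k) hTi hF (fromBlocks_nonneg hy hb)
    (γ := ((N : ℝ) + 1)⁻¹) (by positivity) (fun s hs => by
      have i1 := hs.mono (d3.trans (add_le_add le_rfl c6))
      rw [hs.nsmul_unit, map_add] at i1
      rw [cls_fromBlocks hy hb, cls_fromBlocks hw hd0, map_add, map_add]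
      linarith [emb_full hN hs])
    (half_pos (lt_min hθ hβ)) (int_rows hy hb c4 r2) (half_pos hε)
  have i1 : min θ β / 2 < θ := by linarith [min_le_left θ β, lt_min hθ hβ]
  have i2 : min θ β / 2 < β := by linarith [min_le_right θ β, lt_min hθ hβ]
  have f1 := (hE.agree i1 (.of_nonneg hQ) (by
    rw [e3, add_mul, ((Dom.of_le (cut_le_self hθ.le hQ)).trans c3).mul_eq_zero' (cut_nonneg _ _) e1,
      add_zero])).1
  have e4 : L * cut β p = 0 := (Dom.of_le (cut_le_self hβ.le hp0)).mul_eq_zero' (cut_nonneg _ _) e2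
  have f2 := (hE.agree i2 (.of_nonneg hp0) (by
    rw [e3, add_mul, Matrix.mul_assoc, e4, Matrix.mul_zero, zero_add])).1
  rw [← fromRows_toRows T] at f1 f2 hT hr
  generalize T.toRows₁ = T₁ at *
  generalize T.toRows₂ = T₂ at *
  rw [fromRows_mul, fromRows_mul, fromRows_ext_iff] at f1 f2
  obtain ⟨g1, g2⟩ := int_rows' hT
  have hX := conjT_mul_self_nonneg T₁
  refine ⟨cls (cut (a / 2) (T₁ᴴ * T₁)), cls (T₁ᴴ * T₁), LL.cut hX (half_pos ha),
    int_source hx hβ (f2.1.trans e4),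
    (cls_conjT_mul T₁).trans_le (g1.cls_le (mul_conjT_self_nonneg _) hy),
    c5.trans (cls_le_cut_of_conj (cut_nonneg _ _) hX (show a / 2 < θ by linarith) ?_),
    fun s hs => ?_⟩
  · refine (smul_cut_sq_le (.of_nonneg hQ) θ).trans_eq ?_
    have e5 : (cut θ (Lᴴ * L))ᴴ = cut θ (Lᴴ * L) := herm_of_nonneg (cut_nonneg _ _)
    have e6 := congrArg (fun M => Mᴴ * M) f1.1
    simpa only [conjTranspose_mul, e5, Matrix.mul_assoc] using e6.symm
  · have hY := conjT_mul_self_nonneg T₂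
    have j1 := hr s hs
    rw [conjTranspose_fromRows_eq_fromCols_conjTranspose, fromCols_mul_fromRows] at j1
    have j2 : cls (cut a (T₁ᴴ * T₁ + T₂ᴴ * T₂)) ≤ cls (cut (a / 2) (T₁ᴴ * T₁)) + (cls w + cls d) := by
      refine (cls_cut_le_of_le (.of_nonneg (add_nonneg hX hY)) (add_nonneg (cut_nonneg _ _) hY)
        ?_ (half_lt_self ha)).trans ((cls_add_le (cut_nonneg _ _) hY).trans (add_le_add le_rfl ?_))
      · rw [add_right_comm]
        exact add_le_add (le_cut_add (.of_nonneg hX) _) le_rfl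
      · rw [← cls_fromBlocks hw hd0, cls_conjT_mul]
        exact g2.cls_le (mul_conjT_self_nonneg _) hb
    have j3 := hs.mono j2
    have j4 := hs.mono ((add_le_add le_rfl c2).trans d2)
    rw [map_add, map_add] at j3
    rw [map_add, hs.nsmul_unit] at j4
    linarith [hd s hs]

end Pool.Agent.Lib.MP_f90f6c_an.H50
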