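import Pool.Agent.Lib.MP_f90f6c_an.H64Emb

/-!
Links between two positive elements, and extensions of an operator from a spectral subspace.
-/

namespace Pool.Agent.Lib.MP_f90f6c_an.H50

open Filter Topology Matrix

set_option linter.unusedSectionVars false

variable {D : Type*} [CStarAlgebra D] [PartialOrder D] [StarOrderedRing D]
variable {m n : Type} [Fintype m] [DecidableEq m] [Fintype n] [DecidableEq n]

/-- compactness of the state space -/
theorem states_cover {ι : Type*} (F : ι → (W D → ℝ) → ℝ) (hF : ∀ i, Continuous (F i))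
    (h : ∀ s : W D →+ ℝ, IsState (W.u D) s → ∃ i, 0 < F i s) :
    ∃ S : Finset ι, ∀ s : W D →+ ℝ, IsState (W.u D) s → ∃ i ∈ S, 0 < F i s := by
  let T : Set (W D → ℝ) := {f | (∀ x y, f (x + y) = f x + f y) ∧ Monotone f ∧ f (W.u D) = 1}
  have hT : ∀ f (hf : f ∈ T), IsState (W.u D) (AddMonoidHom.mk' f hf.1) := fun f hf =>
    ⟨hf.2.1, hf.2.2⟩
  choose k hk using W.exists_le_nsmul (A := D)
  have hc : IsCompact T := by
    refine (isCompact_univ_pi fun x => isCompact_Icc (a := (0 : ℝ)) (b := k x)).of_isClosed_subset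
      ?_ fun f hf x _ => ⟨(hT f hf).nonneg W.zero_le x,
        ((hT f hf).mono (hk x)).trans_eq ((hT f hf).nsmul_unit _)⟩
    simp only [T, Set.ofPred_and, Set.ofPred_forall, Monotone]
    exact (isClosed_iInter fun x => isClosed_iInter fun y => isClosed_eq (by fun_prop)
      (by fun_prop)).inter ((isClosed_iInter fun x => isClosed_iInter fun y =>
        isClosed_iInter fun _ => isClosed_le (by fun_prop) (by fun_prop)).inter
          (isClosed_eq (by fun_prop) continuous_const))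
  obtain ⟨S, hS⟩ := hc.elim_finite_subcover (fun i => {f | 0 < F i f})
    (fun i => isOpen_lt continuous_const (hF i)) fun f hf => by
      obtain ⟨i, hi⟩ := h _ (hT f hf)
      exact Set.mem_iUnion.2 ⟨i, hi⟩
  refine ⟨S, fun s hs => ?_⟩
  obtain ⟨i, h1, h2⟩ := Set.mem_iUnion₂.1 (hS (show ⇑s ∈ T from ⟨map_add s, hs.mono, hs.unit⟩))
  exact ⟨i, h1, h2⟩

lemma LL.exists_nsmul {x z : W D} (K : ℕ) (h : LL x (K • z)) : ∃ z', LL z' z ∧ x ≤ K • z' := by
  obtain ⟨k, b, hb, rfl⟩ := cls_surj z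
  suffices ∃ δ > 0, x ≤ K • cls (H50.cut δ b) by
    obtain ⟨δ, hδ, h1⟩ := this
    exact ⟨_, LL.cut hb hδ, h1⟩
  induction K generalizing x with
  | zero => exact ⟨1, one_pos, by simpa using h.le⟩
  | succ K ih =>
    rw [succ_nsmul] at h
    obtain ⟨z₁, z₂, h1, h2, h3⟩ := h.split
    obtain ⟨δ₁, p1, q1⟩ := ih h1
    obtain ⟨δ₂, p2, q2⟩ := h2.exists_cut hb
    refine ⟨min δ₁ δ₂, lt_min p1 p2, h3.trans ?_⟩
    rw [succ_nsmul]
    exact add_le_add (q1.trans (nsmul_le_nsmul_right (cls_cut_mono (min_le_left _ _) b) K))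
      (q2.trans (cls_cut_mono (min_le_right _ _) b))

lemma LL.nsmul {x z : W D} (K : ℕ) (h : LL x z) : LL (K • x) (K • z) := by
  induction K with
  | zero => simpa using LL.zero (0 : W D)
  | succ K ih =>
    rw [succ_nsmul, succ_nsmul]
    exact ih.add h

lemma Dom.mul_eq_zero' {p : Type} [Fintype p] [DecidableEq p] {X c : Matrix m m D} (hX : 0 ≤ X)
    (h : Dom X c) {P : Matrix p m D} (hP : P * c = 0) : P * X = 0 := by
  have h1 : P * rt X = 0 := Dom.mul_eq_zero (by rwa [conjT_rt, rt_mul_rt hX]) hP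
  rw [← rt_mul_rt hX, ← Matrix.mul_assoc, h1, Matrix.zero_mul]

/-- a common lower bound of `k` and `c` that carries the fraction `1 / K` of `w` -/
theorem link {w' w k c : W D} (h : LL w' w) {K : ℕ} (hk : K • w ≤ k) (hc : w ≤ K • c) :
    ∃ z' z, LL z' z ∧ z ≤ k ∧ z ≤ c ∧ w' ≤ K • z' := by
  obtain ⟨l, a, ε, ha, hε, h1, h2⟩ := h
  obtain ⟨j, b, hb, rfl⟩ := cls_surj c
  obtain ⟨x, hx, hd⟩ := slot_factor ha hb (h2.trans hc) (half_pos hε)
    (f := fun t => max (t - ε / 2) 0) (by fun_prop) (fun _ => le_max_right _ _)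
    fun t ht => max_eq_right (by linarith)
  rw [← cut] at hx
  have h0 : ∀ i, 0 ≤ x i * (x i)ᴴ := fun i => mul_conjT_self_nonneg _
  have h0' : ∀ i, 0 ≤ (x i)ᴴ * x i := fun i => conjT_mul_self_nonneg _
  have h3 : cls (cut (ε / 2) a) ≤ K • cls (∑ i, x i * (x i)ᴴ) := by
    rw [← hx]
    refine (cls_sum_le _ h0').trans ((Finset.sum_le_card_nsmul _ _ _ fun i hi => ?_).trans_eq
      (by rw [Finset.card_univ, Fintype.card_fin]))
    rw [cls_conjT_mul]
    exact cls_mono (h0 i) (Finset.single_le_sum (fun j _ => h0 j) hi)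
  obtain ⟨z', p1, p2⟩ := ((LL.cut_cut ha (half_lt_self hε)).mono h1 h3).exists_nsmul K
  refine ⟨z', _, p1, le_trans ?_ hk, (Dom.sum _ hd).cls_le (Finset.sum_nonneg fun i _ => h0 i) hb,
    p2⟩
  refine (cls_sum_le _ h0).trans ((Finset.sum_le_card_nsmul _ _ _ fun i hi => ?_).trans_eq
    (by rw [Finset.card_univ, Fintype.card_fin]))
  rw [← cls_conjT_mul]
  refine le_trans (cls_mono (h0' i) ?_) ((cls_cut_le (half_pos hε).le ha).trans h2)
  rw [← hx]
  exact Finset.single_le_sum (fun j _ => h0' j) hi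

lemma link_dom {p : Type} [Fintype p] [DecidableEq p] (x : Matrix m p D) {a : Matrix p p D}
    (ha : 0 ≤ a) : Dom (x * a * xᴴ) (x * xᴴ) := by
  have h1 := (IsSelfAdjoint.of_nonneg ha).le_algebraMap_norm_self
  rw [Algebra.algebraMap_eq_smul_one] at h1
  simpa only [Matrix.mul_one] using Dom.conj x (⟨_, norm_nonneg _, h1⟩ : Dom a 1)

lemma cls_le_cls_sq {q : Matrix m m D} (hq : 0 ≤ q) : cls q ≤ cls (q * q) := by
  have hs : IsSelfAdjoint q := .of_nonneg hq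
  have h1 : q * q = cfc (fun t : ℝ => t * t) q := by
    rw [← cfc_mul_id continuous_id' hs, cfc_id' ℝ q]
  have h2 : 0 ≤ q * q := by simpa only [hs.star_eq] using star_mul_self_nonneg q
  rw [cls_le_cls hq h2, h1]
  conv_lhs => rw [← cfc_id' ℝ q]
  exact (CSub.cfc_supp hs continuous_id' (by fun_prop)
    (fun t ht => spectrum_nonneg_of_nonneg hq ht) (fun t _ => mul_self_nonneg t)
    fun t _ ht => mul_self_eq_zero.1 ht).msub

/-- a common lower bound is realised by an operator -/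
theorem exists_op_link {k : Matrix m m D} {c : Matrix n n D} (hk : 0 ≤ k) (hc : 0 ≤ c)
    {z' z : W D} (h : LL z' z) (h1 : z ≤ cls k) (h2 : z ≤ cls c) :
    ∃ (S : Matrix n m D) (θ : ℝ), 0 < θ ∧ Dom (Sᴴ * S) k ∧ Dom (S * Sᴴ) c ∧
      z' ≤ cls (cut θ (Sᴴ * S)) := by
  obtain ⟨l, a, ε, ha, hε, h3, h4⟩ := h
  obtain ⟨x, hx, hd⟩ := slot_factor ha hk (N := 1) (by simpa using h4.trans h1) (half_pos hε)
    (f := fun t => max (t - ε / 2) 0) (by fun_prop) (fun _ => le_max_right _ _)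
    fun t ht => max_eq_right (by linarith)
  obtain ⟨y, hy, hd'⟩ := slot_factor ha hc (N := 1) (by simpa using h4.trans h2) (half_pos hε)
    (f := fun t => max (t - ε / 2) 0) (by fun_prop) (fun _ => le_max_right _ _)
    fun t ht => max_eq_right (by linarith)
  rw [Fin.sum_univ_one, ← cut] at hx hy
  have e1 : (y 0 * (x 0)ᴴ)ᴴ * (y 0 * (x 0)ᴴ) = x 0 * cut (ε / 2) a * (x 0)ᴴ := by
    rw [← hy]
    simp only [conjTranspose_mul, conjTranspose_conjTranspose, Matrix.mul_assoc]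
  have e2 : (y 0 * (x 0)ᴴ) * (y 0 * (x 0)ᴴ)ᴴ = y 0 * cut (ε / 2) a * (y 0)ᴴ := by
    rw [← hx]
    simp only [conjTranspose_mul, conjTranspose_conjTranspose, Matrix.mul_assoc]
  have e3 : (y 0 * (x 0)ᴴ)ᴴ * (y 0 * (x 0)ᴴ) = x 0 * (x 0)ᴴ * (x 0 * (x 0)ᴴ) := by
    rw [e1, ← hx]
    simp only [Matrix.mul_assoc]
  have h5 : cls (cut (ε / 2) a) ≤ cls ((y 0 * (x 0)ᴴ)ᴴ * (y 0 * (x 0)ᴴ)) := by
    rw [e3, ← hx, cls_conjT_mul]
    exact cls_le_cls_sq (mul_conjT_self_nonneg _)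
  obtain ⟨θ, hθ, h6⟩ := ((LL.cut_cut ha (half_lt_self hε)).mono h3 h5).exists_cut
    (conjT_mul_self_nonneg _)
  exact ⟨_, θ, hθ, e1 ▸ (link_dom _ (cut_nonneg _ _)).trans (hd 0),
    e2 ▸ (link_dom _ (cut_nonneg _ _)).trans (hd' 0), h6⟩

/-- where `X` acts as `Y`, the spectral subspace of `Y` lies in that of `X` -/
lemma ext_fix {X Y : Matrix m m D} (hX : IsSelfAdjoint X) (hY : IsSelfAdjoint Y) {a a₁ : ℝ}
    (h : a < a₁) (e : X * cut a₁ Y = Y * cut a₁ Y) : ∃ ψ, cut a X * ψ = cut a₁ Y := by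
  have hpos : ∀ t, 0 < max (t - a) (a₁ - a) := fun t => lt_max_of_lt_right (sub_pos.2 h)
  have hg : Continuous fun t : ℝ => (max (t - a) (a₁ - a))⁻¹ :=
    Continuous.inv₀ (by fun_prop) fun t => (hpos t).ne'
  have hf : Continuous fun t : ℝ => max (t - a) 0 * (max (t - a) (a₁ - a))⁻¹ :=
    Continuous.mul (by fun_prop) hg
  have e1 : cut a₁ Y * Y = X * cut a₁ Y := by
    rw [e, cut, cfc_mul_id (by fun_prop) hY, id_mul_cfc (by fun_prop) hY]
    exact cfc_congr fun t _ => mul_comm _ _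
  refine ⟨cfc (fun t : ℝ => (max (t - a) (a₁ - a))⁻¹) X * cut a₁ Y, ?_⟩
  rw [← mul_assoc, cut, cfc_mul_cfc (by fun_prop) hg, ← cfc_intertwine _ hf hY hX _ e1, cut,
    cfc_mul_cfc (by fun_prop) hf]
  refine cfc_congr fun t _ => ?_
  rcases le_total t a₁ with ht | ht
  · rw [max_eq_right (sub_nonpos.2 ht), zero_mul]
  · rw [max_eq_left (by linarith : 0 ≤ t - a), max_eq_left (by linarith : a₁ - a ≤ t - a),
      mul_inv_cancel₀ (by linarith : 0 < t - a).ne', mul_one]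

/-- an element on which `X` is at least `θ` is below the cut-down of `X` -/
lemma cls_le_cut_of_conj {q X : Matrix m m D} (hq : 0 ≤ q) (hX : 0 ≤ X) {a θ : ℝ} (h : a < θ)
    (e : θ • (q * q) ≤ q * X * q) : cls q ≤ cls (cut a X) := by
  have hs : qᴴ = q := (IsSelfAdjoint.of_nonneg hq).star_eq
  have h0 : 0 ≤ q * q := by simpa only [hs] using conjT_mul_self_nonneg q
  have h1 := conj_le_conj q (le_cut_add (.of_nonneg hX) a)
  rw [hs, mul_add, add_mul, mul_smul_comm, mul_one, smul_mul_assoc] at h1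
  have h2 : (θ - a) • (q * q) ≤ q * cut a X * qᴴ := by
    rw [sub_smul, sub_le_iff_le_add, hs]
    exact e.trans h1
  refine (cls_le_cls_sq hq).trans ?_
  rw [← cls_smul (sub_pos.2 h) h0]
  exact (cls_mono (smul_nonneg (sub_pos.2 h).le h0) h2).trans (cls_conj_le q (cut_nonneg _ _))

lemma smul_cut_sq_le {Y : Matrix m m D} (hY : IsSelfAdjoint Y) (θ : ℝ) :
    θ • (cut θ Y * cut θ Y) ≤ cut θ Y * Y * cut θ Y := by
  rw [cut, cfc_mul_id (by fun_prop) hY, cfc_mul_cfc (by fun_prop) (by fun_prop),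
    cfc_mul_cfc (by fun_prop) (by fun_prop), ← cfc_smul θ _ Y (by fun_prop)]
  refine cfc_mono (fun t _ => ?_) (by fun_prop) (by fun_prop)
  rw [smul_eq_mul]
  rcases le_total t θ with ht | ht
  · simp [max_eq_right (sub_nonpos.2 ht)]
  · nlinarith [mul_self_nonneg (max (t - θ) 0)]

/-- `T` extends the restriction of `T₀` to the spectral subspace `T₀ᴴ T₀ > a₀` -/
def Ext (T₀ : Matrix n m D) (a₀ : ℝ) (T : Matrix n m D) : Prop :=
  T * cut a₀ (T₀ᴴ * T₀) = T₀ * cut a₀ (T₀ᴴ * T₀) ∧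
    Tᴴ * T * cut a₀ (T₀ᴴ * T₀) = T₀ᴴ * T₀ * cut a₀ (T₀ᴴ * T₀)

lemma Ext.refl (T₀ : Matrix n m D) (a₀ : ℝ) : Ext T₀ a₀ T₀ := ⟨rfl, rfl⟩

lemma Ext.agree {T₀ T : Matrix n m D} {a₀ a₁ : ℝ} (h : Ext T₀ a₀ T) (ha : a₀ < a₁)
    {Y : Matrix m m D} (hY : IsSelfAdjoint Y) (e : T₀ᴴ * T₀ * cut a₁ Y = Y * cut a₁ Y) :
    T * cut a₁ Y = T₀ * cut a₁ Y ∧ Tᴴ * T * cut a₁ Y = T₀ᴴ * T₀ * cut a₁ Y := by
  obtain ⟨ψ, hψ⟩ := ext_fix (.of_nonneg (conjT_mul_self_nonneg T₀)) hY ha e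
  rw [← hψ, ← Matrix.mul_assoc, ← Matrix.mul_assoc, ← mul_assoc, ← mul_assoc, h.1, h.2]
  exact ⟨rfl, rfl⟩

lemma Ext.trans {T₀ T₁ T₂ : Matrix n m D} {a₀ a₁ : ℝ} (h : Ext T₀ a₀ T₁) (h' : Ext T₁ a₁ T₂)
    (ha : a₁ < a₀) : Ext T₀ a₀ T₂ := by
  obtain ⟨h1, h2⟩ := h'.agree ha (.of_nonneg (conjT_mul_self_nonneg T₀)) h.2
  exact ⟨h1.trans h.1, h2.trans h.2⟩

end Pool.Agent.Lib.MP_f90f6c_an.H50
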