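import Pool.Agent.Lib.MP_f90f6c_an.H85AI
import Pool.Agent.Lib.MP_f90f6c_an.H85Seq
import Pool.Agent.Lib.MP_f90f6c_an.H81Known

/-!
The reverse inequalities for the radius of comparison, without any hypothesis on quasitraces.
-/

namespace Pool.Agent.Lib.MP_f90f6c_an.H50

open Filter Topology Matrix
open scoped ENNReal

set_option linter.unusedSectionVars false

variable {G : Type*} [Group G] [Fintype G] [DecidableEq G] {A : Type*} [CStarAlgebra A]
  [PartialOrder A] [StarOrderedRing A] {α : G →* (A ≃⋆ₐ[ℂ] A)}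

/-- nonzero classes of the fixed point algebra have rank bounded below -/
theorem pos_fixed (hA : IsSimple A) (hinf : ¬FiniteDimensional ℂ A) (hα : WeakTracialRokhlin α)
    (e : W (fixedAlg α)) (he : e ≠ 0) : ∃ σ : ℝ, 0 < σ ∧ ∀ s, IsState (W.u _) s → σ ≤ s e := by
  obtain ⟨k, a, ha, rfl⟩ := cls_surj e
  obtain ⟨i, hi⟩ : ∃ i, a i i ≠ 0 := by
    by_contra h
    push Not at h
    obtain ⟨c, rfl⟩ := exists_eq_conjT_mul ha
    have h1 : c = 0 := by
      ext j i : 1
      have h2 : ∑ l, star (c l i) * c l i = 0 := h i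
      exact (CStarRing.star_mul_self_eq_zero_iff _).1 ((Finset.sum_eq_zero_iff_of_nonneg
        fun l _ => star_mul_self_nonneg (c l i)).1 h2 j (Finset.mem_univ j))
    exact he (by rw [h1, Matrix.mul_zero, cls_zero])
  have h0 : 0 ≤ (a i i : A) := diag_nonneg ha i
  obtain ⟨ι, _, x, hx⟩ := hA.exists_sum_star h0 fun h => hi (Subtype.ext h)
  have h1 : W.u A ≤ Fintype.card ι • inW α (cls a) := by
    rw [W.u, ← hx, ← Finset.card_univ, ← Finset.sum_const]
    refine (cls1_sum_le _ fun i => star_right_conjugate_nonneg h0 _).trans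
      (Finset.sum_le_sum fun j _ => (cls1_le (star_right_conjugate_nonneg h0 _) h0
        (CSub.conj _ _)).trans ?_)
    rw [Wmap1_cls _ ha]
    exact (cls_le_cls (oneBy_nonneg h0) (map_nonneg' _ ha)).2 (MSub.submatrix _ fun _ : Unit => i)
  have hn : (0 : ℝ) ≤ Fintype.card ι := Nat.cast_nonneg _
  have h2 : 0 < 1 / ((Fintype.card ι : ℝ) + 1) := by positivity
  refine ⟨_, half_pos h2, fun σ hσ => (big_fixed hA hinf hα (half_lt_self h2)
    (big_of_states W.zero_le W.exists_le_nsmul fun s hs => ?_) hσ).le⟩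
  have h3 := hs.mono h1
  rw [hs.unit, map_nsmul, nsmul_eq_mul] at h3
  have h4 : 0 < s (inW α (cls a)) := lt_of_le_of_ne (hs.nonneg W.zero_le _) fun h => by
    rw [← h, mul_zero] at h3
    linarith
  rw [div_lt_iff₀ (by positivity)]
  linarith

/-- comparison in the fixed point algebra gives comparison in `A` -/
theorem rComparison_of_fixed (hA : IsSimple A) (hinf : ¬FiniteDimensional ℂ A)
    (hα : WeakTracialRokhlin α) {r r' : ℝ} (hr : r < r')
    (HB : ∀ x y : W (fixedAlg α), (∀ s, IsState (W.u _) s → s x + r < s y) → x ≤ y) :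
    RComparison A r' := by
  have hFB : FIN (fixedAlg α) := fun ε hε => by
    obtain ⟨N, hN⟩ := exists_nat_gt ((1 + r) / ε)
    rw [div_lt_iff₀ hε] at hN
    refine ⟨N, 1, one_pos, fun x c hx hc => HB _ _ fun s hs => ?_⟩
    rw [map_nsmul, nsmul_eq_mul]
    have := mul_le_mul_of_nonneg_left (hc s hs).le (Nat.cast_nonneg (α := ℝ) N)
    linarith [hx s hs]
  have hTiB := tiny_fixed hA hinf hα
  have hFA := fin_of_fixed hA hinf hα (shrink_of_fin hTiB hFB (pos_fixed hA hinf hα)) HB
  obtain ⟨w, ⟨N, hN⟩, hw⟩ := hTiB ((r' - r) / 2) (by linarith)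
  refine rComparison_of_under (w := inW α w) ⟨N, ?_⟩ fun c hc => ?_
  · have := Wmap1_mono (fixedAlg α).subtype.toNonUnitalStarAlgHom hN
    rwa [map_nsmul, Wmap1_u _ (map_one (fixedAlg α).subtype)] at this
  · obtain ⟨y, h1, h2⟩ := le_of_big hA hinf (hasInf_of_fin (hA.tiny hinf) hFA) hα
      (show (r + r') / 2 < r' by linarith) (big_of_states W.zero_le W.exists_le_nsmul hc)
    exact (Wmap1_mono _ (HB w y fun s hs => by linarith [hw s hs, h1 s hs])).trans h2

theorem rc_le_full (hA : IsSimple A) (hinf : ¬FiniteDimensional ℂ A)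
    (hα : WeakTracialRokhlin α) :
    rc A ≤ rc (fixedAlg α) ∧ (Fintype.card G : ℝ≥0∞)⁻¹ * rc A ≤ rc (crossed α) := by
  refine ⟨le_iInf fun _ => le_iInf fun h0 => le_iInf fun h1 => rc_le_of_forall h0 fun _ hr =>
    rComparison_of_fixed hA hinf hα hr fun _ _ hxy => h1.le_of_states hxy,
    le_iInf fun r => le_iInf fun h0 => le_iInf fun h2 => ?_⟩
  have h3 := mul_nonneg (Nat.cast_nonneg (α := ℝ) (Fintype.card G)) h0
  have h1 := rc_le_of_forall h3 fun _ hr =>
    rComparison_of_fixed hA hinf hα hr (crossed_le_of_states hA hinf hα h0 h2)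
  rw [ENNReal.ofReal_mul (Nat.cast_nonneg _), ENNReal.ofReal_natCast] at h1
  exact (ENNReal.inv_mul_le_iff (Nat.cast_ne_zero.2 Fintype.card_ne_zero)
    (ENNReal.natCast_ne_top _)).2 h1

theorem rc_eq_full (hA : IsSimple A) (hinf : ¬FiniteDimensional ℂ A)
    (hα : WeakTracialRokhlin α) :
    rc (fixedAlg α) = rc A ∧ rc (crossed α) = (Fintype.card G : ℝ≥0∞)⁻¹ * rc A :=
  ⟨le_antisymm (rc_known hA hinf hα).1 (rc_le_full hA hinf hα).1,
    le_antisymm (rc_known hA hinf hα).2 (rc_le_full hA hinf hα).2⟩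

end Pool.Agent.Lib.MP_f90f6c_an.H50
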