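import Pool.Agent.Lib.MP_f90f6c_an.H50Gen

/-!
Tracial approximate oscillation zero.
-/

namespace Pool.Agent.Lib.MP_f90f6c_an.H50

variable (A : Type*) [CStarAlgebra A] [PartialOrder A] [StarOrderedRing A]

/-- Tracial approximate oscillation zero (Fu-Lin): every positive `a` in `M_n(A)` is, uniformly over
`QT(A)`, close in the 2-norm to a positive `b`, Cuntz subequivalent to `a`, whose tracial oscillation
`sup_τ (d_τ(b) - d_τ((b - δ)₊))` is small for some `δ > 0`. Here `cut δ b = (b - δ)₊`. -/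
def OscZero : Prop :=
  ∀ (n : ℕ) (a : Mn A n), 0 ≤ a → ∀ ε : ℝ, 0 < ε →
    ∃ b : Mn A n, 0 ≤ b ∧ CuntzSub b a ∧
      (∀ t : QT A, (t.τ n (star (a - b) * (a - b))).re ≤ ε) ∧
      ∃ δ : ℝ, 0 < δ ∧ ∀ t : QT A, t.d b ≤ t.d (cut δ b) + ε

end Pool.Agent.Lib.MP_f90f6c_an.H50
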