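import Pool.Agent.Lib.MP_f90f6c_an.H50Gam
import Pool.Agent.Lib.MP_f90f6c_an.H91OscDefs

/-!
Tracial approximate oscillation zero gives tracial comparison and large lower bounds in `W(A)`.
-/

namespace Pool.Agent.Lib.MP_f90f6c_an.H50

open Filter Topology Matrix

set_option linter.unusedSectionVars false

section Alg

variable {E : Type*} [CStarAlgebra E] [PartialOrder E] [StarOrderedRing E]

lemma csub_cut_of_le {a c : E} (ha : IsSelfAdjoint a) {η ε : ℝ} (hη : η < ε)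
    (h : a - algebraMap ℝ E η ≤ c) : CSub (cut ε a) c := by
  let f : ℝ → ℝ := fun t => max (t - ε) 0
  have hf : Continuous f := by fun_prop
  have hf0 : ∀ t, 0 ≤ f t := fun t => le_max_right _ _
  let k : ℝ → ℝ := fun t => √(f t / max (t - η) (ε - η))
  have hpos : ∀ t, 0 < max (t - η) (ε - η) := fun t => lt_max_of_lt_right (by linarith)
  have hk : Continuous k :=
    Real.continuous_sqrt.comp (hf.div (by fun_prop) fun t => (hpos t).ne')
  have h1 := star_left_conjugate_le_conjugate h (cfc k a)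
  rw [star_cfc] at h1
  have h2 : cut ε a ≤ cfc k a * c * star (cfc k a) := by
    rw [star_cfc]
    refine le_trans (le_of_eq ?_) h1
    have e1 : a - algebraMap ℝ E η = cfc (fun t => t - η) a := by
      rw [cfc_sub _ _ _ continuous_id'.continuousOn continuous_const.continuousOn, cfc_id' ℝ a,
        cfc_const η a]
    rw [e1, cfc_mul_cfc hk (by fun_prop), cfc_mul_cfc (by fun_prop) hk, cut]
    refine cfc_congr fun t _ => ?_
    have e2 : k t * k t = f t / max (t - η) (ε - η) :=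
      Real.mul_self_sqrt (div_nonneg (hf0 t) (hpos t).le)
    have e3 : k t * (t - η) * k t = f t / max (t - η) (ε - η) * (t - η) := by
      rw [← e2]
      ring
    simp only [e3]
    rcases le_or_gt t ε with h2 | h2
    · simp [f, max_eq_right (sub_nonpos.2 h2)]
    · rw [max_eq_left (show ε - η ≤ t - η by linarith), div_mul_cancel₀]
      linarith
  exact (CSub.of_le (cut_nonneg _ _) h2).trans (CSub.conj _ _)

lemma sub_le_cut {a : E} (ha : IsSelfAdjoint a) (ρ : ℝ) : a - algebraMap ℝ E ρ ≤ cut ρ a := by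
  have e1 : a - algebraMap ℝ E ρ = cfc (fun t => t - ρ) a := by
    rw [cfc_sub _ _ _ continuous_id'.continuousOn continuous_const.continuousOn, cfc_id' ℝ a,
      cfc_const ρ a]
  rw [e1, cut]
  exact cfc_mono (fun t _ => le_max_left _ _) (by fun_prop) (by fun_prop)

lemma csub_cut_add {a b : E} (ha : IsSelfAdjoint a) (hb : IsSelfAdjoint b) {ε δ ρ : ℝ}
    (h : δ + ρ < ε) : CSub (cut ε a) (cut δ b + cut ρ (a - b)) := by
  refine csub_cut_of_le ha h ?_
  have h1 := add_le_add (sub_le_cut hb δ) (sub_le_cut (ha.sub hb) ρ)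
  refine le_trans (le_of_eq ?_) h1
  rw [map_add]
  abel

lemma csub_cut_sq {h : E} (hh : IsSelfAdjoint h) {ρ : ℝ} (hρ : 0 < ρ) :
    CSub (cut ρ h) (cut (ρ * ρ) (star h * h)) := by
  have e : cut (ρ * ρ) (star h * h) = cfc (fun t => max (t * t - ρ * ρ) 0) h := by
    have e1 : star h * h = cfc (fun t : ℝ => t * t) h := by
      rw [hh.star_eq, ← cfc_mul_cfc continuous_id' continuous_id', cfc_id' ℝ h]
    rw [e1, cut, ← cfc_comp' _ _ h]
  rw [e, cut]
  refine CSub.cfc_supp hh (by fun_prop) (by fun_prop) (fun _ _ => le_max_right _ _)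
    (fun _ _ => le_max_right _ _) fun t _ ht => max_eq_right ?_
  rw [max_eq_right_iff] at ht
  nlinarith

end Alg

variable {A : Type*} [CStarAlgebra A] [PartialOrder A] [StarOrderedRing A]

variable (A) in
/-- oscillation zero, read in `W(A)` -/
def OscW : Prop := ∀ x' x : W A, LL x' x → ∀ η : ℝ, 0 < η → ∃ z' z κ : W A, LL z' z ∧ z ≤ x ∧
  x' ≤ z' + κ ∧ ∀ s, IsState (W.u A) s → s κ ≤ η ∧ s z ≤ s z' + η

theorem OscZero.oscW (h : OscZero A) : OscW A := by
  rintro x' x ⟨k, a, ε, ha, hε, h1, h2⟩ η hη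
  set ρ := ε / 4 with hρ
  have hρ0 : 0 < ρ := by positivity
  obtain ⟨b, hb, hba, h3, δ, hδ, h4⟩ := h k (CStarMatrix.ofMatrix a) ha (min η (ρ * ρ * η))
    (lt_min hη (by positivity))
  obtain ⟨b, rfl⟩ := CStarMatrix.ofMatrix.surjective b
  replace hb : 0 ≤ b := hb
  replace hba : MSub b a := cuntzSub_iff.1 hba
  have hs : IsSelfAdjoint (a - b) := (IsSelfAdjoint.of_nonneg ha).sub (.of_nonneg hb)
  have hδ' : 0 < min δ ρ := lt_min hδ hρ0
  refine ⟨cls (cut (min δ ρ) b), cls (cut (min δ ρ / 2) b), cls (cut ρ (cut ρ (a - b))),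
    LL.cut_cut hb (half_lt_self hδ'),
    ((cls_cut_le (half_pos hδ').le hb).trans ((cls_le_cls hb ha).2 hba)).trans h2, ?_,
    fun s hs' => ?_⟩
  · refine h1.trans (le_trans ?_ (cls_add_le (cut_nonneg _ _) (cut_nonneg _ _)))
    rw [cls_le_cls (cut_nonneg _ _) (add_nonneg (cut_nonneg _ _) (cut_nonneg _ _)),
      cut_cut hρ0.le hs]
    refine (csub_cut_add (.of_nonneg ha) (.of_nonneg hb) ?_).msub
    linarith [min_le_right δ ρ]
  · obtain ⟨t, ht⟩ := hs'.exists_qt_LL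
    constructor
    · have c1 := (ht k _ (cut_nonneg ρ (a - b))).2 _ (LL.cut (cut_nonneg ρ (a - b)) hρ0)
      have c2 := t.dimS_mono (cut_nonneg _ _) (cut_nonneg _ _) (csub_cut_sq hs hρ0).msub
      have c3 := (t.isQ k).dimS_cut_le (star_mul_self_nonneg (a - b)) (mul_pos hρ0 hρ0)
      have c4 : (t.tm k (star (a - b) * (a - b))).re ≤ ρ * ρ * η := (h3 t).trans (min_le_right _ _)
      refine c1.trans (c2.trans (c3.trans ?_))
      rw [inv_mul_le_iff₀ (mul_pos hρ0 hρ0)]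
      exact c4
    · have c1 := (ht k b hb).2 _ (LL.cut hb (half_pos hδ'))
      have c2 : t.d (CStarMatrix.ofMatrix b) ≤ t.d (CStarMatrix.ofMatrix (cut δ b)) + η :=
        (h4 t).trans (add_le_add le_rfl (min_le_left _ _))
      rw [t.d_eq hb, t.d_eq (cut_nonneg _ _)] at c2
      have c3 := (ht k _ (cut_nonneg δ b)).1
      have c4 := hs'.mono (cls_cut_mono (min_le_left δ ρ) b)
      linarith

lemma OscW.merge_one (h : OscW A) {c₁ c₂ e' e f' f : W A} (he : LL e' e) (he₁ : e ≤ c₁)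
    (he₂ : e ≤ c₂) (hf : LL f' f) (hf₁ : f ≤ c₁) (hf₂ : f ≤ c₂) {η : ℝ} (hη : 0 < η) :
    ∃ g' g, LL g' g ∧ g ≤ c₁ ∧ g ≤ c₂ ∧ ∀ s, IsState (W.u A) s →
      s e' ≤ s g' + η ∧ s f' ≤ 2 * s g' + η := by
  obtain ⟨p', p, κ, p1, p2, p3, p4⟩ := h _ _ he _ (half_pos hη)
  obtain ⟨q, q1, q2⟩ := p1.interp
  obtain ⟨d₁, d1, d2⟩ := q2.compl (p2.trans he₁)
  obtain ⟨d₂, d3, d4⟩ := q2.compl (p2.trans he₂)
  obtain ⟨f₁, f1, f2⟩ := hf.interp
  obtain ⟨f₂, f3, f4⟩ := f2.interp
  obtain ⟨a₁, b₁, -, r2, r3, r4, r5⟩ := f4.riesz (hf₁.trans d2)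
  obtain ⟨a₁', b₁', r6, r7, r8⟩ := (f3.mono le_rfl r5).split
  obtain ⟨a₂, b₂, -, u2, u3, u4, u5⟩ := r7.riesz (r3.trans (hf₂.trans d4))
  have v : f₁ ≤ (p + p) + b₂ := r8.trans (by
    rw [add_assoc]
    exact add_le_add (r6.le.trans r2) (u5.trans (add_le_add u2 le_rfl)))
  obtain ⟨z, b', v1, v2, v3⟩ := (f1.mono le_rfl v).split
  refine ⟨p' + b', q + b₂, q1.add v2, (add_le_add le_rfl (u3.trans r4)).trans d1,
    (add_le_add le_rfl u4).trans d3, fun s hs => ?_⟩
  have w1 := hs.mono p3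
  have w2 := hs.mono (v3.trans (add_le_add v1.le le_rfl))
  have w3 := hs.nonneg W.zero_le b'
  simp only [map_add] at w1 w2 ⊢
  obtain ⟨w4, w5⟩ := p4 s hs
  constructor <;> linarith

lemma OscW.merge (h : OscW A) {c₁ c₂ : W A} {ι : Type*} (F : Finset ι) {e' e : ι → W A}
    (he : ∀ i, LL (e' i) (e i)) (he₁ : ∀ i, e i ≤ c₁) (he₂ : ∀ i, e i ≤ c₂) {η : ℝ} (hη : 0 < η) :
    ∃ g' g, LL g' g ∧ g ≤ c₁ ∧ g ≤ c₂ ∧ ∀ s, IsState (W.u A) s →
      ∀ i ∈ F, s (e' i) ≤ 2 * s g' + η := by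
  classical
  induction F using Finset.induction_on generalizing η with
  | empty => exact ⟨0, 0, LL.zero _, W.zero_le _, W.zero_le _, by simp⟩
  | insert j F _ ih =>
    obtain ⟨g', g, g1, g2, g3, g4⟩ := ih (show 0 < η / 3 by positivity)
    obtain ⟨k', k, k1, k2, k3, k4⟩ := h.merge_one g1 g2 g3 (he j) (he₁ j) (he₂ j)
      (show 0 < η / 3 by positivity)
    refine ⟨k', k, k1, k2, k3, fun s hs i hi => ?_⟩
    obtain ⟨w1, w2⟩ := k4 s hs
    rcases Finset.mem_insert.1 hi with rfl | hi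
    · linarith
    · linarith [g4 s hs i hi]

lemma exists_finite_cover {ι : Type*} (x g : W A) (z : ι → W A) (t : ℝ)
    (h : ∀ s, IsState (W.u A) s → ∃ i, s x < s (z i) + s g + t) :
    ∃ F : Finset ι, ∀ s, IsState (W.u A) s → ∃ i ∈ F, s x < s (z i) + s g + t := by
  let T : Set (W A → ℝ) := {f | (∀ x y, f (x + y) = f x + f y) ∧ Monotone f ∧ f (W.u A) = 1}
  have hT : ∀ f (hf : f ∈ T), IsState (W.u A) (AddMonoidHom.mk' f hf.1) := fun f hf =>
    ⟨hf.2.1, hf.2.2⟩
  have hT' : ∀ s, IsState (W.u A) s → ⇑s ∈ T := fun s hs => ⟨map_add s, hs.mono, hs.unit⟩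
  choose k hk using W.exists_le_nsmul (A := A)
  have hc : IsCompact T := by
    refine (isCompact_univ_pi fun x => isCompact_Icc (a := (0 : ℝ)) (b := k x)).of_isClosed_subset
      ?_ fun f hf x _ => ⟨(hT f hf).nonneg W.zero_le x,
        ((hT f hf).mono (hk x)).trans_eq ((hT f hf).nsmul_unit _)⟩
    simp only [T, Set.ofPred_and, Set.ofPred_forall, Monotone]
    exact (isClosed_iInter fun x => isClosed_iInter fun y => isClosed_eq (by fun_prop)
      (by fun_prop)).inter ((isClosed_iInter fun x => isClosed_iInter fun y =>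
        isClosed_iInter fun _ => isClosed_le (by fun_prop) (by fun_prop)).inter
          (isClosed_eq (by fun_prop) continuous_const))
  obtain ⟨F, hF⟩ := hc.elim_finite_subcover (fun i => {f | f x < f (z i) + f g + t})
    (fun i => isOpen_lt (by fun_prop) (by fun_prop)) fun f hf => by
      obtain ⟨i, hi⟩ := h _ (hT f hf)
      exact Set.mem_iUnion.2 ⟨i, hi⟩
  refine ⟨F, fun s hs => ?_⟩
  obtain ⟨i, h1, h2⟩ := Set.mem_iUnion₂.1 (hF (hT' s hs))
  exact ⟨i, h1, h2⟩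

lemma exists_local {x' x c₁ c₂ g : W A} (hx : LL x' x) {t η : ℝ} (hη : 0 < η)
    (h₁ : ∀ s, IsState (W.u A) s → s x ≤ s c₁ + s g + t)
    (h₂ : ∀ s, IsState (W.u A) s → s x ≤ s c₂ + s g + t) {s : W A →+ ℝ} (hs : IsState (W.u A) s) :
    ∃ z' z, LL z' z ∧ z ≤ c₁ ∧ z ≤ c₂ ∧ s x' < s z' + s g + (t + η) := by
  obtain ⟨s', p1, p2, p3, p4⟩ := hs.exists_lsc
  obtain ⟨z, z1, z2, z3⟩ := exists_edwards_seq p1.mono p2 c₁ c₂
  have key : ∀ (p : W A →+ ℝ) (c : W A), Monotone p →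
      (∀ s, IsState (W.u A) s → s x ≤ s c + s g + t) → p x ≤ p c + p g + p (W.u A) * t := by
    intro p c hp hc
    rcases exists_state_smul hp with rfl | ⟨p0, s₁, hs₁, hp1⟩
    · simp
    · rw [hp1 x, hp1 c, hp1 g]
      have := mul_le_mul_of_nonneg_left (hc _ hs₁) p0.le
      linarith
  obtain ⟨k, hk⟩ := (z3 s' p1.mono p2 (fun _ => le_rfl) (s' x - s' g - t - η) fun p hp hp' => by
    have a1 := key p c₂ hp h₂
    have a2 := key (s' - p) c₁ hp' h₁
    simp only [AddMonoidHom.sub_apply, p1.unit] at a2 ⊢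
    linarith).exists
  obtain ⟨z', q1, q2⟩ := p2 _ _ hk
  exact ⟨z', z k, q1, z1 k, z2 k, by linarith [p3 z', p3 g, p4 _ _ hx]⟩

lemma OscW.half (h : OscW A) {x' x c₁ c₂ g : W A} (hx : LL x' x) {t η : ℝ} (hη : 0 < η)
    (h₁ : ∀ s, IsState (W.u A) s → s x ≤ s c₁ + s g + t)
    (h₂ : ∀ s, IsState (W.u A) s → s x ≤ s c₂ + s g + t) :
    ∃ e' e, LL e' e ∧ e ≤ c₁ ∧ e ≤ c₂ ∧ ∀ s, IsState (W.u A) s →
      s x' ≤ 2 * s e' + s g + t + η := by
  let ι := {p : W A × W A // LL p.1 p.2 ∧ p.2 ≤ c₁ ∧ p.2 ≤ c₂}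
  obtain ⟨F, hF⟩ := exists_finite_cover x' g (fun i : ι => i.1.1) (t + η / 2) fun s hs => by
    obtain ⟨z', z, q1, q2, q3, q4⟩ := exists_local hx (half_pos hη) h₁ h₂ hs
    exact ⟨⟨(z', z), q1, q2, q3⟩, q4⟩
  obtain ⟨e', e, e1, e2, e3, e4⟩ := h.merge F (e' := fun i : ι => i.1.1) (e := fun i => i.1.2)
    (fun i => i.2.1) (fun i => i.2.2.1) (fun i => i.2.2.2) (half_pos hη)
  refine ⟨e', e, e1, e2, e3, fun s hs => ?_⟩
  obtain ⟨i, hi, h3⟩ := hF s hs
  linarith [e4 s hs i hi]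

theorem OscW.exists_lower (h : OscW A) {x' x y₁ y₂ : W A} (hx : LL x' x) {t η : ℝ} (hη : 0 < η)
    (h₁ : ∀ s, IsState (W.u A) s → s x ≤ s y₁ + t)
    (h₂ : ∀ s, IsState (W.u A) s → s x ≤ s y₂ + t) :
    ∃ z' z, LL z' z ∧ z ≤ y₁ ∧ z ≤ y₂ ∧ ∀ s, IsState (W.u A) s → s x' ≤ s z' + t + η := by
  obtain ⟨K, hK⟩ := x'.exists_le_nsmul
  have key : ∀ j : ℕ, ∃ z' z, LL z' z ∧ z ≤ y₁ ∧ z ≤ y₂ ∧ ∀ s, IsState (W.u A) s →
      s x' ≤ s z' + t + ((K + |t|) * (1 / 2) ^ j + η / 2) := fun j => by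
    induction j with
    | zero =>
      refine ⟨0, 0, LL.zero _, W.zero_le _, W.zero_le _, fun s hs => ?_⟩
      have := hs.mono hK
      rw [hs.nsmul_unit] at this
      rw [map_zero, pow_zero]
      linarith [neg_abs_le t]
    | succ j ih =>
      obtain ⟨z', z, z1, z2, z3, z4⟩ := ih
      obtain ⟨p', p, κ, p1, p2, p3, p4⟩ := h _ _ z1 (η / 8) (by positivity)
      obtain ⟨q, q1, q2⟩ := p1.interp
      obtain ⟨c₁, d1, d2⟩ := q2.compl (p2.trans z2)
      obtain ⟨c₂, d3, d4⟩ := q2.compl (p2.trans z3)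
      obtain ⟨e', e, e1, e2, e3, e4⟩ := h.half hx (c₁ := c₁) (c₂ := c₂) (g := p) (t := t)
        (show 0 < η / 8 by positivity)
        (fun s hs => by
          have := hs.mono d2
          rw [map_add] at this
          linarith [h₁ s hs])
        (fun s hs => by
          have := hs.mono d4
          rw [map_add] at this
          linarith [h₂ s hs])
      refine ⟨p' + e', q + e, q1.add e1, (add_le_add le_rfl e2).trans d1,
        (add_le_add le_rfl e3).trans d3, fun s hs => ?_⟩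
      have w1 := hs.mono p3
      rw [map_add] at w1 ⊢
      obtain ⟨w2, w3⟩ := p4 s hs
      rw [pow_succ]
      linarith [z4 s hs, e4 s hs]
  have hpos : (0 : ℝ) < K + |t| + 1 := by positivity
  obtain ⟨j, hj⟩ := exists_pow_lt_of_lt_one (div_pos (half_pos hη) hpos)
    (show (1 / 2 : ℝ) < 1 by norm_num)
  obtain ⟨z', z, z1, z2, z3, z4⟩ := key j
  refine ⟨z', z, z1, z2, z3, fun s hs => ?_⟩
  rw [lt_div_iff₀ hpos] at hj
  have : (0 : ℝ) < (1 / 2) ^ j := by positivity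
  nlinarith [z4 s hs]

lemma Big.exists_gap {t : ℝ} {x : W A} (h : Big (W.u A) t x) :
    ∃ t', t < t' ∧ ∀ s, IsState (W.u A) s → t' ≤ s x := by
  obtain ⟨k, l, m, h1, h2⟩ := h
  have hk : (0 : ℝ) < k + 1 := by positivity
  refine ⟨(l - m) / (k + 1), by rw [lt_div_iff₀ hk]; linarith, fun s hs => ?_⟩
  have h3 := hs.mono h1
  rw [map_add, hs.nsmul_unit, hs.nsmul_unit, map_nsmul, nsmul_eq_mul] at h3
  push_cast at h3
  rw [div_le_iff₀ hk]
  linarith

theorem OscW.hasInf (h : OscW A) : HasInf A := fun t x y hx hy => by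
  obtain ⟨t₁, a1, a2⟩ := hx.exists_gap
  obtain ⟨t₂, b1, b2⟩ := hy.exists_gap
  have h0 : t < min t₁ t₂ := lt_min a1 b1
  obtain ⟨z', z, z1, z2, z3, z4⟩ := h.exists_lower (LL.zero 0) (y₁ := x) (y₂ := y)
    (t := -min t₁ t₂) (half_pos (sub_pos.2 h0))
    (fun s hs => by
      rw [map_zero]
      linarith [a2 s hs, min_le_left t₁ t₂])
    (fun s hs => by
      rw [map_zero]
      linarith [b2 s hs, min_le_right t₁ t₂])
  refine ⟨z, z2, z3, big_of_states W.zero_le W.exists_le_nsmul fun s hs => ?_⟩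
  have := z4 s hs
  rw [map_zero] at this
  linarith [hs.mono z1.le]

theorem OscW.embed (h : OscW A) {x' x y : W A} (hx : LL x' x)
    (hxy : ∀ s, IsState (W.u A) s → s x ≤ s y) {ε : ℝ} (hε : 0 < ε) :
    ∃ κ, Solves x' x y κ ∧ ∀ s, IsState (W.u A) s → s κ < ε := by
  obtain ⟨p', p, κ, p1, p2, p3, p4⟩ := h _ _ hx (ε / 4) (by positivity)
  obtain ⟨z', z, z1, z2, z3, z4⟩ := h.exists_lower p1 (y₁ := p) (y₂ := y) (t := 0)
    (show 0 < ε / 4 by positivity) (fun s _ => by simp)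
    (fun s hs => by linarith [hxy s hs, hs.mono p2])
  obtain ⟨c, c1, c2⟩ := z1.compl z2
  refine ⟨c + κ, ⟨z, z2.trans p2, z3, ?_⟩, fun s hs => ?_⟩
  · rw [← add_assoc]
    exact p3.trans (add_le_add (p1.le.trans c2) le_rfl)
  · have w1 := hs.mono c1
    rw [map_add] at w1 ⊢
    obtain ⟨w2, w3⟩ := p4 s hs
    linarith [z4 s hs]

variable {G : Type*} [Group G] [Fintype G] [DecidableEq G] {α : G →* (A ≃⋆ₐ[ℂ] A)}

theorem reduces_of_oscW (hA : IsSimple A) (hinf : ¬FiniteDimensional ℂ A) (hP : OscW A)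
    (hα : WeakTracialRokhlin α) : Reduces α := fun r r' h0 hr HB =>
  rComparison_of_states fun x' x y hx hab => by
    have hn : (0 : ℝ) < Fintype.card G := Nat.cast_pos.2 Fintype.card_pos
    set η := (r' - r) / 3 with hη
    have hη0 : 0 < η := by linarith
    obtain ⟨x₁, p1, p2⟩ := hx.interp
    obtain ⟨κ, ⟨z, q1, q2, q3⟩, q4⟩ := hP.embed p2 (y := y)
      (fun s hs => by linarith [hab s hs]) (div_pos hη0 hn)
    obtain ⟨k, c, hc, rfl⟩ := cls_surj κ
    let c' : Matrix (Fin k) (Fin k) (fixedAlg α) := c.map (avg α)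
    have e1 : c'.map (fixedAlg α).subtype = ∑ g, c.map (α g) := by
      ext i j
      simp [c', coe_avg, Matrix.sum_apply]
    have hc' : 0 ≤ c' := nonneg_of_map_nonneg (mapHom (fixedAlg α).subtype)
      (mapHom_injective _ Subtype.val_injective)
      (le_of_le_of_eq (Finset.sum_nonneg fun g _ => map_act_nonneg g hc) e1.symm)
    have e2 : inW α (cls c') = cls (∑ g, c.map (α g)) := (Wmap1_cls _ hc').trans (congrArg cls e1)
    have q5 : cls c ≤ inW α (cls c') := by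
      rw [e2]
      refine cls_mono hc (le_of_eq_of_le ?_ (Finset.single_le_sum
        (fun g _ => map_act_nonneg (α := α) g hc) (Finset.mem_univ 1)))
      ext i j
      exact (act_one α _).symm
    have q6 : ∀ s, IsState (W.u A) s → s (inW α (cls c')) < η := fun s hs => by
      rw [e2]
      refine (hs.mono (cls_sum_le _ fun g => map_act_nonneg g hc)).trans_lt ?_
      rw [map_sum]
      refine (Finset.sum_lt_sum_of_nonempty Finset.univ_nonempty
        (g := fun _ => η / Fintype.card G) fun g _ => ?_).trans_eq ?_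
      · rw [← actW_cls g hc]
        exact q4 (s.comp (actW α g)) ⟨hs.mono.comp (Wmap1_mono _), by
          change s (Wmap1 _ _) = 1
          rw [Wmap1_u _ (map_one (α g)), hs.unit]⟩
      · rw [Finset.sum_const, Finset.card_univ, nsmul_eq_mul, mul_div_cancel₀ _ hn.ne']
    obtain ⟨z', κ', r1, r2, r3⟩ := (p1.mono le_rfl (q3.trans (add_le_add le_rfl q5))).split
    rw [Wmap1_cls _ hc'] at r2
    obtain ⟨ε, hε, r4⟩ := r2.exists_cut (map_nonneg' _ hc')
    obtain ⟨w, r5, r6⟩ := r1.compl q2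
    obtain ⟨v, r7, r8⟩ := le_of_big hA hinf hP.hasInf hα (show r' - η < r' by linarith) (x := w)
      (big_of_states W.zero_le W.exists_le_nsmul fun s hs => by
        have := hs.mono r6
        rw [map_add] at this
        linarith [hab s hs, hs.mono q1])
    obtain ⟨d, d1, d2⟩ := (LL.cut hc' hε).compl (cls_le_card hc')
    have d3 := Wmap1_mono (fixedAlg α).subtype.toNonUnitalStarAlgHom d2
    rw [map_nsmul, Wmap1_u _ (map_one (fixedAlg α).subtype), map_add] at d3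
    have r9 := HB (cls (cut ε c')) v fun s hs => by
      have d4 := big_fixed hA hinf hα
        (show Fintype.card (Fin k) - η - η < Fintype.card (Fin k) - η by linarith) (y := d)
        (big_of_states W.zero_le W.exists_le_nsmul fun s hs => by
          have := hs.mono d3
          rw [map_add, hs.nsmul_unit] at this
          linarith [q6 s hs]) hs
      have d5 := hs.mono d1
      rw [map_add, hs.nsmul_unit] at d5
      linarith [r7 s hs]
    rw [Wmap1_cls _ (cut_nonneg _ _)] at r9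
    refine r3.trans (le_trans (add_le_add le_rfl (r4.trans (le_trans (le_of_eq ?_)
      (r9.trans r8)))) r5)
    exact congrArg cls (map_cut (fixedAlg α).subtype ε (.of_nonneg hc')).symm

end Pool.Agent.Lib.MP_f90f6c_an.H50
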